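import Pool.Agent.Lib.MP_88ff4d_co.NP.TH2

/-! Adjacent ends: moves out of a smaller subcube, conversions. -/

set_option autoImplicit false

namespace Pool.Agent.Lib.MP_88ff4d_co.NP

open Finset

variable {n : ℕ} {D D0 : Finset (Fin n)} {b b0 b1 : V n} {H T : Finset (V n)}
  {P : V n × Bool → V n × Bool} {i j : Fin n}

theorem closeSq2 (hD0 : D0 ⊆ D) (h0 : b0 ∈ Sub D b) (hP : Inv (Po D b H T) P)
    (hS : SP (Po D b H T) P) {H0 : Finset (V n)} {c : Cf n} (O : Ok D0 b0 H0 T c)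
    {Z : Finset (Fin n)} (hZ : Z ⊆ D0 \ c.Sg)
    (hs : ∀ p ∈ c.B, ∀ q ∈ c.B, p ≠ q → 2 ≤ #(df Z p q)) {x : V n} (hx : x ∈ c.X) {l : Fin n}
    (hl : l ∈ D0 \ c.Sg) (hlZ : l ∉ Z)
    (hH : ∀ z ∈ Sub D0 b0, z ∈ H ↔ z = fl x l ∨ z ∈ H0) {F : Finset (V n × Bool)}
    (hF : F ⊆ Po D b H T) (hc : Cl F P) (big : #Z + #c.Sg + 2 * #F < #(gd D0 P x l)) :
    ∃ m H' P', Ok D0 b0 H' T (c.toSq x l m) ∧
      (∀ z ∉ Sub D0 b0, (z ∈ H' ↔ z ∈ H)) ∧ Red D b T H P H' P' F 4 := by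
  obtain ⟨m, hm, hb⟩ := exists_avoid (A := gd D0 P x l) (Bd := Z ∪ c.Sg ∪
      (univ.filter fun g => (fl x g, false) ∈ F) ∪ univ.filter fun g => (fl (fl x l) g, false) ∈ F)
    (by
      have h1 := card_hit F x
      have h2 := card_hit F (fl x l)
      refine lt_of_le_of_lt ((card_union_le _ _).trans (Nat.add_le_add ((card_union_le _ _).trans
        (Nat.add_le_add (card_union_le _ _) h1)) h2)) (by omega))
  simp only [mem_union, mem_filter, mem_univ, true_and, not_or] at hb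
  obtain ⟨⟨⟨b1, b2⟩, b4⟩, b5⟩ := hb
  obtain ⟨m1, m2, m3⟩ := mem_filter.mp hm
  have hxS : x ∈ Sub D0 b0 := O.sub (mem_B.mpr (Or.inl hx))
  have l1 := (mem_sdiff.mp hl).1
  have u1 : fl x m ∈ Sub D0 b0 := fl_mem_Sub m1 hxS
  have w1 : fl (fl x m) l ∈ Sub D0 b0 := fl_mem_Sub l1 u1
  have u2 := O.near hZ hs hx u1 (fl_ne x m) fun i hi => fl_apply_ne x fun e => b1 (e ▸ hi)
  have w2 := O.near hZ hs hx w1 (fl_fl_ne x m2) fun i hi => by
    rw [fl_apply_ne _ fun e : i = l => hlZ (e ▸ hi), fl_apply_ne x fun e : i = m => b1 (e ▸ hi)]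
  obtain ⟨P', R⟩ := edgeR hP hS (CLx.Sub_mono hD0 h0 u1) (CLx.Sub_mono hD0 h0 w1)
    ⟨fun h => ((hH _ u1).mp h).elim (fun e => m2 (fl_inj x e)) u2.1, u2.2⟩
    ⟨fun h => ((hH _ w1).mp h).elim (fun e => fl_ne x m (fl_left_inj l e)) w2.1, w2.2⟩
    (adj_fl _ _) m3 hF hc b4 (by rwa [fl_comm])
  refine ⟨m, _, P', O.toSq hZ hs hx hl (mem_sdiff.mpr ⟨m1, b2⟩) m2.symm hlZ b1 fun z hz => ?_,
    fun z hz => ?_, R⟩
  · simp only [mem_insert, hH z hz]
    tauto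
  · simp only [mem_insert]
    exact ⟨fun h => h.elim (fun e => absurd (e ▸ u1) hz) fun h => h.elim
      (fun e => absurd (e ▸ w1) hz) id, fun h => Or.inr (Or.inr h)⟩

/-- a hole leaves the subcube of codimension two across `j` -/
theorem move2 (hj : j ∈ D) (h0 : b0 ∈ Sub D b) (h1 : b1 ∈ Sub D b)
    (hne : b0 j ≠ b1 j) (hP : Inv (Po D b H T) P) (hS : SP (Po D b H T) P) {c0 c1 : Cf n}
    (O0 : Ok ((D.erase j).erase i) b0 H T c0) (O1 : Ok (D.erase j) b1 H T c1) (y0 : c0.Y = ∅)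
    (y1 : c1.Y = ∅) {x : V n} (hx : x ∈ c0.X) (cr : ∀ q ∈ c1.B, 1 ≤ #(df (D.erase j) x q)) {N : ℕ}
    (n0 : #c0.B ≤ N) (n1 : #c1.B ≤ N) {F : Finset (V n × Bool)} (hF : F ⊆ Po D b H T)
    (hc : Cl F P) (hF2 : #F ≤ 6) (big : 2 * N ^ 2 + 2 * N + 15 ≤ #(gd D P x j))
    (hd : 4 * N ^ 2 + 40 ≤ #D) (hij : i ≠ j) :
    ∃ x' l m H' P', Ok ((D.erase j).erase i) b0 H' T (c0.toSq x l m) ∧
      Ok (D.erase j) b1 H' T (c1.addX x') ∧ x' ∉ c1.B ∧ par x' = par x ∧ x' i = x i ∧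
      (∀ z, z j = b0 j → z i ≠ b0 i → (z ∈ H' ↔ z ∈ H)) ∧ Red D b T H P H' P' F 8 := by
  obtain ⟨Z, z1, z2, z3⟩ := O0.prot
  have g0 : c0.Sg = ∅ := Sg_empty y0
  have g1 : D.erase j \ c1.Sg = D.erase j := by rw [Sg_empty y1, sdiff_empty]
  have z4 : #Z ≤ 2 * N ^ 2 := z2.trans (Nat.mul_le_mul_left _ (Nat.pow_le_pow_left n0 2))
  set A := D.erase j with hA
  have sA : A.erase i ⊆ D := (erase_subset _ _).trans (erase_subset _ _)
  set Bd := c1.B.biUnion fun q => if #(df A x q) ≤ 2 then df A x q else ∅ with hBd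
  have d1 : #Bd ≤ #c1.B * 2 := card_biUnion_le_card_mul _ _ 2 fun q _ => by
    split_ifs with c
    · exact c
    · simp
  obtain ⟨l, hl, hb⟩ := exists_avoid (A := gd D P x j) (Bd := insert i (Z ∪ Bd ∪
      bk (A.erase i) P x ∪ (univ.filter fun g => (fl x g, false) ∈ F) ∪
      univ.filter fun g => (fl (fl x j) g, false) ∈ F)) (by
    have h1 := card_hit F x
    have h2 := card_hit F (fl x j)
    have h3 := bk_le (D := A.erase i) (P := P) x
    refine lt_of_le_of_lt ((card_insert_le _ _).trans (Nat.add_le_add_right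
      ((card_union_le _ _).trans (Nat.add_le_add ((card_union_le _ _).trans
      (Nat.add_le_add ((card_union_le _ _).trans (Nat.add_le_add ((card_union_le _ _).trans
      (Nat.add_le_add z4 d1)) h3)) h1)) h2)) _)) (by omega))
  simp only [mem_insert, mem_union, mem_filter, mem_univ, true_and, not_or, bk, not_lt] at hb
  obtain ⟨b0', ⟨⟨⟨b1', b4⟩, b5⟩, b6⟩, b7⟩ := hb
  obtain ⟨l1, l2, l3⟩ := mem_filter.mp hl
  have l4 : l ∈ A := mem_erase.mpr ⟨l2, l1⟩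
  have l5 : l ∈ A.erase i := mem_erase.mpr ⟨b0', l4⟩
  have sj : ∀ z ∈ Sub (A.erase i) b0, z j = b0 j := fun z hz =>
    mem_Sub.mp hz j fun c => notMem_erase j D (mem_of_mem_erase c)
  have hxS : x ∈ Sub (A.erase i) b0 := O0.sub (mem_B.mpr (Or.inl hx))
  have a1 : fl x l ∈ Sub (A.erase i) b0 := fl_mem_Sub l5 hxS
  have a2 := CLx.Sub_mono sA h0 a1
  have a3 := sj _ a1
  have a4 := O0.near z1 z3 hx a1 (fl_ne x l) fun i hi => fl_apply_ne x fun e => b1' (e ▸ hi)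
  have e1 : fl (fl x l) j j = b1 j := by
    rw [fl_apply_self, a3]
    exact z2_two hne (z2_ne _)
  have e2 : fl (fl x l) j ∈ Sub A b1 := (mem_Sub_erase h1 hj).mpr ⟨fl_mem_Sub hj a2, e1⟩
  have far1 : ∀ q ∈ c1.B, 2 ≤ #(df (A \ c1.Sg) (fl (fl x l) j) q) := fun q hq => by
    rw [g1, df_congr (p' := fl x l) fun i hi => fl_apply_ne _ (mem_erase.mp hi).1]
    refine df_fl l4 (cr q hq) fun c hh => b4 ?_
    exact mem_biUnion.mpr ⟨q, hq, by rw [if_pos c]; exact hh⟩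
  obtain ⟨f1, f2⟩ := O1.normal2 e2 fun q hq => one_le_two.trans (far1 q hq)
  obtain ⟨P1, R1⟩ := edgeR hP hS a2 (fl_mem_Sub hj a2) a4 f2 (adj_fl _ _) l3 hF hc b6
    (by rwa [fl_comm])
  have g2 := R1.gd_le (A.erase i) x l
  have g3 : #A = #D - 1 := card_erase_of_mem hj
  have g4 := pred_card_le_card_erase (s := A) (a := i)
  obtain ⟨m, H', P', k1, k2, R2⟩ := closeSq2 sA h0 R1.1 R1.2.1 O0 z1 z3 hx
    (by rw [g0, sdiff_empty]; exact l5) b1' (fun z hz => by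
      simp only [mem_insert]
      refine ⟨fun h => h.elim Or.inl fun h => h.elim (fun e => absurd ?_ hne) Or.inr,
        fun h => h.elim Or.inl fun h => Or.inr (Or.inr h)⟩
      rw [← e1, ← e, sj z hz]) R1.2.2.2.1 (R1.cl hc) (by rw [g0, card_empty]; omega)
  refine ⟨_, l, m, H', P', k1, O1.addX e2 far1 fun z hz => ?_, f1, ?_, ?_, fun z c1 c2 => ?_,
    R1.trans R2⟩
  · have c := ((mem_Sub_erase h1 hj).mp hz).2
    rw [k2 z fun d => hne ((sj z d).symm.trans c)]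
    simp only [mem_insert]
    exact ⟨fun h => h.elim (fun e => absurd (by rw [← a3, ← e, c]) hne) id, Or.inr⟩
  · rw [par_fl, par_fl, add_assoc]
    simp [CharTwo.add_self_eq_zero]
  · rw [fl_apply_ne _ hij, fl_apply_ne x fun e => b0' e.symm]
  · have nz : z ∉ Sub (A.erase i) b0 := fun d => c2 (mem_Sub.mp d i (notMem_erase i A))
    rw [k2 z nz]
    simp only [mem_insert]
    exact ⟨fun h => h.elim (fun e => absurd (e ▸ a1) nz) fun h => h.elim
      (fun e => absurd (by rw [← c1, e, e1]) hne) id, fun h => Or.inr (Or.inr h)⟩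

/-- holes and targets only -/
def cfE (X U : Finset (V n)) (j : Fin n) : Cf n := ⟨X, U, ∅, fun _ => j, fun _ => j⟩

theorem cfE_B {X U : Finset (V n)} {z : V n} : z ∈ (cfE X U j).B ↔ z ∈ X ∪ U := by
  simp [mem_B, cfE]

theorem okE {X U : Finset (V n)} (sub : X ∪ U ⊆ Sub D0 b0) (hH : ∀ z ∈ Sub D0 b0, z ∈ H ↔ z ∈ X)
    (hT : ∀ z ∈ Sub D0 b0, z ∈ T ↔ z ∈ U) (dj : Disjoint X U)
    (sep : ∀ p ∈ X ∪ U, ∀ q ∈ X ∪ U, par p ≠ par q → 2 ≤ #(df D p q)) :
    Ok D0 b0 H T (cfE X U j) := by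
  have g : (cfE X U j).Sg = ∅ := Sg_empty rfl
  refine ⟨fun z hz => sub (cfE_B.mp hz), fun z hz => by simpa [cfE] using hH z hz, hT,
    by rw [g]; exact empty_subset _, fun y hy => absurd hy (notMem_empty y), dj,
    disjoint_empty_right _, disjoint_empty_right _, fun p hp q hq hne => ?_⟩
  have k1 := cfE_B.mp hp
  have k2 := cfE_B.mp hq
  rw [g, sdiff_empty]
  by_cases c : par p = par q
  · exact df_two (sub k1) (sub k2) hne c
  refine (sep p k1 q k2 c).trans (card_le_card fun k hk => mem_df.mpr ⟨?_, (mem_df.mp hk).2⟩)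
  by_contra d
  exact (mem_df.mp hk).2 ((mem_Sub.mp (sub k1) k d).trans (mem_Sub.mp (sub k2) k d).symm)

theorem df_fl_ge (A : Finset (Fin n)) {y x : V n} (h : y j = x j) :
    #(df A y x) ≤ #(df A y (fl x j)) :=
  card_le_card fun k hk => mem_df.mpr ⟨(mem_df.mp hk).1, by
    rw [fl_apply_ne x fun e : k = j => (mem_df.mp hk).2 (e ▸ h)]; exact (mem_df.mp hk).2⟩

theorem df_fl_fl (A : Finset (Fin n)) (y x : V n) : df A (fl y i) (fl x i) = df A y x := by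
  ext k
  simp [mem_df, fl]

variable {u : V n} {U : Finset (V n)} {t : ℕ}

theorem adjPrep (h : G2 D b H T u (fl u i) U) (hi : i ∈ D) (hj : j ∈ D) (hij : j ≠ i)
    (hP : Inv (Po D b H T) P) (hS : SP (Po D b H T) P) (ut : #U ≤ t)
    (hD : 2 * (t + 1) ^ 2 + 2 ≤ #D) {S S' G G' E : Finset (V n)}
    (mS : ∀ z ∈ S, z ∈ U ∧ par z ≠ par u ∧ z j = u j)
    (mS' : ∀ z ∈ S', z ∈ U ∧ par z ≠ par u ∧ z j = u j ∧ z i = u i ∧ z ∉ S)
    (mG : ∀ z ∈ G, z ∈ U ∧ par z = par u ∧ z j = u j)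
    (mG' : ∀ z ∈ G', z ∈ U ∧ par z = par u ∧ z j = u j ∧ z ∉ G)
    (mE : ∀ z ∈ E, z ∈ U ∧ par z ≠ par u ∧ z j ≠ u j) :
    ∃ H' T' P' IB I1 I2 IX, Inv (Po D b H' T') P' ∧ SP (Po D b H' T') P' ∧
      Pr0 D b H' T' u (fl u i) (IB ∪ I1 ∪ I2 ∪ IX) (U \ (S ∪ E ∪ G ∪ G' ∪ S')) ∧
      (∀ z ∈ IB, z j ≠ u j ∧ par z = par u) ∧ (∀ z ∈ I1, z j = u j ∧ z i ≠ u i ∧ par z ≠ par u) ∧
      (∀ z ∈ I2, z j = u j ∧ z i = u i ∧ par z ≠ par u) ∧
      (∀ z ∈ IX, z j = u j ∧ z i ≠ u i ∧ par z = par u) ∧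
      #IB = #S + #E ∧ #I1 = #G ∧ #I2 = #G' ∧ #IX = #S' ∧
      (∀ x l, #(gd D P x l) ≤ #(gd D P' x l) + 4 * #U ∧ #(gd D P' x l) ≤ #(gd D P x l) + 4 * #U) ∧
      (Good adp (Po D b H' T') P' → Good adp (Po D b H T) P) := by
  obtain ⟨g, g0, g1, g2, g3, g4⟩ := h.exg i j ut hD
  let L : V n → Prop := fun x => x ∈ S' ∨ (x ∈ G ∧ x i = u i) ∨ (x ∈ G' ∧ x i ≠ u i)
  let w : V n → V n := fun x => if x ∈ S then fl x j else if L x then fl x i else fl x g
  have w1 : ∀ x ∈ S, w x = fl x j := fun x hx => if_pos hx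
  have w2 : ∀ x ∉ S, L x → w x = fl x i := fun x hx c => (if_neg hx).trans (if_pos c)
  have w3 : ∀ x ∉ S, ¬ L x → w x = fl x g := fun x hx c => (if_neg hx).trans (if_neg c)
  have Lj : ∀ x, L x → x j = u j := by
    rintro x (c | c | c)
    exacts [(mS' x c).2.2.1, (mG x c.1).2.2, (mG' x c.1).2.2.1]
  have CU : S ∪ E ∪ G ∪ G' ∪ S' ⊆ U := union_subset (union_subset (union_subset (union_subset
    (fun z hz => (mS z hz).1) fun z hz => (mE z hz).1) fun z hz => (mG z hz).1)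
    fun z hz => (mG' z hz).1) fun z hz => (mS' z hz).1
  have mix : ∀ x ∈ S, ∀ y, L y → fl x j ≠ fl y i := fun x hx y hy e => by
    have := congrFun e j
    rw [fl_apply_self, fl_apply_ne y hij, (mS x hx).2.2, Lj y hy] at this
    exact z2_ne _ this
  have hw : Set.InjOn w (S ∪ E ∪ G ∪ G' ∪ S' : Finset (V n)) := by
    intro x hx y hy e
    have a := g4 x (CU hx) y (CU hy)
    have a' := g4 y (CU hy) x (CU hx)
    by_cases c : x ∈ S <;> by_cases c' : y ∈ S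
    · rw [w1 x c, w1 y c'] at e; exact fl_left_inj j e
    · by_cases d : L y
      · rw [w1 x c, w2 y c' d] at e; exact absurd e (mix x c y d)
      · rw [w1 x c, w3 y c' d] at e; exact absurd e a.2
    · by_cases d : L x
      · rw [w2 x c d, w1 y c'] at e; exact absurd e.symm (mix y c' x d)
      · rw [w3 x c d, w1 y c'] at e; exact absurd e.symm a'.2
    · by_cases d : L x <;> by_cases d' : L y
      · rw [w2 x c d, w2 y c' d'] at e; exact fl_left_inj i e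
      · rw [w2 x c d, w3 y c' d'] at e; exact absurd e a.1
      · rw [w3 x c d, w2 y c' d'] at e; exact absurd e.symm a'.1
      · rw [w3 x c d, w3 y c' d'] at e; exact fl_left_inj g e
  have wa : ∀ x ∈ U, adj x (w x) ∧ w x ∈ Sub D b ∧ 2 ≤ #(df D u (w x)) ∧
      2 ≤ #(df D (fl u i) (w x)) := fun x hx => by
    have a := h.sub hx
    have f := h.f2 x hx
    by_cases c : x ∈ S
    · rw [w1 x c]
      exact ⟨adj_fl _ _, fl_mem_Sub hj a, f.1.trans (df_fl_ge D (mS x c).2.2.symm),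
        f.2.trans (df_fl_ge D ((fl_apply_ne u hij).trans (mS x c).2.2.symm))⟩
    by_cases d : L x
    · rw [w2 x c d, df_fl_fl, ← df_fl_fl (i := i) D u, fl_fl]
      exact ⟨adj_fl _ _, fl_mem_Sub hi a, f.2, f.1⟩
    · rw [w3 x c d]
      exact ⟨adj_fl _ _, fl_mem_Sub g0 a, g3 x hx⟩
  obtain ⟨H', T', P', m1, m2, m3, m4, m5⟩ := h.prep hP hS w CU hw fun x hx => wa x (CU hx)
  have pw : ∀ x ∈ U, (par x = par u → par (w x) ≠ par u) ∧ (par x ≠ par u → par (w x) = par u) :=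
    fun x hx => ⟨fun e => e ▸ (wa x hx).1.par_ne.symm, fun e => z2_two e (wa x hx).1.par_ne.symm⟩
  have cd : ∀ A ⊆ S ∪ E ∪ G ∪ G' ∪ S', #(A.image w) = #A := fun A hA =>
    card_image_of_injOn (hw.mono hA)
  rw [image_union, image_union, image_union] at m3
  refine ⟨H', T', P', _, _, _, _, m1, m2, m3, ?_, ?_, ?_, ?_, ?_,
    cd G fun z hz => by simp [hz], cd G' fun z hz => by simp [hz], cd S' fun z hz => by simp [hz],
    m4, m5⟩
  · refine forall_mem_image.mpr fun x hx => ?_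
    rcases mem_union.mp hx with c | c
    · refine ⟨?_, (pw x (mS x c).1).2 (mS x c).2.1⟩
      rw [w1 x c, fl_apply_self, (mS x c).2.2]
      exact z2_ne _
    · refine ⟨?_, (pw x (mE x c).1).2 (mE x c).2.1⟩
      rw [w3 x (fun d => (mE x c).2.2 (mS x d).2.2) (fun d => (mE x c).2.2 (Lj x d)),
        fl_apply_ne x g2.symm]
      exact (mE x c).2.2
  · refine forall_mem_image.mpr fun x hx => ?_
    obtain ⟨a1, a2, a3⟩ := mG x hx
    have c : x ∉ S := fun d => (mS x d).2.1 a2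
    refine (and_assoc.mp ⟨?_, (pw x a1).1 a2⟩)
    by_cases d : x i = u i
    · rw [w2 x c (Or.inr (Or.inl ⟨hx, d⟩)), fl_apply_ne x hij, fl_apply_self, d]
      exact ⟨a3, z2_ne _⟩
    · rw [w3 x c (by
        rintro (e | e | e)
        exacts [(mS' x e).2.1 a2, d e.2, (mG' x e.1).2.2.2 hx]), fl_apply_ne x g2.symm,
        fl_apply_ne x g1.symm]
      exact ⟨a3, d⟩
  · refine forall_mem_image.mpr fun x hx => ?_
    obtain ⟨a1, a2, a3, a4⟩ := mG' x hx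
    have c : x ∉ S := fun d => (mS x d).2.1 a2
    refine (and_assoc.mp ⟨?_, (pw x a1).1 a2⟩)
    by_cases d : x i = u i
    · rw [w3 x c (by
        rintro (e | e | e)
        exacts [(mS' x e).2.1 a2, a4 e.1, e.2 d]), fl_apply_ne x g2.symm, fl_apply_ne x g1.symm]
      exact ⟨a3, d⟩
    · rw [w2 x c (Or.inr (Or.inr ⟨hx, d⟩)), fl_apply_ne x hij, fl_apply_self]
      exact ⟨a3, z2_a d⟩
  · refine forall_mem_image.mpr fun x hx => ?_
    obtain ⟨a1, a2, a3, a4, a5⟩ := mS' x hx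
    refine (and_assoc.mp ⟨?_, (pw x a1).2 a2⟩)
    rw [w2 x a5 (Or.inl hx), fl_apply_ne x hij, fl_apply_self, a4]
    exact ⟨a3, z2_ne _⟩
  · rw [cd _ fun z hz => mem_union_left _ (mem_union_left _ (mem_union_left _ hz))]
    exact card_union_of_disjoint (disjoint_left.mpr fun z k k' => (mE z k').2.2 (mS z k).2.2)

end Pool.Agent.Lib.MP_88ff4d_co.NP
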