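import Pool.Agent.Lib.MP_88ff4d_co.NP.AD1

/-! Adjacent ends: the three regions and the four cases. -/

set_option autoImplicit false

namespace Pool.Agent.Lib.MP_88ff4d_co.NP

open Finset

variable {n : ℕ} {D : Finset (Fin n)} {b u : V n} {H T IB I1 I2 IX W : Finset (V n)}
  {P : V n × Bool → V n × Bool} {i j : Fin n} {N t : ℕ}

/-- the state after the conversions -/
structure Ad (D : Finset (Fin n)) (b : V n) (H T : Finset (V n)) (u : V n) (i j : Fin n)
    (IB I1 I2 IX W : Finset (V n)) : Prop where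
  hi : i ∈ D
  hj : j ∈ D
  hij : j ≠ i
  pre : Pr0 D b H T u (fl u i) (IB ∪ I1 ∪ I2 ∪ IX) W
  lB : ∀ z ∈ IB, z j ≠ u j ∧ par z = par u
  l1 : ∀ z ∈ I1, z j = u j ∧ z i ≠ u i ∧ par z ≠ par u
  l2 : ∀ z ∈ I2, z j = u j ∧ z i = u i ∧ par z ≠ par u
  lX : ∀ z ∈ IX, z j = u j ∧ z i ≠ u i ∧ par z = par u
  lW : ∀ z ∈ W, z j = u j → par z ≠ par u

theorem mem2 {w z : V n} (hw : w ∈ Sub D b) (hi : i ∈ D) (hj : j ∈ D) (hij : j ≠ i) :
    z ∈ Sub ((D.erase j).erase i) w ↔ (z ∈ Sub D b ∧ z j = w j) ∧ z i = w i := by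
  rw [mem_Sub_erase (self_mem_Sub _ w) (mem_erase.mpr ⟨hij.symm, hi⟩), mem_Sub_erase hw hj]

theorem fl_self_ne (u : V n) (i : Fin n) : fl u i i ≠ u i := by rw [fl_apply_self]; exact z2_ne _

theorem Ad.mH (h : Ad D b H T u i j IB I1 I2 IX W) {z : V n} (hz : z ∈ Sub D b) :
    z ∈ H ↔ z = u ∨ z = fl u i ∨ z ∈ IB ∨ z ∈ I1 ∨ z ∈ I2 ∨ z ∈ IX := by
  rw [h.pre.hH z hz]
  simp only [mem_insert, mem_union, or_assoc]

theorem Ad.far (h : Ad D b H T u i j IB I1 I2 IX W) {z : V n}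
    (hz : z ∈ IB ∨ z ∈ I1 ∨ z ∈ I2 ∨ z ∈ IX ∨ z ∈ W) :
    z ∈ Sub D b ∧ 2 ≤ #(df D u z) ∧ 2 ≤ #(df D (fl u i) z) :=
  have k : z ∈ IB ∪ I1 ∪ I2 ∪ IX ∪ W := by simpa only [mem_union, or_assoc] using hz
  ⟨h.pre.sub k, h.pre.far z k⟩

theorem Ad.dj (h : Ad D b H T u i j IB I1 I2 IX W) {z : V n} (hW : z ∈ W)
    (hz : z = u ∨ z = fl u i ∨ z ∈ IB ∨ z ∈ I1 ∨ z ∈ I2 ∨ z ∈ IX) : False := by
  have k := (h.far (Or.inr (Or.inr (Or.inr (Or.inr hW))))).2
  rcases hz with e | e | e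
  · rw [e, df_self] at k; omega
  · rw [e, df_self] at k; omega
  · exact disjoint_left.mp h.pre.dj (by simpa only [mem_union, or_assoc] using e) hW

theorem Ad.base2 (h : Ad D b H T u i j IB I1 I2 IX W) {A : Finset (Fin n)} {H0 : Finset (V n)}
    (hA : ∀ z ∈ Sub D b, z j = u j → z i = u i → z ∈ Sub A u)
    (hH : ∀ z ∈ Sub A u, z ∈ H0 ↔ z ∈ insert u I2)
    (hT : ∀ z ∈ Sub A u, z ∈ T ↔ z ∈ W.filter fun z => z j = u j ∧ z i = u i) :
    Ok A u H0 T (cfE (insert u I2) (W.filter fun z => z j = u j ∧ z i = u i) j) := by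
  have k : ∀ z ∈ insert u I2 ∪ W.filter fun z => z j = u j ∧ z i = u i, z = u ∨
      (z ∈ Sub D b ∧ 2 ≤ #(df D u z)) ∧ z j = u j ∧ z i = u i ∧ par z ≠ par u := fun z hz => by
    rcases mem_union.mp hz with c | c
    · refine (mem_insert.mp c).imp_right fun c => ?_
      have a := h.far (Or.inr (Or.inr (Or.inl c)))
      exact ⟨⟨a.1, a.2.1⟩, h.l2 z c⟩
    · obtain ⟨c1, c2, c3⟩ := mem_filter.mp c
      have a := h.far (Or.inr (Or.inr (Or.inr (Or.inr c1))))
      exact Or.inr ⟨⟨a.1, a.2.1⟩, c2, c3, h.lW z c1 c2⟩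
  refine okE (D := D) (fun z hz => ?_) hH hT (disjoint_left.mpr fun z c c' => ?_)
    fun p hp q hq c => ?_
  · rcases k z hz with rfl | a
    · exact self_mem_Sub _ _
    · exact hA z a.1.1 a.2.1 a.2.2.1
  · exact h.dj (mem_filter.mp c').1 ((mem_insert.mp c).imp_right fun c => by simp [c])
  · rcases k p hp with rfl | a <;> rcases k q hq with rfl | a'
    · exact absurd rfl c
    · exact a'.1.2
    · rw [df_comm]; exact a.1.2
    · exact absurd (z2_two a'.2.2.2.symm a.2.2.2) c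

theorem Ad.ok2 (h : Ad D b H T u i j IB I1 I2 IX W) : Ok ((D.erase j).erase i) u H T
    (cfE (insert u I2) (W.filter fun z => z j = u j ∧ z i = u i) j) := by
  have m := fun z => mem2 (z := z) h.pre.hu h.hi h.hj h.hij
  refine h.base2 (fun z a1 a2 a3 => (m z).mpr ⟨⟨a1, a2⟩, a3⟩) (fun z hz => ?_) fun z hz => ?_
  · obtain ⟨⟨a1, a2⟩, a3⟩ := (m z).mp hz
    rw [h.mH a1, mem_insert]
    refine ⟨?_, fun c => c.imp_right fun c => by simp [c]⟩
    rintro (c | c | c | c | c | c)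
    exacts [Or.inl c, absurd (c ▸ a3) (fl_self_ne u i), absurd a2 (h.lB z c).1,
      absurd a3 (h.l1 z c).2.1, Or.inr c, absurd a3 (h.lX z c).2.1]
  · obtain ⟨⟨a1, a2⟩, a3⟩ := (m z).mp hz
    rw [h.pre.hT z a1, mem_filter]
    exact ⟨fun c => ⟨c, a2, a3⟩, fun c => c.1⟩

theorem Ad.ok1 (h : Ad D b H T u i j IB I1 I2 IX W)
    (hX : IX = ∅ ∨ I1 = ∅ ∧ (W.filter fun z => z j = u j ∧ z i ≠ u i) = ∅) :
    Ok ((D.erase j).erase i) (fl u i) H T
      (cfE (insert (fl u i) (I1 ∪ IX)) (W.filter fun z => z j = u j ∧ z i ≠ u i) j) := by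
  have m := fun z => mem2 (z := z) h.pre.hv h.hi h.hj h.hij
  have s1 : fl u i j = u j := fl_apply_ne u h.hij
  have s2 := fl_self_ne u i
  have k : ∀ z ∈ insert (fl u i) (I1 ∪ IX) ∪ W.filter fun z => z j = u j ∧ z i ≠ u i,
      z = fl u i ∨ (z ∈ Sub D b ∧ 2 ≤ #(df D (fl u i) z)) ∧ z j = u j ∧ z i ≠ u i ∧
      (par z = par u ↔ IX ≠ ∅) := fun z hz => by
    rcases mem_union.mp hz with c | c
    · refine (mem_insert.mp c).imp_right fun c => ?_
      rcases mem_union.mp c with c | c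
      · have a := h.far (Or.inr (Or.inl c))
        exact ⟨⟨a.1, a.2.2⟩, (h.l1 z c).1, (h.l1 z c).2.1, fun d => absurd d (h.l1 z c).2.2,
          fun d => absurd ((hX.resolve_left d).1 ▸ c) (notMem_empty z)⟩
      · have a := h.far (Or.inr (Or.inr (Or.inr (Or.inl c))))
        exact ⟨⟨a.1, a.2.2⟩, (h.lX z c).1, (h.lX z c).2.1, fun _ => ne_empty_of_mem c,
          fun _ => (h.lX z c).2.2⟩
    · obtain ⟨c1, c2, c3⟩ := mem_filter.mp c
      have a := h.far (Or.inr (Or.inr (Or.inr (Or.inr c1))))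
      exact Or.inr ⟨⟨a.1, a.2.2⟩, c2, c3, fun d => absurd d (h.lW z c1 c2),
        fun d => absurd ((hX.resolve_left d).2 ▸ c) (notMem_empty z)⟩
  refine okE (D := D) (fun z hz => ?_) (fun z hz => ?_) (fun z hz => ?_)
    (disjoint_left.mpr fun z c c' => ?_) fun p hp q hq c => ?_
  · rcases k z hz with rfl | a
    · exact self_mem_Sub _ _
    · exact (m z).mpr ⟨⟨a.1.1, a.2.1.trans s1.symm⟩, z2_two s2.symm a.2.2.1⟩
  · obtain ⟨⟨a1, a2⟩, a3⟩ := (m z).mp hz
    rw [h.mH a1, mem_insert, mem_union]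
    refine ⟨?_, fun c => Or.inr (c.imp_right fun c => Or.inr
      (c.imp_right fun c => Or.inr c))⟩
    rintro (c | c | c | c | c | c)
    exacts [absurd (c ▸ a3).symm s2, Or.inl c, absurd (a2.trans s1) (h.lB z c).1,
      Or.inr (Or.inl c), absurd (a3.symm.trans (h.l2 z c).2.1) s2, Or.inr (Or.inr c)]
  · obtain ⟨⟨a1, a2⟩, a3⟩ := (m z).mp hz
    rw [h.pre.hT z a1, mem_filter]
    exact ⟨fun c => ⟨c, a2.trans s1, a3 ▸ s2⟩, fun c => c.1⟩
  · refine h.dj (mem_filter.mp c').1 (Or.inr ((mem_insert.mp c).imp_right fun c => Or.inr ?_))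
    exact (mem_union.mp c).imp_right Or.inr
  · rcases k p hp with rfl | a <;> rcases k q hq with rfl | a'
    · exact absurd rfl c
    · exact a'.1.2
    · rw [df_comm]; exact a.1.2
    · refine absurd ?_ c
      by_cases d : par p = par u
      · rw [d, a'.2.2.2.mpr (a.2.2.2.mp d)]
      · exact z2_two (fun e => d (a.2.2.2.mpr (a'.2.2.2.mp e.symm))) d

theorem Ad.okB (h : Ad D b H T u i j IB I1 I2 IX W)
    (sep : ∀ p ∈ IB ∪ W.filter fun z => z j ≠ u j, ∀ q ∈ IB ∪ W.filter fun z => z j ≠ u j,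
      par p ≠ par q → 2 ≤ #(df D p q)) :
    Ok (D.erase j) (fl u j) H T (cfE IB (W.filter fun z => z j ≠ u j) j) := by
  have m := fun z => mem_Sub_erase (z := z) (fl_mem_Sub h.hj h.pre.hu) h.hj
  have s2 := fl_self_ne u j
  refine okE (D := D) (fun z hz => ?_) (fun z hz => ?_) (fun z hz => ?_)
    (disjoint_left.mpr fun z c c' => h.dj (mem_filter.mp c').1 (by simp [c])) sep
  · rcases mem_union.mp hz with c | c
    · exact (m z).mpr ⟨(h.far (Or.inl c)).1, z2_two s2.symm (h.lB z c).1⟩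
    · exact (m z).mpr ⟨(h.far (by simp [(mem_filter.mp c).1])).1,
        z2_two s2.symm (mem_filter.mp c).2⟩
  · obtain ⟨a1, a2⟩ := (m z).mp hz
    have a3 : z j ≠ u j := a2 ▸ s2
    rw [h.mH a1]
    refine ⟨?_, fun c => by simp [c]⟩
    rintro (c | c | c | c | c | c)
    exacts [absurd (by rw [c]) a3, absurd (by rw [c, fl_apply_ne u h.hij]) a3, c,
      absurd (h.l1 z c).1 a3, absurd (h.l2 z c).1 a3, absurd (h.lX z c).1 a3]
  · obtain ⟨a1, a2⟩ := (m z).mp hz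
    rw [h.pre.hT z a1, mem_filter]
    exact ⟨fun c => ⟨c, a2 ▸ s2⟩, fun c => c.1⟩

theorem Ad.crB (h : Ad D b H T u i j IB I1 I2 IX W) {q : V n}
    (hq : q ∈ (cfE IB (W.filter fun z => z j ≠ u j) j).B) :
    1 ≤ #(df (D.erase j) u q) ∧ 1 ≤ #(df (D.erase j) (fl u i) q) := by
  have a := h.far (z := q) ((mem_union.mp (cfE_B.mp hq)).imp_right fun c => by
    simp [(mem_filter.mp c).1])
  have a1 := df_erase_le D u q j
  have a2 := df_erase_le D (fl u i) q j
  omega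

theorem Ad.nu (h : Ad D b H T u i j IB I1 I2 IX W) : u ∉ I2 :=
  fun c => (h.l2 u c).2.2 rfl

theorem Ad.nv (h : Ad D b H T u i j IB I1 I2 IX W) : fl u i ∉ I1 ∪ IX := fun c => by
  have a := (h.far (z := fl u i) (Or.inr ((mem_union.mp c).imp_right fun c => by simp [c]))).2.2
  rw [df_self] at a
  omega

theorem Ad.par2 (h : Ad D b H T u i j IB I1 I2 IX W) (l m : Fin n) : Par (par u + 1)
    ((cfE (insert u I2) (W.filter fun z => z j = u j ∧ z i = u i) j).toSq u l m) := by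
  intro z hz
  rcases mem_union.mp hz with c | c
  · obtain ⟨c1, c2⟩ := mem_erase.mp c
    exact z2_eq (h.l2 z ((mem_insert.mp c2).resolve_left c1)).2.2
  · exact z2_eq (h.lW z (mem_filter.mp c).1 (mem_filter.mp c).2.1)

theorem Ad.par1 (h : Ad D b H T u i j IB I1 I2 ∅ W) : Par (par u + 1)
    (cfE (insert (fl u i) (I1 ∪ ∅)) (W.filter fun z => z j = u j ∧ z i ≠ u i) j) := by
  intro z hz
  rcases mem_union.mp hz with c | c
  · rcases mem_insert.mp c with rfl | c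
    · exact par_fl u i
    · exact z2_eq (h.l1 z (by simpa using c)).2.2
  · exact z2_eq (h.lW z (mem_filter.mp c).1 (mem_filter.mp c).2.1)

theorem Ad.parB (h : Ad D b H T u i j IB I1 I2 IX W) (pB : ∀ z ∈ W, z j ≠ u j → par z = par u) :
    Par (par u) (cfE IB (W.filter fun z => z j ≠ u j) j) := fun z hz =>
  (mem_union.mp hz).elim (fun c => (h.lB z c).2)
    fun c => pB z (mem_filter.mp c).1 (mem_filter.mp c).2

theorem Ad.okB' (h : Ad D b H T u i j IB I1 I2 IX W) (pB : ∀ z ∈ W, z j ≠ u j → par z = par u) :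
    Ok (D.erase j) (fl u j) H T (cfE IB (W.filter fun z => z j ≠ u j) j) :=
  h.okB fun p hp q hq c => absurd ((h.parB pB p hp).trans (h.parB pB q hq).symm) c

/-- the domino of the two ends is closed to a square -/
theorem Ad.caseK (hF : FarSt) (hL : LinkSt) (hT : TMSt) (h : Ad D b H T u i j IB ∅ I2 ∅ W)
    (hP : Inv (Po D b H T) P) (hS : SP (Po D b H T) P)
    (w1 : ∀ z ∈ W, z j = u j → z i = u i) (pB : ∀ z ∈ W, z j ≠ u j → par z = par u)
    (e2 : #I2 = #(W.filter fun z => z j = u j ∧ z i = u i))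
    (eB : #IB = #(W.filter fun z => z j ≠ u j)) (ut : #W ≤ t) (hN : (t + 1) ^ 2 + 10 ≤ N)
    (big : 2 * N ^ 2 + 2 ≤ #(gd D P u i)) (hD : 50 * N ^ 2 + 100 + 5 * N + t + 1 ≤ #D) :
    Good adp (Po D b H T) P := by
  have m := fun z => mem_Sub_erase (z := z) h.pre.hu h.hj
  have O := h.base2 (A := D.erase j) (H0 := insert u I2) (fun z a1 a2 _ => (m z).mpr ⟨a1, a2⟩)
    (fun _ _ => Iff.rfl) fun z hz => by
      obtain ⟨a1, a2⟩ := (m z).mp hz
      rw [h.pre.hT z a1, mem_filter]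
      exact ⟨fun c => ⟨c, a2, w1 z c a2⟩, fun c => c.1⟩
  set c := cfE (insert u I2) (W.filter fun z => z j = u j ∧ z i = u i) j with dc
  obtain ⟨Z, z1, z2, z3⟩ := O.prot
  have sq : (t + 1) ^ 2 = t ^ 2 + 2 * t + 1 := by ring
  have u2 : #c.U ≤ t := (card_filter_le _ _).trans ut
  have x2 : #c.X = #c.U + 1 := (card_insert_of_notMem h.nu).trans (by rw [e2]; rfl)
  have y2 : #c.Y = 0 := rfl
  have b2 := card_B_le (c := c)
  have z4 : #Z ≤ 2 * N ^ 2 :=
    z2.trans (Nat.mul_le_mul_left _ (Nat.pow_le_pow_left (by omega) 2))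
  have z5 := card_erase_le (s := Z) (a := i)
  have g := gd_erase (D := D) (P := P) (j := j) u i
  have g0 : c.Sg = ∅ := Sg_empty rfl
  have si : ∀ p ∈ c.B, p i = u i := fun p hp => by
    rcases mem_union.mp (cfE_B.mp hp) with d | d
    · rcases mem_insert.mp d with rfl | d
      exacts [rfl, (h.l2 p d).2.1]
    · exact (mem_filter.mp d).2.2
  have uX : u ∈ c.X := mem_insert_self _ _
  obtain ⟨m', H', P', K, k2, R⟩ := closeSq2 (F := ∅) (Z := Z.erase i) (l := i) (erase_subset j D)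
    h.pre.hu hP hS O ((erase_subset _ _).trans z1) (fun p hp q hq d =>
      (z3 p hp q hq d).trans (df_erase_eq Z ((si p hp).trans (si q hq).symm))) uX
    (by rw [g0, sdiff_empty]; exact mem_erase.mpr ⟨h.hij.symm, h.hi⟩) (notMem_erase _ _)
    (fun z hz => by
      obtain ⟨a1, a2⟩ := (m z).mp hz
      rw [h.mH a1, mem_insert]
      have : z ∉ IB := fun d => (h.lB z d).1 a2
      simp only [this, notMem_empty, false_or, or_false, or_left_comm])
    (empty_subset _) (fun _ hh => absurd hh (notMem_empty _))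
    (by simp only [g0, card_empty]; omega)
  have x3 : #(c.toSq u i m').Y ≤ #c.Y + 1 := card_insert_le _ _
  have x8 := card_erase_add_one uX
  have s2 := fl_self_ne u j
  refine R.2.2.2.2 (mxA (N := N) (t := t) hF hL hT h.hj h.pre.hu (fl_mem_Sub h.hj h.pre.hu) s2.symm
    R.1 R.2.1 K ((h.okB' pB).congrH fun z hz => k2 z fun d => s2 ?_) (h.par2 i m') (h.parB pB) ?_
    eB u2 ((card_filter_le _ _).trans ut) (by omega) (by show 0 + _ + 4 ≤ N; omega) hD)
  · exact (mem_Sub.mp hz j (notMem_erase _ _)).symm.trans (mem_Sub.mp d j (notMem_erase _ _))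
  · show #(c.X.erase u) = #c.U
    omega

end Pool.Agent.Lib.MP_88ff4d_co.NP
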