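import Pool.Agent.Lib.MP_88ff4d_co.NP.AD2

/-! Adjacent ends: the cases with moves. -/

set_option autoImplicit false

namespace Pool.Agent.Lib.MP_88ff4d_co.NP

open Finset

variable {n : ℕ} {D : Finset (Fin n)} {b u : V n} {H T IB I1 I2 IX W : Finset (V n)}
  {P : V n × Bool → V n × Bool} {i j : Fin n} {N t : ℕ}

theorem robA (hF : FarSt) (hL : LinkSt) (hT : TMSt) {A : Finset (Fin n)} (hi : i ∈ A)
    {c2 c1 : Cf n} {π : ZMod 2} (O2 : Ok (A.erase i) u H T c2) (O1 : Ok (A.erase i) (fl u i) H T c1)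
    (p2 : Par π c2) (p1 : Par π c1) (e2 : #c2.X = #c2.U) (e1 : #c1.X = #c1.U) (u2 : #c2.U ≤ t)
    (u1 : #c1.U ≤ t) (y2 : #c2.Y ≤ 1) (y1 : #c1.Y ≤ 1) (hN : (t + 1) ^ 2 + 10 ≤ N)
    (hD : 50 * N ^ 2 + 100 + 5 * N + t + 1 ≤ #A) : Rob (Po A u H T) := fun _ hP hS =>
  mxA (N := N) (t := t) hF hL hT hi (self_mem_Sub A u) (fl_mem_Sub hi (self_mem_Sub A u))
    (fl_self_ne u i).symm hP hS O2 O1 p2 p1 e2 e1 u2 u1 (by omega) (by omega) hD

/-- the end `u` leaves; a crossing pair and `F` are kept -/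
theorem Ad.out (hT : TMSt) (h : Ad D b H T u i j IB I1 I2 IX W) (hP : Inv (Po D b H T) P)
    (hS : SP (Po D b H T) P) (pB : ∀ z ∈ W, z j ≠ u j → par z = par u)
    (e2 : #I2 = #(W.filter fun z => z j = u j ∧ z i = u i))
    (eB : #IB + 1 = #(W.filter fun z => z j ≠ u j)) (ut : #W ≤ t) (hN : (t + 1) ^ 2 + 10 ≤ N)
    (big : 2 * N ^ 2 + 2 * N + 15 ≤ #(gd D P u j)) (hD : 50 * N ^ 2 + 100 + 5 * N + t + 2 ≤ #D)
    {F : Finset (V n × Bool)} (hF : F ⊆ Po D b H T) (hc : Cl F P) (h4 : #F ≤ 4) :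
    ∃ H' P' c2, Inv (Po D b H' T) P' ∧ SP (Po D b H' T) P' ∧ F ⊆ Po D b H' T ∧
      (∀ p ∈ F, P' p = P p) ∧ Ok ((D.erase j).erase i) u H' T c2 ∧ Par (par u + 1) c2 ∧
      #c2.X = #c2.U ∧ #c2.U ≤ t ∧ #c2.Y ≤ 1 ∧
      (∀ z ∈ Sub ((D.erase j).erase i) (fl u i), z ∈ H' ↔ z ∈ H) ∧
      ((∀ P2, Inv (Po (D.erase j) u H' T) P2 → SP (Po (D.erase j) u H' T) P2 →
        (∀ p ∈ Po (D.erase j) u H' T, P' p ∈ Po (D.erase j) u H' T → P2 p = P' p) →
        Good adp (Po (D.erase j) u H' T) P2) → Good adp (Po D b H T) P) := by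
  have O2 := h.ok2
  have OB := h.okB' pB
  have cr := fun q hq => (h.crB (q := q) hq).1
  have q2 := h.par2
  have qB := h.parB pB
  set c2 := cfE (insert u I2) (W.filter fun z => z j = u j ∧ z i = u i) j with d2
  set cB := cfE IB (W.filter fun z => z j ≠ u j) j with dB
  have sq : (t + 1) ^ 2 = t ^ 2 + 2 * t + 1 := by ring
  have g := card_erase_of_mem h.hj
  have u2 : #c2.U ≤ t := (card_filter_le _ _).trans ut
  have uB : #cB.U ≤ t := (card_filter_le _ _).trans ut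
  have x2 : #c2.X = #c2.U + 1 := (card_insert_of_notMem h.nu).trans (by rw [e2]; rfl)
  have xB : #cB.X + 1 = #cB.U := eB
  have y2 : #c2.Y = 0 := rfl
  have yB : #cB.Y = 0 := rfl
  have b2 := card_B_le (c := c2)
  have bB := card_B_le (c := cB)
  have h1 := fl_mem_Sub h.hj h.pre.hu
  have s2 := fl_self_ne u j
  have uX : u ∈ c2.X := mem_insert_self _ _
  obtain ⟨p, a1, -, a2⟩ := cross_of_odd h.hj h1 hP (by
    rw [OB.even_iff (by omega), Nat.even_iff]; omega)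
  obtain ⟨a3, -, a4⟩ := hP p a1
  obtain ⟨u', l, m, H', P', K2, KB, n1, q1, -, k1, R⟩ := move2 (N := N)
    (F := insert p (insert (P p) F)) h.hj h.pre.hu h1 s2.symm hP hS O2 OB rfl rfl uX cr (by omega)
    (by omega) (insert_subset a1 (insert_subset a3 hF)) (fun z hz => by
      rcases mem_insert.mp hz with rfl | hz
      · simp
      rcases mem_insert.mp hz with rfl | hz
      · rw [a4]; simp
      · exact mem_insert_of_mem (mem_insert_of_mem (hc z hz)))
    ((card_insert_le _ _).trans (Nat.add_le_add_right ((card_insert_le _ _).trans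
      (Nat.add_le_add_right h4 1)) 1)) big (by omega) h.hij.symm
  have x3 : #(c2.toSq u l m).Y ≤ #c2.Y + 1 := card_insert_le _ _
  have x8 := card_erase_add_one uX
  have x9 : #(cB.addX u').X = #(cB.addX u').U :=
    (card_insert_of_notMem fun hh => n1 (mem_B.mpr (Or.inl hh))).trans xB
  refine ⟨H', P', _, R.1, R.2.1, fun z hz => R.2.2.2.1 (by simp [hz]),
    fun z hz => R.eq z (by simp [hz]), K2, q2 l m, ?_, u2, by omega, fun z hz => ?_, fun k => ?_⟩
  · show #(c2.X.erase u) = #c2.U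
    omega
  · obtain ⟨⟨-, c1⟩, c2⟩ := (mem2 h.pre.hv h.hi h.hj h.hij).mp hz
    exact k1 z (c1.trans (fl_apply_ne u h.hij)) (c2 ▸ fl_self_ne u i)
  · exact R.2.2.2.2 (splitW h.hj h1 h.pre.hu s2 R.1 R.2.1
      ((KB.even_iff (by omega)).mpr ⟨_, by rw [x9]⟩)
      ⟨p, R.2.2.2.1 (by simp), by rw [R.eq p (by simp)]; exact a2⟩
      (hT n N t _ _ _ _ _ (par u) KB (par_addX qB q1) x9 uB (by show #cB.Y + _ + 3 ≤ N; omega)
        (by omega)) k)

theorem Ad.caseM (hF : FarSt) (hL : LinkSt) (hT : TMSt) (h : Ad D b H T u i j IB I1 I2 ∅ W)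
    (hP : Inv (Po D b H T) P) (hS : SP (Po D b H T) P) (pB : ∀ z ∈ W, z j ≠ u j → par z = par u)
    (e2 : #I2 = #(W.filter fun z => z j = u j ∧ z i = u i))
    (e1 : #I1 + 1 = #(W.filter fun z => z j = u j ∧ z i ≠ u i))
    (eB : #IB + 1 = #(W.filter fun z => z j ≠ u j)) (ut : #W ≤ t) (hN : (t + 1) ^ 2 + 10 ≤ N)
    (big : 2 * N ^ 2 + 2 * N + 15 ≤ #(gd D P u j)) (hD : 50 * N ^ 2 + 100 + 5 * N + t + 2 ≤ #D) :
    Good adp (Po D b H T) P := by
  obtain ⟨H', P', c2, -, -, -, -, K2, q2, x2, u2, y2, k1, k⟩ := h.out (F := ∅) hT hP hS pB e2 eB ut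
    hN big hD (empty_subset _) (fun _ hh => absurd hh (notMem_empty _)) (by simp)
  have g := card_erase_of_mem h.hj
  refine k fun P2 a1 a2 _ => robA (N := N) (t := t) hF hL hT (mem_erase.mpr ⟨h.hij.symm, h.hi⟩) K2
    ((h.ok1 (Or.inl rfl)).congrH k1) q2 h.par1 x2 ?_ u2 ((card_filter_le _ _).trans ut) y2
    (by simp [cfE]) hN (by omega) P2 a1 a2
  exact (card_insert_of_notMem h.nv).trans (by rw [union_empty]; exact e1)

theorem Ad.caseB (hF : FarSt) (hL : LinkSt) (hT : TMSt) {x : V n}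
    (h : Ad D b H T u i j IB ∅ I2 {x} W) (hP : Inv (Po D b H T) P) (hS : SP (Po D b H T) P)
    (w1 : ∀ z ∈ W, z j = u j → z i = u i) (pB : ∀ z ∈ W, z j ≠ u j → par z = par u)
    (e2 : #I2 = #(W.filter fun z => z j = u j ∧ z i = u i))
    (eB : #IB + 1 = #(W.filter fun z => z j ≠ u j)) (ut : #W ≤ t) (hN : (t + 1) ^ 2 + 10 ≤ N)
    (big : 2 * N ^ 2 + 2 * N + 15 ≤ #(gd D P u j)) (small : #(gd D P u i) + 4 ≤ #D)
    (hD : 50 * N ^ 2 + 100 + 5 * N + t + 2 ≤ #D) : Good adp (Po D b H T) P := by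
  have e0 : (W.filter fun z => z j = u j ∧ z i ≠ u i) = ∅ :=
    filter_false_of_mem fun z hz c => c.2 (w1 z hz c.1)
  have O1 := h.ok1 (Or.inr ⟨rfl, e0⟩)
  rw [e0, empty_union] at O1
  have iA : i ∈ D.erase j := mem_erase.mpr ⟨h.hij.symm, h.hi⟩
  have g := card_erase_of_mem h.hj
  have g' := card_erase_of_mem iA
  obtain ⟨m, hm, m', hm', mm⟩ := one_lt_card.mp (by
    have := le_card_sdiff (gd D P u i) ((D.erase j).erase i)
    omega : 1 < #((D.erase j).erase i \ gd D P u i))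
  have key : ∀ m ∈ (D.erase j).erase i \ gd D P u i, (fl u m, false) ∈ Po D b H T ∧
      P (fl u m, false) = (fl (fl u i) m, false) ∧ m ≠ i ∧ m ≠ j := fun m hm => by
    obtain ⟨c1, c2⟩ := mem_sdiff.mp hm
    obtain ⟨c3, c4⟩ := mem_erase.mp c1
    obtain ⟨c5, c6⟩ := mem_erase.mp c4
    have c7 := fl_mem_Sub c6 h.pre.hu
    refine ⟨mem_Po_f.mpr ⟨c7, fun d => ?_⟩, ?_, c3, c5⟩
    · rcases (h.mH c7).mp d with d | d | d
      · exact fl_ne u m d
      · exact c3 (fl_inj u d)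
      · have a := (h.far (z := fl u m) (by simpa only [or_assoc] using Or.inl d)).2.1
        have a' := df_adj D u (adj_fl u m).symm
        rw [df_self] at a'
        omega
    · rw [fl_comm]
      by_contra d
      exact c2 (mem_filter.mpr ⟨c6, c3, d⟩)
  obtain ⟨a1, a2, a3, a4⟩ := key m hm
  obtain ⟨b1, b2, b3, b4⟩ := key m' hm'
  obtain ⟨a5, -, a6⟩ := hP _ a1
  obtain ⟨b5, -, b6⟩ := hP _ b1
  rw [a2] at a5 a6
  rw [b2] at b5 b6
  obtain ⟨H', P', c2, -, -, f1, f2, K2, q2, x2, u2, y2, k1, k⟩ := h.out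
    (F := {(fl u m, false), (fl (fl u i) m, false), (fl u m', false), (fl (fl u i) m', false)})
    hT hP hS pB e2 eB ut hN big hD
    (insert_subset a1 (insert_subset a5 (insert_subset b1 (singleton_subset_iff.mpr b5))))
    (fun z hz => by
      simp only [mem_insert, mem_singleton] at hz ⊢
      rcases hz with rfl | rfl | rfl | rfl
      exacts [Or.inr (Or.inl a2), Or.inl a6, Or.inr (Or.inr (Or.inr b2)),
        Or.inr (Or.inr (Or.inl b6))]) card_le_four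
  refine k fun P2 c1 c2 c3 => ?_
  have K1 := O1.congrH k1
  have h0 := self_mem_Sub (D.erase j) u
  have h1 := fl_mem_Sub iA h0
  have s2 := fl_self_ne u i
  have sj : fl u i j = u j := fl_apply_ne u h.hij
  have two : ∀ m : Fin n, m ≠ i → m ≠ j → (fl u m, false) ∈ Po D b H' T →
      (fl (fl u i) m, false) ∈ Po D b H' T → P' (fl (fl u i) m, false) = (fl u m, false) →
      (fl (fl u i) m, false) ∈ Po ((D.erase j).erase i) (fl u i) H' T ∧
      P2 (fl (fl u i) m, false) = (fl u m, false) ∧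
      P2 (fl (fl u i) m, false) ∉ Po ((D.erase j).erase i) (fl u i) H' T := by
    intro m d1 d2 d3 d4 d5
    have d6 : (fl (fl u i) m, false) ∈ Po (D.erase j) u H' T :=
      (mem_side h.pre.hu h.hj).mpr ⟨d4, (fl_apply_ne _ d2.symm).trans sj⟩
    have d7 : P2 (fl (fl u i) m, false) = (fl u m, false) := by
      rw [c3 _ d6 (by
        rw [d5]; exact (mem_side h.pre.hu h.hj).mpr ⟨d3, fl_apply_ne _ d2.symm⟩), d5]
    refine ⟨(mem_side h1 iA).mpr ⟨d6, fl_apply_ne _ d1.symm⟩, d7, fun d => s2 ?_⟩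
    rw [d7] at d
    exact ((mem_side h1 iA).mp d).2.symm.trans (fl_apply_ne _ d1.symm)
  obtain ⟨r1, r2, r3⟩ := two m a3 a4 (f1 (by simp)) (f1 (by simp)) ((f2 _ (by simp)).trans a6)
  obtain ⟨r4, -, r6⟩ := two m' b3 b4 (f1 (by simp)) (f1 (by simp)) ((f2 _ (by simp)).trans b6)
  have xv : x ≠ fl u i := fun e => h.nv (by simp [e])
  have k4 : 11 * 11 ≤ N ^ 2 := by
    have : 1 ≤ (t + 1) ^ 2 := Nat.one_le_pow _ _ (by omega)
    rw [pow_two]
    exact Nat.mul_le_mul (by omega) (by omega)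
  obtain ⟨P0, t1, t2, t3⟩ := exists_P0' c1 (side_sub h1 iA) ((K1.even_iff (by omega)).mpr (by
      show Even (#(insert (fl u i) {x}) + 0)
      rw [card_pair xv.symm]
      decide)) r1 r4 (fun e => mm (fl_inj _ (Prod.mk.inj e).1)) r3 r6
  refine splitQ iA h1 h0 s2 c1 c2 t2 (fun _ => th hF hL hT _ (fl u i) x H' P0
      (K1.sub (cfE_B.mpr (by simp))) (self_mem_Sub _ _) ?_ (fun z hz => ?_) (fun z hz => ?_)
      (mem_sdiff.mp hm).1 (mem_sdiff.mp hm').1 t1 r1 t3 ?_)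
    ⟨_, side_sub h1 iA r1, ?_⟩ (hT n N t _ _ _ _ _ _ K2 q2 x2 u2 (by omega) (by omega))
  · rw [(h.lX x (mem_singleton_self x)).2.2, par_fl]
    exact (z2_ne _).symm
  · rw [K1.hH z hz]
    simp [cfE, or_comm]
  · rw [K1.hT z hz]
    exact notMem_empty z
  · have : #(df ((D.erase j).erase i) x (fl u i)) ≤ #((D.erase j).erase i) := card_filter_le _ _
    omega
  · rw [r2]
    show fl u m i ≠ fl (fl u i) m i
    rw [fl_apply_ne u a3.symm, fl_apply_ne _ a3.symm]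
    exact s2.symm

theorem Ad.caseN (hF : FarSt) (hL : LinkSt) (hT : TMSt) (h : Ad D b H T u i j ∅ I1 I2 ∅ W)
    (hP : Inv (Po D b H T) P) (hS : SP (Po D b H T) P)
    (o3 : ∀ x ∈ W, ∀ y ∈ W, par x ≠ par y → 3 ≤ #(df D x y))
    (e2 : #I2 = #(W.filter fun z => z j = u j ∧ z i = u i))
    (e1 : #I1 = #(W.filter fun z => z j = u j ∧ z i ≠ u i))
    (eB : Even #(W.filter fun z => z j ≠ u j)) (ut : #W ≤ t) (hN : (t + 1) ^ 2 + 10 ≤ N)
    (bu : 2 * N ^ 2 + 2 * N + 15 ≤ #(gd D P u j))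
    (bv : 2 * N ^ 2 + 2 * N + 23 ≤ #(gd D P (fl u i) j))
    (ih : IHo (D.erase j) (fl u j) T (W.filter fun z => z j ≠ u j) (par u) (par (fl u i)))
    (hD : 50 * N ^ 2 + 100 + 5 * N + t + 2 ≤ #D) : Good adp (Po D b H T) P := by
  have O2 := h.ok2
  have O1 := h.ok1 (Or.inl rfl)
  have OB := h.okB fun p hp q hq c => by
    rw [empty_union] at hp hq
    exact le_trans (by norm_num) (o3 p (mem_filter.mp hp).1 q (mem_filter.mp hq).1 c)
  have cr := fun q hq => h.crB (q := q) hq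
  have q2 := h.par2
  have q1 := h.par1
  set c2 := cfE (insert u I2) (W.filter fun z => z j = u j ∧ z i = u i) j with d2
  set c1 := cfE (insert (fl u i) (I1 ∪ ∅)) (W.filter fun z => z j = u j ∧ z i ≠ u i) j with d1
  set cB := cfE ∅ (W.filter fun z => z j ≠ u j) j with dB
  have sq : (t + 1) ^ 2 = t ^ 2 + 2 * t + 1 := by ring
  have g := card_erase_of_mem h.hj
  have u2 : #c2.U ≤ t := (card_filter_le _ _).trans ut
  have u1 : #c1.U ≤ t := (card_filter_le _ _).trans ut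
  have uB : #cB.U ≤ t := (card_filter_le _ _).trans ut
  have x2 : #c2.X = #c2.U + 1 := (card_insert_of_notMem h.nu).trans (by rw [e2]; rfl)
  have x1 : #c1.X = #c1.U + 1 :=
    (card_insert_of_notMem h.nv).trans (by rw [union_empty, e1]; rfl)
  have xB : #cB.X = 0 := rfl
  have y2 : #c2.Y = 0 := rfl
  have y1 : #c1.Y = 0 := rfl
  have yB : #cB.Y = 0 := rfl
  have eB' : #cB.U % 2 = 0 := Nat.even_iff.mp eB
  have b2 := card_B_le (c := c2)
  have b1 := card_B_le (c := c1)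
  have bB := card_B_le (c := cB)
  have h1 := fl_mem_Sub h.hj h.pre.hu
  have s2 := fl_self_ne u j
  have si := fl_self_ne u i
  have sj : fl u i j = u j := fl_apply_ne u h.hij
  have uX : u ∈ c2.X := mem_insert_self _ _
  have vX : fl u i ∈ c1.X := mem_insert_self _ _
  obtain ⟨u', l, m, H1, P1, K2, KB, n1, p1, r1, k1, R1⟩ := move2 (N := N) (F := ∅) h.hj h.pre.hu
    h1 s2.symm hP hS O2 OB rfl rfl uX (fun q hq => (cr q hq).1) (by omega) (by omega)
    (empty_subset _) (fun _ hh => absurd hh (notMem_empty _)) (by simp) bu (by omega) h.hij.symm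
  have z1 : #(cB.addX u').X = 1 := rfl
  have z2 : #(cB.addX u').U = #cB.U := rfl
  have z3 : #(cB.addX u').Y = 0 := rfl
  have bB' := card_B_le (c := cB.addX u')
  obtain ⟨p, a1, -, a2⟩ := cross_of_odd h.hj h1 R1.1 (by
    rw [KB.even_iff (by omega), Nat.even_iff]; omega)
  obtain ⟨a3, -, a4⟩ := R1.1 p a1
  have g1 := R1.gd_le D (fl u i) j
  obtain ⟨v', l', m', H2, P2, K1, KB', n2, p2, -, k2, R2⟩ := move2 (N := N) (F := {p, P1 p}) h.hj
    h.pre.hv h1 (sj ▸ s2.symm) R1.1 R1.2.1 (O1.congrH fun z hz => by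
      obtain ⟨⟨-, c1⟩, c2⟩ := (mem2 h.pre.hv h.hi h.hj h.hij).mp hz
      exact k1 z (c1.trans sj) (c2 ▸ si)) KB rfl rfl vX (fun q hq => by
      rcases mem_B.mp hq with c | c | c
      · rw [mem_singleton.mp c]
        exact card_pos.mpr ⟨i, mem_df.mpr ⟨mem_erase.mpr ⟨h.hij.symm, h.hi⟩, r1 ▸ si⟩⟩
      · exact (cr q (mem_B.mpr (Or.inr (Or.inl c)))).2
      · exact absurd c (notMem_empty _)) (by omega) (by omega)
    (insert_subset a1 (singleton_subset_iff.mpr a3)) (fun z hz => by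
      rcases mem_insert.mp hz with rfl | hz
      · simp
      · rw [mem_singleton.mp hz, a4]; simp) (card_le_two.trans (by norm_num)) (by omega) (by omega)
    h.hij.symm
  have x3 : #(c2.toSq u l m).Y ≤ #c2.Y + 1 := card_insert_le _ _
  have x4 : #(c1.toSq (fl u i) l' m').Y ≤ #c1.Y + 1 := card_insert_le _ _
  have x8 := card_erase_add_one uX
  have x9 := card_erase_add_one vX
  have z4 : #((cB.addX u').addX v').X = #(cB.addX u').X + 1 :=
    card_insert_of_notMem fun hh => n2 (mem_B.mpr (Or.inl hh))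
  have z5 : #((cB.addX u').addX v').U = #cB.U := rfl
  refine R1.2.2.2.2 (R2.2.2.2.2 (split h.hj h1 h.pre.hu s2 R2.1 R2.2.1
    ((KB'.even_iff (by omega)).mpr (by rw [Nat.even_iff]; omega))
    ⟨p, R2.2.2.2.1 (by simp), by rw [R2.eq p (by simp)]; exact a2⟩
    (ih H2 _ u' v' KB' (pair_comm v' u') rfl rfl p1 p2)
    (robA (N := N) (t := t) hF hL hT (mem_erase.mpr ⟨h.hij.symm, h.hi⟩) (K2.congrH fun z hz => ?_)
      K1 (q2 l m) (fun z hz => ?_) ?_ ?_ u2 u1 (by omega) (by omega) hN (by omega))))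
  · obtain ⟨⟨-, c1⟩, c2⟩ := (mem2 h.pre.hu h.hi h.hj h.hij).mp hz
    exact k2 z (c1.trans sj.symm) (c2 ▸ si.symm)
  · exact q1 z (mem_union.mpr ((mem_union.mp hz).imp mem_of_mem_erase id))
  · show #(c2.X.erase u) = #c2.U
    omega
  · show #(c1.X.erase (fl u i)) = #c1.U
    omega

end Pool.Agent.Lib.MP_88ff4d_co.NP
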