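import Pool.Agent.Lib.MP_88ff4d_co.NP.AD3

/-! Adjacent ends: choice of the direction and of the conversions. -/

set_option autoImplicit false

namespace Pool.Agent.Lib.MP_88ff4d_co.NP

open Finset

variable {n : ℕ} {D : Finset (Fin n)} {b u v : V n} {H T U : Finset (V n)}
  {P : V n × Bool → V n × Bool} {i j : Fin n} {N t : ℕ}

theorem adjAd (h : G2 D b H T u (fl u i) U) (hi : i ∈ D) (hj : j ∈ D) (hij : j ≠ i)
    (hP : Inv (Po D b H T) P) (hS : SP (Po D b H T) P) (ut : #U ≤ t)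
    (hD : 2 * (t + 1) ^ 2 + 2 ≤ #D) {A0 A1 S S' G E : Finset (V n)}
    (m0 : ∀ z, z ∈ A0 ↔ z ∈ U ∧ par z = par u ∧ z j = u j)
    (m1 : ∀ z, z ∈ A1 ↔ z ∈ U ∧ par z ≠ par u ∧ z j = u j) (mS : S ⊆ A1)
    (mS' : ∀ z ∈ S', z ∈ A1 ∧ z i = u i ∧ z ∉ S) (mG : G ⊆ A0)
    (mE : ∀ z ∈ E, z ∈ U ∧ par z ≠ par u ∧ z j ≠ u j) :
    ∃ H' T' P' IB I1 I2 IX W, Inv (Po D b H' T') P' ∧ SP (Po D b H' T') P' ∧
      Ad D b H' T' u i j IB I1 I2 IX W ∧ W ⊆ U ∧ (∀ z ∈ W, z j = u j → z ∈ A1 \ (S ∪ S')) ∧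
      (W.filter fun z => z j = u j ∧ z i = u i) = (A1 \ (S ∪ S')).filter (fun z => z i = u i) ∧
      (W.filter fun z => z j = u j ∧ z i ≠ u i) = (A1 \ (S ∪ S')).filter (fun z => ¬ z i = u i) ∧
      (W.filter fun z => z j ≠ u j) = (U.filter fun z => z j ≠ u j) \ E ∧
      #IB = #S + #E ∧ #I1 = #G ∧ #I2 + #G = #A0 ∧ #IX = #S' ∧
      (∀ x l, #(gd D P x l) ≤ #(gd D P' x l) + 4 * t ∧ #(gd D P' x l) ≤ #(gd D P x l) + 4 * t) ∧
      (Good adp (Po D b H' T') P' → Good adp (Po D b H T) P) := by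
  obtain ⟨H', T', P', IB, I1, I2, IX, k1, k2, k3, k4, k5, k6, k7, c1, c2, c3, c4, k8, k9⟩ :=
    adjPrep (S := S) (S' := S') (G := G) (G' := A0 \ G) (E := E) h hi hj hij hP hS ut hD
      (fun z hz => (m1 z).mp (mS hz)) (fun z hz =>
        have a := (m1 z).mp (mS' z hz).1
        ⟨a.1, a.2.1, a.2.2, (mS' z hz).2⟩) (fun z hz => (m0 z).mp (mG hz)) (fun z hz =>
        have a := (m0 z).mp (mem_sdiff.mp hz).1
        ⟨a.1, a.2.1, a.2.2, (mem_sdiff.mp hz).2⟩) mE
  rw [union_assoc (S ∪ E), union_sdiff_of_subset mG] at k3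
  have e : ∀ z, z ∈ U \ (S ∪ E ∪ A0 ∪ S') ∧ z j = u j ↔ z ∈ A1 \ (S ∪ S') := fun z => by
    simp only [mem_sdiff, mem_union, not_or, m0, m1]
    constructor
    · rintro ⟨⟨a1, ⟨⟨a2, -⟩, a3⟩, a4⟩, a5⟩
      exact ⟨⟨a1, fun c => a3 ⟨a1, c, a5⟩, a5⟩, a2, a4⟩
    · rintro ⟨⟨a1, a2, a3⟩, a4, a5⟩
      exact ⟨⟨a1, ⟨⟨a4, fun c => (mE z c).2.2 a3⟩, fun c => a2 c.2.1⟩, a5⟩, a3⟩
  refine ⟨H', T', P', IB, I1, I2, IX, _, k1, k2, ⟨hi, hj, hij, k3, k4, k5, k6, k7, fun z a c =>
    ((m1 z).mp (mem_sdiff.mp ((e z).mp ⟨a, c⟩)).1).2.1⟩, sdiff_subset,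
    fun z a c => (e z).mp ⟨a, c⟩, ?_, ?_, ?_, c1, c2, by rw [c3, card_sdiff_add_card_eq_card mG],
    c4, fun x l => by have := k8 x l; omega, k9⟩
  · ext z
    rw [mem_filter, mem_filter, ← e, and_assoc]
  · ext z
    rw [mem_filter, mem_filter, ← e, and_assoc]
  · ext z
    simp only [mem_filter, mem_sdiff, mem_union, not_or]
    constructor
    · rintro ⟨⟨a1, ⟨⟨-, a2⟩, -⟩, -⟩, a3⟩
      exact ⟨⟨a1, a3⟩, a2⟩
    · rintro ⟨⟨a1, a2⟩, a3⟩
      exact ⟨⟨a1, ⟨⟨fun c => a2 ((m1 z).mp (mS c)).2.2, a3⟩, fun c => a2 ((m0 z).mp c).2.2⟩,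
        fun c => a2 ((m1 z).mp (mS' z c).1).2.2⟩, a2⟩

theorem adjHalf (hF : FarSt) (hL : LinkSt) (hT : TMSt) (h : G2 D b H T u (fl u i) U) (hi : i ∈ D)
    (hj : j ∈ D) (hij : j ≠ i) (hP : Inv (Po D b H T) P) (hS : SP (Po D b H T) P)
    (bal : #(U.filter fun x => par x = par u) = #(U.filter fun x => par x = par (fl u i)))
    (le : #((U.filter fun x => par x = par u).filter (· j = u j)) ≤
      #((U.filter fun x => par x = par (fl u i)).filter (· j = u j)))
    (sp : ∃ x ∈ U, ∃ y ∈ U, x j ≠ y j) (ut : #U ≤ t) (hN : (t + 1) ^ 2 + 10 ≤ N)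
    (hb : j ∉ bk D P u ∧ j ∉ bk D P (fl u i) ∨ i ∉ bk D P u ∧ #U ≤ 2)
    (hD : 50 * N ^ 2 + 100 + 5 * N + 2 * t + 2 ≤ #D) : Good adp (Po D b H T) P := by
  have s2 := fl_self_ne u j
  have pr := h.pr
  have s0 := TMx.card_sides (U.filter fun x => par x = par u) j s2.symm
  have s1 := TMx.card_sides (U.filter fun x => par x = par (fl u i)) j s2.symm
  have s3 := TMx.card_sides U j s2.symm
  have s4 := card_pos.mpr (sides_ne sp (u j))
  have s5 := sides_ne sp (fl u j j)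
  have s6 := card_pos.mpr s5
  have eB : (U.filter fun z => z j ≠ u j) = U.filter (· j = fl u j j) :=
    filter_congr fun z _ => ⟨z2_two s2.symm, fun c => c ▸ s2⟩
  have two : ∀ e, #(U.filter (· j = e)) = #((U.filter fun x => par x = par u).filter (· j = e)) +
      #((U.filter fun x => par x = par (fl u i)).filter (· j = e)) := fun e => by
    rw [filter_comm (fun x => par x = par u), filter_comm (fun x => par x = par (fl u i)),
      ← card_filter_add_card_filter_not (s := U.filter (· j = e)) (fun x => par x = par u)]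
    congr 2
    exact filter_congr fun x _ => ⟨z2_two pr, fun c d => pr (d.symm.trans c)⟩
  have t0 := two (u j)
  have t1 := two (fl u j j)
  set A0 := (U.filter fun x => par x = par u).filter (· j = u j) with dA0
  set A1 := (U.filter fun x => par x = par (fl u i)).filter (· j = u j) with dA1
  set B1 := (U.filter fun x => par x = par (fl u i)).filter (· j = fl u j j) with dB1
  have pv : ∀ z : V n, par z = par (fl u i) ↔ par z ≠ par u := fun z =>
    ⟨fun c d => pr (d.symm.trans c), z2_two pr⟩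
  have m0 : ∀ z, z ∈ A0 ↔ z ∈ U ∧ par z = par u ∧ z j = u j := fun z => by
    simp only [dA0, mem_filter, and_assoc]
  have m1 : ∀ z, z ∈ A1 ↔ z ∈ U ∧ par z ≠ par u ∧ z j = u j := fun z => by
    simp only [dA1, mem_filter, and_assoc, pv]
  have mE : ∀ z ∈ B1, z ∈ U ∧ par z ≠ par u ∧ z j ≠ u j := fun z hz => by
    simp only [dB1, mem_filter, pv] at hz
    exact ⟨hz.1.1, hz.1.2, hz.2 ▸ s2⟩
  have BU : B1 ⊆ U.filter (· j = fl u j j) := filter_subset_filter _ (filter_subset _ _)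
  have cB := card_sdiff_add_card_eq_card BU
  have pB : ∀ W : Finset (V n), (W.filter fun z => z j ≠ u j) = (U.filter fun z => z j ≠ u j) \ B1 →
      ∀ z ∈ W, z j ≠ u j → par z = par u := fun W e z a c => by
    obtain ⟨a1, a2⟩ := mem_sdiff.mp (e ▸ mem_filter.mpr ⟨a, c⟩)
    by_contra d
    exact a2 (mem_filter.mpr ⟨mem_filter.mpr ⟨(mem_filter.mp a1).1, (pv z).mpr d⟩,
      z2_two s2.symm c⟩)
  have sq : (t + 1) ^ 2 = t ^ 2 + 2 * t + 1 := by ring
  have k4 : N ≤ N ^ 2 := Nat.le_self_pow two_ne_zero N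
  simp only [bk, mem_filter, mem_univ, true_and, not_lt] at hb
  have caseK : ∀ S ⊆ A1, #S + #A0 = #A1 → (∀ z ∈ A1 \ S, z i = u i) →
      #D ≤ 2 * #(gd D P u i) + 2 → Good adp (Po D b H T) P := by
    intro S a1 a2 a3 a4
    obtain ⟨H', T', P', IB, I1, I2, IX, W, k1, k2, k3, k5, k6, e2, -, e3, c1, c2, c3, c4, k8, k9⟩ :=
      adjAd (S' := ∅) (G := ∅) h hi hj hij hP hS ut (by omega) m0 m1 a1
        (fun z hz => absurd hz (notMem_empty z)) (empty_subset _) mE
    obtain rfl := card_eq_zero.mp c2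
    obtain rfl := card_eq_zero.mp c4
    rw [union_empty] at k6 e2
    have c5 := card_sdiff_add_card_eq_card a1
    have g := (k8 u i).1
    rw [card_empty] at c3
    refine k9 (k3.caseK (N := N) (t := t) hF hL hT k1 k2 (fun z a c => a3 z (k6 z a c))
      (pB W e3) ?_ ?_ ((card_le_card k5).trans ut) hN (by omega) (by omega))
    · rw [e2, filter_true_of_mem a3]; omega
    · rw [e3, eB]; omega
  rcases hb with hb | hb
  swap
  · exact caseK A1 le_rfl (by omega) (by simp) hb.1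
  by_cases c : #A0 = #A1
  · have c0 := card_filter_add_card_filter_not (s := A1) (fun z => z i = u i)
    obtain ⟨G, a1, a2⟩ := exists_subset_card_eq (s := A0)
      (n := #(A1.filter fun z => ¬ z i = u i)) (by omega)
    obtain ⟨H', T', P', IB, I1, I2, IX, W, k1, k2, k3, k5, k6, e2, e1, e3, c1, c2, c3, c4, k8, k9⟩ :=
      adjAd (S := ∅) (S' := ∅) (E := ∅) h hi hj hij hP hS ut (by omega) m0 m1 (empty_subset _)
        (fun z hz => absurd hz (notMem_empty z)) a1 (fun z hz => absurd hz (notMem_empty z))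
    obtain rfl := card_eq_zero.mp c1
    obtain rfl := card_eq_zero.mp c4
    rw [union_empty, sdiff_empty] at e1 e2
    rw [sdiff_empty, eB] at e3
    have g := (k8 u j).1
    have g' := (k8 (fl u i) j).1
    have g2 := card_erase_of_mem hj
    refine k9 (k3.caseN (N := N) (t := t) hF hL hT k1 k2 (fun x a y a' => h.o3 x (k5 a) y (k5 a'))
      (by rw [e2]; omega) (by rw [e1]; omega) (by rw [e3, Nat.even_iff]; omega)
      ((card_le_card k5).trans ut) hN (by omega) (by omega) ?_ (by omega))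
    rw [e3]
    refine (mxo hF hL hT hN t le_rfl).iho pr ?_ s5 (by omega) (by omega)
    rw [filter_comm, filter_comm (fun x : V n => x j = fl u j j), ← dB1]
    omega
  by_cases c' : ∃ y ∈ A1, y i ≠ u i
  · obtain ⟨y, y1, y2⟩ := c'
    have a0 := card_erase_add_one y1
    obtain ⟨S, a1, a2⟩ := exists_subset_card_eq (s := A1.erase y) (n := #A1 - #A0 - 1) (by omega)
    have a3 : S ⊆ A1 := a1.trans (erase_subset _ _)
    have c5 := card_sdiff_add_card_eq_card a3
    have c0 := card_filter_add_card_filter_not (s := A1 \ S) (fun z => z i = u i)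
    have c6 : 0 < #((A1 \ S).filter fun z => ¬ z i = u i) := card_pos.mpr ⟨y, mem_filter.mpr
      ⟨mem_sdiff.mpr ⟨y1, fun d => notMem_erase y A1 (a1 d)⟩, y2⟩⟩
    obtain ⟨G, a4, a5⟩ := exists_subset_card_eq (s := A0)
      (n := #((A1 \ S).filter fun z => ¬ z i = u i) - 1) (by omega)
    obtain ⟨H', T', P', IB, I1, I2, IX, W, k1, k2, k3, k5, k6, e2, e1, e3, c1, c2, c3, c4, k8, k9⟩ :=
      adjAd (S' := ∅) h hi hj hij hP hS ut (by omega) m0 m1 a3
        (fun z hz => absurd hz (notMem_empty z)) a4 mE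
    obtain rfl := card_eq_zero.mp c4
    rw [union_empty] at e1 e2
    have g := (k8 u j).1
    exact k9 (k3.caseM (N := N) (t := t) hF hL hT k1 k2 (pB W e3) (by rw [e2]; omega)
      (by rw [e1]; omega) (by rw [e3, eB]; omega) ((card_le_card k5).trans ut) hN (by omega)
      (by omega))
  push Not at c'
  by_cases c2 : #D ≤ 2 * #(gd D P u i) + 2
  · obtain ⟨S, a1, a2⟩ := exists_subset_card_eq (s := A1) (n := #A1 - #A0) (by omega)
    exact caseK S a1 (by omega) (fun z hz => c' z (mem_sdiff.mp hz).1) c2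
  obtain ⟨y, y1⟩ := card_pos.mp (by omega : 0 < #A1)
  have a0 := card_erase_add_one y1
  obtain ⟨S, a1, a2⟩ := exists_subset_card_eq (s := A1.erase y) (n := #A1 - #A0 - 1) (by omega)
  have a3 : S ⊆ A1 := a1.trans (erase_subset _ _)
  have y2 : y ∉ S := fun d => notMem_erase y A1 (a1 d)
  have c5 := card_sdiff_add_card_eq_card (union_subset a3 (singleton_subset_iff.mpr y1))
  rw [card_union_of_disjoint (disjoint_singleton_right.mpr y2), card_singleton] at c5
  obtain ⟨H', T', P', IB, I1, I2, IX, W, k1, k2, k3, k5, k6, e2, -, e3, c1, c2', c3, c4, k8, k9⟩ :=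
    adjAd (S' := {y}) (G := ∅) h hi hj hij hP hS ut (by omega) m0 m1 a3
      (fun z hz => by rw [mem_singleton.mp hz]; exact ⟨y1, c' y y1, y2⟩) (empty_subset _) mE
  obtain rfl := card_eq_zero.mp c2'
  obtain ⟨x, rfl⟩ := card_eq_one.mp c4
  rw [card_empty] at c3
  have g := (k8 u j).1
  have g' := (k8 u i).2
  refine k9 (k3.caseB (N := N) (t := t) hF hL hT k1 k2
    (fun z a c => c' z (mem_sdiff.mp (k6 z a c)).1) (pB W e3) ?_ (by rw [e3, eB]; omega)
    ((card_le_card k5).trans ut) hN (by omega) (by omega) (by omega))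
  rw [e2, filter_true_of_mem fun z hz => c' z (mem_sdiff.mp hz).1]
  omega

theorem G2.symm (h : G2 D b H T u v U) : G2 D b H T v u U :=
  ⟨h.hv, h.hu, h.sub, fun z hz => (h.hH z hz).trans or_comm, h.hT, h.pr.symm,
    fun x hx => (h.f2 x hx).symm, h.o3⟩

theorem gd_adj (h : G2 D b H T u (fl u i) U) (hP : Inv (Po D b H T) P) :
    gd D P (fl u i) i ⊆ gd D P u i := fun g hg => by
  obtain ⟨c1, c2, c3⟩ := mem_filter.mp hg
  refine mem_filter.mpr ⟨c1, c2, fun d => c3 ?_⟩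
  have a := fl_mem_Sub c1 h.hu
  have a' := (hP (fl u g, false) (mem_Po_f.mpr ⟨a, fun e =>
    ((h.hH _ a).mp e).elim (fl_ne u g) fun e => c2 (fl_inj u e)⟩)).2.2
  rw [d] at a'
  rw [fl_comm u i g, fl_fl]
  exact a'

theorem adjRob (hF : FarSt) (hL : LinkSt) (hT : TMSt) (h : G2 D b H T u (fl u i) U) (hi : i ∈ D)
    (bal : #(U.filter fun x => par x = par u) = #(U.filter fun x => par x = par (fl u i)))
    (ne : U.Nonempty) (ut : #U ≤ t) (hN : (t + 1) ^ 2 + 10 ≤ N)
    (hD : 50 * N ^ 2 + 100 + 5 * N + 2 * t + 2 ≤ #D) : Rob (Po D b H T) := by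
  intro P hP hS
  obtain ⟨a1, a2, a3⟩ := h.card_J bal ne
  have h' : G2 D b H T (fl u i) (fl (fl u i) i) U := by rw [fl_fl]; exact h.symm
  have g1 := card_le_card (gd_adj h hP)
  have g2 := card_le_card (gd_adj h' hP)
  rw [fl_fl] at g2
  have bi : i ∈ bk D P u ↔ i ∈ bk D P (fl u i) := by
    simp only [bk, mem_filter, mem_univ, true_and]
    omega
  have k3 := bk_le (D := D) (P := P) u
  have k4 := bk_le (D := D) (P := P) (fl u i)
  obtain ⟨j, hj, hij, hb⟩ : ∃ j ∈ Jd D U, j ≠ i ∧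
      (j ∉ bk D P u ∧ j ∉ bk D P (fl u i) ∨ i ∉ bk D P u ∧ #U ≤ 2) := by
    by_cases c : 2 ≤ #(U.filter fun x => par x = par u)
    · obtain ⟨j, hj, hb⟩ := exists_avoid (A := Jd D U)
        (Bd := insert i (bk D P u ∪ bk D P (fl u i))) (by
          have := card_insert_le i (bk D P u ∪ bk D P (fl u i))
          have := card_union_le (bk D P u) (bk D P (fl u i))
          have := a3 c
          omega)
      rw [mem_insert, mem_union, not_or, not_or] at hb
      exact ⟨j, hj, hb.1, Or.inl hb.2⟩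
    · obtain ⟨j, hj, hb⟩ := exists_avoid (A := Jd D U) (Bd := {i}) (by rw [card_singleton]; omega)
      rw [mem_singleton] at hb
      refine ⟨j, hj, hb, ?_⟩
      by_cases d : i ∈ bk D P u
      · exact Or.inl ⟨fun e => hb (card_le_one.mp k3 j e i d),
          fun e => hb (card_le_one.mp k4 j e i (bi.mp d))⟩
      · exact Or.inr ⟨d, by omega⟩
  obtain ⟨j1, j2⟩ := mem_filter.mp hj
  rcases le_total #((U.filter fun x => par x = par u).filter (· j = u j))
    #((U.filter fun x => par x = par (fl u i)).filter (· j = u j)) with c | c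
  · exact adjHalf hF hL hT h hi j1 hij hP hS bal c j2 ut hN hb hD
  · refine adjHalf hF hL hT h' hi j1 hij hP hS (by rw [fl_fl]; exact bal.symm) ?_ j2 ut hN ?_ hD
    · rw [fl_fl, fl_apply_ne u hij]
      exact c
    · rw [fl_fl, ← bi]
      exact hb.imp_left And.symm

end Pool.Agent.Lib.MP_88ff4d_co.NP
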