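import Pool.Agent.Lib.MP_88ff4d_co.NP.Core

/-! One hole and one target. -/

set_option autoImplicit false

namespace Pool.Agent.Lib.MP_88ff4d_co.NP

open Finset

namespace CLx

variable {n : ℕ} {D : Finset (Fin n)} {b x v : V n} {H T : Finset (V n)}
  {P : V n × Bool → V n × Bool}

theorem po_image {O : Finset (V n)} (hT : ∀ z ∈ Sub D b, z ∉ T)
    (hO : ∀ z, z ∈ O ↔ z ∈ Sub D b ∧ z ∉ H) : #(Po D b H T) = #O := by
  have e : Po D b H T = O.image fun x => (x, false) := by
    ext ⟨z, c⟩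
    cases c
    · simp [mem_Po_f, hO]
    · simpa [mem_Po_t] using hT z
  rw [e, card_image_of_injective _ fun _ _ h => congrArg Prod.fst h]

theorem Sub_mono {D' : Finset (Fin n)} (h : D' ⊆ D) (hx : x ∈ Sub D b) : Sub D' x ⊆ Sub D b := by
  intro z hz
  rw [mem_Sub] at hz hx ⊢
  exact fun i hi => (hz i fun hh => hi (h hh)).trans (hx i hi)

/-- a subcube through the hole without the target has an exit -/
theorem exit {D' : Finset (Fin n)} (h : D' ⊆ D) (hne : D'.Nonempty) (hx : x ∈ Sub D b)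
    (hH : ∀ z ∈ Sub D b, z ∈ H ↔ z = x) (hT : ∀ z ∈ Sub D b, z ∈ T ↔ z = v)
    (hv : v ∉ Sub D' x) (hP : Inv (Po D b H T) P) :
    ∃ p ∈ Po D b H T, p.1 ∈ Sub D' x ∧ (P p).1 ∉ Sub D' x := by
  have hs := Sub_mono h hx
  have hm : ∀ p, p ∈ Po D' x H T ↔ p ∈ Po D b H T ∧ p.1 ∈ Sub D' x := by
    intro p
    simp only [Po, mem_filter, mem_univ, true_and]
    exact ⟨fun k => ⟨⟨hs k.1, k.2⟩, k.1⟩, fun k => ⟨k.2, k.1.2⟩⟩
  have hc : #(Po D' x H T) = #((Sub D' x).erase x) :=
    po_image (fun z hz hh => hv (((hT z (hs hz)).mp hh) ▸ hz)) (fun z => by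
      rw [mem_erase]
      exact ⟨fun k => ⟨k.2, fun hh => k.1 ((hH z (hs k.2)).mp hh)⟩,
        fun k => ⟨fun hh => k.2 ((hH z (hs k.1)).mpr hh), k.1⟩⟩)
  have h1 := card_erase_add_one (self_mem_Sub D' x)
  have h2 := (fink D' hne x).1
  obtain ⟨p, k1, k2⟩ := exit_of_odd hP (S0 := Po D' x H T) (fun p hp => ((hm p).mp hp).1) (by
    rw [hc]
    rintro ⟨k, hk⟩
    obtain ⟨k', hk'⟩ := h2
    omega)
  obtain ⟨c1, c2⟩ := (hm p).mp k1
  exact ⟨p, c1, c2, fun hh => k2 ((hm _).mpr ⟨(hP p c1).1, hh⟩)⟩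

/-- the second half of a step: close the square and split -/
theorem half (hSQ : SQSt) {l j : Fin n} (hx : x ∈ Sub D b) (hv : v ∈ Sub D b) (hl : l ∈ D)
    (hj : j ∈ D) (hlj : l ≠ j) (hne : x j ≠ v j) (h6 : 6 ≤ #D)
    (hH : ∀ z ∈ Sub D b, z j = x j → (z ∈ H ↔ z = x ∨ z = fl x l))
    (hT : ∀ z ∈ Sub D b, z j = x j → z ∉ T)
    (hP : Inv (Po D b H T) P) (hS : SP (Po D b H T) P) (hg : 4 ≤ #(gd D P x l))
    {p : V n × Bool} (hp : p ∈ Po D b H T) (hp1 : p.1 j = x j) (hp2 : (P p).1 j ≠ x j)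
    (hR : Rob (Po (D.erase j) v H T)) : Good adp (Po D b H T) P := by
  obtain ⟨m, hm, hmj, hm1, hm2⟩ : ∃ m ∈ gd D P x l, m ≠ j ∧ fl x m ≠ p.1 ∧
      fl (fl x m) l ≠ p.1 := by
    by_contra hh
    push Not at hh
    have : gd D P x l ⊆ insert j ((univ.filter fun g : Fin n => fl x g ∈ ({p.1} : Finset (V n))) ∪
        univ.filter fun g : Fin n => fl (fl x l) g ∈ ({p.1} : Finset (V n))) := by
      intro g hg
      simp only [mem_insert, mem_union, mem_filter, mem_univ, true_and, mem_singleton]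
      by_cases c1 : g = j
      · exact Or.inl c1
      by_cases c2 : fl x g = p.1
      · exact Or.inr (Or.inl c2)
      · exact Or.inr (Or.inr (by rw [fl_comm]; exact hh g hg c1 c2))
    have h1 := (card_le_card this).trans (card_insert_le _ _)
    have h2 := card_union_le (univ.filter fun g : Fin n => fl x g ∈ ({p.1} : Finset (V n)))
      (univ.filter fun g : Fin n => fl (fl x l) g ∈ ({p.1} : Finset (V n)))
    have h3 := card_hitV {p.1} x
    have h4 := card_hitV {p.1} (fl x l)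
    rw [card_singleton] at h3 h4
    omega
  obtain ⟨hmD, hml, hmP⟩ := mem_filter.mp hm
  have u1 : fl x m ∈ Sub D b := fl_mem_Sub hmD hx
  have u2 : fl (fl x m) l ∈ Sub D b := fl_mem_Sub hl u1
  have s1 : fl x m j = x j := fl_apply_ne x hmj.symm
  have s2 : fl (fl x m) l j = x j := by rw [fl_apply_ne _ hlj.symm, s1]
  have n1 : fl x m ∉ H := by
    rw [hH _ u1 s1]
    rintro (h | h)
    · exact fl_ne x m h
    · exact hml (fl_inj x h)
  have n2 : fl (fl x m) l ∉ H := by
    rw [hH _ u2 s2]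
    rintro (h | h)
    · have := congrArg (fun z => fl z l) h
      simp only [fl_fl] at this
      exact hml (fl_inj x this)
    · exact fl_ne x m (fl_left_inj l h)
  obtain ⟨P', k1, k2, k3, k4⟩ := edgeH hP hS u1 u2 n1 n2 (hT _ u1 s1) (hT _ u2 s2)
    (adj_fl _ l) hmP
  have e1 : P' p = P p := by
    refine k3 p (fun h => hm1 (congrArg Prod.fst h).symm)
      (fun h => hm2 (congrArg Prod.fst h).symm) (fun h => hp2 ?_) (fun h => hp2 ?_)
    · rw [h, (hP _ (mem_Po_f.mpr ⟨u1, n1⟩)).2.2]; exact s1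
    · rw [h, (hP _ (mem_Po_f.mpr ⟨u2, n2⟩)).2.2]; exact s2
  have hF := hSQ n (D.erase j) x x l m (by rw [card_erase_of_mem hj]; omega) (self_mem_Sub _ _)
    (mem_erase.mpr ⟨hlj, hl⟩) (mem_erase.mpr ⟨hmj, hmD⟩) (Ne.symm hml)
  have hT' : ∀ z ∈ Sub (D.erase j) x, z ∉ T := fun z hz =>
    hT z ((mem_Sub_erase hx hj).mp hz).1 ((mem_Sub_erase hx hj).mp hz).2
  have hO : ∀ z, z ∈ Sub (D.erase j) x \ Sub {l, m} x ↔
      z ∈ Sub (D.erase j) x ∧ z ∉ insert (fl x m) (insert (fl (fl x m) l) H) := by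
    intro z
    rw [mem_sdiff, mem_sq (Ne.symm hml)]
    refine and_congr_right fun hz => ?_
    obtain ⟨c1, c2⟩ := (mem_Sub_erase hx hj).mp hz
    rw [mem_insert, mem_insert, hH z c1 c2]
    tauto
  refine k4 (split hj hx hv hne k1 k2 (by rw [po_image hT' hO]; exact hF.1) ⟨p, ?_, ?_⟩
    (rob_of_fk hT' hO hF) ?_)
  · rw [Po_insert2, mem_sdiff]
    refine ⟨hp, fun h => ?_⟩
    rcases mem_insert.mp h with h | h
    · exact hm1 (congrArg Prod.fst h).symm
    · exact hm2 (congrArg Prod.fst (mem_singleton.mp h)).symm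
  · rw [e1, hp1]; exact hp2
  · have : Po (D.erase j) v (insert (fl x m) (insert (fl (fl x m) l) H)) T =
        Po (D.erase j) v H T := by
      rw [Po_insert2]
      refine sdiff_eq_self_of_disjoint (disjoint_left.mpr fun q hq h => ?_)
      have c := ((mem_side hv hj).mp hq).2
      rcases mem_insert.mp h with h | h
      · rw [h] at c; exact hne (s1.symm.trans c)
      · rw [mem_singleton.mp h] at c; exact hne (s2.symm.trans c)
    rw [this]
    exact hR

/-- a usable pair of directions -/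
def GP (D : Finset (Fin n)) (b x v : V n) (H T : Finset (V n)) (P : V n × Bool → V n × Bool)
    (l j : Fin n) : Prop :=
  l ∈ df D x v ∧ j ∈ df D x v ∧ l ≠ j ∧ 8 ≤ #(gd D P x l) ∧
  P (fl x l, false) ≠ (fl (fl x l) j, false) ∧
  ∃ p ∈ Po D b H T, p.1 j = x j ∧ (P p).1 j ≠ x j ∧ p ≠ (fl x l, false) ∧
    P p ≠ (fl (fl x l) j, false)

theorem cross {j : Fin n} (hj : j ∈ df D x v) (h2 : 2 ≤ #D) (hx : x ∈ Sub D b)
    (hH : ∀ z ∈ Sub D b, z ∈ H ↔ z = x) (hT : ∀ z ∈ Sub D b, z ∈ T ↔ z = v)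
    (hP : Inv (Po D b H T) P) :
    ∃ p ∈ Po D b H T, p.1 j = x j ∧ (P p).1 j ≠ x j := by
  obtain ⟨hjD, hne⟩ := mem_filter.mp hj
  obtain ⟨p, k1, k2, k3⟩ := exit (erase_subset j D)
    (card_pos.mp (by rw [card_erase_of_mem hjD]; omega)) hx hH hT
    (fun h => hne ((mem_Sub_erase hx hjD).mp h).2.symm) hP
  exact ⟨p, k1, ((mem_Sub_erase hx hjD).mp k2).2,
    fun h => k3 ((mem_Sub_erase hx hjD).mpr ⟨Po_sub (hP p k1).1, h⟩)⟩

theorem fl2_inj {l l' j : Fin n} (h : fl (fl x l) j = fl (fl x l') j) : l = l' :=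
  fl_inj x (fl_left_inj j h)

theorem gp_big (h4 : 4 ≤ #(df D x v)) (hD : 21 ≤ #D) (hx : x ∈ Sub D b)
    (hH : ∀ z ∈ Sub D b, z ∈ H ↔ z = x) (hT : ∀ z ∈ Sub D b, z ∈ T ↔ z = v)
    (hP : Inv (Po D b H T) P) : ∃ l j, GP D b x v H T P l j := by
  obtain ⟨j, hj, hb⟩ : ∃ j ∈ df D x v, ∀ l ∈ df D x v, l ≠ j → 8 ≤ #(gd D P x l) := by
    by_cases c : ∃ j ∈ df D x v, #(gd D P x j) < 8
    · obtain ⟨j, hj, c⟩ := c
      refine ⟨j, hj, fun l _ hlj => ?_⟩
      have := gd_cover (D := D) (P := P) x hlj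
      omega
    · push Not at c
      obtain ⟨j, hj⟩ := card_pos.mp (by omega : 0 < #(df D x v))
      exact ⟨j, hj, fun l hl _ => c l hl⟩
  have hA : 2 < #((df D x v).erase j) := by rw [card_erase_of_mem hj]; omega
  have port : ∀ l ∈ df D x v, (fl x l, false) ∈ Po D b H T := fun l hl => by
    have c := fl_mem_Sub (mem_filter.mp hl).1 hx
    exact mem_Po_f.mpr ⟨c, fun h => fl_ne x l ((hH _ c).mp h)⟩
  by_cases c1 : ∀ l ∈ (df D x v).erase j, P (fl x l, false) = (fl (fl x l) j, false)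
  · obtain ⟨l1, l2, l3, m1, m2, m3, d12, d13, d23⟩ := two_lt_card_iff.mp hA
    obtain ⟨p, k1, k2, k3⟩ := cross (mem_of_mem_erase m2) (by omega) hx hH hT hP
    have key : ∀ l ∈ (df D x v).erase j, l ≠ l2 → P p ≠ (fl (fl x l) l2, false) →
        GP D b x v H T P l l2 := by
      intro l hl hl2 hn
      obtain ⟨a1, a2⟩ := mem_erase.mp hl
      refine ⟨a2, mem_of_mem_erase m2, hl2, hb l a2 a1, ?_, p, k1, k2, k3, ?_, hn⟩
      · rw [c1 l hl]
        exact fun h => (mem_erase.mp m2).1 (fl_inj _ (congrArg Prod.fst h)).symm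
      · intro h
        apply k3
        rw [h, c1 l hl]
        show fl (fl x l) j l2 = x l2
        rw [fl_apply_ne _ (mem_erase.mp m2).1, fl_apply_ne _ hl2.symm]
    by_cases c : P p = (fl (fl x l1) l2, false)
    · exact ⟨l3, l2, key l3 m3 d23.symm fun h =>
        d13 (fl2_inj (congrArg Prod.fst (c.symm.trans h)))⟩
    · exact ⟨l1, l2, key l1 m1 d12 c⟩
  push Not at c1
  obtain ⟨l1, m1, r1⟩ := c1
  by_cases c2 : ∃ l ∈ (df D x v).erase j, P (fl x l, false) = (fl (fl x l) j, false)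
  · obtain ⟨l0, m0, r0⟩ := c2
    have d : l0 ≠ l1 := fun h => r1 (h ▸ r0)
    obtain ⟨a1, a2⟩ := mem_erase.mp m1
    obtain ⟨a3, a4⟩ := mem_erase.mp m0
    refine ⟨l1, j, a2, hj, a1, hb l1 a2 a1, r1, (fl x l0, false), port l0 a4,
      fl_apply_ne x a3.symm, ?_, fun h => d (fl_inj x (congrArg Prod.fst h)), ?_⟩
    · rw [r0]
      show fl (fl x l0) j j ≠ x j
      rw [fl_apply_self, fl_apply_ne x a3.symm]
      exact z2_ne _
    · rw [r0]
      exact fun h => d (fl2_inj (congrArg Prod.fst h))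
  push Not at c2
  obtain ⟨p, k1, k2, k3⟩ := cross hj (by omega) hx hH hT hP
  obtain ⟨l, hl, n1, n2⟩ : ∃ l ∈ (df D x v).erase j, p ≠ (fl x l, false) ∧
      P p ≠ (fl (fl x l) j, false) := by
    by_contra hh
    push Not at hh
    have : (df D x v).erase j ⊆
        (univ.filter fun g : Fin n => (fl x g, false) ∈ ({p} : Finset (V n × Bool))) ∪
        univ.filter fun g : Fin n => (fl (fl x j) g, false) ∈ ({P p} : Finset (V n × Bool)) := by
      intro g hg
      simp only [mem_union, mem_filter, mem_univ, true_and, mem_singleton]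
      by_cases c : p = (fl x g, false)
      · exact Or.inl c.symm
      · exact Or.inr (by rw [fl_comm]; exact (hh g hg c).symm)
    have h1 := (card_le_card this).trans (card_union_le _ _)
    have h3 := card_hit {p} x
    have h4 := card_hit {P p} (fl x j)
    rw [card_singleton] at h3 h4
    omega
  obtain ⟨a1, a2⟩ := mem_erase.mp hl
  exact ⟨l, j, a2, hj, a1, hb l a2 a1, c2 l hl, p, k1, k2, k3, n1, n2⟩

theorem gp_two {a c : Fin n} (hac : a ≠ c) (ha : a ∈ df D x v) (hc : c ∈ df D x v)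
    (e : fl (fl x a) c = v) (hD : 21 ≤ #D) (hx : x ∈ Sub D b) (hv : v ∈ Sub D b)
    (hH : ∀ z ∈ Sub D b, z ∈ H ↔ z = x) (hT : ∀ z ∈ Sub D b, z ∈ T ↔ z = v)
    (hP : Inv (Po D b H T) P) (hS : SP (Po D b H T) P) : ∃ l j, GP D b x v H T P l j := by
  have hvt : (v, true) ∈ Po D b H T := mem_Po_t.mpr ⟨hv, (hT v hv).mpr rfl⟩
  have nv : ∀ p ∈ Po D b H T, p.1 ≠ v → P p ≠ (v, false) := by
    intro p hp h1 h2
    have := hP.inj hp hvt (h2.trans (hS v hvt).symm)
    exact h1 (congrArg Prod.fst this)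
  have key : ∀ l j : Fin n, l ≠ j → l ∈ df D x v → j ∈ df D x v → fl (fl x l) j = v →
      8 ≤ #(gd D P x l) → ∀ p ∈ Po D b H T, p.1 j = x j → (P p).1 j ≠ x j →
      p ≠ (fl x l, false) → GP D b x v H T P l j := by
    intro l j hlj hl hj e h8 p k1 k2 k3 k4
    have c := fl_mem_Sub (mem_filter.mp hl).1 hx
    refine ⟨hl, hj, hlj, h8, ?_, p, k1, k2, k3, k4, ?_⟩
    · rw [e]
      refine nv _ (mem_Po_f.mpr ⟨c, fun h => fl_ne x l ((hH _ c).mp h)⟩) fun h => ?_
      exact fl_ne (fl x l) j (e.trans h.symm)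
    · rw [e]
      exact nv p k1 fun h => (mem_filter.mp hj).2 (by rw [← k2, h])
  have blk : ∀ l j : Fin n, l ≠ j → l ∈ df D x v → j ∈ df D x v → fl (fl x l) j = v →
      #(gd D P x j) < 8 → GP D b x v H T P l j := by
    intro l j hlj hl hj e h8
    have h1 := gd_cover (D := D) (P := P) x hlj
    obtain ⟨g, hg, g1⟩ : ∃ g ∈ D, g ∉ insert l (insert j (gd D P x j)) := by
      by_contra hh
      push Not at hh
      have h2 := (card_le_card (fun g hg => hh g hg)).trans (card_insert_le _ _)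
      have h3 := card_insert_le j (gd D P x j)
      omega
    simp only [mem_insert, gd, mem_filter, not_or, not_and, not_not] at g1
    obtain ⟨g1, g2, g3⟩ := g1
    have g4 := g3 hg g2
    have c := fl_mem_Sub hg hx
    refine key l j hlj hl hj e (by omega) (fl x g, false)
      (mem_Po_f.mpr ⟨c, fun h => fl_ne x g ((hH _ c).mp h)⟩) (fl_apply_ne x (Ne.symm g2)) ?_
      fun h => g1 (fl_inj x (congrArg Prod.fst h))
    rw [g4]
    show fl (fl x g) j j ≠ x j
    rw [fl_apply_self, fl_apply_ne x (Ne.symm g2)]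
    exact z2_ne _
  have e' : fl (fl x c) a = v := by rw [fl_comm]; exact e
  by_cases c1 : #(gd D P x c) < 8
  · exact ⟨a, c, blk a c hac ha hc e c1⟩
  by_cases c2 : #(gd D P x a) < 8
  · exact ⟨c, a, blk c a hac.symm hc ha e' c2⟩
  have haD := (mem_filter.mp ha).1
  have hcD := (mem_filter.mp hc).1
  have hc' : c ∈ D.erase a := mem_erase.mpr ⟨hac.symm, hcD⟩
  have hm : ∀ z, z ∈ Sub ((D.erase a).erase c) x ↔ (z ∈ Sub D b ∧ z a = x a) ∧ z c = x c :=
    fun z => by rw [mem_Sub_erase (self_mem_Sub _ x) hc', mem_Sub_erase hx haD]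
  obtain ⟨p, k1, k2, k3⟩ := exit ((erase_subset c _).trans (erase_subset a D))
    (card_pos.mp (by rw [card_erase_of_mem hc', card_erase_of_mem haD]; omega)) hx hH hT
    (fun h => (mem_filter.mp hc).2 ((hm v).mp h).2.symm) hP
  obtain ⟨⟨-, k4⟩, k5⟩ := (hm _).mp k2
  by_cases c3 : (P p).1 c = x c
  · refine ⟨c, a, key c a hac.symm hc ha e' (by omega) p k1 k4
      (fun h => k3 ((hm _).mpr ⟨⟨Po_sub (hP p k1).1, h⟩, c3⟩)) fun h => ?_⟩
    rw [h] at k5
    exact z2_ne _ ((fl_apply_self x c).symm.trans k5)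
  · refine ⟨a, c, key a c hac ha hc e (by omega) p k1 k5 c3 fun h => ?_⟩
    rw [h] at k4
    exact z2_ne _ ((fl_apply_self x a).symm.trans k4)

theorem df_step {l : Fin n} (hl : l ∈ df D x v) : df D (fl x l) v = (df D x v).erase l := by
  ext i
  simp only [df, mem_filter, mem_erase]
  by_cases c : i = l
  · subst c
    have := z2_eq (mem_filter.mp hl).2
    rw [fl_apply_self, this]
    simp [add_assoc, CharTwo.add_self_eq_zero]
  · rw [fl_apply_ne x c]
    tauto

theorem df_zero (hx : x ∈ Sub D b) (hv : v ∈ Sub D b) (h : df D x v = ∅) : x = v := by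
  funext i
  by_cases c : i ∈ D
  · by_contra hh
    have : i ∈ df D x v := mem_filter.mpr ⟨c, hh⟩
    rw [h] at this
    exact notMem_empty _ this
  · rw [mem_Sub.mp hx i c, mem_Sub.mp hv i c]

/-- either two steps reach the target or four directions differ -/
theorem two_or_four (hx : x ∈ Sub D b) (hv : v ∈ Sub D b) (hne : x ≠ v) (hpar : par x = par v) :
    (∃ a c, a ≠ c ∧ a ∈ df D x v ∧ c ∈ df D x v ∧ fl (fl x a) c = v) ∨ 4 ≤ #(df D x v) := by
  have st : ∀ y ∈ Sub D b, y ≠ v → ∃ a ∈ df D y v, fl y a ∈ Sub D b ∧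
      df D (fl y a) v = (df D y v).erase a ∧ #(df D (fl y a) v) + 1 = #(df D y v) := by
    intro y hy h
    obtain ⟨a, ha⟩ := nonempty_iff_ne_empty.mpr fun hh => h (df_zero hy hv hh)
    refine ⟨a, ha, fl_mem_Sub (mem_filter.mp ha).1 hy, df_step ha, ?_⟩
    rw [df_step ha, card_erase_add_one ha]
  obtain ⟨a, ha, a1, a2, a3⟩ := st x hx hne
  obtain ⟨c, hc, c1, c2, c3⟩ := st _ a1 (fun h => by
    rw [← h, par_fl] at hpar
    exact z2_ne _ hpar.symm)
  by_cases e : fl (fl x a) c = v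
  · rw [a2] at hc
    exact Or.inl ⟨a, c, (mem_erase.mp hc).1.symm, ha, mem_of_mem_erase hc, e⟩
  obtain ⟨d, hd, d1, d2, d3⟩ := st _ c1 e
  obtain ⟨f, hf, f1, f2, f3⟩ := st _ d1 (fun h => by
    rw [← h, par_fl, par_fl, par_fl] at hpar
    revert hpar
    generalize par x = t
    revert t
    decide)
  omega

end CLx

open CLx in
theorem cl_st (h : SQSt) : CLSt := by
  intro n D
  induction D using Finset.strongInduction with
  | H D ih =>
  intro b x v H T hx hv hne hpar hH hT hD P hP hS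
  have h2 := two_or_four hx hv hne hpar
  have hR : 2 ≤ #(df D x v) := by
    rcases h2 with ⟨a, c, hac, ha, hc, -⟩ | h4
    · exact one_lt_card.mpr ⟨a, ha, c, hc, hac⟩
    · omega
  obtain ⟨l, j, hl, hj, hlj, h8, hn, p, hp, p1, p2, p3, p4⟩ : ∃ l j, GP D b x v H T P l j := by
    rcases h2 with ⟨a, c, hac, ha, hc, e⟩ | h4
    · exact gp_two hac ha hc e (by omega) hx hv hH hT hP hS
    · exact gp_big h4 (by omega) hx hH hT hP
  obtain ⟨hlD, hlv⟩ := mem_filter.mp hl
  obtain ⟨hjD, hjv⟩ := mem_filter.mp hj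
  have u1 : fl x l ∈ Sub D b := fl_mem_Sub hlD hx
  have u2 : fl (fl x l) j ∈ Sub D b := fl_mem_Sub hjD u1
  have s1 : fl x l j = x j := fl_apply_ne x hlj.symm
  have s2 : fl (fl x l) j j ≠ x j := by rw [fl_apply_self, s1]; exact z2_ne _
  have n1 : fl x l ∉ H := fun hh => fl_ne x l ((hH _ u1).mp hh)
  have n2 : fl (fl x l) j ∉ H := fun hh => s2 (by rw [(hH _ u2).mp hh])
  have n3 : fl x l ≠ v := fun hh => hjv (by rw [← hh, s1])
  have ha : (fl x l, false) ∈ Po D b H T := mem_Po_f.mpr ⟨u1, n1⟩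
  have p5 : p ≠ P (fl x l, false) := fun hh => p2 (by rw [hh, (hP _ ha).2.2]; exact s1)
  have hcard : ∀ a c d e : V n × Bool, #({a, c, d, e} : Finset (V n × Bool)) ≤ 4 :=
    fun _ _ _ _ => card_le_four
  by_cases e : fl (fl x l) j = v
  · have hb : (v, true) ∈ Po D b H T := mem_Po_t.mpr ⟨hv, (hT v hv).mpr rfl⟩
    obtain ⟨P', k1, k2, k3⟩ := edgeK (ad := adp) hP ha hb (by simp) ⟨j, e.symm⟩
      (adj.symm ⟨j, e.symm⟩) (fun hh => by
        have := (hP _ ha).2.2
        rw [hh, hS v hb] at this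
        exact n3 (congrArg Prod.fst this).symm)
    have e2 : Po D b H T \ {(fl x l, false), (v, true)} = Po D b (insert (fl x l) H) ∅ := by
      ext ⟨z, c⟩
      cases c
      · simp only [mem_Po_f, mem_sdiff, mem_insert, mem_singleton, Prod.mk.injEq, and_true]
        exact ⟨fun k => ⟨k.1.1, fun hh => hh.elim (fun c => k.2 (Or.inl c)) k.1.2⟩,
          fun k => ⟨⟨k.1, fun c => k.2 (Or.inr c)⟩,
            fun hh => hh.elim (fun c => k.2 (Or.inl c)) fun c => absurd c.2 (by simp)⟩⟩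
      · simp only [mem_Po_t, mem_sdiff, mem_insert, mem_singleton, Prod.mk.injEq, and_true]
        constructor
        · rintro ⟨⟨c1, c2⟩, c3⟩
          exact absurd (Or.inr ((hT z c1).mp c2)) c3
        · rintro ⟨-, c2⟩
          exact absurd c2 (notMem_empty _)
    have q1 : p ≠ (v, true) := fun hh => hjv (by rw [← p1, hh])
    have q2 : p ≠ P (v, true) := fun hh => hjv (by rw [← p1, hh, hS v hb])
    have hp' : p ∈ Po D b (insert (fl x l) H) ∅ := by
      rw [← e2, mem_sdiff]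
      exact ⟨hp, by simp [p3, q1]⟩
    rw [e2] at k1 k3
    have g1 := gd_change (D := D) (P := P) (P' := P')
      (K := {(fl x l, false), (v, true), P (fl x l, false), P (v, true)}) (fun q hq => by
        simp only [mem_insert, mem_singleton, not_or] at hq
        exact k2 q hq.1 hq.2.1 hq.2.2.1 hq.2.2.2) x l
    have g2 := hcard (fl x l, false) (v, true) (P (fl x l, false)) (P (v, true))
    refine k3 (half h hx hv hlD hjD hlj hjv (by omega) (fun z hz _ => ?_)
      (fun z _ _ => notMem_empty z) k1 (fun w hw => absurd (mem_Po_t.mp hw).2 (notMem_empty w))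
      (by omega) hp' p1 (by rw [k2 p p3 q1 p5 q2]; exact p2) ?_)
    · rw [mem_insert, hH z hz]; exact or_comm
    · refine rob_of_fk (O := Sub (D.erase j) v) (fun z _ => notMem_empty z) (fun z => ?_)
        (fink _ ⟨l, mem_erase.mpr ⟨hlj, hlD⟩⟩ v)
      refine ⟨fun hz => ⟨hz, fun hh => ?_⟩, fun hz => hz.1⟩
      obtain ⟨c1, c2⟩ := (mem_Sub_erase hv hjD).mp hz
      rcases mem_insert.mp hh with hh | hh
      · exact hjv (by rw [← c2, hh, s1])
      · exact hjv (by rw [← c2, (hH z c1).mp hh])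
  · obtain ⟨P', k1, k2, k3, k4⟩ := edgeH hP hS u1 u2 n1 n2 (fun hh => n3 ((hT _ u1).mp hh))
      (fun hh => e ((hT _ u2).mp hh)) (adj_fl _ j) hn
    have hb : (fl (fl x l) j, false) ∈ Po D b H T := mem_Po_f.mpr ⟨u2, n2⟩
    have q1 : p ≠ (fl (fl x l) j, false) := fun hh => s2 (by rw [← p1, hh])
    have q2 : p ≠ P (fl (fl x l) j, false) := fun hh => p4 (by rw [hh, (hP _ hb).2.2])
    have hp' : p ∈ Po D b (insert (fl x l) (insert (fl (fl x l) j) H)) T := by
      rw [Po_insert2, mem_sdiff]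
      exact ⟨hp, by simp [p3, q1]⟩
    have g1 := gd_change (D := D) (P := P) (P' := P')
      (K := {(fl x l, false), (fl (fl x l) j, false), P (fl x l, false),
        P (fl (fl x l) j, false)}) (fun q hq => by
        simp only [mem_insert, mem_singleton, not_or] at hq
        exact k3 q hq.1 hq.2.1 hq.2.2.1 hq.2.2.2) x l
    have g2 := hcard (fl x l, false) (fl (fl x l) j, false) (P (fl x l, false))
      (P (fl (fl x l) j, false))
    have s3 : fl (fl x l) j j = v j := z2_two hjv s2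
    refine k4 (half h hx hv hlD hjD hlj hjv (by omega) (fun z hz hz' => ?_)
      (fun z hz hz' hh => hjv (by rw [← hz', (hT z hz).mp hh])) k1 k2
      (by omega) hp' p1 (by rw [k3 p p3 q1 p5 q2]; exact p2) ?_)
    · rw [mem_insert, mem_insert, hH z hz]
      have : z ≠ fl (fl x l) j := fun hh => s2 (by rw [← hh, hz'])
      exact ⟨fun k => k.elim Or.inr fun k => k.elim (fun c => absurd c this) Or.inl,
        fun k => k.elim (fun c => Or.inr (Or.inr c)) Or.inl⟩
    · refine ih (D.erase j) (erase_ssubset hjD) v (fl (fl x l) j) v _ T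
        ((mem_Sub_erase hv hjD).mpr ⟨u2, s3⟩) (self_mem_Sub _ _) e ?_ (fun z hz => ?_)
        (fun z hz => hT z ((mem_Sub_erase hv hjD).mp hz).1) ?_
      · rw [par_fl, par_fl, add_assoc, CharTwo.add_self_eq_zero, add_zero, hpar]
      · obtain ⟨c1, c2⟩ := (mem_Sub_erase hv hjD).mp hz
        rw [mem_insert, mem_insert, hH z c1]
        have d1 : z ≠ fl x l := fun hh => hjv (by rw [← c2, hh, s1])
        have d2 : z ≠ x := fun hh => hjv (by rw [← c2, hh])
        exact ⟨fun k => k.elim (fun c => absurd c d1) fun k => k.elim id fun c => absurd c d2,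
          fun k => Or.inr (Or.inl k)⟩
      · have d1 := df_step hl
        have hj' : j ∈ df D (fl x l) v := by
          rw [d1]; exact mem_erase.mpr ⟨hlj.symm, hj⟩
        have d2 := df_step hj'
        have d3 : df (D.erase j) (fl (fl x l) j) v ⊆ df D (fl (fl x l) j) v :=
          filter_subset_filter _ (erase_subset j D)
        have d4 := card_le_card d3
        rw [d2, card_erase_of_mem hj', d1, card_erase_of_mem hl] at d4
        rw [card_erase_of_mem hjD]
        omega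

end Pool.Agent.Lib.MP_88ff4d_co.NP
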