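import Pool.Agent.Lib.MP_88ff4d_co.NP.St

/-! A separating direction at which the blocked holes need not cross. -/

set_option autoImplicit false

namespace Pool.Agent.Lib.MP_88ff4d_co.NP

open Finset

theorem cnt_z2 {a c e : ZMod 2} (h : a ≠ e) (h' : c ≠ e) : a = c := by revert a c e; decide

theorem cnt_st : CntSt := by
  intro n J X U blk _ hXU h2 hsep huniq
  classical
  by_contra hcon
  push Not at hcon
  set J' := J.filter fun j => ∃ u ∈ U, ∃ u' ∈ U, u j ≠ u' j with hJ'
  have hch : ∀ j, ∃ e : ZMod 2, j ∈ J' →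
      #(U.filter fun u => u j = e) + 1 ≤ #(X.filter fun x => blk x j) := by
    intro j
    by_cases hj : j ∈ J'
    · obtain ⟨c1, c2⟩ := mem_filter.mp hj
      obtain ⟨e, he⟩ := hcon j c1 c2
      refine ⟨e, fun _ => (Nat.succ_le_of_lt he).trans (card_le_card fun x hx => ?_)⟩
      exact mem_filter.mpr ⟨(mem_filter.mp hx).1, (mem_filter.mp hx).2.2⟩
    · exact ⟨0, fun hh => absurd hh hj⟩
  choose e he using hch
  have hdf : ∀ p ∈ U, ∀ q ∈ U, df J p q ⊆ J'.filter fun j => p j ≠ q j := by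
    intro p hp q hq j hj
    obtain ⟨c1, c2⟩ := mem_filter.mp hj
    exact mem_filter.mpr ⟨mem_filter.mpr ⟨c1, p, hp, q, hq, c2⟩, c2⟩
  have s1 : ∑ j ∈ J', #(X.filter fun x => blk x j) ≤ #X := by
    rw [← card_biUnion]
    · exact card_le_card (biUnion_subset.mpr fun j _ => filter_subset _ _)
    · intro i hi j hj hij
      refine disjoint_left.mpr fun x c1 c2 => hij ?_
      exact huniq x (mem_filter.mp c1).1 i (mem_filter.mp hi).1 j (mem_filter.mp hj).1
        (mem_filter.mp c1).2 (mem_filter.mp c2).2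
  have s2 : ∑ j ∈ J', #(U.filter fun u => u j = e j)
      = ∑ u ∈ U, #(J'.filter fun j => u j = e j) := by
    simp only [card_filter]
    exact sum_comm
  have s3 : #(U.filter fun u => ¬ 1 ≤ #(J'.filter fun j => u j = e j)) ≤ 1 := by
    refine card_le_one.mpr fun p hp q hq => ?_
    obtain ⟨p1, p2⟩ := mem_filter.mp hp
    obtain ⟨q1, q2⟩ := mem_filter.mp hq
    by_contra hne
    have k := (hsep p p1 q q1 hne).trans (card_le_card (hdf p p1 q q1))
    obtain ⟨j, hj⟩ := card_pos.mp (lt_of_lt_of_le (by norm_num) k)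
    obtain ⟨c1, c2⟩ := mem_filter.mp hj
    refine c2 (cnt_z2 (e := e j) (fun hh => p2 ?_) (fun hh => q2 ?_))
    · exact card_pos.mpr ⟨j, mem_filter.mpr ⟨c1, hh⟩⟩
    · exact card_pos.mpr ⟨j, mem_filter.mpr ⟨c1, hh⟩⟩
  have s4 : #(U.filter fun u => 1 ≤ #(J'.filter fun j => u j = e j))
      ≤ ∑ u ∈ U, #(J'.filter fun j => u j = e j) := by
    rw [card_filter]
    refine sum_le_sum fun u _ => ?_
    split_ifs with h
    · exact h
    · exact Nat.zero_le _
  have s5 := card_filter_add_card_filter_not (s := U)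
    (fun u => 1 ≤ #(J'.filter fun j => u j = e j))
  have s6 : 2 ≤ #J' := by
    obtain ⟨p, hp, q, hq, hne⟩ := one_lt_card.mp (lt_of_lt_of_le (by norm_num) h2)
    exact (hsep p hp q hq hne).trans (card_le_card ((hdf p hp q hq).trans (filter_subset _ _)))
  have s7 : ∑ j ∈ J', (#(U.filter fun u => u j = e j) + 1)
      ≤ ∑ j ∈ J', #(X.filter fun x => blk x j) := sum_le_sum fun j hj => he j hj
  rw [sum_add_distrib, sum_const, smul_eq_mul, mul_one] at s7
  omega

end Pool.Agent.Lib.MP_88ff4d_co.NP
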