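import Pool.Agent.Lib.MP_88ff4d_co.NP.St

/-! A point far from given points. -/

set_option autoImplicit false

namespace Pool.Agent.Lib.MP_88ff4d_co.NP

open Finset

theorem far_st : FarSt := by
  intro n B δ
  induction B using Finset.induction_on with
  | empty => exact fun A w _ => ⟨w, fun _ _ => rfl, fun q hq => absurd hq (notMem_empty q)⟩
  | insert q B hq ih =>
    intro A w h
    rw [sum_insert hq] at h
    obtain ⟨A1, h1, h2⟩ := exists_subset_card_eq (s := A) (n := δ q) (by omega)
    have h3 := card_sdiff_add_card_eq_card h1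
    obtain ⟨a, k1, k2⟩ := ih (A \ A1) (fun i => if i ∈ A1 then q i + 1 else w i) (by omega)
    refine ⟨a, fun i hi => ?_, fun p hp => ?_⟩
    · rw [k1 i fun hh => hi (mem_sdiff.mp hh).1]
      exact if_neg fun hh => hi (h1 hh)
    · rcases mem_insert.mp hp with rfl | hp
      · rw [← h2]
        refine card_le_card fun i hi => mem_filter.mpr ⟨h1 hi, ?_⟩
        rw [k1 i fun hh => (mem_sdiff.mp hh).2 hi, if_pos hi]
        exact z2_ne _
      · exact (k2 p hp).trans (card_le_card (filter_subset_filter _ sdiff_subset))

end Pool.Agent.Lib.MP_88ff4d_co.NP
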