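import Pool.Agent.Lib.MP_88ff4d_co.NP.St

/-! A cube of dimension at least five minus a square: the induction step. -/

set_option autoImplicit false

namespace Pool.Agent.Lib.MP_88ff4d_co.NP

open Finset

namespace SQx

variable {n : ℕ}

theorem prop1 {w a e1 e2 e3 e4 : Prop} (f1 : e1 → a) (f2 : e2 → ¬a) (f3 : e3 → a)
    (f4 : e4 → ¬a) : ((((w ∧ ¬(e1 ∨ e2)) ∧ ¬e3) ∧ ¬e4) ∧ ¬((w ∧ a) ∧ ¬(e1 ∨ e3))) ↔
    ((w ∧ ¬a) ∧ ¬(e2 ∨ e4)) := by tauto

theorem prop2 {w a e1 e2 e3 e4 : Prop} (f2 : e2 → ¬a) (f4 : e4 → ¬a)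
    (h : (w ∧ a) ∧ ¬(e1 ∨ e3)) : ((w ∧ ¬(e1 ∨ e2)) ∧ ¬e3) ∧ ¬e4 := by tauto

theorem prop3 {w a e : Prop} (f : e → a) : ((w ∧ ¬e) ∧ ¬((w ∧ a) ∧ ¬e)) ↔ (w ∧ ¬a) := by tauto

theorem mem_er {D : Finset (Fin n)} {j : Fin n} {b x : V n} :
    x ∈ Sub (D.erase j) b ↔ x ∈ Sub D b ∧ x j = b j := by
  simp only [mem_Sub, mem_erase]
  constructor
  · intro h
    exact ⟨fun i hi => h i fun hh => hi hh.2, h j fun hh => hh.1 rfl⟩
  · rintro ⟨h1, h2⟩ i hi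
    by_cases hij : i = j
    · rw [hij]; exact h2
    · exact h1 i fun hh => hi ⟨hij, hh⟩

theorem mem_er' {D : Finset (Fin n)} {j : Fin n} (hj : j ∈ D) {b x : V n} :
    x ∈ Sub (D.erase j) (fl b j) ↔ x ∈ Sub D b ∧ x j ≠ b j := by
  rw [mem_er, Sub_eq_of_mem (fl_mem_Sub hj (self_mem_Sub D b)), fl_apply_self]
  refine and_congr_right fun _ => ⟨fun h hh => ?_, z2_eq⟩
  rw [hh] at h
  exact z2_ne _ h.symm

theorem mem_one {m : Fin n} {b x : V n} : x ∈ Sub {m} b ↔ ∀ i, i ≠ m → x i = b i := by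
  simp only [mem_Sub, mem_singleton, ne_eq]

theorem mem_two {l m : Fin n} {b x : V n} :
    x ∈ Sub {l, m} b ↔ ∀ i, i ≠ l → i ≠ m → x i = b i := by
  simp only [mem_Sub, mem_insert, mem_singleton, not_or, and_imp, ne_eq]

theorem two_split {g m : Fin n} {b x : V n} :
    x ∈ Sub {g, m} b ↔ x ∈ Sub {m} b ∨ x ∈ Sub {m} (fl b g) := by
  rw [mem_two, mem_one, mem_one]
  constructor
  · intro h
    by_cases c : x g = b g
    · left
      intro i hi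
      by_cases hig : i = g
      · rw [hig]; exact c
      · exact h i hig hi
    · right
      intro i hi
      by_cases hig : i = g
      · rw [hig, fl_apply_self]; exact z2_eq c
      · rw [fl_apply_ne b hig]; exact h i hig hi
  · rintro (h | h) i h1 h2
    · exact h i h2
    · rw [h i h2, fl_apply_ne b h1]

theorem ext2 {l m : Fin n} {p q : V n} (h : ∀ i, i ≠ l → i ≠ m → p i = q i) (h1 : p l = q l)
    (h2 : p m = q m) : p = q := by
  funext i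
  by_cases c1 : i = l
  · rw [c1]; exact h1
  by_cases c2 : i = m
  · rw [c2]; exact h2
  exact h i c1 c2

theorem fl_self_ne (x : V n) (i : Fin n) : fl x i i ≠ x i := by
  rw [fl_apply_self]; exact z2_ne _

theorem fl_mem_S {D : Finset (Fin n)} {y x : V n} {l m : Fin n} (hl : l ∈ D)
    (hx : x ∈ Sub D y \ Sub {l, m} y) : fl x l ∈ Sub D y \ Sub {l, m} y := by
  obtain ⟨h1, h2⟩ := mem_sdiff.mp hx
  refine mem_sdiff.mpr ⟨fl_mem_Sub hl h1, fun hh => h2 ?_⟩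
  have := fl_mem_Sub (mem_insert_self l {m}) hh
  rwa [fl_fl] at this

/-- a pair crossing a direction outside the square -/
theorem caseA {D : Finset (Fin n)} {y : V n} {l m j : Fin n} {P : V n → V n}
    (hP : Inv (Sub D y \ Sub {l, m} y) P) (hjl : j ≠ l) (hjm : j ≠ m) (hl : l ∈ D)
    (ih : j ∈ D → Fk adj (Sub (D.erase j) y \ Sub {l, m} y))
    {x : V n} (hx : x ∈ Sub D y \ Sub {l, m} y) (hc : P x j ≠ x j) :
    Good adj (Sub D y \ Sub {l, m} y) P := by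
  obtain ⟨h1, -, h3⟩ := hP x hx
  have hj : j ∈ D := by
    by_contra hh
    exact hc ((mem_Sub.mp (mem_sdiff.mp h1).1 j hh).trans
      (mem_Sub.mp (mem_sdiff.mp hx).1 j hh).symm)
  have hsub : Sub (D.erase j) y \ Sub {l, m} y ⊆ Sub D y \ Sub {l, m} y := fun z hz =>
    mem_sdiff.mpr ⟨(mem_er.mp (mem_sdiff.mp hz).1).1, (mem_sdiff.mp hz).2⟩
  obtain ⟨P', k1, -, k3⟩ := step hP hsub (ih hj) (by
    by_cases c : x j = y j
    · refine ⟨x, mem_sdiff.mpr ⟨mem_er.mpr ⟨(mem_sdiff.mp hx).1, c⟩, (mem_sdiff.mp hx).2⟩,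
        fun hh => hc ?_⟩
      rw [(mem_er.mp (mem_sdiff.mp hh).1).2, c]
    · have c2 : P x j = y j := by
        revert c hc
        generalize P x j = a
        generalize x j = b
        generalize y j = c
        revert a b c
        decide
      refine ⟨P x, mem_sdiff.mpr ⟨mem_er.mpr ⟨(mem_sdiff.mp h1).1, c2⟩, (mem_sdiff.mp h1).2⟩,
        fun hh => c ?_⟩
      rw [h3] at hh
      exact (mem_er.mp (mem_sdiff.mp hh).1).2)
  apply k3
  have e : (Sub D y \ Sub {l, m} y) \ (Sub (D.erase j) y \ Sub {l, m} y) =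
      Sub (D.erase j) (fl y j) := by
    ext z
    have f : z ∈ Sub {l, m} y → z j = y j := fun h => mem_two.mp h j hjl hjm
    simp only [mem_sdiff]
    rw [mem_er' hj, mem_er]
    exact prop3 f
  rw [e] at k1 ⊢
  exact (fink _ ⟨l, mem_erase.mpr ⟨hjl.symm, hl⟩⟩ _).2 P' k1

/-- crossing `l` is constant along `l` when all pairs stay in their squares -/
theorem cl_fl {D : Finset (Fin n)} {y z : V n} {l m : Fin n} {P : V n → V n}
    (hP : Inv (Sub D y \ Sub {l, m} y) P) (hl : l ∈ D) (hlm : l ≠ m)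
    (hs : ∀ x ∈ Sub D y \ Sub {l, m} y, ∀ i, i ≠ l → i ≠ m → P x i = x i)
    (hz : z ∈ Sub D y \ Sub {l, m} y) (hc : P z l ≠ z l) : P (fl z l) l ≠ fl z l l := by
  intro hh
  have hw := fl_mem_S hl hz
  have a1 : P z l = z l + 1 := z2_eq hc
  have a2 : P (fl z l) m ≠ fl z l m := fun h => (hP _ hw).2.1 (ext2 (hs _ hw) hh h)
  have a3 : fl z l m = z m := fl_apply_ne z hlm.symm
  by_cases c : P z m = z m
  · have e : P z = fl z l := ext2 (l := l) (m := m)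
      (fun i h1 h2 => by rw [hs z hz i h1 h2, fl_apply_ne z h1])
      (by rw [a1, fl_apply_self]) (by rw [c, a3])
    have e2 := (hP z hz).2.2
    rw [e] at e2
    rw [e2] at hh
    exact fl_self_ne z l hh.symm
  · have e : P z = P (fl z l) := ext2 (l := l) (m := m)
      (fun i h1 h2 => by rw [hs z hz i h1 h2, hs _ hw i h1 h2, fl_apply_ne z h1])
      (by rw [a1, hh, fl_apply_self]) (by rw [z2_eq c, z2_eq a2, a3])
    exact fl_ne z l (hP.inj hz hw e).symm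

theorem fl_mem_S' {D : Finset (Fin n)} {y : V n} {l m g : Fin n} (hg : g ∈ D) (hgl : g ≠ l)
    (hgm : g ≠ m) : fl y g ∈ Sub D y \ Sub {l, m} y :=
  mem_sdiff.mpr ⟨fl_mem_Sub hg (self_mem_Sub D y), fun h => fl_self_ne y g (mem_two.mp h g hgl hgm)⟩

/-- cutting along `l` -/
theorem cut {D : Finset (Fin n)} {y z : V n} {l m g g' i i' : Fin n} {P : V n → V n}
    (hP : Inv (Sub D y \ Sub {l, m} y) P) (hl : l ∈ D) (hm : m ∈ D) (hlm : l ≠ m)
    (hs : ∀ x ∈ Sub D y \ Sub {l, m} y, ∀ i, i ≠ l → i ≠ m → P x i = x i)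
    (hg : g ∈ D) (hgl : g ≠ l) (hgm : g ≠ m) (hg' : g' ∈ D) (hgl' : g' ≠ l) (hgm' : g' ≠ m)
    (hgg : g ≠ g') (c1 : P (fl y g) l ≠ fl y g l) (c2 : P (fl y g') l ≠ fl y g' l)
    (hz : z ∈ Sub D y) (hzl : z l = y l) (c3 : P z l ≠ z l)
    (_hil : i ≠ l) (him : i ≠ m) (hig : i ≠ g) (hi : z i ≠ y i)
    (hil' : i' ≠ l) (him' : i' ≠ m) (hig' : i' ≠ g') (hi' : z i' ≠ y i')
    (ihA : Fk adj (Sub (D.erase l) y \ Sub {g, m} y))
    (ihB : Fk adj (Sub (D.erase l) (fl y l) \ Sub {g', m} (fl y l))) :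
    Good adj (Sub D y \ Sub {l, m} y) P := by
  have sub1 : ∀ p ∈ Sub D y, ∀ x ∈ Sub {m} p, x ∈ Sub D y := fun p hp x hx =>
    mem_Sub.mpr fun j hj => (mem_one.mp hx j fun hh => hj (hh ▸ hm)).trans (mem_Sub.mp hp j hj)
  have y1 : fl y g l = y l := fl_apply_ne y hgl.symm
  have y2 : fl (fl y l) g' l ≠ y l := by
    rw [fl_apply_ne _ hgl'.symm]; exact fl_self_ne y l
  have f1 : ∀ x ∈ Sub {m} y, x l = y l := fun x hx => mem_one.mp hx l hlm
  have f2 : ∀ x ∈ Sub {m} (fl y l), x l ≠ y l := fun x hx => by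
    rw [mem_one.mp hx l hlm]; exact fl_self_ne y l
  have f3 : ∀ x ∈ Sub {m} (fl y g), x l = y l := fun x hx => (mem_one.mp hx l hlm).trans y1
  have f4 : ∀ x ∈ Sub {m} (fl (fl y l) g'), x l ≠ y l := fun x hx => by
    rw [mem_one.mp hx l hlm]; exact y2
  have hw : fl (fl y l) g' ∈ Sub D y \ Sub {l, m} y := by
    rw [fl_comm]; exact fl_mem_S hl (fl_mem_S' hg' hgl' hgm')
  have c2' : P (fl (fl y l) g') l ≠ fl (fl y l) g' l := by
    rw [fl_comm]; exact cl_fl hP hl hlm hs (fl_mem_S' hg' hgl' hgm') c2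
  have s1 : Sub {m} (fl y g) ⊆ Sub D y \ Sub {l, m} y := fun x hx =>
    mem_sdiff.mpr ⟨sub1 _ (fl_mem_Sub hg (self_mem_Sub D y)) x hx, fun hh => fl_self_ne y g
      ((mem_one.mp hx g hgm).symm.trans (mem_two.mp hh g hgl hgm))⟩
  obtain ⟨P1, k1, k2, k3⟩ := step hP s1 (fink _ (singleton_nonempty m) _)
    ⟨fl y g, self_mem_Sub _ _, fun hh => c1 (mem_one.mp hh l hlm)⟩
  apply k3
  have s2 : Sub {m} (fl (fl y l) g') ⊆ (Sub D y \ Sub {l, m} y) \ Sub {m} (fl y g) := fun x hx =>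
    mem_sdiff.mpr ⟨mem_sdiff.mpr ⟨sub1 _ (mem_sdiff.mp hw).1 x hx, fun hh => by
      have e1 := mem_one.mp hx g' hgm'
      rw [mem_two.mp hh g' hgl' hgm', fl_apply_self, fl_apply_ne y hgl'] at e1
      exact z2_ne _ e1.symm⟩, fun hh => f4 x hx (f3 x hh)⟩
  have p1 : P1 (fl (fl y l) g') = P (fl (fl y l) g') := k2 _ (s2 (self_mem_Sub _ _)) (fun hh => by
    have e1 := mem_one.mp hh g hgm
    rw [hs _ hw g hgl hgm, fl_apply_ne _ hgg, fl_apply_ne y hgl] at e1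
    exact fl_self_ne y g e1.symm)
  obtain ⟨P2, l1, l2, l3⟩ := step k1 s2 (fink _ (singleton_nonempty m) _)
    ⟨fl (fl y l) g', self_mem_Sub _ _, fun hh => c2' (by rw [← p1]; exact mem_one.mp hh l hlm)⟩
  apply l3
  have s3 : Sub (D.erase l) y \ Sub {g, m} y ⊆
      ((Sub D y \ Sub {l, m} y) \ Sub {m} (fl y g)) \ Sub {m} (fl (fl y l) g') := by
    intro x hx
    simp only [mem_sdiff] at hx ⊢
    rw [mem_er, two_split] at hx
    rw [two_split]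
    exact prop2 (f2 x) (f4 x) hx
  have hzA : z ∈ Sub (D.erase l) y \ Sub {g, m} y :=
    mem_sdiff.mpr ⟨mem_er.mpr ⟨hz, hzl⟩, fun hh => hi (mem_two.mp hh i hig him)⟩
  have hz3 := s3 hzA
  have hz2 := (mem_sdiff.mp hz3).1
  have hz1 := (mem_sdiff.mp hz2).1
  have p2 : P1 z = P z := k2 z hz2 fun hh => c3 ((f3 _ hh).trans hzl.symm)
  have p3 : P2 z = P1 z := l2 z hz3 fun hh => by
    have e1 := mem_one.mp hh i' him'
    rw [p2, hs z hz1 i' hil' him', fl_apply_ne _ hig', fl_apply_ne y hil'] at e1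
    exact hi' e1
  obtain ⟨P3, m1, -, m3⟩ := step l1 s3 ihA ⟨z, hzA, fun hh => c3 (by
    rw [← p2, ← p3, hzl]; exact (mem_er.mp (mem_sdiff.mp hh).1).2)⟩
  apply m3
  have e : (((Sub D y \ Sub {l, m} y) \ Sub {m} (fl y g)) \ Sub {m} (fl (fl y l) g')) \
      (Sub (D.erase l) y \ Sub {g, m} y) =
      Sub (D.erase l) (fl y l) \ Sub {g', m} (fl y l) := by
    ext x
    simp only [mem_sdiff]
    rw [mem_er' hl, mem_er, two_split (g := l), two_split (g := g), two_split (g := g')]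
    exact prop1 (f1 x) (f2 x) (f3 x) (f4 x)
  rw [e] at m1 ⊢
  exact ihB.2 P3 m1

theorem caseB {d : ℕ} {D : Finset (Fin n)} {y : V n} {l m g1 g2 : Fin n} {P : V n → V n}
    (hD : #D = d + 1)
    (ih : ∀ (D : Finset (Fin n)) (y : V n) (l m : Fin n), #D = d → l ∈ D → m ∈ D → l ≠ m →
      Fk adj (Sub D y \ Sub {l, m} y))
    (hP : Inv (Sub D y \ Sub {l, m} y) P) (hl : l ∈ D) (hm : m ∈ D) (hlm : l ≠ m)
    (hs : ∀ x ∈ Sub D y \ Sub {l, m} y, ∀ i, i ≠ l → i ≠ m → P x i = x i)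
    (h1 : g1 ∈ D) (h1l : g1 ≠ l) (h1m : g1 ≠ m) (h2 : g2 ∈ D) (h2l : g2 ≠ l) (h2m : g2 ≠ m)
    (h12 : g1 ≠ g2) (G : Finset (Fin n))
    (hG : ∀ g ∈ G, g ∈ D ∧ g ≠ l ∧ g ≠ m ∧ P (fl y g) l ≠ fl y g l)
    (h : 3 ≤ #G ∨ (2 ≤ #G ∧ P (fl (fl y g1) g2) l ≠ fl (fl y g1) g2 l)) :
    Good adj (Sub D y \ Sub {l, m} y) P := by
  have hc : #(D.erase l) = d := by rw [card_erase_of_mem hl, hD]; rfl
  have hm' : m ∈ D.erase l := mem_erase.mpr ⟨hlm.symm, hm⟩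
  rcases h with h | ⟨h, c3⟩
  · obtain ⟨g, hg, g', hg', k, hk, a1, a2, a3⟩ := two_lt_card.mp h
    obtain ⟨b1, b2, b3, b4⟩ := hG g hg
    obtain ⟨c1, c2, c3, c4⟩ := hG g' hg'
    obtain ⟨d1, d2, d3, d4⟩ := hG k hk
    exact cut (i := k) (i' := k) hP hl hm hlm hs b1 b2 b3 c1 c2 c3 a1 b4 c4
      (fl_mem_Sub d1 (self_mem_Sub D y)) (fl_apply_ne y d2.symm) d4 d2 d3 a2.symm (fl_self_ne y k)
      d2 d3 a3.symm (fl_self_ne y k) (ih _ _ _ _ hc (mem_erase.mpr ⟨b2, b1⟩) hm' b3)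
      (ih _ _ _ _ hc (mem_erase.mpr ⟨c2, c1⟩) hm' c3)
  · obtain ⟨g, hg, g', hg', a1⟩ := one_lt_card.mp h
    obtain ⟨b1, b2, b3, b4⟩ := hG g hg
    obtain ⟨c1, c2, c3', c4⟩ := hG g' hg'
    have key : ∀ t, ∃ i, i ≠ l ∧ i ≠ m ∧ i ≠ t ∧ fl (fl y g1) g2 i ≠ y i := by
      intro t
      by_cases c : g1 = t
      · refine ⟨g2, h2l, h2m, fun hh => h12 (c.trans hh.symm), ?_⟩
        rw [fl_apply_self, fl_apply_ne y h12.symm]
        exact z2_ne _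
      · refine ⟨g1, h1l, h1m, c, ?_⟩
        rw [fl_apply_ne _ h12]
        exact fl_self_ne y g1
    obtain ⟨i, e1, e2, e3, e4⟩ := key g
    obtain ⟨i', f1, f2, f3, f4⟩ := key g'
    exact cut hP hl hm hlm hs b1 b2 b3 c1 c2 c3' a1 b4 c4
      (fl_mem_Sub h2 (fl_mem_Sub h1 (self_mem_Sub D y)))
      (by rw [fl_apply_ne _ h2l.symm, fl_apply_ne _ h1l.symm]) c3 e1 e2 e3 e4 f1 f2 f3 f4
      (ih _ _ _ _ hc (mem_erase.mpr ⟨b2, b1⟩) hm' b3)
      (ih _ _ _ _ hc (mem_erase.mpr ⟨c2, c1⟩) hm' c3')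

theorem succ {d : ℕ} (hd : 5 ≤ d)
    (ih : ∀ (D : Finset (Fin n)) (y : V n) (l m : Fin n), #D = d → l ∈ D → m ∈ D → l ≠ m →
      Fk adj (Sub D y \ Sub {l, m} y))
    (D : Finset (Fin n)) (y : V n) (l m : Fin n) (hD : #D = d + 1) (hl : l ∈ D) (hm : m ∈ D)
    (hlm : l ≠ m) : Fk adj (Sub D y \ Sub {l, m} y) := by
  refine ⟨(inv_fl fun x hx => fl_mem_S hl hx).even, fun P hP => ?_⟩
  by_cases hA : ∃ x ∈ Sub D y \ Sub {l, m} y, ∃ j, j ≠ l ∧ j ≠ m ∧ P x j ≠ x j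
  · obtain ⟨x, hx, j, h1, h2, h3⟩ := hA
    exact caseA hP h1 h2 hl (fun hj => ih _ _ _ _ (by rw [card_erase_of_mem hj, hD]; rfl)
      (mem_erase.mpr ⟨h1.symm, hl⟩) (mem_erase.mpr ⟨h2.symm, hm⟩) hlm) hx h3
  have hs : ∀ x ∈ Sub D y \ Sub {l, m} y, ∀ i, i ≠ l → i ≠ m → P x i = x i := by
    intro x hx i h1 h2
    by_contra hh
    exact hA ⟨x, hx, i, h1, h2, hh⟩
  have hor : ∀ x ∈ Sub D y \ Sub {l, m} y, P x l ≠ x l ∨ P x m ≠ x m := by
    intro x hx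
    by_contra hh
    rw [not_or, not_not, not_not] at hh
    exact (hP x hx).2.1 (ext2 (hs x hx) hh.1 hh.2)
  have hG : 4 ≤ #((D.erase l).erase m) := by
    rw [card_erase_of_mem (mem_erase.mpr ⟨hlm.symm, hm⟩), card_erase_of_mem hl]
    omega
  have mG : ∀ g ∈ (D.erase l).erase m, g ∈ D ∧ g ≠ l ∧ g ≠ m := fun g hg =>
    ⟨mem_of_mem_erase (mem_of_mem_erase hg), (mem_erase.mp (mem_of_mem_erase hg)).1,
      (mem_erase.mp hg).1⟩
  obtain ⟨g1, k1, g2, k2, h12⟩ := one_lt_card.mp (by omega : 1 < #((D.erase l).erase m))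
  obtain ⟨a1, a2, a3⟩ := mG g1 k1
  obtain ⟨b1, b2, b3⟩ := mG g2 k2
  set Gl := ((D.erase l).erase m).filter fun g => P (fl y g) l ≠ fl y g l with hGl
  set Gm := ((D.erase l).erase m).filter fun g => P (fl y g) m ≠ fl y g m with hGm
  have hsum : 4 ≤ #Gl + #Gm := by
    refine hG.trans ((card_le_card fun g hg => ?_).trans (card_union_le _ _))
    obtain ⟨c1, c2, c3⟩ := mG g hg
    rcases hor _ (fl_mem_S' c1 c2 c3) with h | h
    · exact mem_union_left _ (mem_filter.mpr ⟨hg, h⟩)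
    · exact mem_union_right _ (mem_filter.mpr ⟨hg, h⟩)
  have hz : fl (fl y g1) g2 ∈ Sub D y \ Sub {l, m} y :=
    mem_sdiff.mpr ⟨fl_mem_Sub b1 (fl_mem_Sub a1 (self_mem_Sub D y)), fun hh => by
      have e := mem_two.mp hh g1 a2 a3
      rw [fl_apply_ne _ h12] at e
      exact fl_self_ne y g1 e⟩
  have L : 3 ≤ #Gl ∨ (2 ≤ #Gl ∧ P (fl (fl y g1) g2) l ≠ fl (fl y g1) g2 l) →
      Good adj (Sub D y \ Sub {l, m} y) P :=
    caseB hD ih hP hl hm hlm hs a1 a2 a3 b1 b2 b3 h12 Gl fun g hg => by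
      obtain ⟨c1, c2⟩ := mem_filter.mp hg
      obtain ⟨c3, c4, c5⟩ := mG g c1
      exact ⟨c3, c4, c5, c2⟩
  have M : 3 ≤ #Gm ∨ (2 ≤ #Gm ∧ P (fl (fl y g1) g2) m ≠ fl (fl y g1) g2 m) →
      Good adj (Sub D y \ Sub {l, m} y) P := by
    rw [pair_comm l m] at hP hs ⊢
    exact caseB hD ih hP hm hl hlm.symm (fun x hx i h1 h2 => hs x hx i h2 h1) a1 a3 a2 b1 b3 b2
      h12 Gm fun g hg => by
        obtain ⟨c1, c2⟩ := mem_filter.mp hg
        obtain ⟨c3, c4, c5⟩ := mG g c1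
        exact ⟨c3, c5, c4, c2⟩
  rcases hor _ hz with h | h
  · by_cases c : 2 ≤ #Gl
    · exact L (Or.inr ⟨c, h⟩)
    · exact M (Or.inl (by omega))
  · by_cases c : 2 ≤ #Gm
    · exact M (Or.inr ⟨c, h⟩)
    · exact L (Or.inl (by omega))

end SQx

theorem sq_st (h : SQ5gSt) : SQSt := by
  intro n D b y l m hD hy hl hm hlm
  have key : ∀ d, 5 ≤ d → ∀ (D : Finset (Fin n)) (y : V n) (l m : Fin n), #D = d → l ∈ D →
      m ∈ D → l ≠ m → Fk adj (Sub D y \ Sub {l, m} y) := by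
    intro d hd
    induction d, hd using Nat.le_induction with
    | base => exact fun D y l m h1 h2 h3 h4 => h n D y y l m h1 (self_mem_Sub D y) h2 h3 h4
    | succ d hd ih => exact SQx.succ hd ih
  rw [← Sub_eq_of_mem hy]
  exact key _ hD D y l m rfl hl hm hlm

end Pool.Agent.Lib.MP_88ff4d_co.NP
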