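import Pool.Agent.Lib.MP_88ff4d_co.NP.St

/-! Transport of the certificate for the 5-cube minus a square. -/

set_option autoImplicit false

namespace Pool.Agent.Lib.MP_88ff4d_co.NP

open Finset

namespace SQ5gx

theorem fk_image {α β : Type*} [DecidableEq α] [DecidableEq β] {ad : α → α → Prop}
    {ad' : β → β → Prop} {S : Finset α} (f : α → β) (g : β → α) (hgf : ∀ x, g (f x) = x)
    (had : ∀ x y, ad x y → ad' (f x) (f y)) (h : Fk ad S) : Fk ad' (S.image f) := by
  have hinj : Function.Injective f := Function.LeftInverse.injective hgf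
  refine ⟨by rw [card_image_of_injective _ hinj]; exact h.1, fun P hP => ?_⟩
  have key : ∀ x ∈ S, g (P (f x)) ∈ S ∧ f (g (P (f x))) = P (f x) := by
    intro x hx
    obtain ⟨y, hy, e⟩ := mem_image.mp (hP (f x) (mem_image_of_mem f hx)).1
    rw [← e, hgf]
    exact ⟨hy, rfl⟩
  have hP0 : Inv S (fun x => g (P (f x))) := by
    intro x hx
    obtain ⟨k1, k2⟩ := key x hx
    obtain ⟨-, c2, c3⟩ := hP (f x) (mem_image_of_mem f hx)
    refine ⟨k1, fun hh => c2 ?_, ?_⟩
    · rw [← k2]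
      exact congrArg f hh
    · show g (P (f (g (P (f x))))) = x
      rw [k2, c3, hgf]
  obtain ⟨R, r1, r2, r3⟩ := h.2 _ hP0
  refine ⟨fun z => f (R (g z)), fun z hz => ?_, fun z hz => ?_, fun A hA hne c1 c2 => ?_⟩
  · obtain ⟨x, hx, rfl⟩ := mem_image.mp hz
    obtain ⟨k1, k2, k3⟩ := r1 x hx
    simp only [hgf]
    exact ⟨mem_image_of_mem f k1, fun hh => k2 (hinj hh), by rw [k3]⟩
  · obtain ⟨x, hx, rfl⟩ := mem_image.mp hz
    simp only [hgf]
    exact had _ _ (r2 x hx)
  · have e := r3 (S.filter fun x => f x ∈ A) (filter_subset _ _) (by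
      obtain ⟨z, hz⟩ := hne
      obtain ⟨x, hx, rfl⟩ := mem_image.mp (hA hz)
      exact ⟨x, mem_filter.mpr ⟨hx, hz⟩⟩) (by
      intro x hx
      obtain ⟨k1, k2⟩ := mem_filter.mp hx
      refine mem_filter.mpr ⟨(key x k1).1, ?_⟩
      show f (g (P (f x))) ∈ A
      rw [(key x k1).2]
      exact c1 _ k2) (by
      intro x hx
      obtain ⟨k1, k2⟩ := mem_filter.mp hx
      refine mem_filter.mpr ⟨(r1 x k1).1, ?_⟩
      have := c2 _ k2
      simpa only [hgf] using this)
    refine subset_antisymm hA fun z hz => ?_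
    obtain ⟨x, hx, rfl⟩ := mem_image.mp hz
    rw [← e] at hx
    exact (mem_filter.mp hx).2

theorem exists_enum {n : ℕ} {D : Finset (Fin n)} {l m : Fin n} (hD : #D = 5) (hl : l ∈ D)
    (hm : m ∈ D) (hlm : l ≠ m) : ∃ e : Fin 5 → Fin n, Function.Injective e ∧ e 0 = l ∧ e 1 = m ∧
      ∀ i, i ∈ D ↔ ∃ k, e k = i := by
  have h3 : #((D.erase l).erase m) = 3 := by
    rw [card_erase_of_mem (mem_erase.mpr ⟨hlm.symm, hm⟩), card_erase_of_mem hl, hD]
  obtain ⟨a, b, c, hab, hac, hbc, e⟩ := card_eq_three.mp h3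
  have mem : ∀ i, (i ≠ m ∧ i ≠ l ∧ i ∈ D) ↔ (i = a ∨ i = b ∨ i = c) := by
    intro i
    have : i ∈ (D.erase l).erase m ↔ i ∈ ({a, b, c} : Finset (Fin n)) := by rw [e]
    simpa only [mem_erase, mem_insert, mem_singleton] using this
  obtain ⟨am, al, aD⟩ := (mem a).mpr (Or.inl rfl)
  obtain ⟨bm, bl, bD⟩ := (mem b).mpr (Or.inr (Or.inl rfl))
  obtain ⟨cm, cl, cD⟩ := (mem c).mpr (Or.inr (Or.inr rfl))
  refine ⟨![l, m, a, b, c], ?_, rfl, rfl, fun i => ⟨fun hi => ?_, ?_⟩⟩
  · have hml := hlm.symm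
    have hba := hab.symm
    have hca := hac.symm
    have hcb := hbc.symm
    have ma := am.symm
    have la := al.symm
    have mb := bm.symm
    have lb := bl.symm
    have mc := cm.symm
    have lc := cl.symm
    intro i j hij
    fin_cases i <;> fin_cases j <;> first | rfl | exact absurd hij (by assumption)
  · by_cases h1 : i = l
    · exact ⟨0, h1.symm⟩
    by_cases h2 : i = m
    · exact ⟨1, h2.symm⟩
    rcases (mem i).mp ⟨h2, h1, hi⟩ with h | h | h
    · exact ⟨2, h.symm⟩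
    · exact ⟨3, h.symm⟩
    · exact ⟨4, h.symm⟩
  · rintro ⟨k, rfl⟩
    fin_cases k
    · exact hl
    · exact hm
    · exact aD
    · exact bD
    · exact cD

end SQ5gx

theorem sq5g_st (h : SQ5St) : SQ5gSt := by
  intro n D b y l m hD hy hl hm hlm
  obtain ⟨e, he, e0, e1, hr⟩ := SQ5gx.exists_enum hD hl hm hlm
  let f : V 5 → V n := fun x => y + Function.extend e x 0
  let g : V n → V 5 := fun z k => z (e k) - y (e k)
  have f1 : ∀ x k, f x (e k) = y (e k) + x k := fun x k => by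
    simp only [f, Pi.add_apply, he.extend_apply]
  have f2 : ∀ x i, i ∉ D → f x i = y i := fun x i hi => by
    have : ¬ ∃ k, e k = i := fun hh => hi ((hr i).mpr hh)
    simp only [f, Pi.add_apply, Function.extend_apply' _ _ _ this, Pi.zero_apply, add_zero]
  have hgf : ∀ x, g (f x) = x := fun x => by
    funext k
    simp only [g, f1, add_sub_cancel_left]
  have had : ∀ x x', adj x x' → adj (f x) (f x') := by
    rintro x _ ⟨k, rfl⟩
    refine ⟨e k, funext fun i => ?_⟩
    by_cases hi : i ∈ D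
    · obtain ⟨k', rfl⟩ := (hr i).mp hi
      by_cases hk : k' = k
      · subst hk
        rw [f1, fl_apply_self, fl_apply_self, f1, add_assoc]
      · rw [f1, fl_apply_ne x hk, fl_apply_ne _ (fun hh => hk (he hh)), f1]
    · have : i ≠ e k := fun hh => hi ((hr i).mpr ⟨k, hh.symm⟩)
      rw [f2 _ i hi, fl_apply_ne _ this, f2 _ i hi]
  have hk : ∀ k : Fin 5, e k ∈ ({l, m} : Finset (Fin n)) ↔ k ∈ ({0, 1} : Finset (Fin 5)) := by
    intro k
    rw [← e0, ← e1]
    simp only [mem_insert, mem_singleton, he.eq_iff]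
  have him : ((univ : Finset (V 5)) \ Sub {0, 1} 0).image f = Sub D b \ Sub {l, m} y := by
    ext z
    rw [mem_image, mem_sdiff]
    constructor
    · rintro ⟨x, hx, rfl⟩
      refine ⟨mem_Sub.mpr fun i hi => (f2 x i hi).trans (mem_Sub.mp hy i hi), fun hh => ?_⟩
      refine (mem_sdiff.mp hx).2 (mem_Sub.mpr fun k hk' => ?_)
      have := mem_Sub.mp hh (e k) fun c => hk' ((hk k).mp c)
      rw [f1] at this
      simpa using this
    · rintro ⟨h1, h2⟩
      refine ⟨g z, mem_sdiff.mpr ⟨mem_univ _, fun hh => h2 (mem_Sub.mpr fun i hi => ?_)⟩, ?_⟩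
      · by_cases hiD : i ∈ D
        · obtain ⟨k, rfl⟩ := (hr i).mp hiD
          have := mem_Sub.mp hh k fun c => hi ((hk k).mpr c)
          exact sub_eq_zero.mp this
        · rw [mem_Sub.mp h1 i hiD, mem_Sub.mp hy i hiD]
      · funext i
        by_cases hiD : i ∈ D
        · obtain ⟨k, rfl⟩ := (hr i).mp hiD
          rw [f1]
          simp only [g, add_sub_cancel]
        · rw [f2 _ i hiD, mem_Sub.mp h1 i hiD, mem_Sub.mp hy i hiD]
  rw [← him]
  exact SQ5gx.fk_image f g hgf had h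

end Pool.Agent.Lib.MP_88ff4d_co.NP
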