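import Pool.Agent.Lib.MP_88ff4d_co.NP.St2

/-! Nearly perfect matchings: one hole, one target and squares. -/

set_option autoImplicit false

namespace Pool.Agent.Lib.MP_88ff4d_co.NP

open Finset

namespace T1x

variable {n : ℕ}

/-- the statement for a fixed number of squares -/
def Tq (n N q : ℕ) : Prop := ∀ (D : Finset (Fin n)) (b : V n) (H T : Finset (V n)) (c : Cf n)
  (x v : V n), Ok D b H T c → c.X = {x} → c.U = {v} → par x = par v → #c.Y ≤ q →
  50 * N ^ 2 + 100 + 3 * N + 2 * q ≤ #D → Rob (Po D b H T)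

theorem res_in {x : V n} {j : Fin n} {e : ZMod 2} (h : x j = e) :
    ({x} : Finset (V n)).filter (· j = e) = {x} := by
  rw [filter_singleton, if_pos h]

theorem res_out {x : V n} {j : Fin n} {e : ZMod 2} (h : x j ≠ e) :
    ({x} : Finset (V n)).filter (· j = e) = ∅ := by
  rw [filter_singleton, if_neg h]

theorem card_res_lt {c : Cf n} {j : Fin n} {e : ZMod 2} {y : V n} (hy : y ∈ c.Y) (h : y j ≠ e) :
    #(c.res j e).Y + 1 ≤ #c.Y :=
  card_lt_card (filter_ssubset.mpr ⟨y, hy, h⟩)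

theorem card_res_le {c : Cf n} {j : Fin n} {e : ZMod 2} : #(c.res j e).Y ≤ #c.Y :=
  card_filter_le _ _

theorem df_erase {D S S' : Finset (Fin n)} (hS : S' ⊆ S) (j : Fin n) (p q : V n) :
    #(df (D \ S) p q) ≤ #(df (D.erase j \ S') p q) + 1 := by
  have : df (D \ S) p q ⊆ insert j (df (D.erase j \ S') p q) := fun i hi => by
    obtain ⟨c1, c2⟩ := mem_df.mp hi
    obtain ⟨c3, c4⟩ := mem_sdiff.mp c1
    by_cases e : i = j
    · exact e ▸ mem_insert_self _ _
    · exact mem_insert_of_mem (mem_df.mpr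
        ⟨mem_sdiff.mpr ⟨mem_erase.mpr ⟨e, c3⟩, fun hh => c4 (hS hh)⟩, c2⟩)
  exact (card_le_card this).trans (card_insert_le _ _)

/-- the hole and a corner lie on one side, the target on the other -/
theorem stepA (hS : SQMSt) {N q : ℕ} (ih : Tq n N q) (hq : q + 4 ≤ N) {D : Finset (Fin n)}
    {b : V n} {H T : Finset (V n)} {c : Cf n} {x v y : V n} (O : Ok D b H T c) (hX : c.X = {x})
    (hU : c.U = {v}) (hp : par x = par v) (hY : #c.Y ≤ q + 1) (hy : y ∈ c.Y) {k1 k2 : Fin n}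
    (hk : k1 ≠ k2) (h1 : k1 ∈ D \ c.Sg ∧ y k1 = x k1 ∧ x k1 ≠ v k1)
    (h2 : k2 ∈ D \ c.Sg ∧ y k2 = x k2 ∧ x k2 ≠ v k2)
    (hd : 50 * N ^ 2 + 100 + 3 * N + 2 * q + 1 ≤ #D) : Rob (Po D b H T) := by
  intro P hP hSP
  obtain ⟨k, ⟨c1, c2, c3⟩, c4⟩ : ∃ k, (k ∈ D \ c.Sg ∧ y k = x k ∧ x k ≠ v k) ∧ k ∉ bk D P x := by
    by_cases e : k1 ∈ bk D P x
    · exact ⟨k2, h2, fun e2 => hk (card_le_one.mp (bk_le x) _ e _ e2)⟩
    · exact ⟨k1, h1, e⟩
  obtain ⟨kD, kS⟩ := mem_sdiff.mp c1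
  have xX : x ∈ c.X := hX ▸ mem_singleton_self x
  have xB : x ∈ c.B := mem_B.mpr (Or.inl xX)
  have vB : v ∈ c.B := mem_B.mpr (Or.inr (Or.inl (hU ▸ mem_singleton_self v)))
  have hx := O.sub xB
  have hv := O.sub vB
  have O0 := O.res kD kS hx
  have O1 := O.res kD kS hv
  have X0 : (c.res k (x k)).X = {x} := by simp only [Cf.res, hX]; exact res_in rfl
  have U0 : (c.res k (x k)).U = ∅ := by simp only [Cf.res, hU]; exact res_out c3.symm
  have X1 : (c.res k (v k)).X = ∅ := by simp only [Cf.res, hX]; exact res_out c3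
  have U1 : (c.res k (v k)).U = {v} := by simp only [Cf.res, hU]; exact res_in rfl
  have Y0 : #(c.res k (x k)).Y ≤ #c.Y := card_res_le
  have Y1 : #(c.res k (v k)).Y + 1 ≤ #c.Y := card_res_lt hy (by rw [c2]; exact c3)
  have g := card_erase_of_mem kD
  have B0 := card_B_le (c := c.res k (x k))
  have B1 := card_B_le (c := c.res k (v k))
  rw [X0, U0, card_singleton, card_empty] at B0
  rw [X1, U1, card_singleton, card_empty] at B1
  obtain ⟨p, p1, -, p3⟩ := cross_of_odd kD hx hP (by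
    rw [O0.even_iff (by omega), X0, U0]; simp)
  have big : 2 * N ^ 2 + 8 * N + 6 ≤ #(gd D P x k) := by
    simp only [bk, mem_filter, mem_univ, true_and, not_lt] at c4
    nlinarith
  obtain ⟨x', l, m, H', P', m1, m2, m3, m4, -, R⟩ := move kD hx hv c3 hP hSP O0 O1
    (x := x) (X0 ▸ mem_singleton_self x) (fun z hz hzx => by
      rcases mem_union.mp hz with hz | hz
      · have s1 := O.sep x xB z (mem_res_B.mp hz).1 hzx.symm
        have s2 := df_erase (D := D) (res_Sg (c := c) k (v k)) k x z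
        omega
      · rw [X0] at hz
        exact absurd (mem_singleton.mp hz) hzx) (N := N) (by omega) (by omega)
    (F := {p, P p}) (insert_subset p1 (singleton_subset_iff.mpr (hP p p1).1)) (fun z hz => by
      rcases mem_insert.mp hz with rfl | hz
      · simp
      · rw [mem_singleton.mp hz, (hP p p1).2.2]; simp) card_le_two big (by nlinarith)
  have X0' : ((c.res k (x k)).toSq x l m).X = ∅ := by
    simp only [Cf.toSq, X0]; exact erase_singleton x
  have U0' : ((c.res k (x k)).toSq x l m).U = ∅ := U0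
  have Y0' : #((c.res k (x k)).toSq x l m).Y ≤ q + 2 :=
    (card_insert_le _ _).trans (by omega)
  refine R.2.2.2.2 (split kD hx hv c3 R.1 R.2.1 ?_ ⟨p, R.2.2.2.1 (by simp), ?_⟩ ?_ ?_)
  · rw [m1.even_iff (by omega), X0', U0']; simp
  · rw [R.eq p (by simp)]; exact p3
  · exact hS n N (q + 2) _ _ _ _ _ m1 X0' U0' Y0' (by omega) (by omega)
  · refine ih _ _ _ _ _ x' v m2 ?_ U1 (m4.trans hp) ?_ (by omega)
    · simp only [Cf.addX, X1]; rfl
    · show #(c.res k (v k)).Y ≤ q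
      omega

theorem base (hC : CLSt) (N : ℕ) : Tq n N 0 := by
  intro D b H T c x v O hX hU hp hY hd
  have xX : x ∈ c.X := hX ▸ mem_singleton_self x
  have vU : v ∈ c.U := hU ▸ mem_singleton_self v
  have hY0 : c.Y = ∅ := card_eq_zero.mp (by omega)
  have k : #(df D x v) ≤ #D := card_filter_le _ _
  refine hC n D b x v H T (O.sub (mem_B.mpr (Or.inl xX)))
    (O.sub (mem_B.mpr (Or.inr (Or.inl vU)))) (fun e => disjoint_left.mp O.dXU xX (e ▸ vU)) hp
    (fun z hz => ?_) (fun z hz => ?_) (by omega)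
  · rw [O.hH z hz, hX, hY0]; simp
  · rw [O.hT z hz, hU, mem_singleton]

theorem stepG (hS : SQMSt) (hF : FarSt) (hL : LinkSt) {N q : ℕ} (ih : Tq n N q)
    (hq : q + 4 ≤ N) : Tq n N (q + 1) := by
  intro D b H T c x v O hX hU hp hY hd
  by_cases hY' : #c.Y ≤ q
  · exact ih D b H T c x v O hX hU hp hY' (by omega)
  obtain ⟨y, hy⟩ : c.Y.Nonempty := card_pos.mp (by omega)
  have xX : x ∈ c.X := hX ▸ mem_singleton_self x
  have vU : v ∈ c.U := hU ▸ mem_singleton_self v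
  have xB : x ∈ c.B := mem_B.mpr (Or.inl xX)
  have vB : v ∈ c.B := mem_B.mpr (Or.inr (Or.inl vU))
  have yB : y ∈ c.B := mem_B.mpr (Or.inr (Or.inr hy))
  obtain ⟨j1, a1, j2, a2, a3⟩ := one_lt_card.mp
    (O.sep y yB v vB fun e => disjoint_left.mp O.dUY vU (e ▸ hy))
  obtain ⟨a4, a5⟩ := mem_df.mp a1
  obtain ⟨a6, a7⟩ := mem_df.mp a2
  by_cases hA : y j1 = x j1 ∧ y j2 = x j2
  · exact stepA hS ih hq O hX hU hp hY hy a3 ⟨a4, hA.1, hA.1 ▸ a5⟩ ⟨a6, hA.2, hA.2 ▸ a7⟩
      (by omega)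
  obtain ⟨j, c1, c2, c3⟩ : ∃ j, j ∈ D \ c.Sg ∧ y j ≠ v j ∧ x j = v j := by
    by_cases e : y j1 = x j1
    · exact ⟨j2, a6, a7, z2_two a7 fun e2 => hA ⟨e, e2.symm⟩⟩
    · exact ⟨j1, a4, a5, z2_two a5 fun e2 => e e2.symm⟩
  obtain ⟨jD, jS⟩ := mem_sdiff.mp c1
  have hx := O.sub xB
  have hv := O.sub vB
  have hyS := O.sub yB
  have O0 := O.res jD jS hv
  have O1 := O.res jD jS hyS
  have X0 : (c.res j (v j)).X = {x} := by simp only [Cf.res, hX]; exact res_in c3
  have U0 : (c.res j (v j)).U = {v} := by simp only [Cf.res, hU]; exact res_in rfl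
  have X1 : (c.res j (y j)).X = ∅ := by
    simp only [Cf.res, hX]; exact res_out (by rw [c3]; exact c2.symm)
  have U1 : (c.res j (y j)).U = ∅ := by simp only [Cf.res, hU]; exact res_out c2.symm
  have Y0 : #(c.res j (v j)).Y + 1 ≤ #c.Y := card_res_lt hy c2
  have Y1 : #(c.res j (y j)).Y ≤ #c.Y := card_res_le
  have g := card_erase_of_mem jD
  have ev : Even #(Po (D.erase j) v H T) := by
    rw [O0.even_iff (by omega), X0, U0]; simp
  intro P hP hSP
  by_cases hcr : ∃ p ∈ Po D b H T, (P p).1 j ≠ p.1 j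
  · exact split jD hv hyS c2.symm hP hSP ev hcr
      (ih _ _ _ _ _ x v O0 X0 U0 hp (by omega) (by omega))
      (hS n N (q + 1) _ _ _ _ _ O1 X1 U1 (by omega) (by omega) (by omega))
  push Not at hcr
  obtain ⟨k1, d1, k2, d2, d3⟩ := one_lt_card.mp
    (O.sep x xB v vB fun e => disjoint_left.mp O.dXU xX (e ▸ vU))
  obtain ⟨d4, d5⟩ := mem_df.mp d1
  obtain ⟨d6, d7⟩ := mem_df.mp d2
  have B := card_B_le (c := c)
  have B0 := card_B_le (c := c.res j (v j))
  have B1 := card_B_le (c := c.res j (y j))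
  rw [hX, hU, card_singleton, card_singleton] at B
  rw [X0, U0, card_singleton, card_singleton] at B0
  rw [X1, U1, card_empty] at B1
  have sg := card_Sg_le (c := c)
  obtain ⟨a, e1, e2⟩ := hF n c.B (fun _ => 2) (D \ (c.Sg ∪ {j, k1, k2})) x (by
    have s1 := le_card_sdiff (c.Sg ∪ {j, k1, k2}) D
    have s2 := card_union_le c.Sg {j, k1, k2}
    have s3 : #({j, k1, k2} : Finset (Fin n)) ≤ 3 := card_le_three
    rw [sum_const, smul_eq_mul]
    have s4 : N ≤ N ^ 2 := Nat.le_self_pow two_ne_zero N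
    omega)
  have aj : a j = x j := e1 j (by simp)
  have a1' : a k1 = x k1 := e1 k1 (by simp)
  have a2' : a k2 = x k2 := e1 k2 (by simp)
  have aS : a ∈ Sub D b := mem_Sub.mpr fun i hi =>
    (e1 i fun hh => hi (mem_sdiff.mp hh).1).trans (mem_Sub.mp hx i hi)
  have sub : ∀ e, D \ (c.Sg ∪ {j, k1, k2}) ⊆ D.erase j \ (c.res j e).Sg := fun e i hi => by
    obtain ⟨t1, t2⟩ := mem_sdiff.mp hi
    simp only [mem_union, mem_insert, mem_singleton, not_or] at t2
    exact mem_sdiff.mpr ⟨mem_erase.mpr ⟨t2.2.1, t1⟩, fun hh => t2.1 (res_Sg _ _ hh)⟩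
  obtain ⟨l, m, m', H', P', w1, w2, -, w4, w5, O0', O1', hP', hS', cr, R⟩ :=
    hL n N D b v y a H T P j _ _ {k1, k2} jD hv hyS c2.symm hP hSP O0 O1 ev hcr
      ((mem_Sub_erase hv jD).mpr ⟨aS, aj.trans c3⟩)
      (fun z hz => (e2 z (mem_res_B.mp hz).1).trans (df_mono (sub _) a z))
      (fun z hz => by
        rw [df_congr (p' := a) fun i hi => fl_apply_ne a (mem_erase.mp (mem_sdiff.mp hi).1).1]
        exact (e2 z (mem_res_B.mp hz).1).trans (df_mono (sub _) a z))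
      (by omega) (by omega) card_le_two (by nlinarith)
  have aX : a ∉ (c.res j (v j)).X := fun hh => w4 (mem_B.mpr (Or.inl hh))
  have aY : a ∉ ((c.res j (v j)).addX a).Y := fun hh => w4 (mem_B.mpr (Or.inr (Or.inr hh)))
  have X0' : (((c.res j (v j)).addX a).toSq a l m).X = {x} := by
    simp only [Cf.toSq, Cf.addX]
    rw [erase_insert aX, X0]
  have U0' : (((c.res j (v j)).addX a).toSq a l m).U = {v} := U0
  have Y0' : #(((c.res j (v j)).addX a).toSq a l m).Y ≤ q + 1 :=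
    (card_insert_le _ _).trans (by show #(c.res j (v j)).Y + 1 ≤ q + 1; omega)
  have X1' : (((c.res j (y j)).addX (fl a j)).toSq (fl a j) l m').X = ∅ := by
    simp only [Cf.toSq, Cf.addX, X1]
    exact erase_insert (notMem_empty _)
  have U1' : (((c.res j (y j)).addX (fl a j)).toSq (fl a j) l m').U = ∅ := U1
  have Y1' : #(((c.res j (y j)).addX (fl a j)).toSq (fl a j) l m').Y ≤ q + 2 :=
    (card_insert_le _ _).trans (by show #(c.res j (y j)).Y + 1 ≤ q + 2; omega)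
  have mk : ∀ k ∈ ({k1, k2} : Finset (Fin n)), k ∈ D \ c.Sg → x k ≠ v k →
      k ∈ D.erase j \ (((c.res j (v j)).addX a).toSq a l m).Sg := fun k t0 t1 t2 => by
    rw [toSq_Sg aY]
    simp only [mem_sdiff, mem_erase, mem_insert, not_or] at t1 ⊢
    exact ⟨⟨fun e => t2 (e ▸ c3), t1.1⟩, fun e => w1 (e ▸ t0), fun e => w2 (e ▸ t0),
      fun hh => t1.2 (res_Sg _ _ hh)⟩
  refine R (split jD hv hyS c2.symm hP' hS' ?_ cr ?_ ?_)
  · rw [O0'.even_iff (by omega), X0', U0']; simp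
  · exact stepA hS ih hq O0' X0' U0' hp Y0' (y := a) (mem_insert_self _ _) d3
      ⟨mk k1 (by simp) d4 d5, a1', d5⟩ ⟨mk k2 (by simp) d6 d7, a2', d7⟩ (by omega)
  · exact hS n N (q + 2) _ _ _ _ _ O1' X1' U1' Y1' (by omega) (by omega)

end T1x

theorem t1_st (hS : SQMSt) (hC : CLSt) (hF : FarSt) (hL : LinkSt) : T1St := by
  intro n N q D b H T c π O hπ hX hU hY hq hd
  have key : ∀ q, q + 3 ≤ N → T1x.Tq n N q := by
    intro q
    induction q with
    | zero => exact fun _ => T1x.base hC N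
    | succ q ih => exact fun h => T1x.stepG hS hF hL (ih (by omega)) (by omega)
  obtain ⟨x, hx⟩ := card_eq_one.mp hX
  obtain ⟨v, hv⟩ := card_eq_one.mp hU
  refine key q hq D b H T c x v O hx hv ?_ hY hd
  rw [hπ x (by simp [hx]), hπ v (by simp [hv])]

end Pool.Agent.Lib.MP_88ff4d_co.NP
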