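import Pool.Agent.Lib.MP_88ff4d_co.NP.St2

/-! As many holes as targets: induction on the number of targets. -/

set_option autoImplicit false

namespace Pool.Agent.Lib.MP_88ff4d_co.NP

open Finset

namespace TMx

variable {n : ℕ}

/-- the induction hypothesis -/
def IH (n N t : ℕ) (π : ZMod 2) : Prop := ∀ (D : Finset (Fin n)) (b : V n) (H T : Finset (V n))
  (c : Cf n), Ok D b H T c → Par π c → #c.X = #c.U → #c.U ≤ t → #c.Y + (t + 1) ^ 2 + 3 ≤ N →
  50 * N ^ 2 + 100 + 5 * N + t ≤ #D → Rob (Po D b H T)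

/-- both sides are balanced -/
theorem fin0 (hF : FarSt) (hL : LinkSt) {N t : ℕ} {π : ZMod 2} (ih : IH n N t π)
    {D : Finset (Fin n)} {b b0 b1 : V n} {H T : Finset (V n)} {P : V n × Bool → V n × Bool}
    {j : Fin n} {c0 c1 : Cf n} (hj : j ∈ D) (h0 : b0 ∈ Sub D b) (h1 : b1 ∈ Sub D b)
    (hne : b0 j ≠ b1 j) (hP : Inv (Po D b H T) P) (hS : SP (Po D b H T) P)
    (O0 : Ok (D.erase j) b0 H T c0) (O1 : Ok (D.erase j) b1 H T c1) (p0 : Par π c0)
    (p1 : Par π c1) (e0 : #c0.X = #c0.U) (e1 : #c1.X = #c1.U) (u0 : #c0.U ≤ t) (u1 : #c1.U ≤ t)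
    (y0 : #c0.Y + (t + 1) ^ 2 + 4 ≤ N) (y1 : #c1.Y + (t + 1) ^ 2 + 4 ≤ N)
    (hD : 50 * N ^ 2 + 100 + 5 * N + t + 1 ≤ #D) : Good adp (Po D b H T) P := by
  have g := card_erase_of_mem hj
  have sq : (t + 1) ^ 2 = t ^ 2 + 2 * t + 1 := by ring
  have ev : Even #(Po (D.erase j) b0 H T) := (O0.even_iff (by omega)).mpr ⟨#c0.U, by rw [e0]⟩
  by_cases hx : ∃ p ∈ Po D b H T, (P p).1 j ≠ p.1 j
  · exact split hj h0 h1 hne hP hS ev hx (ih _ _ _ _ _ O0 p0 e0 u0 (by omega) (by omega))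
      (ih _ _ _ _ _ O1 p1 e1 u1 (by omega) (by omega))
  push Not at hx
  have b0' := card_B_le (c := c0)
  have b1' := card_B_le (c := c1)
  have s0 := card_Sg_le (c := c0)
  have s1 := card_Sg_le (c := c1)
  obtain ⟨a, a1, a2⟩ := hF n (c0.B ∪ c1.B) (fun _ => 2) (D.erase j \ (c0.Sg ∪ c1.Sg)) b0 (by
    rw [sum_const, smul_eq_mul]
    have k1 := card_union_le c0.B c1.B
    have k2 := card_union_le c0.Sg c1.Sg
    have k3 := le_card_sdiff (c0.Sg ∪ c1.Sg) (D.erase j)
    have k4 : N ≤ N ^ 2 := Nat.le_self_pow two_ne_zero N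
    omega)
  have a3 : a ∈ Sub (D.erase j) b0 := mem_Sub.mpr fun i hi => a1 i fun hh => hi (mem_sdiff.mp hh).1
  obtain ⟨l, m, m', H', P', -, -, -, n0, n1, K0, K1, k1, k2, k3, k4⟩ :=
    hL n N D b b0 b1 a H T P j c0 c1 ∅ hj h0 h1 hne hP hS O0 O1 ev hx a3
      (fun q hq => (a2 q (mem_union_left _ hq)).trans
        (df_mono (sdiff_subset_sdiff le_rfl subset_union_left) a q))
      (fun q hq => by
        rw [df_congr (p' := a) fun i hi => fl_apply_ne _ (mem_erase.mp (mem_sdiff.mp hi).1).1]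
        exact (a2 q (mem_union_right _ hq)).trans
          (df_mono (sdiff_subset_sdiff le_rfl subset_union_right) a q))
      (by omega) (by omega) (by simp) (by omega)
  have side : ∀ (c : Cf n) (z w : V n) (l m : Fin n), z ∉ c.B → Par π c → #c.X = #c.U →
      #c.U ≤ t → #c.Y + (t + 1) ^ 2 + 4 ≤ N → Ok (D.erase j) w H' T ((c.addX z).toSq z l m) →
      Even #(Po (D.erase j) w H' T) ∧ Rob (Po (D.erase j) w H' T) := by
    intro c z w l m hz pc e u y K
    have x1 : ((c.addX z).toSq z l m).X = c.X :=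
      erase_insert fun hh => hz (mem_B.mpr (Or.inl hh))
    have x2 : ((c.addX z).toSq z l m).U = c.U := rfl
    have x3 : #((c.addX z).toSq z l m).Y ≤ #c.Y + 1 := card_insert_le _ _
    refine ⟨(K.even_iff (by omega)).mpr ⟨#c.U, by rw [x1, x2, e]⟩,
      ih _ _ _ _ _ K ?_ (by rw [x1, x2, e]) (by rw [x2]; exact u) (by omega) (by omega)⟩
    unfold Par
    rw [x1, x2]
    exact pc
  obtain ⟨r1, r2⟩ := side c0 a b0 l m n0 p0 e0 u0 y0 K0
  exact k4 (split hj h0 h1 hne k1 k2 r1 k3 r2 (side c1 _ b1 l m' n1 p1 e1 u1 y1 K1).2)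

/-- the excess holes of one side are moved across -/
theorem excess (hF : FarSt) (hL : LinkSt) {N t : ℕ} {π : ZMod 2} (ih : IH n N t π)
    {D : Finset (Fin n)} {b b0 b1 : V n} {T : Finset (V n)} {j : Fin n} (hj : j ∈ D)
    (h0 : b0 ∈ Sub D b) (h1 : b1 ∈ Sub D b) (hne : b0 j ≠ b1 j)
    (hD : 50 * N ^ 2 + 100 + 5 * N + t + 1 ≤ #D) (k : ℕ) :
    ∀ (H : Finset (V n)) (P : V n × Bool → V n × Bool) (c0 c1 : Cf n) (M : Finset (V n)),
      Inv (Po D b H T) P → SP (Po D b H T) P → Ok (D.erase j) b0 H T c0 →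
      Ok (D.erase j) b1 H T c1 → Par π c0 → Par π c1 → #c0.X = #c0.U + k → #c1.X + k = #c1.U →
      #c0.U ≤ t → #c1.U ≤ t → #c0.Y + k + (t + 1) ^ 2 + 4 ≤ N → #c1.Y + (t + 1) ^ 2 + 4 ≤ N →
      M ⊆ c0.X → k ≤ #M → (∀ x ∈ M, 2 * N ^ 2 + 8 * N + 6 + 8 * k ≤ #(gd D P x j)) →
      (∀ x ∈ c0.X, ∀ q ∈ c1.B ∪ c0.X, q ≠ x → 1 ≤ #(df (D.erase j \ c1.Sg) x q)) →
      Good adp (Po D b H T) P := by
  induction k with
  | zero =>
    intro H P c0 c1 M hP hS O0 O1 p0 p1 e0 e1 u0 u1 y0 y1 _ _ _ _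
    exact fin0 hF hL ih hj h0 h1 hne hP hS O0 O1 p0 p1 e0 e1 u0 u1 y0 y1 hD
  | succ k ik =>
    intro H P c0 c1 M hP hS O0 O1 p0 p1 e0 e1 u0 u1 y0 y1 hM hk hg cr
    have sq : (t + 1) ^ 2 = t ^ 2 + 2 * t + 1 := by ring
    obtain ⟨x, hx⟩ := card_pos.mp (by omega : 0 < #M)
    have b0' := card_B_le (c := c0)
    have b1' := card_B_le (c := c1)
    have g0 := hg x hx
    obtain ⟨x', l, m, H', P', K0, K1, n1, q1, q2, R⟩ := move (N := N) (F := ∅) hj h0 h1 hne hP hS
      O0 O1 (hM hx) (cr x (hM hx)) (by omega) (by omega) (empty_subset _)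
      (fun _ hh => absurd hh (notMem_empty _)) (by simp) (by omega) (by omega)
    have x1 : (c0.toSq x l m).X = c0.X.erase x := rfl
    have x2 : (c0.toSq x l m).U = c0.U := rfl
    have x3 : #(c0.toSq x l m).Y ≤ #c0.Y + 1 := card_insert_le _ _
    have x4 : (c1.addX x').X = insert x' c1.X := rfl
    have x5 : (c1.addX x').U = c1.U := rfl
    have x6 : (c1.addX x').Y = c1.Y := rfl
    have x7 : (c1.addX x').Sg = c1.Sg := rfl
    have x8 := card_erase_add_one (hM hx)
    have x9 := card_erase_add_one hx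
    have x10 : #(insert x' c1.X) = #c1.X + 1 :=
      card_insert_of_notMem fun hh => n1 (mem_B.mpr (Or.inl hh))
    refine R.2.2.2.2 (ik H' P' _ _ (M.erase x) R.1 R.2.1 K0 K1 (fun z hz => ?_) (fun z hz => ?_)
      (by rw [x1, x2]; omega) (by rw [x4, x5]; omega) (by rw [x2]; exact u0)
      (by rw [x5]; exact u1) (by omega) (by rw [x6]; exact y1)
      (by rw [x1]; exact erase_subset_erase x hM) (by omega) (fun z hz => ?_)
      (fun z hz q hq hqz => ?_))
    · rw [x1, x2, mem_union] at hz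
      exact p0 z (mem_union.mpr (hz.imp mem_of_mem_erase id))
    · rw [x4, x5, mem_union, mem_insert] at hz
      rcases hz with (rfl | hz) | hz
      · rw [q1]; exact p0 x (mem_union_left _ (hM hx))
      · exact p1 z (mem_union_left _ hz)
      · exact p1 z (mem_union_right _ hz)
    · have g1 := hg z (mem_of_mem_erase hz)
      have g2 := R.gd_le D z j
      omega
    · rw [x1] at hz
      obtain ⟨z1, z2⟩ := mem_erase.mp hz
      rw [x7]
      rw [mem_union, mem_B, x1, x4, x5, x6, mem_insert] at hq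
      rcases hq with ((rfl | hq) | hq | hq) | hq
      · exact q2 z z2 z1
      · exact cr z z2 q (mem_union_left _ (mem_B.mpr (Or.inl hq))) hqz
      · exact cr z z2 q (mem_union_left _ (mem_B.mpr (Or.inr (Or.inl hq)))) hqz
      · exact cr z z2 q (mem_union_left _ (mem_B.mpr (Or.inr (Or.inr hq)))) hqz
      · exact cr z z2 q (mem_union_right _ (mem_of_mem_erase hq)) hqz

theorem card_sides (S : Finset (V n)) (j : Fin n) {e e' : ZMod 2} (h : e ≠ e') :
    #(S.filter (· j = e)) + #(S.filter (· j = e')) = #S := by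
  have k := card_filter_add_card_filter_not (s := S) (· j = e)
  have : S.filter (fun z => ¬ z j = e) = S.filter (· j = e') :=
    filter_congr fun z _ => ⟨fun hh => z2_two h hh, fun hh c => h (c.symm.trans hh)⟩
  rwa [this] at k

/-- the step with the heavier side first -/
theorem stepT (hF : FarSt) (hL : LinkSt) {N t : ℕ} {π : ZMod 2} (ih : IH n N t π)
    {D : Finset (Fin n)} {b : V n} {H T : Finset (V n)} {c : Cf n} (O : Ok D b H T c)
    (pc : Par π c) (e : #c.X = #c.U) (hu : #c.U ≤ t + 1) (hy : #c.Y + (t + 1 + 1) ^ 2 + 3 ≤ N)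
    (hD : 50 * N ^ 2 + 100 + 5 * N + t + 1 ≤ #D) {P : V n × Bool → V n × Bool}
    (hP : Inv (Po D b H T) P) (hS : SP (Po D b H T) P) {j : Fin n} (hj : j ∈ D \ c.Sg)
    {u u' : V n} (m0 : u ∈ c.U) (m1 : u' ∈ c.U) (hne : u j ≠ u' j)
    (hb : #(c.X.filter fun x => x j = u j ∧ j ∈ bk D P x) ≤ #(c.U.filter fun z => z j = u j))
    (hh : #(c.U.filter (· j = u j)) ≤ #(c.X.filter (· j = u j))) : Good adp (Po D b H T) P := by
  obtain ⟨hjD, hjS⟩ := mem_sdiff.mp hj
  have h0 : u ∈ Sub D b := O.sub (mem_B.mpr (Or.inr (Or.inl m0)))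
  have h1 : u' ∈ Sub D b := O.sub (mem_B.mpr (Or.inr (Or.inl m1)))
  have s1 := card_sides c.X j hne
  have s2 := card_sides c.U j hne
  have s3 : 0 < #(c.U.filter (· j = u j)) := card_pos.mpr ⟨u, mem_filter.mpr ⟨m0, rfl⟩⟩
  have s4 : 0 < #(c.U.filter (· j = u' j)) := card_pos.mpr ⟨u', mem_filter.mpr ⟨m1, rfl⟩⟩
  have s5 : #(c.Y.filter (· j = u j)) ≤ #c.Y := card_filter_le _ _
  have s6 : #(c.Y.filter (· j = u' j)) ≤ #c.Y := card_filter_le _ _
  have sq : (t + 1 + 1) ^ 2 = (t + 1) ^ 2 + 2 * t + 3 := by ring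
  have s7 := card_filter_add_card_filter_not (s := c.X.filter (· j = u j)) (fun x => j ∈ bk D P x)
  rw [filter_filter] at s7
  have pr : ∀ e, Par π (c.res j e) := fun e z hz => by
    rcases mem_union.mp hz with hz | hz
    · exact pc z (mem_union_left _ (mem_filter.mp hz).1)
    · exact pc z (mem_union_right _ (mem_filter.mp hz).1)
  refine excess hF hL ih hjD h0 h1 hne hD
    (#(c.X.filter (· j = u j)) - #(c.U.filter (· j = u j))) H P (c.res j (u j)) (c.res j (u' j))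
    ((c.X.filter (· j = u j)).filter fun x => ¬ j ∈ bk D P x) hP hS (O.res hjD hjS h0)
    (O.res hjD hjS h1) (pr _) (pr _) ?_ ?_ ?_ ?_ ?_ ?_ (filter_subset _ _) (by omega)
    (fun x hx => ?_) (fun x hx q hq hqx => ?_)
  · show #(c.X.filter (· j = u j)) = #(c.U.filter (· j = u j)) + _
    omega
  · show #(c.X.filter (· j = u' j)) + _ = #(c.U.filter (· j = u' j))
    omega
  · show #(c.U.filter (· j = u j)) ≤ t
    omega
  · show #(c.U.filter (· j = u' j)) ≤ t
    omega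
  · show #(c.Y.filter (· j = u j)) + _ + _ + 4 ≤ N
    omega
  · show #(c.Y.filter (· j = u' j)) + _ + 4 ≤ N
    omega
  · have k1 := (mem_filter.mp hx).2
    simp only [bk, mem_filter, mem_univ, true_and, not_lt] at k1
    have k4 : N ≤ N ^ 2 := Nat.le_self_pow two_ne_zero N
    omega
  · have xB : x ∈ c.B := mem_B.mpr (Or.inl (mem_filter.mp hx).1)
    have qB : q ∈ c.B := by
      rcases mem_union.mp hq with hq | hq
      · exact (mem_res_B.mp hq).1
      · exact mem_B.mpr (Or.inl (mem_filter.mp hq).1)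
    have k1 := O.sep x xB q qB hqx.symm
    have k2 : (df (D \ c.Sg) x q).erase j ⊆ df (D.erase j \ (c.res j (u' j)).Sg) x q := by
      intro i hi
      obtain ⟨c1, c2⟩ := mem_erase.mp hi
      obtain ⟨c3, c4⟩ := mem_df.mp c2
      obtain ⟨c5, c6⟩ := mem_sdiff.mp c3
      exact mem_df.mpr ⟨mem_sdiff.mpr ⟨mem_erase.mpr ⟨c1, c5⟩, fun hh => c6 (res_Sg _ _ hh)⟩, c4⟩
    have k3 := card_le_card k2
    have k4 := pred_card_le_card_erase (s := df (D \ c.Sg) x q) (a := j)
    omega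

end TMx

open TMx in
theorem tm_st (hS : SQMSt) (h1 : T1St) (hF : FarSt) (hC : CntSt) (hL : LinkSt) : TMSt := by
  intro n N t D b H T c π
  suffices key : IH n N t π from key D b H T c
  have low : ∀ (t : ℕ) (D : Finset (Fin n)) (b : V n) (H T : Finset (V n)) (c : Cf n),
      Ok D b H T c → Par π c → #c.X = #c.U → #c.U ≤ 1 → #c.Y + (t + 1) ^ 2 + 3 ≤ N →
      50 * N ^ 2 + 100 + 5 * N + t ≤ #D → Rob (Po D b H T) := by
    intro t D b H T c O pc e u y hD
    by_cases z : #c.U = 0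
    · exact hS n N #c.Y D b H T c O (card_eq_zero.mp (e.trans z)) (card_eq_zero.mp z) le_rfl
        (by omega) (by omega)
    · exact h1 n N #c.Y D b H T c π O pc (by omega) (by omega) le_rfl (by omega) (by omega)
  induction t with
  | zero => exact fun D b H T c O pc e u y hD => low 0 D b H T c O pc e (by omega) y hD
  | succ t ih =>
    intro D b H T c O pc e u y hD
    by_cases z : #c.U ≤ 1
    · exact low _ D b H T c O pc e z y hD
    intro P hP hSP
    obtain ⟨j, hj, ⟨u0, m0, u1, m1, hne⟩, hb⟩ := hC n (D \ c.Sg) c.X c.U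
      (fun x j => j ∈ bk D P x) e.le (by omega)
      (fun p hp q hq => O.sep p (mem_B.mpr (Or.inr (Or.inl hp))) q
        (mem_B.mpr (Or.inr (Or.inl hq))))
      (fun x _ i _ j _ hi hj => card_le_one.mp (bk_le (D := D) (P := P) x) i hi j hj)
    have s1 := card_sides c.X j hne
    have s2 := card_sides c.U j hne
    by_cases hh : #(c.U.filter (· j = u0 j)) ≤ #(c.X.filter (· j = u0 j))
    · exact stepT hF hL ih O pc e u y hD hP hSP hj m0 m1 hne (hb _) hh
    · exact stepT hF hL ih O pc e u y hD hP hSP hj m1 m0 hne.symm (hb _) (by omega)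

end Pool.Agent.Lib.MP_88ff4d_co.NP
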