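import Pool.Agent.Lib.MP_88ff4d_co.NP.St

/-! From robust port systems to the Hamilton path through a nearly perfect matching. -/

set_option autoImplicit false

namespace Pool.Agent.Lib.MP_88ff4d_co.NP

open Finset

namespace Topx

variable {n : ℕ}

theorem two_le_df {p q : V n} (h : p ≠ q) (e : par p = par q) : 2 ≤ #(df univ p q) := by
  have h0 : #(df univ p q) = hammingDist p q := by
    rw [hammingDist, df]
  have h1 : hammingDist p q ≠ 0 := fun hh => h (hammingDist_eq_zero.mp hh)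
  have h2 : hammingDist p q ≠ 1 := fun hh => ((adj_iff p q).mpr hh).par_ne e
  omega

theorem par_eq {a b c : ZMod 2} (h : a ≠ b) (h' : c ≠ b) : c = a := by
  revert a b c; decide

theorem exists_w (k : ℕ) (hn : 2 * k + 1 ≤ n) (μ : V n → V n)
    (hk : #(univ.filter fun x => μ x = x) ≤ k) (u : V n) :
    ∃ w : V n → V n, (∀ s t, μ s = s → μ t = t → w s = w t → s = t) ∧
      ∀ t, μ t = t → adj t (w t) ∧ μ (w t) ≠ w t ∧ w t ≠ u := by
  set F := univ.filter fun x => μ x = x with hF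
  obtain ⟨w, h1, h2⟩ := hall_wrap F (fun t => (univ \ insert u F).filter (adj t)) (by
    intro X hX
    rcases X.eq_empty_or_nonempty with rfl | ⟨t, ht⟩
    · simp
    have a1 := dg_compl (insert u F) t
    have a2 := dg_le_card (insert u F) t
    have a3 := card_insert_le u F
    have a4 := card_le_card hX
    have a5 : dg (univ \ insert u F) t ≤
        #(X.biUnion fun t => (univ \ insert u F).filter (adj t)) :=
      card_le_card (subset_biUnion_of_mem (fun t => (univ \ insert u F).filter (adj t)) ht)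
    omega)
  refine ⟨w, fun s t hs ht e => h1 (by simpa [hF] using hs) (by simpa [hF] using ht) e,
    fun t ht => ?_⟩
  obtain ⟨a1, a2⟩ := mem_filter.mp (h2 t (by simpa [hF] using ht))
  have a3 := (mem_sdiff.mp a1).2
  rw [mem_insert, not_or] at a3
  exact ⟨a2, fun e => a3.2 (by simpa [hF] using e), a3.1⟩

/-- the prescribed part -/
theorem pre_ex (μ w : V n → V n) (hμ : ∀ x, μ (μ x) = x)
    (hadj : ∀ x, μ x ≠ x → adj x (μ x)) (u v : V n) (huv : par u ≠ par v) (hv : μ v = v)
    (w1 : ∀ s t, μ s = s → μ t = t → w s = w t → s = t)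
    (w2 : ∀ t, μ t = t → adj t (w t) ∧ μ (w t) ≠ w t ∧ w t ≠ u) :
    ∃ (S : Finset (V n × Bool)) (R : V n × Bool → V n × Bool), Inv S R ∧
      (∀ x, (x, true) ∉ S → μ x = x ∧ par x = par u) ∧
      (∀ x, (x, false) ∈ S → μ x ≠ x ∧ par x = par u) ∧
      (∀ x, μ x ≠ x → R (x, true) = (μ x, true)) ∧
      (u, decide (μ u = u)) ∈ S ∧ R (u, decide (μ u = u)) = (v, true) ∧
      (∀ p ∈ S, par p.1 ≠ par (R p).1) ∧
      ∀ p ∈ S, p ≠ (u, decide (μ u = u)) → p ≠ (v, true) → adj p.1 (R p).1 := by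
  let A : Finset (V n × Bool) := univ.filter fun p => p.2 = true ∧ par p.1 = par v
  have mA : ∀ p, p ∈ A ↔ p.2 = true ∧ par p.1 = par v := fun p => by simp [A]
  let f : V n × Bool → V n × Bool := fun p =>
    if μ p.1 ≠ p.1 then (μ p.1, true) else if p.1 = v then (u, decide (μ u = u)) else (w p.1, false)
  have f1 : ∀ p : V n × Bool, μ p.1 ≠ p.1 → f p = (μ p.1, true) := fun p h => if_pos h
  have f2 : ∀ p : V n × Bool, p.1 = v → f p = (u, decide (μ u = u)) := fun p h => by
    simp only [f]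
    rw [if_neg (by rw [h]; exact not_not.mpr hv), if_pos h]
  have f3 : ∀ p : V n × Bool, μ p.1 = p.1 → p.1 ≠ v → f p = (w p.1, false) := fun p h h' => by
    simp only [f]
    rw [if_neg (not_not.mpr h), if_neg h']
  have cs : ∀ p : V n × Bool, μ p.1 ≠ p.1 ∨ p.1 = v ∨ (μ p.1 = p.1 ∧ p.1 ≠ v) := fun p => by tauto
  have cov : ∀ x, μ x ≠ x → μ (μ x) ≠ μ x := fun x h e => h (by rw [← e, hμ])
  have fp : ∀ p ∈ A, par p.1 ≠ par (f p).1 := by
    intro p hp
    rcases cs p with h | h | h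
    · rw [f1 p h]; exact (hadj _ h).par_ne
    · rw [f2 p h, h]; exact huv.symm
    · rw [f3 p h.1 h.2]; exact (w2 _ h.1).1.par_ne
  have fu : ∀ p ∈ A, par (f p).1 = par u := fun p hp =>
    par_eq huv (by rw [← ((mA p).mp hp).2]; exact (fp p hp).symm)
  have finj : Set.InjOn f A := by
    intro p hp q hq e
    have hp2 := ((mA p).mp hp).1
    have hq2 := ((mA q).mp hq).1
    refine Prod.ext ?_ (hp2.trans hq2.symm)
    have x12 : ∀ a b : V n × Bool, μ a.1 ≠ a.1 → b.1 = v → f a ≠ f b := by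
      intro a b ha hb e
      rw [f1 a ha, f2 b hb] at e
      obtain ⟨e1, e2⟩ := Prod.mk.inj e
      exact cov _ ha (by rw [e1]; exact of_decide_eq_true e2.symm)
    have x13 : ∀ a b : V n × Bool, μ a.1 ≠ a.1 → μ b.1 = b.1 ∧ b.1 ≠ v → f a ≠ f b := by
      intro a b ha hb e
      rw [f1 a ha, f3 b hb.1 hb.2] at e
      exact Bool.noConfusion (Prod.mk.inj e).2
    have x23 : ∀ a b : V n × Bool, a.1 = v → μ b.1 = b.1 ∧ b.1 ≠ v → f a ≠ f b := by
      intro a b ha hb e
      rw [f2 a ha, f3 b hb.1 hb.2] at e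
      exact (w2 _ hb.1).2.2 (Prod.mk.inj e).1.symm
    rcases cs p with h | h | h <;> rcases cs q with h' | h' | h'
    · rw [f1 p h, f1 q h'] at e
      rw [← hμ p.1, (Prod.mk.inj e).1, hμ]
    · exact absurd e (x12 p q h h')
    · exact absurd e (x13 p q h h')
    · exact absurd e.symm (x12 q p h' h)
    · exact h.trans h'.symm
    · exact absurd e (x23 p q h h')
    · exact absurd e.symm (x13 q p h' h)
    · exact absurd e.symm (x23 q p h' h)
    · rw [f3 p h.1 h.2, f3 q h'.1 h'.2] at e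
      exact w1 _ _ h.1 h'.1 (Prod.mk.inj e).1
  obtain ⟨R, r1, r2, r3⟩ := exists_inv_of_injOn A f finj fun p hp h =>
    huv ((fu p hp).symm.trans ((mA _).mp h).2)
  have hvA : (v, true) ∈ A := (mA _).mpr ⟨rfl, rfl⟩
  have hcv : ∀ x, μ x ≠ x → par x ≠ par v → (μ x, true) ∈ A ∧ f (μ x, true) = (x, true) := by
    intro x h h'
    refine ⟨(mA _).mpr ⟨rfl, ?_⟩, ?_⟩
    · exact par_eq h'.symm (hadj x h).par_ne.symm
    · rw [f1 _ (cov x h), hμ]
  refine ⟨_, R, r1, fun x hx => ?_, fun x hx => ?_, fun x hx => ?_, ?_, ?_, fun p hp => ?_,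
    fun p hp h1 h2 => ?_⟩
  · rw [mem_union, not_or] at hx
    have a1 : par x ≠ par v := fun e => hx.1 ((mA _).mpr ⟨rfl, e⟩)
    refine ⟨?_, par_eq huv a1⟩
    by_contra h
    exact hx.2 (mem_image.mpr ⟨_, hcv x h a1⟩)
  · rcases mem_union.mp hx with h | h
    · exact Bool.noConfusion ((mA _).mp h).1
    · obtain ⟨p, hp, e⟩ := mem_image.mp h
      refine ⟨?_, by have := fu p hp; rwa [e] at this⟩
      rcases cs p with c | c | c
      · rw [f1 p c] at e
        exact Bool.noConfusion (Prod.mk.inj e).2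
      · rw [f2 p c] at e
        obtain ⟨e1, e2⟩ := Prod.mk.inj e
        rw [← e1]
        exact of_decide_eq_false e2
      · rw [f3 p c.1 c.2] at e
        rw [← (Prod.mk.inj e).1]
        exact (w2 _ c.1).2.1
  · by_cases e : par x = par v
    · rw [r2 _ ((mA (x, true)).mpr ⟨rfl, e⟩), f1 _ hx]
    · rw [← (hcv x hx e).2, r3 _ (hcv x hx e).1]
  · exact mem_union_right _ (mem_image.mpr ⟨_, hvA, f2 _ rfl⟩)
  · rw [← f2 (v, true) rfl, r3 _ hvA]
  · rcases mem_union.mp hp with h | h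
    · rw [r2 p h]; exact fp p h
    · obtain ⟨q, hq, rfl⟩ := mem_image.mp h
      rw [r3 q hq]; exact (fp q hq).symm
  · have fa : ∀ q ∈ A, q.1 ≠ v → adj q.1 (f q).1 := by
      intro q hq hqv
      rcases cs q with c | c | c
      · rw [f1 q c]; exact hadj _ c
      · exact absurd c hqv
      · rw [f3 q c.1 c.2]; exact (w2 _ c.1).1
    rcases mem_union.mp hp with h | h
    · rw [r2 p h]
      exact fa p h fun e => h2 (Prod.ext e ((mA p).mp h).1)
    · obtain ⟨q, hq, rfl⟩ := mem_image.mp h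
      rw [r3 q hq]
      exact (fa q hq fun e => h1 (f2 q e)).symm

theorem sum_sg (hn : 0 < n) : ∑ x : V n, sg x = 0 :=
  (inv_fl (S := univ) (i := ⟨0, hn⟩) fun _ _ => mem_univ _).sum_eq_zero sg
    fun _ _ => (adj_fl _ _).sg

theorem conj (σ R : V n × Bool → V n × Bool) (h1 : ∀ p, σ (σ p) = p)
    (h2 : ∀ p, σ (sw p) = sw (σ p)) (hR : Inv univ R) (hC : Conn univ sw R) :
    Inv univ (fun p => σ (R (σ p))) ∧ Conn univ sw (fun p => σ (R (σ p))) := by
  refine ⟨fun p _ => ⟨mem_univ _, fun e => (hR (σ p) (mem_univ _)).2.1 ?_, ?_⟩, ?_⟩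
  · rw [← h1 (R (σ p))]
    exact congrArg σ e
  · simp only [h1, (hR (σ p) (mem_univ _)).2.2]
  · rintro A - ⟨p, hp⟩ c1 c2
    have := hC (univ.filter fun q => σ q ∈ A) (subset_univ _)
      ⟨σ p, mem_filter.mpr ⟨mem_univ _, by rw [h1]; exact hp⟩⟩
      (fun q hq => mem_filter.mpr ⟨mem_univ _, by rw [h2]; exact c1 _ (mem_filter.mp hq).2⟩)
      (fun q hq => mem_filter.mpr ⟨mem_univ _, by
        have := c2 _ (mem_filter.mp hq).2
        simpa only [h1] using this⟩)
    refine eq_univ_of_forall fun q => ?_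
    have a := (mem_filter.mp (this.symm ▸ mem_univ (σ q))).2
    rwa [h1] at a

end Topx

open Topx in
theorem top_st (h : TMSt) : TopSt := by
  intro n k hn μ hμ hadj hk u v huv hv G hG
  have hk1 : k + 1 ≤ (k + 1) ^ 4 := Nat.le_self_pow (by norm_num) _
  have n0 : 0 < n := by omega
  obtain ⟨w, w1, w2⟩ := exists_w k (by omega) μ hk u
  obtain ⟨S, R, r1, r2, r3, r4, r5, r6, r7, r8⟩ := pre_ex μ w hμ hadj u v huv hv w1 w2
  set H := univ.filter fun x : V n => (x, false) ∈ S with hH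
  set T := univ.filter fun x : V n => (x, true) ∉ S with hT
  have mH : ∀ x, x ∈ H ↔ (x, false) ∈ S := fun x => by simp [hH]
  have mT : ∀ x, x ∈ T ↔ (x, true) ∉ S := fun x => by simp [hT]
  have mS : ∀ x : V n, x ∈ Sub univ (0 : V n) := fun x => mem_Sub.mpr fun i hi => absurd (mem_univ i) hi
  have ePo : univ \ S = Po univ 0 H T := by
    ext ⟨x, b⟩
    cases b <;> simp [Po, mH, mT, mS]
  have hcard : #H = #T := by
    have e1 := r1.sum_eq_zero (fun p => sg p.1) fun p hp => sg_of_ne (r7 p hp)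
    have e2 : ∑ p ∈ S, sg p.1 = ∑ x ∈ univ.filter (fun x : V n => (x, true) ∈ S), sg x +
        ∑ x ∈ H, sg x := by
      have a : ∑ p ∈ S, sg p.1 = ∑ p : V n × Bool, if p ∈ S then sg p.1 else 0 := by
        rw [sum_ite_mem, univ_inter]
      rw [a, Fintype.sum_prod_type, hH, sum_filter, sum_filter, ← sum_add_distrib]
      exact sum_congr rfl fun x _ => Fintype.sum_bool _
    have e3 := sum_filter_add_sum_filter_not univ (fun x : V n => (x, true) ∈ S) sg
    rw [sum_sg n0] at e3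
    have e4 : ∑ x ∈ H, sg x = #H * sg u := by
      rw [sum_congr rfl (g := fun _ => sg u) fun x hx => by
        unfold sg; rw [(r3 x ((mH x).mp hx)).2], sum_const, nsmul_eq_mul]
    have e5 : ∑ x ∈ T, sg x = #T * sg u := by
      rw [sum_congr rfl (g := fun _ => sg u) fun x hx => by
        unfold sg; rw [(r2 x ((mT x).mp hx)).2], sum_const, nsmul_eq_mul]
    have e6 : sg u ≠ 0 := by unfold sg; split_ifs <;> norm_num
    have e7 : (#H : ℤ) * sg u = #T * sg u := by
      rw [← e4, ← e5]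
      have : ∑ x ∈ univ.filter (fun x : V n => ¬ (x, true) ∈ S), sg x = ∑ x ∈ T, sg x := rfl
      linarith
    exact_mod_cast mul_right_cancel₀ e6 e7
  have hdis : Disjoint H T := disjoint_left.mpr fun x h1 h2 =>
    (r3 x ((mH x).mp h1)).1 (r2 x ((mT x).mp h2)).1
  let c : Cf n := ⟨H, T, ∅, fun _ => ⟨0, n0⟩, fun _ => ⟨0, n0⟩⟩
  have hpar : Par (par u) c := by
    intro x hx
    rcases mem_union.mp hx with h1 | h1
    · exact (r3 x ((mH x).mp h1)).2
    · exact (r2 x ((mT x).mp h1)).2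
  have hok : Ok univ 0 H T c := by
    refine ⟨fun x _ => mS x, fun z _ => by simp [c], fun z _ => Iff.rfl, subset_univ _,
      fun y hy => absurd hy (notMem_empty y), hdis, disjoint_empty_right _,
      disjoint_empty_right _, fun p hp q hq hpq => ?_⟩
    have e : univ \ c.Sg = univ := by simp [Cf.Sg, c]
    have eB : c.B = c.X ∪ c.U := by simp [Cf.B, c]
    rw [eB] at hp hq
    rw [e]
    exact two_le_df hpq ((hpar p hp).trans (hpar q hq).symm)
  have hTk : #T ≤ k := le_trans (card_le_card fun x hx =>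
    mem_filter.mpr ⟨mem_univ _, (r2 x ((mT x).mp hx)).1⟩) hk
  have hrob := h n ((k + 1) ^ 2 + 3) k univ 0 H T c (par u) hok hpar hcard hTk (by simp [c]) (by
    rw [card_univ, Fintype.card_fin]
    have a1 : k + 1 ≤ (k + 1) ^ 2 := Nat.le_self_pow (by norm_num) _
    have a2 : (k + 1) ^ 4 = (k + 1) ^ 2 * (k + 1) ^ 2 := by ring
    rw [a2] at hn
    generalize (k + 1) ^ 2 = a at *
    nlinarith)
  obtain ⟨P', p1, p2, p3⟩ := contract inv_sw (subset_univ S) r1 (by
    intro A hA c1 c2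
    rw [eq_empty_iff_forall_notMem]
    intro p hp
    obtain ⟨a1, a2⟩ := r3 p.1 (hA (mem_false c1 hp false))
    have a3 := c2 _ (mem_false c1 hp true)
    rw [r4 _ a1] at a3
    have a4 := (r3 _ (hA (mem_false c1 a3 false))).2
    exact (hadj _ a1).par_ne (a2.trans a4.symm))
  obtain ⟨R', q1, q2, q3⟩ := hrob P' (ePo ▸ p1) (by
    intro x hx
    rw [← ePo] at hx
    have a1 := (mem_sdiff.mp hx).2
    have a2 : (x, false) ∉ S := fun e => (r3 x e).1 (r2 x a1).1
    have a3 := p2 (univ.filter fun q => q.1 = x) (subset_univ _)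
      (fun q hq => mem_filter.mpr ⟨mem_univ _, (mem_filter.mp hq).2⟩)
      (fun q hq hS => by
        obtain ⟨y, b⟩ := q
        obtain rfl : y = x := (mem_filter.mp hq).2
        cases b
        · exact absurd hS a2
        · exact absurd hS a1) (x, true) (mem_filter.mpr ⟨mem_univ _, rfl⟩) a1
    exact eq_sw (p := (x, true)) (mem_filter.mp a3).2 (p1 _ hx).2.1)
  rw [← ePo] at q1 q2 q3
  obtain ⟨g1, g2⟩ := p3 R' q1 q3
  set Q : V n × Bool → V n × Bool := fun p => if p ∈ S then R p else R' p with hQ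
  have hne : u ≠ v := fun e => huv (by rw [e])
  let σ : V n × Bool → V n × Bool := fun p => if p.1 = v ∨ (p.1 = u ∧ μ u = u) then sw p else p
  have s0 : ∀ p, (σ p).1 = p.1 := fun p => by
    simp only [σ]
    split_ifs <;> rfl
  have s1 : ∀ p, σ (σ p) = p := fun p => by
    by_cases e : p.1 = v ∨ (p.1 = u ∧ μ u = u)
    · have a : σ p = sw p := if_pos e
      rw [a]
      exact (if_pos e).trans (sw_sw p)
    · have a : σ p = p := if_neg e
      rw [a, a]
  have s2 : ∀ p, σ (sw p) = sw (σ p) := fun p => by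
    by_cases e : p.1 = v ∨ (p.1 = u ∧ μ u = u)
    · have a : σ p = sw p := if_pos e
      rw [a]
      exact if_pos e
    · have a : σ p = p := if_neg e
      rw [a]
      exact if_neg e
  have s3 : σ (u, false) = (u, decide (μ u = u)) := by
    by_cases e : μ u = u <;> simp [σ, sw, e, hne]
  have s4 : σ (v, false) = (v, true) := by simp [σ, sw]
  have s5 : ∀ x, μ x ≠ x → σ (x, true) = (x, true) := fun x hx =>
    if_neg (by
      rintro (e | ⟨e, e'⟩)
      · exact hx (by rw [show x = v from e]; exact hv)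
      · exact hx (by rw [show x = u from e]; exact e'))
  obtain ⟨k1, k2⟩ := conj σ Q s1 s2 g1 g2
  obtain ⟨W, W1, W2⟩ := path_of_ports G _ k1 k2 u v (by
    simp only [s3, hQ, if_pos r5, r6]
    rw [← s4, s1]) (by
    intro p h1 h2
    refine hG _ _ ?_
    rw [s0, ← s0 p]
    by_cases e : σ p ∈ S
    · simp only [hQ, if_pos e]
      exact r8 _ e (fun e' => h1 (by rw [← s1 p, e', ← s3, s1]))
        fun e' => h2 (by rw [← s1 p, e', ← s4, s1])
    · simp only [hQ, if_neg e]
      exact q2 _ (mem_sdiff.mpr ⟨mem_univ _, e⟩))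
  refine ⟨W, W1, fun x hx => W2 x (μ x) ?_⟩
  have a1 : (x, true) ∈ S := by
    by_contra e
    exact hx (r2 x e).1
  simp only [s5 x hx, hQ, if_pos a1, r4 x hx]
  exact s5 _ fun e => hx (by rw [← e, hμ])

end Pool.Agent.Lib.MP_88ff4d_co.NP
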