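import Pool.Agent.Lib.MP_88ff4d_co.NP.SQM
import Pool.Agent.Lib.MP_88ff4d_co.NP.Top
import Pool.Agent.Lib.MP_88ff4d_co.NP.SQ5g
import Pool.Agent.Lib.MP_88ff4d_co.NP.SQ
import Pool.Agent.Lib.MP_88ff4d_co.NP.Far
import Pool.Agent.Lib.MP_88ff4d_co.NP.Cnt
import Pool.Agent.Lib.MP_88ff4d_co.NP.CL
import Pool.Agent.Lib.MP_88ff4d_co.NP.TM
import Pool.Agent.Lib.MP_88ff4d_co.NP.T1

/-! Nearly perfect matchings: assembly. -/

set_option autoImplicit false

namespace Pool.Agent.Lib.MP_88ff4d_co.NP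

open Finset

theorem top_of (h5 : SQ5St) : TopSt :=
  have sq := sq_st (sq5g_st h5)
  have sqm := sqm_st sq far_st link_st
  top_st (tm_st sqm (t1_st sqm (cl_st sq) far_st link_st) far_st cnt_st link_st)

theorem near_one (h5 : SQ5St) (n k : ℕ) (hn : 2000 * (k + 3) ^ 4 ≤ n)
    (G : SimpleGraph (Fin n → ZMod 2)) (hG : ∀ x y, G.Adj x y ↔ hammingDist x y = 1)
    (M N : G.Subgraph) (hN : N.IsMatching) (hMN : M ≤ N) (hk : N.vertsᶜ.ncard ≤ k)
    (u v : Fin n → ZMod 2) (huv : ∑ i, u i ≠ ∑ i, v i) (hv : ∀ w, ¬ M.Adj v w) :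
    ∃ p : G.Walk u v, p.IsHamiltonian ∧ ∀ e ∈ M.edgeSet, e ∈ p.edges := by
  classical
  let ν : V n → V n := fun x => if h : x ∈ N.verts then (hN h).exists.choose else x
  have n1 : ∀ x ∈ N.verts, N.Adj x (ν x) := by
    intro x h
    simp only [ν, dif_pos h]
    exact (hN h).exists.choose_spec
  have n0 : ∀ x ∉ N.verts, ν x = x := fun x h => dif_neg h
  have n2 : ∀ x y, N.Adj x y → ν x = y := fun x y hxy =>
    (hN (N.edge_vert hxy)).unique (n1 x (N.edge_vert hxy)) hxy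
  have n3 : ∀ x, ν (ν x) = x := by
    intro x
    by_cases h : x ∈ N.verts
    · exact n2 _ _ (n1 x h).symm
    · rw [n0 x h, n0 x h]
  let μ : V n → V n := fun x => if x = v ∨ x = ν v then x else ν x
  have m0 : ∀ x, (x = v ∨ x = ν v) → μ x = x := fun x h => if_pos h
  have m1 : ∀ x, ¬ (x = v ∨ x = ν v) → μ x = ν x := fun x h => if_neg h
  have m3 : ∀ x, μ (μ x) = x := by
    intro x
    by_cases h : x = v ∨ x = ν v
    · rw [m0 x h, m0 x h]
    · rw [m1 x h, m1, n3]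
      rintro (e | e)
      · exact h (Or.inr (by rw [← e, n3]))
      · exact h (Or.inl (by rw [← n3 x, e, n3]))
  obtain ⟨w, w1, w2⟩ := top_of h5 n (k + 2) hn μ m3 (fun x hx => by
      have h : ¬ (x = v ∨ x = ν v) := fun h => hx (m0 x h)
      rw [m1 x h] at hx ⊢
      have h' : x ∈ N.verts := by_contra fun h' => hx (n0 x h')
      exact (adj_iff _ _).mpr ((hG _ _).mp (n1 x h').adj_sub)) (by
      rw [Set.ncard_eq_toFinset_card'] at hk
      refine le_trans (card_le_card (t := N.vertsᶜ.toFinset ∪ {v, ν v}) fun x hx => ?_)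
        ((card_union_le _ _).trans (Nat.add_le_add hk card_le_two))
      by_cases h : x = v ∨ x = ν v
      · exact mem_union_right _ (by simpa using h)
      · refine mem_union_left _ (Set.mem_toFinset.mpr fun h' => (n1 x h').ne ?_)
        rw [← m1 x h, (mem_filter.mp hx).2]) u v huv (m0 v (Or.inl rfl)) G
    fun x y h => (hG _ _).mpr ((adj_iff _ _).mp h)
  refine ⟨w, w1, fun e he => ?_⟩
  induction e using Sym2.ind with
  | _ y z =>
    have k := n2 y z (hMN.2 he)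
    have h : ¬ (y = v ∨ y = ν v) := by
      rintro (e | e)
      · exact hv z (e ▸ he)
      · exact hv y (by rw [← n3 v, ← e, k]; exact SimpleGraph.Subgraph.Adj.symm he)
    have k' : μ y = z := (m1 y h).trans k
    exact k' ▸ w2 y (k' ▸ (SimpleGraph.Subgraph.Adj.ne he).symm)

theorem near_of (h5 : SQ5St) (n k : ℕ) (hn : 2000 * (k + 3) ^ 4 ≤ n)
    (G : SimpleGraph (Fin n → ZMod 2)) (hG : ∀ x y, G.Adj x y ↔ hammingDist x y = 1)
    (M N : G.Subgraph) (hN : N.IsMatching) (hMN : M ≤ N) (hk : N.vertsᶜ.ncard ≤ k)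
    (u v : Fin n → ZMod 2) (huv : ∑ i, u i ≠ ∑ i, v i)
    (h : (∀ w, ¬ M.Adj u w) ∨ ∀ w, ¬ M.Adj v w) :
    ∃ p : G.Walk u v, p.IsHamiltonian ∧ ∀ e ∈ M.edgeSet, e ∈ p.edges := by
  rcases h with h | h
  · obtain ⟨p, p1, p2⟩ := near_one h5 n k hn G hG M N hN hMN hk v u huv.symm h
    exact ⟨p.reverse, fun x => by simpa using p1 x, fun e he => by simpa using p2 e he⟩
  · exact near_one h5 n k hn G hG M N hN hMN hk u v huv h

end Pool.Agent.Lib.MP_88ff4d_co.NP
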