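import Pool.Agent.Lib.MP_88ff4d_co.NP.Core

/-! Nearly perfect matchings: bookkeeping of holes, targets and squares. -/

set_option autoImplicit false

namespace Pool.Agent.Lib.MP_88ff4d_co.NP

open Finset

variable {n : ℕ} {D : Finset (Fin n)} {b : V n} {H T : Finset (V n)} {c : Cf n}

theorem mem_B {z : V n} : z ∈ c.B ↔ z ∈ c.X ∨ z ∈ c.U ∨ z ∈ c.Y := by simp [Cf.B]

theorem mem_Sg {i : Fin n} : i ∈ c.Sg ↔ ∃ y ∈ c.Y, i = c.l y ∨ i = c.m y := by
  simp only [Cf.Sg, mem_union, mem_image]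
  constructor
  · rintro (⟨y, h, rfl⟩ | ⟨y, h, rfl⟩)
    · exact ⟨y, h, Or.inl rfl⟩
    · exact ⟨y, h, Or.inr rfl⟩
  · rintro ⟨y, h, rfl | rfl⟩
    · exact Or.inl ⟨y, h, rfl⟩
    · exact Or.inr ⟨y, h, rfl⟩

theorem mem_df {A : Finset (Fin n)} {p q : V n} {i : Fin n} : i ∈ df A p q ↔ i ∈ A ∧ p i ≠ q i :=
  mem_filter

theorem df_mono {A A' : Finset (Fin n)} (h : A ⊆ A') (p q : V n) : #(df A p q) ≤ #(df A' p q) :=
  card_le_card (filter_subset_filter _ h)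

theorem df_comm (A : Finset (Fin n)) (p q : V n) : df A p q = df A q p := by
  ext i; simp [mem_df, ne_comm]

theorem df_congr {A : Finset (Fin n)} {p p' : V n} (h : ∀ i ∈ A, p i = p' i) (q : V n) :
    df A p q = df A p' q := by
  ext i
  simp only [mem_df]
  exact and_congr_right fun hi => by rw [h i hi]

theorem card_Sg_le : #c.Sg ≤ 2 * #c.Y := by
  have h1 := card_union_le (c.Y.image c.l) (c.Y.image c.m)
  have h2 := card_image_le (s := c.Y) (f := c.l)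
  have h3 := card_image_le (s := c.Y) (f := c.m)
  unfold Cf.Sg
  omega

theorem card_B_le : #c.B ≤ #c.X + #c.U + #c.Y := by
  have h1 := card_union_le (c.X ∪ c.U) c.Y
  have h2 := card_union_le c.X c.U
  unfold Cf.B
  omega

theorem sq_agree {y z : V n} (hy : y ∈ c.Y) (hz : z ∈ Sub {c.l y, c.m y} y) {i : Fin n}
    (hi : i ∉ c.Sg) : z i = y i :=
  mem_Sub.mp hz i (by
    simp only [mem_insert, mem_singleton, not_or]
    exact ⟨fun h => hi (mem_Sg.mpr ⟨y, hy, Or.inl h⟩), fun h => hi (mem_Sg.mpr ⟨y, hy, Or.inr h⟩)⟩)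

theorem res_Sg (j : Fin n) (e : ZMod 2) : (c.res j e).Sg ⊆ c.Sg := by
  intro i hi
  obtain ⟨y, h1, h2⟩ := mem_Sg.mp hi
  exact mem_Sg.mpr ⟨y, (mem_filter.mp h1).1, h2⟩

theorem mem_res_B {j : Fin n} {e : ZMod 2} {z : V n} : z ∈ (c.res j e).B ↔ z ∈ c.B ∧ z j = e := by
  simp only [mem_B, Cf.res, mem_filter]
  tauto

theorem Ok.res (h : Ok D b H T c) {j : Fin n} (hj : j ∈ D) (hj' : j ∉ c.Sg) {b0 : V n}
    (h0 : b0 ∈ Sub D b) : Ok (D.erase j) b0 H T (c.res j (b0 j)) where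
  sub z hz := by
    obtain ⟨k1, k2⟩ := mem_res_B.mp hz
    exact (mem_Sub_erase h0 hj).mpr ⟨h.sub k1, k2⟩
  hH z hz := by
    obtain ⟨k1, k2⟩ := (mem_Sub_erase h0 hj).mp hz
    rw [h.hH z k1]
    simp only [Cf.res, mem_filter]
    constructor
    · rintro (k | ⟨y, c1, c2⟩)
      · exact Or.inl ⟨k, k2⟩
      · exact Or.inr ⟨y, ⟨c1, (sq_agree c1 c2 hj').symm.trans k2⟩, c2⟩
    · rintro (k | ⟨y, c1, c2⟩)
      · exact Or.inl k.1
      · exact Or.inr ⟨y, c1.1, c2⟩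
  hT z hz := by
    obtain ⟨k1, k2⟩ := (mem_Sub_erase h0 hj).mp hz
    rw [h.hT z k1]
    simp [Cf.res, k2]
  sg i hi := mem_erase.mpr ⟨fun e => hj' (e ▸ res_Sg _ _ hi), h.sg (res_Sg _ _ hi)⟩
  lm y hy y' hy' := h.lm y (mem_filter.mp hy).1 y' (mem_filter.mp hy').1
  dXU := h.dXU.mono (filter_subset _ _) (filter_subset _ _)
  dXY := h.dXY.mono (filter_subset _ _) (filter_subset _ _)
  dUY := h.dUY.mono (filter_subset _ _) (filter_subset _ _)
  sep p hp q hq hne := by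
    obtain ⟨k1, k2⟩ := mem_res_B.mp hp
    obtain ⟨k3, k4⟩ := mem_res_B.mp hq
    refine (h.sep p k1 q k3 hne).trans (card_le_card fun i hi => ?_)
    obtain ⟨c1, c2⟩ := mem_df.mp hi
    obtain ⟨c3, c4⟩ := mem_sdiff.mp c1
    exact mem_df.mpr ⟨mem_sdiff.mpr ⟨mem_erase.mpr ⟨fun e => c2 (by rw [e, k2, k4]), c3⟩,
      fun hh => c4 (res_Sg _ _ hh)⟩, c2⟩

/-- a small set of directions keeps all objects apart -/
theorem Ok.prot (h : Ok D b H T c) : ∃ Z ⊆ D \ c.Sg, #Z ≤ 2 * #c.B ^ 2 ∧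
    ∀ p ∈ c.B, ∀ q ∈ c.B, p ≠ q → 2 ≤ #(df Z p q) := by
  have k : ∀ w : V n × V n, ∃ s : Finset (Fin n), #s ≤ 2 ∧ s ⊆ D \ c.Sg ∧
      (w.1 ∈ c.B → w.2 ∈ c.B → w.1 ≠ w.2 → 2 ≤ #(df s w.1 w.2)) := by
    intro w
    by_cases hw : w.1 ∈ c.B ∧ w.2 ∈ c.B ∧ w.1 ≠ w.2
    · obtain ⟨s, c1, c2⟩ := exists_subset_card_eq (h.sep _ hw.1 _ hw.2.1 hw.2.2)
      refine ⟨s, c2.le, c1.trans (filter_subset _ _), fun _ _ _ => c2.ge.trans (card_le_card ?_)⟩
      exact fun i hi => mem_df.mpr ⟨hi, (mem_df.mp (c1 hi)).2⟩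
    · exact ⟨∅, by simp, by simp, fun c1 c2 c3 => absurd ⟨c1, c2, c3⟩ hw⟩
  choose s h1 h2 h3 using k
  refine ⟨(c.B ×ˢ c.B).biUnion s, biUnion_subset.mpr fun w _ => h2 w, ?_, fun p hp q hq hne => ?_⟩
  · refine (card_biUnion_le_card_mul _ _ 2 fun w _ => h1 w).trans ?_
    rw [card_product]
    nlinarith
  · exact (h3 (p, q) hp hq hne).trans
      (df_mono (subset_biUnion_of_mem s (x := (p, q)) (mem_product.mpr ⟨hp, hq⟩)) p q)

/-- a point that differs from every base point outside the square directions is ordinary -/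
theorem Ok.normal (h : Ok D b H T c) {z : V n} (hz : z ∈ Sub D b)
    (hs : ∀ q ∈ c.B, q ≠ z → ∃ i ∉ c.Sg, z i ≠ q i) (hB : z ∉ c.B) : z ∉ H ∧ z ∉ T := by
  refine ⟨fun hh => ?_, fun hh => hB (mem_B.mpr (Or.inr (Or.inl ((h.hT z hz).mp hh))))⟩
  rcases (h.hH z hz).mp hh with k | ⟨y, k1, k2⟩
  · exact hB (mem_B.mpr (Or.inl k))
  · have k3 : y ∈ c.B := mem_B.mpr (Or.inr (Or.inr k1))
    obtain ⟨i, c1, c2⟩ := hs y k3 (fun e => hB (e ▸ k3))
    exact c2 (sq_agree k1 k2 c1)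

theorem Ok.normal2 (h : Ok D b H T c) {z : V n} (hz : z ∈ Sub D b)
    (hs : ∀ q ∈ c.B, 1 ≤ #(df (D \ c.Sg) z q)) : z ∉ c.B ∧ z ∉ H ∧ z ∉ T := by
  have hB : z ∉ c.B := fun hh => by simpa [df] using hs z hh
  refine ⟨hB, h.normal hz (fun q hq _ => ?_) hB⟩
  obtain ⟨i, hi⟩ := card_pos.mp (hs q hq)
  exact ⟨i, (mem_sdiff.mp (mem_df.mp hi).1).2, (mem_df.mp hi).2⟩

/-- points near a hole, off the protected directions, are ordinary -/
theorem Ok.near (h : Ok D b H T c) {Z : Finset (Fin n)} (hZ : Z ⊆ D \ c.Sg)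
    (hs : ∀ p ∈ c.B, ∀ q ∈ c.B, p ≠ q → 2 ≤ #(df Z p q)) {x z : V n} (hx : x ∈ c.X)
    (hz : z ∈ Sub D b) (hne : z ≠ x) (ha : ∀ i ∈ Z, z i = x i) : z ∉ H ∧ z ∉ T := by
  have hxB : x ∈ c.B := mem_B.mpr (Or.inl hx)
  have k : ∀ q ∈ c.B, q ≠ x → ∃ i ∉ c.Sg, z i ≠ q i := by
    intro q hq c1
    obtain ⟨i, hi⟩ := card_pos.mp (lt_of_lt_of_le two_pos (hs x hxB q hq c1.symm))
    obtain ⟨c2, c3⟩ := mem_df.mp hi
    exact ⟨i, (mem_sdiff.mp (hZ c2)).2, by rwa [ha i c2]⟩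
  have hB : z ∉ c.B := fun hh => by
    obtain ⟨i, -, c2⟩ := k z hh hne
    exact c2 rfl
  refine ⟨fun hh => ?_, fun hh => hB (mem_B.mpr (Or.inr (Or.inl ((h.hT z hz).mp hh))))⟩
  rcases (h.hH z hz).mp hh with c1 | ⟨y, k1, k2⟩
  · exact hB (mem_B.mpr (Or.inl c1))
  · obtain ⟨i, c1, c2⟩ := k y (mem_B.mpr (Or.inr (Or.inr k1)))
      (fun e => disjoint_left.mp h.dXY hx (e ▸ k1))
    exact c2 (sq_agree k1 k2 c1)

/-- one more point hole -/
def Cf.addX (c : Cf n) (x : V n) : Cf n := ⟨insert x c.X, c.U, c.Y, c.l, c.m⟩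

theorem Ok.addX (h : Ok D b H T c) {x : V n} (hx : x ∈ Sub D b)
    (hs : ∀ q ∈ c.B, 2 ≤ #(df (D \ c.Sg) x q)) {H' : Finset (V n)}
    (hH : ∀ z ∈ Sub D b, z ∈ H' ↔ z = x ∨ z ∈ H) : Ok D b H' T (c.addX x) := by
  have hB : x ∉ c.B := (h.normal2 hx fun q hq => one_le_two.trans (hs q hq)).1
  have mB : ∀ z, z ∈ (c.addX x).B ↔ z = x ∨ z ∈ c.B := fun z => by
    simp only [mem_B, Cf.addX, mem_insert]; tauto
  exact {
    sub := fun z hz => ((mB z).mp hz).elim (fun e => e ▸ hx) fun k => h.sub k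
    hH := fun z hz => by
      rw [hH z hz, h.hH z hz]
      simp only [Cf.addX, mem_insert]
      tauto
    hT := h.hT
    sg := h.sg
    lm := h.lm
    dXU := disjoint_insert_left.mpr ⟨fun k => hB (mem_B.mpr (Or.inr (Or.inl k))), h.dXU⟩
    dXY := disjoint_insert_left.mpr ⟨fun k => hB (mem_B.mpr (Or.inr (Or.inr k))), h.dXY⟩
    dUY := h.dUY
    sep := fun p hp q hq hne => by
      rcases (mB p).mp hp with rfl | k1 <;> rcases (mB q).mp hq with rfl | k2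
      · exact absurd rfl hne
      · exact hs q k2
      · rw [df_comm]; exact hs p k1
      · exact h.sep p k1 q k2 hne }

/-- a point hole becomes the corner of a square -/
def Cf.toSq (c : Cf n) (x : V n) (l m : Fin n) : Cf n :=
  ⟨c.X.erase x, c.U, insert x c.Y, Function.update c.l x l, Function.update c.m x m⟩

theorem toSq_Sg {x : V n} (hx : x ∉ c.Y) (l m : Fin n) :
    (c.toSq x l m).Sg = insert l (insert m c.Sg) := by
  ext i
  simp only [mem_insert, mem_Sg, Cf.toSq]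
  constructor
  · rintro ⟨y, rfl | hy, k⟩
    · simp only [Function.update_self] at k
      tauto
    · have : y ≠ x := fun e => hx (e ▸ hy)
      simp only [Function.update_of_ne this] at k
      exact Or.inr (Or.inr ⟨y, hy, k⟩)
  · rintro (rfl | rfl | ⟨y, hy, k⟩)
    · exact ⟨x, Or.inl rfl, Or.inl (by simp)⟩
    · exact ⟨x, Or.inl rfl, Or.inr (by simp)⟩
    · have : y ≠ x := fun e => hx (e ▸ hy)
      exact ⟨y, Or.inr hy, by simpa only [Function.update_of_ne this] using k⟩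

theorem Ok.toSq (h : Ok D b H T c) {Z : Finset (Fin n)} (hZ : Z ⊆ D \ c.Sg)
    (hs : ∀ p ∈ c.B, ∀ q ∈ c.B, p ≠ q → 2 ≤ #(df Z p q)) {x : V n} (hx : x ∈ c.X) {l m : Fin n}
    (hl : l ∈ D \ c.Sg) (hm : m ∈ D \ c.Sg) (hlm : l ≠ m) (hlZ : l ∉ Z) (hmZ : m ∉ Z)
    {H' : Finset (V n)} (hH : ∀ z ∈ Sub D b, z ∈ H' ↔
      z = fl x l ∨ z = fl x m ∨ z = fl (fl x m) l ∨ z ∈ H) : Ok D b H' T (c.toSq x l m) := by
  have hxY : x ∉ c.Y := disjoint_left.mp h.dXY hx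
  have ne : ∀ y ∈ c.Y, y ≠ x := fun y hy e => hxY (e ▸ hy)
  have mB : ∀ z, z ∈ (c.toSq x l m).B → z ∈ c.B := fun z => by
    simp only [mem_B, Cf.toSq, mem_insert, mem_erase]
    rintro (k | k | rfl | k) <;> tauto
  obtain ⟨l1, l2⟩ := mem_sdiff.mp hl
  obtain ⟨m1, m2⟩ := mem_sdiff.mp hm
  have sl : ∀ y ∈ c.Y, c.l y ∈ c.Sg := fun y hy => mem_Sg.mpr ⟨y, hy, Or.inl rfl⟩
  have sm : ∀ y ∈ c.Y, c.m y ∈ c.Sg := fun y hy => mem_Sg.mpr ⟨y, hy, Or.inr rfl⟩
  exact {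
    sub := fun z hz => h.sub (mB z hz)
    hH := fun z hz => by
      rw [hH z hz, h.hH z hz]
      simp only [Cf.toSq, mem_insert, mem_erase, exists_eq_or_imp, Function.update_self,
        mem_sq hlm]
      have e : (∃ y ∈ c.Y, z ∈ Sub {Function.update c.l x l y, Function.update c.m x m y} y) ↔
          ∃ y ∈ c.Y, z ∈ Sub {c.l y, c.m y} y :=
        exists_congr fun y => and_congr_right fun hy => by
          simp only [Function.update_of_ne (ne y hy)]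
      rw [e]
      by_cases k : z = x
      · simp [k, hx]
      · tauto
    hT := h.hT
    sg := by
      rw [toSq_Sg hxY]
      exact insert_subset l1 (insert_subset m1 h.sg)
    lm := fun y hy y' hy' => by
      simp only [Cf.toSq, mem_insert] at hy hy' ⊢
      rcases hy with rfl | hy <;> rcases hy' with rfl | hy'
      · simp [hlm]
      · simp only [Function.update_self, Function.update_of_ne (ne _ hy')]
        exact ⟨fun e => l2 (e ▸ sm _ hy'), fun _ => ⟨fun e => l2 (e ▸ sl _ hy'),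
          fun e => m2 (e ▸ sm _ hy')⟩⟩
      · simp only [Function.update_self, Function.update_of_ne (ne _ hy)]
        exact ⟨fun e => m2 (e ▸ sl _ hy), fun _ => ⟨fun e => l2 (e ▸ sl _ hy),
          fun e => m2 (e ▸ sm _ hy)⟩⟩
      · simp only [Function.update_of_ne (ne _ hy), Function.update_of_ne (ne _ hy')]
        exact h.lm y hy y' hy'
    dXU := h.dXU.mono (erase_subset _ _) le_rfl
    dXY := disjoint_insert_right.mpr ⟨notMem_erase _ _, h.dXY.mono (erase_subset _ _) le_rfl⟩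
    dUY := disjoint_insert_right.mpr ⟨disjoint_left.mp h.dXU hx, h.dUY⟩
    sep := fun p hp q hq hne => by
      refine (hs p (mB p hp) q (mB q hq) hne).trans (df_mono (fun i hi => ?_) p q)
      rw [toSq_Sg hxY]
      obtain ⟨c1, c2⟩ := mem_sdiff.mp (hZ hi)
      simp only [mem_sdiff, mem_insert, not_or]
      exact ⟨c1, fun e => hlZ (e ▸ hi), fun e => hmZ (e ▸ hi), c2⟩ }

theorem card_sq {l m : Fin n} (h : l ≠ m) (y : V n) : #(Sub {l, m} y) = 4 := by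
  rw [card_Sub, card_pair h]; rfl

theorem Ok.holes (h : Ok D b H T c) :
    #((Sub D b).filter (· ∈ H)) = #c.X + 4 * #c.Y := by
  have sY : ∀ y ∈ c.Y, y ∈ c.B := fun y hy => mem_B.mpr (Or.inr (Or.inr hy))
  have e : (Sub D b).filter (· ∈ H) = c.X ∪ c.Y.biUnion fun y => Sub {c.l y, c.m y} y := by
    ext z
    simp only [mem_filter, mem_union, mem_biUnion]
    refine ⟨fun k => (h.hH z k.1).mp k.2, fun k => ?_⟩
    have hz : z ∈ Sub D b := by
      rcases k with k | ⟨y, k1, k2⟩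
      · exact h.sub (mem_B.mpr (Or.inl k))
      · exact mem_Sub.mpr fun i hi => (sq_agree k1 k2 fun hh => hi (h.sg hh)).trans
          (mem_Sub.mp (h.sub (sY y k1)) i hi)
    exact ⟨hz, (h.hH z hz).mpr k⟩
  have key : ∀ p ∈ c.B, ∀ y ∈ c.Y, p ≠ y → ∃ i ∉ c.Sg, p i ≠ y i := by
    intro p hp y hy hne
    obtain ⟨i, hi⟩ := card_pos.mp (lt_of_lt_of_le two_pos (h.sep p hp y (sY y hy) hne))
    exact ⟨i, (mem_sdiff.mp (mem_df.mp hi).1).2, (mem_df.mp hi).2⟩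
  rw [e, card_union_of_disjoint, card_biUnion]
  · rw [sum_congr rfl fun y hy => card_sq (h.lm y hy y hy).1 y]
    simp [mul_comm]
  · intro y hy y' hy' hne
    refine disjoint_left.mpr fun z c1 c2 => ?_
    obtain ⟨i, c3, c4⟩ := key y (sY y hy) y' hy' hne
    exact c4 ((sq_agree hy c1 c3).symm.trans (sq_agree hy' c2 c3))
  · refine disjoint_left.mpr fun z c1 c2 => ?_
    obtain ⟨y, k1, k2⟩ := mem_biUnion.mp c2
    obtain ⟨i, c3, c4⟩ := key z (mem_B.mpr (Or.inl c1)) y k1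
      fun e => disjoint_left.mp h.dXY c1 (e ▸ k1)
    exact c4 (sq_agree k1 k2 c3)

theorem Ok.card_Po (h : Ok D b H T c) :
    #(Po D b H T) + #c.X + 4 * #c.Y = 2 ^ #D + #c.U := by
  have e : Po D b H T = ((Sub D b).filter (· ∉ H)).image (fun z => (z, false)) ∪
      c.U.image fun z => (z, true) := by
    ext ⟨z, e⟩
    cases e
    · simp [mem_Po_f]
    · simp only [mem_Po_t, mem_union, mem_image, Prod.mk.injEq, Bool.false_eq_true, and_false,
        exists_false, and_true, exists_eq_right, false_or]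
      exact ⟨fun k => (h.hT z k.1).mp k.2, fun k =>
        have hz := h.sub (mem_B.mpr (Or.inr (Or.inl k)))
        ⟨hz, (h.hT z hz).mpr k⟩⟩
  have h1 := card_filter_add_card_filter_not (s := Sub D b) (· ∈ H)
  rw [h.holes, card_Sub] at h1
  rw [e, card_union_of_disjoint, card_image_of_injective _ fun _ _ k => congrArg Prod.fst k,
    card_image_of_injective _ fun _ _ k => congrArg Prod.fst k]
  · omega
  · simp [disjoint_left]

theorem Ok.even_iff (h : Ok D b H T c) (hD : 1 ≤ #D) :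
    Even #(Po D b H T) ↔ Even (#c.X + #c.U) := by
  have h1 := h.card_Po
  obtain ⟨d, hd⟩ : ∃ d, #D = d + 1 := ⟨#D - 1, by omega⟩
  rw [hd, pow_succ] at h1
  simp only [Nat.even_iff]
  omega

theorem Ok.congrH (h : Ok D b H T c) {H' : Finset (V n)} (e : ∀ z ∈ Sub D b, z ∈ H' ↔ z ∈ H) :
    Ok D b H' T c :=
  { h with hH := fun z hz => (e z hz).trans (h.hH z hz) }

end Pool.Agent.Lib.MP_88ff4d_co.NP
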