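import Pool.Agent.Lib.MP_88ff4d_co.NP.Core

/-! A checker for pairings of the 5-cube minus a square, and its soundness. -/

set_option autoImplicit false

namespace Pool.Agent.Lib.MP_88ff4d_co.NP.Cert

open Finset

/-- vertex with a given index -/
def vx (a : ℕ) : V 5 := fun i => if a.testBit i then 1 else 0

/-- index of a vertex -/
def en (x : V 5) : ℕ := (x 0).val + 2 * (x 1).val + 4 * (x 2).val + 8 * (x 3).val + 16 * (x 4).val

theorem vx_en : ∀ x, vx (en x) = x := by decide +kernel

theorem en_lt : ∀ x, en x < 32 := by decide +kernel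

theorem en_vx : ∀ a < 32, en (vx a) = a := by decide +kernel

/-- vertex set of a mask -/
def St (m : ℕ) : Finset (V 5) := univ.filter fun x => m.testBit (en x) = true

theorem mem_St {m : ℕ} {x : V 5} : x ∈ St m ↔ m.testBit (en x) = true := by simp [St]

theorem St_lor (a b : ℕ) : St (Nat.lor a b) = St a ∪ St b := by
  ext x
  simp [mem_St, Nat.testBit_or]

theorem St_land (a b : ℕ) : St (Nat.land a b) = St a ∩ St b := by
  ext x
  simp [mem_St, Nat.testBit_and]

theorem St_zero : St 0 = ∅ := by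
  ext x
  simp [mem_St]

theorem dis_of {a b : ℕ} (h : Nat.beq (Nat.land a b) 0 = true) : Disjoint (St a) (St b) := by
  rw [disjoint_iff_inter_eq_empty, ← St_land, Nat.eq_of_beq_eq_true h, St_zero]

/-- mask of one index -/
def bt (a : ℕ) : ℕ := Nat.pow 2 a

theorem St_bt {a : ℕ} (ha : a < 32) : St (bt a) = {vx a} := by
  ext x
  have : bt a = 2 ^ a := rfl
  rw [mem_St, this, Nat.testBit_two_pow, mem_singleton, decide_eq_true_eq]
  exact ⟨fun h => by rw [h, vx_en], fun h => by rw [h, en_vx a ha]⟩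

theorem hit_bt {a m : ℕ} (ha : a < 32) (h : Nat.beq (Nat.land m (bt a)) 0 = false) :
    vx a ∈ St m := by
  rw [mem_St, en_vx a ha]
  by_contra hh
  have e : Nat.land m (bt a) = 0 := by
    have : Nat.land m (bt a) = m &&& 2 ^ a := rfl
    rw [this]
    refine Nat.zero_of_testBit_eq_false fun i => ?_
    rw [Nat.testBit_and, Nat.testBit_two_pow]
    by_cases c : a = i
    · subst c
      simpa using hh
    · simp [c]
  rw [e] at h
  exact absurd h (by decide)

theorem hit_two {a b m : ℕ} (ha : a < 32) (hb : b < 32)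
    (h : Nat.beq (Nat.land m (Nat.lor (bt a) (bt b))) 0 = false) : vx a ∈ St m ∨ vx b ∈ St m := by
  by_contra hh
  have e : Nat.land m (Nat.lor (bt a) (bt b)) = Nat.lor (Nat.land m (bt a)) (Nat.land m (bt b)) :=
    Nat.and_or_distrib_left m (bt a) (bt b)
  cases c1 : Nat.beq (Nat.land m (bt a)) 0
  · exact hh (Or.inl (hit_bt ha c1))
  cases c2 : Nat.beq (Nat.land m (bt b)) 0
  · exact hh (Or.inr (hit_bt hb c2))
  rw [e, Nat.eq_of_beq_eq_true c1, Nat.eq_of_beq_eq_true c2] at h
  exact absurd h (by decide)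

/-- every pairing of `A` that keeps the inner pairs of `P` closes to one cycle -/
def G (P : V 5 → V 5) (A : Finset (V 5)) : Prop :=
  Even #A ∧ ∀ Q, Inv A Q → (∀ x ∈ A, P x ∈ A → Q x = P x) → Good adj A Q

variable {P : V 5 → V 5}

theorem G_of_fk {A : Finset (V 5)} (h : Fk adj A) : G P A := ⟨h.1, fun Q hQ _ => h.2 Q hQ⟩

theorem G_empty : G P ∅ :=
  ⟨by simp, fun Q _ _ => ⟨id, fun x hx => absurd hx (notMem_empty x),
    fun x hx => absurd hx (notMem_empty x), fun A hA _ _ _ => subset_empty.mp hA⟩⟩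

theorem G_union {A B : Finset (V 5)} (hA : G P A) (hB : G P B) (hd : Disjoint A B) {a : V 5}
    (ha : a ∈ A) (hb : P a ∈ B) : G P (A ∪ B) := by
  refine ⟨by rw [card_union_of_disjoint hd]; exact hA.1.add hB.1, fun Q hQ hq => ?_⟩
  obtain ⟨Q0, k1, k2⟩ := exists_P0 hQ subset_union_left hA.1
  have e : (A ∪ B) \ A = B := union_sdiff_cancel_left hd
  obtain ⟨Q', j1, j2, j3⟩ := stepQ (ad := adj) hQ subset_union_left k2
    (hA.2 Q0 k1 fun x hx h => by
      have := hq x (mem_union_left _ hx) (mem_union_left _ h)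
      rw [k2 x hx (this ▸ h), this])
    ⟨a, ha, by
      rw [hq a (mem_union_left _ ha) (mem_union_right _ hb)]
      exact disjoint_right.mp hd hb⟩
  rw [e] at j1 j2
  refine j3 ?_
  rw [e]
  refine hB.2 Q' j1 fun x hx h => ?_
  have := hq x (mem_union_right _ hx) (mem_union_right _ h)
  rw [j2 x hx (this ▸ disjoint_right.mp hd h), this]

/-- `m` is the mask of a pair of `P` -/
def Pm (P : V 5 → V 5) (m : ℕ) : Prop :=
  ∃ a < 32, ∃ b < 32, m = Nat.lor (bt a) (bt b) ∧ P (vx a) = vx b ∧ P (vx b) = vx a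

/-- merge the parts that meet the pair `m` -/
noncomputable def mg (m : ℕ) (L : List ℕ) : ℕ → List ℕ :=
  List.rec (fun acc => [acc]) (fun a _ ih acc => cond (Nat.beq (Nat.land a m) 0) (a :: ih acc)
    (cond (Nat.beq (Nat.land a acc) 0) (ih (Nat.lor acc a)) (a :: ih acc))) L

theorem mg_ok {a b : ℕ} (ha : a < 32) (hb : b < 32) (h1 : P (vx a) = vx b) (h2 : P (vx b) = vx a)
    (L : List ℕ) : (∀ x ∈ L, G P (St x)) → ∀ acc, G P (St acc) →
      (St acc = ∅ ∨ vx a ∈ St acc ∨ vx b ∈ St acc) →
      ∀ x ∈ mg (Nat.lor (bt a) (bt b)) L acc, G P (St x) := by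
  induction L with
  | nil =>
    intro _ acc h _ x hx
    rw [List.mem_singleton.mp hx]
    exact h
  | cons c L ih =>
    intro hL acc h h' x hx
    have hc := hL c List.mem_cons_self
    have hL' : ∀ x ∈ L, G P (St x) := fun x hx => hL x (List.mem_cons_of_mem _ hx)
    have keep : x ∈ c :: mg (Nat.lor (bt a) (bt b)) L acc → G P (St x) := fun hx => by
      rcases List.mem_cons.mp hx with rfl | hx
      · exact hc
      · exact ih hL' acc h h' x hx
    change x ∈ cond (Nat.beq (Nat.land c (Nat.lor (bt a) (bt b))) 0)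
      (c :: mg (Nat.lor (bt a) (bt b)) L acc) (cond (Nat.beq (Nat.land c acc) 0)
      (mg (Nat.lor (bt a) (bt b)) L (Nat.lor acc c)) (c :: mg (Nat.lor (bt a) (bt b)) L acc)) at hx
    cases c1 : Nat.beq (Nat.land c (Nat.lor (bt a) (bt b))) 0
    swap
    · rw [c1] at hx
      exact keep hx
    cases c2 : Nat.beq (Nat.land c acc) 0
    · rw [c1, c2] at hx
      exact keep hx
    rw [c1, c2] at hx
    have d := dis_of c2
    have k := hit_two ha hb c1
    refine ih hL' (Nat.lor acc c) ?_ ?_ x hx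
    · rw [St_lor]
      rcases h' with h' | h' | h'
      · rw [h', empty_union]
        exact hc
      · exact G_union h hc d.symm h' (h1 ▸ k.resolve_left (disjoint_right.mp d h'))
      · exact G_union h hc d.symm h' (h2 ▸ k.resolve_right (disjoint_right.mp d h'))
    · rw [St_lor]
      exact Or.inr (k.imp (mem_union_right _) (mem_union_right _))

/-- merge along all known pairs -/
noncomputable def mgs (K L : List ℕ) : List ℕ := List.rec L (fun m _ ih => mg m ih 0) K

theorem mgs_ok {L : List ℕ} (hL : ∀ x ∈ L, G P (St x)) (K : List ℕ) :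
    (∀ m ∈ K, Pm P m) → ∀ x ∈ mgs K L, G P (St x) := by
  induction K with
  | nil => exact fun _ => hL
  | cons m K ih =>
    intro hK
    obtain ⟨a, ha, b, hb, rfl, h1, h2⟩ := hK _ List.mem_cons_self
    exact mg_ok ha hb h1 h2 _ (ih fun m hm => hK m (List.mem_cons_of_mem _ hm)) 0
      (St_zero ▸ G_empty) (Or.inl St_zero)

/-- all 28 vertices -/
def full : ℕ := 4294967280

/-- partners of `v` that join the two classes `a`, `b` -/
noncomputable def cv2 (v a b : ℕ) : ℕ :=
  cond (Nat.beq (Nat.land a b) 0 && Nat.beq (Nat.lor a b) full)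
    (cond (Nat.beq (Nat.land a (bt v)) 0) a b) 0

theorem cv2_ok {v a b : ℕ} (hv : v < 32) (hv' : vx v ∈ St full) (ha : G P (St a))
    (hb : G P (St b)) (h : P (vx v) ∈ St (cv2 v a b)) : G P (St full) := by
  unfold cv2 at h
  cases c : (Nat.beq (Nat.land a b) 0 && Nat.beq (Nat.lor a b) full)
  · rw [c, cond_false, St_zero] at h
    exact absurd h (notMem_empty _)
  rw [c, cond_true] at h
  obtain ⟨c1, c2⟩ := Bool.and_eq_true_iff.mp c
  have d := dis_of c1
  rw [← Nat.eq_of_beq_eq_true c2, St_lor] at hv' ⊢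
  cases c3 : Nat.beq (Nat.land a (bt v)) 0
  · rw [c3] at h
    exact G_union ha hb d (hit_bt hv c3) h
  · rw [c3] at h
    have d2 := dis_of c3
    rw [St_bt hv, disjoint_singleton_right] at d2
    rw [union_comm]
    exact G_union hb ha d.symm ((mem_union.mp hv').resolve_left d2) h

/-- partners of `v` covered by a merged partition -/
noncomputable def cov (v : ℕ) (M : List ℕ) : ℕ :=
  List.rec 0 (fun a M' _ => List.rec 0 (fun b _ _ => cv2 v a b) M') M

theorem cov_ok {v : ℕ} (hv : v < 32) (hv' : vx v ∈ St full) {M : List ℕ}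
    (hM : ∀ x ∈ M, G P (St x)) (h : P (vx v) ∈ St (cov v M)) : G P (St full) := by
  rcases M with _ | ⟨a, _ | ⟨b, M⟩⟩
  · exact absurd (St_zero ▸ h : P (vx v) ∈ (∅ : Finset (V 5))) (notMem_empty _)
  · exact absurd (St_zero ▸ h : P (vx v) ∈ (∅ : Finset (V 5))) (notMem_empty _)
  · exact cv2_ok hv hv' (hM a (by simp)) (hM b (by simp)) h

/-- entry of the library -/
noncomputable def nth (l : List (List ℕ)) : ℕ → List ℕ :=
  List.rec (fun _ => []) (fun a _ ih k => Nat.rec a (fun k _ => ih k) k) l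

theorem nth_ok {p : ℕ → Prop} (l : List (List ℕ)) :
    (∀ L ∈ l, ∀ x ∈ L, p x) → ∀ k, ∀ x ∈ nth l k, p x := by
  induction l with
  | nil => exact fun _ _ x hx => absurd hx List.not_mem_nil
  | cons a l ih =>
    intro h k
    cases k with
    | zero => exact h a List.mem_cons_self
    | succ k => exact ih (fun L hL => h L (List.mem_cons_of_mem _ hL)) k

/-- partners of `v` covered by the partitions listed in the digits of the last argument -/
noncomputable def covs (l : List (List ℕ)) (K : List ℕ) (v f : ℕ) : ℕ → ℕ :=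
  Nat.rec (fun _ => 0) (fun _ ih ps => cond (Nat.beq ps 0) 0
    (Nat.lor (cov v (mgs K (nth l (Nat.mod ps 256)))) (ih (Nat.div ps 256)))) f

theorem covs_ok {l : List (List ℕ)} (hl : ∀ L ∈ l, ∀ x ∈ L, G P (St x)) {K : List ℕ}
    (hK : ∀ m ∈ K, Pm P m) {v : ℕ} (hv : v < 32) (hv' : vx v ∈ St full) (f : ℕ) :
    ∀ ps, P (vx v) ∈ St (covs l K v f ps) → G P (St full) := by
  induction f with
  | zero => exact fun _ h => absurd (St_zero ▸ h : P (vx v) ∈ (∅ : Finset (V 5))) (notMem_empty _)
  | succ f ih =>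
    intro ps h
    change P (vx v) ∈ St (cond (Nat.beq ps 0) 0
      (Nat.lor (cov v (mgs K (nth l (Nat.mod ps 256)))) (covs l K v f (Nat.div ps 256)))) at h
    cases c : Nat.beq ps 0
    · rw [c, cond_false, St_lor] at h
      rcases mem_union.mp h with h | h
      · exact cov_ok hv hv' (mgs_ok (nth_ok l hl _) K hK) h
      · exact ih _ h
    · rw [c, cond_true, St_zero] at h
      exact absurd h (notMem_empty _)

/-- case tree: a code, the cases below, the next case on the same level -/
inductive Tr : Type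
  | e : Tr
  | c : ℕ → Tr → Tr → Tr

/-- one case: partner `w` of `u`, next vertex `v` -/
noncomputable def one (l : List (List ℕ)) (kid : List ℕ → ℕ → ℕ → ℕ → Bool) (K : List ℕ)
    (fr v ps : ℕ) : Bool :=
  !Nat.beq (Nat.land fr (bt v)) 0 && kid K fr v (Nat.lor (bt v) (covs l K v 30 ps))

/-- the checker -/
noncomputable def chk (l : List (List ℕ)) (t : Tr) : List ℕ → ℕ → ℕ → ℕ → Bool :=
  Tr.rec (fun _ fr _ cv => Nat.beq (Nat.lor fr cv) cv)
    (fun s _ _ kid sib K fr u cv =>
      one l kid (Nat.lor (bt u) (bt (Nat.mod s 32)) :: K)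
        (Nat.xor fr (Nat.lor (bt u) (bt (Nat.mod s 32)))) (Nat.mod (Nat.div s 32) 32)
        (Nat.div s 1024) && sib K fr u (Nat.lor cv (bt (Nat.mod s 32)))) t

theorem mem_xor {a b : ℕ} (h : St b ⊆ St a) {x : V 5} :
    x ∈ St (Nat.xor a b) ↔ x ∈ St a ∧ x ∉ St b := by
  have e : Nat.xor a b = a ^^^ b := rfl
  have := @h x
  simp only [mem_St, e, Nat.testBit_xor] at this ⊢
  revert this
  cases a.testBit (en x) <;> cases b.testBit (en x) <;> simp

theorem chk_ok (hP : Inv (St full) P) {l : List (List ℕ)} (hl : ∀ L ∈ l, ∀ x ∈ L, G P (St x))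
    (t : Tr) : ∀ K fr u cv, chk l t K fr u cv = true → (∀ m ∈ K, Pm P m) → St fr ⊆ St full →
      Cl (St fr) P → u < 32 → vx u ∈ St fr → (P (vx u) ∈ St cv → G P (St full)) →
      G P (St full) := by
  induction t with
  | e =>
    intro K fr u cv h _ _ h2 _ h4 h5
    apply h5
    rw [← Nat.eq_of_beq_eq_true h, St_lor]
    exact mem_union_left _ (h2 _ h4)
  | c s t1 t2 ih1 ih2 =>
    intro K fr u cv h hK h1 h2 h3 h4 h5
    obtain ⟨c1, c2⟩ := Bool.and_eq_true_iff.mp h
    have hw : Nat.mod s 32 < 32 := Nat.mod_lt _ (by norm_num)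
    have hv : Nat.mod (Nat.div s 32) 32 < 32 := Nat.mod_lt _ (by norm_num)
    generalize Nat.mod s 32 = w at *
    generalize Nat.mod (Nat.div s 32) 32 = v at *
    refine ih2 K fr u _ c2 hK h1 h2 h3 h4 fun k => ?_
    rw [St_lor, St_bt hw] at k
    rcases mem_union.mp k with k | k
    · exact h5 k
    rw [mem_singleton] at k
    have k' : P (vx w) = vx u := by rw [← k, (hP _ (h1 h4)).2.2]
    obtain ⟨c3, c4⟩ := Bool.and_eq_true_iff.mp c1
    have hv' := hit_bt hv (Bool.not_eq_true' _ ▸ c3)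
    have eS : St (Nat.lor (bt u) (bt w)) = {vx u, vx w} := by
      rw [St_lor, St_bt h3, St_bt hw]
      rfl
    have sub : St (Nat.lor (bt u) (bt w)) ⊆ St fr := by
      rw [eS, insert_subset_iff, singleton_subset_iff]
      exact ⟨h4, k ▸ h2 _ h4⟩
    have hK' : ∀ m ∈ Nat.lor (bt u) (bt w) :: K, Pm P m := by
      intro m hm
      rcases List.mem_cons.mp hm with rfl | hm
      · exact ⟨u, h3, w, hw, rfl, k, k'⟩
      · exact hK m hm
    have s1 : St (Nat.xor fr (Nat.lor (bt u) (bt w))) ⊆ St full :=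
      fun x hx => h1 ((mem_xor sub).mp hx).1
    refine ih1 _ _ v _ c4 hK' s1 (fun x hx => ?_) hv hv' fun j => ?_
    · obtain ⟨j1, j2⟩ := (mem_xor sub).mp hx
      refine (mem_xor sub).mpr ⟨h2 x j1, fun j3 => j2 ?_⟩
      rw [eS] at j3 ⊢
      rw [← (hP x (h1 j1)).2.2]
      rcases mem_insert.mp j3 with j3 | j3
      · rw [j3, k]; simp
      · rw [mem_singleton.mp j3, k']; simp
    · rw [St_lor, St_bt hv] at j
      rcases mem_union.mp j with j | j
      · exact absurd (mem_singleton.mp j) (hP _ (s1 hv')).2.1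
      · exact covs_ok hl hK' hv (s1 hv') 30 _ j

/-- `m` is the mask of the subcube with free directions `d` through `b` -/
def isC (m d b : ℕ) : Bool :=
  (List.range 32).all fun x => m.testBit x ==
    (List.range 5).all fun i => d.testBit i || x.testBit i == b.testBit i

theorem tb_en : ∀ (x : V 5) (i : Fin 5) (c : Bool),
    ((en x).testBit i = c ↔ x i = if c then 1 else 0) := by decide +kernel

theorem fk_of_isC {m d b : ℕ} (h : isC m d b = true) (i : Fin 5) (hi : d.testBit i = true) :
    Fk adj (St m) := by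
  have e : St m = Sub (univ.filter fun i : Fin 5 => d.testBit i = true) (vx b) := by
    ext x
    have := List.all_eq_true.mp h (en x) (List.mem_range.mpr (en_lt x))
    rw [mem_St, mem_Sub, beq_iff_eq.mp this, List.all_eq_true]
    simp only [List.mem_range, Bool.or_eq_true, beq_iff_eq, mem_filter, mem_univ, true_and]
    constructor
    · intro k j hj
      exact (tb_en x j _).mp ((k j j.2).resolve_left hj)
    · intro k j hj
      by_cases c : d.testBit j = true
      · exact Or.inl c
      · exact Or.inr ((tb_en x ⟨j, hj⟩ _).mpr (k ⟨j, hj⟩ c))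
  rw [e]
  exact fink _ ⟨i, mem_filter.mpr ⟨mem_univ _, hi⟩⟩ _

/-- `m` is the mask of a subcube of positive dimension -/
def cube (m : ℕ) : Bool :=
  (List.finRange 5).any fun i => (m.log2 ^^^ (m ^^^ (m - 1)).log2).testBit i &&
    isC m (m.log2 ^^^ (m ^^^ (m - 1)).log2) m.log2

theorem fk_of_cube {m : ℕ} (h : cube m = true) : Fk adj (St m) := by
  obtain ⟨i, -, hi⟩ := List.any_eq_true.mp h
  obtain ⟨h1, h2⟩ := Bool.and_eq_true_iff.mp hi
  exact fk_of_isC h2 i h1

theorem St_full : St full = (univ : Finset (V 5)) \ Sub {0, 1} 0 := by decide +kernel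

end Pool.Agent.Lib.MP_88ff4d_co.NP.Cert
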