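import Pool.Agent.Lib.MP_88ff4d_co.NP.St

/-! Nearly perfect matchings: contraction of edges and splitting of a subcube. -/

set_option autoImplicit false

namespace Pool.Agent.Lib.MP_88ff4d_co.NP

open Finset

section
variable {α : Type*} [DecidableEq α] {ad : α → α → Prop}

omit [DecidableEq α] in
theorem good_congr {S : Finset α} {P P' : α → α} (e : ∀ x ∈ S, P' x = P x) (h : Good ad S P') :
    Good ad S P := by
  obtain ⟨R, h1, h2, h3⟩ := h
  exact ⟨R, h1, h2, fun A hA hne c1 c2 => h3 A hA hne (fun x hx => by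
    rw [e x (hA hx)]; exact c1 x hx) c2⟩

theorem stepQ {S S0 : Finset α} {P P0 : α → α} (hP : Inv S P) (hS : S0 ⊆ S)
    (h0 : ∀ x ∈ S0, P x ∈ S0 → P0 x = P x) (hG : Good ad S0 P0) (hx : ∃ x ∈ S0, P x ∉ S0) :
    ∃ P', Inv (S \ S0) P' ∧ (∀ x ∈ S \ S0, P x ∉ S0 → P' x = P x) ∧
      (Good ad (S \ S0) P' → Good ad S P) := by
  obtain ⟨R0, hR0, hadj, hC⟩ := hG
  obtain ⟨P', h1, h2, h3⟩ := contract hP hS hR0 (by
    intro A hA c1 c2
    by_contra hne
    have := hC A hA (nonempty_iff_ne_empty.mpr hne) (fun x hx => by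
      rw [h0 x (hA hx) (hA (c1 x hx))]
      exact c1 x hx) c2
    obtain ⟨x, k1, k2⟩ := hx
    rw [this] at c1
    exact k2 (c1 x k1))
  refine ⟨P', h1, fun x hx hPx => ?_, ?_⟩
  · obtain ⟨k1, k2⟩ := mem_sdiff.mp hx
    obtain ⟨k3, k4, k5⟩ := hP x k1
    have := h2 {x, P x} (by
      intro z hz
      rcases mem_insert.mp hz with rfl | hz
      · exact k1
      · rw [mem_singleton.mp hz]; exact k3) (by
      intro z hz
      rcases mem_insert.mp hz with rfl | hz
      · simp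
      · rw [mem_singleton.mp hz, k5]; simp) (by
      intro z hz hz0
      rcases mem_insert.mp hz with rfl | hz
      · exact absurd hz0 k2
      · rw [mem_singleton.mp hz] at hz0
        exact absurd hz0 hPx) x (by simp) k2
    rcases mem_insert.mp this with k6 | k6
    · exact absurd k6 (h1 x hx).2.1
    · exact mem_singleton.mp k6
  · rintro ⟨R', k1, k2, k3⟩
    obtain ⟨k4, k5⟩ := h3 R' k1 k3
    refine ⟨_, k4, fun x hx => ?_, k5⟩
    by_cases hx0 : x ∈ S0
    · simp only [if_pos hx0]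
      exact hadj x hx0
    · simp only [if_neg hx0]
      exact k2 x (mem_sdiff.mpr ⟨hx, hx0⟩)

theorem inv_pair {a b : α} (h : a ≠ b) : Inv {a, b} (fun z => if z = a then b else a) := by
  intro z hz
  rcases mem_insert.mp hz with rfl | hz
  · simp [h.symm]
  · rw [mem_singleton.mp hz]
    simp [h, h.symm]

theorem inv_inner {S S0 : Finset α} {P : α → α} (hP : Inv S P) (hS : S0 ⊆ S) :
    Inv (S0.filter fun x => P x ∈ S0) P :=
  hP.mono ((filter_subset _ _).trans hS) (fun x hx => by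
    obtain ⟨h1, h2⟩ := mem_filter.mp hx
    exact mem_filter.mpr ⟨h2, by rw [(hP x (hS h1)).2.2]; exact h1⟩)

theorem exists_P0 {S S0 : Finset α} {P : α → α} (hP : Inv S P) (hS : S0 ⊆ S) (hev : Even #S0) :
    ∃ P0, Inv S0 P0 ∧ ∀ x ∈ S0, P x ∈ S0 → P0 x = P x := by
  have hNP := inv_inner hP hS
  have hNS : (S0.filter fun x => P x ∈ S0) ⊆ S0 := filter_subset _ _
  have h1 := card_sdiff_add_card_eq_card hNS
  rw [← h1] at hev
  obtain ⟨Q, hQ⟩ := exists_inv_of_even _ ((Nat.even_add.mp hev).mpr hNP.even)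
  have hP0 := hNP.piece hQ disjoint_sdiff
  rw [union_sdiff_of_subset hNS] at hP0
  exact ⟨_, hP0, fun x hx h => if_pos (mem_filter.mpr ⟨hx, h⟩)⟩

theorem exists_P0' {S S0 : Finset α} {P : α → α} (hP : Inv S P) (hS : S0 ⊆ S) (hev : Even #S0)
    {a b : α} (ha : a ∈ S0) (hb : b ∈ S0) (hab : a ≠ b) (ha' : P a ∉ S0) (hb' : P b ∉ S0) :
    ∃ P0, Inv S0 P0 ∧ (∀ x ∈ S0, P x ∈ S0 → P0 x = P x) ∧ P0 a = b := by
  have hT : ({a, b} : Finset α) ⊆ S0 := by
    intro z hz
    rcases mem_insert.mp hz with rfl | hz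
    · exact ha
    · rw [mem_singleton.mp hz]; exact hb
  have h1 := card_sdiff_add_card_eq_card hT
  rw [card_pair hab] at h1
  obtain ⟨P0, k1, k2⟩ := exists_P0 hP (S0 := S0 \ {a, b}) (sdiff_subset.trans hS) (by
    obtain ⟨k, hk⟩ := hev
    exact ⟨k - 1, by omega⟩)
  have h2 := (inv_pair hab).piece k1 disjoint_sdiff
  rw [union_sdiff_of_subset hT] at h2
  refine ⟨_, h2, fun x hx h => ?_, by simp⟩
  have c1 : x ∉ ({a, b} : Finset α) := by
    intro hz
    rcases mem_insert.mp hz with rfl | hz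
    · exact ha' h
    · rw [mem_singleton.mp hz] at h; exact hb' h
  simp only [if_neg c1]
  refine k2 x (mem_sdiff.mpr ⟨hx, c1⟩) (mem_sdiff.mpr ⟨h, fun hz => ?_⟩)
  rcases mem_insert.mp hz with hz | hz
  · exact ha' (by rw [← hz, (hP x (hS hx)).2.2]; exact hx)
  · exact hb' (by rw [← mem_singleton.mp hz, (hP x (hS hx)).2.2]; exact hx)

theorem exit_of_odd {S S0 : Finset α} {P : α → α} (hP : Inv S P) (hS : S0 ⊆ S) (h : ¬ Even #S0) :
    ∃ x ∈ S0, P x ∉ S0 := by
  by_contra hh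
  push Not at hh
  exact h (hP.mono hS hh).even

theorem edgeK {S : Finset α} {P : α → α} (hP : Inv S P) {a b : α} (ha : a ∈ S) (hb : b ∈ S)
    (hab : a ≠ b) (h1 : ad a b) (h2 : ad b a) (hn : P a ≠ b) :
    ∃ P', Inv (S \ {a, b}) P' ∧ (∀ p, p ≠ a → p ≠ b → p ≠ P a → p ≠ P b → P' p = P p) ∧
      (Good ad (S \ {a, b}) P' → Good ad S P) := by
  have hT : ({a, b} : Finset α) ⊆ S := by
    intro z hz
    rcases mem_insert.mp hz with rfl | hz
    · exact ha
    · rw [mem_singleton.mp hz]; exact hb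
  have e1 : P a ∉ ({a, b} : Finset α) := by simp [hn, (hP a ha).2.1]
  have e2 : P b ∉ ({a, b} : Finset α) := by
    have : P b ≠ a := fun h => hn (by rw [← h, (hP b hb).2.2])
    simp [this, (hP b hb).2.1]
  obtain ⟨P', k1, k2, k3⟩ := stepQ (ad := ad) (P0 := fun z => if z = a then b else a) hP hT (by
    intro x hx h
    rcases mem_insert.mp hx with rfl | hx
    · exact absurd h e1
    · rw [mem_singleton.mp hx] at h; exact absurd h e2) ⟨_, inv_pair hab, by
    intro x hx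
    rcases mem_insert.mp hx with rfl | hx
    · simpa using h1
    · rw [mem_singleton.mp hx]; simpa [hab.symm] using h2, by
    rintro A hA ⟨x, hx⟩ c1 -
    refine subset_antisymm hA fun z hz => ?_
    have c2 := c1 x hx
    rcases mem_insert.mp (hA hx) with rfl | h3
    · rcases mem_insert.mp hz with rfl | hz
      · exact hx
      · rw [mem_singleton.mp hz]; simpa using c2
    · rw [mem_singleton.mp h3] at hx c2
      rcases mem_insert.mp hz with rfl | hz
      · simpa [hab.symm] using c2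
      · rw [mem_singleton.mp hz]; exact hx⟩ ⟨a, by simp, e1⟩
  refine ⟨fun p => if p ∈ S \ {a, b} then P' p else P p, k1.congr fun x hx => if_pos hx,
    fun p c1 c2 c3 c4 => ?_, fun h => k3 (good_congr (fun x hx => if_pos hx) h)⟩
  by_cases hp : p ∈ S \ {a, b}
  · simp only [if_pos hp]
    refine k2 p hp fun hz => ?_
    have c5 := (hP p (mem_sdiff.mp hp).1).2.2
    rcases mem_insert.mp hz with hz | hz
    · exact c3 (by rw [← hz, c5])
    · exact c4 (by rw [← mem_singleton.mp hz, c5])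
  · simp only [if_neg hp]

end

variable {n : ℕ} {D : Finset (Fin n)} {b : V n} {H T : Finset (V n)}
  {P : V n × Bool → V n × Bool}

theorem mem_Po_f {z : V n} : (z, false) ∈ Po D b H T ↔ z ∈ Sub D b ∧ z ∉ H := by simp [Po]

theorem mem_Po_t {z : V n} : (z, true) ∈ Po D b H T ↔ z ∈ Sub D b ∧ z ∈ T := by simp [Po]

theorem Po_sub {p : V n × Bool} (h : p ∈ Po D b H T) : p.1 ∈ Sub D b := (mem_filter.mp h).2.1

theorem mem_Sub_erase {j : Fin n} {b0 z : V n} (h0 : b0 ∈ Sub D b) (_hj : j ∈ D) :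
    z ∈ Sub (D.erase j) b0 ↔ z ∈ Sub D b ∧ z j = b0 j := by
  rw [mem_Sub] at h0
  simp only [mem_Sub, mem_erase]
  constructor
  · intro h
    refine ⟨fun i hi => ?_, h j fun hh => hh.1 rfl⟩
    rw [h i fun hh => hi hh.2, h0 i hi]
  · rintro ⟨h1, h2⟩ i hi
    by_cases c : i = j
    · rw [c, h2]
    · have : i ∉ D := fun hh => hi ⟨c, hh⟩
      rw [h1 i this, h0 i this]

theorem mem_side {j : Fin n} {b0 : V n} {p : V n × Bool} (h0 : b0 ∈ Sub D b) (hj : j ∈ D) :
    p ∈ Po (D.erase j) b0 H T ↔ p ∈ Po D b H T ∧ p.1 j = b0 j := by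
  simp only [Po, mem_filter, mem_univ, true_and, mem_Sub_erase h0 hj]
  tauto

theorem z2_two {a c e : ZMod 2} (h : a ≠ c) (h' : e ≠ a) : e = c := by revert a c e; decide

theorem side_sub {j : Fin n} {b0 : V n} (h0 : b0 ∈ Sub D b) (hj : j ∈ D) :
    Po (D.erase j) b0 H T ⊆ Po D b H T := fun _ hp => ((mem_side h0 hj).mp hp).1

theorem splitQ {j : Fin n} {b0 b1 : V n} (hj : j ∈ D) (h0 : b0 ∈ Sub D b) (h1 : b1 ∈ Sub D b)
    (hne : b0 j ≠ b1 j) (hP : Inv (Po D b H T) P) (hS : SP (Po D b H T) P)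
    {P0 : V n × Bool → V n × Bool}
    (hP0 : ∀ x ∈ Po (D.erase j) b0 H T, P x ∈ Po (D.erase j) b0 H T → P0 x = P x)
    (hG : SP (Po (D.erase j) b0 H T) P0 → Good adp (Po (D.erase j) b0 H T) P0)
    (hx : ∃ p ∈ Po D b H T, (P p).1 j ≠ p.1 j) (hR : Rob (Po (D.erase j) b1 H T)) :
    Good adp (Po D b H T) P := by
  have s0 : SP (Po (D.erase j) b0 H T) P0 := by
    intro v hv
    obtain ⟨k1, k2⟩ := (mem_side h0 hj).mp hv
    have k3 := hS v k1
    rw [hP0 _ hv ((mem_side h0 hj).mpr ⟨(hP _ k1).1, by rw [k3]; exact k2⟩), k3]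
  obtain ⟨P', k1, k2, k3⟩ := stepQ (ad := adp) hP (side_sub h0 hj) hP0 (hG s0) (by
    obtain ⟨p, c1, c2⟩ := hx
    by_cases c : p.1 j = b0 j
    · exact ⟨p, (mem_side h0 hj).mpr ⟨c1, c⟩, fun hh => c2 (((mem_side h0 hj).mp hh).2.trans c.symm)⟩
    · refine ⟨P p, (mem_side h0 hj).mpr ⟨(hP p c1).1, z2_two c c2⟩, fun hh => c ?_⟩
      rw [(hP p c1).2.2] at hh
      exact ((mem_side h0 hj).mp hh).2)
  have e : Po D b H T \ Po (D.erase j) b0 H T = Po (D.erase j) b1 H T := by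
    ext p
    rw [mem_sdiff, mem_side h0 hj, mem_side h1 hj]
    constructor
    · rintro ⟨c1, c2⟩
      exact ⟨c1, z2_two hne fun hh => c2 ⟨c1, hh⟩⟩
    · rintro ⟨c1, c2⟩
      exact ⟨c1, fun hh => hne (hh.2.symm.trans c2)⟩
  rw [e] at k1 k2 k3
  refine k3 (hR P' k1 fun v hv => ?_)
  obtain ⟨c1, c2⟩ := (mem_side h1 hj).mp hv
  rw [k2 _ hv (fun hh => ?_), hS v c1]
  have := ((mem_side h0 hj).mp hh).2
  rw [hS v c1] at this
  exact hne (this.symm.trans c2)

theorem split {j : Fin n} {b0 b1 : V n} (hj : j ∈ D) (h0 : b0 ∈ Sub D b) (h1 : b1 ∈ Sub D b)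
    (hne : b0 j ≠ b1 j) (hP : Inv (Po D b H T) P) (hS : SP (Po D b H T) P)
    (hev : Even #(Po (D.erase j) b0 H T)) (hx : ∃ p ∈ Po D b H T, (P p).1 j ≠ p.1 j)
    (hR0 : Rob (Po (D.erase j) b0 H T)) (hR : Rob (Po (D.erase j) b1 H T)) :
    Good adp (Po D b H T) P := by
  obtain ⟨P0, k1, k2⟩ := exists_P0 hP (side_sub h0 hj) hev
  exact splitQ hj h0 h1 hne hP hS k2 (hR0 P0 k1) hx hR

/-- a side of odd size has a crossing pair -/
theorem cross_of_odd {j : Fin n} {b0 : V n} (hj : j ∈ D) (h0 : b0 ∈ Sub D b)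
    (hP : Inv (Po D b H T) P) (h : ¬ Even #(Po (D.erase j) b0 H T)) :
    ∃ p ∈ Po D b H T, p.1 j = b0 j ∧ (P p).1 j ≠ p.1 j := by
  obtain ⟨p, k1, k2⟩ := exit_of_odd hP (side_sub h0 hj) h
  obtain ⟨c1, c2⟩ := (mem_side h0 hj).mp k1
  exact ⟨p, c1, c2, fun hh => k2 ((mem_side h0 hj).mpr ⟨(hP p c1).1, hh.trans c2⟩)⟩

theorem Po_insert2 (u w : V n) :
    Po D b (insert u (insert w H)) T = Po D b H T \ {(u, false), (w, false)} := by
  ext ⟨z, c⟩
  cases c
  · simp only [mem_Po_f, mem_sdiff, mem_insert, mem_singleton, Prod.mk.injEq, and_true]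
    tauto
  · simp [mem_Po_t]

/-- prescribing a real edge between two ordinary vertices -/
theorem edgeH (hP : Inv (Po D b H T) P) (hS : SP (Po D b H T) P) {u w : V n} (hu : u ∈ Sub D b)
    (hw : w ∈ Sub D b) (huH : u ∉ H) (hwH : w ∉ H) (huT : u ∉ T) (hwT : w ∉ T) (h : adj u w)
    (hn : P (u, false) ≠ (w, false)) :
    ∃ P', Inv (Po D b (insert u (insert w H)) T) P' ∧ SP (Po D b (insert u (insert w H)) T) P' ∧
      (∀ p, p ≠ (u, false) → p ≠ (w, false) → p ≠ P (u, false) → p ≠ P (w, false) → P' p = P p) ∧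
      (Good adp (Po D b (insert u (insert w H)) T) P' → Good adp (Po D b H T) P) := by
  have ha : (u, false) ∈ Po D b H T := mem_Po_f.mpr ⟨hu, huH⟩
  have hb : (w, false) ∈ Po D b H T := mem_Po_f.mpr ⟨hw, hwH⟩
  obtain ⟨P', k1, k2, k3⟩ := edgeK (ad := adp) hP ha hb
    (fun hh => h.ne (congrArg Prod.fst hh).symm) h h.symm hn
  rw [← Po_insert2] at k1 k3
  refine ⟨P', k1, fun v hv => ?_, k2, k3⟩
  have c0 := mem_Po_t.mp hv
  have c1 := hS v (mem_Po_t.mpr c0)
  rw [k2 _ (by simp) (by simp) (fun hh => ?_) (fun hh => ?_), c1]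
  · rw [hh, (hP _ ha).2.2] at c1
    have e : u = v := congrArg Prod.fst c1
    exact huT (e ▸ c0.2)
  · rw [hh, (hP _ hb).2.2] at c1
    have e : w = v := congrArg Prod.fst c1
    exact hwT (e ▸ c0.2)

theorem rob_of_fk {O : Finset (V n)} (hT : ∀ z ∈ Sub D b, z ∉ T)
    (hO : ∀ z, z ∈ O ↔ z ∈ Sub D b ∧ z ∉ H) (hF : Fk adj O) : Rob (Po D b H T) := by
  have e : Po D b H T = O.image fun x => (x, false) := by
    ext ⟨z, c⟩
    cases c
    · simp [mem_Po_f, hO]
    · simpa [mem_Po_t] using hT z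
  intro P hP _
  rw [e] at hP ⊢
  obtain ⟨k1, k2⟩ := transport hP
  exact k2 (hF.2 _ k1)

theorem gd_cover (x : V n) {l l' : Fin n} (h : l ≠ l') :
    #D ≤ #(gd D P x l) + #(gd D P x l') + 2 := by
  have : D ⊆ gd D P x l ∪ gd D P x l' ∪ {l, l'} := by
    intro g hg
    simp only [gd, mem_union, mem_filter, mem_insert, mem_singleton]
    by_contra hh
    push Not at hh
    obtain ⟨⟨c1, c2⟩, c3, c4⟩ := hh
    exact h (fl_inj _ (congrArg Prod.fst ((c1 hg c3).symm.trans (c2 hg c4))))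
  have h1 := card_le_card this
  have h2 := card_union_le (gd D P x l ∪ gd D P x l') {l, l'}
  have h3 := card_union_le (gd D P x l) (gd D P x l')
  have h4 := card_le_two (a := l) (b := l')
  omega

/-- few directions lead into a small set of ports -/
theorem card_hit (K : Finset (V n × Bool)) (x : V n) :
    #(univ.filter fun g : Fin n => (fl x g, false) ∈ K) ≤ #K :=
  card_le_card_of_injOn (fun g => (fl x g, false)) (fun _ hg => (mem_filter.mp hg).2)
    (fun _ _ _ _ h => fl_inj x (congrArg Prod.fst h))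

theorem card_hitV (K : Finset (V n)) (x : V n) :
    #(univ.filter fun g : Fin n => fl x g ∈ K) ≤ #K :=
  card_le_card_of_injOn (fun g => fl x g) (fun _ hg => (mem_filter.mp hg).2)
    (fun _ _ _ _ h => fl_inj x h)

theorem gd_change {P' : V n × Bool → V n × Bool} {K : Finset (V n × Bool)}
    (h : ∀ p ∉ K, P' p = P p) (x : V n) (l : Fin n) : #(gd D P x l) ≤ #(gd D P' x l) + #K := by
  have : gd D P x l ⊆ gd D P' x l ∪ univ.filter fun g : Fin n => (fl x g, false) ∈ K := by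
    intro g hg
    by_cases c : (fl x g, false) ∈ K
    · exact mem_union_right _ (mem_filter.mpr ⟨mem_univ _, c⟩)
    · refine mem_union_left _ ?_
      simp only [gd, mem_filter] at hg ⊢
      rwa [h _ c]
  have h1 := card_le_card this
  have h2 := card_union_le (gd D P' x l) (univ.filter fun g : Fin n => (fl x g, false) ∈ K)
  have h3 := card_hit K x
  omega

theorem mem_sq {x z : V n} {l m : Fin n} (h : l ≠ m) :
    z ∈ Sub {l, m} x ↔ z = x ∨ z = fl x l ∨ z = fl x m ∨ z = fl (fl x m) l := by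
  constructor
  · intro hz
    have k : ∀ i, i ≠ l → i ≠ m → z i = x i := fun i c1 c2 => mem_Sub.mp hz i (by simp [c1, c2])
    have ex : ∀ w : V n, z l = w l → z m = w m → (∀ i, i ≠ l → i ≠ m → w i = x i) → z = w := by
      intro w c1 c2 c3
      funext i
      by_cases d1 : i = l
      · rw [d1, c1]
      by_cases d2 : i = m
      · rw [d2, c2]
      rw [k i d1 d2, c3 i d1 d2]
    by_cases c1 : z l = x l <;> by_cases c2 : z m = x m
    · exact Or.inl (ex x c1 c2 fun _ _ _ => rfl)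
    · exact Or.inr (Or.inr (Or.inl (ex _ (by rw [fl_apply_ne x h, c1])
        (by rw [fl_apply_self]; exact z2_eq c2) fun i _ d => fl_apply_ne x d)))
    · exact Or.inr (Or.inl (ex _ (by rw [fl_apply_self]; exact z2_eq c1)
        (by rw [fl_apply_ne x h.symm, c2]) fun i d _ => fl_apply_ne x d))
    · exact Or.inr (Or.inr (Or.inr (ex _ (by rw [fl_apply_self, fl_apply_ne x h]; exact z2_eq c1)
        (by rw [fl_apply_ne _ h.symm, fl_apply_self]; exact z2_eq c2)
        fun i d d' => by rw [fl_apply_ne _ d, fl_apply_ne x d'])))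
  · have k := self_mem_Sub {l, m} x
    rintro (rfl | rfl | rfl | rfl)
    · exact k
    · exact fl_mem_Sub (by simp) k
    · exact fl_mem_Sub (by simp) k
    · exact fl_mem_Sub (by simp) (fl_mem_Sub (by simp) k)

end Pool.Agent.Lib.MP_88ff4d_co.NP
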