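import Pool.Agent.Lib.MP_88ff4d_co.NP.MX3
import Pool.Agent.Lib.MP_88ff4d_co.NP.TM

/-! Both ends covered: induction on the number of targets. -/

set_option autoImplicit false

namespace Pool.Agent.Lib.MP_88ff4d_co.NP

open Finset

variable {n : ℕ} {D : Finset (Fin n)} {b b0 b1 : V n} {H T : Finset (V n)}
  {P : V n × Bool → V n × Bool} {j : Fin n} {N t : ℕ} {u v : V n} {U : Finset (V n)}

/-- generic position -/
structure Gn (D : Finset (Fin n)) (b : V n) (H T : Finset (V n)) (u v : V n)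
    (U : Finset (V n)) : Prop where
  hu : u ∈ Sub D b
  hv : v ∈ Sub D b
  sub : U ⊆ Sub D b
  hH : ∀ z ∈ Sub D b, z ∈ H ↔ z = u ∨ z = v
  hT : ∀ z ∈ Sub D b, z ∈ T ↔ z ∈ U
  pr : par u ≠ par v
  uv : 3 ≤ #(df D u v)
  f3 : ∀ x ∈ U, 3 ≤ #(df D u x) ∧ 3 ≤ #(df D v x)
  o3 : ∀ x ∈ U, ∀ y ∈ U, par x ≠ par y → 3 ≤ #(df D x y)

theorem Gn.prep (h : Gn D b H T u v U) (hP : Inv (Po D b H T) P) (hS : SP (Po D b H T) P)
    (w : V n → V n) {C : Finset (V n)} (hC : C ⊆ U) (hi : Set.InjOn w C)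
    (hw : ∀ x ∈ C, adj x (w x) ∧ w x ∈ Sub D b)
    (rest : ∀ p ∈ C.image w, ∀ q ∈ C.image w ∪ U \ C, p j = q j → par p = par q) :
    ∃ H' T' P', Inv (Po D b H' T') P' ∧ SP (Po D b H' T') P' ∧
      Pre D b H' T' j u v (C.image w) (U \ C) ∧
      (∀ x, #(gd D P x j) ≤ #(gd D P' x j) + 4 * #U) ∧
      (Good adp (Po D b H' T') P' → Good adp (Po D b H T) P) := by
  have k0 : ∀ x ∈ C, 2 ≤ #(df D u (w x)) ∧ 2 ≤ #(df D v (w x)) := fun x hx => by
    have a1 := h.f3 x (hC hx)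
    have a2 := df_adj D u (hw x hx).1
    have a3 := df_adj D v (hw x hx).1
    omega
  have k1 : ∀ x ∈ C, w x ∉ U := fun x hx c => by
    have a1 := h.o3 _ c x (hC hx) (hw x hx).1.par_ne.symm
    have a2 := df_adj D (w x) (hw x hx).1
    rw [df_self] at a2
    omega
  obtain ⟨P', m1, m2, ⟨K, m3, m4⟩, m5⟩ := convAll hP hS w C hi fun x hx => by
    have a1 := h.sub (hC hx)
    refine ⟨a1, (h.hT x a1).mpr (hC hx), (hw x hx).1, (hw x hx).2, fun c => ?_,
      fun c => k1 x hx ((h.hT _ (hw x hx).2).mp c)⟩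
    have a2 := k0 x hx
    rcases (h.hH _ (hw x hx).2).mp c with e | e <;> rw [e, df_self] at a2 <;> omega
  refine ⟨_, _, P', m1, m2, ⟨h.hu, h.hv, fun z hz => ?_, fun z hz => ?_, fun z hz => ?_, ?_,
    fun z hz => ?_, h.uv, fun p hp q hq e c => ?_⟩, fun x => ?_, m5⟩
  · rcases mem_union.mp hz with k | k
    · obtain ⟨x, hx, rfl⟩ := mem_image.mp k
      exact (hw x hx).2
    · exact h.sub (mem_sdiff.mp k).1
  · rw [mem_union, h.hH z hz, mem_insert, mem_insert, or_assoc]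
  · rw [mem_sdiff, mem_sdiff, h.hT z hz]
  · refine disjoint_left.mpr fun z k k' => ?_
    obtain ⟨x, hx, rfl⟩ := mem_image.mp k
    exact k1 x hx (mem_sdiff.mp k').1
  · rcases mem_union.mp hz with k | k
    · obtain ⟨x, hx, rfl⟩ := mem_image.mp k
      exact k0 x hx
    · have := h.f3 z (mem_sdiff.mp k).1
      omega
  · rcases mem_union.mp hp with k | k
    · exact absurd (rest p k q hq e) c
    rcases mem_union.mp hq with k' | k'
    · exact absurd (rest q k' p hp e.symm).symm c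
    · exact le_trans (by norm_num) (h.o3 p (mem_sdiff.mp k).1 q (mem_sdiff.mp k').1 c)
  · have a1 := gd_change (D := D) m4 x j
    have a2 := card_le_card hC
    omega

theorem z2_a {a c : ZMod 2} (h : a ≠ c) : a + 1 = c := by revert a c; decide

theorem card_fi {w : V n → V n} {C : Finset (V n)} (hi : Set.InjOn w C) (e : ZMod 2) :
    #((C.image w).filter (· j = e)) = #(C.filter fun x => w x j = e) := by
  rw [filter_image]
  exact card_image_of_injOn (hi.mono (filter_subset _ _))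

/-- a side has more targets of the parity of `v` -/
theorem stepN (hF : FarSt) (hL : LinkSt) (hT : TMSt) (h : Gn D b H T u v U) (hj : j ∈ D)
    (h0 : b0 ∈ Sub D b) (h1 : b1 ∈ Sub D b) (hne : b0 j ≠ b1 j) (hP : Inv (Po D b H T) P)
    (hS : SP (Po D b H T) P)
    (bal : #(U.filter fun x => par x = par u) = #(U.filter fun x => par x = par v))
    (lt : #((U.filter fun x => par x = par u).filter (· j = b0 j)) <
      #((U.filter fun x => par x = par v).filter (· j = b0 j))) (ut : #U ≤ t)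
    (hN : (t + 1) ^ 2 + 10 ≤ N) (bu : 2 * N ^ 2 + 12 * N + 14 + 4 * t ≤ #(gd D P u j))
    (bv : 2 * N ^ 2 + 12 * N + 14 + 4 * t ≤ #(gd D P v j))
    (hD : 50 * N ^ 2 + 100 + 5 * N + t + 1 ≤ #D) : Good adp (Po D b H T) P := by
  have s0 := TMx.card_sides (U.filter fun x => par x = par u) j hne
  have s1 := TMx.card_sides (U.filter fun x => par x = par v) j hne
  set A0 := (U.filter fun x => par x = par u).filter (· j = b0 j) with dA0
  set A1 := (U.filter fun x => par x = par v).filter (· j = b0 j) with dA1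
  set B0 := (U.filter fun x => par x = par u).filter (· j = b1 j) with dB0
  set B1 := (U.filter fun x => par x = par v).filter (· j = b1 j) with dB1
  have mA0 : ∀ z, z ∈ A0 ↔ (z ∈ U ∧ par z = par u) ∧ z j = b0 j := fun z => by simp [dA0]
  have mA1 : ∀ z, z ∈ A1 ↔ (z ∈ U ∧ par z = par v) ∧ z j = b0 j := fun z => by simp [dA1]
  have mB0 : ∀ z, z ∈ B0 ↔ (z ∈ U ∧ par z = par u) ∧ z j = b1 j := fun z => by simp [dB0]
  have mB1 : ∀ z, z ∈ B1 ↔ (z ∈ U ∧ par z = par v) ∧ z j = b1 j := fun z => by simp [dB1]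
  obtain ⟨S, hSA, hSc⟩ := exists_subset_card_eq (s := A1) (n := #A1 - #A0 - 1) (by omega)
  have mS : ∀ z ∈ S, (z ∈ U ∧ par z = par v) ∧ z j = b0 j := fun z hz => (mA1 z).mp (hSA hz)
  have SU : S ⊆ U := fun z hz => (mS z hz).1.1
  obtain ⟨g, hg, hb⟩ := exists_avoid (A := D.erase j)
    (Bd := S.biUnion fun x => univ.filter fun g => fl (fl x j) g ∈ U) (by
      have a1 := card_biUnion_le_card_mul S (fun x => univ.filter fun g => fl (fl x j) g ∈ U) t
        fun x _ => (card_hitV U _).trans ut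
      have a2 : #S * t ≤ t * t := Nat.mul_le_mul_right _ ((card_le_card SU).trans ut)
      have a3 := card_erase_of_mem hj
      have a4 : (t + 1) ^ 2 = t * t + 2 * t + 1 := by ring
      omega)
  obtain ⟨g1, g2⟩ := mem_erase.mp hg
  let w : V n → V n := fun x => if x ∈ S then fl x j else fl x g
  have w1 : ∀ x ∈ S, w x = fl x j := fun x hx => if_pos hx
  have w2 : ∀ x ∉ S, w x = fl x g := fun x hx => if_neg hx
  have pr := h.pr
  have wA : ∀ x ∈ A0, par (w x) = par v ∧ w x j = b0 j := fun x hx => by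
    obtain ⟨⟨-, a1⟩, a2⟩ := (mA0 x).mp hx
    rw [w2 x fun c => pr (a1.symm.trans (mS x c).1.2), par_fl, a1, fl_apply_ne x g1.symm]
    exact ⟨z2_a pr, a2⟩
  have wB : ∀ x ∈ B1 ∪ S, par (w x) = par u ∧ w x j = b1 j := fun x hx => by
    by_cases c : x ∈ S
    · rw [w1 x c, par_fl, (mS x c).1.2, fl_apply_self, (mS x c).2]
      exact ⟨z2_a pr.symm, z2_a hne⟩
    · obtain ⟨⟨-, a1⟩, a2⟩ := (mB1 x).mp ((mem_union.mp hx).resolve_right c)
      rw [w2 x c, par_fl, a1, fl_apply_ne x g1.symm]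
      exact ⟨z2_a pr.symm, a2⟩
  have CU : A0 ∪ (B1 ∪ S) ⊆ U := union_subset (fun z hz => ((mA0 z).mp hz).1.1)
    (union_subset (fun z hz => ((mB1 z).mp hz).1.1) SU)
  have mix : ∀ x ∈ S, ∀ y ∈ U, fl x j ≠ fl y g := fun x hx y hy e =>
    hb (mem_biUnion.mpr ⟨x, hx, mem_filter.mpr ⟨mem_univ _, by rw [e, fl_fl]; exact hy⟩⟩)
  have hi : Set.InjOn w (A0 ∪ (B1 ∪ S) : Finset (V n)) := by
    intro x hx y hy e
    by_cases c : x ∈ S <;> by_cases c' : y ∈ S
    · rw [w1 x c, w1 y c'] at e; exact fl_left_inj j e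
    · rw [w1 x c, w2 y c'] at e; exact absurd e (mix x c y (CU hy))
    · rw [w2 x c, w1 y c'] at e; exact absurd e.symm (mix y c' x (CU hx))
    · rw [w2 x c, w2 y c'] at e; exact fl_left_inj g e
  have pp : ∀ z ∈ (A0 ∪ (B1 ∪ S)).image w ∪ U \ (A0 ∪ (B1 ∪ S)),
      (z j = b0 j → par z = par v) ∧ (z j = b1 j → par z = par u) := by
    intro z hz
    rcases mem_union.mp hz with k | k
    · obtain ⟨x, hx, rfl⟩ := mem_image.mp k
      rcases mem_union.mp hx with k | k
      · exact ⟨fun _ => (wA x k).1, fun e => absurd ((wA x k).2.symm.trans e) hne⟩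
      · exact ⟨fun e => absurd (e.symm.trans (wB x k).2) hne, fun _ => (wB x k).1⟩
    · obtain ⟨k1, k2⟩ := mem_sdiff.mp k
      simp only [mem_union, not_or, mA0, mB1] at k2
      exact ⟨fun e => z2_two pr fun c => k2.1 ⟨⟨k1, c⟩, e⟩,
        fun e => z2_two pr.symm fun c => k2.2.1 ⟨⟨k1, c⟩, e⟩⟩
  obtain ⟨H', T', P', m1, m2, m3, m4, m5⟩ := h.prep (j := j) hP hS w CU hi (fun x hx => by
      have a := h.sub (CU hx)
      by_cases c : x ∈ S
      · rw [w1 x c]; exact ⟨adj_fl _ _, fl_mem_Sub hj a⟩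
      · rw [w2 x c]; exact ⟨adj_fl _ _, fl_mem_Sub g2 a⟩) (fun p hp q hq e => by
      have a1 := pp p (mem_union_left _ hp)
      have a2 := pp q hq
      by_cases c : p j = b0 j
      · rw [a1.1 c, a2.1 (e ▸ c)]
      · rw [a1.2 (z2_two hne c), a2.2 (e ▸ z2_two hne c)])
  have c1 : (A0 ∪ (B1 ∪ S)).filter (fun x => w x j = b0 j) = A0 := by
    rw [filter_union, filter_true_of_mem fun x hx => (wA x hx).2,
      filter_false_of_mem fun x hx => by rw [(wB x hx).2]; exact hne.symm, union_empty]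
  have c2 : (A0 ∪ (B1 ∪ S)).filter (fun x => w x j = b1 j) = B1 ∪ S := by
    rw [filter_union, filter_true_of_mem fun x hx => (wB x hx).2,
      filter_false_of_mem fun x hx => by rw [(wA x hx).2]; exact hne, empty_union]
  have c3 : (U \ (A0 ∪ (B1 ∪ S))).filter (· j = b0 j) = A1 \ S := by
    ext z
    simp only [mem_filter, mem_sdiff, mem_union, not_or, mA0, mB1, mA1]
    constructor
    · rintro ⟨⟨k1, k2, -, k3⟩, k4⟩
      exact ⟨⟨⟨k1, z2_two pr fun c => k2 ⟨⟨k1, c⟩, k4⟩⟩, k4⟩, k3⟩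
    · rintro ⟨⟨⟨k1, k2⟩, k3⟩, k4⟩
      exact ⟨⟨k1, fun c => pr (c.1.2.symm.trans k2), fun c => hne (k3.symm.trans c.2), k4⟩, k3⟩
  have c4 : (U \ (A0 ∪ (B1 ∪ S))).filter (· j = b1 j) = B0 := by
    ext z
    simp only [mem_filter, mem_sdiff, mem_union, not_or, mA0, mB1, mB0]
    constructor
    · rintro ⟨⟨k1, -, k2, -⟩, k4⟩
      exact ⟨⟨k1, z2_two pr.symm fun c => k2 ⟨⟨k1, c⟩, k4⟩⟩, k4⟩
    · rintro ⟨⟨k1, k2⟩, k3⟩
      exact ⟨⟨k1, fun c => hne (c.2.symm.trans k3), fun c => pr (k2.symm.trans c.1.2),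
        fun c => hne ((mS z c).2.symm.trans k3)⟩, k3⟩
  have c5 : #(B1 ∪ S) = #B1 + #S := card_union_of_disjoint (disjoint_left.mpr fun z k k' =>
    hne ((mS z k').2.symm.trans ((mB1 z).mp k).2))
  have c6 := card_sdiff_add_card_eq_card hSA
  have d1 := m4 u
  have d2 := m4 v
  refine m5 (nonneu (N := N) (t := t) hF hL hT hj h0 h1 hne m1 m2 m3 pp ?_ ?_
    ((card_le_card sdiff_subset).trans ut) hN (by omega) (by omega) hD)
  · rw [card_fi hi, c1, c3]; omega
  · rw [card_fi hi, c2, c4]; omega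

/-- the induction hypothesis -/
def MXs (n N t s : ℕ) : Prop := ∀ (D : Finset (Fin n)) (b u v : V n) (H T U : Finset (V n)),
  Gn D b H T u v U → #(U.filter fun x => par x = par u) = #(U.filter fun x => par x = par v) →
  U.Nonempty → #U ≤ s → 50 * N ^ 2 + 100 + 5 * N + t + s ≤ #D → Rob (Po D b H T)

/-- both sides are neutral -/
theorem stepZ (hT : TMSt) {s : ℕ} (ih : MXs n N t s) (h : Gn D b H T u v U) (hj : j ∈ D)
    (hP : Inv (Po D b H T) P) (hS : SP (Po D b H T) P)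
    (bal : #(U.filter fun x => par x = par u) = #(U.filter fun x => par x = par v))
    (eq : #((U.filter fun x => par x = par u).filter (· j = u j)) =
      #((U.filter fun x => par x = par v).filter (· j = u j))) (us : #U ≤ s + 1) (ut : #U ≤ t)
    (sp : ∃ x ∈ U, ∃ y ∈ U, x j ≠ y j) (hN : (t + 1) ^ 2 + 10 ≤ N)
    (bu : 2 * N ^ 2 + 12 * N + 14 + 4 * t ≤ #(gd D P u j))
    (bv : 2 * N ^ 2 + 12 * N + 14 + 4 * t ≤ #(gd D P v j))
    (hD : 50 * N ^ 2 + 100 + 5 * N + t + s + 1 ≤ #D) : Good adp (Po D b H T) P := by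
  have h1 : fl u j ∈ Sub D b := fl_mem_Sub hj h.hu
  have hne : u j ≠ fl u j j := by rw [fl_apply_self]; exact (z2_ne _).symm
  generalize fl u j = b1 at h1 hne
  have pr := h.pr
  have a3 := card_erase_of_mem hj
  have s0 := TMx.card_sides (U.filter fun x => par x = par u) j hne
  have s1 := TMx.card_sides (U.filter fun x => par x = par v) j hne
  have s2 := TMx.card_sides U j hne
  have ne : ∀ e, (U.filter (· j = e)).Nonempty := fun e => by
    obtain ⟨x, hx, y, hy, c⟩ := sp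
    by_cases k : x j = e
    · exact ⟨x, mem_filter.mpr ⟨hx, k⟩⟩
    · exact ⟨y, mem_filter.mpr ⟨hy, (z2_two c fun e' => k e'.symm).symm⟩⟩
  have s3 := card_pos.mpr (ne (u j))
  set C := (U.filter fun x => par x = par v).filter (· j = u j) with dC
  have mC : ∀ z, z ∈ C ↔ (z ∈ U ∧ par z = par v) ∧ z j = u j := fun z => by simp [dC]
  obtain ⟨g, hg⟩ := card_pos.mp (by omega : 0 < #(D.erase j))
  obtain ⟨g1, g2⟩ := mem_erase.mp hg
  have CU : C ⊆ U := fun z hz => ((mC z).mp hz).1.1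
  have pI : ∀ z ∈ C.image (fl · g), z j = u j ∧ par z = par u := fun z hz => by
    obtain ⟨x, hx, rfl⟩ := mem_image.mp hz
    obtain ⟨⟨-, a1⟩, a2⟩ := (mC x).mp hx
    rw [par_fl, a1, fl_apply_ne x g1.symm]
    exact ⟨a2, z2_a pr.symm⟩
  have pp : ∀ z ∈ C.image (fl · g) ∪ U \ C, z j = u j → par z = par u := fun z hz e => by
    rcases mem_union.mp hz with k | k
    · exact (pI z k).2
    · obtain ⟨k1, k2⟩ := mem_sdiff.mp k
      exact z2_two pr.symm fun c => k2 ((mC z).mpr ⟨⟨k1, c⟩, e⟩)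
  obtain ⟨H', T', P', m1, m2, m3, m4, m5⟩ := h.prep (j := j) hP hS (fl · g) CU
    (fl_left_inj g).injOn (fun x hx => ⟨adj_fl _ _, fl_mem_Sub g2 (h.sub (CU hx))⟩)
    (fun p hp q hq e => by rw [(pI p hp).2, pp q hq (e ▸ (pI p hp).1)])
  have c1 : (U \ C).filter (· j = u j) = (U.filter fun x => par x = par u).filter (· j = u j) := by
    ext z
    simp only [mem_filter, mem_sdiff, mC]
    constructor
    · rintro ⟨⟨k1, k2⟩, k3⟩
      exact ⟨⟨k1, z2_two pr.symm fun c => k2 ⟨⟨k1, c⟩, k3⟩⟩, k3⟩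
    · rintro ⟨⟨k1, k2⟩, k3⟩
      exact ⟨⟨k1, fun c => pr (k2.symm.trans c.1.2)⟩, k3⟩
  have c2 : (U \ C).filter (· j = b1 j) = U.filter (· j = b1 j) := by
    ext z
    simp only [mem_filter, mem_sdiff, mC]
    exact ⟨fun k => ⟨k.1.1, k.2⟩, fun k => ⟨⟨k.1, fun c => hne (c.2.symm.trans k.2)⟩, k.2⟩⟩
  have d1 := m4 u
  have d2 := m4 v
  refine m5 (neutral (N := N) (t := t) hT hj h1 hne m1 m2 m3 (fun z hz => (pI z hz).1) pp ?_
    ((card_le_card sdiff_subset).trans ut) (fun q hq => h.f3 q (mem_sdiff.mp hq).1) hN (by omega)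
    (by omega) ?_ (by omega))
  · rw [card_image_of_injective _ (fl_left_inj g), c1, eq]
  · intro H2 u' v' k1 k2 k3 k4 k5 k6 k7
    refine ih _ _ u' v' _ _ _ ⟨k1, k2, fun z hz => ?_, k3, fun z hz => ?_, by rw [k4, k5]; exact pr,
      k6, k7, fun x hx y hy c => ?_⟩ ?_ (by rw [c2]; exact ne _) (by rw [c2]; omega) (by omega)
    · obtain ⟨a1, a2⟩ := mem_filter.mp hz
      exact (mem_Sub_erase h1 hj).mpr ⟨h.sub (mem_sdiff.mp a1).1, a2⟩
    · obtain ⟨a1, a2⟩ := (mem_Sub_erase h1 hj).mp hz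
      rw [m3.hT z a1, mem_filter]
      exact ⟨fun a => ⟨a, a2⟩, fun a => a.1⟩
    · obtain ⟨a1, a2⟩ := mem_filter.mp hx
      obtain ⟨a4, a5⟩ := mem_filter.mp hy
      exact (h.o3 x (mem_sdiff.mp a1).1 y (mem_sdiff.mp a4).1 c).trans
        (df_erase_eq D (a2.trans a5.symm))
    · rw [c2, k4, k5, filter_comm, filter_comm (fun x : V n => x j = b1 j)]
      omega

theorem mx_st (hF : FarSt) (hL : LinkSt) (hT : TMSt) : MXSt := by
  intro n N t D b u v H T U a1 a2 a3 a4 a5 a6 a7 a8 a9 a10 a11 a12 hN hD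
  suffices key : ∀ s ≤ t, MXs n N t s from
    key t le_rfl D b u v H T U ⟨a1, a2, a3, a4, a5, a6, a10, a11, a12⟩ a7 a8 a9 (by omega)
  intro s
  induction s with
  | zero =>
    intro _ D b u v H T U _ _ ne us _
    have := card_pos.mpr ne
    omega
  | succ s ih =>
    intro hs D b u v H T U h bal ne us hD P hP hS
    have pos : 0 < #(U.filter fun x => par x = par u) := by
      obtain ⟨x, hx⟩ := ne
      by_cases c : par x = par u
      · exact card_pos.mpr ⟨x, mem_filter.mpr ⟨hx, c⟩⟩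
      · rw [bal]
        exact card_pos.mpr ⟨x, mem_filter.mpr ⟨hx, z2_two h.pr c⟩⟩
    obtain ⟨x, hx⟩ := card_pos.mp pos
    obtain ⟨y, hy⟩ := card_pos.mp (bal ▸ pos)
    obtain ⟨x1, x2⟩ := mem_filter.mp hx
    obtain ⟨y1, y2⟩ := mem_filter.mp hy
    obtain ⟨j, hj, hb⟩ := exists_avoid (A := df D x y) (Bd := bk D P u ∪ bk D P v) (by
      have k1 := h.o3 x x1 y y1 (by rw [x2, y2]; exact h.pr)
      have k2 := card_union_le (bk D P u) (bk D P v)
      have k3 := bk_le (D := D) (P := P) u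
      have k4 := bk_le (D := D) (P := P) v
      omega)
    obtain ⟨j1, j2⟩ := mem_df.mp hj
    simp only [mem_union, bk, mem_filter, mem_univ, true_and, not_or, not_lt] at hb
    have sq : (t + 1) ^ 2 = t ^ 2 + 2 * t + 1 := by ring
    have k4 : N ≤ N ^ 2 := Nat.le_self_pow two_ne_zero N
    have bu : 2 * N ^ 2 + 12 * N + 14 + 4 * t ≤ #(gd D P u j) := by omega
    have bv : 2 * N ^ 2 + 12 * N + 14 + 4 * t ≤ #(gd D P v j) := by omega
    have h1 : fl u j ∈ Sub D b := fl_mem_Sub j1 h.hu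
    have hne : u j ≠ fl u j j := by rw [fl_apply_self]; exact (z2_ne _).symm
    have s0 := TMx.card_sides (U.filter fun x => par x = par u) j hne
    have s1 := TMx.card_sides (U.filter fun x => par x = par v) j hne
    rcases lt_trichotomy #((U.filter fun x => par x = par u).filter (· j = u j))
      #((U.filter fun x => par x = par v).filter (· j = u j)) with c | c | c
    · exact stepN (N := N) (t := t) hF hL hT h j1 h.hu h1 hne hP hS bal c (by omega) hN bu bv
        (by omega)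
    · exact stepZ (N := N) (t := t) hT (ih (by omega)) h j1 hP hS bal c us (by omega)
        ⟨x, x1, y, y1, j2⟩ hN bu bv (by omega)
    · exact stepN (N := N) (t := t) hF hL hT h j1 h1 h.hu hne.symm hP hS bal (by omega) (by omega)
        hN bu bv (by omega)

end Pool.Agent.Lib.MP_88ff4d_co.NP
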