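import Pool.Agent.Lib.MP_88ff4d_co.NP.MXSt
import Pool.Agent.Lib.MP_88ff4d_co.NP.Top

/-! Both ends covered: from the robust port system to the Hamilton path. -/

set_option autoImplicit false

namespace Pool.Agent.Lib.MP_88ff4d_co.NP

open Finset

namespace Top2x

variable {n : ℕ}

theorem par_ham (x y : V n) : par x + par y = (hammingDist x y : ZMod 2) := by
  rw [← par_add, par, hammingDist, card_filter, Nat.cast_sum]
  refine sum_congr rfl fun i _ => ?_
  show x i + y i = _
  generalize x i = a
  generalize y i = b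
  revert a b
  decide

theorem df_ham (p q : V n) : #(df univ p q) = hammingDist p q := by rw [hammingDist, df]

theorem three {x y : V n} (h : par x ≠ par y) (h' : ¬ adj x y) : 3 ≤ hammingDist x y := by
  have h0 : hammingDist x y ≠ 0 := fun e => h (by rw [hammingDist_eq_zero.mp e])
  have h1 : hammingDist x y ≠ 1 := fun e => h' ((adj_iff x y).mpr e)
  have h2 : hammingDist x y ≠ 2 := fun e => by
    have := par_ham x y
    rw [e] at this
    revert h this
    generalize par x = a
    generalize par y = b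
    revert a b
    decide
  omega

theorem bal (n0 : 0 < n) (μ : V n → V n) (hμ : ∀ x, μ (μ x) = x)
    (hadj : ∀ x, μ x ≠ x → adj x (μ x)) {u v : V n} (huv : par u ≠ par v) :
    #((univ.filter fun x => μ x = x).filter fun x => par x = par u) =
      #((univ.filter fun x => μ x = x).filter fun x => par x = par v) := by
  have i1 : Inv (univ.filter fun x => ¬ μ x = x) μ := fun x hx => by
    have h := (mem_filter.mp hx).2
    exact ⟨mem_filter.mpr ⟨mem_univ _, fun e => h (by rw [← e, hμ])⟩, h, hμ x⟩
  have e1 := i1.sum_eq_zero sg fun x hx => (hadj x (mem_filter.mp hx).2).sg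
  have e2 := sum_filter_add_sum_filter_not univ (fun x : V n => μ x = x) sg
  rw [Topx.sum_sg n0, e1, add_zero] at e2
  generalize (univ.filter fun x => μ x = x) = F at e2
  have e3 := sum_filter_add_sum_filter_not F (fun x => par x = par u) sg
  have e4 : F.filter (fun x => ¬ par x = par u) = F.filter fun x => par x = par v :=
    filter_congr fun x _ => ⟨Topx.par_eq huv.symm, fun e e' => huv (e'.symm.trans e)⟩
  have e5 : ∀ w : V n, ∑ x ∈ F.filter (fun x => par x = par w), sg x =
      #(F.filter fun x => par x = par w) * sg w := fun w => by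
    rw [sum_congr rfl (g := fun _ => sg w) fun x hx => by
      unfold sg; rw [(mem_filter.mp hx).2], sum_const, nsmul_eq_mul]
  rw [e4, e5, e5, e2, sg_of_ne huv] at e3
  have e6 : sg u ≠ 0 := by unfold sg; split_ifs <;> norm_num
  have e7 : (#(F.filter fun x => par x = par u) : ℤ) * sg u =
      #(F.filter fun x => par x = par v) * sg u := by linarith
  exact_mod_cast mul_right_cancel₀ e6 e7

end Top2x

open Top2x in
theorem top2_st (h : MXSt) : Top2St := by
  intro n k hn μ hμ hadj hk hex hna u v huv hd hf G hG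
  have hk1 : k + 3 ≤ (k + 3) ^ 4 := Nat.le_self_pow (by norm_num) _
  have n0 : 0 < n := by omega
  have hne : u ≠ v := fun e => huv (by rw [e])
  have cu : μ u ≠ u := fun e => by have := (hf u e).1; rw [hammingDist_self] at this; omega
  have cv : μ v ≠ v := fun e => by have := (hf v e).2; rw [hammingDist_self] at this; omega
  have cuv : μ u ≠ v := fun e => by
    have := (adj_iff _ _).mp (hadj u cu)
    rw [e] at this
    omega
  obtain ⟨S, s1, s2⟩ : ∃ S : Finset (V n × Bool), (∀ x, (x, true) ∈ S ↔ μ x ≠ x) ∧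
      ∀ x, (x, false) ∈ S ↔ x = u ∨ x = v :=
    ⟨univ.filter fun p => if p.2 = true then μ p.1 ≠ p.1 else p.1 = u ∨ p.1 = v,
      fun x => by simp, fun x => by simp⟩
  obtain ⟨R, r1, r2, r3⟩ : ∃ R : V n × Bool → V n × Bool, (∀ x, R (x, true) = (μ x, true)) ∧
      R (u, false) = (v, false) ∧ R (v, false) = (u, false) :=
    ⟨fun p => if p.2 = true then (μ p.1, true) else (if p.1 = u then v else u, false),
      fun x => by simp, by simp, by simp [hne.symm]⟩
  have hR : Inv S R := by
    rintro ⟨x, b⟩ hx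
    cases b
    · rcases (s2 x).mp hx with rfl | rfl
      · rw [r2, r3, s2]
        exact ⟨Or.inr rfl, fun e => hne (Prod.mk.inj e).1.symm, rfl⟩
      · rw [r3, r2, s2]
        exact ⟨Or.inl rfl, fun e => hne (Prod.mk.inj e).1, rfl⟩
    · have c := (s1 x).mp hx
      rw [r1, r1, s1, hμ]
      exact ⟨c.symm, fun e => c (Prod.mk.inj e).1, rfl⟩
  set T := univ.filter fun x : V n => μ x = x with hT
  have mT : ∀ x, x ∈ T ↔ μ x = x := fun x => by simp [hT]
  have mS : ∀ x : V n, x ∈ Sub univ (0 : V n) :=
    fun x => mem_Sub.mpr fun i hi => absurd (mem_univ i) hi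
  have ePo : univ \ S = Po univ 0 {u, v} T := by
    ext ⟨x, b⟩
    cases b <;> simp [Po, s1, s2, mT, mS]
  have hrob := h n ((k + 1) ^ 2 + 10) k univ 0 u v {u, v} T T (mS u) (mS v) (fun x _ => mS x)
    (fun z _ => by simp) (fun z _ => Iff.rfl) huv (bal n0 μ hμ hadj huv)
    (hex.imp fun x hx => (mT x).mpr hx) hk (by rwa [df_ham])
    (fun x hx => by rw [df_ham, df_ham]; exact hf x ((mT x).mp hx))
    (fun x hx y hy e => by
      rw [df_ham]; exact three e (hna x y ((mT x).mp hx) ((mT y).mp hy))) le_rfl (by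
    rw [card_univ, Fintype.card_fin]
    have a1 : k + 1 ≤ (k + 1) ^ 2 := Nat.le_self_pow (by norm_num) _
    have a2 : (k + 1) ^ 2 + 8 ≤ (k + 3) ^ 2 := by nlinarith
    have a3 : (k + 3) ^ 4 = (k + 3) ^ 2 * (k + 3) ^ 2 := by ring
    have a4 := Nat.mul_le_mul a2 a2
    rw [← a3] at a4
    generalize (k + 1) ^ 2 = a at *
    nlinarith)
  obtain ⟨P', p1, p2, p3⟩ := contract inv_sw (subset_univ S) hR (by
    intro A hA c1 c2
    rw [eq_empty_iff_forall_notMem]
    intro p hp
    have a1 := (s2 _).mp (hA (mem_false c1 hp false))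
    have a3 := c2 _ (mem_false c1 hp true)
    rw [r1] at a3
    have a4 : μ p.1 = u ∨ μ p.1 = v := (s2 _).mp (hA (mem_false c1 a3 false))
    rcases a1 with e | e <;> rw [e] at a4
    · exact a4.elim cu cuv
    · exact a4.elim (fun e' => cuv (by rw [← e', hμ])) cv)
  obtain ⟨R', q1, q2, q3⟩ := hrob P' (ePo ▸ p1) (by
    intro x hx
    rw [← ePo] at hx
    have a1 := (mem_sdiff.mp hx).2
    have a0 : μ x = x := not_not.mp fun e => a1 ((s1 x).mpr e)
    have a2 : (x, false) ∉ S := fun e => by
      rcases (s2 x).mp e with rfl | rfl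
      · exact cu a0
      · exact cv a0
    have a3 := p2 (univ.filter fun q => q.1 = x) (subset_univ _)
      (fun q hq => mem_filter.mpr ⟨mem_univ _, (mem_filter.mp hq).2⟩)
      (fun q hq hS => by
        obtain ⟨y, b⟩ := q
        obtain rfl : y = x := (mem_filter.mp hq).2
        cases b
        · exact absurd hS a2
        · exact absurd hS a1) (x, true) (mem_filter.mpr ⟨mem_univ _, rfl⟩) a1
    exact eq_sw (p := (x, true)) (mem_filter.mp a3).2 (p1 _ hx).2.1)
  rw [← ePo] at q1 q2 q3
  obtain ⟨g1, g2⟩ := p3 R' q1 q3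
  obtain ⟨W, W1, W2⟩ := path_of_ports G _ g1 g2 u v
    (by simp only [if_pos ((s2 u).mpr (Or.inl rfl)), r2]) (by
    rintro ⟨x, b⟩ h1 h2
    refine hG _ _ ?_
    by_cases e : (x, b) ∈ S
    · simp only [if_pos e]
      cases b
      · rcases (s2 x).mp e with rfl | rfl
        · exact absurd rfl h1
        · exact absurd rfl h2
      · rw [r1]; exact hadj x ((s1 x).mp e)
    · simp only [if_neg e]
      exact q2 _ (mem_sdiff.mpr ⟨mem_univ _, e⟩))
  refine ⟨W, W1, fun x hx => W2 x (μ x) ?_⟩
  simp only [if_pos ((s1 x).mpr hx), r1]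

end Pool.Agent.Lib.MP_88ff4d_co.NP
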