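import Pool.Agent.Lib.MP_88ff4d_co.NP.All
import Pool.Agent.Lib.MP_88ff4d_co.NP.MX4
import Pool.Agent.Lib.MP_88ff4d_co.NP.Top2

/-! Both ends covered: greedy extension to a maximal matching, assembly. -/

set_option autoImplicit false

namespace Pool.Agent.Lib.MP_88ff4d_co.NP

open Finset

theorem greedy {n : ℕ} (s : ℕ) : ∀ μ : V n → V n, (∀ x, μ (μ x) = x) →
    (∀ x, μ x ≠ x → adj x (μ x)) → #(univ.filter fun x => μ x = x) ≤ s →
    ∃ ν : V n → V n, (∀ x, ν (ν x) = x) ∧ (∀ x, ν x ≠ x → adj x (ν x)) ∧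
      (∀ x, μ x ≠ x → ν x = μ x) ∧ ∀ x y, ν x = x → ν y = y → ¬ adj x y := by
  induction s with
  | zero =>
    intro μ h1 h2 h3
    refine ⟨μ, h1, h2, fun _ _ => rfl, fun x _ hx _ _ => ?_⟩
    have := card_pos.mpr ⟨x, (mem_filter.mpr ⟨mem_univ x, hx⟩ : x ∈ univ.filter fun x => μ x = x)⟩
    omega
  | succ s ih =>
    intro μ h1 h2 h3
    by_cases c : ∀ x y, μ x = x → μ y = y → ¬ adj x y
    · exact ⟨μ, h1, h2, fun _ _ => rfl, c⟩
    push Not at c
    obtain ⟨a, b, ha, hb, hab⟩ := c
    have ne : b ≠ a := hab.ne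
    let μ' : V n → V n := fun x => if x = a then b else if x = b then a else μ x
    have e1 : μ' a = b := if_pos rfl
    have e2 : μ' b = a := (if_neg ne).trans (if_pos rfl)
    have e3 : ∀ x, x ≠ a → x ≠ b → μ' x = μ x := fun x k k' => (if_neg k).trans (if_neg k')
    have e4 : ∀ x, μ x ≠ x → x ≠ a ∧ x ≠ b := fun x k =>
      ⟨fun e => k (by rw [e, ha]), fun e => k (by rw [e, hb])⟩
    obtain ⟨ν, k1, k2, k3, k4⟩ := ih μ' (fun x => by
        by_cases d : x = a
        · rw [d, e1, e2]
        by_cases d' : x = b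
        · rw [d', e2, e1]
        rw [e3 x d d', e3 _ (fun e => d (by rw [← h1 x, e, ha]))
          (fun e => d' (by rw [← h1 x, e, hb])), h1]) (fun x hx => by
        by_cases d : x = a
        · rw [d, e1]; exact hab
        by_cases d' : x = b
        · rw [d', e2]; exact hab.symm
        rw [e3 x d d'] at hx ⊢
        exact h2 x hx) (by
        have k : (univ.filter fun x => μ' x = x) ⊆ (univ.filter fun x => μ x = x).erase a := by
          intro x hx
          have hx' := (mem_filter.mp hx).2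
          have d : x ≠ a := fun e => ne (by rw [e, e1] at hx'; exact hx')
          have d' : x ≠ b := fun e => ne (by rw [e, e2] at hx'; exact hx'.symm)
          exact mem_erase.mpr ⟨d, mem_filter.mpr ⟨mem_univ _, by rwa [e3 x d d'] at hx'⟩⟩
        have k' := card_le_card k
        have k2 : a ∈ univ.filter fun x => μ x = x := mem_filter.mpr ⟨mem_univ _, ha⟩
        rw [card_erase_of_mem k2] at k'
        omega)
    refine ⟨ν, k1, k2, fun x hx => ?_, k4⟩
    have d := e3 x (e4 x hx).1 (e4 x hx).2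
    rw [k3 x (by rwa [d]), d]

theorem gen_st (h : Top2St) : GenSt := by
  intro n k hn G hG M hM hk hnp u v huv hadj hfar
  classical
  let μ : V n → V n := fun x => if h : x ∈ M.verts then (hM h).exists.choose else x
  have n1 : ∀ x ∈ M.verts, M.Adj x (μ x) := by
    intro x h
    simp only [μ, dif_pos h]
    exact (hM h).exists.choose_spec
  have n0 : ∀ x ∉ M.verts, μ x = x := fun x h => dif_neg h
  have n2 : ∀ x y, M.Adj x y → μ x = y := fun x y hxy =>
    (hM (M.edge_vert hxy)).unique (n1 x (M.edge_vert hxy)) hxy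
  have n3 : ∀ x, μ (μ x) = x := by
    intro x
    by_cases h : x ∈ M.verts
    · exact n2 _ _ (n1 x h).symm
    · rw [n0 x h, n0 x h]
  have ga : ∀ x y, adj x y ↔ G.Adj x y := fun x y => (adj_iff x y).trans (hG x y).symm
  obtain ⟨ν, k1, k2, k3, k4⟩ := greedy _ μ n3 (fun x hx =>
    (ga _ _).mpr (n1 x (by_contra fun h' => hx (n0 x h'))).adj_sub) le_rfl
  have k5 : ∀ x y, M.Adj x y → ν x = y := fun x y hxy => by
    rw [k3 x (by rw [n2 x y hxy]; exact hxy.ne.symm), n2 x y hxy]
  have k6 : ∀ x, ν x = x → x ∉ M.verts := fun x hx c => (n1 x c).ne (hx.symm.trans (k5 _ _ (n1 x c)))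
  obtain ⟨w, w1, w2⟩ := h n k hn ν k1 k2 (by
      rw [Set.ncard_eq_toFinset_card'] at hk
      refine le_trans (card_le_card (t := M.vertsᶜ.toFinset) fun x hx => ?_) hk
      rw [Set.mem_toFinset]
      exact k6 x (mem_filter.mp hx).2)
    (by
      by_contra c
      push Not at c
      refine hnp ⟨Set.univ, fun x y => ν x = y, fun {x y} e => e ▸ (ga _ _).mp (k2 x (c x)),
        fun _ => Set.mem_univ _, ⟨fun x y e => by rw [← e, k1]⟩⟩
        ⟨fun x _ => ⟨ν x, rfl, fun y e => Eq.symm e⟩, fun _ => Set.mem_univ _⟩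
        ⟨Set.subset_univ _, fun x y e => k5 x y e⟩) k4 u v huv
    (Top2x.three huv fun c => hadj ((ga _ _).mp c)) (fun x hx => hfar x (k6 x hx)) G
    fun x y c => (ga x y).mp c
  refine ⟨w, w1, fun e he => ?_⟩
  induction e using Sym2.ind with
  | _ y z =>
    have k := k5 y z he
    exact k ▸ w2 y (k ▸ (SimpleGraph.Subgraph.Adj.ne he).symm)

theorem gen_of (h5 : SQ5St) : GenSt :=
  have sq := sq_st (sq5g_st h5)
  have sqm := sqm_st sq far_st link_st
  gen_st (top2_st (mx_st far_st link_st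
    (tm_st sqm (t1_st sqm (cl_st sq) far_st link_st) far_st cnt_st link_st)))

end Pool.Agent.Lib.MP_88ff4d_co.NP
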