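import Pool.Agent.Lib.MP_88ff4d_co.NP.AD4

/-! One free end: configurations of holes and targets, conversions. -/

set_option autoImplicit false

namespace Pool.Agent.Lib.MP_88ff4d_co.NP

open Finset

variable {n : ℕ} {D : Finset (Fin n)} {b b0 b1 : V n} {H T X U C : Finset (V n)}
  {P : V n × Bool → V n × Bool} {j : Fin n} {N t : ℕ}

/-- holes `X`, targets `U`; targets of different parity are not adjacent -/
structure Cg (D : Finset (Fin n)) (b : V n) (H T X U : Finset (V n)) : Prop where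
  sX : X ⊆ Sub D b
  sU : U ⊆ Sub D b
  hH : ∀ z ∈ Sub D b, z ∈ H ↔ z ∈ X
  hT : ∀ z ∈ Sub D b, z ∈ T ↔ z ∈ U
  dj : Disjoint X U
  o3 : ∀ x ∈ U, ∀ y ∈ U, par x ≠ par y → 3 ≤ #(df D x y)

/-- a reduction that changes at most `κ` values -/
def Rd (D : Finset (Fin n)) (b : V n) (H T : Finset (V n)) (P : V n × Bool → V n × Bool)
    (H' T' : Finset (V n)) (P' : V n × Bool → V n × Bool) (κ : ℕ) : Prop :=
  Inv (Po D b H' T') P' ∧ SP (Po D b H' T') P' ∧
    (∃ K : Finset (V n × Bool), #K ≤ κ ∧ ∀ p ∉ K, P' p = P p) ∧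
    (Good adp (Po D b H' T') P' → Good adp (Po D b H T) P)

theorem Rd.gd_le {H' T' : Finset (V n)} {P' : V n × Bool → V n × Bool} {κ : ℕ}
    (h : Rd D b H T P H' T' P' κ) (A : Finset (Fin n)) (x : V n) (l : Fin n) :
    #(gd A P x l) ≤ #(gd A P' x l) + κ := by
  obtain ⟨K, k1, k2⟩ := h.2.2.1
  have := gd_change (D := A) k2 x l
  omega

theorem Cg.nU (h : Cg D b H T X U) {x z : V n} (hx : x ∈ U) (a : adj x z) : z ∉ U := fun c => by
  have a1 := h.o3 _ c x hx a.par_ne.symm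
  have a2 := df_adj D z a
  rw [df_self] at a2
  omega

theorem Cg.conv (h : Cg D b H T X U) (hP : Inv (Po D b H T) P) (hS : SP (Po D b H T) P)
    (w : V n → V n) (hC : C ⊆ U) (hi : Set.InjOn w C)
    (hw : ∀ x ∈ C, adj x (w x) ∧ w x ∈ Sub D b ∧ w x ∉ X) :
    ∃ H' T' P', Cg D b H' T' (X ∪ C.image w) (U \ C) ∧ Rd D b H T P H' T' P' (4 * #C) := by
  obtain ⟨P', m1, m2, m3, m5⟩ := convAll hP hS w C hi fun x hx =>
    ⟨h.sU (hC hx), (h.hT x (h.sU (hC hx))).mpr (hC hx), (hw x hx).1, (hw x hx).2.1,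
      fun c => (hw x hx).2.2 ((h.hH _ (hw x hx).2.1).mp c),
      fun c => h.nU (hC hx) (hw x hx).1 ((h.hT _ (hw x hx).2.1).mp c)⟩
  refine ⟨_, _, P', ⟨union_subset h.sX fun z hz => ?_, sdiff_subset.trans h.sU, fun z hz => ?_,
    fun z hz => ?_, disjoint_left.mpr fun z k k' => ?_,
    fun x hx y hy => h.o3 x (mem_sdiff.mp hx).1 y (mem_sdiff.mp hy).1⟩, m1, m2, m3, m5⟩
  · obtain ⟨x, hx, rfl⟩ := mem_image.mp hz
    exact (hw x hx).2.1
  · rw [mem_union, mem_union, h.hH z hz]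
  · rw [mem_sdiff, mem_sdiff, h.hT z hz]
  · rcases mem_union.mp k with k | k
    · exact disjoint_left.mp h.dj k (mem_sdiff.mp k').1
    · obtain ⟨x, hx, rfl⟩ := mem_image.mp k
      exact h.nU (hC hx) (hw x hx).1 (mem_sdiff.mp k').1

/-- targets cross direction `j` -/
theorem Cg.cross (h : Cg D b H T X U) (hP : Inv (Po D b H T) P) (hS : SP (Po D b H T) P)
    (hj : j ∈ D) (hC : C ⊆ U) (hw : ∀ x ∈ C, fl x j ∉ X) :
    ∃ H' T' P' I, Cg D b H' T' (X ∪ I) (U \ C) ∧ Rd D b H T P H' T' P' (4 * #C) ∧ #I = #C ∧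
      Disjoint X I ∧ ∀ z ∈ I, ∃ x ∈ C, z = fl x j := by
  have hi : Set.InjOn (fun x => fl x j) C := fun _ _ _ _ e => fl_left_inj j e
  obtain ⟨H', T', P', k1, k2⟩ := h.conv hP hS (fun x => fl x j) hC hi
    fun x hx => ⟨adj_fl _ _, fl_mem_Sub hj (h.sU (hC hx)), hw x hx⟩
  refine ⟨H', T', P', _, k1, k2, card_image_of_injOn hi, disjoint_right.mpr fun z hz => ?_,
    fun z hz => ?_⟩ <;> obtain ⟨x, hx, rfl⟩ := mem_image.mp hz
  · exact hw x hx
  · exact ⟨x, hx, rfl⟩

/-- targets are converted along a common generic direction -/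
theorem Cg.gen (h : Cg D b H T X U) (hP : Inv (Po D b H T) P) (hS : SP (Po D b H T) P)
    (j : Fin n) (hC : C ⊆ U) {v : V n} (hv : v ∈ Sub D b) (vU : v ∉ U)
    (hD : #C * (#X + 2) + 1 < #D) :
    ∃ H' T' P' I g, g ≠ j ∧ Cg D b H' T' (X ∪ I) (U \ C) ∧ Rd D b H T P H' T' P' (4 * #C) ∧
      I = C.image (fun x => fl x g) ∧ Disjoint X I ∧ ∀ z ∈ I, 2 ≤ #(df D v z) := by
  let f : V n → Finset (Fin n) := fun x => if #(df D x v) ≤ 2 then df D x v else ∅
  obtain ⟨g, hg, hb⟩ := exists_avoid (A := D) (Bd := insert j (C.biUnion fun x =>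
      (univ.filter fun g => fl x g ∈ X) ∪ f x)) (by
    have a1 := card_biUnion_le_card_mul C (fun x => (univ.filter fun g => fl x g ∈ X) ∪ f x)
      (#X + 2) fun x _ => (card_union_le _ _).trans (Nat.add_le_add (card_hitV X x) (by
        simp only [f]
        split_ifs with c
        · exact c
        · simp))
    exact lt_of_le_of_lt (card_insert_le _ _) (by omega))
  simp only [mem_insert, mem_biUnion, mem_union, mem_filter, mem_univ, true_and, not_or,
    not_exists, not_and] at hb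
  obtain ⟨H', T', P', k1, k2⟩ := h.conv hP hS (fun x => fl x g) hC
    (fun _ _ _ _ e => fl_left_inj g e)
    fun x hx => ⟨adj_fl _ _, fl_mem_Sub hg (h.sU (hC hx)), (hb.2 x hx).1⟩
  refine ⟨H', T', P', _, g, hb.1, k1, k2, rfl, disjoint_right.mpr fun z hz => ?_,
    fun z hz => ?_⟩ <;> obtain ⟨x, hx, rfl⟩ := mem_image.mp hz
  · exact (hb.2 x hx).1
  · rw [df_comm]
    exact df_fl hg (df_pos (h.sU (hC hx)) hv fun e => vU (e ▸ hC hx))
      fun c hh => (hb.2 x hx).2 (by simp only [f, if_pos c]; exact hh)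

theorem Cg.side (h : Cg D b H T X U) (hj : j ∈ D) (h0 : b0 ∈ Sub D b) {X0 U0 : Finset (V n)}
    (mX : ∀ z, z ∈ X0 ↔ z ∈ X ∧ z j = b0 j) (mU : ∀ z, z ∈ U0 ↔ z ∈ U ∧ z j = b0 j) :
    Cg (D.erase j) b0 H T X0 U0 where
  sX z hz := (mem_Sub_erase h0 hj).mpr ⟨h.sX ((mX z).mp hz).1, ((mX z).mp hz).2⟩
  sU z hz := (mem_Sub_erase h0 hj).mpr ⟨h.sU ((mU z).mp hz).1, ((mU z).mp hz).2⟩
  hH z hz := by
    obtain ⟨k1, k2⟩ := (mem_Sub_erase h0 hj).mp hz
    rw [h.hH z k1, mX]
    exact ⟨fun c => ⟨c, k2⟩, fun c => c.1⟩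
  hT z hz := by
    obtain ⟨k1, k2⟩ := (mem_Sub_erase h0 hj).mp hz
    rw [h.hT z k1, mU]
    exact ⟨fun c => ⟨c, k2⟩, fun c => c.1⟩
  dj := h.dj.mono (fun z hz => ((mX z).mp hz).1) fun z hz => ((mU z).mp hz).1
  o3 x hx y hy e := (h.o3 x ((mU x).mp hx).1 y ((mU y).mp hy).1 e).trans
    (df_erase_eq D (((mU x).mp hx).2.trans ((mU y).mp hy).2.symm))

theorem Cg.ok (h : Cg D b H T X U)
    (sep : ∀ p ∈ X, ∀ q ∈ X ∪ U, par p ≠ par q → 2 ≤ #(df D p q)) (j : Fin n) :
    Ok D b H T (cfE X U j) :=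
  okE (D := D) (union_subset h.sX h.sU) h.hH h.hT h.dj fun p hp q hq e => by
    rcases mem_union.mp hp with k | k
    · exact sep p k q hq e
    rcases mem_union.mp hq with k' | k'
    · rw [df_comm]; exact sep q k' p hp e.symm
    · exact le_trans (by norm_num) (h.o3 p k q k' e)

theorem Cg.ok1 (h : Cg D b H T X U) {π : ZMod 2} (hp : ∀ z ∈ X ∪ U, par z = π) (j : Fin n) :
    Ok D b H T (cfE X U j) :=
  h.ok (fun p k q k' e => absurd ((hp p (mem_union_left _ k)).trans (hp q k').symm) e) j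

theorem Cg.addH (h : Cg D b H T X U) {x : V n} (hx : x ∈ Sub D b) (xU : x ∉ U)
    {H' : Finset (V n)} (e : ∀ z ∈ Sub D b, z ∈ H' ↔ z = x ∨ z ∈ H) :
    Cg D b H' T (insert x X) U :=
  ⟨insert_subset hx h.sX, h.sU, fun z hz => by rw [e z hz, h.hH z hz, mem_insert], h.hT,
    disjoint_insert_left.mpr ⟨xU, h.dj⟩, h.o3⟩

theorem Cg.even (h : Cg D b H T X U) (hD : 1 ≤ #D) :
    Even #(Po D b H T) ↔ Even (#X + #U) := by
  have e : Po D b H T = (Sub D b \ X).image (fun z => (z, false)) ∪ U.image fun z => (z, true) := by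
    ext ⟨z, e⟩
    cases e
    · simp only [mem_Po_f, mem_union, mem_image, Prod.mk.injEq, and_true, exists_eq_right,
        mem_sdiff, Bool.true_eq_false, and_false, exists_false, or_false]
      exact and_congr_right fun k => by rw [h.hH z k]
    · simp only [mem_Po_t, mem_union, mem_image, Prod.mk.injEq, Bool.false_eq_true, and_false,
        exists_false, and_true, exists_eq_right, false_or]
      exact ⟨fun k => (h.hT z k.1).mp k.2, fun k => ⟨h.sU k, (h.hT z (h.sU k)).mpr k⟩⟩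
  have h1 := card_sdiff_add_card_eq_card h.sX
  rw [card_Sub] at h1
  rw [e, card_union_of_disjoint (by simp [disjoint_left]),
    card_image_of_injective _ fun _ _ k => congrArg Prod.fst k,
    card_image_of_injective _ fun _ _ k => congrArg Prod.fst k]
  obtain ⟨d, hd⟩ : ∃ d, #D = d + 1 := ⟨#D - 1, by omega⟩
  rw [hd, pow_succ] at h1
  simp only [Nat.even_iff]
  omega

theorem bud (hN : (t + 1) ^ 2 + 10 ≤ N) {a c : ℕ} (ha : a ≤ t) (hc : c ≤ t + 4) :
    a * (c + 2) + 1 < 50 * N ^ 2 := by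
  have k1 : a * (c + 2) ≤ t * (t + 6) := Nat.mul_le_mul ha (by omega)
  nlinarith

/-- holes of one parity -/
theorem robO (hT : TMSt) (h : Cg D b H T X U) {π : ZMod 2} (hp : ∀ z ∈ X, par z = π)
    (e : #X + #(U.filter fun z => ¬ par z = π) = #(U.filter fun z => par z = π)) (ut : #U ≤ t)
    (hN : (t + 1) ^ 2 + 10 ≤ N) (hD : 50 * N ^ 2 + 100 + 5 * N + t ≤ #D) : Rob (Po D b H T) := by
  intro P hP hS
  have a0 := card_filter_add_card_filter_not (s := U) (fun z => par z = π)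
  obtain ⟨j, -⟩ := card_pos.mp (by omega : 0 < #D)
  obtain ⟨v, hv, vU⟩ : ∃ v ∈ Sub D b, v ∉ U := by
    by_contra c
    push Not at c
    have k1 := card_le_card (show Sub D b ⊆ U from c)
    rw [card_Sub] at k1
    have := Nat.lt_two_pow_self (n := #D)
    omega
  obtain ⟨H', T', P', I, g, -, k1, k2, rfl, k4, -⟩ := h.gen hP hS j
    (filter_subset (fun z => ¬ par z = π) U) hv vU (by
      have := bud hN (a := #(U.filter fun z => ¬ par z = π)) (c := #X) (by omega) (by omega)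
      omega)
  have e1 : U \ U.filter (fun z => ¬ par z = π) = U.filter fun z => par z = π := by
    ext z; simp only [mem_sdiff, mem_filter]; tauto
  rw [e1] at k1
  have pp : ∀ z ∈ X ∪ (U.filter fun z => ¬ par z = π).image (fun x => fl x g) ∪
      U.filter fun z => par z = π, par z = π := fun z hz => by
    rcases mem_union.mp hz with k | k
    · rcases mem_union.mp k with k | k
      · exact hp z k
      · obtain ⟨x, hx, rfl⟩ := mem_image.mp k
        rw [par_fl]; exact z2_a (mem_filter.mp hx).2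
    · exact (mem_filter.mp k).2
  refine k2.2.2.2 (hT n N t D b H' T' _ π (k1.ok1 pp j) pp ?_ ?_ (by simp [cfE]; omega) hD P'
    k2.1 k2.2.1)
  · show #(X ∪ _) = _
    rw [card_union_of_disjoint k4, card_image_of_injective _ (fl_left_inj g)]
    exact e
  · show #(U.filter _) ≤ t
    omega

/-- neighbours of `x` on its side whose partner lies across `j` -/
def cn (D : Finset (Fin n)) (P : V n × Bool → V n × Bool)
    (x : V n) (j : Fin n) : Finset (Fin n) :=
  (D.erase j).filter fun l => (P (fl x l, false)).1 j ≠ x j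

theorem cn_gd (x : V n) (hj : j ∈ D) : #D ≤ #(gd D P x j) + #(cn D P x j) + 1 := by
  have k : D.erase j ⊆ gd D P x j ∪ cn D P x j := fun l hl => by
    obtain ⟨c1, c2⟩ := mem_erase.mp hl
    by_cases c : (P (fl x l, false)).1 j = x j
    · refine mem_union_left _ (mem_filter.mpr ⟨c2, c1, fun e => ?_⟩)
      rw [e] at c
      simp only [fl_apply_self, fl_apply_ne x c1.symm] at c
      exact z2_ne _ c
    · exact mem_union_right _ (mem_filter.mpr ⟨hl, c⟩)
  have := card_le_card k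
  have := card_union_le (gd D P x j) (cn D P x j)
  have := card_erase_add_one hj
  omega

theorem cn_change {P' : V n × Bool → V n × Bool} {K : Finset (V n × Bool)}
    (h : ∀ p ∉ K, P' p = P p) (x : V n) :
    #(cn D P x j) ≤ #(cn D P' x j) + #K := by
  have k : cn D P x j ⊆ cn D P' x j ∪
      univ.filter fun g : Fin n => (fl x g, false) ∈ K := fun l hl => by
    by_cases c : (fl x l, false) ∈ K
    · exact mem_union_right _ (mem_filter.mpr ⟨mem_univ _, c⟩)
    · exact mem_union_left _ (mem_filter.mpr ⟨(mem_filter.mp hl).1, by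
        rw [h _ c]; exact (mem_filter.mp hl).2⟩)
  have := card_le_card k
  have := card_union_le (cn D P' x j) (univ.filter fun g : Fin n => (fl x g, false) ∈ K)
  have := card_hit K x
  omega

end Pool.Agent.Lib.MP_88ff4d_co.NP
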