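import Pool.Agent.Lib.MP_88ff4d_co.NP.K1

/-! One free end: moves to an arbitrary side, marked holes, two sides of one parity. -/

set_option autoImplicit false

namespace Pool.Agent.Lib.MP_88ff4d_co.NP

open Finset

variable {n : ℕ} {D : Finset (Fin n)} {b b0 b1 : V n} {H T X U C : Finset (V n)}
  {P : V n × Bool → V n × Bool} {j : Fin n} {N t : ℕ} {u v : V n}

/-- a hole crosses to a side that is only known to be robust -/
theorem mvR (hT : TMSt) (hj : j ∈ D) (h0 : b0 ∈ Sub D b) (h1 : b1 ∈ Sub D b) (hne : b0 j ≠ b1 j)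
    (hP : Inv (Po D b H T) P) (hS : SP (Po D b H T) P) {c0 : Cf n}
    (O0 : Ok (D.erase j) b0 H T c0) {x : V n} (hx : x ∈ c0.X) {π0 : ZMod 2}
    (p0 : ∀ z ∈ c0.X.erase x ∪ c0.U, par z = π0) (e0 : #c0.X = #c0.U + 1) (u0 : #c0.U ≤ t)
    (y0 : #c0.Y ≤ 1) (B1 : Finset (V n))
    (hB : ∀ z ∈ Sub (D.erase j) b1, z ∈ H ∨ z ∈ T → z ∈ B1) (n1 : #B1 ≤ N)
    (cr : ∀ q ∈ B1, 1 ≤ #(df (D.erase j) x q)) (i : Fin n) (hN : (t + 1) ^ 2 + 10 ≤ N)
    (big : 2 * N ^ 2 + 12 * N + 14 ≤ #(gd D P x j))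
    (hD : 50 * N ^ 2 + 100 + 5 * N + t + 1 ≤ #D)
    (hR : ∀ x' H', x' ∈ Sub (D.erase j) b1 → par x' = par x → (i ≠ j → x' i = x i) →
      (∀ q ∈ B1, 2 ≤ #(df (D.erase j) x' q) ∧
        (2 ≤ #(df (D.erase j) x q) → 3 ≤ #(df (D.erase j) x' q))) →
      (∀ z ∈ Sub (D.erase j) b1, z ∈ H' ↔ z = x' ∨ z ∈ H) → Rob (Po (D.erase j) b1 H' T)) :
    Good adp (Po D b H T) P := by
  have g2 := card_erase_of_mem hj
  have sq : (t + 1) ^ 2 = t ^ 2 + 2 * t + 1 := by ring
  have b0' := card_B_le (c := c0)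
  have k4 : N ≤ N ^ 2 := Nat.le_self_pow two_ne_zero N
  obtain ⟨p, p1, -, p2⟩ := cross_of_odd hj h0 hP (by
    rw [O0.even_iff (by omega), Nat.even_iff]; omega)
  obtain ⟨p3, -, p4⟩ := hP p p1
  have hF : ({p, P p} : Finset (V n × Bool)) ⊆ Po D b H T :=
    insert_subset p1 (singleton_subset_iff.mpr p3)
  have hc : Cl ({p, P p} : Finset (V n × Bool)) P := fun z hz => by
    rcases mem_insert.mp hz with rfl | hz
    · simp
    · rw [mem_singleton.mp hz, p4]; simp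
  have hF2 : #({p, P p} : Finset (V n × Bool)) ≤ 2 := card_le_two
  have hp : p ∈ ({p, P p} : Finset (V n × Bool)) := by simp
  generalize ({p, P p} : Finset (V n × Bool)) = F at hF hc hF2 hp
  obtain ⟨Z, z1, z2, z3⟩ := O0.prot
  have s0 := card_Sg_le (c := c0)
  have z4 : #Z ≤ 2 * N ^ 2 := z2.trans (Nat.mul_le_mul_left _ (Nat.pow_le_pow_left (by omega) 2))
  set A := D.erase j with hA
  set Bd := B1.biUnion fun q => if #(df A x q) ≤ 3 then df A x q else ∅ with hBd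
  have d1 : #Bd ≤ #B1 * 3 := card_biUnion_le_card_mul _ _ 3 fun q _ => by
    split_ifs with c
    · exact c
    · simp
  obtain ⟨l, hl, hb⟩ := exists_avoid (A := gd D P x j) (Bd := Z ∪ c0.Sg ∪ insert i Bd ∪
      bk A P x ∪ (univ.filter fun g => (fl x g, false) ∈ F) ∪
      univ.filter fun g => (fl (fl x j) g, false) ∈ F) (by
    have h1 := card_hit F x
    have h2 := card_hit F (fl x j)
    have h3 := bk_le (D := A) (P := P) x
    refine lt_of_le_of_lt ((card_union_le _ _).trans (Nat.add_le_add ((card_union_le _ _).trans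
      (Nat.add_le_add ((card_union_le _ _).trans (Nat.add_le_add ((card_union_le _ _).trans
      (Nat.add_le_add (card_union_le _ _) (card_insert_le _ _))) h3)) h1)) h2)) (by omega))
  simp only [mem_union, mem_insert, mem_filter, mem_univ, true_and, not_or, bk, not_lt] at hb
  obtain ⟨⟨⟨⟨⟨b1', b2⟩, b8, b4⟩, b5⟩, b6⟩, b7⟩ := hb
  obtain ⟨l1, l2, l3⟩ := mem_filter.mp hl
  have l4 : l ∈ A := mem_erase.mpr ⟨l2, l1⟩
  have hxS : x ∈ Sub A b0 := O0.sub (mem_B.mpr (Or.inl hx))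
  have a1 : fl x l ∈ Sub A b0 := fl_mem_Sub l4 hxS
  obtain ⟨a2, a3⟩ := (mem_Sub_erase h0 hj).mp a1
  have a4 := O0.near z1 z3 hx a1 (fl_ne x l) fun i hi => fl_apply_ne x fun e => b1' (e ▸ hi)
  have e1 : fl (fl x l) j j = b1 j := by
    rw [fl_apply_self, a3]
    exact z2_two hne (z2_ne _)
  have e2 : fl (fl x l) j ∈ Sub A b1 := (mem_Sub_erase h1 hj).mpr ⟨fl_mem_Sub hj a2, e1⟩
  have far : ∀ q ∈ B1, ∀ d ≤ 2, d ≤ #(df A x q) → d + 1 ≤ #(df A (fl (fl x l) j) q) := by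
    intro q hq d hd hqx
    rw [df_congr (p' := fl x l) fun i hi => fl_apply_ne _ (mem_erase.mp hi).1]
    refine df_fl3 l4 hd hqx fun c hh => b4 ?_
    exact mem_biUnion.mpr ⟨q, hq, by rw [if_pos c]; exact hh⟩
  have f0 : fl (fl x l) j ∉ B1 := fun c => by
    have := far _ c 1 one_le_two (cr _ c)
    rw [df_self] at this
    omega
  obtain ⟨P1, R1⟩ := edgeR hP hS a2 (fl_mem_Sub hj a2) a4
    ⟨fun c => f0 (hB _ e2 (Or.inl c)), fun c => f0 (hB _ e2 (Or.inr c))⟩ (adj_fl _ _) l3 hF hc b6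
    (by rwa [fl_comm])
  have g1 := R1.gd_le A x l
  obtain ⟨m, H', P', -, K0, k2, R2⟩ := closeSq hj h0 R1.1 R1.2.1 O0 z1 z3 hx
    (mem_sdiff.mpr ⟨l4, b2⟩) b1' (fun z hz => by
      simp only [mem_insert]
      refine ⟨fun h => h.elim Or.inl fun h => h.elim (fun e => absurd ?_ hne) Or.inr,
        fun h => h.elim Or.inl fun h => Or.inr (Or.inr h)⟩
      rw [← e1, ← e, ((mem_Sub_erase h0 hj).mp hz).2]) R1.2.2.2.1 (R1.cl hc) ∅
      (by rw [← hA, card_empty]; omega)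
  have R := R1.trans R2
  have x3 : #(c0.toSq x l m).Y ≤ #c0.Y + 1 := card_insert_le _ _
  have x8 := card_erase_add_one hx
  have x9 : #(c0.toSq x l m).X = #(c0.toSq x l m).U := by
    show #(c0.X.erase x) = #c0.U
    omega
  refine R.2.2.2.2 (split hj h0 h1 hne R.1 R.2.1 ((K0.even_iff (by rw [← hA]; omega)).mpr
    ⟨_, by rw [x9]⟩) ⟨p, R.2.2.2.1 hp, by rw [R.eq p hp]; exact p2⟩
    (hT n N t _ _ _ _ _ π0 K0 p0 x9 u0 (by omega) (by rw [← hA]; omega))
    (hR _ H' e2 ?_ (fun c => ?_) (fun q hq => ⟨far q hq 1 one_le_two (cr q hq),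
      far q hq 2 le_rfl⟩) fun z hz => ?_))
  · rw [par_fl, par_fl, add_assoc]
    simp [CharTwo.add_self_eq_zero]
  · rw [fl_apply_ne _ c, fl_apply_ne x fun e => b8 e.symm]
  · have c := ((mem_Sub_erase h1 hj).mp hz).2
    rw [k2 z (by rw [c]; exact hne.symm)]
    simp only [mem_insert]
    exact ⟨fun h => h.elim (fun e => absurd (by rw [← a3, ← e, c]) hne) id, Or.inr⟩

/-- two holes alone on a side, one of them with two neighbours paired across -/
theorem thA (hF : FarSt) (hL : LinkSt) (hT : TMSt) (hj : j ∈ D) (hu : u ∈ Sub D b)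
    (hv : v ∈ Sub D b) (e : u j = v j) (pr : par u ≠ par v) (uv : 3 ≤ #(df D u v))
    (h1 : b1 ∈ Sub D b) (hne : v j ≠ b1 j) (hP : Inv (Po D b H T) P) (hS : SP (Po D b H T) P)
    (hH : ∀ z ∈ Sub (D.erase j) v, z ∈ H ↔ z = u ∨ z = v) (hT' : ∀ z ∈ Sub (D.erase j) v, z ∉ T)
    (c2 : 2 ≤ #(cn D P v j)) (hR : Rob (Po (D.erase j) b1 H T)) (hD : 4001 ≤ #D) :
    Good adp (Po D b H T) P := by
  obtain ⟨m, hm, m', hm', mm⟩ := one_lt_card.mp c2
  have vS : v ∈ Sub (D.erase j) v := (mem_Sub_erase hv hj).mpr ⟨hv, rfl⟩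
  have uS : u ∈ Sub (D.erase j) v := (mem_Sub_erase hv hj).mpr ⟨hu, e⟩
  have g := card_erase_of_mem hj
  have k : ∀ l ∈ cn D P v j, (fl v l, false) ∈ Po (D.erase j) v H T ∧
      P (fl v l, false) ∉ Po (D.erase j) v H T := fun l hl => by
    obtain ⟨a1, a2⟩ := mem_filter.mp hl
    have a3 := fl_mem_Sub a1 vS
    refine ⟨mem_Po_f.mpr ⟨a3, fun c => ((hH _ a3).mp c).elim (fun c => ?_) (fl_ne v l)⟩,
      fun c => a2 ((mem_side hv hj).mp c).2⟩
    have := df_adj D u (adj_fl v l)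
    rw [c, df_self] at this
    omega
  have cg : Cg (D.erase j) v H T {u, v} ∅ := ⟨insert_subset uS (singleton_subset_iff.mpr vS),
    empty_subset _, fun z hz => by rw [hH z hz]; simp, fun z hz => by simpa using hT' z hz,
    disjoint_empty_right _, fun x hx => absurd hx (notMem_empty x)⟩
  obtain ⟨P0, q1, q2, q3⟩ := exists_P0' hP (side_sub hv hj) ((cg.even (by omega)).mpr (by
      rw [card_pair fun c => pr (by rw [c])]; simp)) (k m hm).1 (k m' hm').1
    (fun c => mm (fl_inj v (congrArg Prod.fst c))) (k m hm).2 (k m' hm').2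
  refine splitQ hj hv h1 hne hP hS q2 (fun _ => th hF hL hT (D.erase j) v u H P0 uS vS pr hH hT'
    (mem_filter.mp hm).1 (mem_filter.mp hm').1 q1 (k m hm).1 q3 ?_)
    ⟨_, side_sub hv hj (k m hm).1, ?_⟩ hR
  · have : #(df (D.erase j) u v) ≤ #(D.erase j) := card_filter_le _ _
    omega
  · simp only [fl_apply_ne v (mem_erase.mp (mem_filter.mp hm).1).1.symm]
    exact (mem_filter.mp hm).2

theorem card_side {X I : Finset (V n)} (dj : Disjoint X I) (e : ZMod 2) :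
    #((X ∪ I).filter (· j = e)) = #(X.filter (· j = e)) + #(I.filter (· j = e)) := by
  rw [filter_union, card_union_of_disjoint (dj.mono (filter_subset _ _) (filter_subset _ _))]

/-- on each side the holes have one parity -/
theorem mxO (hF : FarSt) (hL : LinkSt) (hT : TMSt) (h : Cg D b H T X U) (hj : j ∈ D)
    (h0 : b0 ∈ Sub D b) (h1 : b1 ∈ Sub D b) (hne : b0 j ≠ b1 j) (hP : Inv (Po D b H T) P)
    (hS : SP (Po D b H T) P) (π : ZMod 2 → ZMod 2) (hp : ∀ z ∈ X, par z = π (z j))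
    (e : ∀ s, #(X.filter (· j = s)) + #(U.filter fun z => z j = s ∧ ¬ par z = π s) =
      #(U.filter fun z => z j = s ∧ par z = π s)) (ut : #U ≤ t) (xt : #X ≤ t + 4)
    {v : V n} (hv : v ∈ X) (hN : (t + 1) ^ 2 + 10 ≤ N)
    (hD : 50 * N ^ 2 + 100 + 5 * N + t + 1 ≤ #D) : Good adp (Po D b H T) P := by
  obtain ⟨H', T', P', I, g, gj, k1, k2, hI, k4, -⟩ := h.gen hP hS j
    (filter_subset (fun z => ¬ par z = π (z j)) U) (h.sX hv) (disjoint_left.mp h.dj hv) (by
      have := bud hN (a := #(U.filter fun z => ¬ par z = π (z j))) (c := #X)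
        ((card_filter_le _ _).trans ut) xt
      omega)
  have e1 : U \ U.filter (fun z => ¬ par z = π (z j)) = U.filter fun z => par z = π (z j) := by
    ext z; simp only [mem_sdiff, mem_filter]; tauto
  rw [e1] at k1
  have pp : ∀ z ∈ X ∪ I ∪ U.filter fun z => par z = π (z j), par z = π (z j) := fun z hz => by
    rcases mem_union.mp hz with k | k
    · rcases mem_union.mp k with k | k
      · exact hp z k
      · obtain ⟨x, hx, rfl⟩ := mem_image.mp (hI ▸ k)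
        rw [par_fl, fl_apply_ne x gj.symm]; exact z2_a (mem_filter.mp hx).2
    · exact (mem_filter.mp k).2
  have side : ∀ w ∈ Sub D b, ∃ c : Cf n, Ok (D.erase j) w H' T' c ∧ Par (π (w j)) c ∧
      #c.X = #c.U ∧ #c.U ≤ t ∧ #c.Y = 0 := fun w hw => by
    have cg := k1.side hj hw (X0 := (X ∪ I).filter (· j = w j))
      (U0 := (U.filter fun z => par z = π (z j)).filter (· j = w j))
      (fun z => mem_filter) fun z => mem_filter
    have q : ∀ z ∈ (X ∪ I).filter (· j = w j) ∪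
        (U.filter fun z => par z = π (z j)).filter (· j = w j), par z = π (w j) := fun z hz => by
      rw [← filter_union] at hz
      rw [pp z (mem_filter.mp hz).1, (mem_filter.mp hz).2]
    refine ⟨_, cg.ok1 q j, q, ?_, (card_filter_le _ _).trans ((card_filter_le _ _).trans ut), rfl⟩
    show #((X ∪ I).filter _) = #(filter _ _)
    rw [card_side k4, hI, card_fi fun _ _ _ _ e => fl_left_inj g e, filter_filter, filter_filter]
    have a1 := e (w j)
    have a2 : (U.filter fun a => ¬ par a = π (a j) ∧ fl a g j = w j) =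
        U.filter fun z => z j = w j ∧ ¬ par z = π (w j) := filter_congr fun z _ => by
      rw [fl_apply_ne z gj.symm]
      exact ⟨fun c => ⟨c.2, c.2 ▸ c.1⟩, fun c => ⟨c.1 ▸ c.2, c.1⟩⟩
    have a3 : (U.filter fun a => par a = π (a j) ∧ a j = w j) =
        U.filter fun z => z j = w j ∧ par z = π (w j) := filter_congr fun z _ =>
      ⟨fun c => ⟨c.2, c.2 ▸ c.1⟩, fun c => ⟨c.1 ▸ c.2, c.1⟩⟩
    rw [a2, a3, a1]
  obtain ⟨c0, O0, p0, e0, u0, y0⟩ := side b0 h0
  obtain ⟨c1, O1, p1, e1, u1, y1⟩ := side b1 h1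
  exact k2.2.2.2 (mxA (N := N) (t := t) hF hL hT hj h0 h1 hne k2.1 k2.2.1 O0 O1 p0 p1 e0 e1 u0 u1
    (by omega) (by omega) hD)

/-- the last target crosses and a crossing pair survives -/
theorem Cg.cross1 (h : Cg D b H T X U) (hP : Inv (Po D b H T) P) (hS : SP (Po D b H T) P)
    (hj : j ∈ D) (hC : C ⊆ U) (c2 : 2 ≤ #C) {s : ZMod 2} (cs : ∀ x ∈ C, x j = s)
    (hw : ∀ x ∈ C, fl x j ∉ X) {p : V n × Bool} (hp : p ∈ Po D b H T) (p1 : p.1 j = s)
    (p2 : (P p).1 j ≠ p.1 j) :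
    ∃ x ∈ C, ∃ H' T' P', Cg D b H' T' (insert (fl x j) X) (U.erase x) ∧
      Rd D b H T P H' T' P' 4 ∧ ∃ p ∈ Po D b H' T', (P' p).1 j ≠ p.1 j := by
  obtain ⟨x, hx, hz⟩ : ∃ x ∈ C, (fl x j, false) ≠ P p := by
    obtain ⟨x, hx, y, hy, c⟩ := one_lt_card.mp c2
    by_cases e : (fl x j, false) = P p
    · exact ⟨y, hy, fun e' => c (fl_left_inj j (congrArg Prod.fst (e.trans e'.symm)))⟩
    · exact ⟨x, hx, e⟩
  have ht := h.sU (hC hx)
  have hzS := fl_mem_Sub hj ht
  have hzT : fl x j ∉ T := fun c => h.nU (hC hx) (adj_fl _ _) ((h.hT _ hzS).mp c)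
  have ha : (x, true) ∈ Po D b H T := mem_Po_t.mpr ⟨ht, (h.hT x ht).mpr (hC hx)⟩
  have hb : (fl x j, false) ∈ Po D b H T :=
    mem_Po_f.mpr ⟨hzS, fun c => hw x hx ((h.hH _ hzS).mp c)⟩
  have e0 := hS x ha
  obtain ⟨P', k1, k2, k3⟩ := edgeK (ad := adp) hP ha hb (by simp) (adj_fl x j) (adj_fl x j).symm (by
    rw [e0]; exact fun e => fl_ne x j (congrArg Prod.fst e).symm)
  have e : Po D b (insert (fl x j) H) (T.erase x) = Po D b H T \ {(x, true), (fl x j, false)} := by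
    ext ⟨y, c⟩
    cases c
    · simp only [mem_Po_f, mem_sdiff, mem_insert, mem_singleton, Prod.mk.injEq, and_true]
      tauto
    · simp only [mem_Po_t, mem_sdiff, mem_insert, mem_singleton, Prod.mk.injEq, and_true,
        mem_erase]
      tauto
  have n1 : p ≠ (x, true) := fun c => p2 (by rw [c, e0])
  have n2 : p ≠ (fl x j, false) := fun c => by
    rw [c] at p1
    simp only [fl_apply_self, cs x hx] at p1
    exact z2_ne _ p1
  have n3 : p ≠ P (x, true) := fun c => p2 (by rw [c, (hP _ ha).2.2, e0])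
  have n4 : p ≠ P (fl x j, false) := fun c => hz (by rw [c, (hP _ hb).2.2])
  have pm : p ∈ Po D b (insert (fl x j) H) (T.erase x) := by
    rw [e]; simp [hp, n1, n2]
  rw [← e] at k1 k3
  refine ⟨x, hx, _, _, P', ⟨insert_subset hzS h.sX, (erase_subset _ _).trans h.sU,
    fun z hz => by rw [mem_insert, mem_insert, h.hH z hz],
    fun z hz => by rw [mem_erase, mem_erase, h.hT z hz],
    disjoint_insert_left.mpr ⟨fun c => h.nU (hC hx) (adj_fl _ _) (mem_of_mem_erase c),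
      h.dj.mono le_rfl (erase_subset _ _)⟩,
    fun x hx y hy => h.o3 x (mem_of_mem_erase hx) y (mem_of_mem_erase hy)⟩,
    ⟨k1, fun v hv => ?_, ⟨{(x, true), (fl x j, false), P (x, true), P (fl x j, false)},
    card_le_four, fun p hp => ?_⟩, k3⟩, p, pm, by rw [k2 p n1 n2 n3 n4]; exact p2⟩
  · obtain ⟨c0, c1⟩ := mem_Po_t.mp hv
    obtain ⟨c2, c3⟩ := mem_erase.mp c1
    have c4 := hS v (mem_Po_t.mpr ⟨c0, c3⟩)
    rw [k2 _ (by simpa using c2) (by simp) (by rw [e0]; simp) (fun hh => ?_), c4]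
    rw [hh, (hP _ hb).2.2] at c4
    have e : fl x j = v := congrArg Prod.fst c4
    exact hzT (e ▸ c3)
  · simp only [mem_insert, mem_singleton, not_or] at hp
    exact k2 p hp.1 hp.2.1 hp.2.2.1 hp.2.2.2

end Pool.Agent.Lib.MP_88ff4d_co.NP
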