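import Pool.Agent.Lib.MP_88ff4d_co.NP.K2

/-! One free end: the configuration, counting, the move of the good hole. -/

set_option autoImplicit false

namespace Pool.Agent.Lib.MP_88ff4d_co.NP

open Finset

variable {n : ℕ} {D : Finset (Fin n)} {b b0 b1 : V n} {H T X U C I : Finset (V n)}
  {P : V n × Bool → V n × Bool} {i j : Fin n} {N t s : ℕ} {u v : V n} {π π' e e' : ZMod 2}

/-- no target is adjacent to `v` -/
structure G1 (D : Finset (Fin n)) (b : V n) (H T : Finset (V n)) (u v : V n)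
    (U : Finset (V n)) : Prop where
  cg : Cg D b H T {u, v} U
  pr : par u ≠ par v
  uv : 3 ≤ #(df D u v)
  f2 : ∀ x ∈ U, 2 ≤ #(df D v x)
  bal : #(U.filter fun x => par x = par u) = #(U.filter fun x => par x = par v)
  ne : U.Nonempty

/-- the induction hypothesis -/
def KI (n N t s : ℕ) : Prop := ∀ (D : Finset (Fin n)) (b u v : V n) (H T U : Finset (V n)),
  G1 D b H T u v U → #U ≤ s → 50 * N ^ 2 + 100 + 5 * N + t + 2 * s + 3 ≤ #D → Rob (Po D b H T)

/-- targets of a given parity on a given side -/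
def qa (U : Finset (V n)) (π e : ZMod 2) (j : Fin n) : Finset (V n) :=
  U.filter fun z => z j = e ∧ par z = π

theorem mem_qa {z : V n} : z ∈ qa U π e j ↔ z ∈ U ∧ z j = e ∧ par z = π := mem_filter

theorem qa_sub : qa U π e j ⊆ U := filter_subset _ _

theorem ff1 : (U.filter (· j = e)).filter (fun z => par z = π) = qa U π e j := filter_filter _ _ _

theorem ff2 (h : π ≠ π') : (U.filter (· j = e)).filter (fun z => ¬ par z = π) = qa U π' e j := by
  rw [filter_filter]
  exact filter_congr fun z _ => and_congr_right fun _ =>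
    ⟨fun c => z2_two h c, fun c d => h (d.symm.trans c)⟩

theorem ff3 (h : π ≠ π') : (U.filter fun z => z j = e ∧ ¬ par z = π) = qa U π' e j :=
  filter_congr fun _ _ => and_congr_right fun _ =>
    ⟨fun c => z2_two h c, fun c d => h (d.symm.trans c)⟩

theorem qa_side (h : π ≠ π') : #(U.filter (· j = e)) = #(qa U π e j) + #(qa U π' e j) := by
  rw [← card_filter_add_card_filter_not (s := U.filter (· j = e)) (fun z => par z = π), ff1, ff2 h]

theorem qa_par (h : e ≠ e') :
    #(U.filter fun z => par z = π) = #(qa U π e j) + #(qa U π e' j) := by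
  rw [← TMx.card_sides (U.filter fun z => par z = π) j h, filter_comm, ff1, filter_comm, ff1]

theorem qa_sd1 (hC : C ⊆ qa U π e j) : #(qa (U \ C) π e j) + #C = #(qa U π e j) := by
  rw [← card_sdiff_add_card_eq_card hC]
  congr 2
  ext z
  simp only [mem_qa, mem_sdiff]
  tauto

theorem qa_sd2 (hC : C ⊆ qa U π e j) (h : π' ≠ π ∨ e' ≠ e) :
    qa (U \ C) π' e' j = qa U π' e' j := by
  ext z
  simp only [mem_qa, mem_sdiff]
  refine ⟨fun c => ⟨c.1.1, c.2⟩, fun c => ⟨⟨c.1, fun d => ?_⟩, c.2⟩⟩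
  obtain ⟨-, d1, d2⟩ := mem_qa.mp (hC d)
  exact h.elim (fun k => k (c.2.2.symm.trans d2)) fun k => k (c.2.1.symm.trans d1)

theorem G1.hu (h : G1 D b H T u v U) : u ∈ Sub D b := h.cg.sX (by simp)

theorem G1.hv (h : G1 D b H T u v U) : v ∈ Sub D b := h.cg.sX (by simp)

theorem G1.vU (h : G1 D b H T u v U) : v ∉ U := disjoint_left.mp h.cg.dj (by simp)

theorem G1.uU (h : G1 D b H T u v U) : u ∉ U := disjoint_left.mp h.cg.dj (by simp)

theorem G1.c2 (h : G1 D b H T u v U) : #({u, v} : Finset (V n)) = 2 :=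
  card_pair fun c => h.pr (by rw [c])

theorem G1.cards (h : G1 D b H T u v U) (j : Fin n) (he : e ≠ e') :
    #(qa U (par u) e j) + #(qa U (par u) e' j) = #(qa U (par v) e j) + #(qa U (par v) e' j) ∧
    #U = 2 * (#(qa U (par u) e j) + #(qa U (par u) e' j)) := by
  have a1 := qa_par (U := U) (π := par u) (j := j) he
  have a2 := qa_par (U := U) (π := par v) (j := j) he
  have a3 := TMx.card_sides U j he
  have a4 := qa_side (U := U) (j := j) (e := e) h.pr
  have a5 := qa_side (U := U) (j := j) (e := e') h.pr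
  have := h.bal
  omega

theorem side_ne (u : V n) (j : Fin n) : u j ≠ fl u j j := by
  rw [fl_apply_self]; exact (z2_ne _).symm

/-- the induction hypothesis on a side -/
theorem KI.side (ih : KI n N t s) {A : Finset (Fin n)} {w : V n}
    (h : Cg A w H T {u, v} (U.filter (· j = e))) (pr : par u ≠ par v) (uv : 3 ≤ #(df A u v))
    (f2 : ∀ x ∈ U, x j = e → 2 ≤ #(df A v x)) (bal : #(qa U (par u) e j) = #(qa U (par v) e j))
    (ne : 1 ≤ #(qa U (par u) e j)) (le : 2 * #(qa U (par u) e j) ≤ s)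
    (hD : 50 * N ^ 2 + 100 + 5 * N + t + 2 * s + 3 ≤ #A) : Rob (Po A w H T) := by
  have a := qa_side (U := U) (j := j) (e := e) pr
  exact ih A w u v H T _ ⟨h, pr, uv, fun x hx => f2 x (mem_filter.mp hx).1 (mem_filter.mp hx).2,
    by rw [ff1, ff1, bal], card_pos.mp (by omega)⟩ (by omega) hD

theorem robS (hT : TMSt) {A : Finset (Fin n)} {w : V n} (h : Cg A w H T X (U.filter (· j = e)))
    (pp : π ≠ π') (hp : ∀ z ∈ X, par z = π) (c : #X + #(qa U π' e j) = #(qa U π e j))
    (ut : #U ≤ t) (hN : (t + 1) ^ 2 + 10 ≤ N) (hD : 50 * N ^ 2 + 100 + 5 * N + t ≤ #A) :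
    Rob (Po A w H T) :=
  robO hT h hp (by rw [ff1, ff2 pp]; exact c) ((card_filter_le _ _).trans ut) hN hD

/-- the hole `v` leaves a side on which everything else has one parity -/
theorem mvV (hT : TMSt) (h : Cg D b H T X U) (hj : j ∈ D) (hv : v ∈ X) (h1 : b1 ∈ Sub D b)
    (hne : v j ≠ b1 j) (hP : Inv (Po D b H T) P) (hS : SP (Po D b H T) P)
    (pp : ∀ z ∈ X ∪ U, z j = v j → z ≠ v → par z = π)
    (f2 : ∀ z ∈ X ∪ U, z ≠ v → 2 ≤ #(df D v z))
    (c : #(X.filter (· j = v j)) = #(U.filter (· j = v j)) + 1) (ut : #U ≤ t) (xt : #X ≤ t + 4)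
    (hN : (t + 1) ^ 2 + 10 ≤ N) (big : 2 * N ^ 2 + 12 * N + 14 ≤ #(gd D P v j))
    (hD : 50 * N ^ 2 + 100 + 5 * N + t + 1 ≤ #D)
    (hR : ∀ x' H', par x' = par v → (∀ q ∈ X ∪ U, q j = b1 j → 2 ≤ #(df (D.erase j) x' q) ∧
        (3 ≤ #(df D v q) → 3 ≤ #(df (D.erase j) x' q))) →
      Cg (D.erase j) b1 H' T (insert x' (X.filter (· j = b1 j))) (U.filter (· j = b1 j)) →
      Rob (Po (D.erase j) b1 H' T)) : Good adp (Po D b H T) P := by
  have sq : (t + 1) ^ 2 = t ^ 2 + 2 * t + 1 := by ring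
  have vS := h.sX hv
  have c0 := h.side hj vS (X0 := X.filter (· j = v j)) (U0 := U.filter (· j = v j))
    (fun z => mem_filter) fun z => mem_filter
  have c1 := h.side hj h1 (X0 := X.filter (· j = b1 j)) (U0 := U.filter (· j = b1 j))
    (fun z => mem_filter) fun z => mem_filter
  have O0 := c0.ok (fun p hp q hq d => by
    rw [← filter_union] at hq
    obtain ⟨p1, p2⟩ := mem_filter.mp hp
    obtain ⟨q1, q2⟩ := mem_filter.mp hq
    by_cases k : p = v
    · subst k
      exact (f2 q q1 fun k => d (by rw [k])).trans (df_erase_eq D q2.symm)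
    by_cases k' : q = v
    · subst k'
      rw [df_comm]
      exact (f2 p (mem_union_left _ p1) k).trans (df_erase_eq D p2.symm)
    · exact absurd ((pp p (mem_union_left _ p1) p2 k).trans (pp q q1 q2 k').symm) d) j
  have nv : ∀ q ∈ (X ∪ U).filter (· j = b1 j), q ≠ v := fun q hq d =>
    hne (d ▸ (mem_filter.mp hq).2)
  refine mvR (N := N) (t := t) (π0 := π) hT hj vS h1 hne hP hS O0 (x := v)
    (mem_filter.mpr ⟨hv, rfl⟩) (fun z hz => ?_) c ((card_filter_le _ _).trans ut) (by simp [cfE])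
    ((X ∪ U).filter (· j = b1 j)) (fun z hz d => ?_) ?_ (fun q hq => ?_) j hN big hD
    fun x' H' k1 k2 _ k4 k5 => hR x' H' k2 (fun q hq d => ?_) (c1.addH k1 (fun d => ?_) k5)
  · rcases mem_union.mp hz with k | k
    · obtain ⟨k1, k2⟩ := mem_erase.mp k
      exact pp z (mem_union_left _ (mem_filter.mp k2).1) (mem_filter.mp k2).2 k1
    · exact pp z (mem_union_right _ (mem_filter.mp k).1) (mem_filter.mp k).2
        fun d => disjoint_left.mp h.dj hv (d ▸ (mem_filter.mp k).1)
  · rw [filter_union]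
    exact mem_union.mpr (d.imp (c1.hH z hz).mp (c1.hT z hz).mp)
  · have := card_union_le X U
    have := card_filter_le (X ∪ U) (· j = b1 j)
    omega
  · have := f2 q (mem_filter.mp hq).1 (nv q hq)
    have := df_erase_le D v q j
    omega
  · have := k4 q (mem_filter.mpr ⟨hq, d⟩)
    have := df_erase_le D v q j
    exact ⟨by omega, fun _ => by omega⟩
  · have := (k4 x' (mem_filter.mpr ⟨mem_union_right _ (mem_filter.mp d).1,
      (mem_filter.mp d).2⟩)).1
    rw [df_self] at this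
    omega

/-- a square, a target beyond direction `i`, and one hole -/
theorem t1x (hF : FarSt) (hL : LinkSt) (hT : TMSt) (hi : i ∈ D) (hu : u ∈ Sub D b) {c0 : Cf n}
    (O0 : Ok (D.erase i) u H T c0) (cU : c0.U = ∅) (cY : #c0.Y ≤ 1) {w z : V n}
    (hw : w ∈ Sub D b) (wi : u i ≠ w i) (hz : z ∈ Sub D b) (pz : par z = par w) (zw : z ≠ w)
    (far : ∀ y ∈ Sub (D.erase i) w, (y ∈ H ↔ y = z) ∧ (y ∈ T ↔ y = w))
    (cX : c0.X = if z i = u i then {z} else ∅) (hP : Inv (Po D b H T) P)
    (hS : SP (Po D b H T) P) (t1 : 1 ≤ t) (hN : (t + 1) ^ 2 + 10 ≤ N)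
    (big : z i = u i → 2 * N ^ 2 + 12 * N + 6 ≤ #(gd D P z i))
    (hD : 50 * N ^ 2 + 100 + 5 * N + t + 1 ≤ #D) : Good adp (Po D b H T) P := by
  have wS : w ∈ Sub (D.erase i) w := (mem_Sub_erase hw hi).mpr ⟨hw, rfl⟩
  have z0 : #c0.U = 0 := by rw [cU]; rfl
  have mk : ∀ X : Finset (V n), (∀ y, y ∈ X ↔ y = z ∧ z i = w i) →
      Ok (D.erase i) w H T (cfE X {w} i) ∧ Par (par w) (cfE X {w} i) := fun X m => by
    have pp : ∀ y ∈ X ∪ {w}, par y = par w := fun y hy => (mem_union.mp hy).elim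
      (fun k => ((m y).mp k).1 ▸ pz) fun k => by rw [mem_singleton.mp k]
    refine ⟨Cg.ok1 ⟨fun y hy => ?_, singleton_subset_iff.mpr wS, fun y hy => ?_, fun y hy => ?_,
      disjoint_singleton_right.mpr fun k => zw ((m w).mp k).1.symm, fun x hx y hy d => ?_⟩ pp i, pp⟩
    · obtain ⟨rfl, k⟩ := (m y).mp hy
      exact (mem_Sub_erase hw hi).mpr ⟨hz, k⟩
    · rw [(far y hy).1, m]
      exact ⟨fun k => ⟨k, k ▸ ((mem_Sub_erase hw hi).mp hy).2⟩, fun k => k.1⟩
    · rw [(far y hy).2, mem_singleton]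
    · exact absurd (by rw [mem_singleton.mp hx, mem_singleton.mp hy]) d
  by_cases c : z i = u i
  · rw [if_pos c] at cX
    obtain ⟨O1, p1⟩ := mk ∅ fun y => by
      simp only [notMem_empty, false_iff, not_and]
      exact fun _ k => wi (c.symm.trans k)
    refine mxB (N := N) (t := t) (π0 := 0) hF hL hT hi hu hw wi hP hS O0 O1 (x := z) (by simp [cX])
      (by simp [cX, cU]) (pz ▸ p1) (by simp [cX, cU]) (by simp [cfE]) (by omega)
      (by simpa [cfE] using t1) (by omega) (by simp [cfE]; omega) (fun q hq d => ?_) (big c) hD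
    rw [Sg_empty rfl, sdiff_empty]
    rcases mem_union.mp hq with k | k
    · obtain rfl : q = w := by simpa using cfE_B.mp k
      have := df_two hz hw zw pz
      have := df_erase_le D z q i
      omega
    · rw [cX] at k
      exact absurd (mem_singleton.mp k) d
  · rw [if_neg c] at cX
    obtain ⟨O1, p1⟩ := mk {z} fun y => by
      rw [mem_singleton]
      exact ⟨fun k => ⟨k, z2_two wi c⟩, fun k => k.1⟩
    exact mxA (N := N) (t := t) (π0 := 0) hF hL hT hi hu hw wi hP hS O0 O1 (par_emp cX cU) p1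
      (by rw [cX, cU]) (by simp [cfE]) (by omega) (by simpa [cfE] using t1) (by omega)
      (by simp [cfE]; omega) hD

/-- the two sides when both ends are on one side and all new holes on the other -/
theorem fin2 (h : Cg D b H T ({u, v} ∪ I) U) (hj : j ∈ D) (c : u j = v j)
    (hI : ∀ z ∈ I, z j ≠ u j) : Cg (D.erase j) u H T {u, v} (U.filter (· j = u j)) ∧
      Cg (D.erase j) (fl u j) H T I (U.filter (· j = fl u j j)) := by
  have hu : u ∈ Sub D b := h.sX (by simp)
  have hne := side_ne u j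
  refine ⟨h.side hj hu (fun z => ?_) fun z => mem_filter,
    h.side hj (fl_mem_Sub hj hu) (fun z => ?_) fun z => mem_filter⟩
  · simp only [mem_union, mem_insert, mem_singleton]
    refine ⟨fun k => ⟨Or.inl k, ?_⟩, fun k => k.1.resolve_right fun d => hI z d k.2⟩
    rcases k with rfl | rfl
    · rfl
    · exact c.symm
  · simp only [mem_union, mem_insert, mem_singleton]
    refine ⟨fun k => ⟨Or.inr k, z2_two hne (hI z k)⟩, fun k => k.1.resolve_left ?_⟩
    rintro (rfl | rfl)
    · exact hne k.2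
    · exact hne (c.trans k.2)

theorem fl_prop {x : V n} (hx : x ∈ qa U π e j) (pp : π ≠ π') :
    fl x j j ≠ e ∧ par (fl x j) = π' := by
  obtain ⟨-, k1, k2⟩ := mem_qa.mp hx
  rw [fl_apply_self, par_fl, k1, k2]
  exact ⟨z2_ne _, z2_a pp⟩

end Pool.Agent.Lib.MP_88ff4d_co.NP
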