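import Pool.Agent.Lib.MP_88ff4d_co.NP.K3

/-! One free end: both ends on the same side of the direction. -/

set_option autoImplicit false

namespace Pool.Agent.Lib.MP_88ff4d_co.NP

open Finset

variable {n : ℕ} {D : Finset (Fin n)} {b : V n} {H T U C I H' T' : Finset (V n)}
  {P : V n × Bool → V n × Bool} {i j : Fin n} {N t s : ℕ} {u v : V n} {π π' : ZMod 2}

theorem off_side (c : u j = v j) {z : V n} (hz : z j ≠ u j) : z ∉ ({u, v} : Finset (V n)) := by
  simp only [mem_insert, mem_singleton]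
  rintro (rfl | rfl)
  · exact hz rfl
  · exact hz c.symm

/-- after the surplus has crossed -/
theorem finS (hT : TMSt) (ih : KI n N t s) (h : G1 D b H T u v U) (hj : j ∈ D) (c : u j = v j)
    (o : π = par u ∧ π' = par v ∨ π = par v ∧ π' = par u) (hC : C ⊆ qa U π (u j) j)
    (cc : #C + #(qa U π' (u j) j) = #(qa U π (u j) j)) (g : Cg D b H' T' ({u, v} ∪ I) (U \ C))
    (cI : #I = #C) (hI : ∀ z ∈ I, z j ≠ u j ∧ par z = π') (ut : #U ≤ t)
    (hN : (t + 1) ^ 2 + 10 ≤ N) (hD : 50 * N ^ 2 + 100 + 5 * N + t + 2 * s + 4 ≤ #D) :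
    Rob (Po (D.erase j) (fl u j) H' T') ∧ Even #(Po (D.erase j) u H' T') ∧
      (1 ≤ #(qa U π' (u j) j) → 2 * #(qa U π' (u j) j) ≤ s → Rob (Po (D.erase j) u H' T')) ∧
      (#(qa U π' (u j) j) = 0 → Cg (D.erase j) u H' T' {u, v} ∅) := by
  have hne := side_ne u j
  have pp : π ≠ π' := by rcases o with ⟨rfl, rfl⟩ | ⟨rfl, rfl⟩; exacts [h.pr, h.pr.symm]
  have g0 := card_erase_of_mem hj
  obtain ⟨gA, gB⟩ := fin2 g hj c fun z hz => (hI z hz).1
  have k0 := (h.cards j hne).1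
  have k1 := qa_sd1 hC
  have k2 := qa_sd2 (π' := π') (e' := u j) hC (Or.inl pp.symm)
  have k3 := qa_sd2 (π' := π) (e' := fl u j j) hC (Or.inr hne.symm)
  have k4 := qa_sd2 (π' := π') (e' := fl u j j) hC (Or.inr hne.symm)
  have k5 := qa_side (U := U \ C) (j := j) (e := u j) pp
  rw [k2] at k5
  refine ⟨robS hT gB pp.symm (fun z hz => (hI z hz).2) ?_ ((card_le_card sdiff_subset).trans ut) hN
    (by omega), (gA.even (by omega)).mpr ?_, fun a1 a2 => ?_, fun a => ?_⟩
  · rw [k3, k4]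
    rcases o with ⟨rfl, rfl⟩ | ⟨rfl, rfl⟩ <;> omega
  · rw [h.c2, Nat.even_iff]; omega
  · refine ih.side gA h.pr (h.uv.trans (df_erase_eq D c)) (fun x hx d =>
      (h.f2 x (mem_sdiff.mp hx).1).trans (df_erase_eq D (c.symm.trans d.symm))) ?_ ?_ ?_ (by omega)
      <;> rcases o with ⟨rfl, rfl⟩ | ⟨rfl, rfl⟩ <;> (try rw [k2]) <;> omega
  · rwa [card_eq_zero.mp (by omega : #((U \ C).filter (· j = u j)) = 0)] at gA

/-- a surplus of one parity, both parities present -/
theorem sB (hT : TMSt) (ih : KI n N t s) (h : G1 D b H T u v U) (hj : j ∈ D) (c : u j = v j)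
    (hP : Inv (Po D b H T) P) (hS : SP (Po D b H T) P)
    (o : π = par u ∧ π' = par v ∨ π = par v ∧ π' = par u) (a1 : 1 ≤ #(qa U π' (u j) j))
    (lt : #(qa U π' (u j) j) < #(qa U π (u j) j)) (us : #U ≤ s + 1) (ut : #U ≤ t)
    (hN : (t + 1) ^ 2 + 10 ≤ N) (hD : 50 * N ^ 2 + 100 + 5 * N + t + 2 * s + 4 ≤ #D) :
    Good adp (Po D b H T) P := by
  have hne := side_ne u j
  have pp : π ≠ π' := by rcases o with ⟨rfl, rfl⟩ | ⟨rfl, rfl⟩; exacts [h.pr, h.pr.symm]
  have g0 := card_erase_of_mem hj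
  obtain ⟨C, hC, cc⟩ := exists_subset_card_eq (s := qa U π (u j) j)
    (n := #(qa U π (u j) j) - #(qa U π' (u j) j) - 1) (by omega)
  obtain ⟨H1, T1, P1, I, g1, R1, cI, dI, mI⟩ := h.cg.cross hP hS hj (hC.trans qa_sub)
    fun x hx => off_side c (fl_prop (hC hx) pp).1
  have hI : ∀ z ∈ I, z j ≠ u j ∧ par z = π' := fun z hz => by
    obtain ⟨x, hx, rfl⟩ := mI z hz
    exact fl_prop (hC hx) pp
  have k1 := qa_sd1 hC
  have k5 := qa_side (U := U \ C) (j := j) (e := u j) pp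
  rw [qa_sd2 (π' := π') (e' := u j) hC (Or.inl pp.symm)] at k5
  obtain ⟨p, p1, p2, p3⟩ := cross_of_odd hj h.hu R1.1 (by
    rw [(fin2 g1 hj c fun z hz => (hI z hz).1).1.even (by omega), h.c2, Nat.even_iff]; omega)
  obtain ⟨x, hx, H2, T2, P2, g2, R2, cr⟩ := g1.cross1 (C := qa (U \ C) π (u j) j) R1.1 R1.2.1 hj
    qa_sub (by omega) (fun x hx => (mem_qa.mp hx).2.1) (fun x hx d => by
      rcases mem_union.mp d with d | d
      · exact off_side c (fl_prop hx pp).1 d
      · obtain ⟨y, hy, e⟩ := mI _ d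
        exact (mem_sdiff.mp (mem_qa.mp hx).1).2 (fl_left_inj j e ▸ hy)) p1 p2 p3
  obtain ⟨x1, x2⟩ := mem_qa.mp hx
  obtain ⟨x3, x4⟩ := mem_sdiff.mp x1
  have nI : fl x j ∉ I := fun d => by
    obtain ⟨y, hy, e⟩ := mI _ d
    exact x4 (fl_left_inj j e ▸ hy)
  rw [← union_insert, ← sdiff_insert] at g2
  have k0 := h.cards j hne
  obtain ⟨r1, r2, r3, -⟩ := finS hT ih h hj c o (insert_subset (mem_qa.mpr ⟨x3, x2⟩) hC)
    (by rw [card_insert_of_notMem x4]; omega) g2
    (by rw [card_insert_of_notMem x4, card_insert_of_notMem nI, cI]) (fun z hz =>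
      (mem_insert.mp hz).elim (fun e => e ▸ fl_prop hx pp) (hI z)) ut hN hD
  exact R1.2.2.2 (R2.2.2.2 (split hj h.hu (fl_mem_Sub hj h.hu) hne R2.1 R2.2.1 r2 cr
    (r3 a1 (by rcases o with ⟨rfl, rfl⟩ | ⟨rfl, rfl⟩ <;> omega)) r1))

/-- one parity is missing on the side of the ends and an end is marked -/
theorem sT (hF : FarSt) (hL : LinkSt) (hT : TMSt) (ih : KI n N t s) (h : G1 D b H T u v U)
    (hj : j ∈ D) (c : u j = v j) (hP : Inv (Po D b H T) P) (hS : SP (Po D b H T) P)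
    (o : π = par u ∧ π' = par v ∨ π = par v ∧ π' = par u) (a0 : #(qa U π' (u j) j) = 0)
    (big : 4 * #(qa U π (u j) j) + 2 ≤ #(cn D P u j) ∨ 4 * #(qa U π (u j) j) + 2 ≤ #(cn D P v j))
    (ut : #U ≤ t) (hN : (t + 1) ^ 2 + 10 ≤ N)
    (hD : 50 * N ^ 2 + 100 + 5 * N + t + 2 * s + 4 ≤ #D) : Good adp (Po D b H T) P := by
  have hne := side_ne u j
  have pp : π ≠ π' := by rcases o with ⟨rfl, rfl⟩ | ⟨rfl, rfl⟩; exacts [h.pr, h.pr.symm]
  obtain ⟨H1, T1, P1, I, g1, R1, cI, dI, mI⟩ := h.cg.cross (C := qa U π (u j) j) hP hS hj qa_sub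
    fun x hx => off_side c (fl_prop hx pp).1
  obtain ⟨r1, -, -, r4⟩ := finS hT ih h hj c o Subset.rfl (by omega) g1 cI (fun z hz => by
    obtain ⟨x, hx, rfl⟩ := mI z hz
    exact fl_prop hx pp) ut hN hD
  have gA := r4 a0
  obtain ⟨K, k1, k2⟩ := R1.2.2.1
  have hd : 4001 ≤ #D := by
    have : 10 ^ 2 ≤ N ^ 2 := Nat.pow_le_pow_left (by omega) 2
    omega
  have sw : ∀ z, z ∈ Sub (D.erase j) v → z ∈ Sub (D.erase j) u := fun z hz =>
    (mem_Sub_erase h.hu hj).mpr (c ▸ (mem_Sub_erase h.hv hj).mp hz)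
  refine R1.2.2.2 (big.elim (fun a => ?_) fun a => ?_)
  · have := cn_change (D := D) (j := j) k2 u
    exact thA hF hL hT hj h.hv h.hu c.symm h.pr.symm (df_comm D u v ▸ h.uv) (fl_mem_Sub hj h.hu) hne
      R1.1 R1.2.1 (fun z hz => by rw [gA.hH z hz]; simp [or_comm])
      (fun z hz d => notMem_empty _ ((gA.hT z hz).mp d)) (by omega) r1 hd
  · have := cn_change (D := D) (j := j) k2 v
    exact thA hF hL hT hj h.hu h.hv c h.pr h.uv (fl_mem_Sub hj h.hu) (c ▸ hne)
      R1.1 R1.2.1 (fun z hz => by rw [gA.hH z (sw z hz)]; simp)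
      (fun z hz d => notMem_empty _ ((gA.hT z (sw z hz)).mp d)) (by omega) r1 hd

/-- only targets of the parity of `u` on the side of the ends -/
theorem sD (hT : TMSt) (h : G1 D b H T u v U) (hj : j ∈ D) (c : u j = v j)
    (hP : Inv (Po D b H T) P) (hS : SP (Po D b H T) P) (a0 : 1 ≤ #(qa U (par u) (u j) j))
    (a1 : #(qa U (par v) (u j) j) = 0) (ut : #U ≤ t) (hN : (t + 1) ^ 2 + 10 ≤ N)
    (big : 2 * N ^ 2 + 12 * N + 14 + 4 * t ≤ #(gd D P v j))
    (hD : 50 * N ^ 2 + 100 + 5 * N + t + 1 ≤ #D) : Good adp (Po D b H T) P := by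
  have hne := side_ne u j
  have g0 := card_erase_of_mem hj
  obtain ⟨C, hC, cc⟩ := exists_subset_card_eq (s := qa U (par u) (u j) j)
    (n := #(qa U (par u) (u j) j) - 1) (by omega)
  obtain ⟨H1, T1, P1, I, g1, R1, cI, dI, mI⟩ := h.cg.cross hP hS hj (hC.trans qa_sub)
    fun x hx => off_side c (fl_prop (hC hx) h.pr).1
  have hI : ∀ z ∈ I, z j ≠ u j ∧ par z = par v := fun z hz => by
    obtain ⟨x, hx, rfl⟩ := mI z hz
    exact fl_prop (hC hx) h.pr
  have k0 := h.cards j hne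
  have k1 := qa_sd1 hC
  have k5 := qa_side (U := U \ C) (j := j) (e := u j) h.pr
  have k2 := qa_sd2 (π' := par v) (e' := u j) hC (Or.inl h.pr.symm)
  rw [k2] at k5
  have d1 := R1.gd_le D v j
  have e1 : ({u, v} ∪ I).filter (· j = v j) = {u, v} := by
    rw [filter_union, filter_false_of_mem (s := I) fun z hz => c ▸ (hI z hz).1, union_empty,
      filter_true_of_mem fun z hz => by_contra fun d => off_side c (c ▸ d) hz]
  have e2 : ({u, v} ∪ I).filter (· j = fl u j j) = I := by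
    rw [filter_union, filter_true_of_mem (s := I) fun z hz => z2_two hne (hI z hz).1,
      filter_false_of_mem fun z hz (d : z j = fl u j j) => off_side c (d ▸ hne.symm) hz, empty_union]
  refine R1.2.2.2 (mvV (N := N) (t := t) (π := par u) hT g1 hj (by simp) (fl_mem_Sub hj h.hu)
    (c ▸ hne) R1.1 R1.2.1 (fun z hz d d' => ?_) (fun z hz d => ?_) (by rw [e1, h.c2, ← c]; omega)
    ((card_le_card sdiff_subset).trans ut) (by have := card_union_le {u, v} I; have := h.c2; omega)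
    hN (by omega) hD fun x' H' q1 q2 q3 => ?_)
  · simp only [mem_union, mem_insert, mem_singleton] at hz
    rcases hz with ((rfl | rfl) | k) | k
    · rfl
    · exact absurd rfl d'
    · exact absurd (d.trans c.symm) (hI z k).1
    · exact z2_two h.pr.symm fun a => notMem_empty z (card_eq_zero.mp a1 ▸
        mem_qa.mpr ⟨(mem_sdiff.mp k).1, d.trans c.symm, a⟩)
  · simp only [mem_union, mem_insert, mem_singleton] at hz
    rcases hz with ((rfl | rfl) | k) | k
    · rw [df_comm]; exact le_trans (by norm_num) h.uv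
    · exact absurd rfl d
    · obtain ⟨x, hx, rfl⟩ := mI z k
      exact (h.f2 x (qa_sub (hC hx))).trans (df_fl_ge D (c.symm.trans (mem_qa.mp (hC hx)).2.1.symm))
    · exact h.f2 z (mem_sdiff.mp k).1
  · rw [e2] at q3
    have nI : x' ∉ I := fun d => by
      have := (q2 x' (by simp [d]) (z2_two hne (hI _ d).1)).1
      rw [df_self] at this
      omega
    refine robS hT q3 h.pr.symm (fun z hz => (mem_insert.mp hz).elim (fun a => a ▸ q1)
      fun a => (hI z a).2) ?_ ((card_le_card sdiff_subset).trans ut) hN (by omega)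
    rw [card_insert_of_notMem nI, qa_sd2 hC (Or.inr hne.symm), qa_sd2 hC (Or.inr hne.symm)]
    omega

/-- balanced sides, `v` moves and one target crosses -/
theorem sC (hT : TMSt) (ih : KI n N t s) (h : G1 D b H T u v U) (hj : j ∈ D) (c : u j = v j)
    (hP : Inv (Po D b H T) P) (hS : SP (Po D b H T) P) (a0 : 1 ≤ #(qa U (par u) (u j) j))
    (a1 : #(qa U (par u) (u j) j) = #(qa U (par v) (u j) j))
    (b0 : 1 ≤ #(qa U (par u) (fl u j j) j)) (us : #U ≤ s + 1) (ut : #U ≤ t)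
    (hN : (t + 1) ^ 2 + 10 ≤ N) (big : 2 * N ^ 2 + 12 * N + 14 + 4 * t + 4 ≤ #(gd D P v j))
    (hD : 50 * N ^ 2 + 100 + 5 * N + t + 2 * s + 4 ≤ #D) : Good adp (Po D b H T) P := by
  have hne := side_ne u j
  have g0 := card_erase_of_mem hj
  obtain ⟨w, hw⟩ := card_pos.mp (by omega : 0 < #(qa U (par v) (u j) j))
  have hC : {w} ⊆ qa U (par v) (u j) j := singleton_subset_iff.mpr hw
  obtain ⟨w1, w2⟩ := fl_prop hw h.pr.symm
  obtain ⟨H1, T1, P1, I, g1, R1, cI, dI, mI⟩ := h.cg.cross hP hS hj (hC.trans qa_sub)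
    fun x hx => off_side c (fl_prop (hC hx) h.pr.symm).1
  obtain rfl : I = {fl w j} := by
    obtain ⟨a, rfl⟩ := card_eq_one.mp cI
    obtain ⟨x, hx, e⟩ := mI a (by simp)
    rw [e, mem_singleton.mp hx]
  have k0 := h.cards j hne
  have k1 := qa_sd1 hC
  rw [card_singleton] at k1
  have c3 : #({u, v} ∪ {fl w j} : Finset (V n)) = 3 := by rw [card_union_of_disjoint dI, h.c2]; rfl
  obtain ⟨H2, T2, P2, I2, g, gj, g2, R2, hI2, d2, f2⟩ := g1.gen (C := qa (U \ {w}) (par v) (u j) j)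
    R1.1 R1.2.1 j qa_sub h.hv (fun d => h.vU (mem_sdiff.mp d).1) (by
      have := bud hN (a := #(qa (U \ {w}) (par v) (u j) j)) (c := 3) (by omega) (by omega)
      rw [c3]; omega)
  have c4 : #I2 = #(qa (U \ {w}) (par v) (u j) j) := by
    rw [hI2, card_image_of_injective _ (fl_left_inj g)]
  have m2 : ∀ z ∈ I2, z j = u j ∧ par z = par u := fun z hz => by
    obtain ⟨x, hx, rfl⟩ := mem_image.mp (hI2 ▸ hz)
    rw [fl_apply_ne x gj.symm, par_fl, (mem_qa.mp hx).2.2]
    exact ⟨(mem_qa.mp hx).2.1, z2_a h.pr.symm⟩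
  have d1 := R1.gd_le D v j
  have d3 := R2.gd_le D v j
  rw [card_singleton] at d1
  have k2 := qa_sd1 (Subset.refl (qa (U \ {w}) (par v) (u j) j))
  have k3 := qa_side (U := (U \ {w}) \ qa (U \ {w}) (par v) (u j) j) (j := j) (e := u j) h.pr
  rw [qa_sd2 Subset.rfl (Or.inl h.pr), qa_sd2 hC (Or.inl h.pr)] at k3
  have e1 : #(({u, v} ∪ {fl w j} ∪ I2).filter (· j = v j)) = 2 + #I2 := by
    rw [card_side d2, filter_true_of_mem (s := I2) fun z hz => c ▸ (m2 z hz).1, filter_union,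
      filter_false_of_mem (s := {fl w j}) fun z hz => c ▸ mem_singleton.mp hz ▸ w1, union_empty,
      filter_true_of_mem fun z hz => by_contra fun d => off_side c (c ▸ d) hz, h.c2]
  have e2 : ({u, v} ∪ {fl w j} ∪ I2).filter (· j = fl u j j) = {fl w j} := by
    rw [filter_union, filter_false_of_mem (s := I2) fun z hz => (m2 z hz).1 ▸ hne, union_empty,
      filter_union, filter_true_of_mem (s := {fl w j}) fun z hz =>
        z2_two hne (mem_singleton.mp hz ▸ w1),
      filter_false_of_mem fun z hz (d : z j = fl u j j) => off_side c (d ▸ hne.symm) hz, empty_union]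
  have w3 : 3 ≤ #(df D v (fl w j)) := df_three h.hv (fl_mem_Sub hj (h.cg.sU (qa_sub hw)))
    (w2 ▸ h.pr.symm) ((h.f2 w (qa_sub hw)).trans
      (df_fl_ge D (c.symm.trans (mem_qa.mp hw).2.1.symm)))
  have sU : (U \ {w}) \ qa (U \ {w}) (par v) (u j) j ⊆ U := sdiff_subset.trans sdiff_subset
  refine R1.2.2.2 (R2.2.2.2 (mvV (N := N) (t := t) (π := par u) hT g2 hj (by simp)
    (fl_mem_Sub hj h.hu) (c ▸ hne) R2.1 R2.2.1 (fun z hz d d' => ?_) (fun z hz d => ?_)
    (by rw [e1, ← c]; omega) ((card_le_card sU).trans ut)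
    (by have := card_union_le ({u, v} ∪ {fl w j}) I2; omega)
    hN (by omega) (by omega) fun x' H' q1 q2 q3 => ?_))
  · simp only [mem_union, mem_insert, mem_singleton] at hz
    rcases hz with (((rfl | rfl) | rfl) | k) | k
    · rfl
    · exact absurd rfl d'
    · exact w2
    · exact (m2 z k).2
    · exact z2_two h.pr.symm fun a => (mem_sdiff.mp k).2
        (mem_qa.mpr ⟨(mem_sdiff.mp k).1, d.trans c.symm, a⟩)
  · simp only [mem_union, mem_insert, mem_singleton] at hz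
    rcases hz with (((rfl | rfl) | rfl) | k) | k
    · rw [df_comm]; exact le_trans (by norm_num) h.uv
    · exact absurd rfl d
    · omega
    · exact f2 z k
    · exact h.f2 z (sU k)
  · rw [e2, pair_comm] at q3
    refine ih.side q3 (by rw [w2, q1]; exact h.pr) (by
        rw [df_comm]; exact (q2 _ (by simp) (z2_two hne w1)).2 w3)
      (fun x hx d => (q2 x (mem_union_right _ hx) d).1) ?_ ?_ ?_ (by omega) <;>
      simp only [w2, q1, qa_sd2 Subset.rfl (Or.inr hne.symm), qa_sd2 hC (Or.inr hne.symm)] <;> omega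

end Pool.Agent.Lib.MP_88ff4d_co.NP
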