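import Pool.Agent.Lib.MP_88ff4d_co.NP.K4

/-! One free end: the cases in which `u` has to move. -/

set_option autoImplicit false

namespace Pool.Agent.Lib.MP_88ff4d_co.NP

open Finset

variable {n : ℕ} {D : Finset (Fin n)} {b : V n} {H T U : Finset (V n)}
  {P : V n × Bool → V n × Bool} {i j : Fin n} {N t s : ℕ} {u v w : V n}

/-- one target stays on the side of `u` -/
theorem prepW (h : G1 D b H T u v U) (hj : j ∈ D) (hP : Inv (Po D b H T) P)
    (hS : SP (Po D b H T) P) (hw : w ∈ qa U (par v) (u j) j) (a0 : #(qa U (par u) (u j) j) = 0)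
    (f : ∀ x ∈ qa U (par v) (u j) j, 2 ≤ #(df D v (fl x j))) (ut : #U ≤ t)
    (hN : (t + 1) ^ 2 + 10 ≤ N) (hD : 50 * N ^ 2 ≤ #D) :
    ∃ H' T' P' I K, Cg D b H' T' ({u, v} ∪ I) (insert w (qa U (par u) (fl u j j) j)) ∧
      Inv (Po D b H' T') P' ∧ SP (Po D b H' T') P' ∧ #K ≤ 8 * t ∧ (∀ p ∉ K, P' p = P p) ∧
      (Good adp (Po D b H' T') P' → Good adp (Po D b H T) P) ∧
      (∀ z ∈ I, z j = fl u j j ∧ par z = par u ∧ 2 ≤ #(df D v z)) ∧
      #I + 1 = #(qa U (par u) (fl u j j) j) := by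
  have hne := side_ne u j
  have hC : (qa U (par v) (u j) j).erase w ⊆ qa U (par v) (u j) j := erase_subset _ _
  have cc := card_erase_add_one hw
  obtain ⟨H1, T1, P1, I, g1, R1, cI, dI, mI⟩ := h.cg.cross hP hS hj (hC.trans qa_sub)
    fun x hx d => by
      obtain ⟨a, a'⟩ := fl_prop (hC hx) h.pr.symm
      rcases mem_insert.mp d with d | d
      · exact a (by rw [d])
      · exact h.pr (a'.symm.trans (by rw [mem_singleton.mp d]))
  have k0 := h.cards j hne
  have k1 := qa_sd2 (π' := par v) (e' := fl u j j) hC (Or.inr hne.symm)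
  have c3 : #({u, v} ∪ I) = 2 + #I := by rw [card_union_of_disjoint dI, h.c2]
  obtain ⟨H2, T2, P2, I2, g, gj, g2, R2, hI2, d2, f2⟩ := g1.gen (C := qa U (par v) (fl u j j) j)
    R1.1 R1.2.1 j (k1 ▸ qa_sub) h.hv (fun d => h.vU (mem_sdiff.mp d).1) (by
      have := bud hN (a := #(qa U (par v) (fl u j j) j)) (c := #({u, v} ∪ I)) (by omega) (by omega)
      omega)
  obtain ⟨K1, m1, m2⟩ := R1.2.2.1
  obtain ⟨K2, m3, m4⟩ := R2.2.2.1
  have e : (U \ (qa U (par v) (u j) j).erase w) \ qa U (par v) (fl u j j) j =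
      insert w (qa U (par u) (fl u j j) j) := by
    ext z
    simp only [mem_sdiff, mem_erase, mem_insert, mem_qa]
    constructor
    · rintro ⟨⟨a1, a2⟩, a3⟩
      by_cases c : z = w
      · exact Or.inl c
      have a4 : z j ≠ u j := fun d => a2 ⟨c, a1, d, z2_two h.pr fun d' =>
        notMem_empty z (card_eq_zero.mp a0 ▸ mem_qa.mpr ⟨a1, d, d'⟩)⟩
      exact Or.inr ⟨a1, z2_two hne a4, z2_two h.pr.symm fun d => a3 ⟨a1, z2_two hne a4, d⟩⟩
    · rintro (rfl | ⟨a1, a2, a3⟩)
      · exact ⟨⟨qa_sub hw, fun d => d.1 rfl⟩, fun d => hne ((mem_qa.mp hw).2.1.symm.trans d.2.1)⟩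
      · exact ⟨⟨a1, fun d => hne (d.2.2.1.symm.trans a2)⟩, fun d => h.pr (a3.symm.trans d.2.2)⟩
  rw [e, union_assoc] at g2
  refine ⟨H2, T2, P2, I ∪ I2, K1 ∪ K2, g2, R2.1, R2.2.1, (card_union_le _ _).trans (by omega),
    fun p hp => ?_, fun k => R1.2.2.2 (R2.2.2.2 k), fun z hz => ?_, ?_⟩
  · rw [mem_union, not_or] at hp
    rw [m4 p hp.2, m2 p hp.1]
  · rcases mem_union.mp hz with k | k
    · obtain ⟨x, hx, rfl⟩ := mI z k
      exact ⟨z2_two hne (fl_prop (hC hx) h.pr.symm).1, (fl_prop (hC hx) h.pr.symm).2, f x (hC hx)⟩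
    · refine ⟨?_, ?_, f2 z k⟩ <;> obtain ⟨x, hx, rfl⟩ := mem_image.mp (hI2 ▸ k)
      · rw [fl_apply_ne x gj.symm]; exact (mem_qa.mp hx).2.1
      · rw [par_fl, (mem_qa.mp hx).2.2]; exact z2_a h.pr.symm
  · rw [card_union_of_disjoint (d2.mono subset_union_right le_rfl), hI2,
      card_image_of_injective _ (fl_left_inj g)]
    omega

theorem gd_in {P' : V n × Bool → V n × Bool} (hj : j ∈ D) (hu : u ∈ Sub D b) (hv : v ∈ Sub D b)
    (c : v j = u j) (hP : Inv (Po D b H T) P)
    (e : ∀ p ∈ Po (D.erase j) u H T, P p ∈ Po (D.erase j) u H T → P' p = P p) (S : Finset (V n))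
    (hS : ∀ g ∈ D.erase j, g ≠ i → fl v g ∈ H → fl v g ∈ S) :
    #(gd D P v i) ≤ #(gd (D.erase j) P' v i) + #(cn D P v j) + #S + 1 := by
  have k : gd D P v i ⊆ insert j (gd (D.erase j) P' v i ∪ cn D P v j ∪
      univ.filter fun g => fl v g ∈ S) := fun g hg => by
    obtain ⟨a1, a2, a3⟩ := mem_filter.mp hg
    by_cases d : g = j
    · exact mem_insert.mpr (Or.inl d)
    have a4 : g ∈ D.erase j := mem_erase.mpr ⟨d, a1⟩
    refine mem_insert_of_mem ?_
    by_cases d1 : fl v g ∈ H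
    · exact mem_union_right _ (mem_filter.mpr ⟨mem_univ _, hS g a4 a2 d1⟩)
    refine mem_union_left _ ?_
    by_cases d2 : (P (fl v g, false)).1 j = v j
    · have a5 : (fl v g, false) ∈ Po D b H T := mem_Po_f.mpr ⟨fl_mem_Sub a1 hv, d1⟩
      refine mem_union_left _ (mem_filter.mpr ⟨a4, a2, ?_⟩)
      rwa [e _ ((mem_side hu hj).mpr ⟨a5, (fl_apply_ne v (Ne.symm d)).trans c⟩)
        ((mem_side hu hj).mpr ⟨(hP _ a5).1, d2.trans c⟩)]
    · exact mem_union_right _ (mem_filter.mpr ⟨a4, d2⟩)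
  have := card_le_card k
  have := card_insert_le j (gd (D.erase j) P' v i ∪ cn D P v j ∪ univ.filter fun g => fl v g ∈ S)
  have := card_union_le (gd (D.erase j) P' v i ∪ cn D P v j) (univ.filter fun g => fl v g ∈ S)
  have := card_union_le (gd (D.erase j) P' v i) (cn D P v j)
  have := card_hitV S v
  omega

theorem far1 (hu : u ∈ Sub D b) (hj : j ∈ D) {q : V n} (hq : q ∈ Sub (D.erase j) (fl u j))
    (p : par q = par u) : 1 ≤ #(df (D.erase j) u q) := by
  rw [← df_congr (p := fl u j) fun i hi => fl_apply_ne _ (mem_erase.mp hi).1]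
  exact df_pos ((mem_Sub_erase (fl_mem_Sub hj hu) hj).mpr ⟨fl_mem_Sub hj hu, rfl⟩) hq
    (par_ne_fl p j).symm

/-- only targets of the parity of `v` on the side of the ends -/
theorem sE (hF : FarSt) (hL : LinkSt) (hT : TMSt) (h : G1 D b H T u v U) (hj : j ∈ D)
    (c : u j = v j) (hP : Inv (Po D b H T) P) (hS : SP (Po D b H T) P)
    (hw : w ∈ qa U (par v) (u j) j) (a0 : #(qa U (par u) (u j) j) = 0) (hi : i ∈ df D u w)
    (bi : u i = v i → i ∉ bk D P v) (cu : #(cn D P u j) ≤ 4 * t + 2)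
    (cv : #(cn D P v j) ≤ 4 * t + 2) (ut : #U ≤ t) (hN : (t + 1) ^ 2 + 10 ≤ N)
    (hD : 50 * N ^ 2 + 100 + 5 * N + t + 2 ≤ #D) : Good adp (Po D b H T) P := by
  have hne := side_ne u j
  have sq : (t + 1) ^ 2 = t ^ 2 + 2 * t + 1 := by ring
  have k4 : N ≤ N ^ 2 := Nat.le_self_pow two_ne_zero N
  have g0 := card_erase_of_mem hj
  obtain ⟨w1, w2, w3⟩ := mem_qa.mp hw
  obtain ⟨i1, i2⟩ := mem_df.mp hi
  have ij : i ≠ j := fun e => i2 (e ▸ w2.symm)
  have i3 : i ∈ D.erase j := mem_erase.mpr ⟨ij, i1⟩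
  have h1 := fl_mem_Sub hj h.hu
  obtain ⟨H1, T1, P1, I, K, g1, p1, p2, k1, k2, p3, mI, cI⟩ := prepW h hj hP hS hw a0
    (fun x hx => (h.f2 x (qa_sub hx)).trans (df_fl_ge D (c.symm.trans (mem_qa.mp hx).2.1.symm)))
    ut hN (by omega)
  have cB : #(qa U (par u) (fl u j j) j) ≤ t := (card_le_card qa_sub).trans ut
  obtain ⟨gA, gB⟩ := fin2 g1 hj c fun z hz => (mI z hz).1 ▸ hne.symm
  rw [filter_insert, if_pos w2, filter_false_of_mem fun z hz => (mem_qa.mp hz).2.1 ▸ hne.symm] at gA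
  rw [filter_insert, if_neg (w2 ▸ hne), filter_true_of_mem fun z hz => (mem_qa.mp hz).2.1] at gB
  have pB : ∀ z ∈ I ∪ qa U (par u) (fl u j j) j, par z = par u := fun z hz =>
    (mem_union.mp hz).elim (fun k => (mI z k).2.1) fun k => (mem_qa.mp k).2.2
  have O1 := gB.ok1 pB j
  have uA : u ∈ Sub (D.erase j) u := gA.sX (by simp)
  have vA : v ∈ Sub (D.erase j) u := gA.sX (by simp)
  have wA : w ∈ Sub (D.erase j) u := gA.sU (by simp)
  have uv : u ≠ v := fun e => h.pr (by rw [e])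
  have gN := gA.side i3 uA (X0 := insert u (if v i = u i then {v} else ∅)) (U0 := ∅) (fun z => by
    split_ifs with d <;> simp only [mem_insert, mem_singleton, notMem_empty, or_false]
    · exact ⟨fun k => ⟨k, by rcases k with rfl | rfl; exacts [rfl, d]⟩, fun k => k.1⟩
    · exact ⟨fun k => ⟨Or.inl k, by rw [k]⟩, fun k => k.1.resolve_right fun a => d (a ▸ k.2)⟩)
    fun z => by
      simp only [notMem_empty, insert_empty_eq, mem_singleton, false_iff, not_and]
      exact fun a k => i2 (a ▸ k.symm)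
  have O0 := gN.ok (fun p hp q hq d => by
    have a : v i = u i → 2 ≤ #(df ((D.erase j).erase i) u v) := fun a => le_trans (by norm_num)
      (h.uv.trans ((df_erase_eq D c).trans (df_erase_eq _ a.symm)))
    rw [union_empty] at hq
    split_ifs at hp hq with e <;>
      simp only [mem_insert, mem_singleton, notMem_empty, or_false] at hp hq
    · rcases hp with rfl | rfl <;> rcases hq with rfl | rfl
      exacts [absurd rfl d, a e, df_comm _ _ _ ▸ a e, absurd rfl d]
    · exact absurd (by rw [hp, hq]) d) j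
  obtain ⟨p, a1, -, a2⟩ := cross_of_odd hj h1 p1 (by
    rw [gB.even (by omega), Nat.even_iff]; omega)
  obtain ⟨a3, -, a4⟩ := p1 p a1
  have d1 := cn_gd (D := D) (P := P) u hj
  have d2 := gd_change (D := D) k2 u j
  have b0' := card_B_le (c := cfE (insert u (if v i = u i then {v} else ∅)) ∅ j)
  have b1' := card_B_le (c := cfE I (qa U (par u) (fl u j j) j) j)
  have b2' : #(insert u (if v i = u i then ({v} : Finset (V n)) else ∅)) ≤ 2 :=
    (card_insert_le _ _).trans (by split_ifs <;> simp)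
  simp only [cfE, card_empty] at b0' b1'
  obtain ⟨x', l, m, H2, P2, K0, K1, n1, q1, -, q2, R⟩ := move2 (N := N) (F := {p, P1 p}) hj h.hu h1
    hne p1 p2 O0 O1 rfl rfl (x := u) (by simp [cfE])
    (fun q hq => far1 h.hu hj (O1.sub hq) (pB q (cfE_B.mp hq))) (by simp only [cfE]; omega)
    (by simp only [cfE]; omega) (insert_subset a1 (singleton_subset_iff.mpr a3)) (fun z hz => by
      rcases mem_insert.mp hz with rfl | hz
      · simp
      · rw [mem_singleton.mp hz, a4]; simp) (card_le_two.trans (by norm_num)) (by omega)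
      (by omega) ij
  have x10 : #((cfE I (qa U (par u) (fl u j j) j) j).addX x').X =
      #((cfE I (qa U (par u) (fl u j j) j) j).addX x').U := by
    show #(insert x' I) = #(qa _ _ _ _)
    rw [card_insert_of_notMem (s := I) fun hh => n1 (mem_B.mpr (Or.inl hh)), cI]
  have cX : ((cfE (insert u (if v i = u i then {v} else ∅)) ∅ j).toSq u l m).X =
      if v i = u i then {v} else ∅ := erase_insert (by split_ifs <;> simp [uv])
  refine p3 (R.2.2.2.2 (splitW hj h1 h.hu hne.symm R.1 R.2.1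
    ((K1.even_iff (by omega)).mpr ⟨_, by rw [x10]⟩)
    ⟨p, R.2.2.2.1 (by simp), by rw [R.eq p (by simp)]; exact a2⟩
    (hT n N t _ _ _ _ _ (par u) K1 (par_addX pB q1) x10 cB (by simp [Cf.addX, cfE]; omega)
      (by omega)) fun P' r1 r2 r3 => ?_))
  refine t1x (N := N) (t := t) hF hL hT i3 uA K0 rfl (by simp [Cf.toSq, cfE]) wA i2 vA w3.symm
    (fun e => h.vU (e ▸ w1)) (fun y hy => ?_) cX r1 r2 (by have := card_pos.mpr h.ne; omega) hN
    (fun e => ?_) (by omega)
  · obtain ⟨y1, y2⟩ := (mem_Sub_erase wA i3).mp hy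
    rw [q2 y ((mem_Sub_erase h.hu hj).mp y1).2 (y2 ▸ i2.symm), gA.hH y y1, gA.hT y y1]
    simp only [mem_insert, mem_singleton, notMem_empty, or_false, and_true]
    exact ⟨fun k => k.resolve_left fun a => i2 (a ▸ y2), Or.inr⟩
  · have lm : l ≠ m := by simpa [Cf.toSq] using (K0.lm u (by simp [Cf.toSq]) u (by simp [Cf.toSq])).1
    have d3 := gd_in (i := i) hj h.hu h.hv c.symm R.1 r3 (insert v (Sub {l, m} u)) fun g hg gi d => by
      have a := (K0.hH _ (fl_mem_Sub (mem_erase.mpr ⟨gi, hg⟩)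
        ((mem_Sub_erase uA i3).mpr ⟨vA, e⟩))).mp d
      rw [cX, if_pos e] at a
      simpa [Cf.toSq, cfE] using a
    have d4 := card_insert_le v (Sub {l, m} u)
    rw [card_sq lm] at d4
    obtain ⟨K', k3, k5, -⟩ := R.2.2.1
    have d5 := cn_change (D := D) (j := j) (fun p hp => (k5 p hp).symm) v
    have d6 := cn_change (D := D) (j := j) (fun p hp => (k2 p hp).symm) v
    have d7 := gd_change (D := D) k2 v i
    have d8 := gd_change (D := D) k5 v i
    have d9 := bi e.symm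
    simp only [bk, mem_filter, mem_univ, true_and, not_lt] at d9
    omega

/-- the ends are separated, both move -/
theorem dM0 (hF : FarSt) (hL : LinkSt) (hT : TMSt) (h : G1 D b H T u v U) (hj : j ∈ D)
    (c : u j ≠ v j) (hP : Inv (Po D b H T) P) (hS : SP (Po D b H T) P)
    (hw : w ∈ qa U (par v) (u j) j) (a0 : #(qa U (par u) (u j) j) = 0) (hi : i ∈ df D u w)
    (vi : u i ≠ v i) (f : ∀ x ∈ qa U (par v) (u j) j, 2 ≤ #(df D v (fl x j)))
    (bu : j ∉ bk D P u) (bv : j ∉ bk D P v) (ut : #U ≤ t) (hN : (t + 1) ^ 2 + 10 ≤ N)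
    (hD : 50 * N ^ 2 + 100 + 5 * N + t + 2 ≤ #D) : Good adp (Po D b H T) P := by
  have hne := side_ne u j
  have sq : (t + 1) ^ 2 = t ^ 2 + 2 * t + 1 := by ring
  have k4 : N ≤ N ^ 2 := Nat.le_self_pow two_ne_zero N
  have g0 := card_erase_of_mem hj
  obtain ⟨w1, w2, w3⟩ := mem_qa.mp hw
  obtain ⟨i1, i2⟩ := mem_df.mp hi
  have ij : i ≠ j := fun e => i2 (e ▸ w2.symm)
  have i3 : i ∈ D.erase j := mem_erase.mpr ⟨ij, i1⟩
  have h1 := fl_mem_Sub hj h.hu
  have vj : v j = fl u j j := z2_two hne c.symm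
  obtain ⟨H1, T1, P1, I, K, g1, p1, p2, k1, k2, p3, mI, cI⟩ := prepW h hj hP hS hw a0 f
    ut hN (by omega)
  have cB : #(qa U (par u) (fl u j j) j) ≤ t := (card_le_card qa_sub).trans ut
  have gA := g1.side hj h.hu (X0 := {u}) (U0 := {w}) (fun z => by
      simp only [mem_union, mem_insert, mem_singleton]
      refine ⟨fun k => ⟨Or.inl (Or.inl k), by rw [k]⟩, ?_⟩
      rintro ⟨(k | rfl) | k, k'⟩
      exacts [k, absurd k'.symm c, absurd (k'.symm.trans (mI z k).1) hne]) fun z => by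
      simp only [mem_insert, mem_singleton]
      exact ⟨fun k => ⟨Or.inl k, k ▸ w2⟩, fun k => k.1.resolve_right fun a =>
        hne (k.2.symm.trans (mem_qa.mp a).2.1)⟩
  have gB := g1.side hj h1 (X0 := insert v I) (U0 := qa U (par u) (fl u j j) j) (fun z => by
      simp only [mem_union, mem_insert, mem_singleton]
      constructor
      · rintro (rfl | k)
        exacts [⟨Or.inl (Or.inr rfl), vj⟩, ⟨Or.inr k, (mI z k).1⟩]
      · rintro ⟨(rfl | k) | k, k'⟩
        exacts [absurd k' hne, Or.inl k, Or.inr k]) fun z => by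
      simp only [mem_insert]
      exact ⟨fun k => ⟨Or.inr k, (mem_qa.mp k).2.1⟩, fun k => k.1.resolve_left fun a =>
        hne (w2.symm.trans (a ▸ k.2))⟩
  have pB : ∀ z ∈ I ∪ qa U (par u) (fl u j j) j, par z = par u ∧ 2 ≤ #(df (D.erase j) v z) :=
    fun z hz => (mem_union.mp hz).elim
      (fun k => ⟨(mI z k).2.1, (mI z k).2.2.trans (df_erase_eq D (vj.trans (mI z k).1.symm))⟩)
      fun k => ⟨(mem_qa.mp k).2.2, (h.f2 z (qa_sub k)).trans
        (df_erase_eq D (vj.trans (mem_qa.mp k).2.1.symm))⟩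
  have O1 := gB.ok (fun p hp q hq d => by
    rw [insert_union] at hq
    rcases mem_insert.mp hp with rfl | hp' <;> rcases mem_insert.mp hq with rfl | hq'
    exacts [absurd rfl d, (pB q hq').2, df_comm _ _ _ ▸ (pB p (mem_union_left _ hp')).2,
      absurd ((pB p (mem_union_left _ hp')).1.trans (pB q hq').1.symm) d]) j
  have uA : u ∈ Sub (D.erase j) u := gA.sX (by simp)
  have wA : w ∈ Sub (D.erase j) u := gA.sU (by simp)
  have gN := gA.side i3 uA (X0 := {u}) (U0 := ∅)
    (fun z => ⟨fun k => ⟨k, by rw [mem_singleton.mp k]⟩, fun k => k.1⟩) fun z => by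
      simp only [notMem_empty, mem_singleton, false_iff, not_and]
      exact fun a k => i2 (a ▸ k.symm)
  have O0 := gN.ok1 (π := par u) (fun z hz => by rw [union_empty, mem_singleton] at hz; rw [hz]) j
  have d2 := gd_change (D := D) k2 u j
  have d3 := gd_change (D := D) k2 v j
  have b0' := card_B_le (c := cfE {u} ∅ j)
  have b1' := card_B_le (c := cfE (insert v I) (qa U (par u) (fl u j j) j) j)
  have vI : v ∉ I := fun d => h.pr (mI v d).2.1.symm
  have b2' := card_insert_of_notMem vI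
  simp only [cfE, card_empty, card_singleton] at b0' b1'
  simp only [bk, mem_filter, mem_univ, true_and, not_lt] at bu bv
  obtain ⟨x', l, m, H2, P2, K0, K1, n1, q1, -, q2, R⟩ := move2 (N := N) (F := ∅) hj h.hu h1
    hne p1 p2 O0 O1 rfl rfl (x := u) (by simp [cfE]) (fun q hq => by
      have a := cfE_B.mp hq
      rw [insert_union] at a
      rcases mem_insert.mp a with rfl | a
      · have := h.uv
        have := df_erase_le D u q j
        omega
      · exact far1 h.hu hj (O1.sub hq) (pB q a).1) (by simp only [cfE]; omega)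
    (by simp only [cfE]; omega) (empty_subset _) (fun _ hh => absurd hh (notMem_empty _))
    (by simp) (by omega) (by omega) ij
  have d4 := R.gd_le D v j
  have lm : l ≠ m := by simpa [Cf.toSq] using (K0.lm u (by simp [Cf.toSq]) u (by simp [Cf.toSq])).1
  have nH : ∀ z ∈ Sub ((D.erase j).erase i) u, z ∈ H2 ↔ z ∈ Sub {l, m} u := fun z hz => by
    simpa [Cf.toSq, cfE] using K0.hH z hz
  have fH : ∀ z ∈ Sub (D.erase j) u, z i ≠ u i → z ∉ H2 := fun z hz d a => by
    rw [q2 z ((mem_Sub_erase h.hu hj).mp hz).2 d, gA.hH z hz, mem_singleton] at a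
    exact d (by rw [a])
  have nI : i ∉ ({l, m} : Finset (Fin n)) := fun d => notMem_erase i _ (K0.sg (mem_Sg.mpr
    ⟨u, by simp [Cf.toSq], by simpa [Cf.toSq] using d⟩))
  refine p3 (R.2.2.2.2 (mvR (N := N) (t := t) (π0 := par u) hT hj h1 h.hu hne.symm R.1 R.2.1 K1
    (x := v) (by simp [Cf.addX, cfE]) (fun z hz => ?_) ?_ cB (by simp [Cf.addX, cfE])
    (insert w (Sub {l, m} u)) (fun z hz d => ?_) ?_ (fun q hq => ?_) i hN (by omega) (by omega)
    fun z H3 z1 z2 z3 z4 z5 P3 r1 r2 => ?_))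
  · simp only [Cf.addX, cfE, mem_union, mem_erase, mem_insert] at hz
    rcases hz with ⟨k, rfl | k' | k'⟩ | k
    exacts [q1, absurd k' k, (mI z k').2.1, (mem_qa.mp k).2.2]
  · show #(insert x' (insert v I)) = #(qa _ _ _ _) + 1
    rw [card_insert_of_notMem (s := insert v I) fun hh => n1 (mem_B.mpr (Or.inl hh))]
    omega
  · rcases d with d | d
    · exact mem_insert_of_mem ((nH z ((mem_Sub_erase uA i3).mpr
        ⟨hz, by_contra fun a => fH z hz a d⟩)).mp d)
    · rw [mem_singleton.mp ((gA.hT z hz).mp d)]; simp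
  · have := card_insert_le w (Sub {l, m} u)
    rw [card_sq lm] at this
    omega
  · rcases mem_insert.mp hq with rfl | hq
    · have := h.f2 q w1
      have := df_erase_le D v q j
      omega
    · exact card_pos.mpr ⟨i, mem_df.mpr ⟨i3, by rw [mem_Sub.mp hq i nI]; exact vi.symm⟩⟩
  · have zi : z i ≠ u i := z3 ij ▸ vi.symm
    refine t1x (N := N) (t := t) hF hL hT i3 uA (K0.congrH fun y hy => ?_) rfl
      (by simp [Cf.toSq, cfE]) wA i2 z1 (z2.trans w3.symm) (fun e => ?_) (fun y hy => ?_)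
      (by rw [if_neg zi]; simp [Cf.toSq, cfE]) r1 r2 (by have := card_pos.mpr h.ne; omega) hN
      (fun e => absurd e zi) (by omega)
    · obtain ⟨y1, y2⟩ := (mem_Sub_erase uA i3).mp hy
      rw [z5 y y1]
      exact ⟨fun k => k.resolve_left fun a => zi (a ▸ y2), Or.inr⟩
    · have := (z4 w (by simp)).1
      rw [e, df_self] at this
      omega
    · obtain ⟨y1, y2⟩ := (mem_Sub_erase wA i3).mp hy
      rw [z5 y y1, gA.hT y y1, mem_singleton]
      exact ⟨⟨fun k => k.resolve_right (fH y y1 (y2 ▸ i2.symm)), Or.inl⟩, Iff.rfl⟩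

end Pool.Agent.Lib.MP_88ff4d_co.NP
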