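import Pool.Agent.Lib.MP_88ff4d_co.NP.K5

/-! One free end: separated ends, and the case distinction on one side. -/

set_option autoImplicit false

namespace Pool.Agent.Lib.MP_88ff4d_co.NP

open Finset

variable {n : ℕ} {D : Finset (Fin n)} {b : V n} {H T U : Finset (V n)}
  {P : V n × Bool → V n × Bool} {i j : Fin n} {N t s : ℕ} {u v w : V n}

theorem G1.nfl (h : G1 D b H T u v U) {x : V n} (hx : x ∈ U) (c : x j = u j) :
    fl x j ∉ ({u, v} : Finset (V n)) := fun d => by
  rcases mem_insert.mp d with d | d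
  · exact z2_ne _ ((fl_apply_self x j).symm.trans (by rw [d, c]))
  · have := h.f2 x hx
    have a := df_adj D v (adj_fl x j)
    rw [mem_singleton.mp d, df_self] at a
    omega

theorem pair_side (c : u j ≠ v j) : ({u, v} : Finset (V n)).filter (· j = u j) = {u} ∧
    ({u, v} : Finset (V n)).filter (· j = v j) = {v} := by
  constructor <;> ext z <;> simp only [mem_filter, mem_insert, mem_singleton]
  · exact ⟨fun k => k.1.resolve_right fun a => c (a ▸ k.2.symm), fun k => ⟨Or.inl k, by rw [k]⟩⟩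
  · exact ⟨fun k => k.1.resolve_left fun a => c (a ▸ k.2), fun k => ⟨Or.inr k, by rw [k]⟩⟩

/-- the ends lie on the right sides -/
theorem dP (hF : FarSt) (hL : LinkSt) (hT : TMSt) (h : G1 D b H T u v U) (hj : j ∈ D)
    (c : u j ≠ v j) (hP : Inv (Po D b H T) P) (hS : SP (Po D b H T) P)
    (lt : #(qa U (par v) (u j) j) < #(qa U (par u) (u j) j)) (ut : #U ≤ t)
    (hN : (t + 1) ^ 2 + 10 ≤ N) (hD : 50 * N ^ 2 + 100 + 5 * N + t + 1 ≤ #D) :
    Good adp (Po D b H T) P := by
  obtain ⟨C, hC, cc⟩ := exists_subset_card_eq (s := qa U (par u) (u j) j)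
    (n := #(qa U (par u) (u j) j) - #(qa U (par v) (u j) j) - 1) (by omega)
  obtain ⟨H1, T1, P1, I, g1, R1, cI, dI, mI⟩ := h.cg.cross hP hS hj (hC.trans qa_sub)
    fun x hx => h.nfl (qa_sub (hC hx)) (mem_qa.mp (hC hx)).2.1
  have hI : ∀ z ∈ I, z j ≠ u j ∧ par z = par v := fun z hz => by
    obtain ⟨x, hx, rfl⟩ := mI z hz
    exact fl_prop (hC hx) h.pr
  have k0 := h.cards j c
  have k1 := qa_sd1 hC
  refine R1.2.2.2 (mxO (N := N) (t := t) hF hL hT g1 hj h.hu h.hv c R1.1 R1.2.1
    (fun s => if s = u j then par u else par v) (fun z hz => ?_) (fun s => ?_)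
    ((card_le_card sdiff_subset).trans ut)
    (by have := card_union_le {u, v} I; have := h.c2; omega) (v := v) (by simp) hN hD)
  · simp only [mem_union, mem_insert, mem_singleton] at hz
    rcases hz with (rfl | rfl) | k
    exacts [(if_pos rfl).symm, (if_neg c.symm).symm, (hI z k).2.trans (if_neg (hI z k).1).symm]
  · rw [card_side dI]
    by_cases e : s = u j
    · rw [if_pos e, e, (pair_side c).1, filter_false_of_mem fun z hz => (hI z hz).1, ff3 h.pr,
        qa_sd2 hC (Or.inl h.pr.symm)]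
      show _ = #(qa _ _ _ _)
      simp only [card_singleton, card_empty]
      omega
    · rw [if_neg e, z2_two c e, (pair_side c).2,
        filter_true_of_mem fun z hz => z2_two c (hI z hz).1, ff3 h.pr.symm,
        qa_sd2 hC (Or.inr c.symm)]
      show _ = #(qa _ _ _ _)
      rw [qa_sd2 hC (Or.inr c.symm), card_singleton]
      omega

/-- targets whose neighbour in direction `j` is adjacent to `v` -/
def un1 (D : Finset (Fin n)) (v : V n) (U : Finset (V n)) (j : Fin n) : Finset (V n) :=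
  U.filter fun x => ¬ 2 ≤ #(df D v (fl x j))

/-- `v` joins `u` -/
theorem dM1 (hT : TMSt) (ih : KI n N t s) (h : G1 D b H T u v U) (hj : j ∈ D) (c : u j ≠ v j)
    (hP : Inv (Po D b H T) P) (hS : SP (Po D b H T) P) (a0 : 1 ≤ #(qa U (par u) (u j) j))
    (le : #(qa U (par u) (u j) j) ≤ #(qa U (par v) (u j) j))
    (hun : #(un1 D v U j) ≤ #(qa U (par u) (u j) j)) (us : 2 * #(qa U (par u) (u j) j) ≤ s)
    (bv : j ∉ bk D P v) (ut : #U ≤ t) (hN : (t + 1) ^ 2 + 10 ≤ N)
    (hD : 50 * N ^ 2 + 100 + 5 * N + t + 2 * s + 4 ≤ #D) : Good adp (Po D b H T) P := by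
  have sq : (t + 1) ^ 2 = t ^ 2 + 2 * t + 1 := by ring
  have k4 : N ≤ N ^ 2 := Nat.le_self_pow two_ne_zero N
  have g0 := card_erase_of_mem hj
  obtain ⟨C, hC', cc⟩ := exists_subset_card_eq (s := qa U (par v) (u j) j \ un1 D v U j)
    (n := #(qa U (par v) (u j) j) - #(qa U (par u) (u j) j)) (by
      have := le_card_sdiff (un1 D v U j) (qa U (par v) (u j) j); omega)
  have hC := hC'.trans sdiff_subset
  obtain ⟨H1, T1, P1, I, g1, R1, cI, dI, mI⟩ := h.cg.cross hP hS hj (hC.trans qa_sub)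
    fun x hx => h.nfl (qa_sub (hC hx)) (mem_qa.mp (hC hx)).2.1
  have k0 := h.cards j c
  have k1 := qa_sd2 (π' := par v) (e' := v j) hC (Or.inr c.symm)
  have c3 : #({u, v} ∪ I) = 2 + #I := by rw [card_union_of_disjoint dI, h.c2]
  obtain ⟨H2, T2, P2, I2, g, gj, g2, R2, hI2, d2, f2⟩ := g1.gen (C := qa (U \ C) (par v) (v j) j)
    R1.1 R1.2.1 j qa_sub h.hv (fun d => h.vU (mem_sdiff.mp d).1) (by
      have := bud hN (a := #(qa (U \ C) (par v) (v j) j)) (c := #({u, v} ∪ I))
        (by rw [k1]; omega) (by omega)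
      omega)
  have c4 : #I2 = #(qa U (par v) (v j) j) := by
    rw [hI2, card_image_of_injective _ (fl_left_inj g), k1]
  have mJ : ∀ z ∈ I ∪ I2, z j = v j ∧ par z = par u ∧ 2 ≤ #(df D v z) := fun z hz => by
    rcases mem_union.mp hz with k | k
    · obtain ⟨x, hx, rfl⟩ := mI z k
      exact ⟨z2_two c (fl_prop (hC hx) h.pr.symm).1, (fl_prop (hC hx) h.pr.symm).2, by_contra
        fun d => (mem_sdiff.mp (hC' hx)).2 (mem_filter.mpr ⟨qa_sub (hC hx), d⟩)⟩
    · refine ⟨?_, ?_, f2 z k⟩ <;> obtain ⟨x, hx, rfl⟩ := mem_image.mp (hI2 ▸ k)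
      · rw [fl_apply_ne x gj.symm]; exact (mem_qa.mp hx).2.1
      · rw [par_fl, (mem_qa.mp hx).2.2]; exact z2_a h.pr.symm
  have dJ : Disjoint ({u, v} : Finset (V n)) (I ∪ I2) :=
    disjoint_union_right.mpr ⟨dI, d2.mono subset_union_left le_rfl⟩
  have c5 : #(I ∪ I2) = #I + #I2 := card_union_of_disjoint (d2.mono subset_union_right le_rfl)
  rw [union_assoc] at g2
  have d1 := R1.gd_le D v j
  have d3 := R2.gd_le D v j
  rw [k1] at d3
  have k2 := qa_sd1 (Subset.refl (qa (U \ C) (par v) (v j) j))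
  have k3 := qa_side (U := (U \ C) \ qa (U \ C) (par v) (v j) j) (j := j) (e := v j) h.pr
  rw [qa_sd2 Subset.rfl (Or.inl h.pr), qa_sd2 hC (Or.inl h.pr)] at k3
  have k5 := qa_sd1 hC
  have sU : (U \ C) \ qa (U \ C) (par v) (v j) j ⊆ U := sdiff_subset.trans sdiff_subset
  simp only [bk, mem_filter, mem_univ, true_and, not_lt] at bv
  refine R1.2.2.2 (R2.2.2.2 (mvV (N := N) (t := t) (π := par u) hT g2 hj (by simp) h.hu c.symm
    R2.1 R2.2.1 (fun z hz d d' => ?_) (fun z hz d => ?_) ?_ ((card_le_card sU).trans ut)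
    (by have := card_union_le {u, v} (I ∪ I2); have := h.c2; omega)
    hN (by omega) (by omega) fun x' H' q1 q2 q3 => ?_))
  · rcases mem_union.mp hz with k | k
    · rcases mem_union.mp k with k | k
      · exact (mem_insert.mp k).elim (fun a => by rw [a]) fun a => absurd (mem_singleton.mp a) d'
      · exact (mJ z k).2.1
    · exact z2_two h.pr.symm fun a => (mem_sdiff.mp k).2 (mem_qa.mpr ⟨(mem_sdiff.mp k).1, d, a⟩)
  · rcases mem_union.mp hz with k | k
    · rcases mem_union.mp k with k | k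
      · obtain rfl := (mem_insert.mp k).resolve_right fun a => d (mem_singleton.mp a)
        rw [df_comm]; exact le_trans (by norm_num) h.uv
      · exact (mJ z k).2.2
    · exact h.f2 z (sU k)
  · rw [card_side dJ, (pair_side c).2, filter_true_of_mem fun z hz => (mJ z hz).1, card_singleton]
    omega
  · rw [filter_union, (pair_side c).1, filter_false_of_mem fun z hz => (mJ z hz).1 ▸ c.symm,
      union_empty, pair_comm] at q3
    refine ih.side q3 (q1 ▸ h.pr) (by
        rw [df_comm]; exact (q2 u (by simp) rfl).2 (df_comm D u v ▸ h.uv))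
      (fun x hx d => (q2 x (mem_union_right _ hx) d).1) ?_ ?_ ?_ (by omega) <;>
      simp only [q1, qa_sd2 Subset.rfl (Or.inr c), qa_sd2 hC (Or.inl h.pr)] <;> omega

theorem other_pos (h : G1 D b H T u v U) (x : ∃ x ∈ U, x j ≠ u j) :
    1 ≤ #(qa U (par u) (fl u j j) j) + #(qa U (par v) (fl u j j) j) := by
  obtain ⟨x, hx, c⟩ := x
  rw [← qa_side h.pr]
  exact card_pos.mpr ⟨x, mem_filter.mpr ⟨hx, z2_two (side_ne u j) c⟩⟩

/-- both ends and a target of the parity of `u` on one side -/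
theorem s12 (hF : FarSt) (hL : LinkSt) (hT : TMSt) (ih : KI n N t s) (h : G1 D b H T u v U)
    (hj : j ∈ D) (c : u j = v j) (hP : Inv (Po D b H T) P) (hS : SP (Po D b H T) P)
    (a0 : 1 ≤ #(qa U (par u) (u j) j)) (x : ∃ x ∈ U, x j ≠ u j) (us : #U ≤ s + 1) (ut : #U ≤ t)
    (hN : (t + 1) ^ 2 + 10 ≤ N) (hD : 50 * N ^ 2 + 100 + 5 * N + t + 2 * s + 4 ≤ #D) :
    Good adp (Po D b H T) P := by
  have sq : (t + 1) ^ 2 = t ^ 2 + 2 * t + 1 := by ring
  have k4 : N ≤ N ^ 2 := Nat.le_self_pow two_ne_zero N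
  have k0 := h.cards j (side_ne u j)
  have k1 := other_pos h x
  have d1 := cn_gd (D := D) (P := P) v hj
  by_cases a1 : #(qa U (par v) (u j) j) = 0
  · by_cases e : 4 * #(qa U (par u) (u j) j) + 2 ≤ #(cn D P v j)
    · exact sT hF hL hT ih h hj c hP hS (Or.inl ⟨rfl, rfl⟩) a1 (Or.inr e) ut hN hD
    · exact sD (N := N) (t := t) hT h hj c hP hS a0 a1 ut hN (by omega) (by omega)
  rcases lt_trichotomy #(qa U (par u) (u j) j) #(qa U (par v) (u j) j) with e | e | e
  · exact sB hT ih h hj c hP hS (Or.inr ⟨rfl, rfl⟩) a0 e us ut hN hD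
  · by_cases d : #(cn D P v j) = 0
    · exact sC hT ih h hj c hP hS a0 e (by omega) us ut hN (by omega) hD
    obtain ⟨l, hl⟩ := card_pos.mp (Nat.pos_of_ne_zero d)
    obtain ⟨l1, l2⟩ := mem_filter.mp hl
    obtain ⟨l3, l4⟩ := mem_erase.mp l1
    obtain ⟨r1, r2, r3, -⟩ := finS (C := ∅) (I := ∅) (H' := H) (T' := T) hT ih h hj c
      (Or.inl ⟨rfl, rfl⟩) (empty_subset _) (by rw [card_empty]; omega) (by simpa using h.cg) rfl
      (fun z hz => absurd hz (notMem_empty z)) ut hN hD
    refine split hj h.hu (fl_mem_Sub hj h.hu) (side_ne u j) hP hS r2 ⟨(fl v l, false),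
      mem_Po_f.mpr ⟨fl_mem_Sub l4 h.hv, fun a => ?_⟩, ?_⟩ (r3 (by omega) (by omega)) r1
    · rcases mem_insert.mp ((h.cg.hH _ (fl_mem_Sub l4 h.hv)).mp a) with a | a
      · have := df_adj D u (adj_fl v l)
        rw [a, df_self] at this
        have := h.uv
        omega
      · exact fl_ne v l (mem_singleton.mp a)
    · simp only [fl_apply_ne v l3.symm]
      exact l2
  · exact sB hT ih h hj c hP hS (Or.inl ⟨rfl, rfl⟩) (by omega) e us ut hN hD

/-- all targets lie beyond the direction of the target next to `u` -/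
theorem s0 (hF : FarSt) (hL : LinkSt) (hT : TMSt) (ih : KI n N t s) (h : G1 D b H T u v U)
    (hi : i ∈ D) (c : u i = v i) (hP : Inv (Po D b H T) P) (hS : SP (Po D b H T) P)
    (hx : fl u i ∈ U) (all : ∀ z ∈ U, z i ≠ u i) (J : ∀ j ∈ Jd D U, u j ≠ v j) (us : #U ≤ s + 1)
    (ut : #U ≤ t) (hN : (t + 1) ^ 2 + 10 ≤ N)
    (hD : 50 * N ^ 2 + 100 + 5 * N + t + 2 * s + 5 ≤ #D) : Good adp (Po D b H T) P := by
  have sq : (t + 1) ^ 2 = t ^ 2 + 2 * t + 1 := by ring
  have k4 : N ≤ N ^ 2 := Nat.le_self_pow two_ne_zero N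
  have g0 := card_erase_of_mem hi
  have hne := side_ne u i
  have h1 := fl_mem_Sub hi h.hu
  have z0 : ∀ π, #(qa U π (u i) i) = 0 := fun π => card_eq_zero.mpr
    (filter_false_of_mem fun z hz d => all z hz d.1)
  by_cases e : 2 ≤ #(cn D P u i) ∨ 2 ≤ #(cn D P v i)
  · exact sT hF hL hT ih h hi c hP hS (Or.inl ⟨rfl, rfl⟩) (z0 _) (by rw [z0]; exact e) ut hN
      (by omega)
  have k0 := h.cards i hne
  obtain ⟨y, hy⟩ := card_pos.mp (by
    have := card_pos.mpr h.ne; have := z0 (par u); omega : 0 < #(qa U (par u) (fl u i i) i))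
  obtain ⟨y1, y2, y3⟩ := mem_qa.mp hy
  obtain ⟨l, hl, hb⟩ := exists_avoid (A := df D (fl u i) y)
    (Bd := cn D P u i ∪ bk (D.erase i) P u) (by
      have := h.cg.o3 _ hx y y1 (by rw [par_fl, y3]; exact z2_ne _)
      have := card_union_le (cn D P u i) (bk (D.erase i) P u)
      have := bk_le (D := D.erase i) (P := P) u
      omega)
  obtain ⟨l1, l2⟩ := mem_df.mp hl
  have li : l ≠ i := fun d => l2 (d ▸ y2.symm)
  have l4 : l ∈ D.erase i := mem_erase.mpr ⟨li, l1⟩
  have l5 : u l ≠ v l := J l (mem_filter.mpr ⟨l1, _, hx, y, y1, l2⟩)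
  simp only [mem_union, cn, bk, mem_filter, mem_univ, true_and, not_or, not_lt, l4, not_not] at hb
  obtain ⟨gA, gB⟩ := fin2 (I := ∅) (by simpa using h.cg) hi c fun z hz => absurd hz (notMem_empty z)
  rw [filter_false_of_mem all] at gA
  rw [filter_true_of_mem fun z hz => z2_two hne (all z hz)] at gB
  have uv : 3 ≤ #(df (D.erase i) u v) := h.uv.trans (df_erase_eq D c)
  have uA : u ∈ Sub (D.erase i) u := gA.sX (by simp)
  have O0 := gA.ok (fun p hp q hq d => by
    simp only [union_empty, mem_insert, mem_singleton] at hp hq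
    rcases hp with rfl | rfl <;> rcases hq with rfl | rfl
    exacts [absurd rfl d, by omega, by rw [df_comm]; omega, absurd rfl d]) i
  have a1 := fl_mem_Sub l4 uA
  have a2 := fl_mem_Sub l1 h.hu
  have e0 : fl (fl u l) i = fl (fl u i) l := fl_comm _ _ _
  have e2 : fl (fl u i) l ∈ Sub (D.erase i) (fl u i) := fl_mem_Sub l4 (gB.sU hx)
  have e3 := h.cg.nU hx (adj_fl _ l)
  obtain ⟨P1, R1⟩ := edgeR (F := ∅) hP hS a2 (fl_mem_Sub hi a2) ⟨fun d => by
      rcases mem_insert.mp ((gA.hH _ a1).mp d) with d | d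
      · exact fl_ne u l d
      · have := df_adj D v (adj_fl u l)
        rw [mem_singleton.mp d, df_self, df_comm] at this
        have := h.uv
        omega, fun d => notMem_empty _ ((gA.hT _ a1).mp d)⟩
    (e0 ▸ ⟨fun d => notMem_empty _ ((gB.hH _ e2).mp d), fun d => e3 ((gB.hT _ e2).mp d)⟩)
    (adj_fl _ _) (fun d => by
      have a := hb.1
      rw [d, e0] at a
      exact hne (a.symm.trans (fl_apply_ne _ li.symm))) (empty_subset _)
    (fun _ hh => absurd hh (notMem_empty _)) (notMem_empty _) (notMem_empty _)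
  rw [e0] at R1
  obtain ⟨Z, z1, z2⟩ := exists_subset_card_eq (s := (df (D.erase i) u v).erase l) (n := 2) (by
    have := pred_card_le_card_erase (s := df (D.erase i) u v) (a := l); omega)
  have z3 : df Z u v = Z := filter_true_of_mem fun k hk => (mem_df.mp (mem_of_mem_erase (z1 hk))).2
  have g1 := R1.gd_le (D.erase i) u l
  obtain ⟨m, H2, P2, -, K0, k2, R2⟩ := closeSq hi h.hu R1.1 R1.2.1 O0 (Z := Z)
    (by rw [Sg_empty rfl, sdiff_empty]
        exact fun k hk => (mem_df.mp (mem_of_mem_erase (z1 hk))).1) (fun p hp q hq d => by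
      have a := cfE_B.mp hp
      have a' := cfE_B.mp hq
      simp only [union_empty, mem_insert, mem_singleton] at a a'
      rcases a with rfl | rfl <;> rcases a' with rfl | rfl
      exacts [absurd rfl d, by rw [z3, z2], by rw [df_comm, z3, z2], absurd rfl d])
    (x := u) (by simp [cfE]) (l := l) (by rw [Sg_empty rfl, sdiff_empty]; exact l4)
    (fun d => (mem_erase.mp (z1 d)).1 rfl) (fun z hz => by
      simp only [mem_insert]
      refine ⟨fun k => k.elim Or.inl fun k => k.elim (fun a => absurd ?_ hne) Or.inr,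
        fun k => k.elim Or.inl fun k => Or.inr (Or.inr k)⟩
      rw [← ((mem_Sub_erase h.hu hi).mp hz).2, a, fl_apply_ne _ li.symm]) R1.2.2.2.1
      (fun _ hh => absurd hh (notMem_empty _)) ∅ (by rw [Sg_empty rfl, z2]; simp; omega)
  have R := R1.trans R2
  have d1 := cn_gd (D := D) (P := P) v hi
  have d2 := R.gd_le D v i
  have nuv : u ≠ v := fun a => h.pr (by rw [a])
  have cX : ((cfE {u, v} ∅ i).toSq u l m).X = {v} := erase_insert (by simpa using nuv)
  have hH2 : ∀ z ∈ Sub (D.erase i) (fl u i), z ∈ H2 ↔ z = fl (fl u i) l := fun z hz => by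
    have a := ((mem_Sub_erase h1 hi).mp hz).2
    rw [k2 z (a ▸ hne.symm), mem_insert, mem_insert, gB.hH z hz]
    exact ⟨fun k => k.elim (fun k => absurd (by rw [← a, k, fl_apply_ne u li.symm]) hne)
      fun k => k.resolve_right (notMem_empty z), fun k => Or.inr (Or.inl k)⟩
  have w2 : 2 ≤ #(df (D.erase i) v (fl (fl u i) l)) := by
    have a := df_adj (D.erase i) v (adj_fl (fl u i) l)
    rw [df_comm _ v (fl u i), df_congr (p' := u) fun k hk => fl_apply_ne u (mem_erase.mp hk).1] at a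
    omega
  have pw : par (fl (fl u i) l) = par u := by
    rw [par_fl, par_fl, add_assoc]
    simp [CharTwo.add_self_eq_zero]
  refine R.2.2.2.2 (mvR (N := N) (t := t) (π0 := 0) hT hi h.hu h1 hne R.1 R.2.1 K0 (x := v)
    (by rw [cX]; simp) (by rw [cX]; simp [Cf.toSq, cfE]) (by rw [cX]; rfl) (Nat.zero_le _)
    (by simp [Cf.toSq, cfE]) (insert (fl (fl u i) l) U) (fun z hz d => mem_insert.mpr
      (d.imp (hH2 z hz).mp (gB.hT z hz).mp)) ((card_insert_le _ _).trans (by omega))
    (fun q hq => ?_) l hN (by omega) (by omega) fun z H3 q1 q2 q3 q4 q5 P3 r1 r2 => ?_)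
  · rcases mem_insert.mp hq with rfl | hq
    · omega
    · have := h.f2 q hq
      have := df_erase_le D v q i
      omega
  · have g3 : G1 (D.erase i) (fl u i) H3 T (fl (fl u i) l) z U :=
      ⟨⟨insert_subset e2 (singleton_subset_iff.mpr q1), gB.sU, fun y hy => by
          rw [q5 y hy, hH2 y hy]; simp [or_comm], gB.hT,
        disjoint_insert_left.mpr ⟨e3, disjoint_singleton_left.mpr fun d => by
          have := (q4 z (mem_insert_of_mem d)).1
          rw [df_self] at this
          omega⟩, gB.o3⟩, by rw [pw, q2]; exact h.pr,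
        by rw [df_comm]; exact (q4 _ (by simp)).2 w2, fun x hx => (q4 x (mem_insert_of_mem hx)).1,
        by rw [pw, q2]; exact h.bal, h.ne⟩
    refine s12 hF hL hT ih g3 l4 ?_ r1 r2 (card_pos.mpr ⟨y, mem_qa.mpr ⟨y1, ?_, pw ▸ y3⟩⟩)
      ⟨_, hx, side_ne _ l⟩ us ut hN (by omega)
    · rw [q3 li, fl_apply_self, fl_apply_ne u li]
      exact z2_a l5
    · rw [fl_apply_self]
      exact (z2_a l2).symm

end Pool.Agent.Lib.MP_88ff4d_co.NP
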