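import Pool.Agent.Lib.MP_88ff4d_co.NP.K6

/-! One free end: choice of the direction and the induction. -/

set_option autoImplicit false

namespace Pool.Agent.Lib.MP_88ff4d_co.NP

open Finset

variable {n : ℕ} {D : Finset (Fin n)} {b : V n} {H T U : Finset (V n)}
  {P : V n × Bool → V n × Bool} {i j : Fin n} {N t s : ℕ} {u v w : V n}

theorem G1.card_J (h : G1 D b H T u v U) : 3 ≤ #(Jd D U) := by
  have a0 := card_filter_add_card_filter_not (s := U) (fun x => par x = par u)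
  have a1 : U.filter (fun x => ¬ par x = par u) = U.filter fun x => par x = par v :=
    filter_congr fun x _ => ⟨z2_two h.pr, fun e e' => h.pr (e'.symm.trans e)⟩
  rw [a1] at a0
  have a2 := card_pos.mpr h.ne
  have := h.bal
  obtain ⟨x, hx⟩ := card_pos.mp (by omega : 0 < #(U.filter fun x => par x = par u))
  obtain ⟨y, hy⟩ := card_pos.mp (by omega : 0 < #(U.filter fun x => par x = par v))
  obtain ⟨x1, x2⟩ := mem_filter.mp hx
  obtain ⟨y1, y2⟩ := mem_filter.mp hy
  exact (h.cg.o3 x x1 y y1 (by rw [x2, y2]; exact h.pr)).trans (card_le_card fun i hi =>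
    mem_filter.mpr ⟨(mem_df.mp hi).1, x, x1, y, y1, (mem_df.mp hi).2⟩)

/-- the choice of the direction when all directions that separate targets separate the ends -/
theorem G1.sel (h : G1 D b H T u v U) (J : ∀ j ∈ Jd D U, u j ≠ v j) {Bu Bv : Finset (Fin n)}
    (bu : #Bu ≤ 1) (bv : #Bv ≤ 1) : ∃ j ∈ Jd D U, j ∉ Bv ∧
      (1 ≤ #(qa U (par u) (u j) j) ∧ #(un1 D v U j) ≤ #(qa U (par u) (u j) j) ∨
        #(un1 D v U j) = 0 ∧ j ∉ Bu) := by
  by_cases c : ∀ j ∈ Jd D U, #(un1 D v U j) = 0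
  · obtain ⟨j, hj, hb⟩ := exists_avoid (A := Jd D U) (Bd := Bu ∪ Bv) (by
      have := card_union_le Bu Bv
      have := h.card_J
      omega)
    rw [mem_union, not_or] at hb
    exact ⟨j, hj, hb.2, Or.inr ⟨c j hj, hb.1⟩⟩
  push Not at c
  obtain ⟨j1, hj1, c⟩ := c
  obtain ⟨z1, hz1⟩ := card_pos.mp (Nat.pos_of_ne_zero c)
  obtain ⟨z2, z3⟩ := mem_filter.mp hz1
  obtain ⟨z4, z5⟩ := uns (h.f2 z1 z2) z3
  set Q := D.filter fun k => k ∉ Jd D U ∧ v k ≠ z1 k with hQ
  have q1 : #Q ≤ 1 := by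
    have a : Q ⊆ (df D v z1).erase j1 := fun k hk => by
      obtain ⟨k1, k2, k3⟩ := mem_filter.mp hk
      exact mem_erase.mpr ⟨fun e => k2 (e ▸ hj1), mem_df.mpr ⟨k1, k3⟩⟩
    have := card_le_card a
    rw [card_erase_of_mem z4] at this
    omega
  have q2 : ∀ w ∈ U, #(df D v w) = #(df (Jd D U) v w) + #Q := fun w hw => by
    rw [← card_union_of_disjoint (disjoint_left.mpr fun k a a' =>
      (mem_filter.mp a').2.1 (mem_df.mp a).1)]
    congr 1
    ext k
    have e : k ∈ D → k ∉ Jd D U → w k = z1 k := fun a a' => by_contra fun d =>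
      a' (mem_filter.mpr ⟨a, w, hw, z1, z2, d⟩)
    simp only [mem_union, mem_df, hQ, mem_filter (s := D) (p := fun k => k ∉ Jd D U ∧ v k ≠ z1 k)]
    constructor
    · rintro ⟨a1, a2⟩
      by_cases d : k ∈ Jd D U
      · exact Or.inl ⟨d, a2⟩
      · exact Or.inr ⟨a1, d, e a1 d ▸ a2⟩
    · rintro (⟨a1, a2⟩ | ⟨a1, a2, a3⟩)
      · exact ⟨(mem_filter.mp a1).1, a2⟩
      · exact ⟨a1, (e a1 a2).symm ▸ a3⟩
  by_contra hc
  push Not at hc
  have s1 : ∑ j ∈ Jd D U \ Bv, #(qa U (par u) (u j) j) =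
      ∑ y ∈ U.filter (fun x => par x = par u), #(df (Jd D U \ Bv) v y) := by
    simp only [df, card_filter]
    rw [sum_comm]
    refine sum_congr rfl fun j hj => ?_
    rw [← card_filter, filter_filter]
    refine congrArg card (filter_congr fun z _ => ?_)
    have a := J j (mem_sdiff.mp hj).1
    exact ⟨fun k => ⟨k.2, k.1 ▸ a.symm⟩, fun k => ⟨z2_two a.symm k.2.symm, k.1⟩⟩
  have s2 : ∑ j ∈ Jd D U \ Bv, #(un1 D v U j) ≤
      ∑ z ∈ U.filter (fun x => par x = par v), (2 - #Q) := by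
    have e : ∀ j, un1 D v U j = (U.filter fun x => par x = par v).filter
        fun x => ¬ 2 ≤ #(df D v (fl x j)) := fun j => by
      rw [filter_filter]
      refine filter_congr fun z hz => ⟨fun k => ⟨by_contra fun d => ?_, k⟩, fun k => k.2⟩
      have := df_three h.hv (h.cg.sU hz) (Ne.symm d) (h.f2 z hz)
      have := (uns (h.f2 z hz) k).2
      omega
    simp only [e, card_filter]
    rw [sum_comm]
    refine sum_le_sum fun z hz => ?_
    rw [← card_filter]
    have zU := (mem_filter.mp hz).1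
    by_cases d : #(df D v z) = 2
    · refine (card_le_card (t := df (Jd D U) v z) fun k hk => ?_).trans (by
        have := q2 z zU; omega)
      exact mem_df.mpr ⟨(mem_sdiff.mp (mem_filter.mp hk).1).1,
        (mem_df.mp (uns (h.f2 z zU) (mem_filter.mp hk).2).1).2⟩
    · rw [filter_false_of_mem fun k _ a => d (uns (h.f2 z zU) a).2]
      simp
  have s3 : ∑ y ∈ U.filter (fun x => par x = par u), (2 - #Q) ≤
      ∑ y ∈ U.filter (fun x => par x = par u), #(df (Jd D U \ Bv) v y) := sum_le_sum fun y hy => by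
    obtain ⟨y1, y2⟩ := mem_filter.mp hy
    have a1 := df_three h.hv (h.cg.sU y1) (y2 ▸ h.pr.symm) (h.f2 y y1)
    have a2 := q2 y y1
    have a3 : df (Jd D U) v y \ Bv ⊆ df (Jd D U \ Bv) v y := fun k hk => mem_df.mpr
      ⟨mem_sdiff.mpr ⟨(mem_df.mp (mem_sdiff.mp hk).1).1, (mem_sdiff.mp hk).2⟩,
        (mem_df.mp (mem_sdiff.mp hk).1).2⟩
    have := card_le_card a3
    have := le_card_sdiff Bv (df (Jd D U) v y)
    omega
  rw [sum_const, smul_eq_mul] at s2 s3
  rw [← h.bal] at s2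
  have r1 : 0 < #(U.filter fun x => par x = par u) := by
    have a := (h.cards j1 (side_ne u j1)).2
    rw [← qa_par (side_ne u j1)] at a
    have := card_pos.mpr h.ne
    omega
  have s4 : 0 < ∑ j ∈ Jd D U \ Bv, #(qa U (par u) (u j) j) :=
    s1 ▸ lt_of_lt_of_le (Nat.mul_pos r1 (by omega)) s3
  obtain ⟨j, hj, d⟩ := exists_ne_zero_of_sum_ne_zero s4.ne'
  have s5 : ∑ j ∈ Jd D U \ Bv, #(qa U (par u) (u j) j) < ∑ j ∈ Jd D U \ Bv, #(un1 D v U j) :=
    sum_lt_sum (fun k hk => by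
      have := (hc k (mem_sdiff.mp hk).1 (mem_sdiff.mp hk).2).1
      omega) ⟨j, hj, (hc j (mem_sdiff.mp hj).1 (mem_sdiff.mp hj).2).1 (by omega)⟩
  omega

theorem own_pos (h : G1 D b H T u v U) (hj : j ∈ Jd D U) :
    1 ≤ #(qa U (par u) (u j) j) + #(qa U (par v) (u j) j) ∧ ∃ x ∈ U, x j ≠ u j := by
  have sp := (mem_filter.mp hj).2
  rw [← qa_side h.pr]
  obtain ⟨x, hx⟩ := sides_ne sp (fl u j j)
  exact ⟨card_pos.mpr (sides_ne sp (u j)), x, (mem_filter.mp hx).1,
    (mem_filter.mp hx).2 ▸ (side_ne u j).symm⟩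

theorem ki (hF : FarSt) (hL : LinkSt) (hT : TMSt) (hN : (t + 1) ^ 2 + 10 ≤ N) :
    ∀ s ≤ t, KI n N t s := by
  intro s
  induction s with
  | zero =>
    intro _ D b u v H T U h us _
    have := card_pos.mpr h.ne
    omega
  | succ s ih =>
    intro hs D b u v H T U h us hD P hP hS
    replace ih := ih (by omega)
    have ut : #U ≤ t := by omega
    have sq : (t + 1) ^ 2 = t ^ 2 + 2 * t + 1 := by ring
    have k4 : N ≤ N ^ 2 := Nat.le_self_pow two_ne_zero N
    by_cases c1 : ∀ x ∈ U, 2 ≤ #(df D u x)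
    · exact mxo hF hL hT hN (s + 1) hs D b u v H T U ⟨h.hu, h.hv, h.cg.sU,
        fun z hz => by rw [h.cg.hH z hz]; simp, h.cg.hT, h.pr, fun x hx => ⟨c1 x hx, h.f2 x hx⟩,
        h.cg.o3⟩ h.uv h.bal h.ne us (by omega) P hP hS
    push Not at c1
    obtain ⟨x, hx, c1⟩ := c1
    have pos : ∀ w ∈ U, 1 ≤ #(df D u w) := fun w hw =>
      df_pos h.hu (h.cg.sU hw) fun e => h.uU (e ▸ hw)
    obtain ⟨i, e⟩ := card_eq_one.mp (by have := pos x hx; omega : #(df D u x) = 1)
    obtain ⟨i1, i2⟩ := mem_df.mp (e ▸ mem_singleton_self i : i ∈ df D u x)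
    have xk : ∀ k, k ≠ i → x k = u k := fun k hk => by
      by_cases d : k ∈ D
      · by_contra a
        exact hk (mem_singleton.mp (e ▸ mem_df.mpr ⟨d, Ne.symm a⟩))
      · rw [mem_Sub.mp (h.cg.sU hx) k d, mem_Sub.mp h.hu k d]
    obtain rfl : x = fl u i := funext fun k => by
      by_cases d : k = i
      · rw [d, fl_apply_self]; exact (z2_a i2).symm
      · rw [xk k d, fl_apply_ne u d]
    by_cases c2 : ∃ j ∈ D, j ∈ bk D P v ∧ u j = v j ∧ ∃ x ∈ U, x j ≠ u j
    · obtain ⟨j, hj, j1, j2, j3⟩ := c2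
      by_cases a0 : #(qa U (par u) (u j) j) = 0
      · have d1 := cn_gd (D := D) (P := P) v hj
        have d2 := (mem_filter.mp j1).2
        have d3 : #(qa U (par v) (u j) j) ≤ t := (card_le_card qa_sub).trans ut
        exact sT hF hL hT ih h hj j2 hP hS (Or.inr ⟨rfl, rfl⟩) a0 (Or.inr (by omega)) ut hN
          (by omega)
      · exact s12 hF hL hT ih h hj j2 hP hS (by omega) j3 us ut hN (by omega)
    push Not at c2
    by_cases c3 : ∃ j ∈ Jd D U, u j = v j
    · obtain ⟨j, hj, j2⟩ := c3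
      have j1 := (mem_filter.mp hj).1
      obtain ⟨a1, a2⟩ := own_pos h hj
      by_cases a0 : #(qa U (par u) (u j) j) = 0
      swap
      · exact s12 hF hL hT ih h j1 j2 hP hS (by omega) a2 us ut hN (by omega)
      by_cases d : 4 * #(qa U (par v) (u j) j) + 2 ≤ #(cn D P u j) ∨
          4 * #(qa U (par v) (u j) j) + 2 ≤ #(cn D P v j)
      · exact sT hF hL hT ih h j1 j2 hP hS (Or.inr ⟨rfl, rfl⟩) a0 d ut hN (by omega)
      obtain ⟨w, hw⟩ := card_pos.mp (by omega : 0 < #(qa U (par v) (u j) j))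
      obtain ⟨k, hk⟩ := card_pos.mp (pos w (qa_sub hw))
      have d3 : #(qa U (par v) (u j) j) ≤ t := (card_le_card qa_sub).trans ut
      exact sE (N := N) (t := t) hF hL hT h j1 j2 hP hS hw a0 hk (fun a a' => (mem_df.mp hk).2
        (c2 k (mem_df.mp hk).1 a' a w (qa_sub hw)).symm) (by omega) (by omega) ut hN (by omega)
    push Not at c3
    by_cases c4 : u i = v i
    · refine s0 hF hL hT ih h i1 c4 hP hS hx (fun z hz a => c3 i ?_ c4) c3 us ut hN (by omega)
      exact mem_filter.mpr ⟨i1, z, hz, _, hx, a ▸ side_ne u i⟩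
    obtain ⟨j, hj, bv, o⟩ := h.sel c3 (bk_le (D := D) (P := P) u) (bk_le (D := D) (P := P) v)
    have j1 := (mem_filter.mp hj).1
    obtain ⟨a1, a2⟩ := own_pos h hj
    have a3 := other_pos h a2
    have a4 := h.cards j (side_ne u j)
    by_cases d : #(qa U (par v) (u j) j) < #(qa U (par u) (u j) j)
    · exact dP (N := N) (t := t) hF hL hT h j1 (c3 j hj) hP hS d ut hN (by omega)
    by_cases a0 : #(qa U (par u) (u j) j) = 0
    swap
    · exact dM1 hT ih h j1 (c3 j hj) hP hS (by omega) (by omega) (by omega) (by omega) bv ut hN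
        (by omega)
    obtain ⟨o1, o2⟩ := o.resolve_left (by omega)
    obtain ⟨w, hw⟩ := card_pos.mp (by omega : 0 < #(qa U (par v) (u j) j))
    obtain ⟨k, hk⟩ := card_pos.mp (pos w (qa_sub hw))
    refine dM0 (N := N) (t := t) hF hL hT h j1 (c3 j hj) hP hS hw a0 hk ?_ (fun z hz =>
      by_contra fun a => notMem_empty z (card_eq_zero.mp o1 ▸ mem_filter.mpr ⟨qa_sub hz, a⟩))
      o2 bv ut hN (by omega)
    by_cases a : k = i
    · exact a ▸ c4
    · exact c3 k (mem_filter.mpr ⟨(mem_df.mp hk).1, _, hx, w, qa_sub hw,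
        (xk k a).symm ▸ (mem_df.mp hk).2⟩)

end Pool.Agent.Lib.MP_88ff4d_co.NP
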