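import Pool.Agent.Lib.MP_88ff4d_co.NP.K7

/-! Two targets: both ends on one side, and a move to an arbitrary side. -/

set_option autoImplicit false

namespace Pool.Agent.Lib.MP_88ff4d_co.NP

open Finset

variable {n : ℕ} {D D0 : Finset (Fin n)} {b b0 b1 : V n} {H T U : Finset (V n)}
  {P : V n × Bool → V n × Bool} {i j : Fin n} {N t : ℕ} {u v w : V n} {π π' e e' : ZMod 2}

/-- two holes that are not adjacent -/
structure G0 (D : Finset (Fin n)) (b : V n) (H T : Finset (V n)) (u v : V n)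
    (U : Finset (V n)) : Prop where
  cg : Cg D b H T {u, v} U
  pr : par u ≠ par v
  uv : 3 ≤ #(df D u v)
  bal : #(U.filter fun x => par x = par u) = #(U.filter fun x => par x = par v)
  ne : U.Nonempty

theorem G0.symm (h : G0 D b H T u v U) : G0 D b H T v u U :=
  ⟨pair_comm u v ▸ h.cg, h.pr.symm, df_comm D u v ▸ h.uv, h.bal.symm, h.ne⟩

theorem G0.hu (h : G0 D b H T u v U) : u ∈ Sub D b := h.cg.sX (by simp)

theorem G0.hv (h : G0 D b H T u v U) : v ∈ Sub D b := h.cg.sX (by simp)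

theorem G0.vU (h : G0 D b H T u v U) : v ∉ U := disjoint_left.mp h.cg.dj (by simp)

theorem G0.uU (h : G0 D b H T u v U) : u ∉ U := disjoint_left.mp h.cg.dj (by simp)

theorem G0.c2 (h : G0 D b H T u v U) : #({u, v} : Finset (V n)) = 2 :=
  card_pair fun c => h.pr (by rw [c])

theorem G0.cards (h : G0 D b H T u v U) (j : Fin n) (he : e ≠ e') :
    #(qa U (par u) e j) + #(qa U (par u) e' j) = #(qa U (par v) e j) + #(qa U (par v) e' j) ∧
    #U = 2 * (#(qa U (par u) e j) + #(qa U (par u) e' j)) := by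
  have a1 := qa_par (U := U) (π := par u) (j := j) he
  have a2 := qa_par (U := U) (π := par v) (j := j) he
  have a3 := TMx.card_sides U j he
  have a4 := qa_side (U := U) (j := j) (e := e) h.pr
  have a5 := qa_side (U := U) (j := j) (e := e') h.pr
  have := h.bal
  omega

/-- one target stays on the side of `u` -/
theorem prepW0 (h : G0 D b H T u v U) (hj : j ∈ D) (hP : Inv (Po D b H T) P)
    (hS : SP (Po D b H T) P) (hw : w ∈ qa U (par v) (u j) j) (a0 : #(qa U (par u) (u j) j) = 0)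
    (ut : #U ≤ t)
    (hN : (t + 1) ^ 2 + 10 ≤ N) (hD : 50 * N ^ 2 ≤ #D) :
    ∃ H' T' P' I K, Cg D b H' T' ({u, v} ∪ I) (insert w (qa U (par u) (fl u j j) j)) ∧
      Inv (Po D b H' T') P' ∧ SP (Po D b H' T') P' ∧ #K ≤ 8 * t ∧ (∀ p ∉ K, P' p = P p) ∧
      (Good adp (Po D b H' T') P' → Good adp (Po D b H T) P) ∧
      (∀ z ∈ I, z j = fl u j j ∧ par z = par u) ∧
      #I + 1 = #(qa U (par u) (fl u j j) j) := by
  have hne := side_ne u j
  have hC : (qa U (par v) (u j) j).erase w ⊆ qa U (par v) (u j) j := erase_subset _ _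
  have cc := card_erase_add_one hw
  obtain ⟨H1, T1, P1, I, g1, R1, cI, dI, mI⟩ := h.cg.cross hP hS hj (hC.trans qa_sub)
    fun x hx d => by
      obtain ⟨a, a'⟩ := fl_prop (hC hx) h.pr.symm
      rcases mem_insert.mp d with d | d
      · exact a (by rw [d])
      · exact h.pr (a'.symm.trans (by rw [mem_singleton.mp d]))
  have k0 := h.cards j hne
  have k1 := qa_sd2 (π' := par v) (e' := fl u j j) hC (Or.inr hne.symm)
  have c3 : #({u, v} ∪ I) = 2 + #I := by rw [card_union_of_disjoint dI, h.c2]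
  obtain ⟨H2, T2, P2, I2, g, gj, g2, R2, hI2, d2, f2⟩ := g1.gen (C := qa U (par v) (fl u j j) j)
    R1.1 R1.2.1 j (k1 ▸ qa_sub) h.hv (fun d => h.vU (mem_sdiff.mp d).1) (by
      have := bud hN (a := #(qa U (par v) (fl u j j) j)) (c := #({u, v} ∪ I)) (by omega) (by omega)
      omega)
  obtain ⟨K1, m1, m2⟩ := R1.2.2.1
  obtain ⟨K2, m3, m4⟩ := R2.2.2.1
  have e : (U \ (qa U (par v) (u j) j).erase w) \ qa U (par v) (fl u j j) j =
      insert w (qa U (par u) (fl u j j) j) := by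
    ext z
    simp only [mem_sdiff, mem_erase, mem_insert, mem_qa]
    constructor
    · rintro ⟨⟨a1, a2⟩, a3⟩
      by_cases c : z = w
      · exact Or.inl c
      have a4 : z j ≠ u j := fun d => a2 ⟨c, a1, d, z2_two h.pr fun d' =>
        notMem_empty z (card_eq_zero.mp a0 ▸ mem_qa.mpr ⟨a1, d, d'⟩)⟩
      exact Or.inr ⟨a1, z2_two hne a4, z2_two h.pr.symm fun d => a3 ⟨a1, z2_two hne a4, d⟩⟩
    · rintro (rfl | ⟨a1, a2, a3⟩)
      · exact ⟨⟨qa_sub hw, fun d => d.1 rfl⟩, fun d => hne ((mem_qa.mp hw).2.1.symm.trans d.2.1)⟩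
      · exact ⟨⟨a1, fun d => hne (d.2.2.1.symm.trans a2)⟩, fun d => h.pr (a3.symm.trans d.2.2)⟩
  rw [e, union_assoc] at g2
  refine ⟨H2, T2, P2, I ∪ I2, K1 ∪ K2, g2, R2.1, R2.2.1, (card_union_le _ _).trans (by omega),
    fun p hp => ?_, fun k => R1.2.2.2 (R2.2.2.2 k), fun z hz => ?_, ?_⟩
  · rw [mem_union, not_or] at hp
    rw [m4 p hp.2, m2 p hp.1]
  · rcases mem_union.mp hz with k | k
    · obtain ⟨x, hx, rfl⟩ := mI z k
      exact ⟨z2_two hne (fl_prop (hC hx) h.pr.symm).1, (fl_prop (hC hx) h.pr.symm).2⟩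
    · refine ⟨?_, ?_⟩ <;> obtain ⟨x, hx, rfl⟩ := mem_image.mp (hI2 ▸ k)
      · rw [fl_apply_ne x gj.symm]; exact (mem_qa.mp hx).2.1
      · rw [par_fl, (mem_qa.mp hx).2.2]; exact z2_a h.pr.symm
  · rw [card_union_of_disjoint (d2.mono subset_union_right le_rfl), hI2,
      card_image_of_injective _ (fl_left_inj g)]
    omega

/-- only targets of the parity of `v` on the side of the ends -/
theorem sE0 (hF : FarSt) (hL : LinkSt) (hT : TMSt) (h : G0 D b H T u v U) (hj : j ∈ D)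
    (c : u j = v j) (hP : Inv (Po D b H T) P) (hS : SP (Po D b H T) P)
    (hw : w ∈ qa U (par v) (u j) j) (a0 : #(qa U (par u) (u j) j) = 0) (hi : i ∈ df D u w)
    (bi : u i = v i → i ∉ bk D P v) (cu : #(cn D P u j) ≤ 4 * t + 2)
    (cv : #(cn D P v j) ≤ 4 * t + 2) (ut : #U ≤ t) (hN : (t + 1) ^ 2 + 10 ≤ N)
    (hD : 50 * N ^ 2 + 100 + 5 * N + t + 2 ≤ #D) : Good adp (Po D b H T) P := by
  have hne := side_ne u j
  have sq : (t + 1) ^ 2 = t ^ 2 + 2 * t + 1 := by ring
  have k4 : N ≤ N ^ 2 := Nat.le_self_pow two_ne_zero N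
  have g0 := card_erase_of_mem hj
  obtain ⟨w1, w2, w3⟩ := mem_qa.mp hw
  obtain ⟨i1, i2⟩ := mem_df.mp hi
  have ij : i ≠ j := fun e => i2 (e ▸ w2.symm)
  have i3 : i ∈ D.erase j := mem_erase.mpr ⟨ij, i1⟩
  have h1 := fl_mem_Sub hj h.hu
  obtain ⟨H1, T1, P1, I, K, g1, p1, p2, k1, k2, p3, mI, cI⟩ := prepW0 h hj hP hS hw a0
    ut hN (by omega)
  have cB : #(qa U (par u) (fl u j j) j) ≤ t := (card_le_card qa_sub).trans ut
  obtain ⟨gA, gB⟩ := fin2 g1 hj c fun z hz => (mI z hz).1 ▸ hne.symm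
  rw [filter_insert, if_pos w2, filter_false_of_mem fun z hz => (mem_qa.mp hz).2.1 ▸ hne.symm] at gA
  rw [filter_insert, if_neg (w2 ▸ hne), filter_true_of_mem fun z hz => (mem_qa.mp hz).2.1] at gB
  have pB : ∀ z ∈ I ∪ qa U (par u) (fl u j j) j, par z = par u := fun z hz =>
    (mem_union.mp hz).elim (fun k => (mI z k).2) fun k => (mem_qa.mp k).2.2
  have O1 := gB.ok1 pB j
  have uA : u ∈ Sub (D.erase j) u := gA.sX (by simp)
  have vA : v ∈ Sub (D.erase j) u := gA.sX (by simp)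
  have wA : w ∈ Sub (D.erase j) u := gA.sU (by simp)
  have uv : u ≠ v := fun e => h.pr (by rw [e])
  have gN := gA.side i3 uA (X0 := insert u (if v i = u i then {v} else ∅)) (U0 := ∅) (fun z => by
    split_ifs with d <;> simp only [mem_insert, mem_singleton, notMem_empty, or_false]
    · exact ⟨fun k => ⟨k, by rcases k with rfl | rfl; exacts [rfl, d]⟩, fun k => k.1⟩
    · exact ⟨fun k => ⟨Or.inl k, by rw [k]⟩, fun k => k.1.resolve_right fun a => d (a ▸ k.2)⟩)
    fun z => by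
      simp only [notMem_empty, insert_empty_eq, mem_singleton, false_iff, not_and]
      exact fun a k => i2 (a ▸ k.symm)
  have O0 := gN.ok (fun p hp q hq d => by
    have a : v i = u i → 2 ≤ #(df ((D.erase j).erase i) u v) := fun a => le_trans (by norm_num)
      (h.uv.trans ((df_erase_eq D c).trans (df_erase_eq _ a.symm)))
    rw [union_empty] at hq
    split_ifs at hp hq with e <;>
      simp only [mem_insert, mem_singleton, notMem_empty, or_false] at hp hq
    · rcases hp with rfl | rfl <;> rcases hq with rfl | rfl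
      exacts [absurd rfl d, a e, df_comm _ _ _ ▸ a e, absurd rfl d]
    · exact absurd (by rw [hp, hq]) d) j
  obtain ⟨p, a1, -, a2⟩ := cross_of_odd hj h1 p1 (by
    rw [gB.even (by omega), Nat.even_iff]; omega)
  obtain ⟨a3, -, a4⟩ := p1 p a1
  have d1 := cn_gd (D := D) (P := P) u hj
  have d2 := gd_change (D := D) k2 u j
  have b0' := card_B_le (c := cfE (insert u (if v i = u i then {v} else ∅)) ∅ j)
  have b1' := card_B_le (c := cfE I (qa U (par u) (fl u j j) j) j)
  have b2' : #(insert u (if v i = u i then ({v} : Finset (V n)) else ∅)) ≤ 2 :=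
    (card_insert_le _ _).trans (by split_ifs <;> simp)
  simp only [cfE, card_empty] at b0' b1'
  obtain ⟨x', l, m, H2, P2, K0, K1, n1, q1, -, q2, R⟩ := move2 (N := N) (F := {p, P1 p}) hj h.hu h1
    hne p1 p2 O0 O1 rfl rfl (x := u) (by simp [cfE])
    (fun q hq => far1 h.hu hj (O1.sub hq) (pB q (cfE_B.mp hq))) (by simp only [cfE]; omega)
    (by simp only [cfE]; omega) (insert_subset a1 (singleton_subset_iff.mpr a3)) (fun z hz => by
      rcases mem_insert.mp hz with rfl | hz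
      · simp
      · rw [mem_singleton.mp hz, a4]; simp) (card_le_two.trans (by norm_num)) (by omega)
      (by omega) ij
  have x10 : #((cfE I (qa U (par u) (fl u j j) j) j).addX x').X =
      #((cfE I (qa U (par u) (fl u j j) j) j).addX x').U := by
    show #(insert x' I) = #(qa _ _ _ _)
    rw [card_insert_of_notMem (s := I) fun hh => n1 (mem_B.mpr (Or.inl hh)), cI]
  have cX : ((cfE (insert u (if v i = u i then {v} else ∅)) ∅ j).toSq u l m).X =
      if v i = u i then {v} else ∅ := erase_insert (by split_ifs <;> simp [uv])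
  refine p3 (R.2.2.2.2 (splitW hj h1 h.hu hne.symm R.1 R.2.1
    ((K1.even_iff (by omega)).mpr ⟨_, by rw [x10]⟩)
    ⟨p, R.2.2.2.1 (by simp), by rw [R.eq p (by simp)]; exact a2⟩
    (hT n N t _ _ _ _ _ (par u) K1 (par_addX pB q1) x10 cB (by simp [Cf.addX, cfE]; omega)
      (by omega)) fun P' r1 r2 r3 => ?_))
  refine t1x (N := N) (t := t) hF hL hT i3 uA K0 rfl (by simp [Cf.toSq, cfE]) wA i2 vA w3.symm
    (fun e => h.vU (e ▸ w1)) (fun y hy => ?_) cX r1 r2 (by have := card_pos.mpr h.ne; omega) hN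
    (fun e => ?_) (by omega)
  · obtain ⟨y1, y2⟩ := (mem_Sub_erase wA i3).mp hy
    rw [q2 y ((mem_Sub_erase h.hu hj).mp y1).2 (y2 ▸ i2.symm), gA.hH y y1, gA.hT y y1]
    simp only [mem_insert, mem_singleton, notMem_empty, or_false, and_true]
    exact ⟨fun k => k.resolve_left fun a => i2 (a ▸ y2), Or.inr⟩
  · have lm : l ≠ m := by simpa [Cf.toSq] using (K0.lm u (by simp [Cf.toSq]) u (by simp [Cf.toSq])).1
    have d3 := gd_in (i := i) hj h.hu h.hv c.symm R.1 r3 (insert v (Sub {l, m} u)) fun g hg gi d => by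
      have a := (K0.hH _ (fl_mem_Sub (mem_erase.mpr ⟨gi, hg⟩)
        ((mem_Sub_erase uA i3).mpr ⟨vA, e⟩))).mp d
      rw [cX, if_pos e] at a
      simpa [Cf.toSq, cfE] using a
    have d4 := card_insert_le v (Sub {l, m} u)
    rw [card_sq lm] at d4
    obtain ⟨K', k3, k5, -⟩ := R.2.2.1
    have d5 := cn_change (D := D) (j := j) (fun p hp => (k5 p hp).symm) v
    have d6 := cn_change (D := D) (j := j) (fun p hp => (k2 p hp).symm) v
    have d7 := gd_change (D := D) k2 v i
    have d8 := gd_change (D := D) k5 v i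
    have d9 := bi e.symm
    simp only [bk, mem_filter, mem_univ, true_and, not_lt] at d9
    omega

/-- one parity is missing on the side of the ends and an end is marked -/
theorem sT0 (hF : FarSt) (hL : LinkSt) (hT : TMSt) (h : G0 D b H T u v U)
    (hj : j ∈ D) (c : u j = v j) (hP : Inv (Po D b H T) P) (hS : SP (Po D b H T) P)
    (o : π = par u ∧ π' = par v ∨ π = par v ∧ π' = par u) (a0 : #(qa U π' (u j) j) = 0)
    (big : 4 * #(qa U π (u j) j) + 2 ≤ #(cn D P u j) ∨ 4 * #(qa U π (u j) j) + 2 ≤ #(cn D P v j))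
    (ut : #U ≤ t) (hN : (t + 1) ^ 2 + 10 ≤ N)
    (hD : 50 * N ^ 2 + 100 + 5 * N + t + 1 ≤ #D) : Good adp (Po D b H T) P := by
  have hne := side_ne u j
  have g0 := card_erase_of_mem hj
  have pp : π ≠ π' := by rcases o with ⟨rfl, rfl⟩ | ⟨rfl, rfl⟩; exacts [h.pr, h.pr.symm]
  obtain ⟨H1, T1, P1, I, g1, R1, cI, dI, mI⟩ := h.cg.cross (C := qa U π (u j) j) hP hS hj qa_sub
    fun x hx => off_side c (fl_prop hx pp).1
  have hI : ∀ z ∈ I, z j ≠ u j ∧ par z = π' := fun z hz => by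
    obtain ⟨x, hx, rfl⟩ := mI z hz
    exact fl_prop hx pp
  obtain ⟨gA, gB⟩ := fin2 g1 hj c fun z hz => (hI z hz).1
  have k0 := (h.cards j hne).1
  have k1' := qa_sd1 (Subset.refl (qa U π (u j) j))
  have k5 := qa_side (U := U \ qa U π (u j) j) (j := j) (e := u j) pp
  rw [qa_sd2 (π' := π') (e' := u j) Subset.rfl (Or.inl pp.symm)] at k5
  rw [card_eq_zero.mp (by omega : #((U \ qa U π (u j) j).filter (· j = u j)) = 0)] at gA
  have r1 := robS hT gB pp.symm (fun z hz => (hI z hz).2) (by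
    rw [qa_sd2 Subset.rfl (Or.inr hne.symm), qa_sd2 Subset.rfl (Or.inr hne.symm)]
    rcases o with ⟨rfl, rfl⟩ | ⟨rfl, rfl⟩ <;> omega) ((card_le_card sdiff_subset).trans ut) hN
    (by omega)
  obtain ⟨K, k1, k2⟩ := R1.2.2.1
  have hd : 4001 ≤ #D := by
    have : 10 ^ 2 ≤ N ^ 2 := Nat.pow_le_pow_left (by omega) 2
    omega
  have sw : ∀ z, z ∈ Sub (D.erase j) v → z ∈ Sub (D.erase j) u := fun z hz =>
    (mem_Sub_erase h.hu hj).mpr (c ▸ (mem_Sub_erase h.hv hj).mp hz)
  refine R1.2.2.2 (big.elim (fun a => ?_) fun a => ?_)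
  · have := cn_change (D := D) (j := j) k2 u
    exact thA hF hL hT hj h.hv h.hu c.symm h.pr.symm (df_comm D u v ▸ h.uv) (fl_mem_Sub hj h.hu) hne
      R1.1 R1.2.1 (fun z hz => by rw [gA.hH z hz]; simp [or_comm])
      (fun z hz d => notMem_empty _ ((gA.hT z hz).mp d)) (by omega) r1 hd
  · have := cn_change (D := D) (j := j) k2 v
    exact thA hF hL hT hj h.hu h.hv c h.pr h.uv (fl_mem_Sub hj h.hu) (c ▸ hne)
      R1.1 R1.2.1 (fun z hz => by rw [gA.hH z (sw z hz)]; simp)
      (fun z hz d => notMem_empty _ ((gA.hT z (sw z hz)).mp d)) (by omega) r1 hd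

end Pool.Agent.Lib.MP_88ff4d_co.NP
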