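import Pool.Agent.Lib.MP_88ff4d_co.NP.L1

/-! Two targets: a separating direction, a move to an arbitrary side. -/

set_option autoImplicit false

namespace Pool.Agent.Lib.MP_88ff4d_co.NP

open Finset

variable {n : ℕ} {D D0 : Finset (Fin n)} {b b0 b1 : V n} {H T U : Finset (V n)}
  {P : V n × Bool → V n × Bool} {i j : Fin n} {N t : ℕ} {u v w : V n} {π π' e e' : ZMod 2}

/-- two targets; `j` separates them, but not the ends -/
theorem sJ (hF : FarSt) (hL : LinkSt) (hT : TMSt) (h : G0 D b H T u v U) (u2 : #U ≤ 2)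
    (hj : j ∈ D) (c : u j = v j) (hP : Inv (Po D b H T) P) (hS : SP (Po D b H T) P)
    (hw : w ∈ qa U (par v) (u j) j) (a0 : #(qa U (par u) (u j) j) = 0) (ut : 2 ≤ t)
    (hN : (t + 1) ^ 2 + 10 ≤ N) (hD : 50 * N ^ 2 + 100 + 5 * N + t + 2 ≤ #D) :
    Good adp (Po D b H T) P := by
  have sq : (t + 1) ^ 2 = t ^ 2 + 2 * t + 1 := by ring
  have k4 : N ≤ N ^ 2 := Nat.le_self_pow two_ne_zero N
  have k0 := h.cards j (side_ne u j)
  by_cases d : 4 * #(qa U (par v) (u j) j) + 2 ≤ #(cn D P u j) ∨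
      4 * #(qa U (par v) (u j) j) + 2 ≤ #(cn D P v j)
  · exact sT0 (N := N) (t := t) hF hL hT h hj c hP hS (Or.inr ⟨rfl, rfl⟩) a0 d (by omega) hN
      (by omega)
  obtain ⟨k, hk⟩ := card_pos.mp (df_pos h.hu (h.cg.sU (qa_sub hw)) fun e => h.uU (e ▸ qa_sub hw))
  by_cases d' : u k = v k → k ∉ bk D P v
  · exact sE0 (N := N) (t := t) hF hL hT h hj c hP hS hw a0 hk d' (by omega) (by omega) (by omega)
      hN hD
  push Not at d'
  obtain ⟨k1, k2⟩ := mem_df.mp hk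
  have k3 := h.cards k (side_ne u k)
  have k5 : 0 < #(qa U (par v) (fl u k k) k) := card_pos.mpr ⟨w, mem_qa.mpr ⟨qa_sub hw,
    z2_two (side_ne u k) k2.symm, (mem_qa.mp hw).2.2⟩⟩
  have d1 := cn_gd (D := D) (P := P) v k1
  have d2 := (mem_filter.mp d'.2).2
  exact sT0 (N := N) (t := t) hF hL hT h k1 d'.1 hP hS (Or.inl ⟨rfl, rfl⟩) (by omega)
    (Or.inr (by omega)) (by omega) hN (by omega)

/-- a hole leaves a subcube across `j`; nothing is assumed about the other side -/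
theorem moveR (hj : j ∈ D) (h0 : b0 ∈ Sub D b) (h1 : b1 ∈ Sub D b) (hne : b0 j ≠ b1 j)
    (s0 : D0 ⊆ D.erase j) (s1 : #D ≤ #D0 + 2) (hP : Inv (Po D b H T) P) (hS : SP (Po D b H T) P)
    {c0 : Cf n} (O0 : Ok D0 b0 H T c0) (n0 : #c0.B ≤ 4) (y0 : #c0.Y ≤ 1) {x : V n} (hx : x ∈ c0.X)
    (B1 : Finset (V n)) (hB : ∀ z ∈ Sub (D.erase j) b1, z ∈ H ∨ z ∈ T → z ∈ B1) (n1 : #B1 ≤ 8)
    (i : Fin n) {F : Finset (V n × Bool)} (hF : F ⊆ Po D b H T) (hc : Cl F P) (hF2 : #F ≤ 2)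
    (big : 80 ≤ #(gd D P x j)) (hd : 200 ≤ #D) :
    ∃ l m H' P', l ∈ D0 ∧ l ≠ i ∧ Ok D0 b0 H' T (c0.toSq x l m) ∧
      fl (fl x l) j ∈ Sub (D.erase j) b1 ∧
      (∀ q ∈ B1, ∀ d ≤ 2, d ≤ #(df (D.erase j) x q) →
        d + 1 ≤ #(df (D.erase j) (fl (fl x l) j) q)) ∧
      (∀ z ∉ Sub D0 b0, (z ∈ H' ↔ z = fl (fl x l) j ∨ z ∈ H)) ∧ Red D b T H P H' P' F 8 := by
  obtain ⟨Z, z1, z2, z3⟩ := O0.prot
  have z4 : #Z ≤ 2 * 4 ^ 2 := z2.trans (Nat.mul_le_mul_left _ (Nat.pow_le_pow_left n0 2))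
  have g0 := card_Sg_le (c := c0)
  set A := D.erase j with hA
  have sA : D0 ⊆ D := s0.trans (erase_subset _ _)
  have g1 := card_sdiff_add_card_eq_card sA
  set Bd := B1.biUnion fun q => if #(df A x q) ≤ 3 then df A x q else ∅ with hBd
  have d1 : #Bd ≤ #B1 * 3 := card_biUnion_le_card_mul _ _ 3 fun q _ => by
    split_ifs with c
    · exact c
    · simp
  obtain ⟨l, hl, hb⟩ := exists_avoid (A := gd D P x j) (Bd := insert i (D \ D0 ∪ Z ∪ c0.Sg ∪ Bd ∪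
      bk D0 P x ∪ (univ.filter fun g => (fl x g, false) ∈ F) ∪
      univ.filter fun g => (fl (fl x j) g, false) ∈ F)) (by
    have h1 := card_hit F x
    have h2 := card_hit F (fl x j)
    have h3 := bk_le (D := D0) (P := P) x
    refine lt_of_le_of_lt ((card_insert_le _ _).trans (Nat.add_le_add_right
      ((card_union_le _ _).trans (Nat.add_le_add ((card_union_le _ _).trans
      (Nat.add_le_add ((card_union_le _ _).trans (Nat.add_le_add ((card_union_le _ _).trans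
      (Nat.add_le_add ((card_union_le _ _).trans (Nat.add_le_add_right (card_union_le _ _) _))
      d1)) h3)) h1)) h2)) _)) (by omega))
  obtain ⟨l1, l2, l3⟩ := mem_filter.mp hl
  simp only [mem_insert, mem_union, mem_filter, mem_univ, true_and, not_or, bk, not_lt, mem_sdiff,
    l1, not_not] at hb
  obtain ⟨b0', ⟨⟨⟨⟨⟨l5, b1'⟩, b2⟩, b4⟩, b5⟩, b6⟩, b7⟩ := hb
  have sj : ∀ z ∈ Sub D0 b0, z j = b0 j := fun z hz =>
    mem_Sub.mp hz j fun c => notMem_erase j D (s0 c)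
  have hxS : x ∈ Sub D0 b0 := O0.sub (mem_B.mpr (Or.inl hx))
  have a1 : fl x l ∈ Sub D0 b0 := fl_mem_Sub l5 hxS
  have a2 := CLx.Sub_mono sA h0 a1
  have a3 := sj _ a1
  have a4 := O0.near z1 z3 hx a1 (fl_ne x l) fun i hi => fl_apply_ne x fun e => b1' (e ▸ hi)
  have e1 : fl (fl x l) j j = b1 j := by
    rw [fl_apply_self, a3]
    exact z2_two hne (z2_ne _)
  have e2 : fl (fl x l) j ∈ Sub A b1 := (mem_Sub_erase h1 hj).mpr ⟨fl_mem_Sub hj a2, e1⟩
  have far : ∀ q ∈ B1, ∀ d ≤ 2, d ≤ #(df A x q) → d + 1 ≤ #(df A (fl (fl x l) j) q) := by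
    intro q hq d hd hqx
    rw [df_congr (p' := fl x l) fun i hi => fl_apply_ne _ (mem_erase.mp hi).1]
    refine df_fl3 (s0 l5) hd hqx fun c hh => b4 ?_
    exact mem_biUnion.mpr ⟨q, hq, by rw [if_pos c]; exact hh⟩
  have f0 : fl (fl x l) j ∉ B1 := fun c => by
    have := far _ c 0 (by norm_num) (Nat.zero_le _)
    rw [df_self] at this
    omega
  obtain ⟨P1, R1⟩ := edgeR hP hS a2 (fl_mem_Sub hj a2) a4
    ⟨fun c => f0 (hB _ e2 (Or.inl c)), fun c => f0 (hB _ e2 (Or.inr c))⟩ (adj_fl _ _) l3 hF hc b6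
    (by rwa [fl_comm])
  have g2 := R1.gd_le D0 x l
  obtain ⟨m, H', P', k1, k2, R2⟩ := closeSq2 sA h0 R1.1 R1.2.1 O0 z1 z3 hx
    (mem_sdiff.mpr ⟨l5, b2⟩) b1' (fun z hz => by
      simp only [mem_insert]
      refine ⟨fun h => h.elim Or.inl fun h => h.elim (fun e => absurd ?_ hne) Or.inr,
        fun h => h.elim Or.inl fun h => Or.inr (Or.inr h)⟩
      rw [← e1, ← e, sj z hz]) R1.2.2.2.1 (R1.cl hc) (by omega)
  refine ⟨l, m, H', P', l5, b0', k1, e2, far, fun z hz => ?_, R1.trans R2⟩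
  rw [k2 z hz]
  simp only [mem_insert]
  exact ⟨fun h => h.elim (fun e => absurd (e ▸ a1) hz) id, Or.inr⟩

theorem pairF {p : V n × Bool} (hP : Inv (Po D b H T) P) (hp : p ∈ Po D b H T) :
    ({p, P p} : Finset (V n × Bool)) ⊆ Po D b H T ∧ Cl ({p, P p} : Finset (V n × Bool)) P :=
  ⟨insert_subset hp (singleton_subset_iff.mpr (hP p hp).1), fun z hz => by
    rcases mem_insert.mp hz with rfl | hz
    · simp
    · rw [mem_singleton.mp hz, (hP p hp).2.2]; simp⟩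

end Pool.Agent.Lib.MP_88ff4d_co.NP
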