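import Pool.Agent.Lib.MP_88ff4d_co.NP.L2

/-! Two targets, each adjacent to one of two holes that are not adjacent. -/

set_option autoImplicit false

namespace Pool.Agent.Lib.MP_88ff4d_co.NP

open Finset

variable {n : ℕ} {D : Finset (Fin n)} {b b0 b1 : V n} {H T U : Finset (V n)}
  {P : V n × Bool → V n × Bool} {i j m : Fin n} {N t : ℕ} {u v w z : V n}

theorem card_Po_split (hj : j ∈ D) (h0 : b0 ∈ Sub D b) (h1 : b1 ∈ Sub D b) (hne : b0 j ≠ b1 j) :
    #(Po D b H T) = #(Po (D.erase j) b0 H T) + #(Po (D.erase j) b1 H T) := by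
  rw [← card_filter_add_card_filter_not (s := Po D b H T) (fun p => p.1 j = b0 j)]
  congr 2 <;> ext p <;> rw [mem_filter, mem_side ‹_› hj]
  exact and_congr_right fun _ => ⟨z2_two hne, fun c d => hne (d.symm.trans c)⟩

theorem par_ff (x : V n) (l j : Fin n) : par (fl (fl x l) j) = par x := by
  rw [par_fl, par_fl, add_assoc]
  simp [CharTwo.add_self_eq_zero]

theorem t1r (hF : FarSt) (hL : LinkSt) (hT : TMSt) (hi : i ∈ D) (hu : u ∈ Sub D b) {c0 : Cf n}
    (O0 : Ok (D.erase i) u H T c0) (cU : c0.U = ∅) (cX : c0.X = ∅) (cY : #c0.Y ≤ 1)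
    (hz : z ∈ Sub D b) (zi : z i ≠ u i) (pz : par z = par (fl u i)) (zw : z ≠ fl u i)
    (far : ∀ y ∈ Sub (D.erase i) (fl u i), (y ∈ H ↔ y = z) ∧ (y ∈ T ↔ y = fl u i)) (t1 : 1 ≤ t)
    (hN : (t + 1) ^ 2 + 10 ≤ N) (hD : 50 * N ^ 2 + 100 + 5 * N + t + 1 ≤ #D) :
    Rob (Po D b H T) ∧ Even #(Po D b H T) := by
  have hw := fl_mem_Sub hi hu
  have g := card_erase_of_mem hi
  refine ⟨fun P hP hS => t1x hF hL hT hi hu O0 cU cY hw (side_ne u i) hz pz zw far
    (by rw [if_neg zi, cX]) hP hS t1 hN (fun e => absurd e zi) hD, ?_⟩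
  have cg : Cg (D.erase i) (fl u i) H T {z} {fl u i} := ⟨singleton_subset_iff.mpr
    ((mem_Sub_erase hw hi).mpr ⟨hz, z2_two (side_ne u i) zi⟩),
    singleton_subset_iff.mpr (self_mem_Sub _ _), fun y hy => by rw [(far y hy).1, mem_singleton],
    fun y hy => by rw [(far y hy).2, mem_singleton], disjoint_singleton.mpr zw,
    fun x hx y hy d => absurd (by rw [mem_singleton.mp hx, mem_singleton.mp hy]) d⟩
  rw [card_Po_split hi hu hw (side_ne u i)]
  exact ((O0.even_iff (by omega)).mpr (by simp [cX, cU])).add ((cg.even (by omega)).mpr (by simp))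

/-- the halves that contain one end and its target -/
theorem half1 (h : Cg D b H T {u, v} {fl u i, w}) (hj : j ∈ D) (hi : i ∈ D) (ij : i ≠ j)
    (c : u j ≠ v j) (cw : u j ≠ w j) : Cg (D.erase j) u H T {u} {fl u i} ∧
      Ok ((D.erase j).erase i) u H T (cfE {u} ∅ j) := by
  have hu : u ∈ Sub D b := h.sX (by simp)
  have gA := h.side hj hu (X0 := {u}) (U0 := {fl u i}) (fun z => by
      simp only [mem_insert, mem_singleton]
      exact ⟨fun k => ⟨Or.inl k, by rw [k]⟩, fun k => k.1.resolve_right fun a => c (a ▸ k.2.symm)⟩)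
    fun z => by
      simp only [mem_insert, mem_singleton]
      exact ⟨fun k => ⟨Or.inl k, by rw [k, fl_apply_ne u ij.symm]⟩,
        fun k => k.1.resolve_right fun a => cw (a ▸ k.2.symm)⟩
  refine ⟨gA, (gA.side (mem_erase.mpr ⟨ij, hi⟩) (self_mem_Sub _ u) (X0 := {u}) (U0 := ∅)
    (fun z => ⟨fun k => ⟨k, by rw [mem_singleton.mp k]⟩, fun k => k.1⟩) fun z => ?_).ok1
    (π := par u) (fun z hz => by rw [union_empty, mem_singleton] at hz; rw [hz]) j⟩
  simp only [notMem_empty, mem_singleton, false_iff, not_and]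
  exact fun a k => side_ne u i (a ▸ k.symm)

/-- both directions separate the ends -/
theorem n5 (hF : FarSt) (hL : LinkSt) (hT : TMSt) (h : G0 D b H T u v {fl u i, fl v m})
    (hi : i ∈ D) (hm : m ∈ D) (im : i ≠ m) (ci : u i ≠ v i) (cm : u m ≠ v m) (ut : 2 ≤ t)
    (hN : (t + 1) ^ 2 + 10 ≤ N) (hD : 50 * N ^ 2 + 100 + 5 * N + t + 2 ≤ #D) :
    Rob (Po D b H T) := by
  intro P hP hS
  have hd : 10 ^ 2 ≤ N ^ 2 := Nat.pow_le_pow_left (by omega) 2
  obtain ⟨j, hj', hb⟩ := exists_avoid (A := df D (fl u i) (fl v m)) (Bd := bk D P u ∪ bk D P v) (by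
    have := h.cg.o3 (fl u i) (by simp) (fl v m) (by simp) (by
      rw [par_fl, par_fl]; exact fun e => h.pr (add_right_cancel e))
    have := card_union_le (bk D P u) (bk D P v)
    have := bk_le (D := D) (P := P) u
    have := bk_le (D := D) (P := P) v
    omega)
  obtain ⟨hj, j2⟩ := mem_df.mp hj'
  simp only [mem_union, bk, mem_filter, mem_univ, true_and, not_or, not_lt] at hb
  have ij : i ≠ j := fun e => j2 (by rw [← e, fl_apply_self, fl_apply_ne v im]; exact z2_a ci)
  have mj : m ≠ j := fun e => j2 (by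
    rw [← e, fl_apply_self, fl_apply_ne u im.symm]; exact (z2_a cm.symm).symm)
  rw [fl_apply_ne u ij.symm, fl_apply_ne v mj.symm] at j2
  have g0 := card_erase_of_mem hj
  have i3 : i ∈ D.erase j := mem_erase.mpr ⟨ij, hi⟩
  have m3 : m ∈ D.erase j := mem_erase.mpr ⟨mj, hm⟩
  have g1 := card_erase_of_mem i3
  have g2 := card_erase_of_mem m3
  obtain ⟨gA, OA⟩ := half1 h.cg hj hi ij j2 (by rwa [fl_apply_ne v mj.symm])
  obtain ⟨gB, OB⟩ := half1 (u := v) (v := u) (w := fl u i) (by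
    have := h.cg; rwa [pair_comm u v, pair_comm (fl u i)] at this) hj hm mj j2.symm
    (by rw [fl_apply_ne u ij.symm]; exact j2.symm)
  have cB : ∀ x : V n, #(cfE {x} ∅ j).B ≤ 4 := fun x => card_B_le.trans (by simp [cfE])
  obtain ⟨l, l', H1, P1, l1, l2, K0, e1, f1, k1, R1⟩ := moveR (F := ∅) hj h.hu h.hv j2
    (erase_subset _ _) (by omega) hP hS OA (cB u) (by simp [cfE]) (x := u) (by simp [cfE])
    {v, fl v m} (fun z hz d => by
      rcases d with d | d
      · simp [mem_singleton.mp ((gB.hH z hz).mp d)]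
      · simp [mem_singleton.mp ((gB.hT z hz).mp d)]) (card_le_two.trans (by norm_num)) m
    (empty_subset _) (fun _ hh => absurd hh (notMem_empty _)) (by simp) (by omega) (by omega)
  have sd : ∀ {x y z : V n} {k : Fin n}, x j ≠ y j → z ∈ Sub (D.erase j) y →
      z ∉ Sub ((D.erase j).erase k) x := fun c hz d => c ((mem_Sub.mp d j fun a =>
    notMem_erase j D (mem_of_mem_erase a)).symm.trans (mem_Sub.mp hz j (notMem_erase j D)))
  have um : fl (fl u l) j m ≠ v m := by rwa [fl_apply_ne _ mj, fl_apply_ne u l2.symm]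
  have uy : fl (fl u l) j ≠ fl v m := fun e => by
    have := f1 (fl v m) (by simp) 0 (by norm_num) (Nat.zero_le _)
    rw [e, df_self] at this
    omega
  have gB1 := gB.addH e1 (by simpa using uy) fun z hz => k1 z (sd j2 hz)
  obtain ⟨p, a1, -, a2⟩ := cross_of_odd hj h.hv R1.1 (by
    rw [gB1.even (by omega), card_pair fun e => um (by rw [e]), card_singleton]; decide)
  have d1 := R1.gd_le D v j
  have lm : l ≠ l' := by simpa [Cf.toSq] using (K0.lm u (by simp [Cf.toSq]) u (by simp [Cf.toSq])).1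
  have fH : ∀ z ∈ Sub (D.erase j) u, z i ≠ u i → z ∉ H1 := fun z hz d a => by
    rcases (k1 z fun e => d (mem_Sub.mp e i (notMem_erase _ _))).mp a with a | a
    · exact j2 ((mem_Sub.mp hz j (notMem_erase j D)).symm.trans
        (a ▸ mem_Sub.mp e1 j (notMem_erase j D)))
    · exact d (by rw [mem_singleton.mp ((gA.hH z hz).mp a)])
  have mono : ∀ {x z : V n} {k : Fin n}, z ∈ Sub ((D.erase j).erase k) x → z ∈ Sub (D.erase j) x :=
    fun hz => CLx.Sub_mono (erase_subset _ _) (self_mem_Sub _ _) hz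
  obtain ⟨g, g', H2, P2, g3, g4, K1, e2, f2, k2, R2⟩ := moveR hj h.hv h.hu j2.symm
    (erase_subset _ _) (by omega) R1.1 R1.2.1 (OB.congrH (H' := H1) fun z hz => by
      rw [k1 z (sd j2 (mono hz))]
      exact ⟨fun k => k.resolve_left fun a => um (a ▸ mem_Sub.mp hz m (notMem_erase _ _)), Or.inr⟩)
    (cB v) (by simp [cfE]) (x := v) (by simp [cfE]) (insert (fl u i) (Sub {l, l'} u))
    (fun z hz d => by
      rcases d with d | d
      · refine mem_insert_of_mem ?_
        simpa [Cf.toSq, cfE] using (K0.hH z ((mem_Sub_erase (self_mem_Sub _ u) i3).mpr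
          ⟨hz, by_contra fun a => fH z hz a d⟩)).mp d
      · simp [mem_singleton.mp ((gA.hT z hz).mp d)])
    ((card_insert_le _ _).trans (by rw [card_sq lm]; norm_num)) i (pairF R1.1 a1).1
    (pairF R1.1 a1).2 card_le_two (by omega) (by omega)
  have vi : fl (fl v g) j i ≠ u i := by
    rw [fl_apply_ne _ ij, fl_apply_ne v g4.symm]; exact ci.symm
  obtain ⟨r1, r2⟩ := t1r (N := N) (t := t) hF hL hT i3 (self_mem_Sub _ u)
    (K0.congrH (H' := H2) fun z hz => by
      rw [k2 z (sd j2.symm (mono hz))]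
      exact ⟨fun k => k.resolve_left fun a => vi (a ▸ mem_Sub.mp hz i (notMem_erase _ _)), Or.inr⟩)
    rfl (by simp [Cf.toSq, cfE]) (by simp [Cf.toSq, cfE]) e2 vi
    (by rw [par_ff, par_fl]; exact (z2_a h.pr).symm) (fun e => by
      have := f2 (fl u i) (by simp) 0 (by norm_num) (Nat.zero_le _)
      rw [e, df_self] at this
      omega) (fun y hy => by
      obtain ⟨y1, y2⟩ := (mem_Sub_erase (fl_mem_Sub i3 (self_mem_Sub _ u)) i3).mp hy
      rw [k2 y (sd j2.symm y1), gA.hT y y1, mem_singleton]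
      exact ⟨⟨fun k => k.resolve_right (fH y y1 (y2 ▸ (side_ne u i).symm)), Or.inl⟩, Iff.rfl⟩)
    (by omega) hN (by omega)
  obtain ⟨r3, -⟩ := t1r (N := N) (t := t) hF hL hT m3 (self_mem_Sub _ v) K1
    rfl (by simp [Cf.toSq, cfE]) (by simp [Cf.toSq, cfE]) e1 um
    (by rw [par_ff, par_fl]; exact (z2_a h.pr.symm).symm) uy (fun y hy => by
      obtain ⟨y1, y2⟩ := (mem_Sub_erase (fl_mem_Sub m3 (self_mem_Sub _ v)) m3).mp hy
      have y3 : y m ≠ v m := y2 ▸ (side_ne v m).symm
      rw [k2 y fun e => y3 (mem_Sub.mp e m (notMem_erase _ _)), gB1.hH y y1, gB.hT y y1]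
      simp only [mem_insert, mem_singleton, and_true]
      refine ⟨fun k => k.elim (fun a => absurd ?_ j2) fun k => k.resolve_right
        fun a => y3 (by rw [a]), fun k => Or.inr (Or.inl k)⟩
      exact (a ▸ mem_Sub.mp e2 j (notMem_erase j D)).symm.trans (mem_Sub.mp y1 j (notMem_erase j D)))
    (by omega) hN (by omega)
  exact R1.2.2.2.2 (R2.2.2.2.2 (split hj h.hu h.hv j2 R2.1 R2.2.1 r2
    ⟨p, R2.2.2.2.1 (by simp), by rw [R2.eq p (by simp)]; exact a2⟩ r1 r3))

theorem nNe (hF : FarSt) (hL : LinkSt) (hT : TMSt) (h : G0 D b H T u v {fl u i, fl v m})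
    (hi : i ∈ D) (hm : m ∈ D) (im : i ≠ m) (ut : 2 ≤ t)
    (hN : (t + 1) ^ 2 + 10 ≤ N) (hD : 50 * N ^ 2 + 100 + 5 * N + t + 2 ≤ #D) :
    Rob (Po D b H T) := by
  have p1 : par (fl u i) = par v := by rw [par_fl]; exact z2_a h.pr
  have p2 : par (fl v m) = par u := by rw [par_fl]; exact z2_a h.pr.symm
  by_cases ci : u i = v i
  · refine fun P hP hS => sJ hF hL hT h.symm card_le_two hi ci.symm hP hS (w := fl v m)
      (mem_qa.mpr ⟨by simp, fl_apply_ne v im, p2⟩)
      (card_eq_zero.mpr (filter_false_of_mem fun z hz d => ?_)) ut hN hD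
    rcases mem_insert.mp hz with rfl | hz
    · exact side_ne u i (ci.trans d.1.symm)
    · exact h.pr (p2.symm.trans (mem_singleton.mp hz ▸ d.2))
  by_cases cm : u m = v m
  · refine fun P hP hS => sJ hF hL hT h card_le_two hm cm hP hS (w := fl u i)
      (mem_qa.mpr ⟨by simp, fl_apply_ne u im.symm, p1⟩)
      (card_eq_zero.mpr (filter_false_of_mem fun z hz d => ?_)) ut hN hD
    rcases mem_insert.mp hz with rfl | hz
    · exact h.pr (d.2.symm.trans p1)
    · exact side_ne v m (cm.symm.trans (mem_singleton.mp hz ▸ d.1.symm))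
  exact n5 hF hL hT h hi hm im ci cm ut hN hD

theorem n1 (hF : FarSt) (hL : LinkSt) (hT : TMSt) (h : G0 D b H T u v {fl u j, fl v j})
    (hj : j ∈ D) (c : u j ≠ v j) (ut : 2 ≤ t) (hN : (t + 1) ^ 2 + 10 ≤ N)
    (hD : 50 * N ^ 2 + 100 + 5 * N + t + 2 ≤ #D) : Rob (Po D b H T) := by
  intro P hP hS
  have k0 := h.cards j c
  have k1 : #({fl u j, fl v j} : Finset (V n)) ≤ 2 := card_le_two
  have k2 : 0 < #(qa {fl u j, fl v j} (par u) (u j) j) := card_pos.mpr ⟨fl v j, mem_qa.mpr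
    ⟨by simp, by rw [fl_apply_self]; exact z2_a c.symm, by rw [par_fl]; exact z2_a h.pr.symm⟩⟩
  have k3 : 0 < #(qa {fl u j, fl v j} (par v) (v j) j) := card_pos.mpr ⟨fl u j, mem_qa.mpr
    ⟨by simp, by rw [fl_apply_self]; exact z2_a c, by rw [par_fl]; exact z2_a h.pr⟩⟩
  refine mxO (N := N) (t := t) hF hL hT h.cg hj h.hu h.hv c hP hS
    (fun s => if s = u j then par u else par v) (fun z hz => ?_) (fun s => ?_) (by omega)
    (by have := h.c2; omega) (v := v) (by simp) hN (by omega)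
  · simp only [mem_insert, mem_singleton] at hz
    rcases hz with rfl | rfl
    exacts [(if_pos rfl).symm, (if_neg c.symm).symm]
  · by_cases e : s = u j
    · rw [if_pos e, e, (pair_side c).1, ff3 h.pr]
      show _ = #(qa _ _ _ _)
      rw [card_singleton]
      omega
    · rw [if_neg e, z2_two c e, (pair_side c).2, ff3 h.pr.symm]
      show _ = #(qa _ _ _ _)
      rw [card_singleton]
      omega

theorem n2 (hF : FarSt) (hL : LinkSt) (hT : TMSt) (h : G0 D b H T u v {fl u i, fl v i})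
    (hi : i ∈ D) (c : u i = v i) (ut : 2 ≤ t) (hN : (t + 1) ^ 2 + 10 ≤ N)
    (hD : 50 * N ^ 2 + 100 + 5 * N + t + 3 ≤ #D) : Rob (Po D b H T) := by
  intro P hP hS
  have hd : 10 ^ 2 ≤ N ^ 2 := Nat.pow_le_pow_left (by omega) 2
  have g0 := card_erase_of_mem hi
  have hne := side_ne u i
  have h1 := fl_mem_Sub hi h.hu
  have all : ∀ z ∈ ({fl u i, fl v i} : Finset (V n)), z i ≠ u i := fun z hz => by
    rcases mem_insert.mp hz with rfl | hz
    · exact hne.symm
    · rw [mem_singleton.mp hz, c]; exact (side_ne v i).symm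
  have z0 : ∀ π, #(qa {fl u i, fl v i} π (u i) i) = 0 := fun π => card_eq_zero.mpr
    (filter_false_of_mem fun z hz d => all z hz d.1)
  have k1 : #({fl u i, fl v i} : Finset (V n)) ≤ 2 := card_le_two
  by_cases e : 2 ≤ #(cn D P u i) ∨ 2 ≤ #(cn D P v i)
  · exact sT0 (N := N) (t := t) hF hL hT h hi c hP hS (Or.inl ⟨rfl, rfl⟩) (z0 _)
      (by rw [z0]; exact e) (by omega) hN (by omega)
  obtain ⟨gA, gB⟩ := fin2 (I := ∅) (by simpa using h.cg) hi c fun z hz => absurd hz (notMem_empty z)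
  rw [filter_false_of_mem all] at gA
  rw [filter_true_of_mem fun z hz => z2_two hne (all z hz)] at gB
  have uv : 3 ≤ #(df (D.erase i) u v) := h.uv.trans (df_erase_eq D c)
  have O0 := gA.ok (fun p hp q hq d => by
    simp only [union_empty, mem_insert, mem_singleton] at hp hq
    rcases hp with rfl | rfl <;> rcases hq with rfl | rfl
    exacts [absurd rfl d, by omega, by rw [df_comm]; omega, absurd rfl d]) i
  have d1 := cn_gd (D := D) (P := P) u hi
  have d2 := cn_gd (D := D) (P := P) v hi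
  have sd : ∀ z ∈ Sub (D.erase i) (fl u i), z ∉ Sub (D.erase i) u := fun z hz d =>
    hne ((mem_Sub.mp d i (notMem_erase _ _)).symm.trans (mem_Sub.mp hz i (notMem_erase _ _)))
  obtain ⟨l, l', H1, P1, l1, -, K0, e1, f1, q1, R1⟩ := moveR (F := ∅) hi h.hu h1 hne
    Subset.rfl (by omega) hP hS O0 (card_B_le.trans (by simp [cfE, h.c2])) (by simp [cfE]) (x := u)
    (by simp [cfE]) {fl u i, fl v i} (fun z hz d => d.elim
      (fun d => absurd ((gB.hH z hz).mp d) (notMem_empty z)) (gB.hT z hz).mp) (by omega) i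
    (empty_subset _) (fun _ hh => absurd hh (notMem_empty _)) (by simp) (by omega) (by omega)
  have nuv : u ≠ v := fun a => h.pr (by rw [a])
  have cX : ((cfE {u, v} ∅ i).toSq u l l').X = {v} := erase_insert (by simpa using nuv)
  have cY : #((cfE {u, v} ∅ i).toSq u l l').Y = 1 := by simp [Cf.toSq, cfE]
  have cU : ((cfE {u, v} ∅ i).toSq u l l').U = ∅ := rfl
  have nU : ∀ {x : V n} {B : Finset (V n)} {A : Finset (Fin n)} {y : V n},
      (∀ q ∈ B, ∀ d ≤ 2, d ≤ #(df A y q) → d + 1 ≤ #(df A x q)) → x ∉ B := fun f d => by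
    have := f _ d 0 (by norm_num) (Nat.zero_le _)
    rw [df_self] at this
    omega
  have gB1 := gB.addH e1 (nU f1) fun z hz => q1 z (sd z hz)
  obtain ⟨p, a1, -, a2⟩ := cross_of_odd hi h.hu R1.1 (by
    rw [K0.even_iff (by omega), cX, cU]; simp)
  have d3 := R1.gd_le D v i
  generalize (cfE {u, v} ∅ i).toSq u l l' = c1 at K0 cX cY cU
  obtain ⟨g, g', H2, P2, g3, g4, K1, e2, f2, q2, R2⟩ := moveR hi h.hu h1 hne
    Subset.rfl (by omega) R1.1 R1.2.1 K0 (card_B_le.trans (by simp [cX, cY, cU])) cY.le (x := v)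
    (by simp [cX]) (insert (fl (fl u l) i) {fl u i, fl v i}) (fun z hz d => mem_insert.mpr (d.imp
      (fun d => by simpa using (gB1.hH z hz).mp d) (gB.hT z hz).mp))
    ((card_insert_le _ _).trans (by omega)) l (pairF R1.1 a1).1 (pairF R1.1 a1).2 card_le_two
    (by omega) (by omega)
  have gB2 := gB1.addH e2 (fun d => nU f2 (mem_insert_of_mem d)) fun z hz => q2 z (sd z hz)
  have w2 : 2 ≤ #(df (D.erase i) v (fl (fl u l) i)) := by
    have a := df_adj (D.erase i) v (adj_fl u l)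
    rw [df_comm _ v (fl _ i), df_congr (p' := fl u l) fun k hk =>
      fl_apply_ne _ (mem_erase.mp hk).1, df_comm]
    rw [df_comm] at uv
    omega
  have x9 : (c1.toSq v g g').X = ∅ := by simp [Cf.toSq, cX]
  have x8 : (c1.toSq v g g').U = ∅ := cU
  have x7 : #(c1.toSq v g g').Y ≤ #c1.Y + 1 := card_insert_le _ _
  refine R1.2.2.2.2 (R2.2.2.2.2 (split hi h.hu h1 hne R2.1 R2.2.1
    ((K1.even_iff (by omega)).mpr (by simp [x9, x8]))
    ⟨p, R2.2.2.2.1 (by simp), by rw [R2.eq p (by simp)]; exact a2⟩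
    (hT n N t _ _ _ _ _ 0 K1 (par_emp x9 x8) (by rw [x9, x8]) (by simp [x8]) (by omega) (by omega))
    (nNe (N := N) (t := t) (u := fl (fl u l) i) (v := fl (fl v g) i) hF hL hT ?_ l1 g3 g4.symm ut hN
      (by omega))))
  rw [fl_comm (fl u l) i l, fl_comm (fl v g) i g, fl_fl, fl_fl]
  exact ⟨by rwa [insert_empty_eq, pair_comm] at gB2, by rw [par_ff, par_ff]; exact h.pr,
    by rw [df_comm]; exact f2 _ (by simp) 2 le_rfl w2, by rw [par_ff, par_ff]; exact h.bal, h.ne⟩

end Pool.Agent.Lib.MP_88ff4d_co.NP
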