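import Pool.Agent.Lib.MP_88ff4d_co.NP.L3
import Pool.Agent.Lib.MP_88ff4d_co.NP.Cov

/-! Two targets: adjacent ends, one target adjacent to an end. -/

set_option autoImplicit false

namespace Pool.Agent.Lib.MP_88ff4d_co.NP

open Finset

variable {n : ℕ} {D : Finset (Fin n)} {b b0 b1 : V n} {H T X U : Finset (V n)}
  {P : V n × Bool → V n × Bool} {i j l m c : Fin n} {N t : ℕ} {u v w y z : V n}

theorem sqC (hj : j ∈ D) (h0 : b0 ∈ Sub D b) (hP : Inv (Po D b H T) P) (hS : SP (Po D b H T) P)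
    (g : Cg (D.erase j) b0 H T {u, fl u l} ∅) (hl : l ∈ D.erase j) (big : 2 ≤ #(gd D P u l)) :
    ∃ c H' P', Ok (D.erase j) b0 H' T c ∧ c.X = ∅ ∧ c.U = ∅ ∧ #c.Y ≤ 1 ∧
      (∀ z, z j ≠ b0 j → (z ∈ H' ↔ z ∈ H)) ∧ Red D b T H P H' P' ∅ 4 := by
  have g2 := gd_erase (D := D) (P := P) (j := j) u l
  have g3 : (pt1 u j).Sg = ∅ := Sg_empty rfl
  obtain ⟨m, H', P', -, k1, k2, R⟩ := closeSq (Z := ∅) (l := l) (F := ∅) hj h0 hP hS
    (okPt (j := j) (x := u) (g.sX (by simp)) fun z hz d => notMem_empty z ((g.hT z hz).mp d))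
    (empty_subset _) (fun p hp q hq c => absurd ((pt1_B hp).trans (pt1_B hq).symm) c)
    (mem_singleton_self u) (by rw [g3, sdiff_empty]; exact hl) (notMem_empty _)
    (fun z hz => by rw [g.hH z hz]; simp [or_comm]) (empty_subset _)
    (fun _ hh => absurd hh (notMem_empty _)) ∅ (by rw [g3]; simp only [card_empty]; omega)
  exact ⟨_, H', P', k1, by simp [Cf.toSq, pt1], rfl, by simp [Cf.toSq, pt1], k2, R⟩

theorem endA (hF : FarSt) (hL : LinkSt) (hT : TMSt) (hj : j ∈ D) (h0 : b0 ∈ Sub D b)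
    (h1 : b1 ∈ Sub D b) (hne : b0 j ≠ b1 j) (hP : Inv (Po D b H T) P) (hS : SP (Po D b H T) P)
    (g0 : Cg (D.erase j) b0 H T {u, fl u l} ∅) (hl : l ∈ D.erase j) (big : 2 ≤ #(gd D P u l))
    (g1 : Cg (D.erase j) b1 H T {w} {z}) (p : par w = par z) (ut : 2 ≤ t)
    (hN : (t + 1) ^ 2 + 10 ≤ N) (hD : 50 * N ^ 2 + 100 + 5 * N + t + 1 ≤ #D) :
    Good adp (Po D b H T) P := by
  obtain ⟨c, H', P', O, x1, x2, x3, k, R⟩ := sqC hj h0 hP hS g0 hl big
  have pp : ∀ y ∈ ({w} ∪ {z} : Finset (V n)), par y = par z := fun y hy => by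
    rcases mem_union.mp hy with a | a <;> rw [mem_singleton.mp a]
    exact p
  have O1 := (g1.ok1 pp j).congrH (H' := H') fun y hy => k y (by
    rw [mem_Sub.mp hy j (notMem_erase j D)]; exact hne.symm)
  exact R.2.2.2.2 (mxA (N := N) (t := t) (π0 := 0) (π1 := par z) hF hL hT hj h0 h1 hne R.1 R.2.1
    O O1 (par_emp x1 x2) pp (by rw [x1, x2]) rfl (by rw [x2]; simp)
    (by simp only [cfE, card_singleton]; omega) (by omega)
    (by simp only [cfE, card_empty]; omega) hD)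

theorem cvOne (h : Cg D b H T X U) (hP : Inv (Po D b H T) P) (hS : SP (Po D b H T) P)
    (hy : y ∈ U) (hm : m ∈ D) (hw : fl y m ∉ X) :
    ∃ H' T' P', Cg D b H' T' (X ∪ {fl y m}) (U \ {y}) ∧ Rd D b H T P H' T' P' 4 := by
  have := h.conv (C := {y}) hP hS (fun z => fl z m) (singleton_subset_iff.mpr hy)
    (fun _ _ _ _ e => fl_left_inj m e) fun z hz => by
      rw [mem_singleton.mp hz]; exact ⟨adj_fl _ _, fl_mem_Sub hm (h.sU hy), hw⟩
  rw [image_singleton, card_singleton] at this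
  exact this

theorem sdx {A B : Finset (V n)} {e : ZMod 2} (hX : ∀ z, z ∈ X ↔ z ∈ A ∨ z ∈ B)
    (hA : ∀ z ∈ A, z j = e) (hB : ∀ z ∈ B, z j ≠ e) (z : V n) : z ∈ A ↔ z ∈ X ∧ z j = e :=
  ⟨fun k => ⟨(hX z).mpr (Or.inl k), hA z k⟩,
    fun k => ((hX z).mp k.1).resolve_right fun d => hB z d k.2⟩

theorem df_univ (hu : u ∈ Sub D b) (hv : v ∈ Sub D b) : df D u v = df univ u v := by
  ext k
  simp only [mem_df, mem_univ, true_and]
  exact ⟨fun a => a.2, fun a => ⟨by_contra fun d =>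
    a ((mem_Sub.mp hu k d).trans (mem_Sub.mp hv k d).symm), a⟩⟩

theorem aA (hF : FarSt) (hL : LinkSt) (hT : TMSt) (h : Cg D b H T {u, fl u c} {fl u i, y})
    (hc : c ∈ D) (hi : i ∈ D) (py : par y = par u) (ut : 2 ≤ t) (hN : (t + 1) ^ 2 + 10 ≤ N)
    (hD : 50 * N ^ 2 + 100 + 5 * N + t + 3 ≤ #D) : Rob (Po D b H T) := by
  intro P hP hS
  have hd : 10 ^ 2 ≤ N ^ 2 := Nat.pow_le_pow_left (by omega) 2
  have hu : u ∈ Sub D b := h.sX (by simp)
  have hv := fl_mem_Sub hc hu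
  have ic : i ≠ c := fun e => disjoint_left.mp h.dj (show fl u c ∈ _ by simp) (by simp [e])
  have xy : fl u i ≠ y := (par_ne_fl py i).symm
  have sd : ({fl u i, y} : Finset (V n)) \ {y} = {fl u i} := by
    ext z
    simp only [mem_sdiff, mem_insert, mem_singleton]
    exact ⟨fun k => k.1.resolve_right k.2, fun k => ⟨Or.inl k, k ▸ xy⟩⟩
  have sd' : ({fl u i, y} : Finset (V n)) \ {fl u i} = {y} := by
    ext z
    simp only [mem_sdiff, mem_insert, mem_singleton]
    exact ⟨fun k => k.1.resolve_left k.2, fun k => ⟨Or.inr k, k ▸ xy.symm⟩⟩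
  by_cases big : 6 ≤ #(gd D P u c)
  · obtain ⟨m, hm, wi⟩ : ∃ m ∈ D, fl y m i ≠ u i := by
      by_cases e : y i = u i
      · exact ⟨i, hi, by rw [← e]; exact (side_ne y i).symm⟩
      · exact ⟨c, hc, by rwa [fl_apply_ne y ic]⟩
    obtain ⟨H1, T1, P1, g1, R1⟩ := cvOne h hP hS (y := y) (by simp) hm (by
      simp only [mem_insert, mem_singleton, not_or]
      exact ⟨fun e => wi (by rw [e]), fun e => wi (by rw [e, fl_apply_ne u ic])⟩)
    rw [sd] at g1
    obtain ⟨gA, gB⟩ := fin2 g1 hi (fl_apply_ne u ic).symm fun z hz => mem_singleton.mp hz ▸ wi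
    rw [filter_singleton, if_neg (side_ne u i).symm] at gA
    rw [filter_singleton, if_pos rfl] at gB
    have := R1.gd_le D u c
    exact R1.2.2.2 (endA (N := N) (t := t) hF hL hT hi hu (fl_mem_Sub hi hu) (side_ne u i) R1.1
      R1.2.1 gA (mem_erase.mpr ⟨ic.symm, hc⟩) (by omega) gB (by rw [par_fl, par_fl, py]) ut hN
      (by omega))
  have gv : #(gd D P (fl u c) c) ≤ #(gd D P u c) := card_le_card fun g hg => by
    obtain ⟨c1, c2, c3⟩ := mem_filter.mp hg
    refine mem_filter.mpr ⟨c1, c2, fun d => c3 ?_⟩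
    have a := fl_mem_Sub c1 hu
    have a' := (hP (fl u g, false) (mem_Po_f.mpr ⟨a, fun e =>
      (mem_insert.mp ((h.hH _ a).mp e)).elim (fl_ne u g)
        fun e => c2 (fl_inj u (mem_singleton.mp e))⟩)).2.2
    rw [d] at a'
    rw [fl_comm u c g, fl_fl]
    exact a'
  have gc := gd_cover (D := D) (P := P) (fl u c) ic
  have cc := cn_gd (D := D) (P := P) u hc
  have i3 : i ∈ D.erase c := mem_erase.mpr ⟨ic, hi⟩
  have g0 := card_erase_of_mem hc
  have s1 := side_ne u c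
  have s2 : fl (fl u c) i c = fl u c c := fl_apply_ne _ ic.symm
  obtain ⟨H1, T1, P1, g1, R1⟩ := cvOne h hP hS (y := fl u i) (by simp) hc (by
    simp only [mem_insert, mem_singleton, not_or]
    exact ⟨fl_fl_ne u ic, fun e => fl_ne u i (fl_left_inj c e)⟩)
  rw [sd', fl_comm u i c] at g1
  have d1 := R1.gd_le D (fl u c) i
  have aV : ∀ z ∈ ({fl u c, fl (fl u c) i} : Finset (V n)), z c = fl u c c := fun z hz => by
    rcases mem_insert.mp hz with a | a
    · rw [a]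
    · rw [mem_singleton.mp a, s2]
  have aN : ∀ z ∈ ({fl u c, fl (fl u c) i} : Finset (V n)), z c ≠ u c := fun z hz =>
    aV z hz ▸ s1.symm
  have em : ∀ e : ZMod 2, ∀ z ∈ (∅ : Finset (V n)), z c = e := fun _ z hz =>
    absurd hz (notMem_empty z)
  by_cases e : y c = u c
  · have gA := g1.side hc hu (X0 := {u}) (U0 := {y})
      (sdx (by simp only [mem_union, mem_insert, mem_singleton]; tauto) (by simp) aN)
      fun z => ⟨fun k => ⟨k, by rw [mem_singleton.mp k, e]⟩, fun k => k.1⟩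
    have gB := g1.side hc hv (X0 := {fl u c, fl (fl u c) i}) (U0 := ∅)
      (sdx (B := {u}) (by simp only [mem_union, mem_insert, mem_singleton]; tauto) aV
        fun z hz => mem_singleton.mp hz ▸ s1)
      (sdx (B := {y}) (by simp) (em _) fun z hz => by rw [mem_singleton.mp hz, e]; exact s1)
    exact R1.2.2.2 (endA (N := N) (t := t) hF hL hT hc hv hu s1.symm R1.1 R1.2.1 gB i3 (by omega)
      gA py.symm ut hN (by omega))
  have s3 : fl y c c = u c := by rw [fl_apply_self]; exact z2_a e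
  have pw : par (fl y c) ≠ par u := by rw [par_fl, py]; exact z2_ne _
  obtain ⟨H2, T2, P2, g2, R2⟩ := cvOne g1 R1.1 R1.2.1 (y := y) (by simp) hc (by
    simp only [mem_union, mem_insert, mem_singleton, not_or]
    exact ⟨⟨fun a => pw (by rw [a]), fun a => s1 (by rw [← s3, a])⟩,
      fun a => s1 (by rw [← s3, a, s2])⟩)
  rw [Finset.sdiff_self] at g2
  have aU : ∀ z ∈ ({u, fl y c} : Finset (V n)), z c = u c := fun z hz => by
    rcases mem_insert.mp hz with a | a
    · rw [a]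
    · rw [mem_singleton.mp a, s3]
  have gA := g2.side hc hu (X0 := {u, fl y c}) (U0 := ∅)
    (sdx (by simp only [mem_union, mem_insert, mem_singleton]; tauto) aU aN) (by simp)
  have gB := g2.side hc hv (X0 := {fl u c, fl (fl u c) i}) (U0 := ∅)
    (sdx (B := {u, fl y c}) (by simp only [mem_union, mem_insert, mem_singleton]; tauto) aV
      fun z hz => aU z hz ▸ s1) (by simp)
  have d2 := R2.gd_le D (fl u c) i
  obtain ⟨c1, H3, P3, O, x1, x2, x3, k, R3⟩ := sqC hc hv R2.1 R2.2.1 gB i3 (by omega)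
  have gA' : Cg (D.erase c) u H3 T2 {u, fl y c} ∅ := ⟨gA.sX, gA.sU, fun z hz => (k z (by
    rw [mem_Sub.mp hz c (notMem_erase c D)]; exact s1)).trans (gA.hH z hz), gA.hT, gA.dj, gA.o3⟩
  refine R1.2.2.2 (R2.2.2.2 (R3.2.2.2.2 ?_))
  by_cases a : adj u (fl y c)
  · obtain ⟨m, hm⟩ := a
    rw [hm] at gA'
    have m1 : m ∈ D.erase c := by_contra fun d =>
      side_ne u m (mem_Sub.mp (gA'.sX (show fl u m ∈ _ by simp)) m d).symm
    have e1 := gd_cover (D := D) (P := P) u (mem_erase.mp m1).1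
    have e2 := R1.gd_le D u m
    have e3 := R2.gd_le D u m
    have e4 := R3.gd_le D u m
    obtain ⟨c2, H4, P4, O', y1, y2, y3, k', R4⟩ := sqC hc hu R3.1 R3.2.1 gA' m1 (by omega)
    exact R4.2.2.2.2 (mxA (N := N) (t := t) (π0 := 0) (π1 := 0) hF hL hT hc hu hv s1 R4.1 R4.2.1
      O' (O.congrH fun z hz => k' z (by rw [mem_Sub.mp hz c (notMem_erase c D)]; exact s1.symm))
      (par_emp y1 y2) (par_emp x1 x2) (by rw [y1, y2]) (by rw [x1, x2]) (by rw [y2]; simp)
      (by rw [x2]; simp) (by omega) (by omega) (by omega))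
  have hw : fl y c ∈ Sub D b := fl_mem_Sub hc (h.sU (by simp))
  obtain ⟨K1, a1, a2⟩ := R1.2.2.1
  obtain ⟨K2, a3, a4⟩ := R2.2.2.1
  obtain ⟨K3, a5, a6, -⟩ := R3.2.2.1
  have e1 := cn_change (D := D) (j := c) a2 u
  have e2 := cn_change (D := D) (j := c) a4 u
  have e3 := cn_change (D := D) (j := c) a6 u
  exact thA hF hL hT hc hw hu s3 pw (by
      rw [df_comm, df_univ hu hw, Top2x.df_ham]; exact Top2x.three pw.symm a) hv s1 R3.1 R3.2.1
    (fun z hz => by rw [gA'.hH z hz]; simp [or_comm])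
    (fun z hz d => notMem_empty z ((gA'.hT z hz).mp d)) (by omega)
    (hT n N t _ _ _ _ _ 0 O (par_emp x1 x2) (by rw [x1, x2]) (by simp [x2]) (by omega) (by omega))
    (by omega)

end Pool.Agent.Lib.MP_88ff4d_co.NP
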