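import Pool.Agent.Lib.MP_88ff4d_co.NP.L4

/-! Two targets: all positions of the two ends. -/

set_option autoImplicit false

namespace Pool.Agent.Lib.MP_88ff4d_co.NP

open Finset

variable {n : ℕ} {D : Finset (Fin n)} {b : V n} {H T U : Finset (V n)} {k : Fin n} {N t : ℕ}
  {u v x y : V n}

theorem adjD (hu : u ∈ Sub D b) (hv : fl u k ∈ Sub D b) : k ∈ D := by_contra fun d =>
  side_ne u k ((mem_Sub.mp hu k d).trans (mem_Sub.mp hv k d).symm)

theorem far2 (hu : u ∈ Sub D b) (hv : v ∈ Sub D b) (h : u ≠ v) (a : ¬ adj u v) :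
    2 ≤ #(df D u v) := by
  rw [df_univ hu hv, Top2x.df_ham]
  have h0 : hammingDist u v ≠ 0 := fun e => h (hammingDist_eq_zero.mp e)
  have h1 : hammingDist u v ≠ 1 := fun e => a ((adj_iff u v).mpr e)
  omega

theorem rob1 (hF : FarSt) (hL : LinkSt) (hT : TMSt) (h : Cg D b H T {u, v} {x, y})
    (pr : par u ≠ par v) (px : par x = par v) (py : par y = par u)
    (bal : #(({x, y} : Finset (V n)).filter fun z => par z = par u) =
      #(({x, y} : Finset (V n)).filter fun z => par z = par v)) (ut : 2 ≤ t)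
    (hN : (t + 1) ^ 2 + 10 ≤ N) (hD : 50 * N ^ 2 + 100 + 5 * N + 2 * t + 7 ≤ #D) :
    Rob (Po D b H T) := by
  have hu : u ∈ Sub D b := h.sX (by simp)
  have hv : v ∈ Sub D b := h.sX (by simp)
  have hx : x ∈ Sub D b := h.sU (by simp)
  have hy : y ∈ Sub D b := h.sU (by simp)
  have ne : ({x, y} : Finset (V n)).Nonempty := insert_nonempty _ _
  have fu : ¬ adj u x → ∀ z ∈ ({x, y} : Finset (V n)), 2 ≤ #(df D u z) := fun a z hz =>
    far2 hu (h.sU hz) (fun e => disjoint_left.mp h.dj (show u ∈ _ by simp) (e ▸ hz)) fun d => by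
      rcases mem_insert.mp hz with e | e
      · exact a (e ▸ d)
      · exact d.par_ne (by rw [mem_singleton.mp e, py])
  have fv : ¬ adj v y → ∀ z ∈ ({x, y} : Finset (V n)), 2 ≤ #(df D v z) := fun a z hz =>
    far2 hv (h.sU hz) (fun e => disjoint_left.mp h.dj (show v ∈ _ by simp) (e ▸ hz)) fun d => by
      rcases mem_insert.mp hz with e | e
      · exact d.par_ne (by rw [e, px])
      · exact a (mem_singleton.mp e ▸ d)
  by_cases A : adj u v
  · obtain ⟨c, rfl⟩ := A
    have hc := adjD hu hv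
    by_cases B : adj u x
    · obtain ⟨i, rfl⟩ := B
      exact aA hF hL hT h hc (adjD hu hx) py ut hN (by omega)
    by_cases B' : adj (fl u c) y
    · obtain ⟨i, rfl⟩ := B'
      exact aA (u := fl u c) (y := x) hF hL hT (by
        rw [fl_fl, pair_comm (fl u c) u, pair_comm (fl (fl u c) i) x]; exact h) hc (adjD hv hy) px
        ut hN (by omega)
    exact adjRob hF hL hT ⟨hu, hv, h.sU, fun z hz => by rw [h.hH z hz]; simp, h.hT, pr,
      fun z hz => ⟨fu B z hz, fv B' z hz⟩, h.o3⟩ hc bal ne (card_le_two.trans ut) hN (by omega)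
  have uv : 3 ≤ #(df D u v) := by rw [df_univ hu hv, Top2x.df_ham]; exact Top2x.three pr A
  by_cases B' : adj v y
  · by_cases B : adj u x
    · obtain ⟨i, rfl⟩ := B
      obtain ⟨m, rfl⟩ := B'
      have g : G0 D b H T u v {fl u i, fl v m} := ⟨h, pr, uv, bal, ne⟩
      by_cases im : i = m
      · subst im
        by_cases c : u i = v i
        · exact n2 hF hL hT g (adjD hu hx) c ut hN (by omega)
        · exact n1 hF hL hT g (adjD hu hx) c ut hN (by omega)
      · exact nNe hF hL hT g (adjD hu hx) (adjD hv hy) im ut hN (by omega)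
    · exact ki hF hL hT hN 2 ut D b v u H T _ ⟨pair_comm u v ▸ h, pr.symm, df_comm D u v ▸ uv,
        fu B, bal.symm, ne⟩ card_le_two (by omega)
  · exact ki hF hL hT hN 2 ut D b u v H T _ ⟨h, pr, uv, fv B', bal, ne⟩ card_le_two (by omega)

/-- at most three targets, balanced -/
theorem rob3 (hF : FarSt) (hL : LinkSt) (hT : TMSt) (h : Cg D b H T {u, v} U)
    (pr : par u ≠ par v)
    (bal : #(U.filter fun z => par z = par u) = #(U.filter fun z => par z = par v))
    (ne : U.Nonempty) (u3 : #U ≤ 3) (hD : 2 ≤ #U → 20000 ≤ #D) : Rob (Po D b H T) := by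
  have a0 := card_filter_add_card_filter_not (s := U) (fun z => par z = par u)
  have a1 : (U.filter fun z => ¬ par z = par u) = U.filter fun z => par z = par v :=
    filter_congr fun z _ => ⟨z2_two pr, fun c d => pr (d.symm.trans c)⟩
  rw [a1] at a0
  have a2 := card_pos.mpr ne
  obtain ⟨y, hy⟩ := card_eq_one.mp (by omega : #(U.filter fun z => par z = par u) = 1)
  obtain ⟨x, hx⟩ := card_eq_one.mp (by omega : #(U.filter fun z => par z = par v) = 1)
  have y1 := mem_filter.mp (hy ▸ mem_singleton_self y : y ∈ U.filter fun z => par z = par u)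
  have x1 := mem_filter.mp (hx ▸ mem_singleton_self x : x ∈ U.filter fun z => par z = par v)
  have e : U = {x, y} := by
    ext z
    rw [mem_insert, ← mem_singleton, ← hx, ← hy, mem_filter, mem_filter]
    exact ⟨fun k => (em (par z = par u)).elim (fun d => Or.inr ⟨k, d⟩)
      fun d => Or.inl ⟨k, z2_two pr d⟩, fun k => k.elim And.left And.left⟩
  have := hD (by omega)
  subst e
  exact rob1 (t := 2) (N := 19) hF hL hT h pr x1.2 y1.2 bal le_rfl (by norm_num) (by omega)

end Pool.Agent.Lib.MP_88ff4d_co.NP
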