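import Pool.Agent.Lib.MP_88ff4d_co.NP.LB1

/-! Locally nearly perfect matchings: from the port system to the Hamilton path. -/

set_option autoImplicit false

namespace Pool.Agent.Lib.MP_88ff4d_co.NP

open Finset Topx

variable {n : ℕ}

theorem cnt_mono {J : Finset (Fin n)} {y : V n} {A A' : Finset (V n)} (h : A ⊆ A') :
    cnt J y A ≤ cnt J y A' := by
  unfold cnt
  exact card_le_card fun z hz => mem_filter.mpr ⟨(mem_filter.mp hz).1, h (mem_filter.mp hz).2⟩

theorem exists_loc (k : ℕ) (J : Finset (Fin n)) (hn : 2 * k + 1 < #J) (μ : V n → V n)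
    (hk : ∀ y, cnt J y (univ.filter fun x => μ x = x) ≤ k) (u : V n) :
    ∃ w : V n → V n, (∀ s t, μ s = s → μ t = t → w s = w t → s = t) ∧
      ∀ t, μ t = t → (adj t (w t) ∧ μ (w t) ≠ w t ∧ w t ≠ u) ∧ w t ∈ Sub J t := by
  set F := univ.filter fun x => μ x = x with hF
  let o : V n → Finset (V n) := fun t => (J.image (fl t)) \ insert u F
  have o1 : ∀ t, k + 1 ≤ #(o t) := fun t => by
    have a1 : #(J.image (fl t)) = #J := card_image_of_injective _ fun _ _ h => fl_inj t h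
    have a2 : J.image (fl t) ⊆ o t ∪ insert u ((Sub J t).filter (· ∈ F)) := fun z hz => by
      by_cases c : z ∈ insert u F
      · obtain ⟨g, g1, g2⟩ := mem_image.mp hz
        exact mem_union_right _ (mem_insert.mpr ((mem_insert.mp c).imp_right fun h =>
          mem_filter.mpr ⟨g2 ▸ fl_mem_Sub g1 (self_mem_Sub _ _), h⟩))
      · exact mem_union_left _ (mem_sdiff.mpr ⟨hz, c⟩)
    have a3 := (card_le_card a2).trans (card_un le_rfl ((card_insert_le _ _).trans
      (Nat.add_le_add_right (hk t) 1)))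
    omega
  have o2 : ∀ t, ∀ z ∈ o t, z ∈ Sub J t ∧ adj t z ∧ z ∉ insert u F := fun t z hz => by
    obtain ⟨a1, a2⟩ := mem_sdiff.mp hz
    obtain ⟨g, g1, g2⟩ := mem_image.mp a1
    exact ⟨g2 ▸ fl_mem_Sub g1 (self_mem_Sub _ _), g2 ▸ adj_fl _ _, a2⟩
  obtain ⟨w, h1, h2⟩ := hall_wrap F o (by
    intro X hX
    refine Nat.le_of_mul_le_mul_right (card_mul_le_card_mul (fun t z => z ∈ o t) (m := k + 1)
      (n := k + 1) (fun t ht => (o1 t).trans (card_le_card fun z hz => ?_))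
      fun z _ => le_trans (card_le_card fun t ht => ?_) ((hk z).trans (Nat.le_succ k))) k.succ_pos
    · exact mem_bipartiteAbove _ |>.mpr ⟨mem_biUnion.mpr ⟨t, ht, hz⟩, hz⟩
    · obtain ⟨a1, a2⟩ := (mem_bipartiteBelow _).mp ht
      exact mem_filter.mpr ⟨Sub_symm (o2 t z a2).1, hX a1⟩)
  refine ⟨w, fun s t hs ht e => h1 (by simpa [hF] using hs) (by simpa [hF] using ht) e,
    fun t ht => ?_⟩
  obtain ⟨a1, a2, a3⟩ := o2 t _ (h2 t (by simpa [hF] using ht))
  rw [mem_insert, not_or] at a3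
  exact ⟨⟨a2, fun e => a3.2 (by simpa [hF] using e), a3.1⟩, a1⟩

/-- the prescribed part -/
theorem pre_loc (μ w : V n → V n) (hμ : ∀ x, μ (μ x) = x)
    (hadj : ∀ x, μ x ≠ x → adj x (μ x)) (u v : V n) (huv : par u ≠ par v) (hv : μ v = v)
    (w1 : ∀ s t, μ s = s → μ t = t → w s = w t → s = t)
    (w2 : ∀ t, μ t = t → adj t (w t) ∧ μ (w t) ≠ w t ∧ w t ≠ u) :
    ∃ (S : Finset (V n × Bool)) (R : V n × Bool → V n × Bool), Inv S R ∧
      (∀ x, (x, true) ∉ S → μ x = x ∧ par x = par u) ∧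
      (∀ x, (x, false) ∈ S → μ x ≠ x ∧ par x = par u) ∧
      (∀ x, μ x ≠ x → R (x, true) = (μ x, true)) ∧
      (u, decide (μ u = u)) ∈ S ∧ R (u, decide (μ u = u)) = (v, true) ∧
      (∀ x, (x, false) ∈ S ↔ (x = u ∧ μ u ≠ u) ∨
        ∃ t, (μ t = t ∧ par t = par v ∧ t ≠ v) ∧ w t = x) ∧
      (∀ x, (x, true) ∉ S ↔ μ x = x ∧ par x = par u ∧ x ≠ u) ∧
      ∀ p ∈ S, p ≠ (u, decide (μ u = u)) → p ≠ (v, true) → adj p.1 (R p).1 := by
  let A : Finset (V n × Bool) := univ.filter fun p => p.2 = true ∧ par p.1 = par v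
  have mA : ∀ p, p ∈ A ↔ p.2 = true ∧ par p.1 = par v := fun p => by simp [A]
  let f : V n × Bool → V n × Bool := fun p =>
    if μ p.1 ≠ p.1 then (μ p.1, true) else if p.1 = v then (u, decide (μ u = u)) else (w p.1, false)
  have f1 : ∀ p : V n × Bool, μ p.1 ≠ p.1 → f p = (μ p.1, true) := fun p h => if_pos h
  have f2 : ∀ p : V n × Bool, p.1 = v → f p = (u, decide (μ u = u)) := fun p h => by
    simp only [f]
    rw [if_neg (by rw [h]; exact not_not.mpr hv), if_pos h]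
  have f3 : ∀ p : V n × Bool, μ p.1 = p.1 → p.1 ≠ v → f p = (w p.1, false) := fun p h h' => by
    simp only [f]
    rw [if_neg (not_not.mpr h), if_neg h']
  have cs : ∀ p : V n × Bool, μ p.1 ≠ p.1 ∨ p.1 = v ∨ (μ p.1 = p.1 ∧ p.1 ≠ v) := fun p => by tauto
  have cov : ∀ x, μ x ≠ x → μ (μ x) ≠ μ x := fun x h e => h (by rw [← e, hμ])
  have fp : ∀ p ∈ A, par p.1 ≠ par (f p).1 := by
    intro p hp
    rcases cs p with h | h | h
    · rw [f1 p h]; exact (hadj _ h).par_ne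
    · rw [f2 p h, h]; exact huv.symm
    · rw [f3 p h.1 h.2]; exact (w2 _ h.1).1.par_ne
  have fu : ∀ p ∈ A, par (f p).1 = par u := fun p hp =>
    par_eq huv (by rw [← ((mA p).mp hp).2]; exact (fp p hp).symm)
  have finj : Set.InjOn f A := by
    intro p hp q hq e
    have hp2 := ((mA p).mp hp).1
    have hq2 := ((mA q).mp hq).1
    refine Prod.ext ?_ (hp2.trans hq2.symm)
    have x12 : ∀ a b : V n × Bool, μ a.1 ≠ a.1 → b.1 = v → f a ≠ f b := by
      intro a b ha hb e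
      rw [f1 a ha, f2 b hb] at e
      obtain ⟨e1, e2⟩ := Prod.mk.inj e
      exact cov _ ha (by rw [e1]; exact of_decide_eq_true e2.symm)
    have x13 : ∀ a b : V n × Bool, μ a.1 ≠ a.1 → μ b.1 = b.1 ∧ b.1 ≠ v → f a ≠ f b := by
      intro a b ha hb e
      rw [f1 a ha, f3 b hb.1 hb.2] at e
      exact Bool.noConfusion (Prod.mk.inj e).2
    have x23 : ∀ a b : V n × Bool, a.1 = v → μ b.1 = b.1 ∧ b.1 ≠ v → f a ≠ f b := by
      intro a b ha hb e
      rw [f2 a ha, f3 b hb.1 hb.2] at e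
      exact (w2 _ hb.1).2.2 (Prod.mk.inj e).1.symm
    rcases cs p with h | h | h <;> rcases cs q with h' | h' | h'
    · rw [f1 p h, f1 q h'] at e
      rw [← hμ p.1, (Prod.mk.inj e).1, hμ]
    · exact absurd e (x12 p q h h')
    · exact absurd e (x13 p q h h')
    · exact absurd e.symm (x12 q p h' h)
    · exact h.trans h'.symm
    · exact absurd e (x23 p q h h')
    · exact absurd e.symm (x13 q p h' h)
    · exact absurd e.symm (x23 q p h' h)
    · rw [f3 p h.1 h.2, f3 q h'.1 h'.2] at e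
      exact w1 _ _ h.1 h'.1 (Prod.mk.inj e).1
  obtain ⟨R, r1, r2, r3⟩ := exists_inv_of_injOn A f finj fun p hp h =>
    huv ((fu p hp).symm.trans ((mA _).mp h).2)
  have hvA : (v, true) ∈ A := (mA _).mpr ⟨rfl, rfl⟩
  have hcv : ∀ x, μ x ≠ x → par x ≠ par v → (μ x, true) ∈ A ∧ f (μ x, true) = (x, true) := by
    intro x h h'
    refine ⟨(mA _).mpr ⟨rfl, ?_⟩, ?_⟩
    · exact par_eq h'.symm (hadj x h).par_ne.symm
    · rw [f1 _ (cov x h), hμ]
  have nt : ∀ x, (x, true) ∉ A ∪ A.image f → μ x = x ∧ par x = par u := by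
    intro x hx
    rw [mem_union, not_or] at hx
    have a1 : par x ≠ par v := fun e => hx.1 ((mA _).mpr ⟨rfl, e⟩)
    refine ⟨?_, par_eq huv a1⟩
    by_contra h
    exact hx.2 (mem_image.mpr ⟨_, hcv x h a1⟩)
  refine ⟨_, R, r1, nt, fun x hx => ?_, fun x hx => ?_, ?_, ?_, fun x => ⟨fun hx => ?_, ?_⟩,
    fun x => ⟨fun hx => ⟨(nt x hx).1, (nt x hx).2, fun e => hx ?_⟩, fun hx h => ?_⟩,
    fun p hp h1 h2 => ?_⟩
  · rcases mem_union.mp hx with h | h
    · exact Bool.noConfusion ((mA _).mp h).1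
    · obtain ⟨p, hp, e⟩ := mem_image.mp h
      refine ⟨?_, by have := fu p hp; rwa [e] at this⟩
      rcases cs p with c | c | c
      · rw [f1 p c] at e
        exact Bool.noConfusion (Prod.mk.inj e).2
      · rw [f2 p c] at e
        obtain ⟨e1, e2⟩ := Prod.mk.inj e
        rw [← e1]
        exact of_decide_eq_false e2
      · rw [f3 p c.1 c.2] at e
        rw [← (Prod.mk.inj e).1]
        exact (w2 _ c.1).2.1
  · by_cases e : par x = par v
    · rw [r2 _ ((mA (x, true)).mpr ⟨rfl, e⟩), f1 _ hx]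
    · rw [← (hcv x hx e).2, r3 _ (hcv x hx e).1]
  · exact mem_union_right _ (mem_image.mpr ⟨_, hvA, f2 _ rfl⟩)
  · rw [← f2 (v, true) rfl, r3 _ hvA]
  · rcases mem_union.mp hx with h | h
    · exact Bool.noConfusion ((mA _).mp h).1
    · obtain ⟨p, hp, e⟩ := mem_image.mp h
      rcases cs p with c | c | c
      · rw [f1 p c] at e
        exact Bool.noConfusion (Prod.mk.inj e).2
      · rw [f2 p c] at e
        obtain ⟨e1, e2⟩ := Prod.mk.inj e
        exact Or.inl ⟨e1.symm, of_decide_eq_false e2⟩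
      · rw [f3 p c.1 c.2] at e
        exact Or.inr ⟨p.1, ⟨c.1, ((mA _).mp hp).2, c.2⟩, (Prod.mk.inj e).1⟩
  · rintro (⟨e1, e2⟩ | ⟨t, ⟨t1, t2, t3⟩, t4⟩)
    · exact mem_union_right _ (mem_image.mpr ⟨_, hvA, by rw [f2 _ rfl, e1, decide_eq_false e2]⟩)
    · exact mem_union_right _ (mem_image.mpr ⟨(t, true), (mA _).mpr ⟨rfl, t2⟩, by
        rw [f3 _ t1 t3, t4]⟩)
  · exact mem_union_right _ (mem_image.mpr ⟨_, hvA, by
      rw [f2 _ rfl, e, decide_eq_true (e ▸ (nt x hx).1)]⟩)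
  · rcases mem_union.mp h with h | h
    · exact huv (hx.2.1.symm.trans ((mA _).mp h).2)
    · obtain ⟨p, hp, e⟩ := mem_image.mp h
      rcases cs p with c | c | c
      · rw [f1 p c] at e
        exact cov _ c (by rw [(Prod.mk.inj e).1]; exact hx.1)
      · rw [f2 p c] at e
        exact hx.2.2 (Prod.mk.inj e).1.symm
      · rw [f3 p c.1 c.2] at e
        exact Bool.noConfusion (Prod.mk.inj e).2
  · have fa : ∀ q ∈ A, q.1 ≠ v → adj q.1 (f q).1 := by
      intro q hq hqv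
      rcases cs q with c | c | c
      · rw [f1 q c]; exact hadj _ c
      · exact absurd c hqv
      · rw [f3 q c.1 c.2]; exact (w2 _ c.1).1
    rcases mem_union.mp hp with h | h
    · rw [r2 p h]
      exact fa p h fun e => h2 (Prod.ext e ((mA p).mp h).1)
    · obtain ⟨q, hq, rfl⟩ := mem_image.mp h
      rw [r3 q hq]
      exact (fa q hq fun e => h1 (f2 q e)).symm

theorem top_core (μ : V n → V n) (hμ : ∀ x, μ (μ x) = x) (hadj : ∀ x, μ x ≠ x → adj x (μ x))
    (u v : V n) (huv : par u ≠ par v) (hv : μ v = v) (S : Finset (V n × Bool))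
    (R : V n × Bool → V n × Bool) (r1 : Inv S R)
    (r2 : ∀ x, (x, true) ∉ S → μ x = x ∧ par x = par u)
    (r3 : ∀ x, (x, false) ∈ S → μ x ≠ x ∧ par x = par u)
    (r4 : ∀ x, μ x ≠ x → R (x, true) = (μ x, true)) (r5 : (u, decide (μ u = u)) ∈ S)
    (r6 : R (u, decide (μ u = u)) = (v, true))
    (r8 : ∀ p ∈ S, p ≠ (u, decide (μ u = u)) → p ≠ (v, true) → adj p.1 (R p).1)
    (hrob : Rob (univ \ S)) (G : SimpleGraph (V n)) (hG : ∀ x y, adj x y → G.Adj x y) :
    ∃ w : G.Walk u v, w.IsHamiltonian ∧ ∀ x, μ x ≠ x → s(x, μ x) ∈ w.edges := by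
  obtain ⟨P', p1, p2, p3⟩ := contract inv_sw (subset_univ S) r1 (by
    intro A hA c1 c2
    rw [eq_empty_iff_forall_notMem]
    intro p hp
    obtain ⟨a1, a2⟩ := r3 p.1 (hA (mem_false c1 hp false))
    have a3 := c2 _ (mem_false c1 hp true)
    rw [r4 _ a1] at a3
    have a4 := (r3 _ (hA (mem_false c1 a3 false))).2
    exact (hadj _ a1).par_ne (a2.trans a4.symm))
  obtain ⟨R', q1, q2, q3⟩ := hrob P' p1 (by
    intro x hx
    have a1 := (mem_sdiff.mp hx).2
    have a2 : (x, false) ∉ S := fun e => (r3 x e).1 (r2 x a1).1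
    have a3 := p2 (univ.filter fun q => q.1 = x) (subset_univ _)
      (fun q hq => mem_filter.mpr ⟨mem_univ _, (mem_filter.mp hq).2⟩)
      (fun q hq hS => by
        obtain ⟨y, b⟩ := q
        obtain rfl : y = x := (mem_filter.mp hq).2
        cases b
        · exact absurd hS a2
        · exact absurd hS a1) (x, true) (mem_filter.mpr ⟨mem_univ _, rfl⟩) a1
    exact eq_sw (p := (x, true)) (mem_filter.mp a3).2 (p1 _ hx).2.1)
  obtain ⟨g1, g2⟩ := p3 R' q1 q3
  set Q : V n × Bool → V n × Bool := fun p => if p ∈ S then R p else R' p with hQ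
  have hne : u ≠ v := fun e => huv (by rw [e])
  let σ : V n × Bool → V n × Bool := fun p => if p.1 = v ∨ (p.1 = u ∧ μ u = u) then sw p else p
  have s0 : ∀ p, (σ p).1 = p.1 := fun p => by
    simp only [σ]
    split_ifs <;> rfl
  have s1 : ∀ p, σ (σ p) = p := fun p => by
    by_cases e : p.1 = v ∨ (p.1 = u ∧ μ u = u)
    · have a : σ p = sw p := if_pos e
      rw [a]
      exact (if_pos e).trans (sw_sw p)
    · have a : σ p = p := if_neg e
      rw [a, a]
  have s2 : ∀ p, σ (sw p) = sw (σ p) := fun p => by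
    by_cases e : p.1 = v ∨ (p.1 = u ∧ μ u = u)
    · have a : σ p = sw p := if_pos e
      rw [a]
      exact if_pos e
    · have a : σ p = p := if_neg e
      rw [a]
      exact if_neg e
  have s3 : σ (u, false) = (u, decide (μ u = u)) := by
    by_cases e : μ u = u <;> simp [σ, sw, e, hne]
  have s4 : σ (v, false) = (v, true) := by simp [σ, sw]
  have s5 : ∀ x, μ x ≠ x → σ (x, true) = (x, true) := fun x hx =>
    if_neg (by
      rintro (e | ⟨e, e'⟩)
      · exact hx (by rw [show x = v from e]; exact hv)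
      · exact hx (by rw [show x = u from e]; exact e'))
  obtain ⟨k1, k2⟩ := conj σ Q s1 s2 g1 g2
  obtain ⟨W, W1, W2⟩ := path_of_ports G _ k1 k2 u v (by
    simp only [s3, hQ, if_pos r5, r6]
    rw [← s4, s1]) (by
    intro p h1 h2
    refine hG _ _ ?_
    rw [s0, ← s0 p]
    by_cases e : σ p ∈ S
    · simp only [hQ, if_pos e]
      exact r8 _ e (fun e' => h1 (by rw [← s1 p, e', ← s3, s1]))
        fun e' => h2 (by rw [← s1 p, e', ← s4, s1])
    · simp only [hQ, if_neg e]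
      exact q2 _ (mem_sdiff.mpr ⟨mem_univ _, e⟩))
  refine ⟨W, W1, fun x hx => W2 x (μ x) ?_⟩
  have a1 : (x, true) ∈ S := by
    by_contra e
    exact hx (r2 x e).1
  simp only [s5 x hx, hQ, if_pos a1, r4 x hx]
  exact s5 _ fun e => hx (by rw [← e, hμ])

theorem num_loc (k : ℕ) (hk : 1 ≤ k) : 50 * (3 + (2 * k + 1) ^ 2 + 3) ^ 2 + 100 + 5 * (3 + (2 * k + 1) ^ 2 + 3) +
    2 * k ≤ 2000 * (k + 1) ^ 4 := by
  have : 50 * (3 + (2 * k + 1) ^ 2 + 3) ^ 2 + 100 + 5 * (3 + (2 * k + 1) ^ 2 + 3) + 2 * k +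
      (1200 * k ^ 4 + 6400 * k ^ 3 + 8380 * k ^ 2 + 5178 * k) = 2000 * (k + 1) ^ 4 + 585 := by ring
  omega

theorem top_loc (hT : TMSt) (hF : FarSt) (k : ℕ) (hk0 : 1 ≤ k) (J : Finset (Fin n))
    (hn : 2000 * (k + 1) ^ 4 ≤ #J)
    (μ : V n → V n) (hμ : ∀ x, μ (μ x) = x) (hadj : ∀ x, μ x ≠ x → adj x (μ x)) (u v ω : V n)
    (huv : par u ≠ par v) (hv : μ v = v)
    (hk : ∀ y, cnt J y (univ.filter fun x => μ x = x) ≤ k)
    (E O : Finset (V n)) (mE : ∀ x, x ∈ E ↔ μ x = x ∧ par x = par u)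
    (mO : ∀ x, x ∈ O ↔ μ x = x ∧ par x = par v)
    (hb : ∀ y, cnt J y E + cnt J y {v} = cnt J y O + cnt J y {ω})
    (G : SimpleGraph (V n)) (hG : ∀ x y, adj x y → G.Adj x y) :
    ∃ w : G.Walk u v, w.IsHamiltonian ∧ ∀ x, μ x ≠ x → s(x, μ x) ∈ w.edges := by
  have hk1 : k + 1 ≤ (k + 1) ^ 4 := Nat.le_self_pow (by norm_num) _
  obtain ⟨w, w1, w2⟩ := exists_loc k J (by omega) μ hk u
  obtain ⟨S, R, r1, r2, r3, r4, r5, r6, r9, r10, r8⟩ := pre_loc μ w hμ hadj u v huv hv w1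
    fun t ht => (w2 t ht).1
  obtain ⟨H, mH⟩ : ∃ H : Finset (V n), ∀ x, x ∈ H ↔ (x, false) ∈ S :=
    ⟨univ.filter fun x => (x, false) ∈ S, fun x => by simp⟩
  obtain ⟨T, mT⟩ : ∃ T : Finset (V n), ∀ x, x ∈ T ↔ (x, true) ∉ S :=
    ⟨univ.filter fun x => (x, true) ∉ S, fun x => by simp⟩
  have mS : ∀ x : V n, x ∈ Sub univ (0 : V n) := fun x => mem_Sub.mpr fun i hi => absurd (mem_univ i) hi
  have ePo : univ \ S = Po univ 0 H T := by
    ext ⟨x, b⟩
    cases b <;> simp [Po, mH, mT, mS]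
  obtain ⟨A, mA⟩ : ∃ A : Finset (V n), ∀ t, t ∈ A ↔ μ t = t ∧ par t = par v ∧ t ≠ v :=
    ⟨univ.filter fun t => μ t = t ∧ par t = par v ∧ t ≠ v, fun x => by simp⟩
  obtain ⟨B, mB⟩ : ∃ B : Finset (V n), ∀ z, z ∈ B ↔
      ∃ t, (μ t = t ∧ par t = par v ∧ t ≠ v) ∧ w t = z :=
    ⟨A.image w, fun z => by simp only [mem_image, mA]⟩
  have cw : ∀ y, cnt J y A = cnt J y B := fun y => by
    refine card_bij (fun t _ => w t) (fun t ht => ?_) (fun s hs t ht e => ?_) fun z hz => ?_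
    · obtain ⟨a1, a2⟩ := mem_filter.mp ht
      exact mem_filter.mpr ⟨Sub_trans (w2 t ((mA t).mp a2).1).2 a1, (mB _).mpr ⟨t, (mA t).mp a2, rfl⟩⟩
    · exact w1 s t ((mA s).mp (mem_filter.mp hs).2).1 ((mA t).mp (mem_filter.mp ht).2).1 e
    · obtain ⟨a1, a2⟩ := mem_filter.mp hz
      obtain ⟨t, t1, rfl⟩ := (mB _).mp a2
      exact ⟨t, mem_filter.mpr ⟨Sub_trans (Sub_symm (w2 t t1.1).2) a1, (mA t).mpr t1⟩, rfl⟩
  have cA : ∀ y, cnt J y O = cnt J y A + cnt J y {v} := fun y => by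
    rw [← cnt_insert fun h => ((mA v).mp h).2.2 rfl]
    refine cnt_congr fun z _ => ?_
    rw [mem_insert, mA, mO]
    refine ⟨fun h => ?_, fun h => h.elim (fun e => by rw [e]; exact ⟨hv, rfl⟩) fun h => ⟨h.1, h.2.1⟩⟩
    by_cases e : z = v
    · exact Or.inl e
    · exact Or.inr ⟨h.1, h.2, e⟩
  have uA : u ∉ B := fun h => by
    obtain ⟨t, t1, t2⟩ := (mB _).mp h
    exact (w2 t t1.1).1.2.2 t2
  have bal : ∀ y, cnt J y H + cnt J y {ω} = cnt J y T + cnt J y {u} := fun y => by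
    have a1 := hb y
    rw [cA, cw] at a1
    by_cases c : μ u = u
    · have a2 : cnt J y H = cnt J y B := cnt_congr fun z _ => by
        rw [mH, r9, mB]
        exact ⟨fun h => h.resolve_left fun h => h.2 c, Or.inr⟩
      have a3 : cnt J y E = cnt J y T + cnt J y {u} := by
        rw [← cnt_insert fun h => ((r10 u).mp ((mT u).mp h)).2.2 rfl]
        refine cnt_congr fun z _ => ?_
        rw [mem_insert, mT, r10, mE]
        refine ⟨fun h => ?_, fun h => h.elim (fun e => by rw [e]; exact ⟨c, rfl⟩)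
          fun h => ⟨h.1, h.2.1⟩⟩
        by_cases e : z = u
        · exact Or.inl e
        · exact Or.inr ⟨h.1, h.2, e⟩
      omega
    · have a2 : cnt J y H = cnt J y B + cnt J y {u} := by
        rw [← cnt_insert uA]
        refine cnt_congr fun z _ => ?_
        rw [mH, r9, mem_insert, mB]
        exact ⟨Or.imp_left (·.1), Or.imp_left fun h => ⟨h, c⟩⟩
      have a3 : cnt J y E = cnt J y T := cnt_congr fun z _ => by
        rw [mT, r10, mE]
        exact ⟨fun h => ⟨h.1, h.2, fun e => c (e ▸ h.1)⟩, fun h => ⟨h.1, h.2.1⟩⟩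
      omega
  have hrob : Rob (Po univ 0 H T) := lb_move (π := par u) (t := k) hT hF ((num_loc k hk0).trans hn)
    ω (#(df (univ \ J) u ω)) univ 0 u H (subset_univ _) rfl (mS _) (mS _)
    (fun z _ h => h.elim (fun h => (r3 z ((mH z).mp h)).2) fun h => (r2 z ((mT z).mp h)).2)
    (fun z _ h1 h2 => (r3 z ((mH z).mp h1)).1 (r2 z ((mT z).mp h2)).1) (fun y _ => bal y)
    fun y _ => (cnt_mono fun z hz =>
      mem_filter.mpr ⟨mem_univ _, (r2 z ((mT z).mp hz)).1⟩).trans (hk y)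
  exact top_core μ hμ hadj u v huv hv S R r1 r2 r3 r4 r5 r6 r8 (ePo ▸ hrob) G hG

end Pool.Agent.Lib.MP_88ff4d_co.NP
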