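import Pool.Agent.Lib.MP_88ff4d_co.NP.All
import Pool.Agent.Lib.MP_88ff4d_co.NP.LTop

/-! Locally nearly perfect matchings: assembly. -/

set_option autoImplicit false

namespace Pool.Agent.Lib.MP_88ff4d_co.NP

open Finset

theorem tm_of (h5 : SQ5St) : TMSt :=
  have sq := sq_st (sq5g_st h5)
  have sqm := sqm_st sq far_st link_st
  tm_st sqm (t1_st sqm (cl_st sq) far_st link_st) far_st cnt_st link_st

theorem cnt_ncard {n : ℕ} {J : Finset (Fin n)} {y : V n} {A : Finset (V n)} {B : Set (V n)}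
    (h : ∀ x, x ∈ B ↔ x ∈ Sub J y ∧ x ∈ A) : cnt J y A = B.ncard := by
  rw [cnt, ← Set.ncard_coe_finset]
  congr 1
  ext x
  rw [h, mem_coe, mem_filter]

theorem loc_one (h5 : SQ5St) (n k : ℕ) (J : Finset (Fin n)) (hn : 2000 * (k + 3) ^ 4 ≤ J.card)
    (G : SimpleGraph (Fin n → ZMod 2)) (hG : ∀ x y, G.Adj x y ↔ hammingDist x y = 1)
    (M N : G.Subgraph) (hN : N.IsMatching) (hMN : M ≤ N)
    (hk : ∀ y : Fin n → ZMod 2, {x | x ∉ N.verts ∧ ∀ i ∉ J, x i = y i}.ncard ≤ k)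
    (hb : ∀ y : Fin n → ZMod 2,
      {x | x ∉ N.verts ∧ (∀ i ∉ J, x i = y i) ∧ ∑ i, x i = 0}.ncard =
        {x | x ∉ N.verts ∧ (∀ i ∉ J, x i = y i) ∧ ∑ i, x i = 1}.ncard)
    (u v : Fin n → ZMod 2) (huv : ∑ i, u i ≠ ∑ i, v i) (hv : ∀ w, ¬ M.Adj v w) :
    ∃ p : G.Walk u v, p.IsHamiltonian ∧ ∀ e ∈ M.edgeSet, e ∈ p.edges := by
  classical
  obtain ⟨ν, n1, n0⟩ : ∃ ν : V n → V n, (∀ x ∈ N.verts, N.Adj x (ν x)) ∧ ∀ x ∉ N.verts, ν x = x :=
    ⟨fun x => if h : x ∈ N.verts then (hN h).exists.choose else x, fun x h => by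
      simp only [dif_pos h]
      exact (hN h).exists.choose_spec, fun x h => dif_neg h⟩
  have n2 : ∀ x y, N.Adj x y → ν x = y := fun x y hxy =>
    (hN (N.edge_vert hxy)).unique (n1 x (N.edge_vert hxy)) hxy
  have n3 : ∀ x, ν (ν x) = x := by
    intro x
    by_cases h : x ∈ N.verts
    · exact n2 _ _ (n1 x h).symm
    · rw [n0 x h, n0 x h]
  have n4 : ∀ x ∈ N.verts, adj x (ν x) := fun x h =>
    (adj_iff _ _).mpr ((hG _ _).mp (n1 x h).adj_sub)
  obtain ⟨μ, m0, m1⟩ : ∃ μ : V n → V n, (∀ x, (x = v ∨ x = ν v) → μ x = x) ∧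
      ∀ x, ¬ (x = v ∨ x = ν v) → μ x = ν x :=
    ⟨fun x => if x = v ∨ x = ν v then x else ν x, fun x h => if_pos h, fun x h => if_neg h⟩
  have m3 : ∀ x, μ (μ x) = x := by
    intro x
    by_cases h : x = v ∨ x = ν v
    · rw [m0 x h, m0 x h]
    · rw [m1 x h, m1, n3]
      rintro (e | e)
      · exact h (Or.inr (by rw [← e, n3]))
      · exact h (Or.inl (by rw [← n3 x, e, n3]))
  have m4 : ∀ x, μ x = x ↔ x = v ∨ x = ν v ∨ x ∉ N.verts := fun x => by
    by_cases h : x = v ∨ x = ν v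
    · exact ⟨fun _ => by tauto, fun _ => m0 x h⟩
    · rw [m1 x h]
      exact ⟨fun e => Or.inr (Or.inr fun h' => (n1 x h').ne e.symm), fun e => n0 x (by tauto)⟩
  obtain ⟨U, mU⟩ : ∃ U : ZMod 2 → Finset (V n), ∀ e x, x ∈ U e ↔ x ∉ N.verts ∧ par x = e :=
    ⟨fun e => univ.filter fun x => x ∉ N.verts ∧ par x = e, fun e x => by simp⟩
  have cU : ∀ y e, cnt J y (U e) =
      {x | x ∉ N.verts ∧ (∀ i ∉ J, x i = y i) ∧ ∑ i, x i = e}.ncard := fun y e =>
    cnt_ncard fun x => by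
      rw [mU, mem_Sub]
      exact ⟨fun h => ⟨h.2.1, h.1, h.2.2⟩, fun h => ⟨h.2.1, h.1, h.2.2⟩⟩
  have bU : ∀ y, cnt J y (U (par u)) = cnt J y (U (par v)) := fun y => by
    have k : ∀ a b : ZMod 2, a ≠ b → (a = 0 ∧ b = 1) ∨ (a = 1 ∧ b = 0) := by decide
    rcases k (par u) (par v) huv with ⟨a, b⟩ | ⟨a, b⟩ <;> rw [a, b, cU, cU, hb y]
  obtain ⟨E, mE⟩ : ∃ E : Finset (V n), ∀ x, x ∈ E ↔ μ x = x ∧ par x = par u :=
    ⟨univ.filter fun x => μ x = x ∧ par x = par u, fun x => by simp⟩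
  obtain ⟨O, mO⟩ : ∃ O : Finset (V n), ∀ x, x ∈ O ↔ μ x = x ∧ par x = par v :=
    ⟨univ.filter fun x => μ x = x ∧ par x = par v, fun x => by simp⟩
  have huv' : par u ≠ par v := huv
  obtain ⟨w, w1, w2⟩ := top_loc (tm_of h5) far_st (k + 2) (by omega) J hn μ m3 (fun x hx => by
      have h : ¬ (x = v ∨ x = ν v) := fun h => hx (m0 x h)
      rw [m1 x h] at hx ⊢
      exact n4 x (by_contra fun h' => hx (n0 x h'))) u v (ν v) huv (m0 v (Or.inl rfl)) (fun y => by
      have a1 := cnt_ncard (J := J) (y := y) (A := univ.filter fun x => x ∉ N.verts)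
        (B := {x | x ∉ N.verts ∧ ∀ i ∉ J, x i = y i}) fun x => by
          rw [mem_Sub, mem_filter]
          exact ⟨fun h => ⟨h.2, mem_univ _, h.1⟩, fun h => ⟨h.2.2, h.1⟩⟩
      refine le_trans ?_ (Nat.add_le_add_right (a1.le.trans (hk y)) 2)
      unfold cnt
      refine le_trans (card_le_card fun x hx => ?_) (card_un le_rfl (card_le_two (a := v) (b := ν v)))
      obtain ⟨c1, c2⟩ := mem_filter.mp hx
      rcases (m4 x).mp (mem_filter.mp c2).2 with c | c | c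
      · exact mem_union_right _ (by simp [c])
      · exact mem_union_right _ (by simp [c])
      · exact mem_union_left _ (mem_filter.mpr ⟨c1, mem_filter.mpr ⟨mem_univ _, c⟩⟩))
    E O mE mO (fun y => by
      have a0 := bU y
      by_cases c : v ∈ N.verts
      · have p1 : par (ν v) = par u := Topx.par_eq huv' (n4 v c).par_ne.symm
        have a1 : cnt J y E = cnt J y (U (par u)) + cnt J y {ν v} := by
          rw [← cnt_insert fun h => ((mU _ _).mp h).1 (N.edge_vert (n1 v c).symm)]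
          refine cnt_congr fun z _ => ?_
          rw [mE, m4, mem_insert, mU]
          refine ⟨fun h => ?_, fun h => h.elim (fun e => ⟨by tauto, e ▸ p1⟩) fun h => ⟨by tauto, h.2⟩⟩
          rcases h.1 with e | e | e
          · exact absurd (e ▸ h.2).symm huv'
          · exact Or.inl e
          · exact Or.inr ⟨e, h.2⟩
        have a2 : cnt J y O = cnt J y (U (par v)) + cnt J y {v} := by
          rw [← cnt_insert fun h => ((mU _ _).mp h).1 c]
          refine cnt_congr fun z _ => ?_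
          rw [mO, m4, mem_insert, mU]
          refine ⟨fun h => ?_, fun h => h.elim (fun e => ⟨by tauto, e ▸ rfl⟩) fun h => ⟨by tauto, h.2⟩⟩
          rcases h.1 with e | e | e
          · exact Or.inl e
          · exact absurd (p1.symm.trans (e ▸ h.2)) huv'
          · exact Or.inr ⟨e, h.2⟩
        omega
      · have f : ∀ z, μ z = z ↔ z ∉ N.verts := fun z => by
          rw [m4, n0 v c]
          exact ⟨fun h => h.elim (fun e => e ▸ c) fun h => h.elim (fun e => e ▸ c) id,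
            fun h => Or.inr (Or.inr h)⟩
        have a1 : cnt J y E = cnt J y (U (par u)) := cnt_congr fun z _ => by rw [mE, f, mU]
        have a2 : cnt J y O = cnt J y (U (par v)) := cnt_congr fun z _ => by rw [mO, f, mU]
        rw [n0 v c]
        omega) G fun x y h => (hG _ _).mpr ((adj_iff _ _).mp h)
  refine ⟨w, w1, fun e he => ?_⟩
  induction e using Sym2.ind with
  | _ y z =>
    have k := n2 y z (hMN.2 he)
    have h : ¬ (y = v ∨ y = ν v) := by
      rintro (e | e)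
      · exact hv z (e ▸ he)
      · exact hv y (by rw [← n3 v, ← e, k]; exact SimpleGraph.Subgraph.Adj.symm he)
    have k' : μ y = z := (m1 y h).trans k
    exact k' ▸ w2 y (k' ▸ (SimpleGraph.Subgraph.Adj.ne he).symm)

theorem loc_of (h5 : SQ5St) (n k : ℕ) (J : Finset (Fin n)) (hn : 2000 * (k + 3) ^ 4 ≤ J.card)
    (G : SimpleGraph (Fin n → ZMod 2)) (hG : ∀ x y, G.Adj x y ↔ hammingDist x y = 1)
    (M N : G.Subgraph) (hN : N.IsMatching) (hMN : M ≤ N)
    (hk : ∀ y : Fin n → ZMod 2, {x | x ∉ N.verts ∧ ∀ i ∉ J, x i = y i}.ncard ≤ k)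
    (hb : ∀ y : Fin n → ZMod 2,
      {x | x ∉ N.verts ∧ (∀ i ∉ J, x i = y i) ∧ ∑ i, x i = 0}.ncard =
        {x | x ∉ N.verts ∧ (∀ i ∉ J, x i = y i) ∧ ∑ i, x i = 1}.ncard)
    (u v : Fin n → ZMod 2) (huv : ∑ i, u i ≠ ∑ i, v i)
    (h : (∀ w, ¬ M.Adj u w) ∨ ∀ w, ¬ M.Adj v w) :
    ∃ p : G.Walk u v, p.IsHamiltonian ∧ ∀ e ∈ M.edgeSet, e ∈ p.edges := by
  rcases h with h | h
  · obtain ⟨p, p1, p2⟩ := loc_one h5 n k J hn G hG M N hN hMN hk hb v u huv.symm h
    exact ⟨p.reverse, fun x => by simpa using p1 x, fun e he => by simpa using p2 e he⟩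
  · exact loc_one h5 n k J hn G hG M N hN hMN hk hb u v huv h

end Pool.Agent.Lib.MP_88ff4d_co.NP
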