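import Pool.Agent.Lib.MP_88ff4d_co.NP.LOps

/-! Locally nearly perfect matchings: induction on the outer directions, balanced subcubes. -/

set_option autoImplicit false

namespace Pool.Agent.Lib.MP_88ff4d_co.NP

open Finset

variable {n : ℕ} {D J : Finset (Fin n)} {b : V n} {H T : Finset (V n)} {t q Q : ℕ} {π : ZMod 2}

/-- the subcube through `y` is balanced, with at most `t` targets and `q` squares -/
def LC (J : Finset (Fin n)) (t : ℕ) (π : ZMod 2) (T H : Finset (V n)) (q : ℕ) (y : V n) : Prop :=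
  ∃ c : Cf n, Ok J y H T c ∧ Par π c ∧ #c.X = #c.U ∧ #c.U ≤ t ∧ #c.Y ≤ q

/-- even and robust -/
def ER (S : Finset (V n × Bool)) : Prop := Even #S ∧ Rob S

theorem LC.mono {y : V n} {q' : ℕ} (h : LC J t π T H q y) (hq : q ≤ q') : LC J t π T H q' y := by
  obtain ⟨c, a1, a2, a3, a4, a5⟩ := h
  exact ⟨c, a1, a2, a3, a4, a5.trans hq⟩

theorem LC.rebase {y y' : V n} (h : LC J t π T H q y) (e : y' ∈ Sub J y) : LC J t π T H q y' := by
  obtain ⟨c, a1, a2⟩ := h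
  exact ⟨c, a1.rebase e, a2⟩

theorem LC.congr {y : V n} {H' : Finset (V n)} (h : LC J t π T H q y)
    (e : ∀ z ∈ Sub J y, z ∈ H' ↔ z ∈ H) : LC J t π T H' q y := by
  obtain ⟨c, a1, a2⟩ := h
  exact ⟨c, a1.congrH e, a2⟩

theorem Sub_symm {y z : V n} (h : y ∈ Sub J z) : z ∈ Sub J y :=
  mem_Sub.mpr fun i hi => (mem_Sub.mp h i hi).symm

theorem Sub_trans {x y z : V n} (h : x ∈ Sub J y) (h' : y ∈ Sub J z) : x ∈ Sub J z :=
  mem_Sub.mpr fun i hi => (mem_Sub.mp h i hi).trans (mem_Sub.mp h' i hi)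

theorem card_sides {j : Fin n} {b0 : V n} (hj : j ∈ D) (h0 : b0 ∈ Sub D b) :
    #(Po D b H T) = #(Po (D.erase j) b0 H T) + #(Po (D.erase j) (fl b0 j) H T) := by
  have e : Po D b H T \ Po (D.erase j) b0 H T = Po (D.erase j) (fl b0 j) H T := by
    ext p
    rw [mem_sdiff, mem_side h0 hj, mem_side (fl_mem_Sub hj h0) hj, fl_apply_self]
    exact ⟨fun h => ⟨h.1, z2_eq fun hh => h.2 ⟨h.1, hh⟩⟩,
      fun h => ⟨h.1, fun hh => z2_ne _ (h.2.symm.trans hh.2)⟩⟩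
  rw [← e, add_comm, card_sdiff_add_card_eq_card (side_sub h0 hj)]

theorem lc_new {c : Cf n} {a : V n} {l m : Fin n} {H' : Finset (V n)} (ha : a ∉ c.B)
    (O : Ok J a H' T ((c.addX a).toSq a l m)) (a2 : Par π c) (a3 : #c.X = #c.U) (a4 : #c.U ≤ t)
    (a5 : #c.Y ≤ q) : LC J t π T H' (q + 1) a := by
  have e : ((c.addX a).toSq a l m).X = c.X :=
    erase_insert fun h => ha (mem_B.mpr (Or.inl h))
  refine ⟨_, O, fun x hx => a2 x ?_, by rw [e]; exact a3, a4,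
    (card_insert_le _ _).trans (Nat.add_le_add_right a5 1)⟩
  rwa [e] at hx

theorem stepL (hF : FarSt) {j : Fin n} (hj : j ∈ D) (hjJ : j ∉ J) (hJ : J ⊆ D) {y : V n}
    (hy : y ∈ Sub D b) (L0 : LC J t π T H q y) (L1 : LC J t π T H q (fl y j))
    (hd : 4 * (2 * t + q + 1) ^ 2 + 8 * (2 * t + q + 1) + 50 ≤ #J)
    (IH : ∀ H', (∀ z ∉ Sub J y, z ∉ Sub J (fl y j) → (z ∈ H' ↔ z ∈ H)) →
      LC J t π T H' (q + 1) y → LC J t π T H' (q + 1) (fl y j) →
      ER (Po (D.erase j) y H' T) ∧ ER (Po (D.erase j) (fl y j) H' T)) : ER (Po D b H T) := by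
  obtain ⟨⟨e0, r0⟩, e1, r1⟩ := IH H (fun _ _ _ => Iff.rfl) (L0.mono (by omega)) (L1.mono (by omega))
  have hne : y j ≠ fl y j j := by rw [fl_apply_self]; exact (z2_ne _).symm
  refine ⟨by rw [card_sides hj hy]; exact e0.add e1, fun P hP hS => ?_⟩
  by_cases hx : ∃ p ∈ Po D b H T, (P p).1 j ≠ p.1 j
  · exact split hj hy (fl_mem_Sub hj hy) hne hP hS e0 hx r0 r1
  push Not at hx
  obtain ⟨c0, O0, p0, x0, u0, y0⟩ := L0
  obtain ⟨c1, O1, p1, x1, u1, y1⟩ := L1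
  have s0 := card_Sg_le (c := c0)
  have s1 := card_Sg_le (c := c1)
  have n0 := card_B_le (c := c0)
  have n1 := card_B_le (c := c1)
  have s2 := le_card_sdiff (c0.Sg ∪ c1.Sg) J
  have s3 := card_union_le c0.Sg c1.Sg
  have s4 := card_union_le c0.B c1.B
  obtain ⟨a, a1, a2⟩ := hF n (c0.B ∪ c1.B) (fun _ => 2) (J \ (c0.Sg ∪ c1.Sg)) y (by
    rw [sum_const, smul_eq_mul]
    omega)
  have aS : a ∈ Sub J y := mem_Sub.mpr fun i hi => a1 i fun h => hi (mem_sdiff.mp h).1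
  have aS' : fl a j ∈ Sub J (fl y j) := mem_Sub.mpr fun i hi => by
    by_cases e : i = j
    · rw [e, fl_apply_self, fl_apply_self, mem_Sub.mp aS j hjJ]
    · rw [fl_apply_ne _ e, fl_apply_ne _ e, mem_Sub.mp aS i hi]
  obtain ⟨l, m, m', H', P', g0, g1, A0, A1, hH, hP', hS', hx', hG⟩ := linkL (N := 2 * t + q + 1) hj
    hjJ hJ hP hS (Sub_sub hJ hy aS) (O0.rebase aS) (O1.rebase aS') hx
    (fun z hz => (a2 z (mem_union_left _ hz)).trans
      (df_mono (sdiff_subset_sdiff subset_rfl subset_union_left) _ _))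
    (fun z hz => by
      rw [df_congr (p := fl a j) (p' := a) fun i hi =>
        fl_apply_ne a fun e : i = j => hjJ (e ▸ (mem_sdiff.mp hi).1)]
      exact (a2 z (mem_union_right _ hz)).trans
        (df_mono (sdiff_subset_sdiff subset_rfl subset_union_right) _ _))
    (by omega) (by omega) (by omega)
  rw [Sub_eq_of_mem aS, Sub_eq_of_mem aS'] at hH
  obtain ⟨⟨e0', r0'⟩, -, r1'⟩ := IH H' hH ((lc_new g0 A0 p0 x0 u0 y0).rebase (Sub_symm aS))
    ((lc_new g1 A1 p1 x1 u1 y1).rebase (Sub_symm aS'))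
  exact hG (split hj hy (fl_mem_Sub hj hy) hne hP' hS' e0' hx' r0' r1')

/-- what survives a link at `y` -/
theorem after_link {j : Fin n} {y z : V n} {H' : Finset (V n)} {q' : ℕ}
    (hH : ∀ z ∉ Sub J y, z ∉ Sub J (fl y j) → (z ∈ H' ↔ z ∈ H)) (h0 : z ∉ Sub J y)
    (h1 : z ∉ Sub J (fl y j)) (L : LC J t π T H q' z) : LC J t π T H' q' z :=
  L.congr fun w hw => hH w (fun h => h0 (Sub_trans (Sub_symm hw) h))
    fun h => h1 (Sub_trans (Sub_symm hw) h)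

theorem after_all {j : Fin n} {y z : V n} {H' : Finset (V n)}
    (hH : ∀ z ∉ Sub J y, z ∉ Sub J (fl y j) → (z ∈ H' ↔ z ∈ H))
    (L0 : LC J t π T H' q y) (L1 : LC J t π T H' q (fl y j)) (L : LC J t π T H q z) :
    LC J t π T H' q z := by
  by_cases h0 : z ∈ Sub J y
  · exact L0.rebase h0
  by_cases h1 : z ∈ Sub J (fl y j)
  · exact L1.rebase h1
  exact after_link hH h0 h1 L

theorem erase_card {j : Fin n} (hj : j ∈ D \ J) : #(D.erase j \ J) + 1 = #(D \ J) := by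
  rw [erase_sdiff_comm]
  exact card_erase_add_one hj

theorem sub_erase {j : Fin n} (hJ : J ⊆ D) (hj : j ∉ J) : J ⊆ D.erase j := fun _ hi =>
  mem_erase.mpr ⟨fun e => hj (e ▸ hi), hJ hi⟩

theorem side_in {j : Fin n} {y z : V n} (hy : y ∈ Sub D b) (hz : z ∈ Sub (D.erase j) y) :
    z ∈ Sub D b := Sub_sub (erase_subset _ _) hy hz

theorem lb_small (hT : TMSt) (hF : FarSt)
    (hd : 50 * (Q + (t + 1) ^ 2 + 3) ^ 2 + 100 + 5 * (Q + (t + 1) ^ 2 + 3) + t ≤ #J) (r : ℕ) :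
    ∀ (D : Finset (Fin n)) (b : V n) (H : Finset (V n)) (q : ℕ), J ⊆ D → #(D \ J) = r →
      q + r ≤ Q → (∀ y ∈ Sub D b, LC J t π T H q y) → ER (Po D b H T) := by
  induction r with
  | zero =>
    intro D b H q hJ hr hq L
    obtain rfl : D = J := subset_antisymm (sdiff_eq_empty_iff_subset.mp (card_eq_zero.mp hr)) hJ
    obtain ⟨c, O, a2, a3, a4, a5⟩ := L b (self_mem_Sub _ _)
    refine ⟨?_, hT n (Q + (t + 1) ^ 2 + 3) t D b H T c π O a2 a3 a4 (by omega) hd⟩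
    rw [O.even_iff (by omega), a3]
    exact Even.add_self _
  | succ r ih =>
    intro D b H q hJ hr hq L
    obtain ⟨j, hj⟩ := card_pos.mp (by omega : 0 < #(D \ J))
    obtain ⟨j1, j2⟩ := mem_sdiff.mp hj
    have c := erase_card hj
    have b0 := self_mem_Sub D b
    have b1 := fl_mem_Sub j1 b0
    refine stepL hF j1 j2 hJ b0 (L _ b0) (L _ b1) (by
      have : 2 * t + q + 1 ≤ Q + (t + 1) ^ 2 + 3 := by nlinarith
      have := Nat.pow_le_pow_left this 2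
      have : Q + (t + 1) ^ 2 + 3 ≤ (Q + (t + 1) ^ 2 + 3) ^ 2 := Nat.le_self_pow two_ne_zero _
      omega) fun H' hH L0 L1 => ⟨?_, ?_⟩
    · exact ih _ _ _ (q + 1) (sub_erase hJ j2) (by omega) (by omega) fun z hz =>
        after_all hH L0 L1 ((L z (side_in b0 hz)).mono (by omega))
    · exact ih _ _ _ (q + 1) (sub_erase hJ j2) (by omega) (by omega) fun z hz =>
        after_all hH L0 L1 ((L z (side_in b1 hz)).mono (by omega))

theorem three {j i1 i2 : Fin n} (h1 : i1 ∈ D.erase j \ J) (h2 : i2 ∈ D.erase j \ J)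
    (h : i1 ≠ i2) (w0 w1 : V n) :
    ∃ y ∈ Sub (D.erase j) b, w0 ∉ Sub J y ∧ w1 ∉ Sub J y := by
  obtain ⟨a1, a2⟩ := mem_sdiff.mp h1
  obtain ⟨a3, a4⟩ := mem_sdiff.mp h2
  have s := self_mem_Sub (D.erase j) b
  by_contra hh
  push Not at hh
  have k0 := hh _ s
  have k1 := hh _ (fl_mem_Sub a1 s)
  have k2 := hh _ (fl_mem_Sub a3 s)
  have d1 : ∀ w ∈ Sub J b, w ∉ Sub J (fl b i1) := fun w hw => not_mem_mirror a2 hw
  have d2 : ∀ w ∈ Sub J b, w ∉ Sub J (fl b i2) := fun w hw => not_mem_mirror a4 hw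
  have d3 : ∀ w ∈ Sub J (fl b i1), w ∉ Sub J (fl b i2) := fun w hw hw' => by
    have e := (mem_Sub.mp hw i1 a2).symm.trans (mem_Sub.mp hw' i1 a2)
    rw [fl_apply_self, fl_apply_ne _ h] at e
    exact z2_ne _ e
  by_cases c0 : w0 ∈ Sub J b
  · exact d3 w1 (k1 (d1 _ c0)) (k2 (d2 _ c0))
  · have c1 := k0 c0
    exact d3 w0 (by_contra fun h => d1 _ c1 (k1 h)) (by_contra fun h => d2 _ c1 (k2 h))

theorem lb_big (hT : TMSt) (hF : FarSt)
    (hd : 50 * (3 + (t + 1) ^ 2 + 3) ^ 2 + 100 + 5 * (3 + (t + 1) ^ 2 + 3) + t ≤ #J) (r : ℕ) :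
    ∀ (D : Finset (Fin n)) (b : V n) (H : Finset (V n)) (w1 w2 : V n), J ⊆ D → #(D \ J) = r →
      w1 ∈ Sub D b → w2 ∈ Sub D b → (∀ y ∈ Sub D b, LC J t π T H 1 y) →
      (∀ y ∈ Sub D b, w1 ∉ Sub J y → w2 ∉ Sub J y → LC J t π T H 0 y) → ER (Po D b H T) := by
  induction r with
  | zero =>
    intro D b H _ _ hJ hr _ _ L _
    exact lb_small hT hF hd 0 D b H 1 hJ hr (by omega) L
  | succ r ih =>
    intro D b H w1 w2 hJ hr m1 m2 L L'
    by_cases hs : r < 2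
    · exact lb_small hT hF hd (r + 1) D b H 1 hJ hr (by omega) L
    obtain ⟨j, hj, sp⟩ : ∃ j ∈ D \ J, ∀ e : ZMod 2, ∃ w ∈ Sub D b, w j = e ∧
        ∀ y ∈ Sub D b, y j = e → w ∉ Sub J y → w1 ∉ Sub J y ∧ w2 ∉ Sub J y := by
      by_cases c : ∃ j ∈ D \ J, w1 j ≠ w2 j
      · obtain ⟨j, hj, c⟩ := c
        have j2 := (mem_sdiff.mp hj).2
        refine ⟨j, hj, fun e => ?_⟩
        by_cases k : w1 j = e
        · exact ⟨w1, m1, k, fun y _ h1 h2 => ⟨h2, fun h =>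
            c (k.trans (h1.symm.trans (mem_Sub.mp h j j2).symm))⟩⟩
        · exact ⟨w2, m2, (z2_two c (Ne.symm k)).symm, fun y _ h1 h2 =>
            ⟨fun h => k ((mem_Sub.mp h j j2).trans h1), h2⟩⟩
      · push Not at c
        have k0 : w2 ∈ Sub J w1 := mem_Sub.mpr fun i hi => by
          by_cases e : i ∈ D
          · exact (c i (mem_sdiff.mpr ⟨e, hi⟩)).symm
          · exact (mem_Sub.mp m2 i e).trans (mem_Sub.mp m1 i e).symm
        obtain ⟨j, hj⟩ := card_pos.mp (by omega : 0 < #(D \ J))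
        obtain ⟨j1, j2⟩ := mem_sdiff.mp hj
        refine ⟨j, hj, fun e => ?_⟩
        by_cases k : w1 j = e
        · exact ⟨w1, m1, k, fun y _ _ h2 => ⟨h2, fun h => h2 (Sub_trans (Sub_symm k0) h)⟩⟩
        · refine ⟨fl w1 j, fl_mem_Sub j1 m1, by
            rw [fl_apply_self]; exact (z2_eq (Ne.symm k)).symm, fun y _ h1 _ => ?_⟩
          have : w1 ∉ Sub J y := fun h => k ((mem_Sub.mp h j j2).trans h1)
          exact ⟨this, fun h => this (Sub_trans (Sub_symm k0) h)⟩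
    obtain ⟨j1, j2⟩ := mem_sdiff.mp hj
    have c := erase_card hj
    obtain ⟨i1, k1, i2, k2, k3⟩ := one_lt_card.mp (by omega : 1 < #(D.erase j \ J))
    obtain ⟨v0, p1, p2, p3⟩ := sp (b j)
    obtain ⟨v1, p4, p5, p6⟩ := sp (b j + 1)
    obtain ⟨y, y1, y2, y3⟩ := three (b := b) k1 k2 k3 v0 (fl v1 j)
    obtain ⟨y4, y5⟩ := (mem_Sub_erase (self_mem_Sub D b) j1).mp y1
    have y6 := fl_mem_Sub j1 y4
    have y7 : fl y j j = b j + 1 := by rw [fl_apply_self, y5]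
    have y8 : v1 ∉ Sub J (fl y j) := fun h => y3 (mem_Sub.mpr fun i hi => by
      by_cases e : i = j
      · rw [e, fl_apply_self, mem_Sub.mp h j j2, ← fl_apply_self, fl_fl]
      · rw [fl_apply_ne _ e, mem_Sub.mp h i hi, fl_apply_ne _ e])
    refine stepL hF j1 j2 hJ y4 (L' _ y4 (p3 y y4 y5 y2).1 (p3 y y4 y5 y2).2)
      (L' _ y6 (p6 _ y6 y7 y8).1 (p6 _ y6 y7 y8).2) (by
      have : 2 * t + 0 + 1 ≤ 3 + (t + 1) ^ 2 + 3 := by nlinarith
      have := Nat.pow_le_pow_left this 2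
      have : 3 + (t + 1) ^ 2 + 3 ≤ (3 + (t + 1) ^ 2 + 3) ^ 2 := Nat.le_self_pow two_ne_zero _
      omega) fun H' hH L0 L1 => ⟨?_, ?_⟩
    · refine ih _ _ _ v0 y (sub_erase hJ j2) (by omega)
        ((mem_Sub_erase y4 j1).mpr ⟨p1, p2.trans y5.symm⟩) (self_mem_Sub _ _)
        (fun z hz => after_all hH L0 L1 (L z (side_in y4 hz))) fun z hz h1 h2 => ?_
      obtain ⟨z1, z2⟩ := (mem_Sub_erase y4 j1).mp hz
      refine after_link hH (fun h => h2 (Sub_symm h)) (fun h => ?_)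
        (L' z z1 (p3 z z1 (z2.trans y5) h1).1 (p3 z z1 (z2.trans y5) h1).2)
      exact z2_ne _ (y7.symm.trans ((mem_Sub.mp h j j2).symm.trans (z2.trans y5)))
    · refine ih _ _ _ v1 (fl y j) (sub_erase hJ j2) (by omega)
        ((mem_Sub_erase y6 j1).mpr ⟨p4, p5.trans y7.symm⟩) (self_mem_Sub _ _)
        (fun z hz => after_all hH L0 L1 (L z (side_in y6 hz))) fun z hz h1 h2 => ?_
      obtain ⟨z1, z2⟩ := (mem_Sub_erase y6 j1).mp hz
      refine after_link hH (fun h => ?_) (fun h => h2 (Sub_symm h))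
        (L' z z1 (p6 z z1 (z2.trans y7) h1).1 (p6 z z1 (z2.trans y7) h1).2)
      exact z2_ne _ ((z2.trans y7).symm.trans ((mem_Sub.mp h j j2).trans y5))

end Pool.Agent.Lib.MP_88ff4d_co.NP
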