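import Pool.Agent.Lib.MP_88ff4d_co.NP.LB0
import Pool.Agent.Lib.MP_88ff4d_co.NP.Top

/-! Locally nearly perfect matchings: the one unbalanced hole travels to its subcube. -/

set_option autoImplicit false

namespace Pool.Agent.Lib.MP_88ff4d_co.NP

open Finset

variable {n : ℕ} {D J : Finset (Fin n)} {b : V n} {H T : Finset (V n)} {t : ℕ} {π : ZMod 2}

/-- points of `A` in the subcube through `y` -/
def cnt (J : Finset (Fin n)) (y : V n) (A : Finset (V n)) : ℕ := #((Sub J y).filter (· ∈ A))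

theorem cnt_in {y z : V n} (h : z ∈ Sub J y) : cnt J y {z} = 1 := by
  rw [cnt, card_eq_one]
  exact ⟨z, by ext w; simp only [mem_filter, mem_singleton]; exact ⟨fun h => h.2, fun e => ⟨e ▸ h, e⟩⟩⟩

theorem cnt_out {y z : V n} (h : z ∉ Sub J y) : cnt J y {z} = 0 := by
  rw [cnt, card_eq_zero, filter_eq_empty_iff]
  exact fun w hw e => h (mem_singleton.mp e ▸ hw)

theorem cnt_congr {y : V n} {A A' : Finset (V n)} (h : ∀ z ∈ Sub J y, z ∈ A ↔ z ∈ A') :
    cnt J y A = cnt J y A' := congrArg card (filter_congr h)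

theorem cnt_insert {y z : V n} {A : Finset (V n)} (h : z ∉ A) :
    cnt J y (insert z A) = cnt J y A + cnt J y {z} := by
  have d : Disjoint ((Sub J y).filter (· ∈ A)) ((Sub J y).filter (· ∈ ({z} : Finset (V n)))) :=
    disjoint_left.mpr fun w h1 h2 =>
      h (mem_singleton.mp (mem_filter.mp h2).2 ▸ (mem_filter.mp h1).2)
  rw [cnt, cnt, cnt, ← card_union_of_disjoint d, ← filter_or]
  exact congrArg card (filter_congr fun w _ => by simp [or_comm])

theorem cnt_same {y z w : V n} (h : z ∈ Sub J w) : cnt J y {z} = cnt J y {w} := by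
  by_cases c : w ∈ Sub J y
  · rw [cnt_in c, cnt_in (Sub_trans h c)]
  · rw [cnt_out c, cnt_out fun h' => c (Sub_trans (Sub_symm h) h')]

theorem cnt_ins {g : Fin n} (hg : g ∉ J) (y : V n) (A : Finset (V n)) :
    cnt (insert g J) y A = cnt J y A + cnt J (fl y g) A := by
  rw [cnt, cnt, cnt, ← card_union_of_disjoint (disjoint_left.mpr fun w h1 h2 =>
    not_mem_mirror hg (mem_filter.mp h1).1 (mem_filter.mp h2).1), ← filter_union]
  congr 2
  ext z
  have s := self_mem_Sub (insert g J) y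
  have e := erase_insert hg
  have k0 := mem_Sub_erase (z := z) s (mem_insert_self g J)
  have k1 := mem_Sub_erase (z := z) (fl_mem_Sub (mem_insert_self g J) s) (mem_insert_self g J)
  rw [e] at k0 k1
  rw [mem_union, k0, k1, fl_apply_self]
  refine ⟨fun h => ?_, fun h => h.elim (·.1) (·.1)⟩
  by_cases c : z g = y g
  · exact Or.inl ⟨h, c⟩
  · exact Or.inr ⟨h, z2_eq c⟩

theorem ok_plain {y : V n} (i0 : Fin n) (hp : ∀ z ∈ Sub J y, z ∈ H ∨ z ∈ T → par z = π)
    (hd : ∀ z ∈ Sub J y, z ∈ H → z ∉ T) :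
    Ok J y H T ⟨(Sub J y).filter (· ∈ H), (Sub J y).filter (· ∈ T), ∅, fun _ => i0, fun _ => i0⟩ ∧
      Par π (⟨(Sub J y).filter (· ∈ H), (Sub J y).filter (· ∈ T), ∅, fun _ => i0, fun _ => i0⟩ :
        Cf n) := by
  have k : ∀ z ∈ (⟨(Sub J y).filter (· ∈ H), (Sub J y).filter (· ∈ T), ∅, fun _ => i0,
      fun _ => i0⟩ : Cf n).B, z ∈ Sub J y ∧ par z = π := by
    intro z hz
    rcases mem_B.mp hz with h | h | h
    · exact ⟨(mem_filter.mp h).1, hp z (mem_filter.mp h).1 (Or.inl (mem_filter.mp h).2)⟩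
    · exact ⟨(mem_filter.mp h).1, hp z (mem_filter.mp h).1 (Or.inr (mem_filter.mp h).2)⟩
    · simp at h
  refine ⟨⟨fun z hz => (k z hz).1, fun z hz => by simp [hz], fun z hz => by simp [hz],
    by simp [Cf.Sg], fun y hy => absurd hy (notMem_empty y), disjoint_left.mpr fun z h1 h2 =>
      hd z (mem_filter.mp h1).1 (mem_filter.mp h1).2 (mem_filter.mp h2).2, disjoint_empty_right _,
    disjoint_empty_right _, fun p hp q hq hpq => ?_⟩, fun z hz => (k z (mem_union_left _ hz)).2⟩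
  refine (Topx.two_le_df hpq ((k p hp).2.trans (k q hq).2.symm)).trans (card_le_card fun i hi => ?_)
  refine mem_df.mpr ⟨mem_sdiff.mpr ⟨?_, by simp [Cf.Sg]⟩, (mem_df.mp hi).2⟩
  by_contra h
  exact (mem_df.mp hi).2 ((mem_Sub.mp (k p hp).1 i h).trans (mem_Sub.mp (k q hq).1 i h).symm)

theorem lc_plain {y : V n} (i0 : Fin n) (hp : ∀ z ∈ Sub J y, z ∈ H ∨ z ∈ T → par z = π)
    (hd : ∀ z ∈ Sub J y, z ∈ H → z ∉ T) (e : cnt J y H = cnt J y T) (ht : cnt J y T ≤ t) :
    LC J t π T H 0 y :=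
  ⟨_, (ok_plain i0 hp hd).1, (ok_plain i0 hp hd).2, e, ht, le_rfl⟩

theorem lb_plain (hT : TMSt) (hF : FarSt)
    (hd : 50 * (3 + (t + 1) ^ 2 + 3) ^ 2 + 100 + 5 * (3 + (t + 1) ^ 2 + 3) + t ≤ #J) (hJ : J ⊆ D)
    (hp : ∀ z ∈ Sub D b, z ∈ H ∨ z ∈ T → par z = π) (hq : ∀ z ∈ Sub D b, z ∈ H → z ∉ T)
    (e : ∀ y ∈ Sub D b, cnt J y H = cnt J y T) (ht : ∀ y ∈ Sub D b, cnt J y T ≤ t) :
    ER (Po D b H T) := by
  obtain ⟨i0, -⟩ := card_pos.mp (by omega : 0 < #J)
  have L : ∀ y ∈ Sub D b, LC J t π T H 0 y := fun y hy => lc_plain i0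
    (fun z hz => hp z (Sub_sub hJ hy hz)) (fun z hz => hq z (Sub_sub hJ hy hz)) (e y hy) (ht y hy)
  exact lb_big hT hF hd _ D b H b b hJ rfl (self_mem_Sub _ _) (self_mem_Sub _ _)
    (fun y hy => (L y hy).mono (by omega)) fun y hy _ _ => L y hy

theorem lb_move (hT : TMSt) (hF : FarSt)
    (hd : 50 * (3 + (2 * t + 1) ^ 2 + 3) ^ 2 + 100 + 5 * (3 + (2 * t + 1) ^ 2 + 3) + 2 * t ≤ #J)
    (ω : V n) (r : ℕ) : ∀ (D : Finset (Fin n)) (b x : V n) (H : Finset (V n)), J ⊆ D →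
      #(df (D \ J) x ω) = r → x ∈ Sub D b → ω ∈ Sub D b →
      (∀ z ∈ Sub D b, z ∈ H ∨ z ∈ T → par z = π) → (∀ z ∈ Sub D b, z ∈ H → z ∉ T) →
      (∀ y ∈ Sub D b, cnt J y H + cnt J y {ω} = cnt J y T + cnt J y {x}) →
      (∀ y ∈ Sub D b, cnt J y T ≤ t) → Rob (Po D b H T) := by
  induction r using Nat.strong_induction_on with
  | _ r ih =>
  intro D b x0 H hJ hr m0 mω hp hq e ht
  have same : ∀ J', J ⊆ J' → df (D \ J) x0 ω ⊆ J' → x0 ∈ Sub J' ω := fun J' h1 h2 =>
    mem_Sub.mpr fun i hi => by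
      by_cases c : i ∈ D
      · by_contra hh
        exact hi (h2 (mem_df.mpr ⟨mem_sdiff.mpr ⟨c, fun h => hi (h1 h)⟩, hh⟩))
      · exact (mem_Sub.mp m0 i c).trans (mem_Sub.mp mω i c).symm
  rcases Nat.lt_trichotomy r 1 with c | c | c
  · have k := same J subset_rfl (by rw [card_eq_zero.mp (by omega : #(df (D \ J) x0 ω) = 0)]; simp)
    refine (lb_plain hT hF hd hJ hp hq (fun y hy => ?_) fun y hy => (ht y hy).trans (by omega)).2
    have := e y hy
    rw [cnt_same k] at this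
    omega
  · obtain ⟨g, hg⟩ := card_eq_one.mp (hr.trans c)
    obtain ⟨g1, g2⟩ := mem_sdiff.mp (mem_df.mp (hg ▸ mem_singleton_self g)).1
    have k := same (insert g J) (subset_insert _ _) (by rw [hg]; simp)
    refine (lb_plain (J := insert g J) hT hF (hd.trans (card_le_card (subset_insert _ _)))
      (insert_subset g1 hJ) hp hq (fun y hy => ?_) fun y hy => ?_).2
    · have a1 := e y hy
      have a2 := e _ (fl_mem_Sub g1 hy)
      have a3 := cnt_same (y := y) k
      rw [cnt_ins g2, cnt_ins g2] at a3 ⊢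
      omega
    · have a1 := ht y hy
      have a2 := ht _ (fl_mem_Sub g1 hy)
      rw [cnt_ins g2]
      omega
  obtain ⟨j1, k1, j2, k2, k3⟩ := one_lt_card.mp (hr ▸ c)
  have out : ∀ j ∈ df (D \ J) x0 ω, ω ∉ Sub J x0 := fun j hj h =>
    (mem_df.mp hj).2 (mem_Sub.mp h j (mem_sdiff.mp (mem_df.mp hj).1).2).symm
  have e0 := e x0 m0
  rw [cnt_out (out j1 k1), cnt_in (self_mem_Sub _ _)] at e0
  obtain ⟨x, hx⟩ := card_pos.mp (show 0 < cnt J x0 H by omega)
  obtain ⟨x1, x2⟩ := mem_filter.mp hx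
  have xD := Sub_sub hJ m0 x1
  intro P hP hS
  have sq : (2 * t + 1) ^ 2 ≤ (3 + (2 * t + 1) ^ 2 + 3) ^ 2 :=
    le_trans (by omega) (Nat.le_self_pow two_ne_zero _)
  have sq' : 2 * t + 1 ≤ (2 * t + 1) ^ 2 := Nat.le_self_pow two_ne_zero _
  obtain ⟨j, hj, big⟩ : ∃ j ∈ df (D \ J) x0 ω,
      2 * (2 * t + 1) ^ 2 + (2 * t + 1) + 6 ≤ #(gd J P x j) := by
    have := gd_cover (D := J) (P := P) x k3
    by_contra hh
    push Not at hh
    have := hh j1 k1
    have := hh j2 k2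
    omega
  obtain ⟨j3, j4⟩ := mem_df.mp hj
  obtain ⟨jD, jJ⟩ := mem_sdiff.mp j3
  have xj : x j = x0 j := mem_Sub.mp x1 j jJ
  have near : ∀ y ∈ Sub (D.erase j) x, y ∈ Sub D b ∧ y j = x j ∧ cnt J y {ω} = 0 := fun y hy => by
    obtain ⟨a1, a2⟩ := (mem_Sub_erase xD jD).mp hy
    exact ⟨a1, a2, cnt_out fun h => j4 (xj.symm.trans (a2.symm.trans (mem_Sub.mp h j jJ).symm))⟩
  have hJ' := sub_erase hJ jJ
  have ev := (lb_plain (D := D.erase j) (b := x) (H := H.erase x) hT hF hd hJ'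
    (fun z hz h => hp z (near z hz).1 (h.imp_left mem_of_mem_erase))
    (fun z hz h => hq z (near z hz).1 (mem_of_mem_erase h)) (fun y hy => by
      have a1 := e y (near y hy).1
      have a2 := cnt_insert (J := J) (y := y) (notMem_erase x H)
      rw [insert_erase x2, cnt_same x1] at a2
      have := (near y hy).2.2
      omega) fun y hy => (ht y (near y hy).1).trans (by omega)).1
  obtain ⟨p, p1, -, p2⟩ := cross_of_odd jD xD hP (by
    have m0 : (x, false) ∈ Po (D.erase j) x (H.erase x) T :=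
      mem_Po_f.mpr ⟨self_mem_Sub _ _, notMem_erase _ _⟩
    have e : Po (D.erase j) x H T = (Po (D.erase j) x (H.erase x) T).erase (x, false) := by
      ext ⟨z, _ | _⟩
      · simp only [mem_erase, mem_Po_f, ne_eq, Prod.mk.injEq, and_true]
        exact ⟨fun h => ⟨fun e => h.2 (e ▸ x2), h.1, fun k => h.2 k.2⟩,
          fun h => ⟨h.2.1, fun k => h.2.2 ⟨h.1, k⟩⟩⟩
      · simp [mem_Po_t]
    have := card_erase_add_one m0
    rw [e]
    simp only [Nat.even_iff] at ev ⊢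
    omega)
  have F1 : ({p, P p} : Finset (V n × Bool)) ⊆ Po D b H T :=
    insert_subset p1 (singleton_subset_iff.mpr (hP p p1).1)
  have F2 : Cl {p, P p} P := by
    intro z hz
    rcases mem_insert.mp hz with rfl | hz
    · simp
    · rw [mem_singleton.mp hz, (hP p p1).2.2]; simp
  obtain ⟨O0, pa⟩ := ok_plain (J := J) (y := x) j (fun z hz => hp z (Sub_sub hJ xD hz))
    fun z hz => hq z (Sub_sub hJ xD hz)
  have ex := e x xD
  rw [(near x (self_mem_Sub _ _)).2.2, cnt_in (Sub_symm x1)] at ex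
  have tx := ht x xD
  have xD' := fl_mem_Sub jD xD
  have hne : x j ≠ fl x j j := by rw [fl_apply_self]; exact (z2_ne _).symm
  have far : ∀ y ∈ Sub (D.erase j) (fl x j), y ∈ Sub D b ∧ y j ≠ x j ∧ cnt J y {x0} = 0 :=
    fun y hy => by
      obtain ⟨a1, a2⟩ := (mem_Sub_erase xD' jD).mp hy
      have a3 : y j ≠ x j := fun h => hne (h.symm.trans a2)
      exact ⟨a1, a3, cnt_out fun h => a3 ((mem_Sub.mp h j jJ).symm.trans xj.symm)⟩
  have xX : x ∈ (Sub J x).filter (· ∈ H) := mem_filter.mpr ⟨self_mem_Sub _ _, x2⟩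
  obtain ⟨l, m, H', P', l1, O1, n1, n2, hH, R⟩ := moveL (N := 2 * t + 1) jD jJ hJ hP hS xD O0 xX rfl
    (card_B_le.trans (by change cnt J x H + cnt J x T + 0 ≤ _; omega)) (by
      have a1 := e _ xD'
      have a2 := ht _ xD'
      rw [(far _ (self_mem_Sub _ _)).2.2] at a1
      rw [filter_or]
      refine (card_union_le _ _).trans ?_
      change cnt J (fl x j) H + cnt J (fl x j) T ≤ _
      omega) F1 F2 card_le_two big (by omega)
  set x' := fl (fl x j) l with hx'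
  have lj : j ≠ l := fun e => jJ (e ▸ l1)
  have x'j : x' j = fl x j j := fl_apply_ne _ lj
  have L0 : ∀ y ∈ Sub (D.erase j) x, x ∉ Sub J y → LC J (2 * t) π T H' 0 y := fun y hy h => by
    obtain ⟨a1, a2, a3⟩ := near y hy
    have a4 := e y a1
    rw [a3, cnt_out fun h' => h (Sub_trans x1 h')] at a4
    refine (lc_plain j (fun z hz => hp z (Sub_sub hJ a1 hz)) (fun z hz => hq z (Sub_sub hJ a1 hz))
      a4 ((ht y a1).trans (by omega))).congr fun z hz => ?_
    rw [hH z fun h' => h (Sub_trans (Sub_symm h') hz)]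
    exact ⟨fun k => k.resolve_left fun e => hne
      (a2.symm.trans ((mem_Sub.mp hz j jJ).symm.trans (e ▸ x'j))), Or.inr⟩
  have E0 : ER (Po (D.erase j) x H' T) := lb_big hT hF hd _ _ x H' x x hJ' rfl (self_mem_Sub _ _)
    (self_mem_Sub _ _) (fun y hy => by
      by_cases h : x ∈ Sub J y
      · refine LC.rebase ⟨_, O1, fun z hz => pa z (mem_union.mpr ((mem_union.mp hz).imp_left
          mem_of_mem_erase)), ?_, ?_, by simp [Cf.toSq]⟩ (Sub_symm h)
        · have := card_erase_add_one xX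
          change #(((Sub J x).filter (· ∈ H)).erase x) = cnt J x T
          change _ = cnt J x H at this
          omega
        · change cnt J x T ≤ _
          omega
      · exact (L0 y hy h).mono (by omega)) fun y hy h _ => L0 y hy h
  have hH' : ∀ z ∈ Sub (D.erase j) (fl x j), z ∈ H' ↔ z ∈ insert x' H := fun z hz => by
    rw [hH z fun h => (far z hz).2.1 (mem_Sub.mp h j jJ), mem_insert]
  have E1 : Rob (Po (D.erase j) (fl x j) H' T) := by
    refine ih (r - 1) (by omega) _ _ x' H' hJ' ?_ (fl_mem_Sub (hJ' l1) (self_mem_Sub _ _))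
      ((mem_Sub_erase xD' jD).mpr ⟨mω, by
        rw [fl_apply_self, xj]; exact z2_eq (Ne.symm j4)⟩) (fun z hz h => ?_) (fun z hz h => ?_)
      (fun y hy => ?_) fun y hy => ht y (far y hy).1
    · rw [← hr, ← card_erase_of_mem hj]
      congr 1
      ext i
      simp only [mem_df, mem_sdiff, mem_erase]
      have k : i ≠ j → i ∉ J → x' i = x0 i := fun a1 a2 => by
        rw [hx', fl_apply_ne _ fun e : i = l => a2 (e ▸ l1), fl_apply_ne _ a1, mem_Sub.mp x1 i a2]
      exact ⟨fun h => ⟨h.1.1.1, ⟨h.1.1.2, h.1.2⟩, k h.1.1.1 h.1.2 ▸ h.2⟩,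
        fun h => ⟨⟨⟨h.1, h.2.1.1⟩, h.2.1.2⟩, (k h.1 h.2.1.2).symm ▸ h.2.2⟩⟩
    · rw [hH' z hz, mem_insert, or_assoc] at h
      rcases h with h | h
      · rw [h, hx', par_fl, par_fl, add_assoc, hp x xD (Or.inl x2)]
        simp [CharTwo.add_self_eq_zero]
      · exact hp z (far z hz).1 h
    · rcases mem_insert.mp ((hH' z hz).mp h) with h | h
      · exact h ▸ n2
      · exact hq z (far z hz).1 h
    · have a1 := e y (far y hy).1
      rw [(far y hy).2.2] at a1
      rw [cnt_congr fun z hz => hH' z (Sub_sub hJ' hy hz), cnt_insert n1]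
      omega
  exact R.2.2.2.2 (split jD xD xD' hne R.1 R.2.1 E0.1
    ⟨p, R.2.2.2.1 (mem_insert_self _ _), by rw [R.eq p (mem_insert_self _ _)]; exact p2⟩ E0.2 E1)

end Pool.Agent.Lib.MP_88ff4d_co.NP
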