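import Pool.Agent.Lib.MP_88ff4d_co.NP.Link

/-! Locally nearly perfect matchings: the operations inside a small subcube of a large cube. -/

set_option autoImplicit false

namespace Pool.Agent.Lib.MP_88ff4d_co.NP

open Finset

variable {n : ℕ} {D J : Finset (Fin n)} {b : V n} {H T : Finset (V n)}
  {P : V n × Bool → V n × Bool}

theorem Sub_sub (hJ : J ⊆ D) {y : V n} (hy : y ∈ Sub D b) : Sub J y ⊆ Sub D b := fun _ hz =>
  mem_Sub.mpr fun i hi => (mem_Sub.mp hz i fun h => hi (hJ h)).trans (mem_Sub.mp hy i hi)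

theorem not_mem_mirror {j : Fin n} (hj : j ∉ J) {a z : V n} (hz : z ∈ Sub J a) :
    z ∉ Sub J (fl a j) := fun h => by
  have e := (mem_Sub.mp hz j hj).symm.trans (mem_Sub.mp h j hj)
  rw [fl_apply_self] at e
  exact z2_ne _ e.symm

theorem Ok.rebase {c : Cf n} {y y' : V n} (h : Ok J y H T c) (e : y' ∈ Sub J y) : Ok J y' H T c := by
  have e' := Sub_eq_of_mem e
  exact ⟨e' ▸ h.sub, e' ▸ h.hH, e' ▸ h.hT, h.sg, h.lm, h.dXU, h.dXY, h.dUY, h.sep⟩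

theorem closeSqL {b0 : V n} (hsub : Sub J b0 ⊆ Sub D b) (hP : Inv (Po D b H T) P)
    (hS : SP (Po D b H T) P) {H0 : Finset (V n)} {c : Cf n} (O : Ok J b0 H0 T c)
    {Z : Finset (Fin n)} (hZ : Z ⊆ J \ c.Sg)
    (hs : ∀ p ∈ c.B, ∀ q ∈ c.B, p ≠ q → 2 ≤ #(df Z p q)) {x : V n} (hx : x ∈ c.X) {l : Fin n}
    (hl : l ∈ J \ c.Sg) (hlZ : l ∉ Z)
    (hH : ∀ z ∈ Sub J b0, z ∈ H ↔ z = fl x l ∨ z ∈ H0) {F : Finset (V n × Bool)}
    (hF : F ⊆ Po D b H T) (hc : Cl F P)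
    (big : #Z + #c.Sg + 2 * #F < #(gd J P x l)) :
    ∃ m H' P', Ok J b0 H' T (c.toSq x l m) ∧
      (∀ z ∉ Sub J b0, (z ∈ H' ↔ z ∈ H)) ∧ Red D b T H P H' P' F 4 := by
  obtain ⟨m, hm, hb⟩ := exists_avoid (A := gd J P x l) (Bd := Z ∪ c.Sg ∪
      (univ.filter fun g => (fl x g, false) ∈ F) ∪ univ.filter fun g => (fl (fl x l) g, false) ∈ F)
    (lt_of_le_of_lt (card_un (card_un (card_un le_rfl le_rfl) (card_hit F x)) (card_hit F (fl x l)))
      (by omega))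
  simp only [mem_union, mem_filter, mem_univ, true_and, not_or] at hb
  obtain ⟨⟨⟨b1, b2⟩, b4⟩, b5⟩ := hb
  obtain ⟨m1, m2, m3⟩ := mem_filter.mp hm
  have hxS : x ∈ Sub J b0 := O.sub (mem_B.mpr (Or.inl hx))
  have l1 := (mem_sdiff.mp hl).1
  have u1 : fl x m ∈ Sub J b0 := fl_mem_Sub m1 hxS
  have w1 : fl (fl x m) l ∈ Sub J b0 := fl_mem_Sub l1 u1
  have u2 := O.near hZ hs hx u1 (fl_ne x m) fun i hi => fl_apply_ne x fun e => b1 (e ▸ hi)
  have w2 := O.near hZ hs hx w1 (fl_fl_ne x m2) fun i hi => by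
    rw [fl_apply_ne _ fun e : i = l => hlZ (e ▸ hi), fl_apply_ne x fun e : i = m => b1 (e ▸ hi)]
  obtain ⟨P', R⟩ := edgeR hP hS (hsub u1) (hsub w1)
    ⟨fun h => ((hH _ u1).mp h).elim (fun e => m2 (fl_inj x e)) u2.1, u2.2⟩
    ⟨fun h => ((hH _ w1).mp h).elim (fun e => fl_ne x m (fl_left_inj l e)) w2.1, w2.2⟩
    (adj_fl _ _) m3 hF hc b4 (by rwa [fl_comm])
  refine ⟨m, _, P', O.toSq hZ hs hx hl (mem_sdiff.mpr ⟨m1, b2⟩) m2.symm hlZ b1 fun z hz => ?_,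
    fun z hz => ?_, R⟩
  · simp only [mem_insert, hH z hz]
    tauto
  · simp only [mem_insert]
    exact ⟨fun h => h.elim (fun e => absurd (e ▸ u1) hz) fun h => h.elim
      (fun e => absurd (e ▸ w1) hz) id, fun h => Or.inr (Or.inr h)⟩

/-- a hole crosses an outer direction -/
theorem moveL {j : Fin n} (hj : j ∈ D) (hjJ : j ∉ J) (hJ : J ⊆ D) (hP : Inv (Po D b H T) P)
    (hS : SP (Po D b H T) P) {x : V n} (hxD : x ∈ Sub D b) {c0 : Cf n} (O0 : Ok J x H T c0)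
    (hx : x ∈ c0.X) (hY : c0.Y = ∅) {N : ℕ} (n0 : #c0.B ≤ N)
    (n1 : #((Sub J (fl x j)).filter fun z => z ∈ H ∨ z ∈ T) ≤ N) {F : Finset (V n × Bool)}
    (hF : F ⊆ Po D b H T) (hc : Cl F P) (hF2 : #F ≤ 2)
    (big : 2 * N ^ 2 + N + 6 ≤ #(gd J P x j)) (hd : 4 * N ^ 2 + 22 ≤ #J) :
    ∃ l m H' P', l ∈ J ∧ Ok J x H' T (c0.toSq x l m) ∧ fl (fl x j) l ∉ H ∧ fl (fl x j) l ∉ T ∧
      (∀ z ∉ Sub J x, z ∈ H' ↔ z = fl (fl x j) l ∨ z ∈ H) ∧ Red D b T H P H' P' F 8 := by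
  obtain ⟨Z, z1, z2, z3⟩ := O0.prot
  have s0 : c0.Sg = ∅ := by simp [Cf.Sg, hY]
  have z4 : #Z ≤ 2 * N ^ 2 := z2.trans (Nat.mul_le_mul_left _ (Nat.pow_le_pow_left n0 2))
  obtain ⟨l, hl, hb⟩ := exists_avoid (A := gd J P x j) (Bd := Z ∪
      (univ.filter fun g => fl (fl x j) g ∈ (Sub J (fl x j)).filter fun z => z ∈ H ∨ z ∈ T) ∪
      bk J P x ∪ (univ.filter fun g => (fl x g, false) ∈ F) ∪
      univ.filter fun g => (fl (fl x j) g, false) ∈ F)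
    (lt_of_le_of_lt (card_un (card_un (card_un (card_un z4 ((card_hitV _ _).trans n1)) (bk_le _))
      ((card_hit F x).trans hF2)) ((card_hit F (fl x j)).trans hF2)) (by omega))
  simp only [mem_union, mem_filter, mem_univ, true_and, not_or, bk, not_lt, not_and] at hb
  obtain ⟨⟨⟨⟨b1, b4⟩, b5⟩, b6⟩, b7⟩ := hb
  obtain ⟨l1, l2, l3⟩ := mem_filter.mp hl
  have e2 : fl (fl x j) l ∈ Sub J (fl x j) := fl_mem_Sub l1 (self_mem_Sub _ _)
  replace b4 := b4 e2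
  have a1 : fl x l ∈ Sub J x := fl_mem_Sub l1 (self_mem_Sub _ _)
  have a2 := Sub_sub hJ hxD a1
  have a4 := O0.near z1 z3 hx a1 (fl_ne x l) fun i hi => fl_apply_ne x fun e => b1 (e ▸ hi)
  rw [fl_comm x l j] at l3
  obtain ⟨P1, R1⟩ := edgeR hP hS a2 (fl_mem_Sub (hJ l1) (fl_mem_Sub hj hxD)) a4 b4
    (by rw [fl_comm x j l]; exact adj_fl _ _) l3 hF hc b6 b7
  have g1 := R1.gd_le J x l
  obtain ⟨m, H', P', k1, k2, R2⟩ := closeSqL (Sub_sub hJ hxD) R1.1 R1.2.1 O0 z1 z3 hx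
    (mem_sdiff.mpr ⟨l1, by simp [s0]⟩) b1 (fun z hz => by
      simp only [mem_insert]
      exact ⟨fun h => h.elim Or.inl fun h => h.elim
        (fun e => absurd (e ▸ e2) (not_mem_mirror hjJ hz)) Or.inr,
        fun h => h.elim Or.inl fun h => Or.inr (Or.inr h)⟩) R1.2.2.2.1 (R1.cl hc)
    (by rw [s0, card_empty]; omega)
  refine ⟨l, m, H', P', l1, k1, b4.1, b4.2, fun z hz => ?_, R1.trans R2⟩
  rw [k2 z hz]
  simp only [mem_insert]
  exact ⟨fun h => h.elim (fun e => absurd (e ▸ a1) hz) id, Or.inr⟩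

/-- two real edges across an uncrossed outer direction -/
theorem linkL {j : Fin n} (hj : j ∈ D) (hjJ : j ∉ J) (hJ : J ⊆ D) (hP : Inv (Po D b H T) P)
    (hS : SP (Po D b H T) P) {a : V n} (a1 : a ∈ Sub D b) {c0 c1 : Cf n} (O0 : Ok J a H T c0)
    (O1 : Ok J (fl a j) H T c1) (nc : ∀ p ∈ Po D b H T, (P p).1 j = p.1 j)
    (f0 : ∀ q ∈ c0.B, 2 ≤ #(df (J \ c0.Sg) a q))
    (f1 : ∀ q ∈ c1.B, 2 ≤ #(df (J \ c1.Sg) (fl a j) q)) {N : ℕ} (n0 : #c0.B + 1 ≤ N)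
    (n1 : #c1.B + 1 ≤ N) (hd : 4 * N ^ 2 + 4 * N + 50 ≤ #J) :
    ∃ l m m' H' P', a ∉ c0.B ∧ fl a j ∉ c1.B ∧ Ok J a H' T ((c0.addX a).toSq a l m) ∧
      Ok J (fl a j) H' T ((c1.addX (fl a j)).toSq (fl a j) l m') ∧
      (∀ z ∉ Sub J a, z ∉ Sub J (fl a j) → (z ∈ H' ↔ z ∈ H)) ∧
      Inv (Po D b H' T) P' ∧ SP (Po D b H' T) P' ∧ (∃ p ∈ Po D b H' T, (P' p).1 j ≠ p.1 j) ∧
      (Good adp (Po D b H' T) P' → Good adp (Po D b H T) P) := by
  have ha := self_mem_Sub J a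
  have e2 := self_mem_Sub J (fl a j)
  have e3 := fl_mem_Sub hj a1
  have hne : fl a j j ≠ a j := by rw [fl_apply_self]; exact z2_ne _
  obtain ⟨g0, g1⟩ := O0.normal2 ha fun q hq => one_le_two.trans (f0 q hq)
  obtain ⟨g2, g3⟩ := O1.normal2 e2 fun q hq => one_le_two.trans (f1 q hq)
  obtain ⟨P1, R1⟩ := edgeR hP hS a1 e3 g1 g3 (adj_fl _ _) (fun e => by
    have := nc _ (mem_Po_f.mpr ⟨a1, g1.1⟩)
    rw [e] at this
    exact hne this) (F := ∅) (empty_subset _) (fun _ h => by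
      simp at h) (notMem_empty _) (notMem_empty _)
  set H1 := insert a (insert (fl a j) H) with hH1
  have mir : ∀ z ∈ Sub J (fl a j), z ∉ Sub J a := fun z hz h => not_mem_mirror hjJ h hz
  have A0 : Ok J a H1 T (c0.addX a) := O0.addX ha f0 fun z hz => by
    simp only [hH1, mem_insert]
    exact ⟨fun h => h.elim Or.inl fun h => h.elim
      (fun e => absurd (e ▸ e2) (not_mem_mirror hjJ hz)) Or.inr,
      fun h => h.elim Or.inl fun h => Or.inr (Or.inr h)⟩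
  have A1 : Ok J (fl a j) H1 T (c1.addX (fl a j)) := O1.addX e2 f1 fun z hz => by
    simp only [hH1, mem_insert]
    exact ⟨fun h => h.elim (fun e => absurd (e ▸ ha) (mir z hz)) id, Or.inr⟩
  obtain ⟨p, p1, -, p2⟩ := cross_of_odd hj a1 R1.1 (by
    have ev : Even #(Po (D.erase j) a H T) := by
      by_contra hh
      obtain ⟨p, c1, -, c2⟩ := cross_of_odd hj a1 hP hh
      exact c2 (nc p c1)
    have m0 : (a, false) ∈ Po (D.erase j) a H T := mem_Po_f.mpr ⟨self_mem_Sub _ _, g1.1⟩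
    have e : Po (D.erase j) a H1 T = (Po (D.erase j) a H T).erase (a, false) := by
      rw [hH1, Po_insert2]
      ext p
      simp only [mem_sdiff, mem_insert, mem_singleton, not_or, mem_erase]
      refine ⟨fun h => ⟨h.2.1, h.1⟩, fun h => ⟨h.2, h.1, fun e => ?_⟩⟩
      have := ((mem_side a1 hj).mp h.2).2
      rw [e] at this
      exact hne this
    have := card_erase_add_one m0
    rw [e]
    simp only [Nat.even_iff] at ev ⊢
    omega)
  have F1 : ({p, P1 p} : Finset (V n × Bool)) ⊆ Po D b H1 T :=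
    insert_subset p1 (singleton_subset_iff.mpr (R1.1 p p1).1)
  have F2 : Cl {p, P1 p} P1 := by
    intro z hz
    rcases mem_insert.mp hz with rfl | hz
    · simp
    · rw [mem_singleton.mp hz, (R1.1 p p1).2.2]; simp
  have F3 : #({p, P1 p} : Finset (V n × Bool)) ≤ 2 := card_le_two
  obtain ⟨Z0, z1, z2, z3⟩ := A0.prot
  obtain ⟨Z1, w1, w2, w3⟩ := A1.prot
  have z4 : #Z0 ≤ 2 * N ^ 2 := z2.trans (Nat.mul_le_mul_left _ (Nat.pow_le_pow_left (by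
    rw [addX_B]; exact (card_insert_le _ _).trans n0) 2))
  have w4 : #Z1 ≤ 2 * N ^ 2 := w2.trans (Nat.mul_le_mul_left _ (Nat.pow_le_pow_left (by
    rw [addX_B]; exact (card_insert_le _ _).trans n1) 2))
  have y0 : #c0.Y ≤ #c0.B := card_le_card subset_union_right
  have y1 : #c1.Y ≤ #c1.B := card_le_card subset_union_right
  have s0 := card_Sg_le (c := c0)
  have s1 := card_Sg_le (c := c1)
  obtain ⟨K, k1, k2, -⟩ := R1.2.2.1
  obtain ⟨l, hl, hb⟩ := exists_avoid (A := J) (Bd := Z0 ∪ Z1 ∪ c0.Sg ∪ c1.Sg ∪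
      bk J P1 a ∪ bk J P1 (fl a j) ∪
      (univ.filter fun g => (fl a g, false) ∈ ({p, P1 p} : Finset _)) ∪
      (univ.filter fun g => (fl (fl a j) g, false) ∈ ({p, P1 p} : Finset _)) ∪
      univ.filter fun g => (fl a g, false) ∈ K)
    (lt_of_le_of_lt (card_un (card_un (card_un (card_un (card_un (card_un (card_un
      (card_un z4 w4) s0) s1) (bk_le _)) (bk_le _)) ((card_hit _ _).trans F3))
      ((card_hit _ _).trans F3)) ((card_hit _ _).trans k1)) (by omega))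
  simp only [mem_union, mem_filter, mem_univ, true_and, not_or, bk, not_lt] at hb
  obtain ⟨⟨⟨⟨⟨⟨⟨⟨b1', b2⟩, b3⟩, b4⟩, b6⟩, b7⟩, b8⟩, b9⟩, b10⟩ := hb
  have lj : j ≠ l := fun e => hjJ (e ▸ hl)
  have u1 : fl a l ∈ Sub J a := fl_mem_Sub hl ha
  have v1 : fl (fl a j) l ∈ Sub J (fl a j) := fl_mem_Sub hl e2
  have u2 := Sub_sub hJ a1 u1
  have v2 := Sub_sub hJ e3 v1
  have u4 := A0.near z1 z3 (mem_insert_self _ _) u1 (fl_ne a l)
    fun i hi => fl_apply_ne a fun e => b1' (e ▸ hi)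
  have v4 := A1.near w1 w3 (mem_insert_self _ _) v1 (fl_ne _ l)
    fun i hi => fl_apply_ne _ fun e => b2 (e ▸ hi)
  obtain ⟨P2, R2⟩ := edgeR R1.1 R1.2.1 u2 v2 u4 v4 (by rw [fl_comm a j l]; exact adj_fl _ _)
    (fun e => by
      have := nc _ (mem_Po_f.mpr ⟨u2, fun h => u4.1 (mem_insert_of_mem (mem_insert_of_mem h))⟩)
      rw [← k2 _ b10, e] at this
      exact hne ((fl_apply_ne _ lj).symm.trans (this.trans (fl_apply_ne _ lj)))) F1 F2 b8 b9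
  have t1 := R2.gd_le J a l
  obtain ⟨m, H3, P3, m2, m3, R3⟩ := closeSqL (Sub_sub hJ a1) R2.1 R2.2.1 A0 z1 z3
    (mem_insert_self _ _) (mem_sdiff.mpr ⟨hl, b3⟩) b1' (fun z hz => by
      rw [mem_insert, mem_insert]
      exact ⟨fun h => h.elim Or.inl fun h => h.elim
        (fun e => absurd (e ▸ v1) (not_mem_mirror hjJ hz)) Or.inr,
        fun h => h.elim Or.inl fun h => Or.inr (Or.inr h)⟩) R2.2.2.2.1 (R2.cl F2)
    (by change #Z0 + #c0.Sg + _ < _; omega)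
  have R23 := R2.trans R3
  have t2 := R23.gd_le J (fl a j) l
  obtain ⟨m', H4, P4, q2, q3, R4⟩ := closeSqL (Sub_sub hJ e3) R3.1 R3.2.1 A1 w1 w3
    (mem_insert_self _ _) (mem_sdiff.mpr ⟨hl, b4⟩) b2 (fun z hz => by
      rw [m3 z (mir z hz), mem_insert, mem_insert]
      exact ⟨fun h => h.elim (fun e => absurd (e ▸ u1) (mir z hz)) id, Or.inr⟩)
    R3.2.2.2.1 (R23.cl F2) (by change #Z1 + #c1.Sg + _ < _; omega)
  have R24 := R23.trans R4
  refine ⟨l, m, m', H4, P4, g0, g2, m2.congrH fun z hz => q3 z (not_mem_mirror hjJ hz), q2,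
    fun z h0 h1 => ?_, R4.1, R4.2.1, ⟨p, R4.2.2.2.1 (mem_insert_self _ _), ?_⟩,
    fun h => R1.2.2.2.2 (R24.2.2.2.2 h)⟩
  · rw [q3 z h1, m3 z h0]
    simp only [hH1, mem_insert]
    refine ⟨fun h => ?_, fun h => Or.inr (Or.inr (Or.inr (Or.inr h)))⟩
    rcases h with e | e | e | e | e
    · exact absurd (e ▸ u1) h0
    · exact absurd (e ▸ v1) h1
    · exact absurd (e ▸ ha) h0
    · exact absurd (e ▸ e2) h1
    · exact e
  · rw [R24.eq p (mem_insert_self _ _)]; exact p2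

end Pool.Agent.Lib.MP_88ff4d_co.NP
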