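import Pool.Agent.Lib.MP_88ff4d_co.NP.St2

/-! Nearly perfect matchings: linking two closed halves, cutting a square. -/

set_option autoImplicit false

namespace Pool.Agent.Lib.MP_88ff4d_co.NP

open Finset

theorem addX_B {n : ℕ} (c : Cf n) (x : V n) : (c.addX x).B = insert x c.B := by
  ext z
  simp only [mem_B, Cf.addX, mem_insert]
  tauto

theorem card_un {α : Type*} [DecidableEq α] {A B : Finset α} {a b : ℕ} (h : #A ≤ a)
    (h' : #B ≤ b) : #(A ∪ B) ≤ a + b := (card_union_le _ _).trans (Nat.add_le_add h h')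

theorem link_st : LinkSt := by
  intro n N D b b0 b1 a H T P j c0 c1 W hj h0 h1 hne hP hS O0 O1 hev nc ha f0 f1 n0 n1 hW hd
  obtain ⟨a1, a2⟩ := (mem_Sub_erase h0 hj).mp ha
  have e1 : fl a j j = b1 j := by
    rw [fl_apply_self, a2]
    exact z2_two hne (z2_ne _)
  have e2 : fl a j ∈ Sub (D.erase j) b1 := (mem_Sub_erase h1 hj).mpr ⟨fl_mem_Sub hj a1, e1⟩
  obtain ⟨g0, g1⟩ := O0.normal2 ha fun q hq => one_le_two.trans (f0 q hq)
  obtain ⟨g2, g3⟩ := O1.normal2 e2 fun q hq => one_le_two.trans (f1 q hq)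
  obtain ⟨P1, R1⟩ := edgeR hP hS a1 (fl_mem_Sub hj a1) g1 g3 (adj_fl _ _) (fun e => by
    have := nc _ (mem_Po_f.mpr ⟨a1, g1.1⟩)
    rw [e] at this
    exact hne (a2.symm.trans (this.symm.trans e1))) (F := ∅) (empty_subset _) (fun _ h => by
      simp at h) (notMem_empty _) (notMem_empty _)
  set H1 := insert a (insert (fl a j) H) with hH1
  have A0 : Ok (D.erase j) b0 H1 T (c0.addX a) := O0.addX ha f0 fun z hz => by
    simp only [hH1, mem_insert]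
    refine ⟨fun h => h.elim Or.inl fun h => h.elim (fun e => absurd ?_ hne) Or.inr,
      fun h => h.elim Or.inl fun h => Or.inr (Or.inr h)⟩
    rw [← e1, ← e, ((mem_Sub_erase h0 hj).mp hz).2]
  have A1 : Ok (D.erase j) b1 H1 T (c1.addX (fl a j)) := O1.addX e2 f1 fun z hz => by
    simp only [hH1, mem_insert]
    exact ⟨fun h => h.elim (fun e => absurd
      (by rw [← a2, ← e, ((mem_Sub_erase h1 hj).mp hz).2]) hne) id, Or.inr⟩
  have cd := card_erase_of_mem hj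
  obtain ⟨p, p1, -, p2⟩ := cross_of_odd hj h0 R1.1 (by
    rw [A0.even_iff (by omega)]
    rw [O0.even_iff (by omega)] at hev
    simp only [Cf.addX]
    rw [card_insert_of_notMem fun h => g0 (mem_B.mpr (Or.inl h))]
    simp only [Nat.even_iff] at hev ⊢
    omega)
  have F1 : ({p, P1 p} : Finset (V n × Bool)) ⊆ Po D b H1 T :=
    insert_subset p1 (singleton_subset_iff.mpr (R1.1 p p1).1)
  have F2 : Cl {p, P1 p} P1 := by
    intro z hz
    rcases mem_insert.mp hz with rfl | hz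
    · simp
    · rw [mem_singleton.mp hz, (R1.1 p p1).2.2]; simp
  have F3 : #({p, P1 p} : Finset (V n × Bool)) ≤ 2 := card_le_two
  obtain ⟨Z0, z1, z2, z3⟩ := A0.prot
  obtain ⟨Z1, w1, w2, w3⟩ := A1.prot
  have z4 : #Z0 ≤ 2 * N ^ 2 := z2.trans (Nat.mul_le_mul_left _ (Nat.pow_le_pow_left (by
    rw [addX_B]; exact (card_insert_le _ _).trans n0) 2))
  have w4 : #Z1 ≤ 2 * N ^ 2 := w2.trans (Nat.mul_le_mul_left _ (Nat.pow_le_pow_left (by
    rw [addX_B]; exact (card_insert_le _ _).trans n1) 2))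
  have y0 : #c0.Y ≤ #c0.B := card_le_card subset_union_right
  have y1 : #c1.Y ≤ #c1.B := card_le_card subset_union_right
  have s0 := card_Sg_le (c := c0)
  have s1 := card_Sg_le (c := c1)
  obtain ⟨K, k1, k2, -⟩ := R1.2.2.1
  obtain ⟨l, hl, hb⟩ := exists_avoid (A := D.erase j) (Bd := Z0 ∪ Z1 ∪ c0.Sg ∪ c1.Sg ∪ W ∪
      bk (D.erase j) P1 a ∪ bk (D.erase j) P1 (fl a j) ∪
      (univ.filter fun g => (fl a g, false) ∈ ({p, P1 p} : Finset _)) ∪
      (univ.filter fun g => (fl (fl a j) g, false) ∈ ({p, P1 p} : Finset _)) ∪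
      univ.filter fun g => (fl a g, false) ∈ K)
    (lt_of_le_of_lt (card_un (card_un (card_un (card_un (card_un (card_un (card_un (card_un
      (card_un z4 w4) s0) s1) hW) (bk_le _)) (bk_le _)) ((card_hit _ _).trans F3))
      ((card_hit _ _).trans F3)) ((card_hit _ _).trans k1)) (by omega))
  simp only [mem_union, mem_filter, mem_univ, true_and, not_or, bk, not_lt] at hb
  obtain ⟨⟨⟨⟨⟨⟨⟨⟨⟨b1', b2⟩, b3⟩, b4⟩, b5⟩, b6⟩, b7⟩, b8⟩, b9⟩, b10⟩ := hb
  have lj := (mem_erase.mp hl).1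
  have u1 : fl a l ∈ Sub (D.erase j) b0 := fl_mem_Sub hl ha
  have v1 : fl (fl a j) l ∈ Sub (D.erase j) b1 := fl_mem_Sub hl e2
  obtain ⟨u2, u3⟩ := (mem_Sub_erase h0 hj).mp u1
  obtain ⟨v2, v3⟩ := (mem_Sub_erase h1 hj).mp v1
  have u4 := A0.near z1 z3 (mem_insert_self _ _) u1 (fl_ne a l)
    fun i hi => fl_apply_ne a fun e => b1' (e ▸ hi)
  have v4 := A1.near w1 w3 (mem_insert_self _ _) v1 (fl_ne _ l)
    fun i hi => fl_apply_ne _ fun e => b2 (e ▸ hi)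
  obtain ⟨P2, R2⟩ := edgeR R1.1 R1.2.1 u2 v2 u4 v4 (by rw [fl_comm a j l]; exact adj_fl _ _)
    (fun e => by
      have := nc _ (mem_Po_f.mpr ⟨u2, fun h => u4.1 (mem_insert_of_mem (mem_insert_of_mem h))⟩)
      rw [← k2 _ b10, e] at this
      exact hne (u3.symm.trans (this.symm.trans v3))) F1 F2 b8 b9
  have t1 := R2.gd_le (D.erase j) a l
  obtain ⟨m, H3, P3, m1, m2, m3, R3⟩ := closeSq hj h0 R2.1 R2.2.1 A0 z1 z3 (mem_insert_self _ _)
    (mem_sdiff.mpr ⟨hl, b3⟩) b1' (fun z hz => by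
      rw [mem_insert, mem_insert]
      refine ⟨fun h => h.elim Or.inl fun h => h.elim (fun e => absurd ?_ hne) Or.inr,
        fun h => h.elim Or.inl fun h => Or.inr (Or.inr h)⟩
      rw [← v3, ← e, ((mem_Sub_erase h0 hj).mp hz).2]) R2.2.2.2.1 (R2.cl F2) W
    (by change #Z0 + #c0.Sg + _ + _ < _; omega)
  have R23 := R2.trans R3
  have t2 := R23.gd_le (D.erase j) (fl a j) l
  obtain ⟨m', H4, P4, q1, q2, q3, R4⟩ := closeSq hj h1 R3.1 R3.2.1 A1 w1 w3 (mem_insert_self _ _)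
    (mem_sdiff.mpr ⟨hl, b4⟩) b2 (fun z hz => by
      have c := ((mem_Sub_erase h1 hj).mp hz).2
      rw [m3 z (by rw [c]; exact hne.symm), mem_insert, mem_insert]
      exact ⟨fun h => h.elim (fun e => absurd (by rw [← u3, ← e, c]) hne) id, Or.inr⟩)
    R3.2.2.2.1 (R23.cl F2) W (by change #Z1 + #c1.Sg + _ + _ < _; omega)
  have R24 := R23.trans R4
  refine ⟨l, m, m', H4, P4, b5, m1, q1, g0, g2, m2.congrH fun z hz => q3 z ?_, q2, R4.1, R4.2.1,
    ⟨p, R4.2.2.2.1 (mem_insert_self _ _), ?_⟩, fun h => R1.2.2.2.2 (R24.2.2.2.2 h)⟩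
  · rw [((mem_Sub_erase h0 hj).mp hz).2]; exact hne
  · rw [R24.eq p (mem_insert_self _ _)]; exact p2

variable {n : ℕ} {D : Finset (Fin n)} {b : V n} {H T : Finset (V n)}
  {P : V n × Bool → V n × Bool}

/-- the half of a configuration of squares after cutting the square at `y` -/
def Cf.half (c : Cf n) (y z : V n) (α : Fin n) : Cf n :=
  ⟨{z}, ∅, (c.Y.erase y).filter (· α = z α), c.l, c.m⟩

theorem unsq {c : Cf n} (O : Ok D b H T c) (hX : c.X = ∅) (hU : c.U = ∅) {y z : V n}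
    (hy : y ∈ c.Y) {α β : Fin n} (hab : (α = c.l y ∧ β = c.m y) ∨ (α = c.m y ∧ β = c.l y))
    (hz : z ∈ Sub {α, β} y) {Z : Finset (Fin n)} (z1 : Z ⊆ D \ c.Sg)
    (z3 : ∀ p ∈ c.B, ∀ q ∈ c.B, p ≠ q → 2 ≤ #(df Z p q)) :
    z ∈ Sub D b ∧ α ∈ D ∧ Ok (D.erase α) z (H.erase (fl z β)) T (c.half y z α) ∧
      Z ⊆ D.erase α \ (c.half y z α).Sg ∧
      (∀ p ∈ (c.half y z α).B, ∀ q ∈ (c.half y z α).B, p ≠ q → 2 ≤ #(df Z p q)) ∧
      β ∈ D.erase α \ (c.half y z α).Sg ∧ β ∉ Z ∧ fl z β ∈ H := by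
  have sY : ∀ w ∈ c.Y, w ∈ c.B := fun w hw => mem_B.mpr (Or.inr (Or.inr hw))
  have lm := (O.lm y hy y hy).1
  have eS : Sub {c.l y, c.m y} y = Sub {α, β} y := by
    rcases hab with ⟨rfl, rfl⟩ | ⟨rfl, rfl⟩
    · rfl
    · rw [pair_comm]
  have ab : α ≠ β := by rcases hab with ⟨rfl, rfl⟩ | ⟨rfl, rfl⟩; exacts [lm, lm.symm]
  have aS : α ∈ c.Sg := mem_Sg.mpr ⟨y, hy, by tauto⟩
  have bS : β ∈ c.Sg := mem_Sg.mpr ⟨y, hy, by tauto⟩
  have oth : ∀ w ∈ c.Y, w ≠ y → c.l w ≠ α ∧ c.m w ≠ α ∧ c.l w ≠ β ∧ c.m w ≠ β := by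
    intro w hw hne
    have k1 := O.lm w hw y hy
    have k2 := (O.lm y hy w hw).1
    rcases hab with ⟨rfl, rfl⟩ | ⟨rfl, rfl⟩
    · exact ⟨(k1.2 hne).1, k2.symm, k1.1, (k1.2 hne).2⟩
    · exact ⟨k1.1, (k1.2 hne).2, (k1.2 hne).1, k2.symm⟩
  have zy : ∀ i ∉ c.Sg, z i = y i := fun i hi => sq_agree hy (eS ▸ hz) hi
  have zS : z ∈ Sub D b := mem_Sub.mpr fun i hi =>
    (zy i fun h => hi (O.sg h)).trans (mem_Sub.mp (O.sub (sY y hy)) i hi)
  have aD := O.sg aS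
  have mY : ∀ w, w ∈ (c.half y z α).Y ↔ (w ≠ y ∧ w ∈ c.Y) ∧ w α = z α := fun w => by
    simp [Cf.half]
  have mB : ∀ w, w ∈ (c.half y z α).B ↔ w = z ∨ (w ≠ y ∧ w ∈ c.Y) ∧ w α = z α := fun w => by
    simp [mem_B, Cf.half]
  have sg : ∀ i ∈ (c.half y z α).Sg, i ∈ c.Sg ∧ i ≠ α ∧ i ≠ β := by
    intro i hi
    obtain ⟨w, k1, k2⟩ := mem_Sg.mp hi
    obtain ⟨⟨k3, k4⟩, -⟩ := (mY w).mp k1
    have := oth w k4 k3
    refine ⟨mem_Sg.mpr ⟨w, k4, k2⟩, ?_⟩
    rcases k2 with rfl | rfl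
    · exact ⟨this.1, this.2.2.1⟩
    · exact ⟨this.2.1, this.2.2.2⟩
  have zZ : ∀ i ∈ Z, z i = y i := fun i hi => zy i (mem_sdiff.mp (z1 hi)).2
  have Z1 : Z ⊆ D.erase α \ (c.half y z α).Sg := fun i hi => by
    obtain ⟨k1, k2⟩ := mem_sdiff.mp (z1 hi)
    exact mem_sdiff.mpr ⟨mem_erase.mpr ⟨fun e => k2 (e ▸ aS), k1⟩, fun h => k2 (sg i h).1⟩
  have Z3 : ∀ p ∈ (c.half y z α).B, ∀ q ∈ (c.half y z α).B, p ≠ q → 2 ≤ #(df Z p q) := by
    intro p hp q hq hne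
    rcases (mB p).mp hp with rfl | k1 <;> rcases (mB q).mp hq with rfl | k2
    · exact absurd rfl hne
    · rw [df_congr zZ]
      exact z3 y (sY y hy) q (sY q k2.1.2) k2.1.1.symm
    · rw [df_comm, df_congr zZ]
      exact z3 y (sY y hy) p (sY p k1.1.2) k1.1.1.symm
    · exact z3 p (sY p k1.1.2) q (sY q k2.1.2) hne
  have dis : ∀ w ∈ c.Y, w ≠ y → ∀ t ∈ Sub {c.l w, c.m w} w, t ∉ Sub {α, β} y := by
    intro w hw hne t k1 k2
    obtain ⟨i, hi⟩ := card_pos.mp (lt_of_lt_of_le two_pos (z3 w (sY w hw) y (sY y hy) hne))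
    have k3 := (mem_sdiff.mp (z1 (mem_df.mp hi).1)).2
    exact (mem_df.mp hi).2 ((sq_agree hw k1 k3).symm.trans (sq_agree hy (eS ▸ k2) k3))
  have fb : fl z β ∈ Sub {α, β} y := fl_mem_Sub (by simp) hz
  refine ⟨zS, aD, ?_, Z1, Z3, mem_sdiff.mpr ⟨mem_erase.mpr ⟨ab.symm, O.sg bS⟩,
    fun h => (sg β h).2.2 rfl⟩, fun h => (mem_sdiff.mp (z1 h)).2 bS,
    (O.hH _ (fl_mem_Sub (O.sg bS) zS)).mpr (Or.inr ⟨y, hy, eS ▸ fb⟩)⟩
  exact {
    sub := fun w hw => by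
      rcases (mB w).mp hw with rfl | k
      · exact self_mem_Sub _ _
      · exact (mem_Sub_erase zS aD).mpr ⟨O.sub (sY w k.1.2), k.2⟩
    hH := fun t ht => by
      obtain ⟨t1, t2⟩ := (mem_Sub_erase zS aD).mp ht
      rw [mem_erase, O.hH t t1, hX]
      simp only [notMem_empty, false_or]
      constructor
      · rintro ⟨k1, w, k2, k3⟩
        by_cases e : w = y
        · subst e
          rw [eS, ← Sub_eq_of_mem hz, mem_sq ab] at k3
          rcases k3 with k3 | k3 | k3 | k3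
          · exact Or.inl (mem_singleton.mpr k3)
          · rw [k3, fl_apply_self] at t2
            exact absurd t2 (z2_ne _)
          · exact absurd k3 k1
          · rw [k3, fl_apply_self, fl_apply_ne _ ab] at t2
            exact absurd t2 (z2_ne _)
        · refine Or.inr ⟨w, (mY w).mpr ⟨⟨e, k2⟩, ?_⟩, k3⟩
          have := oth w k2 e
          rw [← t2]
          exact (mem_Sub.mp k3 α (by simp [this.1.symm, this.2.1.symm])).symm
      · rintro (k | ⟨w, k1, k2⟩)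
        · rw [mem_singleton.mp k]
          exact ⟨(fl_ne z β).symm, y, hy, eS ▸ hz⟩
        · obtain ⟨⟨k3, k4⟩, -⟩ := (mY w).mp k1
          exact ⟨fun e => dis w k4 k3 t k2 (e ▸ fb), w, k4, k2⟩
    hT := fun t ht => by
      rw [O.hT t ((mem_Sub_erase zS aD).mp ht).1, hU]
      rfl
    sg := fun i hi => mem_erase.mpr ⟨(sg i hi).2.1, O.sg (sg i hi).1⟩
    lm := fun w hw w' hw' => O.lm w ((mY w).mp hw).1.2 w' ((mY w').mp hw').1.2
    dXU := disjoint_empty_right _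
    dXY := disjoint_singleton_left.mpr fun h =>
      dis z ((mY z).mp h).1.2 ((mY z).mp h).1.1 z (self_mem_Sub _ _) hz
    dUY := disjoint_empty_left _
    sep := fun p hp q hq hne => (Z3 p hp q hq hne).trans (df_mono Z1 p q) }

theorem cut {c : Cf n} (O : Ok D b H T c) (hX : c.X = ∅) (hU : c.U = ∅) {y z : V n}
    (hy : y ∈ c.Y) {α β : Fin n} (hab : (α = c.l y ∧ β = c.m y) ∨ (α = c.m y ∧ β = c.l y))
    (hz : z ∈ Sub {α, β} y) (hP : Inv (Po D b H T) P) (hS : SP (Po D b H T) P) {N : ℕ}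
    (hN : #c.Y ≤ N) {F : Finset (V n × Bool)} (hF : F ⊆ Po D b H T) (hc : Cl F P) (hF4 : #F ≤ 4)
    (i : Fin n) (g0 : 2 * N ^ 2 + 2 * N + 14 ≤ #(gd (D.erase α) P z β))
    (g1 : 2 * N ^ 2 + 2 * N + 14 ≤ #(gd (D.erase α) P (fl z α) β)) :
    ∃ g g' H' P', g ≠ i ∧ g' ≠ i ∧ Ok (D.erase α) z H' T ((c.half y z α).toSq z β g) ∧
      Ok (D.erase α) (fl z α) H' T ((c.half y (fl z α) α).toSq (fl z α) β g') ∧
      Red D b T H P H' P' F 8 := by
  obtain ⟨Z, z1, z2, z3⟩ := O.prot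
  have z4 : #Z ≤ 2 * N ^ 2 := z2.trans (Nat.mul_le_mul_left _ (Nat.pow_le_pow_left (by
    have := card_B_le (c := c)
    rw [hX, hU, card_empty] at this
    omega) 2))
  have sg : ∀ w, #(c.half y w α).Sg ≤ 2 * N := fun w => card_Sg_le.trans
    (Nat.mul_le_mul_left _ ((card_le_card ((filter_subset _ _).trans (erase_subset _ _))).trans hN))
  obtain ⟨a1, a2, a3, a4, a5, a6, a7, a8⟩ := unsq O hX hU hy hab hz z1 z3
  obtain ⟨c1, -, c3, c4, c5, c6, -, c8⟩ := unsq O hX hU hy hab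
    (fl_mem_Sub (i := α) (by simp) hz) z1 z3
  have hne : fl z α α ≠ z α := by rw [fl_apply_self]; exact z2_ne _
  have s0 := sg z
  have s1 := sg (fl z α)
  obtain ⟨g, H1, P1, m1, m2, m3, R1⟩ := closeSq a2 a1 hP hS a3 a4 a5 (mem_singleton_self _) a6 a7
    (fun t _ => by
      rw [mem_erase]
      by_cases e : t = fl z β
      · simp [e, a8]
      · simp [e]) hF hc {i} (by rw [card_singleton]; omega)
  have t1 := R1.gd_le (D.erase α) (fl z α) β
  obtain ⟨g', H2, P2, q1, q2, q3, R2⟩ := closeSq a2 c1 R1.1 R1.2.1 c3 c4 c5 (mem_singleton_self _)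
    c6 a7 (fun t ht => by
      rw [m3 t (by rw [((mem_Sub_erase c1 a2).mp ht).2]; exact hne), mem_erase]
      by_cases e : t = fl (fl z α) β
      · simp [e, c8]
      · simp [e]) R1.2.2.2.1 (R1.cl hc) {i} (by rw [card_singleton]; omega)
  exact ⟨g, g', H2, P2, by simpa using m1, by simpa using q1, m2.congrH fun t ht => q3 t (by
    rw [((mem_Sub_erase a1 a2).mp ht).2]; exact hne.symm), q2, R1.trans R2⟩

end Pool.Agent.Lib.MP_88ff4d_co.NP
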