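import Pool.Agent.Lib.MP_88ff4d_co.NP.MXSt

/-! Both ends covered: distances, a move with an avoided set, conversion of targets. -/

set_option autoImplicit false

namespace Pool.Agent.Lib.MP_88ff4d_co.NP

open Finset

variable {n : ℕ} {D : Finset (Fin n)} {b : V n} {H T : Finset (V n)}
  {P : V n × Bool → V n × Bool}

theorem par_df {p q : V n} (hp : p ∈ Sub D b) (hq : q ∈ Sub D b) :
    par p + par q = (#(df D p q) : ZMod 2) := by
  rw [← par_add, par, df, card_filter]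
  push_cast
  rw [← sum_subset (subset_univ D)]
  · refine sum_congr rfl fun i _ => ?_
    show p i + q i = _
    generalize p i = a
    generalize q i = c
    revert a c
    decide
  · intro i _ hi
    show p i + q i = 0
    rw [mem_Sub.mp hp i hi, mem_Sub.mp hq i hi]
    exact CharTwo.add_self_eq_zero _

theorem df_pos {p q : V n} (hp : p ∈ Sub D b) (hq : q ∈ Sub D b) (h : p ≠ q) :
    1 ≤ #(df D p q) := by
  obtain ⟨i, hi⟩ := Function.ne_iff.mp h
  refine card_pos.mpr ⟨i, mem_df.mpr ⟨?_, hi⟩⟩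
  by_contra c
  exact hi ((mem_Sub.mp hp i c).trans (mem_Sub.mp hq i c).symm)

theorem df_two {p q : V n} (hp : p ∈ Sub D b) (hq : q ∈ Sub D b) (h : p ≠ q)
    (e : par p = par q) : 2 ≤ #(df D p q) := by
  have h1 := df_pos hp hq h
  have h2 := par_df hp hq
  by_contra c
  have : #(df D p q) = 1 := by omega
  rw [this, e, CharTwo.add_self_eq_zero] at h2
  exact absurd h2 (by decide)

theorem df_erase_le (A : Finset (Fin n)) (p q : V n) (j : Fin n) :
    #(df A p q) ≤ #(df (A.erase j) p q) + 1 := by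
  refine (card_le_card (t := insert j (df (A.erase j) p q)) fun i hi => ?_).trans
    (card_insert_le _ _)
  by_cases c : i = j
  · exact mem_insert.mpr (Or.inl c)
  · exact mem_insert_of_mem (mem_df.mpr ⟨mem_erase.mpr ⟨c, (mem_df.mp hi).1⟩, (mem_df.mp hi).2⟩)

theorem df_erase_eq (A : Finset (Fin n)) {p q : V n} {j : Fin n} (h : p j = q j) :
    #(df A p q) ≤ #(df (A.erase j) p q) :=
  card_le_card fun i hi => mem_df.mpr ⟨mem_erase.mpr
    ⟨fun c => (mem_df.mp hi).2 (by rw [c, h]), (mem_df.mp hi).1⟩, (mem_df.mp hi).2⟩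

theorem df_adj (A : Finset (Fin n)) (x : V n) {t z : V n} (h : adj t z) :
    #(df A x t) ≤ #(df A x z) + 1 := by
  obtain ⟨l, rfl⟩ := h
  refine (card_le_card (t := insert l (df A x (fl t l))) fun i hi => ?_).trans
    (card_insert_le _ _)
  by_cases c : i = l
  · exact mem_insert.mpr (Or.inl c)
  · exact mem_insert_of_mem (mem_df.mpr ⟨(mem_df.mp hi).1, by
      rw [fl_apply_ne t c]; exact (mem_df.mp hi).2⟩)

theorem df_self (A : Finset (Fin n)) (x : V n) : #(df A x x) = 0 := by simp [df]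

theorem df_fl3 {A : Finset (Fin n)} {x q : V n} {l : Fin n} (hl : l ∈ A) {d : ℕ} (hd : d ≤ 2)
    (h1 : d ≤ #(df A x q)) (h2 : #(df A x q) ≤ 3 → l ∉ df A x q) : d + 1 ≤ #(df A (fl x l) q) := by
  have k : (df A x q).erase l ⊆ df A (fl x l) q := fun i hi => by
    obtain ⟨c1, c2⟩ := mem_erase.mp hi
    exact mem_df.mpr ⟨(mem_df.mp c2).1, by rw [fl_apply_ne x c1]; exact (mem_df.mp c2).2⟩
  by_cases c : l ∈ df A x q
  · have := card_le_card k
    rw [card_erase_of_mem c] at this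
    by_contra hh
    exact h2 (by omega) c
  · have k2 : insert l (df A x q) ⊆ df A (fl x l) q := by
      rw [erase_eq_of_notMem c] at k
      refine insert_subset (mem_df.mpr ⟨hl, ?_⟩) k
      have e : x l = q l := by
        by_contra hh
        exact c (mem_df.mpr ⟨hl, hh⟩)
      rw [fl_apply_self, e]
      exact z2_ne _
    have := card_le_card k2
    rw [card_insert_of_notMem c] at this
    omega

/-- a hole crosses direction `j`, gains distance and leaves a square that avoids `W` -/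
theorem move' {j : Fin n} {b0 b1 : V n} (hj : j ∈ D) (h0 : b0 ∈ Sub D b) (h1 : b1 ∈ Sub D b)
    (hne : b0 j ≠ b1 j) (hP : Inv (Po D b H T) P) (hS : SP (Po D b H T) P) {c0 c1 : Cf n}
    (O0 : Ok (D.erase j) b0 H T c0) (O1 : Ok (D.erase j) b1 H T c1) {x : V n} (hx : x ∈ c0.X)
    (cr : ∀ q ∈ c1.B ∪ c0.X, q ≠ x → 1 ≤ #(df (D.erase j \ c1.Sg) x q)) {N : ℕ}
    (n0 : #c0.B ≤ N) (n1 : #c1.B ≤ N) {F : Finset (V n × Bool)} (hF : F ⊆ Po D b H T)
    (hc : Cl F P) (hF2 : #F ≤ 2) (W : Finset (Fin n)) (hW : #W ≤ 2 * N)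
    (big : 2 * N ^ 2 + 12 * N + 6 ≤ #(gd D P x j)) (hd : 4 * N ^ 2 + 8 * N + 22 ≤ #D) :
    ∃ x' l m H' P', l ∉ W ∧ m ∉ W ∧ Ok (D.erase j) b0 H' T (c0.toSq x l m) ∧
      Ok (D.erase j) b1 H' T (c1.addX x') ∧ x' ∉ c1.B ∧ par x' = par x ∧
      (∀ q ∈ c1.B ∪ c0.X, q ≠ x → 2 ≤ #(df (D.erase j \ c1.Sg) x q) →
        3 ≤ #(df (D.erase j \ c1.Sg) x' q)) ∧ Red D b T H P H' P' F 8 := by
  obtain ⟨Z, z1, z2, z3⟩ := O0.prot
  have y0 : #c0.Y ≤ N := (card_le_card subset_union_right).trans n0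
  have y1 : #c1.Y ≤ N := (card_le_card subset_union_right).trans n1
  have x0 : #c0.X ≤ N := (card_le_card (subset_union_left.trans subset_union_left)).trans n0
  have s0 := card_Sg_le (c := c0)
  have s1 := card_Sg_le (c := c1)
  have z4 : #Z ≤ 2 * N ^ 2 := z2.trans (Nat.mul_le_mul_left _ (Nat.pow_le_pow_left n0 2))
  set A := D.erase j \ c1.Sg with hA
  set Bd := (c1.B ∪ c0.X).biUnion fun q => if #(df A x q) ≤ 3 then df A x q else ∅ with hBd
  have d1 : #Bd ≤ #(c1.B ∪ c0.X) * 3 := card_biUnion_le_card_mul _ _ 3 fun q _ => by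
    split_ifs with c
    · exact c
    · simp
  have d2 := card_union_le c1.B c0.X
  have d3 : #(Bd ∪ W) ≤ #(c1.B ∪ c0.X) * 3 + #W :=
    (card_union_le _ _).trans (Nat.add_le_add_right d1 _)
  obtain ⟨l, hl, hb⟩ := exists_avoid (A := gd D P x j) (Bd := Z ∪ c0.Sg ∪ c1.Sg ∪ (Bd ∪ W) ∪
      bk (D.erase j) P x ∪ (univ.filter fun g => (fl x g, false) ∈ F) ∪
      univ.filter fun g => (fl (fl x j) g, false) ∈ F) (by
    have h1 := card_hit F x
    have h2 := card_hit F (fl x j)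
    have h3 := bk_le (D := D.erase j) (P := P) x
    refine lt_of_le_of_lt ((card_union_le _ _).trans (Nat.add_le_add ((card_union_le _ _).trans
      (Nat.add_le_add ((card_union_le _ _).trans (Nat.add_le_add ((card_union_le _ _).trans
      (Nat.add_le_add ((card_union_le _ _).trans (Nat.add_le_add_right (card_union_le _ _) _))
      d3)) h3)) h1)) h2)) (by omega))
  simp only [mem_union, mem_filter, mem_univ, true_and, not_or, bk, not_lt] at hb
  obtain ⟨⟨⟨⟨⟨⟨b1', b2⟩, b3⟩, b4, b8⟩, b5⟩, b6⟩, b7⟩ := hb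
  obtain ⟨l1, l2, l3⟩ := mem_filter.mp hl
  have l4 : l ∈ D.erase j := mem_erase.mpr ⟨l2, l1⟩
  have hxS : x ∈ Sub (D.erase j) b0 := O0.sub (mem_B.mpr (Or.inl hx))
  have a1 : fl x l ∈ Sub (D.erase j) b0 := fl_mem_Sub l4 hxS
  obtain ⟨a2, a3⟩ := (mem_Sub_erase h0 hj).mp a1
  have a4 := O0.near z1 z3 hx a1 (fl_ne x l) fun i hi => fl_apply_ne x fun e => b1' (e ▸ hi)
  have e1 : fl (fl x l) j j = b1 j := by
    rw [fl_apply_self, a3]
    exact z2_two hne (z2_ne _)
  have e2 : fl (fl x l) j ∈ Sub (D.erase j) b1 := (mem_Sub_erase h1 hj).mpr ⟨fl_mem_Sub hj a2, e1⟩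
  have far : ∀ q ∈ c1.B ∪ c0.X, ∀ d ≤ 2, d ≤ #(df A x q) → d + 1 ≤ #(df A (fl (fl x l) j) q) := by
    intro q hq d hd hqx
    rw [df_congr (p' := fl x l) fun i hi =>
      fl_apply_ne _ (mem_erase.mp (mem_sdiff.mp hi).1).1]
    refine df_fl3 (mem_sdiff.mpr ⟨l4, b3⟩) hd hqx fun c hh => b4 ?_
    exact mem_biUnion.mpr ⟨q, hq, by rw [if_pos c]; exact hh⟩
  have far1 : ∀ q ∈ c1.B, 2 ≤ #(df A (fl (fl x l) j) q) := fun q hq =>
    far q (mem_union_left _ hq) 1 one_le_two (cr q (mem_union_left _ hq) fun e =>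
      hne (((mem_Sub_erase h0 hj).mp hxS).2.symm.trans
      (e ▸ ((mem_Sub_erase h1 hj).mp (O1.sub hq)).2)))
  obtain ⟨f1, f2⟩ := O1.normal2 e2 fun q hq => one_le_two.trans (far1 q hq)
  obtain ⟨P1, R1⟩ := edgeR hP hS a2 (fl_mem_Sub hj a2) a4 f2 (adj_fl _ _) l3 hF hc b6
    (by rwa [fl_comm])
  have g1 := R1.gd_le (D.erase j) x l
  have g2 := card_erase_of_mem hj
  obtain ⟨m, H', P', k0, k1, k2, R2⟩ := closeSq hj h0 R1.1 R1.2.1 O0 z1 z3 hx
    (mem_sdiff.mpr ⟨l4, b2⟩) b1' (fun z hz => by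
      simp only [mem_insert]
      refine ⟨fun h => h.elim Or.inl fun h => h.elim (fun e => absurd ?_ hne) Or.inr,
        fun h => h.elim Or.inl fun h => Or.inr (Or.inr h)⟩
      rw [← e1, ← e, ((mem_Sub_erase h0 hj).mp hz).2]) R1.2.2.2.1 (R1.cl hc) W (by omega)
  refine ⟨_, l, m, H', P', b8, k0, k1, O1.addX e2 far1 fun z hz => ?_, f1, ?_,
    fun q hq _ h2 => far q hq 2 le_rfl h2, R1.trans R2⟩
  · have c := ((mem_Sub_erase h1 hj).mp hz).2
    rw [k2 z (by rw [c]; exact hne.symm)]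
    simp only [mem_insert]
    exact ⟨fun h => h.elim (fun e => absurd (by rw [← a3, ← e, c]) hne) id, Or.inr⟩
  · rw [par_fl, par_fl, add_assoc]
    simp [CharTwo.add_self_eq_zero]

/-- the second port of a target is joined to a neighbour -/
theorem conv1 (hP : Inv (Po D b H T) P) (hS : SP (Po D b H T) P) {t z : V n} (ht : t ∈ Sub D b)
    (htT : t ∈ T) (h : adj t z) (hz : z ∈ Sub D b) (hzH : z ∉ H) (hzT : z ∉ T) :
    ∃ P', Inv (Po D b (insert z H) (T.erase t)) P' ∧ SP (Po D b (insert z H) (T.erase t)) P' ∧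
      (∃ K : Finset (V n × Bool), #K ≤ 4 ∧ ∀ p ∉ K, P' p = P p) ∧
      (Good adp (Po D b (insert z H) (T.erase t)) P' → Good adp (Po D b H T) P) := by
  have ha : (t, true) ∈ Po D b H T := mem_Po_t.mpr ⟨ht, htT⟩
  have hb : (z, false) ∈ Po D b H T := mem_Po_f.mpr ⟨hz, hzH⟩
  have e0 := hS t ha
  obtain ⟨P', k1, k2, k3⟩ := edgeK (ad := adp) hP ha hb (by simp) h h.symm (by
    rw [e0]; exact fun e => h.ne (congrArg Prod.fst e).symm)
  have e : Po D b (insert z H) (T.erase t) = Po D b H T \ {(t, true), (z, false)} := by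
    ext ⟨y, c⟩
    cases c
    · simp only [mem_Po_f, mem_sdiff, mem_insert, mem_singleton, Prod.mk.injEq, and_true]
      tauto
    · simp only [mem_Po_t, mem_sdiff, mem_insert, mem_singleton, Prod.mk.injEq, and_true,
        mem_erase]
      tauto
  rw [← e] at k1 k3
  refine ⟨P', k1, fun v hv => ?_, ⟨{(t, true), (z, false), P (t, true), P (z, false)},
    card_le_four, fun p hp => ?_⟩, k3⟩
  · obtain ⟨c0, c1⟩ := mem_Po_t.mp hv
    obtain ⟨c2, c3⟩ := mem_erase.mp c1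
    have c4 := hS v (mem_Po_t.mpr ⟨c0, c3⟩)
    rw [k2 _ (by simpa using c2) (by simp) (by rw [e0]; simp) (fun hh => ?_), c4]
    rw [hh, (hP _ hb).2.2] at c4
    have e : z = v := congrArg Prod.fst c4
    exact hzT (e ▸ c3)
  · simp only [mem_insert, mem_singleton, not_or] at hp
    exact k2 p hp.1 hp.2.1 hp.2.2.1 hp.2.2.2

theorem convAll (hP : Inv (Po D b H T) P) (hS : SP (Po D b H T) P) (w : V n → V n)
    (C : Finset (V n)) : Set.InjOn w C →
    (∀ t ∈ C, t ∈ Sub D b ∧ t ∈ T ∧ adj t (w t) ∧ w t ∈ Sub D b ∧ w t ∉ H ∧ w t ∉ T) →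
    ∃ P', Inv (Po D b (H ∪ C.image w) (T \ C)) P' ∧ SP (Po D b (H ∪ C.image w) (T \ C)) P' ∧
      (∃ K : Finset (V n × Bool), #K ≤ 4 * #C ∧ ∀ p ∉ K, P' p = P p) ∧
      (Good adp (Po D b (H ∪ C.image w) (T \ C)) P' → Good adp (Po D b H T) P) := by
  induction C using Finset.induction_on with
  | empty =>
    intro _ _
    simp only [image_empty, union_empty, sdiff_empty]
    exact ⟨P, hP, hS, ⟨∅, by simp, fun _ _ => rfl⟩, id⟩
  | insert t C ht ih =>
    intro hi hC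
    obtain ⟨P1, k1, k2, ⟨K, k3, k4⟩, k5⟩ := ih (hi.mono (by simp))
      fun s hs => hC s (mem_insert_of_mem hs)
    obtain ⟨c1, c2, c3, c4, c5, c6⟩ := hC t (mem_insert_self _ _)
    obtain ⟨P2, m1, m2, ⟨K', m3, m4⟩, m5⟩ := conv1 k1 k2 c1 (mem_sdiff.mpr ⟨c2, ht⟩) c3 c4 (by
      rw [mem_union, mem_image]
      rintro (h | ⟨s, hs, e⟩)
      · exact c5 h
      · exact ht (hi (by simp [hs]) (by simp) e ▸ hs)) fun h => c6 (mem_sdiff.mp h).1
    have e1 : H ∪ (insert t C).image w = insert (w t) (H ∪ C.image w) := by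
      rw [image_insert, union_insert]
    have e2 : T \ insert t C = (T \ C).erase t := sdiff_insert _ _ _
    rw [e1, e2, card_insert_of_notMem ht]
    refine ⟨P2, m1, m2, ⟨K ∪ K', (card_union_le _ _).trans (by omega), fun p hp => ?_⟩,
      fun h => k5 (m5 h)⟩
    rw [mem_union, not_or] at hp
    rw [m4 p hp.2, k4 p hp.1]

end Pool.Agent.Lib.MP_88ff4d_co.NP
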