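import Pool.Agent.Lib.MP_88ff4d_co.NP.MX1

/-! Both ends covered: closing steps on the two sides of a direction. -/

set_option autoImplicit false

namespace Pool.Agent.Lib.MP_88ff4d_co.NP

open Finset

variable {n : ℕ} {D : Finset (Fin n)} {b b0 b1 : V n} {H T : Finset (V n)}
  {P : V n × Bool → V n × Bool} {j : Fin n} {c0 c1 : Cf n} {N t : ℕ}

/-- both sides are balanced, each with its own parity -/
theorem mxA (hF : FarSt) (hL : LinkSt) (hT : TMSt) {π0 π1 : ZMod 2} (hj : j ∈ D)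
    (h0 : b0 ∈ Sub D b) (h1 : b1 ∈ Sub D b) (hne : b0 j ≠ b1 j) (hP : Inv (Po D b H T) P)
    (hS : SP (Po D b H T) P) (O0 : Ok (D.erase j) b0 H T c0) (O1 : Ok (D.erase j) b1 H T c1)
    (p0 : Par π0 c0) (p1 : Par π1 c1) (e0 : #c0.X = #c0.U) (e1 : #c1.X = #c1.U) (u0 : #c0.U ≤ t)
    (u1 : #c1.U ≤ t) (y0 : #c0.Y + (t + 1) ^ 2 + 4 ≤ N) (y1 : #c1.Y + (t + 1) ^ 2 + 4 ≤ N)
    (hD : 50 * N ^ 2 + 100 + 5 * N + t + 1 ≤ #D) : Good adp (Po D b H T) P := by
  have g := card_erase_of_mem hj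
  have sq : (t + 1) ^ 2 = t ^ 2 + 2 * t + 1 := by ring
  have ev : Even #(Po (D.erase j) b0 H T) := (O0.even_iff (by omega)).mpr ⟨#c0.U, by rw [e0]⟩
  by_cases hx : ∃ p ∈ Po D b H T, (P p).1 j ≠ p.1 j
  · exact split hj h0 h1 hne hP hS ev hx
      (hT n N t _ _ _ _ _ _ O0 p0 e0 u0 (by omega) (by omega))
      (hT n N t _ _ _ _ _ _ O1 p1 e1 u1 (by omega) (by omega))
  push Not at hx
  have b0' := card_B_le (c := c0)
  have b1' := card_B_le (c := c1)
  have s0 := card_Sg_le (c := c0)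
  have s1 := card_Sg_le (c := c1)
  obtain ⟨a, a1, a2⟩ := hF n (c0.B ∪ c1.B) (fun _ => 2) (D.erase j \ (c0.Sg ∪ c1.Sg)) b0 (by
    rw [sum_const, smul_eq_mul]
    have k1 := card_union_le c0.B c1.B
    have k2 := card_union_le c0.Sg c1.Sg
    have k3 := le_card_sdiff (c0.Sg ∪ c1.Sg) (D.erase j)
    have k4 : N ≤ N ^ 2 := Nat.le_self_pow two_ne_zero N
    omega)
  have a3 : a ∈ Sub (D.erase j) b0 := mem_Sub.mpr fun i hi => a1 i fun hh => hi (mem_sdiff.mp hh).1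
  obtain ⟨l, m, m', H', P', -, -, -, n0, n1, K0, K1, k1, k2, k3, k4⟩ :=
    hL n N D b b0 b1 a H T P j c0 c1 ∅ hj h0 h1 hne hP hS O0 O1 ev hx a3
      (fun q hq => (a2 q (mem_union_left _ hq)).trans
        (df_mono (sdiff_subset_sdiff le_rfl subset_union_left) a q))
      (fun q hq => by
        rw [df_congr (p' := a) fun i hi => fl_apply_ne _ (mem_erase.mp (mem_sdiff.mp hi).1).1]
        exact (a2 q (mem_union_right _ hq)).trans
          (df_mono (sdiff_subset_sdiff le_rfl subset_union_right) a q))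
      (by omega) (by omega) (by simp) (by omega)
  have side : ∀ (π : ZMod 2) (c : Cf n) (z w : V n) (l m : Fin n), z ∉ c.B → Par π c →
      #c.X = #c.U → #c.U ≤ t → #c.Y + (t + 1) ^ 2 + 4 ≤ N →
      Ok (D.erase j) w H' T ((c.addX z).toSq z l m) →
      Even #(Po (D.erase j) w H' T) ∧ Rob (Po (D.erase j) w H' T) := by
    intro π c z w l m hz pc e u y K
    have x1 : ((c.addX z).toSq z l m).X = c.X :=
      erase_insert fun hh => hz (mem_B.mpr (Or.inl hh))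
    have x2 : ((c.addX z).toSq z l m).U = c.U := rfl
    have x3 : #((c.addX z).toSq z l m).Y ≤ #c.Y + 1 := card_insert_le _ _
    refine ⟨(K.even_iff (by omega)).mpr ⟨#c.U, by rw [x1, x2, e]⟩,
      hT n N t _ _ _ _ _ π K ?_ (by rw [x1, x2, e]) (by rw [x2]; exact u) (by omega) (by omega)⟩
    unfold Par
    rw [x1, x2]
    exact pc
  obtain ⟨r1, r2⟩ := side _ c0 a b0 l m n0 p0 e0 u0 y0 K0
  exact k4 (split hj h0 h1 hne k1 k2 r1 k3 r2 (side _ c1 _ b1 l m' n1 p1 e1 u1 y1 K1).2)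

theorem par_addX {π : ZMod 2} {c : Cf n} {x : V n} (h : Par π c) (hx : par x = π) :
    Par π (c.addX x) := by
  intro z hz
  rcases mem_union.mp hz with hz | hz
  · rcases mem_insert.mp hz with rfl | hz
    · exact hx
    · exact h z (mem_union_left _ hz)
  · exact h z (mem_union_right _ hz)

theorem toSq_B {c : Cf n} {x z : V n} {l m : Fin n} (hx : x ∈ c.X) (h : z ∈ (c.toSq x l m).B) :
    z ∈ c.B := by
  simp only [mem_B, Cf.toSq, mem_insert, mem_erase] at h ⊢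
  rcases h with k | k | rfl | k <;> tauto

/-- one hole is on the wrong side -/
theorem mxB (hF : FarSt) (hL : LinkSt) (hT : TMSt) {π0 : ZMod 2} (hj : j ∈ D)
    (h0 : b0 ∈ Sub D b) (h1 : b1 ∈ Sub D b) (hne : b0 j ≠ b1 j) (hP : Inv (Po D b H T) P)
    (hS : SP (Po D b H T) P) (O0 : Ok (D.erase j) b0 H T c0) (O1 : Ok (D.erase j) b1 H T c1)
    {x : V n} (hx : x ∈ c0.X) (p0 : ∀ z ∈ c0.X.erase x ∪ c0.U, par z = π0) (p1 : Par (par x) c1)
    (e0 : #c0.X = #c0.U + 1) (e1 : #c1.X + 1 = #c1.U) (u0 : #c0.U ≤ t) (u1 : #c1.U ≤ t)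
    (y0 : #c0.Y + (t + 1) ^ 2 + 5 ≤ N) (y1 : #c1.Y + (t + 1) ^ 2 + 4 ≤ N)
    (cr : ∀ q ∈ c1.B ∪ c0.X, q ≠ x → 1 ≤ #(df (D.erase j \ c1.Sg) x q))
    (big : 2 * N ^ 2 + 12 * N + 6 ≤ #(gd D P x j))
    (hD : 50 * N ^ 2 + 100 + 5 * N + t + 1 ≤ #D) : Good adp (Po D b H T) P := by
  have sq : (t + 1) ^ 2 = t ^ 2 + 2 * t + 1 := by ring
  have b0' := card_B_le (c := c0)
  have b1' := card_B_le (c := c1)
  have k4 : N ≤ N ^ 2 := Nat.le_self_pow two_ne_zero N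
  obtain ⟨x', l, m, H', P', -, -, K0, K1, n1, q1, -, R⟩ := move' (N := N) (F := ∅) hj h0 h1 hne
    hP hS O0 O1 hx cr (by omega) (by omega) (empty_subset _)
    (fun _ hh => absurd hh (notMem_empty _)) (by simp) ∅ (by simp) big (by omega)
  have x3 : #(c0.toSq x l m).Y ≤ #c0.Y + 1 := card_insert_le _ _
  have x8 := card_erase_add_one hx
  have x10 : #(insert x' c1.X) = #c1.X + 1 :=
    card_insert_of_notMem fun hh => n1 (mem_B.mpr (Or.inl hh))
  refine R.2.2.2.2 (mxA (N := N) (t := t) hF hL hT hj h0 h1 hne R.1 R.2.1 K0 K1 p0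
    (par_addX p1 q1) ?_ ?_ u0 u1 (by omega) y1 hD)
  · show #(c0.X.erase x) = #c0.U
    omega
  · show #(insert x' c1.X) = #c1.U
    omega

theorem Sg_empty {c : Cf n} (h : c.Y = ∅) : c.Sg = ∅ := by simp [Cf.Sg, h]

/-- two holes are on the wrong sides -/
theorem mxC (hF : FarSt) (hL : LinkSt) (hT : TMSt) (hj : j ∈ D)
    (h0 : b0 ∈ Sub D b) (h1 : b1 ∈ Sub D b) (hne : b0 j ≠ b1 j) (hP : Inv (Po D b H T) P)
    (hS : SP (Po D b H T) P) (O0 : Ok (D.erase j) b0 H T c0) (O1 : Ok (D.erase j) b1 H T c1)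
    {x y : V n} (hx : x ∈ c0.X) (hy : y ∈ c1.X) (p0 : ∀ z ∈ c0.X.erase x ∪ c0.U, par z = par y)
    (p1 : ∀ z ∈ c1.X.erase y ∪ c1.U, par z = par x) (e0 : #c0.X = #c0.U) (e1 : #c1.X = #c1.U)
    (u0 : #c0.U ≤ t) (u1 : #c1.U ≤ t) (y0 : c0.Y = ∅) (y1 : c1.Y = ∅) (hN : (t + 1) ^ 2 + 10 ≤ N)
    (crx : ∀ q ∈ c1.B ∪ c0.X, q ≠ x → 1 ≤ #(df (D.erase j) x q))
    (cry : ∀ q ∈ c0.B ∪ c1.X, q ≠ y → 1 ≤ #(df (D.erase j) y q))
    (hxy : 2 ≤ #(df (D.erase j) y x)) (bx : 2 * N ^ 2 + 12 * N + 14 ≤ #(gd D P x j))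
    (by' : 2 * N ^ 2 + 12 * N + 6 ≤ #(gd D P y j))
    (hD : 50 * N ^ 2 + 100 + 5 * N + t + 1 ≤ #D) : Good adp (Po D b H T) P := by
  have sq : (t + 1) ^ 2 = t ^ 2 + 2 * t + 1 := by ring
  have b0' := card_B_le (c := c0)
  have b1' := card_B_le (c := c1)
  have k4 : N ≤ N ^ 2 := Nat.le_self_pow two_ne_zero N
  have z0 : #c0.Y = 0 := by rw [y0]; rfl
  have z1 : #c1.Y = 0 := by rw [y1]; rfl
  have g0 : D.erase j \ c0.Sg = D.erase j := by rw [Sg_empty y0, sdiff_empty]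
  have k : ∀ q : V n, ∃ i : Fin n, q ∈ c1.B ∪ c0.X → q ≠ x → i ∈ df (D.erase j) x q := by
    intro q
    by_cases c : q ∈ c1.B ∪ c0.X ∧ q ≠ x
    · obtain ⟨i, hi⟩ := card_pos.mp (crx q c.1 c.2)
      exact ⟨i, fun _ _ => hi⟩
    · exact ⟨j, fun d1 d2 => absurd ⟨d1, d2⟩ c⟩
  choose s hs using k
  have w1 := card_image_le (s := c1.B ∪ c0.X) (f := s)
  have w2 := card_union_le c1.B c0.X
  have xB : x ∈ c0.B := mem_B.mpr (Or.inl hx)
  obtain ⟨y', l, m, H', P', l1, m1, K1, K0, n1, q1, q2, R⟩ := move' (N := N) (F := ∅) hj h1 h0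
    hne.symm hP hS O1 O0 hy (by rw [g0]; exact cry) (by omega) (by omega) (empty_subset _)
    (fun _ hh => absurd hh (notMem_empty _)) (by simp) ((c1.B ∪ c0.X).image s) (by omega) by'
    (by omega)
  rw [g0] at q2
  have xy : x ≠ y := fun e => by rw [e, df_self] at hxy; omega
  have q3 := q2 x (mem_union_left _ xB) xy hxy
  have x3 : #(c1.toSq y l m).Y ≤ #c1.Y + 1 := card_insert_le _ _
  have x8 := card_erase_add_one hy
  have x10 : #(insert y' c0.X) = #c0.X + 1 :=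
    card_insert_of_notMem fun hh => n1 (mem_B.mpr (Or.inl hh))
  have g1 := R.gd_le D x j
  have g2 : D.erase j \ (c1.toSq y l m).Sg = ((D.erase j).erase l).erase m := by
    rw [toSq_Sg (by rw [y1]; exact notMem_empty _), Sg_empty y1]
    ext i
    simp only [mem_sdiff, mem_insert, notMem_empty, mem_erase]
    tauto
  refine R.2.2.2.2 (mxB (N := N) (t := t) (π0 := par y) (x := x) hF hL hT hj h0 h1 hne R.1 R.2.1
    K0 K1 (mem_insert_of_mem hx) (fun z hz => ?_) p1 ?_ ?_ u0 u1 ?_ (by omega) (fun q hq hqx => ?_)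
    (by omega) hD)
  · rcases mem_union.mp hz with hz | hz
    · obtain ⟨d1, d2⟩ := mem_erase.mp hz
      rcases mem_insert.mp d2 with rfl | d2
      · exact q1
      · exact p0 z (mem_union_left _ (mem_erase.mpr ⟨d1, d2⟩))
    · exact p0 z (mem_union_right _ hz)
  · show #(insert y' c0.X) = #c0.U + 1
    omega
  · show #(c1.X.erase y) + 1 = #c1.U
    omega
  · show #c0.Y + _ + 5 ≤ N
    omega
  · rw [g2]
    have old : q ∈ c1.B ∪ c0.X → 1 ≤ #(df (((D.erase j).erase l).erase m) x q) := fun h => by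
      have d := mem_df.mp (hs q h hqx)
      have d' : s q ∈ (c1.B ∪ c0.X).image s := mem_image_of_mem s h
      exact card_pos.mpr ⟨s q, mem_df.mpr ⟨mem_erase.mpr ⟨fun e => m1 (e ▸ d'),
        mem_erase.mpr ⟨fun e => l1 (e ▸ d'), d.1⟩⟩, d.2⟩⟩
    rcases mem_union.mp hq with hq | hq
    · exact old (mem_union_left _ (toSq_B hy hq))
    · rcases mem_insert.mp hq with rfl | hq
      · have d1 := df_erase_le (D.erase j) q x l
        have d2 := df_erase_le ((D.erase j).erase l) q x m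
        rw [df_comm]
        omega
      · exact old (mem_union_right _ hq)

/-- the smaller problem on one side -/
def IHs (A : Finset (Fin n)) (w : V n) (T U : Finset (V n)) (πu πv : ZMod 2) : Prop :=
  ∀ (H : Finset (V n)) (u v : V n), u ∈ Sub A w → v ∈ Sub A w →
    (∀ z ∈ Sub A w, z ∈ H ↔ z = u ∨ z = v) → par u = πu → par v = πv → 3 ≤ #(df A u v) →
    (∀ x ∈ U, 3 ≤ #(df A u x) ∧ 3 ≤ #(df A v x)) → Rob (Po A w H T)

/-- neutral case: the last hole crosses, a crossing pair is protected -/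
theorem neuA (hT : TMSt) (hj : j ∈ D) (h0 : b0 ∈ Sub D b) (h1 : b1 ∈ Sub D b) (hne : b0 j ≠ b1 j)
    (hP : Inv (Po D b H T) P) (hS : SP (Po D b H T) P) (O0 : Ok (D.erase j) b0 H T c0)
    (O1 : Ok (D.erase j) b1 H T c1) {u v : V n} (hu : u ∈ c0.X) (p0 : Par (par u) c0)
    (e0 : #c0.X = #c0.U + 1) (u0 : #c0.U ≤ t) (y0 : #c0.Y ≤ 1) (x1 : c1.X = {v}) (y1 : c1.Y = ∅)
    (u1 : #c1.U ≤ t) (hN : (t + 1) ^ 2 + 10 ≤ N) (cu : ∀ q ∈ c1.B, 2 ≤ #(df (D.erase j) u q))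
    (cv : ∀ q ∈ c1.U, 3 ≤ #(df (D.erase j) v q)) (bu : 2 * N ^ 2 + 12 * N + 6 ≤ #(gd D P u j))
    (ih : IHs (D.erase j) b1 T c1.U (par u) (par v))
    (hD : 50 * N ^ 2 + 100 + 5 * N + t + 1 ≤ #D) : Good adp (Po D b H T) P := by
  have g := card_erase_of_mem hj
  have sq : (t + 1) ^ 2 = t ^ 2 + 2 * t + 1 := by ring
  have b0' := card_B_le (c := c0)
  have b1' := card_B_le (c := c1)
  have k4 : N ≤ N ^ 2 := Nat.le_self_pow two_ne_zero N
  have z1 : #c1.Y = 0 := by rw [y1]; rfl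
  have z2 : #c1.X = 1 := by rw [x1]; rfl
  have g1 : D.erase j \ c1.Sg = D.erase j := by rw [Sg_empty y1, sdiff_empty]
  obtain ⟨p, a1, -, a2⟩ := cross_of_odd hj h0 hP (by
    rw [O0.even_iff (by omega), Nat.even_iff]; omega)
  obtain ⟨a3, -, a4⟩ := hP p a1
  obtain ⟨u', l, m, H', P', -, -, K0, K1, n1, q1, q2, R⟩ := move' (N := N) (F := {p, P p}) hj h0 h1
    hne hP hS O0 O1 hu (fun q hq hqu => by
      rw [g1]
      rcases mem_union.mp hq with hq | hq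
      · exact one_le_two.trans (cu q hq)
      · exact df_pos (O0.sub (mem_B.mpr (Or.inl hu))) (O0.sub (mem_B.mpr (Or.inl hq))) hqu.symm)
    (by omega) (by omega) (insert_subset a1 (singleton_subset_iff.mpr a3)) (fun z hz => by
      rcases mem_insert.mp hz with rfl | hz
      · simp
      · rw [mem_singleton.mp hz, a4]; simp) card_le_two ∅ (by simp) bu (by omega)
  rw [g1] at q2
  have q3 : ∀ q ∈ c1.B, 3 ≤ #(df (D.erase j) u' q) := fun q hq =>
    q2 q (mem_union_left _ hq) (fun e => by have := cu q hq; rw [e, df_self] at this; omega)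
      (cu q hq)
  have x3 : #(c0.toSq u l m).Y ≤ #c0.Y + 1 := card_insert_le _ _
  have x8 := card_erase_add_one hu
  have x9 : #(c0.toSq u l m).X = #(c0.toSq u l m).U := by
    show #(c0.X.erase u) = #c0.U
    omega
  have vB : v ∈ c1.B := mem_B.mpr (Or.inl (by rw [x1]; simp))
  refine R.2.2.2.2 (split hj h0 h1 hne R.1 R.2.1 ((K0.even_iff (by omega)).mpr ⟨_, by rw [x9]⟩)
    ⟨p, R.2.2.2.1 (by simp), by rw [R.eq p (by simp)]; exact a2⟩
    (hT n N t _ _ _ _ _ (par u) K0 (fun z hz => ?_) x9 u0 (by omega) (by omega))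
    (ih H' u' v (K1.sub (mem_B.mpr (Or.inl (mem_insert_self _ _)))) (O1.sub vB) (fun z hz => ?_)
      q1 rfl (q3 v vB) fun x hx => ⟨q3 x (mem_B.mpr (Or.inr (Or.inl hx))), cv x hx⟩))
  · exact p0 z (mem_union.mpr ((mem_union.mp hz).imp mem_of_mem_erase id))
  · rw [K1.hH z hz]
    simp [Cf.addX, x1, y1]

/-- neutral case: both holes cross -/
theorem neuB (hT : TMSt) (hj : j ∈ D) (h0 : b0 ∈ Sub D b) (h1 : b1 ∈ Sub D b) (hne : b0 j ≠ b1 j)
    (hP : Inv (Po D b H T) P) (hS : SP (Po D b H T) P) (O0 : Ok (D.erase j) b0 H T c0)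
    (O1 : Ok (D.erase j) b1 H T c1) {u v : V n} (hu : u ∈ c0.X) (hv : v ∈ c0.X)
    (p0 : ∀ z ∈ c0.X.erase v ∪ c0.U, par z = par u) (e0 : #c0.X = #c0.U + 2) (u0 : #c0.U ≤ t)
    (y0 : c0.Y = ∅) (x1 : c1.X = ∅) (y1 : c1.Y = ∅) (u1 : #c1.U ≤ t) (hN : (t + 1) ^ 2 + 10 ≤ N)
    (cu : ∀ q ∈ c1.U, 2 ≤ #(df (D.erase j) u q)) (cv : ∀ q ∈ c1.U, 2 ≤ #(df (D.erase j) v q))
    (huv : 2 ≤ #(df (D.erase j) v u)) (bu : 2 * N ^ 2 + 12 * N + 14 ≤ #(gd D P u j))
    (bv : 2 * N ^ 2 + 12 * N + 6 ≤ #(gd D P v j))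
    (ih : IHs (D.erase j) b1 T c1.U (par u) (par v))
    (hD : 50 * N ^ 2 + 100 + 5 * N + t + 1 ≤ #D) : Good adp (Po D b H T) P := by
  have sq : (t + 1) ^ 2 = t ^ 2 + 2 * t + 1 := by ring
  have b0' := card_B_le (c := c0)
  have b1' := card_B_le (c := c1)
  have k4 : N ≤ N ^ 2 := Nat.le_self_pow two_ne_zero N
  have z0 : #c0.Y = 0 := by rw [y0]; rfl
  have z1 : #c1.Y = 0 := by rw [y1]; rfl
  have z2 : #c1.X = 0 := by rw [x1]; rfl
  have g1 : D.erase j \ c1.Sg = D.erase j := by rw [Sg_empty y1, sdiff_empty]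
  have mB : ∀ q ∈ c1.B, q ∈ c1.U := fun q hq => by simpa [mem_B, x1, y1] using hq
  have ne : u ≠ v := fun e => by rw [e, df_self] at huv; omega
  obtain ⟨v', l, m, H', P', -, -, K0, K1, n1, q1, q2, R⟩ := move' (N := N) (F := ∅) hj h0 h1
    hne hP hS O0 O1 hv (fun q hq hqu => by
      rw [g1]
      rcases mem_union.mp hq with hq | hq
      · exact one_le_two.trans (cv q (mB q hq))
      · exact df_pos (O0.sub (mem_B.mpr (Or.inl hv))) (O0.sub (mem_B.mpr (Or.inl hq))) hqu.symm)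
    (by omega) (by omega) (empty_subset _) (fun _ hh => absurd hh (notMem_empty _)) (by simp)
    ∅ (by simp) bv (by omega)
  rw [g1] at q2
  have x3 : #(c0.toSq v l m).Y ≤ #c0.Y + 1 := card_insert_le _ _
  have x8 := card_erase_add_one hv
  have g2 := R.gd_le D u j
  refine R.2.2.2.2 (neuA (N := N) (t := t) (u := u) (v := v') hT hj h0 h1 hne R.1 R.2.1 K0 K1
    (mem_erase.mpr ⟨ne, hu⟩) p0 ?_ u0 (by omega) (by simp [Cf.addX, x1]) y1 u1 hN
    (fun q hq => ?_) (fun q hq => ?_) (by omega) (by rw [q1]; exact ih) hD)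
  · show #(c0.X.erase v) = #c0.U + 1
    omega
  · simp only [mem_B, Cf.addX, x1, y1, mem_insert, notMem_empty, or_false] at hq
    rcases hq with rfl | hq
    · rw [df_comm]
      exact le_trans (by norm_num) (q2 u (mem_union_right _ hu) ne huv)
    · exact cu q hq
  · exact q2 q (mem_union_left _ (mem_B.mpr (Or.inr (Or.inl hq))))
      (fun e => by have := cv q hq; rw [e, df_self] at this; omega) (cv q hq)

end Pool.Agent.Lib.MP_88ff4d_co.NP
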