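import Pool.Agent.Lib.MP_88ff4d_co.NP.MX2

/-! Both ends covered: the two cases after the conversion of targets. -/

set_option autoImplicit false

namespace Pool.Agent.Lib.MP_88ff4d_co.NP

open Finset

variable {n : ℕ} {D : Finset (Fin n)} {b b0 b1 : V n} {H T : Finset (V n)}
  {P : V n × Bool → V n × Bool} {j : Fin n} {N t : ℕ} {u v : V n} {I U : Finset (V n)}

/-- one side of a configuration without squares -/
def sd (X U : Finset (V n)) (j : Fin n) (e : ZMod 2) : Cf n :=
  ⟨X.filter (· j = e), U.filter (· j = e), ∅, fun _ => j, fun _ => j⟩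

theorem sd_B {X : Finset (V n)} {e : ZMod 2} {z : V n} :
    z ∈ (sd X U j e).B ↔ z ∈ X ∪ U ∧ z j = e := by
  simp only [mem_B, sd, mem_filter, mem_union, notMem_empty]
  tauto

/-- the holes `u`, `v`, the new holes `I` and the remaining targets `U` -/
structure Pre (D : Finset (Fin n)) (b : V n) (H T : Finset (V n)) (j : Fin n) (u v : V n)
    (I U : Finset (V n)) : Prop where
  hu : u ∈ Sub D b
  hv : v ∈ Sub D b
  sub : I ∪ U ⊆ Sub D b
  hH : ∀ z ∈ Sub D b, z ∈ H ↔ z ∈ insert u (insert v I)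
  hT : ∀ z ∈ Sub D b, z ∈ T ↔ z ∈ U
  dj : Disjoint I U
  far : ∀ q ∈ I ∪ U, 2 ≤ #(df D u q) ∧ 2 ≤ #(df D v q)
  uv : 3 ≤ #(df D u v)
  rest : ∀ p ∈ I ∪ U, ∀ q ∈ I ∪ U, p j = q j → par p ≠ par q → 2 ≤ #(df D p q)

theorem mem_XU {z : V n} : z ∈ insert u (insert v I) ∪ U ↔ z = u ∨ z = v ∨ z ∈ I ∪ U := by
  simp only [mem_union, mem_insert]
  tauto

theorem Pre.nu (h : Pre D b H T j u v I U) : u ∉ I ∪ U := fun k => by
  have := (h.far u k).1
  rw [df_self] at this
  omega

theorem Pre.nv (h : Pre D b H T j u v I U) : v ∉ I ∪ U := fun k => by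
  have := (h.far v k).2
  rw [df_self] at this
  omega

theorem Pre.ne (h : Pre D b H T j u v I U) : u ≠ v := fun k => by
  have := h.uv
  rw [k, df_self] at this
  omega

theorem Pre.fu (h : Pre D b H T j u v I U) {q : V n} (hq : q ∈ insert u (insert v I) ∪ U)
    (hne : q ≠ u) : 2 ≤ #(df D u q) := by
  rcases mem_XU.mp hq with k | rfl | k
  · exact absurd k hne
  · exact le_trans (by norm_num) h.uv
  · exact (h.far q k).1

theorem Pre.fv (h : Pre D b H T j u v I U) {q : V n} (hq : q ∈ insert u (insert v I) ∪ U)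
    (hne : q ≠ v) : 2 ≤ #(df D v q) := by
  rcases mem_XU.mp hq with rfl | k | k
  · rw [df_comm]; exact le_trans (by norm_num) h.uv
  · exact absurd k hne
  · exact (h.far q k).2

theorem Pre.ok (h : Pre D b H T j u v I U) (hj : j ∈ D) (h0 : b0 ∈ Sub D b) :
    Ok (D.erase j) b0 H T (sd (insert u (insert v I)) U j (b0 j)) := by
  have s : ∀ z ∈ insert u (insert v I) ∪ U, z ∈ Sub D b := fun z hz => by
    rcases mem_XU.mp hz with rfl | rfl | k
    · exact h.hu
    · exact h.hv
    · exact h.sub k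
  have g : (sd (insert u (insert v I)) U j (b0 j)).Sg = ∅ := Sg_empty rfl
  refine ⟨fun z hz => ?_, fun z hz => ?_, fun z hz => ?_, by rw [g]; exact empty_subset _,
    fun y hy => absurd hy (notMem_empty y), ?_, disjoint_empty_right _, disjoint_empty_right _,
    fun p hp q hq hne => ?_⟩
  · obtain ⟨k1, k2⟩ := sd_B.mp hz
    exact (mem_Sub_erase h0 hj).mpr ⟨s z k1, k2⟩
  · obtain ⟨k1, k2⟩ := (mem_Sub_erase h0 hj).mp hz
    rw [h.hH z k1]
    simp only [sd, mem_filter, k2, and_true, notMem_empty, false_and, exists_false, or_false]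
  · obtain ⟨k1, k2⟩ := (mem_Sub_erase h0 hj).mp hz
    rw [h.hT z k1]
    simp only [sd, mem_filter, k2, and_true]
  · refine Disjoint.mono (filter_subset _ _) (filter_subset _ _) ?_
    exact disjoint_insert_left.mpr ⟨fun k => h.nu (mem_union_right _ k),
      disjoint_insert_left.mpr ⟨fun k => h.nv (mem_union_right _ k), h.dj⟩⟩
  · obtain ⟨k1, k2⟩ := sd_B.mp hp
    obtain ⟨k3, k4⟩ := sd_B.mp hq
    rw [g, sdiff_empty]
    refine le_trans ?_ (df_erase_eq D (k2.trans k4.symm))
    by_cases c : par p = par q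
    · exact df_two (s p k1) (s q k3) hne c
    rcases mem_XU.mp k1 with rfl | rfl | k5
    · exact h.fu k3 hne.symm
    · exact h.fv k3 hne.symm
    rcases mem_XU.mp k3 with rfl | rfl | k6
    · rw [df_comm]; exact h.fu k1 hne
    · rw [df_comm]; exact h.fv k1 hne
    · exact h.rest p k5 q k6 (k2.trans k4.symm) c

theorem Pre.card (h : Pre D b H T j u v I U) (e : ZMod 2) :
    #(sd (insert u (insert v I)) U j e).X =
      #(I.filter (· j = e)) + (if u j = e then 1 else 0) + if v j = e then 1 else 0 := by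
  have k1 : v ∉ I := fun k => h.nv (mem_union_left _ k)
  have k2 : u ∉ insert v I := fun k =>
    (mem_insert.mp k).elim h.ne fun k => h.nu (mem_union_left _ k)
  show #((insert u (insert v I)).filter (· j = e)) = _
  rw [card_filter, sum_insert k2, sum_insert k1, ← card_filter]
  omega

theorem sd_sub {X : Finset (V n)} {e e' : ZMod 2} {z : V n}
    (h : z ∈ (sd X U j e).B ∪ (sd X U j e').X) : z ∈ X ∪ U := by
  rcases mem_union.mp h with k | k
  · exact (sd_B.mp k).1
  · exact mem_union_left _ (mem_filter.mp k).1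

theorem sd_XU {X : Finset (V n)} {e : ZMod 2} {z : V n}
    (h : z ∈ (sd X U j e).X ∪ (sd X U j e).U) : z ∈ X ∪ U ∧ z j = e := by
  simp only [sd, mem_filter, mem_union] at h ⊢
  tauto

theorem sd_er {X : Finset (V n)} {e : ZMod 2} {x z : V n} (hx : x ∉ U)
    (h : z ∈ (sd X U j e).X.erase x ∪ (sd X U j e).U) : z ∈ X ∪ U ∧ z j = e ∧ z ≠ x := by
  rcases mem_union.mp h with k | k
  · obtain ⟨k1, k2⟩ := mem_erase.mp k
    exact ⟨mem_union_left _ (mem_filter.mp k2).1, (mem_filter.mp k2).2, k1⟩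
  · exact ⟨mem_union_right _ (mem_filter.mp k).1, (mem_filter.mp k).2,
      fun e => hx (e ▸ (mem_filter.mp k).1)⟩

/-- each side has one parity and misses one hole -/
theorem nonneu (hF : FarSt) (hL : LinkSt) (hT : TMSt) (hj : j ∈ D) (h0 : b0 ∈ Sub D b)
    (h1 : b1 ∈ Sub D b) (hne : b0 j ≠ b1 j) (hP : Inv (Po D b H T) P) (hS : SP (Po D b H T) P)
    (h : Pre D b H T j u v I U)
    (pp : ∀ z ∈ I ∪ U, (z j = b0 j → par z = par v) ∧ (z j = b1 j → par z = par u))
    (e0 : #(I.filter (· j = b0 j)) + 1 = #(U.filter (· j = b0 j)))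
    (e1 : #(I.filter (· j = b1 j)) + 1 = #(U.filter (· j = b1 j))) (ut : #U ≤ t)
    (hN : (t + 1) ^ 2 + 10 ≤ N) (bu : 2 * N ^ 2 + 12 * N + 14 ≤ #(gd D P u j))
    (bv : 2 * N ^ 2 + 12 * N + 14 ≤ #(gd D P v j))
    (hD : 50 * N ^ 2 + 100 + 5 * N + t + 1 ≤ #D) : Good adp (Po D b H T) P := by
  have O0 := h.ok hj h0
  have O1 := h.ok hj h1
  have n0 := h.card (b0 j)
  have n1 := h.card (b1 j)
  set c0 := sd (insert u (insert v I)) U j (b0 j) with d0
  set c1 := sd (insert u (insert v I)) U j (b1 j) with d1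
  have m0 : #c0.U = #(U.filter (· j = b0 j)) := rfl
  have m1 : #c1.U = #(U.filter (· j = b1 j)) := rfl
  have u0 : #c0.U ≤ t := (card_filter_le _ _).trans ut
  have u1 : #c1.U ≤ t := (card_filter_le _ _).trans ut
  have y0 : #c0.Y = 0 := rfl
  have y1 : #c1.Y = 0 := rfl
  have g0 : D.erase j \ c0.Sg = D.erase j := by rw [Sg_empty rfl, sdiff_empty]
  have g1 : D.erase j \ c1.Sg = D.erase j := by rw [Sg_empty rfl, sdiff_empty]
  have q0 : ∀ z ∈ insert u (insert v I) ∪ U, z j = b0 j → z ≠ u → par z = par v := by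
    intro z hz e c
    rcases mem_XU.mp hz with k | rfl | k
    · exact absurd k c
    · rfl
    · exact (pp z k).1 e
  have q1 : ∀ z ∈ insert u (insert v I) ∪ U, z j = b1 j → z ≠ v → par z = par u := by
    intro z hz e c
    rcases mem_XU.mp hz with rfl | k | k
    · rfl
    · exact absurd k c
    · exact (pp z k).2 e
  have cu : ∀ q ∈ insert u (insert v I) ∪ U, q ≠ u → 1 ≤ #(df (D.erase j) u q) := fun q hq c => by
    have := h.fu hq c
    have := df_erase_le D u q j
    omega
  have cv : ∀ q ∈ insert u (insert v I) ∪ U, q ≠ v → 1 ≤ #(df (D.erase j) v q) := fun q hq c => by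
    have := h.fv hq c
    have := df_erase_le D v q j
    omega
  have uU : u ∉ U := fun k => h.nu (mem_union_right _ k)
  have vU : v ∉ U := fun k => h.nv (mem_union_right _ k)
  have r0 : ∀ z ∈ c0.X.erase u ∪ c0.U, par z = par v := fun z hz =>
    have k := sd_er uU hz
    q0 z k.1 k.2.1 k.2.2
  have r1 : ∀ z ∈ c1.X.erase v ∪ c1.U, par z = par u := fun z hz =>
    have k := sd_er vU hz
    q1 z k.1 k.2.1 k.2.2
  have s0 : u j ≠ b0 j → Par (par v) c0 := fun c z hz =>
    have k := sd_XU hz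
    q0 z k.1 k.2 fun e => c (e ▸ k.2)
  have s1 : v j ≠ b1 j → Par (par u) c1 := fun c z hz =>
    have k := sd_XU hz
    q1 z k.1 k.2 fun e => c (e ▸ k.2)
  by_cases a : u j = b0 j <;> by_cases a' : v j = b1 j
  · have a1 : u j ≠ b1 j := by rw [a]; exact hne
    have a2 : v j ≠ b0 j := by rw [a']; exact hne.symm
    rw [if_pos a, if_neg a2] at n0
    rw [if_neg a1, if_pos a'] at n1
    exact mxC (N := N) (t := t) hF hL hT hj h0 h1 hne hP hS O0 O1 (x := u) (y := v)
      (mem_filter.mpr ⟨by simp, a⟩) (mem_filter.mpr ⟨by simp, a'⟩) r0 r1 (by omega) (by omega)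
      u0 u1 rfl rfl hN (fun q hq => cu q (sd_sub hq)) (fun q hq => cv q (sd_sub hq)) (by
        have := h.uv
        have := df_erase_le D u v j
        rw [df_comm]
        omega) bu (by omega) hD
  · have a1 : u j ≠ b1 j := by rw [a]; exact hne
    have a2 : v j = b0 j := z2_two hne.symm a'
    rw [if_pos a, if_pos a2] at n0
    rw [if_neg a1, if_neg a'] at n1
    exact mxB (N := N) (t := t) hF hL hT hj h0 h1 hne hP hS O0 O1 (x := u)
      (mem_filter.mpr ⟨by simp, a⟩) r0 (s1 a') (by omega) (by omega) u0 u1 (by omega) (by omega)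
      (fun q hq => by rw [g1]; exact cu q (sd_sub hq)) (by omega) hD
  · have a1 : u j = b1 j := z2_two hne a
    have a2 : v j ≠ b0 j := by rw [a']; exact hne.symm
    rw [if_neg a, if_neg a2] at n0
    rw [if_pos a1, if_pos a'] at n1
    exact mxB (N := N) (t := t) hF hL hT hj h1 h0 hne.symm hP hS O1 O0 (x := v)
      (mem_filter.mpr ⟨by simp, a'⟩) r1 (s0 a) (by omega) (by omega) u1 u0 (by omega) (by omega)
      (fun q hq => by rw [g0]; exact cv q (sd_sub hq)) (by omega) hD
  · have a1 : u j = b1 j := z2_two hne a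
    have a2 : v j = b0 j := z2_two hne.symm a'
    rw [if_neg a, if_pos a2] at n0
    rw [if_pos a1, if_neg a'] at n1
    exact mxA (N := N) (t := t) hF hL hT hj h0 h1 hne hP hS O0 O1 (s0 a) (s1 a') (by omega)
      (by omega) u0 u1 (by omega) (by omega) hD

/-- the side of `u` has one parity, the other side is a smaller problem -/
theorem neutral (hT : TMSt) (hj : j ∈ D) (h1 : b1 ∈ Sub D b) (hne : u j ≠ b1 j)
    (hP : Inv (Po D b H T) P) (hS : SP (Po D b H T) P) (h : Pre D b H T j u v I U)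
    (pI : ∀ z ∈ I, z j = u j) (pp : ∀ z ∈ I ∪ U, z j = u j → par z = par u)
    (e0 : #I = #(U.filter (· j = u j))) (ut : #U ≤ t)
    (f3 : ∀ q ∈ U, 3 ≤ #(df D u q) ∧ 3 ≤ #(df D v q)) (hN : (t + 1) ^ 2 + 10 ≤ N)
    (bu : 2 * N ^ 2 + 12 * N + 14 ≤ #(gd D P u j)) (bv : 2 * N ^ 2 + 12 * N + 14 ≤ #(gd D P v j))
    (ih : IHs (D.erase j) b1 T (U.filter (· j = b1 j)) (par u) (par v))
    (hD : 50 * N ^ 2 + 100 + 5 * N + t + 1 ≤ #D) : Good adp (Po D b H T) P := by
  have O0 := h.ok hj h.hu
  have O1 := h.ok hj h1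
  have n0 := h.card (u j)
  rw [filter_true_of_mem pI, if_pos rfl] at n0
  have x1 : (sd (insert u (insert v I)) U j (b1 j)).X = if v j = b1 j then {v} else ∅ := by
    show (insert u (insert v I)).filter (· j = b1 j) = _
    rw [filter_insert, if_neg hne, filter_insert,
      filter_false_of_mem fun z hz => by rw [pI z hz]; exact hne]
    rfl
  set c0 := sd (insert u (insert v I)) U j (u j) with d0
  set c1 := sd (insert u (insert v I)) U j (b1 j) with d1
  have m0 : #c0.U = #(U.filter (· j = u j)) := rfl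
  have u0 : #c0.U ≤ t := (card_filter_le _ _).trans ut
  have u1 : #c1.U ≤ t := (card_filter_le _ _).trans ut
  have y0 : #c0.Y = 0 := rfl
  have q0 : ∀ z ∈ insert u (insert v I) ∪ U, z j = u j → z ≠ v → par z = par u := by
    intro z hz e c
    rcases mem_XU.mp hz with rfl | k | k
    · rfl
    · exact absurd k c
    · exact pp z k e
  have cu : ∀ q ∈ c1.U, 2 ≤ #(df (D.erase j) u q) := fun q hq => by
    have := (f3 q (mem_filter.mp hq).1).1
    have := df_erase_le D u q j
    omega
  have uv : 2 ≤ #(df (D.erase j) u v) := by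
    have := h.uv
    have := df_erase_le D u v j
    omega
  have hu : u ∈ c0.X := mem_filter.mpr ⟨by simp, rfl⟩
  by_cases a : v j = b1 j
  · have a2 : v j ≠ u j := by rw [a]; exact hne.symm
    rw [if_neg a2] at n0
    rw [if_pos a] at x1
    refine neuA (N := N) (t := t) hT hj h.hu h1 hne hP hS O0 O1 hu (fun z hz => ?_) (by omega) u0
      (by omega) x1 rfl u1 hN (fun q hq => ?_) (fun q hq => ?_) (by omega) ih hD
    · have k := sd_XU hz
      exact q0 z k.1 k.2 fun e => a2 (e ▸ k.2)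
    · rw [mem_B, x1, mem_singleton] at hq
      rcases hq with rfl | hq | hq
      · exact uv
      · exact cu q hq
      · exact absurd hq (notMem_empty _)
    · obtain ⟨k1, k2⟩ := mem_filter.mp hq
      exact (f3 q k1).2.trans (df_erase_eq D (a.trans k2.symm))
  · have a2 : v j = u j := z2_two hne.symm a
    rw [if_pos a2] at n0
    rw [if_neg a] at x1
    refine neuB (N := N) (t := t) hT hj h.hu h1 hne hP hS O0 O1 hu (mem_filter.mpr ⟨by simp, a2⟩)
      (fun z hz => ?_) (by omega) u0 rfl x1 rfl u1 hN cu (fun q hq => ?_)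
      (by rw [df_comm]; exact uv) bu (by omega) ih hD
    · have k := sd_er (fun k => h.nv (mem_union_right _ k)) hz
      exact q0 z k.1 k.2.1 k.2.2
    · have := (f3 q (mem_filter.mp hq).1).2
      have := df_erase_le D v q j
      omega

end Pool.Agent.Lib.MP_88ff4d_co.NP
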