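import Pool.Agent.Lib.MP_88ff4d_co.NP.St2

/-! Both ends covered, generic position: statements of the parts. -/

set_option autoImplicit false

namespace Pool.Agent.Lib.MP_88ff4d_co.NP

open Finset

/-- two holes of opposite parity and targets of both parities, far apart -/
def MXSt : Prop := ∀ (n N t : ℕ) (D : Finset (Fin n)) (b u v : V n) (H T U : Finset (V n)),
  u ∈ Sub D b → v ∈ Sub D b → U ⊆ Sub D b → (∀ z ∈ Sub D b, z ∈ H ↔ z = u ∨ z = v) →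
  (∀ z ∈ Sub D b, z ∈ T ↔ z ∈ U) → par u ≠ par v →
  #(U.filter fun x => par x = par u) = #(U.filter fun x => par x = par v) → U.Nonempty → #U ≤ t →
  3 ≤ #(df D u v) → (∀ x ∈ U, 3 ≤ #(df D u x) ∧ 3 ≤ #(df D v x)) →
  (∀ x ∈ U, ∀ y ∈ U, par x ≠ par y → 3 ≤ #(df D x y)) → (t + 1) ^ 2 + 10 ≤ N →
  50 * N ^ 2 + 100 + 5 * N + 2 * t ≤ #D → Rob (Po D b H T)

/-- the statement for an involution `μ` that describes a maximal, not perfect matching -/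
def Top2St : Prop := ∀ (n k : ℕ), 100 * (k + 3) ^ 4 ≤ n → ∀ (μ : V n → V n), (∀ x, μ (μ x) = x) →
  (∀ x, μ x ≠ x → adj x (μ x)) → #(univ.filter fun x => μ x = x) ≤ k → (∃ x, μ x = x) →
  (∀ x y, μ x = x → μ y = y → ¬ adj x y) → ∀ u v : V n, par u ≠ par v → 3 ≤ hammingDist u v →
  (∀ x, μ x = x → 3 ≤ hammingDist u x ∧ 3 ≤ hammingDist v x) →
  ∀ G : SimpleGraph (V n), (∀ x y, adj x y → G.Adj x y) →
  ∃ w : G.Walk u v, w.IsHamiltonian ∧ ∀ x, μ x ≠ x → s(x, μ x) ∈ w.edges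

/-- the final statement -/
def GenSt : Prop := ∀ (n k : ℕ), 100 * (k + 3) ^ 4 ≤ n →
  ∀ (G : SimpleGraph (Fin n → ZMod 2)), (∀ x y, G.Adj x y ↔ hammingDist x y = 1) →
  ∀ M : G.Subgraph, M.IsMatching → M.vertsᶜ.ncard ≤ k →
  (∀ N : G.Subgraph, N.IsPerfectMatching → ¬ M ≤ N) →
  ∀ u v : Fin n → ZMod 2, ∑ i, u i ≠ ∑ i, v i → ¬ G.Adj u v →
  (∀ x ∉ M.verts, 3 ≤ hammingDist u x ∧ 3 ≤ hammingDist v x) →
  ∃ p : G.Walk u v, p.IsHamiltonian ∧ ∀ e ∈ M.edgeSet, e ∈ p.edges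

end Pool.Agent.Lib.MP_88ff4d_co.NP
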