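import Pool.Agent.Lib.MP_88ff4d_co.NP.MX4

/-! Both ends covered, no adjacency: tools and the neutral case. -/

set_option autoImplicit false

namespace Pool.Agent.Lib.MP_88ff4d_co.NP

open Finset

variable {n : ℕ} {D : Finset (Fin n)} {b b0 b1 : V n} {H T : Finset (V n)}
  {P : V n × Bool → V n × Bool} {j : Fin n} {c0 c1 : Cf n} {N t : ℕ} {u v : V n}
  {I U : Finset (V n)}

theorem df_three {p q : V n} (hp : p ∈ Sub D b) (hq : q ∈ Sub D b) (e : par p ≠ par q)
    (h : 2 ≤ #(df D p q)) : 3 ≤ #(df D p q) := by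
  have h2 := par_df hp hq
  by_contra c
  have : #(df D p q) = 2 := by omega
  rw [this] at h2
  revert e h2
  generalize par p = x
  generalize par q = y
  revert x y
  decide

/-- the smaller problem on one side -/
def IHo (A : Finset (Fin n)) (w : V n) (T U : Finset (V n)) (πu πv : ZMod 2) : Prop :=
  ∀ (H : Finset (V n)) (c : Cf n) (u v : V n), Ok A w H T c → c.X = {u, v} → c.U = U → c.Y = ∅ →
    par u = πu → par v = πv → Rob (Po A w H T)

theorem neuC (hT : TMSt) (hj : j ∈ D) (h0 : b0 ∈ Sub D b) (h1 : b1 ∈ Sub D b) (hne : b0 j ≠ b1 j)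
    (hP : Inv (Po D b H T) P) (hS : SP (Po D b H T) P) (O0 : Ok (D.erase j) b0 H T c0)
    (O1 : Ok (D.erase j) b1 H T c1) (hu : u ∈ c0.X) (p0 : Par (par u) c0)
    (e0 : #c0.X = #c0.U + 1) (u0 : #c0.U ≤ t) (y0 : #c0.Y ≤ 1) (x1 : c1.X = {v}) (y1 : c1.Y = ∅)
    (u1 : #c1.U ≤ t) (hN : (t + 1) ^ 2 + 10 ≤ N) (cu : ∀ q ∈ c1.B, 1 ≤ #(df (D.erase j) u q))
    (bu : 2 * N ^ 2 + 12 * N + 6 ≤ #(gd D P u j))
    (ih : IHo (D.erase j) b1 T c1.U (par u) (par v))
    (hD : 50 * N ^ 2 + 100 + 5 * N + t + 1 ≤ #D) : Good adp (Po D b H T) P := by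
  have g := card_erase_of_mem hj
  have sq : (t + 1) ^ 2 = t ^ 2 + 2 * t + 1 := by ring
  have b0' := card_B_le (c := c0)
  have b1' := card_B_le (c := c1)
  have k4 : N ≤ N ^ 2 := Nat.le_self_pow two_ne_zero N
  have z1 : #c1.Y = 0 := by rw [y1]; rfl
  have z2 : #c1.X = 1 := by rw [x1]; rfl
  have g1 : D.erase j \ c1.Sg = D.erase j := by rw [Sg_empty y1, sdiff_empty]
  obtain ⟨p, a1, -, a2⟩ := cross_of_odd hj h0 hP (by
    rw [O0.even_iff (by omega), Nat.even_iff]; omega)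
  obtain ⟨a3, -, a4⟩ := hP p a1
  obtain ⟨u', l, m, H', P', -, -, K0, K1, n1, q1, -, R⟩ := move' (N := N) (F := {p, P p}) hj h0 h1
    hne hP hS O0 O1 hu (fun q hq hqu => by
      rw [g1]
      rcases mem_union.mp hq with hq | hq
      · exact cu q hq
      · exact df_pos (O0.sub (mem_B.mpr (Or.inl hu))) (O0.sub (mem_B.mpr (Or.inl hq))) hqu.symm)
    (by omega) (by omega) (insert_subset a1 (singleton_subset_iff.mpr a3)) (fun z hz => by
      rcases mem_insert.mp hz with rfl | hz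
      · simp
      · rw [mem_singleton.mp hz, a4]; simp) card_le_two ∅ (by simp) bu (by omega)
  have x3 : #(c0.toSq u l m).Y ≤ #c0.Y + 1 := card_insert_le _ _
  have x8 := card_erase_add_one hu
  have x9 : #(c0.toSq u l m).X = #(c0.toSq u l m).U := by
    show #(c0.X.erase u) = #c0.U
    omega
  refine R.2.2.2.2 (split hj h0 h1 hne R.1 R.2.1 ((K0.even_iff (by omega)).mpr ⟨_, by rw [x9]⟩)
    ⟨p, R.2.2.2.1 (by simp), by rw [R.eq p (by simp)]; exact a2⟩
    (hT n N t _ _ _ _ _ (par u) K0 (fun z hz => ?_) x9 u0 (by omega) (by omega))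
    (ih H' _ u' v K1 (by simp [Cf.addX, x1]) rfl y1 q1 rfl))
  exact p0 z (mem_union.mpr ((mem_union.mp hz).imp mem_of_mem_erase id))

theorem neuD (hT : TMSt) (hj : j ∈ D) (h0 : b0 ∈ Sub D b) (h1 : b1 ∈ Sub D b) (hne : b0 j ≠ b1 j)
    (hP : Inv (Po D b H T) P) (hS : SP (Po D b H T) P) (O0 : Ok (D.erase j) b0 H T c0)
    (O1 : Ok (D.erase j) b1 H T c1) (hu : u ∈ c0.X) (hv : v ∈ c0.X)
    (p0 : ∀ z ∈ c0.X.erase v ∪ c0.U, par z = par u) (e0 : #c0.X = #c0.U + 2) (u0 : #c0.U ≤ t)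
    (y0 : c0.Y = ∅) (x1 : c1.X = ∅) (y1 : c1.Y = ∅) (u1 : #c1.U ≤ t) (hN : (t + 1) ^ 2 + 10 ≤ N)
    (cu : ∀ q ∈ c1.U, 1 ≤ #(df (D.erase j) u q)) (cv : ∀ q ∈ c1.U, 1 ≤ #(df (D.erase j) v q))
    (huv : 2 ≤ #(df (D.erase j) v u)) (bu : 2 * N ^ 2 + 12 * N + 14 ≤ #(gd D P u j))
    (bv : 2 * N ^ 2 + 12 * N + 6 ≤ #(gd D P v j))
    (ih : IHo (D.erase j) b1 T c1.U (par u) (par v))
    (hD : 50 * N ^ 2 + 100 + 5 * N + t + 1 ≤ #D) : Good adp (Po D b H T) P := by
  have sq : (t + 1) ^ 2 = t ^ 2 + 2 * t + 1 := by ring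
  have b0' := card_B_le (c := c0)
  have b1' := card_B_le (c := c1)
  have k4 : N ≤ N ^ 2 := Nat.le_self_pow two_ne_zero N
  have z0 : #c0.Y = 0 := by rw [y0]; rfl
  have z1 : #c1.Y = 0 := by rw [y1]; rfl
  have z2 : #c1.X = 0 := by rw [x1]; rfl
  have g1 : D.erase j \ c1.Sg = D.erase j := by rw [Sg_empty y1, sdiff_empty]
  have mB : ∀ q ∈ c1.B, q ∈ c1.U := fun q hq => by simpa [mem_B, x1, y1] using hq
  have ne : u ≠ v := fun e => by rw [e, df_self] at huv; omega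
  obtain ⟨v', l, m, H', P', -, -, K0, K1, n1, q1, q2, R⟩ := move' (N := N) (F := ∅) hj h0 h1
    hne hP hS O0 O1 hv (fun q hq hqu => by
      rw [g1]
      rcases mem_union.mp hq with hq | hq
      · exact cv q (mB q hq)
      · exact df_pos (O0.sub (mem_B.mpr (Or.inl hv))) (O0.sub (mem_B.mpr (Or.inl hq))) hqu.symm)
    (by omega) (by omega) (empty_subset _) (fun _ hh => absurd hh (notMem_empty _)) (by simp)
    ∅ (by simp) bv (by omega)
  rw [g1] at q2
  have x3 : #(c0.toSq v l m).Y ≤ #c0.Y + 1 := card_insert_le _ _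
  have x8 := card_erase_add_one hv
  have g2 := R.gd_le D u j
  refine R.2.2.2.2 (neuC (N := N) (t := t) (u := u) (v := v') hT hj h0 h1 hne R.1 R.2.1 K0 K1
    (mem_erase.mpr ⟨ne, hu⟩) p0 ?_ u0 (by omega) (by simp [Cf.addX, x1]) y1 u1 hN
    (fun q hq => ?_) (by omega) (by rw [q1]; exact ih) hD)
  · show #(c0.X.erase v) = #c0.U + 1
    omega
  · simp only [mem_B, Cf.addX, x1, y1, mem_insert, notMem_empty, or_false] at hq
    rcases hq with rfl | hq
    · rw [df_comm]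
      exact le_trans (by norm_num) (q2 u (mem_union_right _ hu) ne huv)
    · exact cu q hq

theorem neutral2 (hT : TMSt) (hj : j ∈ D) (h1 : b1 ∈ Sub D b) (hne : u j ≠ b1 j)
    (hP : Inv (Po D b H T) P) (hS : SP (Po D b H T) P) (h : Pre D b H T j u v I U)
    (pI : ∀ z ∈ I, z j = u j) (pp : ∀ z ∈ I ∪ U, z j = u j → par z = par u)
    (e0 : #I = #(U.filter (· j = u j))) (ut : #U ≤ t) (hN : (t + 1) ^ 2 + 10 ≤ N)
    (bu : 2 * N ^ 2 + 12 * N + 14 ≤ #(gd D P u j)) (bv : 2 * N ^ 2 + 12 * N + 14 ≤ #(gd D P v j))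
    (ih : IHo (D.erase j) b1 T (U.filter (· j = b1 j)) (par u) (par v))
    (hD : 50 * N ^ 2 + 100 + 5 * N + t + 1 ≤ #D) : Good adp (Po D b H T) P := by
  have O0 := h.ok hj h.hu
  have O1 := h.ok hj h1
  have n0 := h.card (u j)
  rw [filter_true_of_mem pI, if_pos rfl] at n0
  have x1 : (sd (insert u (insert v I)) U j (b1 j)).X = if v j = b1 j then {v} else ∅ := by
    show (insert u (insert v I)).filter (· j = b1 j) = _
    rw [filter_insert, if_neg hne, filter_insert,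
      filter_false_of_mem fun z hz => by rw [pI z hz]; exact hne]
    rfl
  set c0 := sd (insert u (insert v I)) U j (u j) with d0
  set c1 := sd (insert u (insert v I)) U j (b1 j) with d1
  have m0 : #c0.U = #(U.filter (· j = u j)) := rfl
  have u0 : #c0.U ≤ t := (card_filter_le _ _).trans ut
  have u1 : #c1.U ≤ t := (card_filter_le _ _).trans ut
  have y0 : #c0.Y = 0 := rfl
  have q0 : ∀ z ∈ insert u (insert v I) ∪ U, z j = u j → z ≠ v → par z = par u := by
    intro z hz e c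
    rcases mem_XU.mp hz with rfl | k | k
    · rfl
    · exact absurd k c
    · exact pp z k e
  have cu : ∀ q ∈ c1.U, 1 ≤ #(df (D.erase j) u q) := fun q hq => by
    have := (h.far q (mem_union_right _ (mem_filter.mp hq).1)).1
    have := df_erase_le D u q j
    omega
  have uv : 2 ≤ #(df (D.erase j) u v) := by
    have := h.uv
    have := df_erase_le D u v j
    omega
  have hu : u ∈ c0.X := mem_filter.mpr ⟨by simp, rfl⟩
  by_cases a : v j = b1 j
  · have a2 : v j ≠ u j := by rw [a]; exact hne.symm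
    rw [if_neg a2] at n0
    rw [if_pos a] at x1
    refine neuC (N := N) (t := t) hT hj h.hu h1 hne hP hS O0 O1 hu (fun z hz => ?_) (by omega) u0
      (by omega) x1 rfl u1 hN (fun q hq => ?_) (by omega) ih hD
    · have k := sd_XU hz
      exact q0 z k.1 k.2 fun e => a2 (e ▸ k.2)
    · rw [mem_B, x1, mem_singleton] at hq
      rcases hq with rfl | hq | hq
      · exact one_le_two.trans uv
      · exact cu q hq
      · exact absurd hq (notMem_empty _)
  · have a2 : v j = u j := z2_two hne.symm a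
    rw [if_pos a2] at n0
    rw [if_neg a] at x1
    refine neuD (N := N) (t := t) hT hj h.hu h1 hne hP hS O0 O1 hu (mem_filter.mpr ⟨by simp, a2⟩)
      (fun z hz => ?_) (by omega) u0 rfl x1 rfl u1 hN cu (fun q hq => ?_)
      (by rw [df_comm]; exact uv) bu (by omega) ih hD
    · have k := sd_er (fun k => h.nv (mem_union_right _ k)) hz
      exact q0 z k.1 k.2.1 k.2.2
    · have := (h.far q (mem_union_right _ (mem_filter.mp hq).1)).2
      have := df_erase_le D v q j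
      omega

/-- no target is adjacent to a hole or to a target of the other parity -/
structure G2 (D : Finset (Fin n)) (b : V n) (H T : Finset (V n)) (u v : V n)
    (U : Finset (V n)) : Prop where
  hu : u ∈ Sub D b
  hv : v ∈ Sub D b
  sub : U ⊆ Sub D b
  hH : ∀ z ∈ Sub D b, z ∈ H ↔ z = u ∨ z = v
  hT : ∀ z ∈ Sub D b, z ∈ T ↔ z ∈ U
  pr : par u ≠ par v
  f2 : ∀ x ∈ U, 2 ≤ #(df D u x) ∧ 2 ≤ #(df D v x)
  o3 : ∀ x ∈ U, ∀ y ∈ U, par x ≠ par y → 3 ≤ #(df D x y)

/-- after the conversions -/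
structure Pr0 (D : Finset (Fin n)) (b : V n) (H T : Finset (V n)) (u v : V n)
    (I U : Finset (V n)) : Prop where
  hu : u ∈ Sub D b
  hv : v ∈ Sub D b
  sub : I ∪ U ⊆ Sub D b
  hH : ∀ z ∈ Sub D b, z ∈ H ↔ z ∈ insert u (insert v I)
  hT : ∀ z ∈ Sub D b, z ∈ T ↔ z ∈ U
  dj : Disjoint I U
  far : ∀ q ∈ I ∪ U, 2 ≤ #(df D u q) ∧ 2 ≤ #(df D v q)

theorem G2.prep (h : G2 D b H T u v U) (hP : Inv (Po D b H T) P) (hS : SP (Po D b H T) P)
    (w : V n → V n) {C : Finset (V n)} (hC : C ⊆ U) (hi : Set.InjOn w C)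
    (hw : ∀ x ∈ C, adj x (w x) ∧ w x ∈ Sub D b ∧ 2 ≤ #(df D u (w x)) ∧ 2 ≤ #(df D v (w x))) :
    ∃ H' T' P', Inv (Po D b H' T') P' ∧ SP (Po D b H' T') P' ∧
      Pr0 D b H' T' u v (C.image w) (U \ C) ∧
      (∀ x l, #(gd D P x l) ≤ #(gd D P' x l) + 4 * #U ∧ #(gd D P' x l) ≤ #(gd D P x l) + 4 * #U) ∧
      (Good adp (Po D b H' T') P' → Good adp (Po D b H T) P) := by
  have k1 : ∀ x ∈ C, w x ∉ U := fun x hx c => by
    have a1 := h.o3 _ c x (hC hx) (hw x hx).1.par_ne.symm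
    have a2 := df_adj D (w x) (hw x hx).1
    rw [df_self] at a2
    omega
  obtain ⟨P', m1, m2, ⟨K, m3, m4⟩, m5⟩ := convAll hP hS w C hi fun x hx => by
    have a1 := h.sub (hC hx)
    refine ⟨a1, (h.hT x a1).mpr (hC hx), (hw x hx).1, (hw x hx).2.1, fun c => ?_,
      fun c => k1 x hx ((h.hT _ (hw x hx).2.1).mp c)⟩
    have a2 := (hw x hx).2.2
    rcases (h.hH _ (hw x hx).2.1).mp c with e | e <;> rw [e, df_self] at a2 <;> omega
  refine ⟨_, _, P', m1, m2, ⟨h.hu, h.hv, fun z hz => ?_, fun z hz => ?_, fun z hz => ?_, ?_,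
    fun z hz => ?_⟩, fun x l => ?_, m5⟩
  · rcases mem_union.mp hz with k | k
    · obtain ⟨x, hx, rfl⟩ := mem_image.mp k
      exact (hw x hx).2.1
    · exact h.sub (mem_sdiff.mp k).1
  · rw [mem_union, h.hH z hz, mem_insert, mem_insert, or_assoc]
  · rw [mem_sdiff, mem_sdiff, h.hT z hz]
  · refine disjoint_left.mpr fun z k k' => ?_
    obtain ⟨x, hx, rfl⟩ := mem_image.mp k
    exact k1 x hx (mem_sdiff.mp k').1
  · rcases mem_union.mp hz with k | k
    · obtain ⟨x, hx, rfl⟩ := mem_image.mp k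
      exact (hw x hx).2.2
    · exact h.f2 z (mem_sdiff.mp k).1
  · have a1 := gd_change (D := D) m4 x l
    have a3 := gd_change (D := D) (P := P') (P' := P) (fun p hp => (m4 p hp).symm) x l
    have a2 := card_le_card hC
    omega

theorem Pr0.pre (h : Pr0 D b H T u v I U) (uv : 3 ≤ #(df D u v))
    (o3 : ∀ x ∈ U, ∀ y ∈ U, par x ≠ par y → 3 ≤ #(df D x y))
    (rest : ∀ p ∈ I, ∀ q ∈ I ∪ U, p j = q j → par p = par q) : Pre D b H T j u v I U := by
  refine ⟨h.hu, h.hv, h.sub, h.hH, h.hT, h.dj, h.far, uv, fun p hp q hq e c => ?_⟩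
  rcases mem_union.mp hp with k | k
  · exact absurd (rest p k q hq e) c
  rcases mem_union.mp hq with k' | k'
  · exact absurd (rest q k' p hp e.symm).symm c
  · exact le_trans (by norm_num) (o3 p k q k' c)

/-- a common direction for the conversions -/
theorem G2.exg (h : G2 D b H T u v U) (i j : Fin n) (ut : #U ≤ t)
    (hD : 2 * (t + 1) ^ 2 + 2 ≤ #D) : ∃ g ∈ D, g ≠ i ∧ g ≠ j ∧
      (∀ x ∈ U, 2 ≤ #(df D u (fl x g)) ∧ 2 ≤ #(df D v (fl x g))) ∧
      ∀ x ∈ U, ∀ y ∈ U, fl x i ≠ fl y g ∧ fl x j ≠ fl y g := by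
  let f : V n → V n → Finset (Fin n) := fun z x => if #(df D x z) ≤ 2 then df D x z else ∅
  have f2 : ∀ z x, #(f z x) ≤ 2 := fun z x => by
    simp only [f]
    split_ifs with c
    · exact c
    · simp
  obtain ⟨g, hg, hb⟩ := exists_avoid (A := D) (Bd := insert i (insert j (U.biUnion fun x =>
      f u x ∪ f v x ∪ (univ.filter fun g => fl (fl x i) g ∈ U) ∪
        univ.filter fun g => fl (fl x j) g ∈ U))) (by
    have a1 := card_biUnion_le_card_mul U (fun x => f u x ∪ f v x ∪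
      (univ.filter fun g => fl (fl x i) g ∈ U) ∪ univ.filter fun g => fl (fl x j) g ∈ U)
      (2 + 2 + t + t) fun x _ => (card_union_le _ _).trans (Nat.add_le_add
        ((card_union_le _ _).trans (Nat.add_le_add ((card_union_le _ _).trans
        (Nat.add_le_add (f2 u x) (f2 v x))) ((card_hitV U _).trans ut)))
        ((card_hitV U _).trans ut))
    have a2 : #U * (2 + 2 + t + t) ≤ t * (2 + 2 + t + t) := Nat.mul_le_mul_right _ ut
    have a3 : t * (2 + 2 + t + t) + 2 = 2 * (t + 1) ^ 2 := by ring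
    refine lt_of_le_of_lt ((card_insert_le _ _).trans (Nat.add_le_add_right
      (card_insert_le _ _) _)) (by omega))
  simp only [mem_insert, mem_biUnion, mem_union, mem_filter, mem_univ, true_and, not_or,
    not_exists, not_and] at hb
  obtain ⟨k1, k2, k3⟩ := hb
  have k : ∀ z, ∀ x ∈ U, 2 ≤ #(df D z x) → g ∉ f z x → 2 ≤ #(df D z (fl x g)) := by
    intro z x _ c1 c2
    rw [df_comm] at c1 ⊢
    exact df_fl hg (by omega) fun c hh => c2 (by simp only [f, if_pos c]; exact hh)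
  exact ⟨g, hg, k1, k2, fun x hx => ⟨k u x hx (h.f2 x hx).1 (k3 x hx).1.1.1,
    k v x hx (h.f2 x hx).2 (k3 x hx).1.1.2⟩, fun x hx y hy =>
    ⟨fun e => (k3 x hx).1.2 (by rw [e, fl_fl]; exact hy),
      fun e => (k3 x hx).2 (by rw [e, fl_fl]; exact hy)⟩⟩

end Pool.Agent.Lib.MP_88ff4d_co.NP
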