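import Pool.Agent.Lib.MP_88ff4d_co.NP.MY1

/-! Both ends covered, no adjacency: induction on the number of targets. -/

set_option autoImplicit false

namespace Pool.Agent.Lib.MP_88ff4d_co.NP

open Finset

variable {n : ℕ} {D : Finset (Fin n)} {b b0 b1 : V n} {H T : Finset (V n)}
  {P : V n × Bool → V n × Bool} {j : Fin n} {N t : ℕ} {u v : V n} {U : Finset (V n)}

/-- targets whose neighbour in direction `j` is adjacent to a hole -/
def un (D : Finset (Fin n)) (u v : V n) (U : Finset (V n)) (j : Fin n) : Finset (V n) :=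
  U.filter fun x => ¬ (2 ≤ #(df D u (fl x j)) ∧ 2 ≤ #(df D v (fl x j)))

theorem stepN2 (hF : FarSt) (hL : LinkSt) (hT : TMSt) (h : G2 D b H T u v U)
    (uv : 3 ≤ #(df D u v)) (hj : j ∈ D)
    (h0 : b0 ∈ Sub D b) (h1 : b1 ∈ Sub D b) (hne : b0 j ≠ b1 j) (hP : Inv (Po D b H T) P)
    (hS : SP (Po D b H T) P)
    (bal : #(U.filter fun x => par x = par u) = #(U.filter fun x => par x = par v))
    (lt : #((U.filter fun x => par x = par u).filter (· j = b0 j)) <
      #((U.filter fun x => par x = par v).filter (· j = b0 j)))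
    (hun : #(un D u v U j) ≤ #(U.filter fun x => par x = par u) + 1) (ut : #U ≤ t)
    (hN : (t + 1) ^ 2 + 10 ≤ N) (bu : 2 * N ^ 2 + 12 * N + 14 + 4 * t ≤ #(gd D P u j))
    (bv : 2 * N ^ 2 + 12 * N + 14 + 4 * t ≤ #(gd D P v j))
    (hD : 50 * N ^ 2 + 100 + 5 * N + t + 1 ≤ #D) : Good adp (Po D b H T) P := by
  have s0 := TMx.card_sides (U.filter fun x => par x = par u) j hne
  have s1 := TMx.card_sides (U.filter fun x => par x = par v) j hne
  set A0 := (U.filter fun x => par x = par u).filter (· j = b0 j) with dA0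
  set A1 := (U.filter fun x => par x = par v).filter (· j = b0 j) with dA1
  set B0 := (U.filter fun x => par x = par u).filter (· j = b1 j) with dB0
  set B1 := (U.filter fun x => par x = par v).filter (· j = b1 j) with dB1
  have mA0 : ∀ z, z ∈ A0 ↔ (z ∈ U ∧ par z = par u) ∧ z j = b0 j := fun z => by simp [dA0]
  have mA1 : ∀ z, z ∈ A1 ↔ (z ∈ U ∧ par z = par v) ∧ z j = b0 j := fun z => by simp [dA1]
  have mB0 : ∀ z, z ∈ B0 ↔ (z ∈ U ∧ par z = par u) ∧ z j = b1 j := fun z => by simp [dB0]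
  have mB1 : ∀ z, z ∈ B1 ↔ (z ∈ U ∧ par z = par v) ∧ z j = b1 j := fun z => by simp [dB1]
  have pr := h.pr
  have c0 : #(A1 ∪ B0) = #A1 + #B0 := card_union_of_disjoint (disjoint_left.mpr fun z k k' =>
    hne (((mA1 z).mp k).2.symm.trans ((mB0 z).mp k').2))
  obtain ⟨S, hSA, hSc⟩ := exists_subset_card_eq (s := (A1 ∪ B0) \ un D u v U j)
    (n := #A1 - #A0 - 1) (by have := le_card_sdiff (un D u v U j) (A1 ∪ B0); omega)
  have s2 := TMx.card_sides S j hne
  set S1 := S.filter (· j = b0 j) with dS1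
  set S0 := S.filter (· j = b1 j) with dS0
  have mS : ∀ z ∈ S, z ∈ A1 ∨ z ∈ B0 := fun z hz => mem_union.mp (mem_sdiff.mp (hSA hz)).1
  have SU : S ⊆ U := fun z hz => (mS z hz).elim (fun k => ((mA1 z).mp k).1.1)
    fun k => ((mB0 z).mp k).1.1
  have mS1 : S1 ⊆ A1 := fun z hz => (mS z (mem_filter.mp hz).1).resolve_right fun k =>
    hne ((mem_filter.mp hz).2.symm.trans ((mB0 z).mp k).2)
  have mS0 : S0 ⊆ B0 := fun z hz => (mS z (mem_filter.mp hz).1).resolve_left fun k =>
    hne (((mA1 z).mp k).2.symm.trans (mem_filter.mp hz).2)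
  obtain ⟨g, g2, g1, -, g3, g4⟩ := h.exg j j ut (by omega)
  let w : V n → V n := fun x => if x ∈ S then fl x j else fl x g
  have w1 : ∀ x ∈ S, w x = fl x j := fun x hx => if_pos hx
  have w2 : ∀ x ∉ S, w x = fl x g := fun x hx => if_neg hx
  have wA : ∀ x ∈ A0 ∪ S0, par (w x) = par v ∧ w x j = b0 j := fun x hx => by
    rcases mem_union.mp hx with k | k
    · obtain ⟨⟨-, a1⟩, a2⟩ := (mA0 x).mp k
      rw [w2 x fun c => (mS x c).elim (fun d => pr (a1.symm.trans ((mA1 x).mp d).1.2))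
        fun d => hne (a2.symm.trans ((mB0 x).mp d).2), par_fl, a1, fl_apply_ne x g1.symm]
      exact ⟨z2_a pr, a2⟩
    · obtain ⟨⟨-, a1⟩, a2⟩ := (mB0 x).mp (mS0 k)
      rw [w1 x (mem_filter.mp k).1, par_fl, a1, fl_apply_self, a2]
      exact ⟨z2_a pr, z2_a hne.symm⟩
  have wB : ∀ x ∈ B1 ∪ S1, par (w x) = par u ∧ w x j = b1 j := fun x hx => by
    rcases mem_union.mp hx with k | k
    · obtain ⟨⟨-, a1⟩, a2⟩ := (mB1 x).mp k
      rw [w2 x fun c => (mS x c).elim (fun d => hne (((mA1 x).mp d).2.symm.trans a2))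
        fun d => pr (((mB0 x).mp d).1.2.symm.trans a1), par_fl, a1, fl_apply_ne x g1.symm]
      exact ⟨z2_a pr.symm, a2⟩
    · obtain ⟨⟨-, a1⟩, a2⟩ := (mA1 x).mp (mS1 k)
      rw [w1 x (mem_filter.mp k).1, par_fl, a1, fl_apply_self, a2]
      exact ⟨z2_a pr.symm, z2_a hne⟩
  set C := (A0 ∪ S0) ∪ (B1 ∪ S1) with dC
  have CU : C ⊆ U := union_subset (union_subset (fun z hz => ((mA0 z).mp hz).1.1)
    ((filter_subset _ _).trans SU))
    (union_subset (fun z hz => ((mB1 z).mp hz).1.1) ((filter_subset _ _).trans SU))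
  have hi : Set.InjOn w C := by
    intro x hx y hy e
    by_cases c : x ∈ S <;> by_cases c' : y ∈ S
    · rw [w1 x c, w1 y c'] at e; exact fl_left_inj j e
    · rw [w1 x c, w2 y c'] at e; exact absurd e (g4 x (CU hx) y (CU hy)).1
    · rw [w2 x c, w1 y c'] at e; exact absurd e.symm (g4 y (CU hy) x (CU hx)).1
    · rw [w2 x c, w2 y c'] at e; exact fl_left_inj g e
  have c3 : (U \ C).filter (· j = b0 j) = A1 \ S1 := by
    ext z
    simp only [dC, mem_filter, mem_sdiff, mem_union, not_or, mA0, mB1, mA1]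
    constructor
    · rintro ⟨⟨k1, ⟨k2, -⟩, -, k3⟩, k4⟩
      exact ⟨⟨⟨k1, z2_two pr fun c => k2 ⟨⟨k1, c⟩, k4⟩⟩, k4⟩, k3⟩
    · rintro ⟨⟨⟨k1, k2⟩, k3⟩, k4⟩
      exact ⟨⟨k1, ⟨fun c => pr (c.1.2.symm.trans k2),
        fun c => hne (k3.symm.trans (mem_filter.mp c).2)⟩,
        fun c => hne (k3.symm.trans c.2), k4⟩, k3⟩
  have c4 : (U \ C).filter (· j = b1 j) = B0 \ S0 := by
    ext z
    simp only [dC, mem_filter, mem_sdiff, mem_union, not_or, mA0, mB1, mB0]
    constructor
    · rintro ⟨⟨k1, ⟨-, k3⟩, k2, -⟩, k4⟩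
      exact ⟨⟨⟨k1, z2_two pr.symm fun c => k2 ⟨⟨k1, c⟩, k4⟩⟩, k4⟩, k3⟩
    · rintro ⟨⟨⟨k1, k2⟩, k3⟩, k4⟩
      exact ⟨⟨k1, ⟨fun c => hne (c.2.symm.trans k3), k4⟩, fun c => pr (k2.symm.trans c.1.2),
        fun c => hne ((mem_filter.mp c).2.symm.trans k3)⟩, k3⟩
  have pp : ∀ z ∈ C.image w ∪ U \ C,
      (z j = b0 j → par z = par v) ∧ (z j = b1 j → par z = par u) := by
    intro z hz
    rcases mem_union.mp hz with k | k
    · obtain ⟨x, hx, rfl⟩ := mem_image.mp k
      rcases mem_union.mp hx with k | k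
      · exact ⟨fun _ => (wA x k).1, fun e => absurd ((wA x k).2.symm.trans e) hne⟩
      · exact ⟨fun e => absurd (e.symm.trans (wB x k).2) hne, fun _ => (wB x k).1⟩
    · exact ⟨fun e => ((mA1 z).mp (mem_sdiff.mp (c3 ▸ mem_filter.mpr ⟨k, e⟩)).1).1.2,
        fun e => ((mB0 z).mp (mem_sdiff.mp (c4 ▸ mem_filter.mpr ⟨k, e⟩)).1).1.2⟩
  obtain ⟨H', T', P', m1, m2, m3, m4, m5⟩ := h.prep hP hS w CU hi (fun x hx => by
      have a := h.sub (CU hx)
      by_cases c : x ∈ S
      · rw [w1 x c]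
        refine ⟨adj_fl _ _, fl_mem_Sub hj a, ?_⟩
        by_contra d
        exact (mem_sdiff.mp (hSA c)).2 (mem_filter.mpr ⟨CU hx, d⟩)
      · rw [w2 x c]; exact ⟨adj_fl _ _, fl_mem_Sub g2 a, g3 x (CU hx)⟩)
  have m6 := m3.pre (j := j) uv (fun x hx y hy => h.o3 x (mem_sdiff.mp hx).1 y (mem_sdiff.mp hy).1)
    (fun p hp q hq e => by
      have a1 := pp p (mem_union_left _ hp)
      have a2 := pp q hq
      by_cases c : p j = b0 j
      · rw [a1.1 c, a2.1 (e ▸ c)]
      · rw [a1.2 (z2_two hne c), a2.2 (e ▸ z2_two hne c)])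
  have c1 : C.filter (fun x => w x j = b0 j) = A0 ∪ S0 := by
    rw [dC, filter_union, filter_true_of_mem fun x hx => (wA x hx).2,
      filter_false_of_mem fun x hx => by rw [(wB x hx).2]; exact hne.symm, union_empty]
  have c2 : C.filter (fun x => w x j = b1 j) = B1 ∪ S1 := by
    rw [dC, filter_union, filter_true_of_mem fun x hx => (wB x hx).2,
      filter_false_of_mem fun x hx => by rw [(wA x hx).2]; exact hne, empty_union]
  have c5 : #(B1 ∪ S1) = #B1 + #S1 := card_union_of_disjoint (disjoint_left.mpr fun z k k' =>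
    hne ((mem_filter.mp k').2.symm.trans ((mB1 z).mp k).2))
  have c7 : #(A0 ∪ S0) = #A0 + #S0 := card_union_of_disjoint (disjoint_left.mpr fun z k k' =>
    hne (((mA0 z).mp k).2.symm.trans (mem_filter.mp k').2))
  have c6 := card_sdiff_add_card_eq_card mS1
  have c8 := card_sdiff_add_card_eq_card mS0
  have d1 := (m4 u j).1
  have d2 := (m4 v j).1
  refine m5 (nonneu (N := N) (t := t) hF hL hT hj h0 h1 hne m1 m2 m6 pp ?_ ?_
    ((card_le_card sdiff_subset).trans ut) hN (by omega) (by omega) hD)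
  · rw [card_fi hi, c1, c3]; omega
  · rw [card_fi hi, c2, c4]; omega

/-- the induction hypothesis -/
def MXo (n N t s : ℕ) : Prop := ∀ (D : Finset (Fin n)) (b u v : V n) (H T U : Finset (V n)),
  G2 D b H T u v U → 3 ≤ #(df D u v) →
  #(U.filter fun x => par x = par u) = #(U.filter fun x => par x = par v) →
  U.Nonempty → #U ≤ s → 50 * N ^ 2 + 100 + 5 * N + t + s ≤ #D → Rob (Po D b H T)

theorem MXo.iho {s : ℕ} (ih : MXo n N t s) {πu πv : ZMod 2} (pr : πu ≠ πv)
    (bal : #(U.filter fun x => par x = πu) = #(U.filter fun x => par x = πv)) (ne : U.Nonempty)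
    (us : #U ≤ s) (hD : 50 * N ^ 2 + 100 + 5 * N + t + s ≤ #D) : IHo D b T U πu πv := by
  rintro H c u v O x rfl y rfl rfl
  have g : D \ c.Sg = D := by rw [Sg_empty y, sdiff_empty]
  have uX : u ∈ c.X := by rw [x]; simp
  have vX : v ∈ c.X := by rw [x]; simp
  have s : ∀ p ∈ c.B, ∀ q ∈ c.B, p ≠ q → 2 ≤ #(df D p q) := by rw [← g]; exact O.sep
  have bX : ∀ z ∈ c.X, z ∈ c.B := fun z hz => mem_B.mpr (Or.inl hz)
  have bU : ∀ z ∈ c.U, z ∈ c.B := fun z hz => mem_B.mpr (Or.inr (Or.inl hz))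
  have s3 : ∀ p ∈ c.B, ∀ q ∈ c.B, par p ≠ par q → 3 ≤ #(df D p q) := fun p hp q hq e =>
    df_three (O.sub hp) (O.sub hq) e (s p hp q hq fun k => e (by rw [k]))
  refine ih D b u v H T c.U ⟨O.sub (bX u uX), O.sub (bX v vX), fun z hz => O.sub (bU z hz),
    fun z hz => ?_, O.hT, pr, fun z hz => ⟨s u (bX u uX) z (bU z hz) fun e =>
      disjoint_left.mp O.dXU uX (e ▸ hz), s v (bX v vX) z (bU z hz) fun e =>
      disjoint_left.mp O.dXU vX (e ▸ hz)⟩, fun p hp q hq => s3 p (bU p hp) q (bU q hq)⟩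
    (s3 u (bX u uX) v (bX v vX) pr) bal ne us hD
  rw [O.hH z hz, x, y]
  simp

theorem sides_ne (sp : ∃ x ∈ U, ∃ y ∈ U, x j ≠ y j) (e : ZMod 2) :
    (U.filter (· j = e)).Nonempty := by
  obtain ⟨x, hx, y, hy, c⟩ := sp
  by_cases k : x j = e
  · exact ⟨x, mem_filter.mpr ⟨hx, k⟩⟩
  · exact ⟨y, mem_filter.mpr ⟨hy, (z2_two c fun e' => k e'.symm).symm⟩⟩

theorem stepZ2 (hT : TMSt) {s : ℕ} (ih : MXo n N t s) (h : G2 D b H T u v U)
    (uv : 3 ≤ #(df D u v)) (hj : j ∈ D) (hP : Inv (Po D b H T) P) (hS : SP (Po D b H T) P)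
    (bal : #(U.filter fun x => par x = par u) = #(U.filter fun x => par x = par v))
    (eq : #((U.filter fun x => par x = par u).filter (· j = u j)) =
      #((U.filter fun x => par x = par v).filter (· j = u j))) (us : #U ≤ s + 1) (ut : #U ≤ t)
    (sp : ∃ x ∈ U, ∃ y ∈ U, x j ≠ y j) (hN : (t + 1) ^ 2 + 10 ≤ N)
    (bu : 2 * N ^ 2 + 12 * N + 14 + 4 * t ≤ #(gd D P u j))
    (bv : 2 * N ^ 2 + 12 * N + 14 + 4 * t ≤ #(gd D P v j))
    (hD : 50 * N ^ 2 + 100 + 5 * N + t + s + 1 ≤ #D) : Good adp (Po D b H T) P := by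
  have h1 : fl u j ∈ Sub D b := fl_mem_Sub hj h.hu
  have hne : u j ≠ fl u j j := by rw [fl_apply_self]; exact (z2_ne _).symm
  generalize fl u j = b1 at h1 hne
  have pr := h.pr
  have a3 := card_erase_of_mem hj
  have s0 := TMx.card_sides (U.filter fun x => par x = par u) j hne
  have s1 := TMx.card_sides (U.filter fun x => par x = par v) j hne
  have s2 := TMx.card_sides U j hne
  have s3 := card_pos.mpr (sides_ne sp (u j))
  have k4 : N ≤ N ^ 2 := Nat.le_self_pow two_ne_zero N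
  set C := (U.filter fun x => par x = par v).filter (· j = u j) with dC
  have mC : ∀ z, z ∈ C ↔ (z ∈ U ∧ par z = par v) ∧ z j = u j := fun z => by simp [dC]
  obtain ⟨g, g2, g1, -, g3, -⟩ := h.exg j j ut (by omega)
  have CU : C ⊆ U := fun z hz => ((mC z).mp hz).1.1
  have pI : ∀ z ∈ C.image (fl · g), z j = u j ∧ par z = par u := fun z hz => by
    obtain ⟨x, hx, rfl⟩ := mem_image.mp hz
    obtain ⟨⟨-, a1⟩, a2⟩ := (mC x).mp hx
    rw [par_fl, a1, fl_apply_ne x g1.symm]
    exact ⟨a2, z2_a pr.symm⟩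
  have pp : ∀ z ∈ C.image (fl · g) ∪ U \ C, z j = u j → par z = par u := fun z hz e => by
    rcases mem_union.mp hz with k | k
    · exact (pI z k).2
    · obtain ⟨k1, k2⟩ := mem_sdiff.mp k
      exact z2_two pr.symm fun c => k2 ((mC z).mpr ⟨⟨k1, c⟩, e⟩)
  obtain ⟨H', T', P', m1, m2, m3, m4, m5⟩ := h.prep hP hS (fl · g) CU
    (fl_left_inj g).injOn (fun x hx => ⟨adj_fl _ _, fl_mem_Sub g2 (h.sub (CU hx)), g3 x (CU hx)⟩)
  have m6 := m3.pre (j := j) uv (fun x hx y hy => h.o3 x (mem_sdiff.mp hx).1 y (mem_sdiff.mp hy).1)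
    (fun p hp q hq e => by rw [(pI p hp).2, pp q hq (e ▸ (pI p hp).1)])
  have c1 : (U \ C).filter (· j = u j) = (U.filter fun x => par x = par u).filter (· j = u j) := by
    ext z
    simp only [mem_filter, mem_sdiff, mC]
    constructor
    · rintro ⟨⟨k1, k2⟩, k3⟩
      exact ⟨⟨k1, z2_two pr.symm fun c => k2 ⟨⟨k1, c⟩, k3⟩⟩, k3⟩
    · rintro ⟨⟨k1, k2⟩, k3⟩
      exact ⟨⟨k1, fun c => pr (k2.symm.trans c.1.2)⟩, k3⟩
  have c2 : (U \ C).filter (· j = b1 j) = U.filter (· j = b1 j) := by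
    ext z
    simp only [mem_filter, mem_sdiff, mC]
    exact ⟨fun k => ⟨k.1.1, k.2⟩, fun k => ⟨⟨k.1, fun c => hne (c.2.symm.trans k.2)⟩, k.2⟩⟩
  have d1 := (m4 u j).1
  have d2 := (m4 v j).1
  refine m5 (neutral2 (N := N) (t := t) hT hj h1 hne m1 m2 m6 (fun z hz => (pI z hz).1) pp ?_
    ((card_le_card sdiff_subset).trans ut) hN (by omega) (by omega) ?_ (by omega))
  · rw [card_image_of_injective _ (fl_left_inj g), c1, eq]
  · rw [c2]
    refine ih.iho pr ?_ (sides_ne sp _) (by omega) (by omega)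
    rw [filter_comm, filter_comm (fun x : V n => x j = b1 j)]
    omega

theorem uns {A : Finset (Fin n)} {y x : V n} (h : 2 ≤ #(df A y x)) (h' : ¬ 2 ≤ #(df A y (fl x j))) :
    j ∈ df A y x ∧ #(df A y x) = 2 := by
  have a := df_adj A y (adj_fl x j)
  refine ⟨by_contra fun c => h' (h.trans (card_le_card fun i hi => ?_)), by omega⟩
  obtain ⟨c1, c2⟩ := mem_df.mp hi
  exact mem_df.mpr ⟨c1, by rwa [fl_apply_ne x fun e : i = j => c (e ▸ hi)]⟩

theorem eq_of_df {y x x' : V n} (hx : x ∈ Sub D b) (hx' : x' ∈ Sub D b)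
    (e : df D y x = df D y x') : x = x' := by
  funext i
  by_cases c : i ∈ D
  · by_cases d : y i = x i
    · have : i ∉ df D y x' := e ▸ fun k => (mem_df.mp k).2 d
      rw [← d]
      by_contra k
      exact this (mem_df.mpr ⟨c, k⟩)
    · have := (mem_df.mp (e ▸ mem_df.mpr ⟨c, d⟩ : i ∈ df D y x')).2
      exact z2_two this fun k => d k.symm
  · rw [mem_Sub.mp hx i c, mem_Sub.mp hx' i c]

theorem G2.un_two (h : G2 D b H T u v U) {i : Fin n} (hij : i ≠ j) :
    #(un D u v U i) + #(un D u v U j) ≤ #U + 2 := by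
  have ev : ∀ y ∈ Sub D b, ∀ x ∈ U, #(df D y x) = 2 → par x = par y := fun y hy x hx e => by
    by_contra c
    have := df_three hy (h.sub hx) (Ne.symm c) e.ge
    omega
  have k : ∀ x ∈ U, ∀ l, x ∈ un D u v U l → ∃ y, (y = u ∨ y = v) ∧ par x = par y ∧
      l ∈ df D y x ∧ #(df D y x) = 2 := fun x hx l hl => by
    rcases not_and_or.mp (mem_filter.mp hl).2 with c | c
    · have a := uns (h.f2 x hx).1 c
      exact ⟨u, Or.inl rfl, ev u h.hu x hx a.2, a⟩
    · have a := uns (h.f2 x hx).2 c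
      exact ⟨v, Or.inr rfl, ev v h.hv x hx a.2, a⟩
  have same : ∀ y y' : V n, (y = u ∨ y = v) → (y' = u ∨ y' = v) → par y = par y' → y = y' := by
    rintro y y' (rfl | rfl) (rfl | rfl) e
    · rfl
    · exact absurd e h.pr
    · exact absurd e.symm h.pr
    · rfl
  have k2 : ∀ x ∈ un D u v U i ∩ un D u v U j, ∃ y, (y = u ∨ y = v) ∧ par x = par y ∧
      df D y x = {i, j} := fun x hx => by
    obtain ⟨c1, c2⟩ := mem_inter.mp hx
    obtain ⟨y, a1, a2, a3, a4⟩ := k x (mem_filter.mp c1).1 i c1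
    obtain ⟨y', a5, a6, a7, -⟩ := k x (mem_filter.mp c1).1 j c2
    obtain rfl := same y y' a1 a5 (a2.symm.trans a6)
    exact ⟨y, a1, a2, (eq_of_subset_of_card_le (insert_subset a3 (singleton_subset_iff.mpr a7))
      (by rw [card_pair hij, a4])).symm⟩
  have a1 := card_union_add_card_inter (un D u v U i) (un D u v U j)
  have a2 : #(un D u v U i ∪ un D u v U j) ≤ #U :=
    card_le_card (union_subset (filter_subset _ _) (filter_subset _ _))
  have a3 : #(un D u v U i ∩ un D u v U j) ≤ #(univ : Finset (ZMod 2)) :=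
    card_le_card_of_injOn par (fun _ _ => mem_coe.mpr (mem_univ _)) fun x hx x' hx' e => by
      obtain ⟨y, c1, c2, c3⟩ := k2 x hx
      obtain ⟨y', c4, c5, c6⟩ := k2 x' hx'
      obtain rfl := same y y' c1 c4 (c2.symm.trans (e.trans c5))
      exact eq_of_df (h.sub (mem_filter.mp (mem_inter.mp hx).1).1)
        (h.sub (mem_filter.mp (mem_inter.mp hx').1).1) (c3.trans c6.symm)
  rw [card_univ, ZMod.card] at a3
  omega

/-- directions that separate two targets -/
def Jd (D : Finset (Fin n)) (U : Finset (V n)) : Finset (Fin n) :=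
  D.filter fun j => ∃ x ∈ U, ∃ y ∈ U, x j ≠ y j

theorem G2.card_J (h : G2 D b H T u v U)
    (bal : #(U.filter fun x => par x = par u) = #(U.filter fun x => par x = par v))
    (ne : U.Nonempty) : #U = 2 * #(U.filter fun x => par x = par u) ∧ 3 ≤ #(Jd D U) ∧
      (2 ≤ #(U.filter fun x => par x = par u) → 4 ≤ #(Jd D U)) := by
  have a0 := card_filter_add_card_filter_not (s := U) (fun x => par x = par u)
  have a1 : U.filter (fun x => ¬ par x = par u) = U.filter fun x => par x = par v :=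
    filter_congr fun x _ => ⟨z2_two h.pr, fun e e' => h.pr (e'.symm.trans e)⟩
  rw [a1] at a0
  have a2 := card_pos.mpr ne
  obtain ⟨x, hx⟩ := card_pos.mp (by omega : 0 < #(U.filter fun x => par x = par u))
  obtain ⟨x1, x2⟩ := mem_filter.mp hx
  have k : ∀ y ∈ U.filter fun x => par x = par v, df D x y ⊆ Jd D U ∧ 3 ≤ #(df D x y) :=
    fun y hy => ⟨fun i hi => mem_filter.mpr ⟨(mem_df.mp hi).1, x, x1, y, (mem_filter.mp hy).1,
      (mem_df.mp hi).2⟩, h.o3 x x1 y (mem_filter.mp hy).1 (by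
        rw [x2, (mem_filter.mp hy).2]; exact h.pr)⟩
  obtain ⟨y, hy⟩ := card_pos.mp (by omega : 0 < #(U.filter fun x => par x = par v))
  refine ⟨by omega, (k y hy).2.trans (card_le_card (k y hy).1), fun c => ?_⟩
  obtain ⟨y, hy, y', hy', d⟩ := one_lt_card.mp (by omega : 1 < #(U.filter fun x => par x = par v))
  by_contra e
  exact d (eq_of_df (h.sub (mem_filter.mp hy).1) (h.sub (mem_filter.mp hy').1)
    ((eq_of_subset_of_card_le (k y hy).1 (by have := (k y hy).2; omega)).trans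
      (eq_of_subset_of_card_le (k y' hy').1 (by have := (k y' hy').2; omega)).symm))

theorem mxo (hF : FarSt) (hL : LinkSt) (hT : TMSt) (hN : (t + 1) ^ 2 + 10 ≤ N) :
    ∀ s ≤ t, MXo n N t s := by
  intro s
  induction s with
  | zero =>
    intro _ D b u v H T U _ _ _ ne us _
    have := card_pos.mpr ne
    omega
  | succ s ih =>
    intro hs D b u v H T U h uv bal ne us hD P hP hS
    obtain ⟨a1, a2, a3⟩ := h.card_J bal ne
    obtain ⟨j, hj, hb⟩ := exists_avoid (A := Jd D U) (Bd := bk D P u ∪ bk D P v ∪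
        univ.filter fun j => #(U.filter fun x => par x = par u) + 1 < #(un D u v U j)) (by
      have k2 := card_union_le (bk D P u) (bk D P v)
      have k3 := bk_le (D := D) (P := P) u
      have k4 := bk_le (D := D) (P := P) v
      refine lt_of_le_of_lt (card_union_le _ _) ?_
      by_cases c : 2 ≤ #(U.filter fun x => par x = par u)
      · have k5 : #(univ.filter fun j =>
            #(U.filter fun x => par x = par u) + 1 < #(un D u v U j)) ≤ 1 :=
          card_le_one.mpr fun i hi j hj => by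
            by_contra d
            have := h.un_two d
            have := (mem_filter.mp hi).2
            have := (mem_filter.mp hj).2
            omega
        have := a3 c
        omega
      · rw [filter_false_of_mem fun j _ => by
          have : #(un D u v U j) ≤ #U := card_filter_le _ _
          omega, card_empty]
        omega)
    obtain ⟨j1, j2⟩ := mem_filter.mp hj
    simp only [mem_union, bk, mem_filter, mem_univ, true_and, not_or, not_lt] at hb
    have sq : (t + 1) ^ 2 = t ^ 2 + 2 * t + 1 := by ring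
    have k4 : N ≤ N ^ 2 := Nat.le_self_pow two_ne_zero N
    have bu : 2 * N ^ 2 + 12 * N + 14 + 4 * t ≤ #(gd D P u j) := by omega
    have bv : 2 * N ^ 2 + 12 * N + 14 + 4 * t ≤ #(gd D P v j) := by omega
    have h1 : fl u j ∈ Sub D b := fl_mem_Sub j1 h.hu
    have hne : u j ≠ fl u j j := by rw [fl_apply_self]; exact (z2_ne _).symm
    have s0 := TMx.card_sides (U.filter fun x => par x = par u) j hne
    have s1 := TMx.card_sides (U.filter fun x => par x = par v) j hne
    rcases lt_trichotomy #((U.filter fun x => par x = par u).filter (· j = u j))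
      #((U.filter fun x => par x = par v).filter (· j = u j)) with c | c | c
    · exact stepN2 (N := N) (t := t) hF hL hT h uv j1 h.hu h1 hne hP hS bal c hb.2 (by omega) hN
        bu bv (by omega)
    · exact stepZ2 (N := N) (t := t) hT (ih (by omega)) h uv j1 hP hS bal c us (by omega)
        j2 hN bu bv (by omega)
    · exact stepN2 (N := N) (t := t) hF hL hT h uv j1 h1 h.hu hne.symm hP hS bal (by omega) hb.2
        (by omega) hN bu bv (by omega)

end Pool.Agent.Lib.MP_88ff4d_co.NP
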