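import Pool.Agent.Lib.MP_88ff4d_co.NP.Cfg

/-! Nearly perfect matchings: closing a domino to a square, moving a hole across a direction. -/

set_option autoImplicit false

namespace Pool.Agent.Lib.MP_88ff4d_co.NP

open Finset

variable {n : ℕ} {D : Finset (Fin n)} {b : V n} {H T : Finset (V n)}
  {P : V n × Bool → V n × Bool}

/-- the problem `(H, P)` is reduced to `(H', P')`; at most `κ` values change, none on `F` -/
def Red (D : Finset (Fin n)) (b : V n) (T H : Finset (V n)) (P : V n × Bool → V n × Bool)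
    (H' : Finset (V n)) (P' : V n × Bool → V n × Bool) (F : Finset (V n × Bool)) (κ : ℕ) : Prop :=
  Inv (Po D b H' T) P' ∧ SP (Po D b H' T) P' ∧
    (∃ K : Finset (V n × Bool), #K ≤ κ ∧ (∀ p ∉ K, P' p = P p) ∧ ∀ p ∈ F, p ∉ K) ∧
    F ⊆ Po D b H' T ∧ (Good adp (Po D b H' T) P' → Good adp (Po D b H T) P)

theorem Red.trans {H1 H2 : Finset (V n)} {P1 P2 : V n × Bool → V n × Bool}
    {F : Finset (V n × Bool)} {κ κ' : ℕ} (h : Red D b T H P H1 P1 F κ)
    (h' : Red D b T H1 P1 H2 P2 F κ') : Red D b T H P H2 P2 F (κ + κ') := by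
  obtain ⟨-, -, ⟨K, k1, k2, k3⟩, -, k4⟩ := h
  obtain ⟨c1, c2, ⟨K', c3, c4, c5⟩, c6, c7⟩ := h'
  refine ⟨c1, c2, ⟨K ∪ K', (card_union_le _ _).trans (by omega), fun p hp => ?_, fun p hp => ?_⟩,
    c6, fun h => k4 (c7 h)⟩
  · rw [mem_union, not_or] at hp
    rw [c4 p hp.2, k2 p hp.1]
  · rw [mem_union, not_or]
    exact ⟨k3 p hp, c5 p hp⟩

theorem Red.eq {H1 : Finset (V n)} {P1 : V n × Bool → V n × Bool} {F : Finset (V n × Bool)}
    {κ : ℕ} (h : Red D b T H P H1 P1 F κ) : ∀ p ∈ F, P1 p = P p := by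
  obtain ⟨-, -, ⟨K, -, k2, k3⟩, -⟩ := h
  exact fun p hp => k2 p (k3 p hp)

theorem Red.cl {H1 : Finset (V n)} {P1 : V n × Bool → V n × Bool} {F : Finset (V n × Bool)}
    {κ : ℕ} (h : Red D b T H P H1 P1 F κ) (hF : Cl F P) : Cl F P1 := fun p hp => by
  rw [h.eq p hp]; exact hF p hp

theorem Red.gd_le {H1 : Finset (V n)} {P1 : V n × Bool → V n × Bool} {F : Finset (V n × Bool)}
    {κ : ℕ} (h : Red D b T H P H1 P1 F κ) (A : Finset (Fin n)) (x : V n) (l : Fin n) :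
    #(gd A P x l) ≤ #(gd A P1 x l) + κ := by
  obtain ⟨-, -, ⟨K, k1, k2, -⟩, -⟩ := h
  have := gd_change (D := A) k2 x l
  omega

theorem edgeR (hP : Inv (Po D b H T) P) (hS : SP (Po D b H T) P) {u w : V n} (hu : u ∈ Sub D b)
    (hw : w ∈ Sub D b) (huH : u ∉ H ∧ u ∉ T) (hwH : w ∉ H ∧ w ∉ T) (h : adj u w)
    (hn : P (u, false) ≠ (w, false)) {F : Finset (V n × Bool)} (hF : F ⊆ Po D b H T)
    (hc : Cl F P) (h1 : (u, false) ∉ F) (h2 : (w, false) ∉ F) :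
    ∃ P', Red D b T H P (insert u (insert w H)) P' F 4 := by
  obtain ⟨P', k1, k2, k3, k4⟩ := edgeH hP hS hu hw huH.1 hwH.1 huH.2 hwH.2 h hn
  refine ⟨P', k1, k2, ⟨{(u, false), (w, false), P (u, false), P (w, false)}, card_le_four,
    fun p hp => ?_, fun p hp => ?_⟩, fun p hp => ?_, k4⟩
  · simp only [mem_insert, mem_singleton, not_or] at hp
    exact k3 p hp.1 hp.2.1 hp.2.2.1 hp.2.2.2
  · simp only [mem_insert, mem_singleton, not_or]
    have c := hc p hp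
    refine ⟨fun e => h1 (e ▸ hp), fun e => h2 (e ▸ hp), fun e => h1 ?_, fun e => h2 ?_⟩
    · rwa [e, (hP _ (mem_Po_f.mpr ⟨hu, huH.1⟩)).2.2] at c
    · rwa [e, (hP _ (mem_Po_f.mpr ⟨hw, hwH.1⟩)).2.2] at c
  · rw [Po_insert2]
    simp only [mem_sdiff, mem_insert, mem_singleton, not_or]
    exact ⟨hF hp, fun e => h1 (e ▸ hp), fun e => h2 (e ▸ hp)⟩

theorem exists_avoid {A Bd : Finset (Fin n)} (h : #Bd < #A) : ∃ g ∈ A, g ∉ Bd :=
  exists_mem_notMem_of_card_lt_card h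

theorem fl_fl_ne (x : V n) {l m : Fin n} (h : m ≠ l) : fl (fl x m) l ≠ x := fun e => by
  have := congrFun e m
  rw [fl_apply_ne _ h, fl_apply_self] at this
  exact z2_ne _ this

/-- a domino hole `{x, x^l}` on one side becomes a square hole -/
theorem closeSq {j : Fin n} {b0 : V n} (hj : j ∈ D) (h0 : b0 ∈ Sub D b) (hP : Inv (Po D b H T) P)
    (hS : SP (Po D b H T) P) {H0 : Finset (V n)} {c : Cf n} (O : Ok (D.erase j) b0 H0 T c)
    {Z : Finset (Fin n)} (hZ : Z ⊆ D.erase j \ c.Sg)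
    (hs : ∀ p ∈ c.B, ∀ q ∈ c.B, p ≠ q → 2 ≤ #(df Z p q)) {x : V n} (hx : x ∈ c.X) {l : Fin n}
    (hl : l ∈ D.erase j \ c.Sg) (hlZ : l ∉ Z)
    (hH : ∀ z ∈ Sub (D.erase j) b0, z ∈ H ↔ z = fl x l ∨ z ∈ H0) {F : Finset (V n × Bool)}
    (hF : F ⊆ Po D b H T) (hc : Cl F P) (W : Finset (Fin n))
    (big : #Z + #c.Sg + #W + 2 * #F < #(gd (D.erase j) P x l)) :
    ∃ m H' P', m ∉ W ∧ Ok (D.erase j) b0 H' T (c.toSq x l m) ∧
      (∀ z, z j ≠ b0 j → (z ∈ H' ↔ z ∈ H)) ∧ Red D b T H P H' P' F 4 := by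
  obtain ⟨m, hm, hb⟩ := exists_avoid (A := gd (D.erase j) P x l) (Bd := Z ∪ c.Sg ∪ W ∪
      (univ.filter fun g => (fl x g, false) ∈ F) ∪ univ.filter fun g => (fl (fl x l) g, false) ∈ F)
    (by
      have h1 := card_hit F x
      have h2 := card_hit F (fl x l)
      refine lt_of_le_of_lt ((card_union_le _ _).trans (Nat.add_le_add ((card_union_le _ _).trans
        (Nat.add_le_add ((card_union_le _ _).trans (Nat.add_le_add_right (card_union_le _ _) _))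
        h1)) h2)) (by omega))
  simp only [mem_union, mem_filter, mem_univ, true_and, not_or] at hb
  obtain ⟨⟨⟨⟨b1, b2⟩, b3⟩, b4⟩, b5⟩ := hb
  obtain ⟨m1, m2, m3⟩ := mem_filter.mp hm
  have hxS : x ∈ Sub (D.erase j) b0 := O.sub (mem_B.mpr (Or.inl hx))
  have l1 := (mem_sdiff.mp hl).1
  have u1 : fl x m ∈ Sub (D.erase j) b0 := fl_mem_Sub m1 hxS
  have w1 : fl (fl x m) l ∈ Sub (D.erase j) b0 := fl_mem_Sub l1 u1
  have u2 := O.near hZ hs hx u1 (fl_ne x m) fun i hi => fl_apply_ne x fun e => b1 (e ▸ hi)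
  have w2 := O.near hZ hs hx w1 (fl_fl_ne x m2) fun i hi => by
    rw [fl_apply_ne _ fun e : i = l => hlZ (e ▸ hi), fl_apply_ne x fun e : i = m => b1 (e ▸ hi)]
  obtain ⟨u3, u4⟩ := (mem_Sub_erase h0 hj).mp u1
  obtain ⟨w3, w4⟩ := (mem_Sub_erase h0 hj).mp w1
  obtain ⟨P', R⟩ := edgeR hP hS u3 w3
    ⟨fun h => ((hH _ u1).mp h).elim (fun e => m2 (fl_inj x e)) u2.1, u2.2⟩
    ⟨fun h => ((hH _ w1).mp h).elim (fun e => fl_ne x m (fl_left_inj l e)) w2.1, w2.2⟩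
    (adj_fl _ _) m3 hF hc b4 (by rwa [fl_comm])
  refine ⟨m, _, P', b3, O.toSq hZ hs hx hl (mem_sdiff.mpr ⟨m1, b2⟩) m2.symm hlZ b1 fun z hz => ?_,
    fun z hz => ?_, R⟩
  · simp only [mem_insert, hH z hz]
    tauto
  · simp only [mem_insert]
    exact ⟨fun h => h.elim (fun e => absurd (e ▸ u4) hz) fun h => h.elim
      (fun e => absurd (e ▸ w4) hz) id, fun h => Or.inr (Or.inr h)⟩

/-- blocked directions at `x` -/
def bk (D : Finset (Fin n)) (P : V n × Bool → V n × Bool) (x : V n) : Finset (Fin n) :=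
  univ.filter fun l => 2 * #(gd D P x l) + 2 < #D

theorem bk_le (x : V n) : #(bk D P x) ≤ 1 := by
  rw [card_le_one]
  intro l hl l' hl'
  by_contra h
  have := gd_cover (D := D) (P := P) x h
  have := (mem_filter.mp hl).2
  have := (mem_filter.mp hl').2
  omega

theorem df_fl {A : Finset (Fin n)} {x q : V n} {l : Fin n} (hl : l ∈ A) (h1 : 1 ≤ #(df A x q))
    (h2 : #(df A x q) ≤ 2 → l ∉ df A x q) : 2 ≤ #(df A (fl x l) q) := by
  have k : (df A x q).erase l ⊆ df A (fl x l) q := fun i hi => by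
    obtain ⟨c1, c2⟩ := mem_erase.mp hi
    exact mem_df.mpr ⟨(mem_df.mp c2).1, by rw [fl_apply_ne x c1]; exact (mem_df.mp c2).2⟩
  by_cases c : l ∈ df A x q
  · have := card_le_card k
    rw [card_erase_of_mem c] at this
    by_contra hh
    exact h2 (by omega) c
  · have k2 : insert l (df A x q) ⊆ df A (fl x l) q := by
      rw [erase_eq_of_notMem c] at k
      refine insert_subset (mem_df.mpr ⟨hl, ?_⟩) k
      have e : x l = q l := by
        by_contra hh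
        exact c (mem_df.mpr ⟨hl, hh⟩)
      rw [fl_apply_self, e]
      exact z2_ne _
    have := card_le_card k2
    rw [card_insert_of_notMem c] at this
    omega

/-- a hole crosses direction `j` and leaves a square behind -/
theorem move {j : Fin n} {b0 b1 : V n} (hj : j ∈ D) (h0 : b0 ∈ Sub D b) (h1 : b1 ∈ Sub D b)
    (hne : b0 j ≠ b1 j) (hP : Inv (Po D b H T) P) (hS : SP (Po D b H T) P) {c0 c1 : Cf n}
    (O0 : Ok (D.erase j) b0 H T c0) (O1 : Ok (D.erase j) b1 H T c1) {x : V n} (hx : x ∈ c0.X)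
    (cr : ∀ q ∈ c1.B ∪ c0.X, q ≠ x → 1 ≤ #(df (D.erase j \ c1.Sg) x q)) {N : ℕ}
    (n0 : #c0.B ≤ N) (n1 : #c1.B ≤ N) {F : Finset (V n × Bool)} (hF : F ⊆ Po D b H T)
    (hc : Cl F P) (hF2 : #F ≤ 2) (big : 2 * N ^ 2 + 8 * N + 6 ≤ #(gd D P x j))
    (hd : 4 * N ^ 2 + 4 * N + 22 ≤ #D) :
    ∃ x' l m H' P', Ok (D.erase j) b0 H' T (c0.toSq x l m) ∧
      Ok (D.erase j) b1 H' T (c1.addX x') ∧ x' ∉ c1.B ∧ par x' = par x ∧
      (∀ q ∈ c0.X, q ≠ x → 1 ≤ #(df (D.erase j \ c1.Sg) q x')) ∧ Red D b T H P H' P' F 8 := by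
  obtain ⟨Z, z1, z2, z3⟩ := O0.prot
  have y0 : #c0.Y ≤ N := (card_le_card subset_union_right).trans n0
  have y1 : #c1.Y ≤ N := (card_le_card subset_union_right).trans n1
  have x0 : #c0.X ≤ N := (card_le_card (subset_union_left.trans subset_union_left)).trans n0
  have s0 := card_Sg_le (c := c0)
  have s1 := card_Sg_le (c := c1)
  have z4 : #Z ≤ 2 * N ^ 2 := z2.trans (Nat.mul_le_mul_left _ (Nat.pow_le_pow_left n0 2))
  set A := D.erase j \ c1.Sg with hA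
  set Bd := (c1.B ∪ c0.X).biUnion fun q => if #(df A x q) ≤ 2 then df A x q else ∅ with hBd
  have d1 : #Bd ≤ #(c1.B ∪ c0.X) * 2 := card_biUnion_le_card_mul _ _ 2 fun q _ => by
    split_ifs with c
    · exact c
    · simp
  have d2 := card_union_le c1.B c0.X
  obtain ⟨l, hl, hb⟩ := exists_avoid (A := gd D P x j) (Bd := Z ∪ c0.Sg ∪ c1.Sg ∪ Bd ∪
      bk (D.erase j) P x ∪ (univ.filter fun g => (fl x g, false) ∈ F) ∪
      univ.filter fun g => (fl (fl x j) g, false) ∈ F) (by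
    have h1 := card_hit F x
    have h2 := card_hit F (fl x j)
    have h3 := bk_le (D := D.erase j) (P := P) x
    refine lt_of_le_of_lt ((card_union_le _ _).trans (Nat.add_le_add ((card_union_le _ _).trans
      (Nat.add_le_add ((card_union_le _ _).trans (Nat.add_le_add ((card_union_le _ _).trans
      (Nat.add_le_add ((card_union_le _ _).trans (Nat.add_le_add_right (card_union_le _ _) _))
      d1)) h3)) h1)) h2)) (by omega))
  simp only [mem_union, mem_filter, mem_univ, true_and, not_or, bk, not_lt] at hb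
  obtain ⟨⟨⟨⟨⟨⟨b1', b2⟩, b3⟩, b4⟩, b5⟩, b6⟩, b7⟩ := hb
  obtain ⟨l1, l2, l3⟩ := mem_filter.mp hl
  have l4 : l ∈ D.erase j := mem_erase.mpr ⟨l2, l1⟩
  have hxS : x ∈ Sub (D.erase j) b0 := O0.sub (mem_B.mpr (Or.inl hx))
  have a1 : fl x l ∈ Sub (D.erase j) b0 := fl_mem_Sub l4 hxS
  obtain ⟨a2, a3⟩ := (mem_Sub_erase h0 hj).mp a1
  have a4 := O0.near z1 z3 hx a1 (fl_ne x l) fun i hi => fl_apply_ne x fun e => b1' (e ▸ hi)
  have e1 : fl (fl x l) j j = b1 j := by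
    rw [fl_apply_self, a3]
    exact z2_two hne (z2_ne _)
  have e2 : fl (fl x l) j ∈ Sub (D.erase j) b1 := (mem_Sub_erase h1 hj).mpr ⟨fl_mem_Sub hj a2, e1⟩
  have far : ∀ q ∈ c1.B ∪ c0.X, q ≠ x → 2 ≤ #(df A (fl (fl x l) j) q) := by
    intro q hq hqx
    rw [df_congr (p' := fl x l) fun i hi =>
      fl_apply_ne _ (mem_erase.mp (mem_sdiff.mp hi).1).1]
    refine df_fl (mem_sdiff.mpr ⟨l4, b3⟩) (cr q hq hqx) fun c hh => b4 ?_
    exact mem_biUnion.mpr ⟨q, hq, by rw [if_pos c]; exact hh⟩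
  have far1 : ∀ q ∈ c1.B, 2 ≤ #(df A (fl (fl x l) j) q) := fun q hq =>
    far q (mem_union_left _ hq) fun e => hne (((mem_Sub_erase h0 hj).mp hxS).2.symm.trans
      (e ▸ ((mem_Sub_erase h1 hj).mp (O1.sub hq)).2))
  obtain ⟨f1, f2⟩ := O1.normal2 e2 fun q hq => one_le_two.trans (far1 q hq)
  obtain ⟨P1, R1⟩ := edgeR hP hS a2 (fl_mem_Sub hj a2) a4 f2 (adj_fl _ _) l3 hF hc b6
    (by rwa [fl_comm])
  have g1 := R1.gd_le (D.erase j) x l
  have g2 := card_erase_of_mem hj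
  obtain ⟨m, H', P', -, k1, k2, R2⟩ := closeSq hj h0 R1.1 R1.2.1 O0 z1 z3 hx
    (mem_sdiff.mpr ⟨l4, b2⟩) b1' (fun z hz => by
      simp only [mem_insert]
      refine ⟨fun h => h.elim Or.inl fun h => h.elim (fun e => absurd ?_ hne) Or.inr,
        fun h => h.elim Or.inl fun h => Or.inr (Or.inr h)⟩
      rw [← e1, ← e, ((mem_Sub_erase h0 hj).mp hz).2]) R1.2.2.2.1 (R1.cl hc) ∅
    (by rw [card_empty]; omega)
  refine ⟨_, l, m, H', P', k1, O1.addX e2 far1 fun z hz => ?_, f1, ?_, fun q hq hqx => ?_,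
    R1.trans R2⟩
  · have c := ((mem_Sub_erase h1 hj).mp hz).2
    rw [k2 z (by rw [c]; exact hne.symm)]
    simp only [mem_insert]
    exact ⟨fun h => h.elim (fun e => absurd (by rw [← a3, ← e, c]) hne) id, Or.inr⟩
  · rw [par_fl, par_fl, add_assoc]
    simp [CharTwo.add_self_eq_zero]
  · rw [df_comm]
    exact one_le_two.trans (far q (mem_union_right _ hq) hqx)

end Pool.Agent.Lib.MP_88ff4d_co.NP
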