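import Pool.Agent.Lib.MP_88ff4d_co.NP.CD1
import Pool.Agent.Lib.MP_88ff4d_co.NP.CD2
import Pool.Agent.Lib.MP_88ff4d_co.NP.CD3
import Pool.Agent.Lib.MP_88ff4d_co.NP.CD4

/-! Every pairing of the 5-cube minus a square closes to one cycle. -/

set_option autoImplicit false

namespace Pool.Agent.Lib.MP_88ff4d_co.NP

open Finset Cert

theorem sq5_st : SQ5St := by
  unfold SQ5St
  rw [← St_full]
  refine ⟨by decide +kernel, fun P hP => ?_⟩
  have hl : ∀ L ∈ lib, ∀ x ∈ L, G P (St x) := fun L hL x hx =>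
    G_of_fk (fk_of_cube (List.all_eq_true.mp (List.all_eq_true.mp lib_ok L hL) x hx))
  have h7 : vx 7 ∈ St full := by decide +kernel
  have key : ∀ t cv, chk lib t [] full 7 cv = true → (P (vx 7) ∈ St cv → G P (St full)) →
      G P (St full) := fun t cv h =>
    chk_ok hP hl t [] full 7 cv h (fun _ hm => absurd hm List.not_mem_nil) subset_rfl
      (fun x hx => (hP x hx).1) (by norm_num) h7
  have hG : G P (St full) := key _ _ ok1 fun h1 => key _ _ ok2 fun h2 => key _ _ ok3 fun h3 =>
    key _ _ ok4 fun h4 => by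
      have h5 := mem_inter.mpr ⟨mem_inter.mpr ⟨h1, h2⟩, mem_inter.mpr ⟨h3, h4⟩⟩
      rw [← St_land, ← St_land, ← St_land] at h5
      have e : Nat.land (Nat.land 4294967248 4294967216) (Nat.land 4294965984 1520) = bt 7 := by
        decide +kernel
      rw [e, St_bt (by norm_num)] at h5
      exact absurd (mem_singleton.mp h5) (hP _ h7).2.1
  exact hG.2 P hP fun _ _ _ => rfl

end Pool.Agent.Lib.MP_88ff4d_co.NP
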