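import Pool.Agent.Lib.MP_88ff4d_co.NP.Link

/-! Nearly perfect matchings: a cube minus several squares. -/

set_option autoImplicit false

namespace Pool.Agent.Lib.MP_88ff4d_co.NP

open Finset

/-- at most `q` squares in dimension at least `d` -/
def SR (n q d : ℕ) : Prop := ∀ (D : Finset (Fin n)) (b : V n) (H T : Finset (V n)) (c : Cf n),
  Ok D b H T c → c.X = ∅ → c.U = ∅ → #c.Y ≤ q → d ≤ #D → Rob (Po D b H T)

variable {n q d : ℕ} {D : Finset (Fin n)} {b : V n} {H T : Finset (V n)}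
  {P : V n × Bool → V n × Bool} {c : Cf n}

theorem card_filter_lt_of {α : Type*} {s : Finset α} {p : α → Prop} [DecidablePred p] {y : α}
    (hy : y ∈ s) (h : ¬ p y) : #(s.filter p) + 1 ≤ #s :=
  card_lt_card (filter_ssubset.mpr ⟨y, hy, h⟩)

theorem Y_sub (O : Ok D b H T c) {y : V n} (hy : y ∈ c.Y) : y ∈ Sub D b :=
  O.sub (mem_B.mpr (Or.inr (Or.inr hy)))

theorem even_sq (O : Ok D b H T c) (hX : c.X = ∅) (hU : c.U = ∅) (hD : 1 ≤ #D) :
    Even #(Po D b H T) := by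
  rw [O.even_iff hD, hX, hU]; simp

theorem lemB (IH : SR n q d) (hd1 : 1 ≤ d) (O : Ok D b H T c) (hX : c.X = ∅) (hU : c.U = ∅)
    (hY : #c.Y ≤ q + 1) (hd : d + 1 ≤ #D) {j : Fin n} (hj : j ∈ D \ c.Sg) {y1 y2 : V n}
    (h1 : y1 ∈ c.Y) (h2 : y2 ∈ c.Y) (hne : y1 j ≠ y2 j) (hP : Inv (Po D b H T) P)
    (hS : SP (Po D b H T) P) (hx : ∃ p ∈ Po D b H T, (P p).1 j ≠ p.1 j) :
    Good adp (Po D b H T) P := by
  obtain ⟨j1, j2⟩ := mem_sdiff.mp hj
  have cd := card_erase_of_mem j1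
  have O1 := O.res j1 j2 (Y_sub O h1)
  have O2 := O.res j1 j2 (Y_sub O h2)
  have c1 := card_filter_lt_of (p := fun y => y j = y1 j) h2 hne.symm
  have c2 := card_filter_lt_of (p := fun y => y j = y2 j) h1 hne
  exact split j1 (Y_sub O h1) (Y_sub O h2) hne hP hS
    (even_sq O1 (by simp [Cf.res, hX]) (by simp [Cf.res, hU]) (by omega)) hx
    (IH _ _ _ _ _ O1 (by simp [Cf.res, hX]) (by simp [Cf.res, hU]) (by
      change #(c.Y.filter _) ≤ q; omega) (by omega))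
    (IH _ _ _ _ _ O2 (by simp [Cf.res, hX]) (by simp [Cf.res, hU]) (by
      change #(c.Y.filter _) ≤ q; omega) (by omega))

theorem finA (IH : SR n q d) (hd1 : 1 ≤ d) {α i : Fin n} {b0 b1 : V n} (hj : α ∈ D)
    (h0 : b0 ∈ Sub D b) (h1 : b1 ∈ Sub D b) (hne : b0 α ≠ b1 α) {c0 c1 : Cf n}
    (O0 : Ok (D.erase α) b0 H T c0) (O1 : Ok (D.erase α) b1 H T c1) (X0 : c0.X = ∅)
    (U0 : c0.U = ∅) (X1 : c1.X = ∅) (U1 : c1.U = ∅) (hP : Inv (Po D b H T) P)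
    (hS : SP (Po D b H T) P) {p1 p2 : V n × Bool} (m1 : p1 ∈ Po D b H T) (m2 : p2 ∈ Po D b H T)
    (x1 : (P p1).1 α ≠ p1.1 α) (x2 : (P p2).1 α ≠ p2.1 α) (r1 : (P p1).1 i = p1.1 i)
    (r2 : (P p2).1 i = p2.1 i) (hi : p1.1 i ≠ p2.1 i) (hi0 : i ∈ D.erase α \ c0.Sg)
    (Y1 : #c1.Y ≤ q) (Y0 : #c0.Y ≤ q ∨ (#c0.Y ≤ q + 1 ∧ ∃ w ∈ c0.Y, ∃ w' ∈ c0.Y, w i ≠ w' i))
    (hd : d + 2 ≤ #D) : Good adp (Po D b H T) P := by
  have cd := card_erase_of_mem hj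
  have key : ∀ p ∈ Po D b H T, (P p).1 α ≠ p.1 α → (P p).1 i = p.1 i →
      ∃ p' ∈ Po (D.erase α) b0 H T, P p' ∉ Po (D.erase α) b0 H T ∧ p'.1 i = p.1 i := by
    intro p c1 c2 c3
    by_cases e : p.1 α = b0 α
    · exact ⟨p, (mem_side h0 hj).mpr ⟨c1, e⟩,
        fun hh => c2 (((mem_side h0 hj).mp hh).2.trans e.symm), rfl⟩
    · refine ⟨P p, (mem_side h0 hj).mpr ⟨(hP p c1).1, z2_two e c2⟩, fun hh => e ?_, c3⟩
      rw [(hP p c1).2.2] at hh
      exact ((mem_side h0 hj).mp hh).2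
  obtain ⟨a1, k1, k2, k3⟩ := key p1 m1 x1 r1
  obtain ⟨a2, k4, k5, k6⟩ := key p2 m2 x2 r2
  have k7 : a1.1 i ≠ a2.1 i := by rw [k3, k6]; exact hi
  obtain ⟨P0, e1, e2, e3⟩ := exists_P0' hP (side_sub h0 hj) (even_sq O0 X0 U0 (by omega)) k1 k4
    (fun e => k7 (by rw [e])) k2 k5
  refine splitQ hj h0 h1 hne hP hS e2 (fun s => ?_) ⟨p1, m1, x1⟩
    (IH _ _ _ _ _ O1 X1 U1 Y1 (by omega))
  rcases Y0 with Y0 | ⟨Y0, w, w1, w', w2, w3⟩
  · exact IH _ _ _ _ _ O0 X0 U0 Y0 (by omega) P0 e1 s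
  · exact lemB IH hd1 O0 X0 U0 Y0 (by omega) hi0 w1 w2 w3 e1 s ⟨a1, k1, by rw [e3]; exact k7.symm⟩

/-- two pairs across `α` in different fibres -/
def Rich (S : Finset (V n × Bool)) (P : V n × Bool → V n × Bool) (Δ : Finset (Fin n))
    (α : Fin n) : Prop :=
  ∃ p1 ∈ S, ∃ p2 ∈ S, ∃ i ∈ Δ, p1.1 i ≠ p2.1 i ∧ (P p1).1 α ≠ p1.1 α ∧ (P p2).1 α ≠ p2.1 α

theorem cutfin (IH : SR n q d) (hd1 : 1 ≤ d) (O : Ok D b H T c) (hX : c.X = ∅) (hU : c.U = ∅)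
    (hY : #c.Y ≤ q + 1) {N : ℕ} (hN : q + 1 ≤ N) (hd : d + 2 ≤ #D) {Δ : Finset (Fin n)}
    (hΔ : Δ ⊆ D \ c.Sg) {w w' : V n} (hw : w ∈ c.Y) (hw' : w' ∈ c.Y) (hww : ∀ i ∈ Δ, w i ≠ w' i)
    (hP : Inv (Po D b H T) P) (hS : SP (Po D b H T) P)
    (rig : ∀ p ∈ Po D b H T, ∀ i ∈ Δ, (P p).1 i = p.1 i) {y z : V n} (hy : y ∈ c.Y)
    {α β : Fin n} (hab : (α = c.l y ∧ β = c.m y) ∨ (α = c.m y ∧ β = c.l y))
    (hz : z ∈ Sub {α, β} y) (hwy : w ≠ y) (hwz : w α = z α) (hr : Rich (Po D b H T) P Δ α)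
    (g0 : 2 * N ^ 2 + 2 * N + 14 ≤ #(gd (D.erase α) P z β))
    (g1 : 2 * N ^ 2 + 2 * N + 14 ≤ #(gd (D.erase α) P (fl z α) β)) :
    Good adp (Po D b H T) P := by
  obtain ⟨p1, m1, p2, m2, i, hi, k1, k2, k3⟩ := hr
  have F1 : ({p1, P p1, p2, P p2} : Finset (V n × Bool)) ⊆ Po D b H T :=
    insert_subset m1 (insert_subset (hP _ m1).1 (insert_subset m2
      (singleton_subset_iff.mpr (hP _ m2).1)))
  have F2 : Cl {p1, P p1, p2, P p2} P := by
    intro t ht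
    simp only [mem_insert, mem_singleton] at ht ⊢
    rcases ht with rfl | rfl | rfl | rfl
    · tauto
    · rw [(hP _ m1).2.2]; tauto
    · tauto
    · rw [(hP _ m2).2.2]; tauto
  obtain ⟨g, g', H', P', e1, -, O0, O1, R⟩ := cut O hX hU hy hab hz hP hS (hY.trans hN) F1 F2
    card_le_four i g0 g1
  obtain ⟨Z, z1, -, z3⟩ := O.prot
  obtain ⟨a1, a2, a3, -⟩ := unsq O hX hU hy hab hz z1 z3
  obtain ⟨i1, i2⟩ := mem_sdiff.mp (hΔ hi)
  have aS : α ∈ c.Sg := mem_Sg.mpr ⟨y, hy, by tauto⟩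
  have bS : β ∈ c.Sg := mem_Sg.mpr ⟨y, hy, by tauto⟩
  have iα : i ≠ α := fun e => i2 (e ▸ aS)
  have iβ : i ≠ β := fun e => i2 (e ▸ bS)
  have hne : z α ≠ fl z α α := by rw [fl_apply_self]; exact (z2_ne _).symm
  have q1 := R.eq p1 (by simp)
  have q2 := R.eq p2 (by simp)
  have ce := card_erase_add_one hy
  have wE : w ∈ c.Y.erase y := mem_erase.mpr ⟨hwy, hw⟩
  have mem0 : ∀ t ∈ c.Y.erase y, t α = z α → t ∈ ((c.half y z α).toSq z β g).Y := fun t h1 h2 =>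
    mem_insert_of_mem (mem_filter.mpr ⟨h1, h2⟩)
  have c0 : #((c.half y z α).toSq z β g).Y ≤ #((c.Y.erase y).filter (· α = z α)) + 1 :=
    card_insert_le _ _
  have c1 : #((c.half y (fl z α) α).toSq (fl z α) β g').Y ≤
      #((c.Y.erase y).filter (· α = fl z α α)) + 1 := card_insert_le _ _
  have c2 := card_filter_lt_of (p := fun t => t α = fl z α α) wE (by rw [hwz]; exact hne)
  have c3 := card_filter_le (c.Y.erase y) (fun t => t α = z α)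
  refine R.2.2.2.2 (finA (i := i) IH hd1 a2 a1 (fl_mem_Sub a2 a1) hne O0 O1
    (by simp [Cf.toSq, Cf.half]) rfl (by simp [Cf.toSq, Cf.half]) rfl R.1 R.2.1
    (R.2.2.2.1 (by simp)) (R.2.2.2.1 (by simp)) (q1 ▸ k2) (q2 ▸ k3) (q1 ▸ rig _ m1 i hi)
    (q2 ▸ rig _ m2 i hi) k1 ?_ (by omega) ?_ hd)
  · rw [toSq_Sg (disjoint_left.mp a3.dXY (mem_singleton_self _))]
    simp only [mem_sdiff, mem_erase, mem_insert, not_or]
    refine ⟨⟨iα, i1⟩, iβ, e1.symm, fun h => i2 ?_⟩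
    obtain ⟨t, t1, t2⟩ := mem_Sg.mp h
    exact mem_Sg.mpr ⟨t, mem_of_mem_erase (mem_filter.mp t1).1, t2⟩
  · by_cases e : w' = y
    · refine Or.inr ⟨by omega, w, mem0 w wE hwz, z, mem_insert_self _ _, ?_⟩
      rw [mem_Sub.mp hz i (by simp [iα, iβ]), ← e]
      exact hww i hi
    · have wE' : w' ∈ c.Y.erase y := mem_erase.mpr ⟨e, hw'⟩
      by_cases e' : w' α = z α
      · exact Or.inr ⟨by omega, w, mem0 w wE hwz, w', mem0 w' wE' e', hww i hi⟩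
      · have := card_filter_lt_of (p := fun t => t α = z α) wE' e'
        exact Or.inl (by omega)

theorem cutfin' (IH : SR n q d) (hd1 : 1 ≤ d) (O : Ok D b H T c) (hX : c.X = ∅) (hU : c.U = ∅)
    (hY : #c.Y ≤ q + 1) {N : ℕ} (hN : q + 1 ≤ N) (hd : d + 2 ≤ #D) {Δ : Finset (Fin n)}
    (hΔ : Δ ⊆ D \ c.Sg) {w w' : V n} (hw : w ∈ c.Y) (hw' : w' ∈ c.Y) (hww : ∀ i ∈ Δ, w i ≠ w' i)
    (hP : Inv (Po D b H T) P) (hS : SP (Po D b H T) P)
    (rig : ∀ p ∈ Po D b H T, ∀ i ∈ Δ, (P p).1 i = p.1 i) {y z : V n} (hy : y ∈ c.Y)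
    {α β : Fin n} (hab : (α = c.l y ∧ β = c.m y) ∨ (α = c.m y ∧ β = c.l y))
    (hz : z ∈ Sub {α, β} y) (hr : Rich (Po D b H T) P Δ α)
    (g0 : 2 * N ^ 2 + 2 * N + 14 ≤ #(gd (D.erase α) P z β))
    (g1 : 2 * N ^ 2 + 2 * N + 14 ≤ #(gd (D.erase α) P (fl z α) β)) :
    Good adp (Po D b H T) P := by
  have key : ∀ w ∈ c.Y, ∀ w' ∈ c.Y, (∀ i ∈ Δ, w i ≠ w' i) → w ≠ y → Good adp (Po D b H T) P := by
    intro w hw w' hw' hww hwy
    by_cases e : w α = z α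
    · exact cutfin IH hd1 O hX hU hY hN hd hΔ hw hw' hww hP hS rig hy hab hz hwy e hr g0 g1
    · exact cutfin IH hd1 O hX hU hY hN hd hΔ hw hw' hww hP hS rig hy hab
        (fl_mem_Sub (i := α) (by simp) hz) hwy (by rw [fl_apply_self]; exact z2_eq e) hr g1
        (by rwa [fl_fl])
  by_cases e : w = y
  · obtain ⟨_, -, _, -, i, hi, -⟩ := hr
    exact key w' hw' w hw (fun i hi => (hww i hi).symm) fun e' => hww i hi (by rw [e, e'])
  · exact key w hw w' hw' hww e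

theorem pow_big {δ : ℕ} (h : 7 ≤ δ) : 8 * δ + 32 < 2 ^ δ := by
  induction δ, h using Nat.le_induction with
  | base => norm_num
  | succ k _ ih => rw [pow_succ]; omega

theorem lemC (IH : SR n q d) (hd1 : 1 ≤ d) (O : Ok D b H T c) (hX : c.X = ∅) (hU : c.U = ∅)
    (hY : #c.Y ≤ q + 1) {N : ℕ} (hN : q + 1 ≤ N) (hd : d + 2 ≤ #D) (hD : 50 * N ^ 2 + 90 ≤ #D)
    {Δ : Finset (Fin n)} (hΔ : Δ ⊆ D \ c.Sg) (hΔ2 : #D ≤ 4 * #Δ + 16) {y0 y1 : V n}
    (h0 : y0 ∈ c.Y) (h1 : y1 ∈ c.Y) (hyy : ∀ i ∈ Δ, y0 i ≠ y1 i) : Rob (Po D b H T) := by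
  intro P hP hS
  by_cases rig : ∃ i ∈ Δ, ∃ p ∈ Po D b H T, (P p).1 i ≠ p.1 i
  · obtain ⟨i, hi, hx⟩ := rig
    exact lemB IH hd1 O hX hU hY (by omega) (hΔ hi) h0 h1 (hyy i hi) hP hS hx
  replace rig : ∀ p ∈ Po D b H T, ∀ i ∈ Δ, (P p).1 i = p.1 i := fun p hp i hi => by
    by_contra hh
    exact rig ⟨i, hi, p, hp, hh⟩
  have NN : N ≤ N ^ 2 := Nat.le_self_pow two_ne_zero N
  have hol := O.holes
  rw [hX, card_empty] at hol
  have noT : ∀ z ∈ Sub D b, z ∉ T := fun z hz h => by simpa [hU] using (O.hT z hz).mp h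
  have ΔD : Δ ⊆ D := hΔ.trans sdiff_subset
  have sub : Sub Δ y0 ⊆ Sub D b := fun z hz => mem_Sub.mpr fun i hi =>
    (mem_Sub.mp hz i fun h => hi (ΔD h)).trans (mem_Sub.mp (Y_sub O h0) i hi)
  obtain ⟨α, aD, hr⟩ : ∃ α ∈ D, Rich (Po D b H T) P Δ α := by
    obtain ⟨g0, -⟩ := card_pos.mp (by omega : 0 < #D)
    have k : ∀ z : V n, ∃ g : Fin n, z ∈ (Sub Δ y0).filter (· ∉ H) →
        g ∈ D ∧ (P (z, false)).1 g ≠ z g := by
      intro z
      by_cases hz : z ∈ (Sub Δ y0).filter (· ∉ H)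
      · obtain ⟨c1, c2⟩ := mem_filter.mp hz
        obtain ⟨c3, c4, -⟩ := hP _ (mem_Po_f.mpr ⟨sub c1, c2⟩)
        have c5 : (P (z, false)).1 ≠ z := fun e => by
          rcases hb : P (z, false) with ⟨t, _ | _⟩
          · rw [hb] at e c4
            exact c4 (Prod.ext e rfl)
          · rw [hb] at c3
            exact noT t (mem_Po_t.mp c3).1 (mem_Po_t.mp c3).2
        obtain ⟨g, hg⟩ := Function.ne_iff.mp c5
        refine ⟨g, fun _ => ⟨?_, hg⟩⟩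
        by_contra hh
        exact hg ((mem_Sub.mp (Po_sub c3) g hh).trans (mem_Sub.mp (sub c1) g hh).symm)
      · exact ⟨g0, fun h => absurd h hz⟩
    choose μ hμ using k
    have c1 := card_filter_add_card_filter_not (s := Sub Δ y0) (· ∈ H)
    have c2 : #((Sub Δ y0).filter (· ∈ H)) ≤ #((Sub D b).filter (· ∈ H)) :=
      card_le_card (filter_subset_filter _ sub)
    have c3 := pow_big (δ := #Δ) (by omega)
    rw [card_Sub] at c1
    obtain ⟨z1, k1, z2, k2, k3, k4⟩ := exists_ne_map_eq_of_card_lt_of_maps_to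
      (s := (Sub Δ y0).filter (· ∉ H)) (t := D) (by omega) (f := μ) fun z hz => (hμ z hz).1
    obtain ⟨i, hi⟩ := Function.ne_iff.mp k3
    obtain ⟨d1, d2⟩ := mem_filter.mp k1
    obtain ⟨d3, d4⟩ := mem_filter.mp k2
    refine ⟨μ z1, (hμ z1 k1).1, (z1, false), mem_Po_f.mpr ⟨sub d1, d2⟩, (z2, false),
      mem_Po_f.mpr ⟨sub d3, d4⟩, i, ?_, hi, (hμ z1 k1).2, k4 ▸ (hμ z2 k2).2⟩
    by_contra hh
    exact hi ((mem_Sub.mp d1 i hh).trans (mem_Sub.mp d3 i hh).symm)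
  by_cases aS : α ∈ c.Sg
  swap
  · obtain ⟨p1, m1, p2, m2, i, hi, k1, k2, k3⟩ := hr
    have s1 := Y_sub O h1
    have hne : y1 α ≠ fl y1 α α := by rw [fl_apply_self]; exact (z2_ne _).symm
    have c1 := card_filter_lt_of (p := fun t => t α = fl y1 α α) h1 hne
    have c2 := card_filter_le c.Y (fun t => t α = y1 α)
    obtain ⟨i1, i2⟩ := mem_sdiff.mp (hΔ hi)
    refine finA (i := i) IH hd1 aD s1 (fl_mem_Sub aD s1) hne (O.res aD aS s1)
      (O.res aD aS (fl_mem_Sub aD s1)) (by simp [Cf.res, hX]) (by simp [Cf.res, hU])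
      (by simp [Cf.res, hX]) (by simp [Cf.res, hU]) hP hS m1 m2 k2 k3 (rig _ m1 i hi)
      (rig _ m2 i hi) k1 (mem_sdiff.mpr ⟨mem_erase.mpr ⟨fun e => k2 (e ▸ rig _ m1 i hi), i1⟩,
        fun h => i2 (res_Sg _ _ h)⟩) (by change #(c.Y.filter _) ≤ q; omega) ?_ hd
    by_cases e : y0 α = y1 α
    · exact Or.inr ⟨c2.trans hY, y0, mem_filter.mpr ⟨h0, e⟩, y1, mem_filter.mpr ⟨h1, rfl⟩, hyy i hi⟩
    · have := card_filter_lt_of (p := fun t => t α = y1 α) h0 e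
      exact Or.inl (by change #(c.Y.filter _) ≤ q; omega)
  obtain ⟨y, hy, β, hab⟩ : ∃ y ∈ c.Y, ∃ β, (α = c.l y ∧ β = c.m y) ∨ (α = c.m y ∧ β = c.l y) := by
    obtain ⟨y, hy, e | e⟩ := mem_Sg.mp aS
    · exact ⟨y, hy, _, Or.inl ⟨e, rfl⟩⟩
    · exact ⟨y, hy, _, Or.inr ⟨e, rfl⟩⟩
  by_cases big : ∀ z ∈ Sub {α, β} y, 2 * N ^ 2 + 2 * N + 14 ≤ #(gd (D.erase α) P z β)
  · exact cutfin' IH hd1 O hX hU hY hN hd hΔ h0 h1 hyy hP hS rig hy hab (self_mem_Sub _ _) hr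
      (big _ (self_mem_Sub _ _)) (big _ (fl_mem_Sub (by simp) (self_mem_Sub _ _)))
  push Not at big
  obtain ⟨z, hz, sm⟩ := big
  have lm := (O.lm y hy y hy).1
  have ab : α ≠ β := by rcases hab with ⟨rfl, rfl⟩ | ⟨rfl, rfl⟩; exacts [lm, lm.symm]
  have bS : β ∈ c.Sg := mem_Sg.mpr ⟨y, hy, by tauto⟩
  have zS : z ∈ Sub D b := mem_Sub.mpr fun i hi => (mem_Sub.mp hz i (by
    simp only [mem_insert, mem_singleton, not_or]
    exact ⟨fun e => hi (e ▸ aD), fun e => hi (e ▸ O.sg bS)⟩)).trans (mem_Sub.mp (Y_sub O hy) i hi)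
  set Bd := gd (D.erase α) P z β ∪ univ.filter fun g => fl z g ∈ (Sub D b).filter (· ∈ H) with hBd
  have b1 : #Bd ≤ #(gd (D.erase α) P z β) + #((Sub D b).filter (· ∈ H)) :=
    card_un le_rfl (card_hitV _ z)
  have rg : ∀ g ∈ Δ \ Bd, g ∈ D ∧ g ≠ α ∧ g ≠ β ∧ (fl z g, false) ∈ Po D b H T ∧
      P (fl z g, false) = (fl (fl z g) β, false) := by
    intro g hg
    obtain ⟨k1, k2⟩ := mem_sdiff.mp hg
    obtain ⟨k3, k4⟩ := mem_sdiff.mp (hΔ k1)
    have k5 : g ≠ α := fun e => k4 (e ▸ aS)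
    have k6 : g ≠ β := fun e => k4 (e ▸ bS)
    simp only [hBd, gd, mem_union, mem_filter, mem_univ, true_and, not_or, not_and, not_not] at k2
    exact ⟨k3, k5, k6, mem_Po_f.mpr ⟨fl_mem_Sub k3 zS, k2.2 (fl_mem_Sub k3 zS)⟩,
      k2.1 (mem_erase.mpr ⟨k5, k3⟩) k6⟩
  have b2 := le_card_sdiff Bd Δ
  have cr : ∀ g ∈ Δ \ Bd, (P (fl z g, false)).1 β ≠ fl z g β := fun g hg => by
    rw [(rg g hg).2.2.2.2]
    change fl (fl z g) β β ≠ _
    rw [fl_apply_self]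
    exact z2_ne _
  have N2 : 2 ≤ N := by
    obtain ⟨_, -, _, -, i, hi, -⟩ := hr
    have : 1 < #c.Y := one_lt_card.mpr ⟨y0, h0, y1, h1, fun e => hyy i hi (by rw [e])⟩
    omega
  have N3 : 2 * N ≤ N ^ 2 := by rw [sq]; exact Nat.mul_le_mul_right N N2
  have b3 : 2 * N ^ 2 + 2 * N + 14 ≤ #(Δ \ Bd) := by omega
  obtain ⟨h, k1, h', k2, k3⟩ := one_lt_card.mp (by omega : 1 < #(Δ \ Bd))
  refine cutfin' (α := β) (β := α) (z := z) IH hd1 O hX hU hY hN hd hΔ h0 h1 hyy hP hS rig hy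
    (by tauto) (by rwa [pair_comm]) ⟨_, (rg h k1).2.2.2.1, _, (rg h' k2).2.2.2.1, h,
      (mem_sdiff.mp k1).1, ?_, cr h k1, cr h' k2⟩
    (le_trans b3 (card_le_card fun g hg => ?_))
    (le_trans b3 (card_le_card fun g hg => ?_))
  · change fl z h h ≠ fl z h' h
    rw [fl_apply_self, fl_apply_ne z k3]
    exact z2_ne _
  · obtain ⟨c1, c2, c3, -, c5⟩ := rg g hg
    refine mem_filter.mpr ⟨mem_erase.mpr ⟨c3, c1⟩, c2, ?_⟩
    rw [c5]
    exact fun e => ab (fl_inj _ (congrArg Prod.fst e)).symm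
  · obtain ⟨c1, c2, c3, c4, c5⟩ := rg g hg
    refine mem_filter.mpr ⟨mem_erase.mpr ⟨c3, c1⟩, c2, ?_⟩
    rw [fl_comm z β g, ← c5, (hP _ c4).2.2]
    exact fun e => fl_fl_ne _ ab.symm (congrArg Prod.fst e).symm

theorem sqm_st (hSQ : SQSt) (hF : FarSt) (hL : LinkSt) : SQMSt := by
  intro n N q
  suffices h : q ≤ N → SR n q (50 * N ^ 2 + 100 + 3 * q) from
    fun D b H T c O hX hU hY hq hd => h hq D b H T c O hX hU hY hd
  have small : ∀ (D : Finset (Fin n)) (b : V n) (H T : Finset (V n)) (c : Cf n), Ok D b H T c →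
      c.X = ∅ → c.U = ∅ → #c.Y ≤ 1 → 5 ≤ #D → Rob (Po D b H T) := by
    intro D b H T c O hX hU hY hd
    have noT : ∀ z ∈ Sub D b, z ∉ T := fun z hz h => by simpa [hU] using (O.hT z hz).mp h
    rcases c.Y.eq_empty_or_nonempty with e | ⟨y, hy⟩
    · exact rob_of_fk noT (fun z => ⟨fun hz => ⟨hz, fun h => by
        simpa [hX, e] using (O.hH z hz).mp h⟩, fun h => h.1⟩) (fink D (card_pos.mp (by omega)) b)
    · refine rob_of_fk noT (fun z => ?_) (hSQ n D b y (c.l y) (c.m y) hd (Y_sub O hy)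
        (O.sg (mem_Sg.mpr ⟨y, hy, Or.inl rfl⟩)) (O.sg (mem_Sg.mpr ⟨y, hy, Or.inr rfl⟩))
        (O.lm y hy y hy).1)
      rw [mem_sdiff]
      refine and_congr_right fun hz => not_congr ?_
      rw [O.hH z hz, hX]
      refine ⟨fun h => Or.inr ⟨y, hy, h⟩, ?_⟩
      rintro (h | ⟨y', k1, k2⟩)
      · simp at h
      · rwa [card_le_one.mp hY y' k1 y hy] at k2
  induction q with
  | zero => exact fun _ D b H T c O hX hU hY hd => small D b H T c O hX hU (by omega) (by omega)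
  | succ q ih =>
    intro hq D b H T c O hX hU hY hd
    replace ih := ih (by omega)
    by_cases h1 : #c.Y ≤ 1
    · exact small D b H T c O hX hU h1 (by omega)
    obtain ⟨y1, k1, y2, k2, k3⟩ := one_lt_card.mp (by omega : 1 < #c.Y)
    have sY : ∀ w ∈ c.Y, w ∈ c.B := fun w hw => mem_B.mpr (Or.inr (Or.inr hw))
    obtain ⟨j, hj⟩ := card_pos.mp (lt_of_lt_of_le two_pos (O.sep y1 (sY _ k1) y2 (sY _ k2) k3))
    obtain ⟨j0, hne⟩ := mem_df.mp hj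
    obtain ⟨j1, j2⟩ := mem_sdiff.mp j0
    intro P hP hS
    by_cases hx : ∃ p ∈ Po D b H T, (P p).1 j ≠ p.1 j
    · exact lemB ih (by omega) O hX hU hY (by omega) j0 k1 k2 hne hP hS hx
    push Not at hx
    have NN : N ≤ N ^ 2 := Nat.le_self_pow two_ne_zero N
    have cd := card_erase_of_mem j1
    have s0 := card_Sg_le (c := c)
    have s1 := le_card_sdiff c.Sg D
    have s2 := card_erase_of_mem j0
    set A := (D \ c.Sg).erase j with hA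
    obtain ⟨a, a1, a2⟩ := hF n c.Y (fun t => 2 + (if t = y1 then #D / 4 else 0) +
        if t = y2 then #D / 4 else 0) A y1 (by
      rw [sum_add_distrib, sum_add_distrib, sum_ite_eq', sum_ite_eq', if_pos k1, if_pos k2,
        sum_const, smul_eq_mul]
      omega)
    have AD : ∀ e, A ⊆ D.erase j \ (c.res j e).Sg := fun e i hi => by
      obtain ⟨c1, c2⟩ := mem_erase.mp hi
      obtain ⟨c3, c4⟩ := mem_sdiff.mp c2
      exact mem_sdiff.mpr ⟨mem_erase.mpr ⟨c1, c3⟩, fun h => c4 (res_Sg _ _ h)⟩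
    have BY : ∀ e, ∀ t ∈ (c.res j e).B, t ∈ c.Y.filter (· j = e) := fun e t ht => by
      simpa [mem_B, Cf.res, hX, hU] using ht
    have fA : ∀ t, df A (fl a j) t = df A a t :=
      df_congr fun i hi => fl_apply_ne a (mem_erase.mp hi).1
    have O1 := O.res j1 j2 (Y_sub O k1)
    have O2 := O.res j1 j2 (Y_sub O k2)
    have c1 := card_filter_lt_of (p := fun y => y j = y1 j) k2 hne.symm
    have c2 := card_filter_lt_of (p := fun y => y j = y2 j) k1 hne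
    have c3 := card_le_card (BY (y1 j))
    have c4 := card_le_card (BY (y2 j))
    obtain ⟨l, m, m', H', P', -, -, -, g0, g1, A0, A1, hP', hS', hx', hG⟩ := hL n N D b y1 y2 a H T
      P j _ _ ∅ j1 (Y_sub O k1) (Y_sub O k2) hne hP hS O1 O2
      (even_sq O1 (by simp [Cf.res, hX]) (by simp [Cf.res, hU]) (by omega)) hx
      (mem_Sub.mpr fun i hi => a1 i fun h => hi (mem_sdiff.mp (AD 0 h)).1)
      (fun t ht => le_trans (le_trans (by omega) (a2 t (mem_filter.mp (BY _ t ht)).1))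
        (df_mono (AD _) a t))
      (fun t ht => le_trans (le_trans (by omega) ((a2 t (mem_filter.mp (BY _ t ht)).1).trans
        (congrArg card (fA t)).ge)) (df_mono (AD _) _ t)) (by omega) (by omega) (by simp) (by omega)
    have side : ∀ (b' a' y' : V n) (m' : Fin n), y' ∈ c.Y → a' ∉ (c.res j (y' j)).B →
        Ok (D.erase j) b' H' T (((c.res j (y' j)).addX a').toSq a' l m') →
        #(c.Y.filter (· j = y' j)) ≤ q → 2 + #D / 4 ≤ #(df A a' y') →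
        Even #(Po (D.erase j) b' H' T) ∧ Rob (Po (D.erase j) b' H' T) := by
      intro b' a' y' m' e1 e2 e3 e4 e5
      have X0 : (((c.res j (y' j)).addX a').toSq a' l m').X = ∅ := by
        simp [Cf.toSq, Cf.addX, Cf.res, hX]
      have U0 : (((c.res j (y' j)).addX a').toSq a' l m').U = ∅ := by
        simp [Cf.toSq, Cf.addX, Cf.res, hU]
      have e6 := le_card_sdiff {l, m'} (df A a' y')
      have e7 := card_le_two (a := l) (b := m')
      refine ⟨even_sq e3 X0 U0 (by omega), lemC ih (by omega) e3 X0 U0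
        ((card_insert_le _ _).trans (Nat.add_le_add_right e4 1)) hq (by omega) (by omega)
        (Δ := df A a' y' \ {l, m'}) (fun i hi => ?_) (by omega) (mem_insert_self _ _)
        (mem_insert_of_mem (mem_filter.mpr ⟨e1, rfl⟩))
        fun i hi => (mem_df.mp (mem_sdiff.mp hi).1).2⟩
      rw [toSq_Sg (c := (c.res j (y' j)).addX a') fun h => e2 (mem_B.mpr (Or.inr (Or.inr h)))]
      obtain ⟨d1, d2⟩ := mem_sdiff.mp hi
      obtain ⟨d3, d4⟩ := mem_sdiff.mp (AD (y' j) (mem_df.mp d1).1)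
      simp only [mem_insert, mem_singleton, not_or] at d2
      exact mem_sdiff.mpr ⟨d3, by
        simp only [mem_insert, not_or]
        exact ⟨d2.1, d2.2, d4⟩⟩
    have t1 := side y1 a y1 m k1 g0 A0 (by omega) (le_trans (by simp) (a2 y1 k1))
    have t2 := side y2 (fl a j) y2 m' k2 g1 A1 (by omega) (by
      rw [fA]; exact le_trans (by simp) (a2 y2 k2))
    exact hG (split j1 (Y_sub O k1) (Y_sub O k2) hne hP' hS' t1.1 hx' t1.2 t2.2)

end Pool.Agent.Lib.MP_88ff4d_co.NP
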