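import Pool.Agent.Lib.MP_88ff4d_co.Main

/-! Nearly perfect matchings: definitions and the statements of the parts. -/

set_option autoImplicit false

namespace Pool.Agent.Lib.MP_88ff4d_co.NP

open Finset

variable {n : ℕ}

/-- adjacency of ports -/
def adp (p q : V n × Bool) : Prop := adj p.1 q.1

/-- live ports of a subcube: a hole (`H`) has none, a target (`T`) has two -/
def Po (D : Finset (Fin n)) (b : V n) (H T : Finset (V n)) : Finset (V n × Bool) :=
  univ.filter fun p => p.1 ∈ Sub D b ∧ (if p.2 = true then p.1 ∈ T else p.1 ∉ H)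

/-- the two ports of a target are paired -/
def SP (S : Finset (V n × Bool)) (P : V n × Bool → V n × Bool) : Prop :=
  ∀ v, (v, true) ∈ S → P (v, true) = (v, false)

/-- every pairing closes to one cycle -/
def Rob (S : Finset (V n × Bool)) : Prop := ∀ P, Inv S P → SP S P → Good adp S P

/-- directions of `A` in which two points differ -/
def df (A : Finset (Fin n)) (p q : V n) : Finset (Fin n) := A.filter fun i => p i ≠ q i

/-- directions `g` for which the edge of direction `l` at `x^g` is not a pair of `P` -/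
def gd (D : Finset (Fin n)) (P : V n × Bool → V n × Bool) (x : V n) (l : Fin n) :
    Finset (Fin n) :=
  D.filter fun g => g ≠ l ∧ P (fl x g, false) ≠ (fl (fl x g) l, false)

/-- point holes `X`, targets `U`, square holes with corner in `Y` and directions `l`, `m` -/
structure Cf (n : ℕ) where
  X : Finset (V n)
  U : Finset (V n)
  Y : Finset (V n)
  l : V n → Fin n
  m : V n → Fin n

/-- all base points -/
def Cf.B (c : Cf n) : Finset (V n) := c.X ∪ c.U ∪ c.Y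

/-- directions of the squares -/
def Cf.Sg (c : Cf n) : Finset (Fin n) := c.Y.image c.l ∪ c.Y.image c.m

/-- the part on one side of direction `j` -/
def Cf.res (c : Cf n) (j : Fin n) (e : ZMod 2) : Cf n :=
  ⟨c.X.filter (· j = e), c.U.filter (· j = e), c.Y.filter (· j = e), c.l, c.m⟩

/-- `c` describes the holes and targets of the subcube, and its objects are separated -/
structure Ok (D : Finset (Fin n)) (b : V n) (H T : Finset (V n)) (c : Cf n) : Prop where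
  sub : c.B ⊆ Sub D b
  hH : ∀ z ∈ Sub D b, z ∈ H ↔ z ∈ c.X ∨ ∃ y ∈ c.Y, z ∈ Sub {c.l y, c.m y} y
  hT : ∀ z ∈ Sub D b, z ∈ T ↔ z ∈ c.U
  sg : c.Sg ⊆ D
  lm : ∀ y ∈ c.Y, ∀ y' ∈ c.Y, c.l y ≠ c.m y' ∧ (y ≠ y' → c.l y ≠ c.l y' ∧ c.m y ≠ c.m y')
  dXU : Disjoint c.X c.U
  dXY : Disjoint c.X c.Y
  dUY : Disjoint c.U c.Y
  sep : ∀ p ∈ c.B, ∀ q ∈ c.B, p ≠ q → 2 ≤ #(df (D \ c.Sg) p q)

/-- holes and targets have parity `π` -/
def Par (π : ZMod 2) (c : Cf n) : Prop := ∀ x ∈ c.X ∪ c.U, par x = π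

/-- the 5-cube minus a square (certificate) -/
def SQ5St : Prop := Fk adj ((univ : Finset (V 5)) \ Sub {0, 1} 0)

/-- a cube of dimension at least 5 minus a square -/
def SQSt : Prop := ∀ (n : ℕ) (D : Finset (Fin n)) (b y : V n) (l m : Fin n), 5 ≤ #D →
  y ∈ Sub D b → l ∈ D → m ∈ D → l ≠ m → Fk adj (Sub D b \ Sub {l, m} y)

/-- the same in dimension exactly 5 -/
def SQ5gSt : Prop := ∀ (n : ℕ) (D : Finset (Fin n)) (b y : V n) (l m : Fin n), #D = 5 →
  y ∈ Sub D b → l ∈ D → m ∈ D → l ≠ m → Fk adj (Sub D b \ Sub {l, m} y)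

/-- one hole, one target -/
def CLSt : Prop := ∀ (n : ℕ) (D : Finset (Fin n)) (b x v : V n) (H T : Finset (V n)),
  x ∈ Sub D b → v ∈ Sub D b → x ≠ v → par x = par v → (∀ z ∈ Sub D b, z ∈ H ↔ z = x) →
  (∀ z ∈ Sub D b, z ∈ T ↔ z = v) → #(df D x v) + 40 ≤ 2 * #D → Rob (Po D b H T)

/-- a point far from given points -/
def FarSt : Prop := ∀ (n : ℕ) (B : Finset (V n)) (δ : V n → ℕ) (A : Finset (Fin n)) (w : V n),
  ∑ q ∈ B, δ q ≤ #A → ∃ a : V n, (∀ i ∉ A, a i = w i) ∧ ∀ q ∈ B, δ q ≤ #(df A a q)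

/-- a separating direction at which the blocked holes need not cross -/
def CntSt : Prop := ∀ (n : ℕ) (J : Finset (Fin n)) (X U : Finset (V n))
  (blk : V n → Fin n → Prop) [∀ x, DecidablePred (blk x)], #X ≤ #U → 2 ≤ #U →
  (∀ p ∈ U, ∀ q ∈ U, p ≠ q → 2 ≤ #(df J p q)) →
  (∀ x ∈ X, ∀ i ∈ J, ∀ j ∈ J, blk x i → blk x j → i = j) →
  ∃ j ∈ J, (∃ u ∈ U, ∃ u' ∈ U, u j ≠ u' j) ∧
    ∀ e : ZMod 2, #(X.filter fun x => x j = e ∧ blk x j) ≤ #(U.filter fun u => u j = e)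

/-- squares only -/
def SQMSt : Prop := ∀ (n N q : ℕ) (D : Finset (Fin n)) (b : V n) (H T : Finset (V n)) (c : Cf n),
  Ok D b H T c → c.X = ∅ → c.U = ∅ → #c.Y ≤ q → q ≤ N → 50 * N ^ 2 + 100 + 3 * q ≤ #D →
  Rob (Po D b H T)

/-- one hole, one target and squares -/
def T1St : Prop := ∀ (n N q : ℕ) (D : Finset (Fin n)) (b : V n) (H T : Finset (V n)) (c : Cf n)
  (π : ZMod 2), Ok D b H T c → Par π c → #c.X = 1 → #c.U = 1 → #c.Y ≤ q → q + 3 ≤ N →
  50 * N ^ 2 + 100 + 3 * N + 2 * q ≤ #D → Rob (Po D b H T)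

/-- as many holes as targets, and squares -/
def TMSt : Prop := ∀ (n N t : ℕ) (D : Finset (Fin n)) (b : V n) (H T : Finset (V n)) (c : Cf n)
  (π : ZMod 2), Ok D b H T c → Par π c → #c.X = #c.U → #c.U ≤ t → #c.Y + (t + 1) ^ 2 + 3 ≤ N →
  50 * N ^ 2 + 100 + 5 * N + t ≤ #D → Rob (Po D b H T)

/-- the final statement for an involution `μ` -/
def TopSt : Prop := ∀ (n k : ℕ), 2000 * (k + 1) ^ 4 ≤ n → ∀ (μ : V n → V n), (∀ x, μ (μ x) = x) →
  (∀ x, μ x ≠ x → adj x (μ x)) → #(univ.filter fun x => μ x = x) ≤ k → ∀ u v : V n,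
  par u ≠ par v → μ v = v → ∀ G : SimpleGraph (V n), (∀ x y, adj x y → G.Adj x y) →
  ∃ w : G.Walk u v, w.IsHamiltonian ∧ ∀ x, μ x ≠ x → s(x, μ x) ∈ w.edges

end Pool.Agent.Lib.MP_88ff4d_co.NP
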