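import Pool.Agent.Lib.MP_88ff4d_co.NP.Ops

/-! Nearly perfect matchings: statement of the link lemma. -/

set_option autoImplicit false

namespace Pool.Agent.Lib.MP_88ff4d_co.NP

open Finset

/-- two real edges across an uncrossed direction; each side gets one more square -/
def LinkSt : Prop := ∀ (n N : ℕ) (D : Finset (Fin n)) (b b0 b1 a : V n) (H T : Finset (V n))
  (P : V n × Bool → V n × Bool) (j : Fin n) (c0 c1 : Cf n) (W : Finset (Fin n)),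
  j ∈ D → b0 ∈ Sub D b → b1 ∈ Sub D b → b0 j ≠ b1 j → Inv (Po D b H T) P → SP (Po D b H T) P →
  Ok (D.erase j) b0 H T c0 → Ok (D.erase j) b1 H T c1 → Even #(Po (D.erase j) b0 H T) →
  (∀ p ∈ Po D b H T, (P p).1 j = p.1 j) → a ∈ Sub (D.erase j) b0 →
  (∀ q ∈ c0.B, 2 ≤ #(df (D.erase j \ c0.Sg) a q)) →
  (∀ q ∈ c1.B, 2 ≤ #(df (D.erase j \ c1.Sg) (fl a j) q)) → #c0.B + 1 ≤ N → #c1.B + 1 ≤ N →
  #W ≤ 2 → 4 * N ^ 2 + 4 * N + 50 ≤ #D →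
  ∃ l m m' H' P', l ∉ W ∧ m ∉ W ∧ m' ∉ W ∧ a ∉ c0.B ∧ fl a j ∉ c1.B ∧
    Ok (D.erase j) b0 H' T ((c0.addX a).toSq a l m) ∧
    Ok (D.erase j) b1 H' T ((c1.addX (fl a j)).toSq (fl a j) l m') ∧
    Inv (Po D b H' T) P' ∧ SP (Po D b H' T) P' ∧ (∃ p ∈ Po D b H' T, (P' p).1 j ≠ p.1 j) ∧
    (Good adp (Po D b H' T) P' → Good adp (Po D b H T) P)

end Pool.Agent.Lib.MP_88ff4d_co.NP
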