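import Pool.Agent.Lib.MP_88ff4d_co.NP.MY2
import Pool.Agent.Lib.MP_88ff4d_co.NP.CL

/-! Two holes: tools and the last step. -/

set_option autoImplicit false

namespace Pool.Agent.Lib.MP_88ff4d_co.NP

open Finset

variable {n : ℕ} {D : Finset (Fin n)} {b b0 b1 x v : V n} {H T : Finset (V n)}
  {P : V n × Bool → V n × Bool} {j l : Fin n}

/-- the second side only has to be solved for pairings that keep the inner pairs -/
theorem splitW (hj : j ∈ D) (h0 : b0 ∈ Sub D b) (h1 : b1 ∈ Sub D b) (hne : b0 j ≠ b1 j)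
    (hP : Inv (Po D b H T) P) (hS : SP (Po D b H T) P) (hev : Even #(Po (D.erase j) b0 H T))
    (hx : ∃ p ∈ Po D b H T, (P p).1 j ≠ p.1 j) (hR0 : Rob (Po (D.erase j) b0 H T))
    (hG : ∀ P', Inv (Po (D.erase j) b1 H T) P' → SP (Po (D.erase j) b1 H T) P' →
      (∀ p ∈ Po (D.erase j) b1 H T, P p ∈ Po (D.erase j) b1 H T → P' p = P p) →
      Good adp (Po (D.erase j) b1 H T) P') : Good adp (Po D b H T) P := by
  have a1 := card_sdiff_add_card_eq_card (side_sub (H := H) (T := T) h0 hj)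
  have e : Po D b H T \ Po (D.erase j) b0 H T = Po (D.erase j) b1 H T := by
    ext p
    rw [mem_sdiff, mem_side h0 hj, mem_side h1 hj]
    constructor
    · rintro ⟨c1, c2⟩
      exact ⟨c1, z2_two hne fun hh => c2 ⟨c1, hh⟩⟩
    · rintro ⟨c1, c2⟩
      exact ⟨c1, fun hh => hne (hh.2.symm.trans c2)⟩
  rw [e] at a1
  have a2 := hP.even
  rw [← a1] at a2
  obtain ⟨P0, k1, k2⟩ := exists_P0 hP (side_sub h1 hj) ((Nat.even_add.mp a2).mpr hev)
  exact splitQ hj h1 h0 hne.symm hP hS k2 (fun s => hG P0 k1 s k2) hx hR0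

theorem edge_new {α : Type*} [DecidableEq α] {S S' : Finset α} {P P' : α → α} (hP : Inv S P)
    (hP' : Inv S' P') {a c : α} (ha : a ∈ S) (hS : ∀ p, p ∈ S' ↔ p ∈ S ∧ p ≠ a ∧ p ≠ c)
    (hn : P a ≠ c) (k : ∀ p, p ≠ a → p ≠ c → p ≠ P a → p ≠ P c → P' p = P p) :
    P' (P a) = P c := by
  obtain ⟨a1, a2, a3⟩ := hP' (P a) ((hS _).mpr ⟨(hP a ha).1, (hP a ha).2.1, hn⟩)
  obtain ⟨a4, a5, a6⟩ := (hS _).mp a1
  by_contra h
  rw [k _ a5 a6 a2 h] at a3
  exact a5 (hP.inj a4 ha a3)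

/-- a single square -/
def sq1 (y : V n) (l m : Fin n) : Cf n := ⟨∅, ∅, {y}, fun _ => l, fun _ => m⟩

theorem okSq {y : V n} {m : Fin n} (hy : y ∈ Sub D b) (hl : l ∈ D) (hm : m ∈ D) (hlm : l ≠ m)
    (hH : ∀ z ∈ Sub D b, z ∈ H ↔ z ∈ Sub {l, m} y) (hT : ∀ z ∈ Sub D b, z ∉ T) :
    Ok D b H T (sq1 y l m) := by
  have mB : ∀ z ∈ (sq1 y l m).B, z = y := fun z hz => by simpa [mem_B, sq1] using hz
  refine ⟨fun z hz => mB z hz ▸ hy, fun z hz => by simpa [sq1] using hH z hz,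
    fun z hz => by simpa [sq1] using hT z hz, fun i hi => ?_, fun p hp q hq => ⟨hlm, fun c => ?_⟩,
    disjoint_empty_left _, disjoint_empty_left _, disjoint_empty_left _,
    fun p hp q hq c => absurd ((mB p hp).trans (mB q hq).symm) c⟩
  · obtain ⟨_, -, rfl | rfl⟩ := mem_Sg.mp hi
    · exact hl
    · exact hm
  · exact absurd ((mem_singleton.mp hp).trans (mem_singleton.mp hq).symm) c

/-- a single hole -/
def pt1 (x : V n) (j : Fin n) : Cf n := ⟨{x}, ∅, ∅, fun _ => j, fun _ => j⟩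

theorem pt1_B {z : V n} (hz : z ∈ (pt1 x j).B) : z = x := by simpa [mem_B, pt1] using hz

theorem okPt (hx : x ∈ Sub D b) (hT : ∀ z ∈ Sub D b, z ∉ T) : Ok D b {x} T (pt1 x j) :=
  ⟨fun z hz => pt1_B hz ▸ hx, fun z _ => by simp [pt1], fun z hz => by simpa [pt1] using hT z hz,
    by rw [Sg_empty rfl]; exact empty_subset _, fun y hy => absurd hy (notMem_empty y),
    disjoint_empty_right _, disjoint_empty_right _, disjoint_empty_right _,
    fun p hp q hq c => absurd ((pt1_B hp).trans (pt1_B hq).symm) c⟩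

theorem gd_erase (x : V n) (l : Fin n) : #(gd D P x l) ≤ #(gd (D.erase j) P x l) + 1 := by
  refine (card_le_card (t := insert j (gd (D.erase j) P x l)) fun i hi => ?_).trans
    (card_insert_le _ _)
  by_cases c : i = j
  · exact mem_insert.mpr (Or.inl c)
  · exact mem_insert_of_mem (mem_filter.mpr
      ⟨mem_erase.mpr ⟨c, (mem_filter.mp hi).1⟩, (mem_filter.mp hi).2⟩)

/-- a lonely hole crosses `j` in a prescribed way -/
theorem stepS (hx : x ∈ Sub D b) (hj : j ∈ D) (hl : l ∈ D) (hlj : l ≠ j)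
    (hP : Inv (Po D b H T) P) (hS : SP (Po D b H T) P)
    (hH : ∀ z ∈ Sub D b, z j = x j → (z ∈ H ↔ z = x)) (hT : ∀ z ∈ Sub D b, z ∉ T)
    (hy : fl (fl x l) j ∉ H) (hn : P (fl x l, false) ≠ (fl (fl x l) j, false))
    {F : Finset (V n × Bool)} (hF : F ⊆ Po D b H T) (hc : Cl F P) (h4 : #F ≤ 4)
    (f1 : (fl x l, false) ∉ F) (f2 : (fl (fl x l) j, false) ∉ F) (hg : 14 ≤ #(gd D P x l)) :
    ∃ c H' P', Ok (D.erase j) x H' T c ∧ c.X = ∅ ∧ c.U = ∅ ∧ #c.Y ≤ 1 ∧
      (∀ z, z j ≠ x j → (z ∈ H' ↔ z = fl (fl x l) j ∨ z ∈ H)) ∧ Red D b T H P H' P' F 8 := by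
  have u1 : fl x l ∈ Sub D b := fl_mem_Sub hl hx
  have u2 : fl (fl x l) j ∈ Sub D b := fl_mem_Sub hj u1
  have s1 : fl x l j = x j := fl_apply_ne x hlj.symm
  have s2 : fl (fl x l) j j ≠ x j := by rw [fl_apply_self, s1]; exact z2_ne _
  obtain ⟨P1, R1⟩ := edgeR hP hS u1 u2 ⟨fun c => fl_ne x l ((hH _ u1 s1).mp c), hT _ u1⟩
    ⟨hy, hT _ u2⟩ (adj_fl _ _) hn hF hc f1 f2
  have g1 := R1.gd_le D x l
  have g2 := gd_erase (D := D) (P := P1) (j := j) x l
  have g3 : (pt1 x j).Sg = ∅ := Sg_empty rfl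
  obtain ⟨m, H', P', -, k1, k2, R2⟩ := closeSq (Z := ∅) (l := l) hj hx R1.1 R1.2.1
    (okPt (j := j) (self_mem_Sub _ x) fun z hz => hT z ((mem_Sub_erase hx hj).mp hz).1)
    (empty_subset _) (fun p hp q hq c => absurd ((pt1_B hp).trans (pt1_B hq).symm) c)
    (mem_singleton_self x) (by rw [g3, sdiff_empty]; exact mem_erase.mpr ⟨hlj, hl⟩)
    (notMem_empty _) (fun z hz => by
      obtain ⟨c1, c2⟩ := (mem_Sub_erase hx hj).mp hz
      rw [mem_insert, mem_insert, hH z c1 c2, mem_singleton]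
      exact ⟨fun h => h.elim Or.inl fun h => h.elim (fun e => absurd (e ▸ c2) s2) Or.inr,
        fun h => h.elim Or.inl fun h => Or.inr (Or.inr h)⟩) R1.2.2.2.1 (R1.cl hc) ∅
    (by rw [g3, card_empty]; omega)
  refine ⟨_, H', P', k1, by simp [Cf.toSq, pt1], rfl, by simp [Cf.toSq, pt1], fun z hz => ?_,
    R1.trans R2⟩
  rw [k2 z hz, mem_insert, mem_insert]
  exact ⟨fun h => h.elim (fun e => absurd (e ▸ s1) hz) id, Or.inr⟩

theorem sp_of (hT : ∀ z ∈ Sub D b, z ∉ T) : SP (Po D b H T) P :=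
  fun z hz => absurd (mem_Po_t.mp hz).2 (hT z (mem_Po_t.mp hz).1)

theorem par_emp {π : ZMod 2} {c : Cf n} (h1 : c.X = ∅) (h2 : c.U = ∅) : Par π c := by
  intro z hz
  rw [h1, h2] at hz
  simp at hz

theorem par_ne_fl {y z : V n} (h : par y = par z) (i : Fin n) : y ≠ fl z i := fun e => by
  rw [e, par_fl] at h
  exact z2_ne _ h

/-- the last step at distance three -/
theorem thEnd (hF : FarSt) (hL : LinkSt) (hTM : TMSt) {i μ μ' : Fin n} (hx : x ∈ Sub D b)
    (hv : v ∈ Sub D b) (hH : ∀ z ∈ Sub D b, z ∈ H ↔ z = x ∨ z = v) (hT : ∀ z ∈ Sub D b, z ∉ T)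
    (hP : Inv (Po D b H T) P) (hl : l ∈ D) (hj : j ∈ D) (hi : i ∈ D) (hμ : μ ∈ D) (hlj : l ≠ j)
    (hij : i ≠ j) (e : fl (fl (fl x l) j) i = v) (m1 : μ ≠ i) (m2 : μ ≠ j)
    (ha : (fl v μ, false) ∈ Po D b H T) (hp : P (fl v μ, false) = (fl v μ', false))
    (hg : 18 ≤ #(gd D P x l))
    (C : P (fl x l, false) ≠ (if i = μ' then fl (fl v μ) i else fl v i, false))
    (hD : 2000 ≤ #D) : Good adp (Po D b H T) P := by
  have ey : fl (fl x l) j = fl v i := by rw [← e, fl_fl]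
  have s1 : fl x l j = x j := fl_apply_ne x hlj.symm
  have s0 : v j ≠ x j := by
    rw [← e, fl_apply_ne _ hij.symm, fl_apply_self, s1]; exact z2_ne _
  have p1 : par (fl x l) = par v := by
    rw [← e, par_fl (fl _ j), par_fl (fl x l), add_assoc, CharTwo.add_self_eq_zero, add_zero]
  have p2 : par (fl (fl v μ) i) = par v := by
    rw [par_fl, par_fl, add_assoc, CharTwo.add_self_eq_zero, add_zero]
  have u1 : fl v μ ∈ Sub D b := fl_mem_Sub hμ hv
  have u2 : fl (fl v μ) i ∈ Sub D b := fl_mem_Sub hi u1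
  have u3 : fl x l ∈ Sub D b := fl_mem_Sub hl hx
  have t1 : fl v μ j = v j := fl_apply_ne v m2.symm
  have t2 : fl (fl v μ) i j = v j := by rw [fl_apply_ne _ hij.symm, t1]
  have t3 : fl v i j = v j := fl_apply_ne v hij.symm
  have n2 : fl (fl v μ) i ∉ H := fun c => ((hH _ u2).mp c).elim (fun d => s0 (by rw [← t2, d]))
    (fl_fl_ne v m1)
  have hb : (fl (fl v μ) i, false) ∈ Po D b H T := mem_Po_f.mpr ⟨u2, n2⟩
  have hs : (fl x l, false) ∈ Po D b H T := mem_Po_f.mpr ⟨u3, fun c =>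
    ((hH _ u3).mp c).elim (fl_ne x l) fun d => s0 (by rw [← d, s1])⟩
  have hn : P (fl v μ, false) ≠ (fl (fl v μ) i, false) := by
    rw [hp]; exact fun c => par_ne_fl p2 μ' (congrArg Prod.fst c).symm
  obtain ⟨P1, k1, k2, k3, k4⟩ := edgeH hP (sp_of hT) u1 u2 (mem_Po_f.mp ha).2 n2 (hT _ u1)
    (hT _ u2) (adj_fl _ _) hn
  have g1 := gd_change (D := D) (P := P) (P' := P1) (K := {(fl v μ, false),
    (fl (fl v μ) i, false), P (fl v μ, false), P (fl (fl v μ) i, false)}) (fun q hq => by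
      simp only [mem_insert, mem_singleton, not_or] at hq
      exact k3 q hq.1 hq.2.1 hq.2.2.1 hq.2.2.2) x l
  have g2 : #({(fl v μ, false), (fl (fl v μ) i, false), P (fl v μ, false),
    P (fl (fl v μ) i, false)} : Finset (V n × Bool)) ≤ 4 := card_le_four
  have d1 : (fl x l, false) ≠ (fl v μ, false) := fun c => par_ne_fl p1 μ (congrArg Prod.fst c)
  have hn1 : P1 (fl x l, false) ≠ (fl (fl x l) j, false) := by
    rw [ey]
    by_cases c : (fl x l, false) = P (fl (fl v μ) i, false)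
    · rw [c, edge_new hP k1 hb (c := (fl v μ, false)) (fun p => by
          rw [Po_insert2, mem_sdiff, mem_insert, mem_singleton, not_or]
          exact and_congr_right fun _ => and_comm)
        (fun d => hn (by rw [← d, (hP _ hb).2.2])) (fun p a1 a2 a3 a4 => k3 p a2 a1 a4 a3), hp]
      intro d
      rw [if_pos (fl_inj v (congrArg Prod.fst d)).symm, c, (hP _ hb).2.2] at C
      exact C rfl
    · rw [k3 _ d1 (fun d => s0 (by rw [← t2, ← s1, (Prod.mk.inj d).1]))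
        (by rw [hp]; exact fun d => par_ne_fl p1 μ' (congrArg Prod.fst d)) c]
      by_cases d : i = μ'
      · rw [d, ← hp]
        exact fun a => d1 (hP.inj hs ha a)
      · rwa [if_neg d] at C
  obtain ⟨c, H', P', O, x1, x2, x3, k5, R⟩ := stepS (F := ∅) hx hj hl hlj k1 k2
    (fun z hz a => by
      rw [mem_insert, mem_insert, hH z hz]
      refine ⟨fun h => ?_, fun h => Or.inr (Or.inr (Or.inl h))⟩
      rcases h with h | h | h | h
      · exact absurd (by rw [← t1, ← h, a]) s0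
      · exact absurd (by rw [← t2, ← h, a]) s0
      · exact h
      · exact absurd (by rw [← h, a]) s0) hT (by
      rw [ey, mem_insert, mem_insert, hH _ (fl_mem_Sub hi hv)]
      rintro (h | h | h | h)
      · exact m1 (fl_inj v h).symm
      · exact fl_ne v μ (fl_left_inj i h).symm
      · exact s0 (by rw [← t3, h])
      · exact fl_ne v i h) hn1 (empty_subset _) (fun _ hh => absurd hh (notMem_empty _))
    (by simp) (notMem_empty _) (notMem_empty _) (by omega)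
  have O1 : Ok (D.erase j) v H' T (sq1 v i μ) := okSq (self_mem_Sub _ v)
    (mem_erase.mpr ⟨hij, hi⟩) (mem_erase.mpr ⟨m2, hμ⟩) m1.symm (fun z hz => by
      obtain ⟨c1, c2⟩ := (mem_Sub_erase hv hj).mp hz
      rw [k5 z (by rw [c2]; exact s0), ey, mem_insert, mem_insert, hH z c1, mem_sq m1.symm]
      have : z ≠ x := fun d => s0 (by rw [← c2, d])
      constructor
      · rintro (h | h | h | h | h)
        exacts [Or.inr (Or.inl h), Or.inr (Or.inr (Or.inl h)), Or.inr (Or.inr (Or.inr h)),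
          absurd h this, Or.inl h]
      · rintro (h | h | h | h)
        exacts [Or.inr (Or.inr (Or.inr (Or.inr h))), Or.inl h, Or.inr (Or.inl h),
          Or.inr (Or.inr (Or.inl h))]) fun z hz => hT z ((mem_Sub_erase hv hj).mp hz).1
  exact k4 (R.2.2.2.2 (mxA (N := 6) (t := 0) (π0 := 0) (π1 := 0) hF hL hTM hj hx hv s0.symm R.1
    R.2.1 O O1 (par_emp x1 x2) (par_emp rfl rfl) (by rw [x1, x2]) rfl (by rw [x2]; simp)
    (by simp [sq1]) (by omega) (by simp [sq1]) (by omega)))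

end Pool.Agent.Lib.MP_88ff4d_co.NP
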