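import Pool.Agent.Lib.MP_88ff4d_co.NP.TH1

/-! Two holes, two neighbours of one of them are paired. -/

set_option autoImplicit false

namespace Pool.Agent.Lib.MP_88ff4d_co.NP

open Finset

variable {n : ℕ} {D : Finset (Fin n)} {b x v : V n} {H T : Finset (V n)}
  {P : V n × Bool → V n × Bool} {m m' : Fin n}

theorem low_le (x : V n) (hD : 40 ≤ #D) : #(univ.filter fun l => #(gd D P x l) < 18) ≤ 1 :=
  card_le_one.mpr fun l hl l' hl' => by
    by_contra h
    have := gd_cover (D := D) (P := P) x h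
    have := (mem_filter.mp hl).2
    have := (mem_filter.mp hl').2
    omega

theorem thOne (hTM : TMSt) (hv : v ∈ Sub D b)
    (hH : ∀ z ∈ Sub D b, z ∈ H ↔ z = x ∨ z = v) (hT : ∀ z ∈ Sub D b, z ∉ T)
    (hP : Inv (Po D b H T) P) (hm : m ∈ D) (ha : (fl v m, false) ∈ Po D b H T) {c : Fin n}
    (hc : c ∈ D) (e : x = fl v c) (hp : P (fl v m, false) ≠ (fl (fl v m) c, false))
    (hD : 2000 ≤ #D) : Good adp (Po D b H T) P := by
  obtain ⟨u1, n1⟩ := mem_Po_f.mp ha
  have m1 : m ≠ c := fun d => n1 ((hH _ u1).mpr (Or.inl (by rw [e, d])))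
  have u2 : fl (fl v m) c ∈ Sub D b := fl_mem_Sub hc u1
  obtain ⟨P1, k1, k2, -, k4⟩ := edgeH hP (sp_of hT) u1 u2 n1 (fun d => ((hH _ u2).mp d).elim
    (fun a => fl_ne v m (fl_left_inj c (a.trans e))) (fl_fl_ne v m1)) (hT _ u1) (hT _ u2)
    (adj_fl _ _) hp
  refine k4 (hTM n 6 0 D b _ T (sq1 v c m) 0 (okSq hv hc hm m1.symm (fun z hz => ?_) hT)
    (par_emp rfl rfl) rfl (by simp [sq1]) (by simp [sq1]) (by omega) P1 k1 k2)
  rw [mem_insert, mem_insert, hH z hz, mem_sq m1.symm, e]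
  constructor
  · rintro (h | h | h | h)
    exacts [Or.inr (Or.inr (Or.inl h)), Or.inr (Or.inr (Or.inr h)), Or.inr (Or.inl h), Or.inl h]
  · rintro (h | h | h | h)
    exacts [Or.inr (Or.inr (Or.inr h)), Or.inr (Or.inr (Or.inl h)), Or.inl h, Or.inr (Or.inl h)]

theorem thThree (hF : FarSt) (hL : LinkSt) (hTM : TMSt) (hx : x ∈ Sub D b) (hv : v ∈ Sub D b)
    (hH : ∀ z ∈ Sub D b, z ∈ H ↔ z = x ∨ z = v) (hT : ∀ z ∈ Sub D b, z ∉ T)
    (hP : Inv (Po D b H T) P) (hm : m ∈ D) (hm' : m' ∈ D) (ha : (fl v m, false) ∈ Po D b H T)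
    (hp : P (fl v m, false) = (fl v m', false)) (h3 : #(df D x v) = 3) (hD : 2000 ≤ #D) :
    Good adp (Po D b H T) P := by
  obtain ⟨a1, a2, a3⟩ := hP _ ha
  rw [hp] at a1 a2 a3
  have mm : m ≠ m' := fun e => a2 (by rw [e])
  obtain ⟨l, hl, hb⟩ := exists_avoid (A := df D x v)
    (Bd := (univ.filter fun l => #(gd D P x l) < 18) ∪
      if m ∈ df D x v ∧ m' ∈ df D x v then df D x v \ {m, m'} else ∅) (by
    have k1 := low_le (D := D) (P := P) x (by omega)
    refine lt_of_le_of_lt (card_union_le _ _) ?_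
    split_ifs with c
    · have := card_sdiff_add_card_eq_card (insert_subset c.1 (singleton_subset_iff.mpr c.2))
      rw [card_pair mm] at this
      omega
    · rw [card_empty]; omega)
  rw [mem_union, not_or, mem_filter, not_and, not_lt] at hb
  obtain ⟨r, s, rs, e⟩ := card_eq_two.mp (by rw [card_erase_of_mem hl, h3] :
    #((df D x v).erase l) = 2)
  have hr : r ∈ (df D x v).erase l := by rw [e]; simp
  have hs : s ∈ (df D x v).erase l := by rw [e]; simp
  have d1 := CLx.df_step hl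
  have d2 := CLx.df_step (d1 ▸ hr : r ∈ df D (fl x l) v)
  have d3 : df D (fl (fl x l) r) v = {s} := by
    rw [d2, d1, e, erase_insert (by simpa using rs)]
  have d4 := CLx.df_step (by rw [d3]; simp : s ∈ df D (fl (fl x l) r) v)
  have lD := (mem_df.mp hl).1
  have rD := (mem_df.mp (mem_erase.mp hr).2).1
  have sD := (mem_df.mp (mem_erase.mp hs).2).1
  have e1 : fl (fl (fl x l) r) s = v := CLx.df_zero
    (fl_mem_Sub sD (fl_mem_Sub rD (fl_mem_Sub lD hx))) hv (by rw [d4, d3]; simp)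
  have e2 : fl (fl (fl x l) s) r = v := by rw [fl_comm]; exact e1
  have key : ∀ μ μ' : Fin n, μ ∈ D → μ ≠ r → μ ≠ s → (fl v μ, false) ∈ Po D b H T →
      P (fl v μ, false) = (fl v μ', false) → Good adp (Po D b H T) P := by
    intro μ μ' c1 c2 c3 c4 c5
    by_cases C : P (fl x l, false) = (if s = μ' then fl (fl v μ) s else fl v s, false)
    · refine thEnd hF hL hTM hx hv hH hT hP lD sD rD c1 (mem_erase.mp hs).1.symm rs e2 c2 c3 c4 c5
        (hb.1 (mem_univ _)) (fun C' => ?_) hD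
      have q := (Prod.mk.inj (C.symm.trans C')).1
      have p2 : ∀ i, par (fl (fl v μ) i) = par v := fun i => by
        rw [par_fl, par_fl, add_assoc, CharTwo.add_self_eq_zero, add_zero]
      split_ifs at q with c6 c7 c7
      · exact rs (c7.trans c6.symm)
      · exact par_ne_fl (p2 s) r q
      · exact par_ne_fl (p2 r) s q.symm
      · exact rs (fl_inj v q).symm
    · exact thEnd hF hL hTM hx hv hH hT hP lD rD sD c1 (mem_erase.mp hr).1.symm rs.symm e1 c3 c2
        c4 c5 (hb.1 (mem_univ _)) C hD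
  by_cases c : m ∈ (df D x v).erase l
  · have c' : m' ∉ (df D x v).erase l := fun c' => hb.2 (by
      rw [if_pos ⟨(mem_erase.mp c).2, (mem_erase.mp c').2⟩, mem_sdiff, mem_insert, mem_singleton]
      exact ⟨hl, fun d => d.elim (mem_erase.mp c).1.symm (mem_erase.mp c').1.symm⟩)
    exact key m' m hm' (fun d => c' (d ▸ hr)) (fun d => c' (d ▸ hs)) a1 a3
  · exact key m m' hm (fun d => c (d ▸ hr)) (fun d => c (d ▸ hs)) ha hp

/-- a usable pair of directions at distance at least five -/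
theorem thPick (hx : x ∈ Sub D b) (hH : ∀ z ∈ Sub D b, z ∈ H ↔ z = x ∨ z = v)
    (hT : ∀ z ∈ Sub D b, z ∉ T) (hP : Inv (Po D b H T) P) (m m' : Fin n) (h5 : 5 ≤ #(df D x v))
    (hD : 40 ≤ #D) : ∃ l ∈ df D x v, ∃ j ∈ df D x v, l ≠ j ∧ j ≠ m ∧ j ≠ m' ∧
      18 ≤ #(gd D P x l) ∧ P (fl x l, false) ≠ (fl (fl x l) j, false) ∧ ∃ p ∈ Po D b H T,
      p.1 j = x j ∧ (P p).1 j ≠ x j ∧ p ≠ (fl x l, false) ∧ P p ≠ (fl (fl x l) j, false) := by
  let S : Fin n → Finset (Fin n) := fun j =>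
    (df D x v).filter fun l => P (fl x l, false) = (fl (fl x l) j, false)
  obtain ⟨j, hj, h1⟩ : ∃ j ∈ df D x v \ {m, m'}, #(S j) ≤ 1 := by
    by_contra c
    push Not at c
    have a1 : #((df D x v \ {m, m'}).biUnion S) ≤ #(df D x v) :=
      card_le_card (biUnion_subset.mpr fun j _ => filter_subset _ _)
    rw [card_biUnion fun j _ j' _ d => disjoint_left.mpr fun l k k' => d (fl_inj _
      (Prod.mk.inj ((mem_filter.mp k).2.symm.trans (mem_filter.mp k').2)).1)] at a1
    have a2 := card_nsmul_le_sum _ (fun j => #(S j)) 2 c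
    have a3 := le_card_sdiff {m, m'} (df D x v)
    have a4 := card_le_two (a := m) (b := m')
    rw [smul_eq_mul] at a2
    omega
  obtain ⟨j1, j2⟩ := mem_sdiff.mp hj
  rw [mem_insert, mem_singleton, not_or] at j2
  obtain ⟨jD, jv⟩ := mem_df.mp j1
  obtain ⟨p, p1, p2, p3, p4⟩ : ∃ p ∈ Po D b H T, p.1 j = x j ∧ (P p).1 j ≠ x j ∧
      ∀ l ∈ S j, l ≠ j → p = (fl x l, false) := by
    by_cases c : ∃ l ∈ S j, l ≠ j
    · obtain ⟨l, hl, lj⟩ := c
      obtain ⟨c1, c2⟩ := mem_filter.mp hl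
      have u1 := fl_mem_Sub (mem_df.mp c1).1 hx
      have s1 : fl x l j = x j := fl_apply_ne x lj.symm
      refine ⟨(fl x l, false), mem_Po_f.mpr ⟨u1, fun d => ((hH _ u1).mp d).elim (fl_ne x l)
        fun d => jv (by rw [← d, s1])⟩, s1, ?_, fun l' hl' _ => by rw [card_le_one.mp h1 l hl l' hl']⟩
      rw [c2]
      show fl (fl x l) j j ≠ x j
      rw [fl_apply_self, s1]
      exact z2_ne _
    · have O := (okPt (j := j) (self_mem_Sub (D.erase j) x) (T := T) fun z hz =>
        hT z ((mem_Sub_erase hx jD).mp hz).1).congrH (H' := H) fun z hz => by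
          obtain ⟨c1, c2⟩ := (mem_Sub_erase hx jD).mp hz
          rw [hH z c1, mem_singleton]
          exact ⟨fun d => d.resolve_right fun d => jv (by rw [← c2, d]), Or.inl⟩
      obtain ⟨p, a1, a2, a3⟩ := cross_of_odd jD hx hP (by
        rw [O.even_iff (by rw [card_erase_of_mem jD]; omega)]
        simp [pt1])
      exact ⟨p, a1, a2, a2 ▸ a3, fun l hl lj => absurd ⟨l, hl, lj⟩ c⟩
  obtain ⟨l, hl, hb⟩ := exists_avoid (A := df D x v) (Bd := insert j
      ((univ.filter fun l => #(gd D P x l) < 18) ∪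
      (univ.filter fun g : Fin n => (fl x g, false) ∈ ({p} : Finset (V n × Bool))) ∪
      univ.filter fun g : Fin n => (fl (fl x j) g, false) ∈ ({P p} : Finset (V n × Bool)))) (by
    have k1 := low_le (D := D) (P := P) x hD
    have k2 := card_hit {p} x
    have k3 := card_hit {P p} (fl x j)
    rw [card_singleton] at k2 k3
    refine lt_of_le_of_lt ((card_insert_le _ _).trans (Nat.add_le_add_right
      ((card_union_le _ _).trans (Nat.add_le_add ((card_union_le _ _).trans
      (Nat.add_le_add k1 k2)) k3)) _)) (by omega))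
  simp only [mem_insert, mem_union, mem_filter, mem_univ, true_and, not_or, not_lt,
    mem_singleton] at hb
  obtain ⟨b1, ⟨b2, b3⟩, b4⟩ := hb
  exact ⟨l, hl, j, j1, b1, j2.1, j2.2, b2, fun d => b3 (p4 l (mem_filter.mpr ⟨hl, d⟩) b1).symm,
    p, p1, p2, p3, fun d => b3 d.symm, fun d => b4 (by rw [fl_comm]; exact d.symm)⟩

theorem th (hF : FarSt) (hL : LinkSt) (hTM : TMSt) (D : Finset (Fin n)) :
    ∀ (b x : V n) (H : Finset (V n)) (P : V n × Bool → V n × Bool), x ∈ Sub D b → v ∈ Sub D b →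
      par x ≠ par v → (∀ z ∈ Sub D b, z ∈ H ↔ z = x ∨ z = v) → (∀ z ∈ Sub D b, z ∉ T) → m ∈ D →
      m' ∈ D → Inv (Po D b H T) P → (fl v m, false) ∈ Po D b H T →
      P (fl v m, false) = (fl v m', false) → #(df D x v) + 4000 ≤ 2 * #D →
      Good adp (Po D b H T) P := by
  induction D using Finset.strongInduction with
  | H D ih =>
  intro b x H P hx hv pr hH hT hm hm' hP ha hp hD
  have q1 := df_pos hx hv fun e => pr (by rw [e])
  by_cases c1 : #(df D x v) = 1
  · obtain ⟨c, e⟩ := card_eq_one.mp c1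
    have hc : c ∈ df D x v := by rw [e]; simp
    have e1 : fl x c = v := CLx.df_zero (fl_mem_Sub (mem_df.mp hc).1 hx) hv (by
      rw [CLx.df_step hc, e]; simp)
    refine thOne hTM hv hH hT hP hm ha (mem_df.mp hc).1 (by rw [← e1, fl_fl]) ?_ (by omega)
    rw [hp]
    exact fun d => par_ne_fl (by
      rw [par_fl, par_fl, add_assoc, CharTwo.add_self_eq_zero, add_zero]) m'
      (Prod.mk.inj d).1.symm
  have q3 := df_three hx hv pr (by omega)
  by_cases c3 : #(df D x v) = 3
  · exact thThree hF hL hTM hx hv hH hT hP hm hm' ha hp c3 (by omega)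
  have q5 : 5 ≤ #(df D x v) := by
    by_contra c
    have h2 := par_df hx hv
    rw [show #(df D x v) = 4 by omega] at h2
    revert pr h2
    generalize par x = y
    generalize par v = z
    revert y z
    decide
  obtain ⟨l, hl, j, hj, lj, j1, j2, hg, hn, p, p1, p2, p3, p4, p5⟩ :=
    thPick hx hH hT hP m m' q5 (by omega)
  obtain ⟨jD, jv⟩ := mem_df.mp hj
  have lD := (mem_df.mp hl).1
  have s1 : fl x l j = x j := fl_apply_ne x lj.symm
  have s2 : fl (fl x l) j j ≠ x j := by rw [fl_apply_self, s1]; exact z2_ne _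
  have u2 : fl (fl x l) j ∈ Sub D b := fl_mem_Sub jD (fl_mem_Sub lD hx)
  have d1 := CLx.df_step hl
  have hj' : j ∈ df D (fl x l) v := by rw [d1]; exact mem_erase.mpr ⟨lj.symm, hj⟩
  have d2 : #(df D (fl (fl x l) j) v) + 2 = #(df D x v) := by
    rw [CLx.df_step hj', card_erase_of_mem hj', d1, card_erase_of_mem hl]
    omega
  have nb : ∀ i, fl (fl x l) j ≠ fl v i := fun i e => by
    have := df_adj D v (adj_fl v i).symm
    rw [df_self, ← e, df_comm] at this
    omega
  have pl : par (fl x l) = par v := by rw [par_fl]; exact z2_a pr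
  obtain ⟨a1, -, a3⟩ := hP _ ha
  obtain ⟨a4, -, a5⟩ := hP p p1
  obtain ⟨c, H', P', O, x1, x2, x3, k5, R⟩ := stepS
    (F := {p, P p, (fl v m, false), (fl v m', false)}) hx jD lD lj hP (sp_of hT)
    (fun z hz a => by
      rw [hH z hz]
      exact ⟨fun d => d.resolve_right fun d => jv (by rw [← a, d]), Or.inl⟩) hT
    (fun d => ((hH _ u2).mp d).elim (fun d => s2 (by rw [d])) fun d => by
      rw [d, df_self] at d2; omega) hn
    (insert_subset p1 (insert_subset a4 (insert_subset ha (singleton_subset_iff.mpr (hp ▸ a1)))))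
    (fun z hz => by
      simp only [mem_insert, mem_singleton] at hz ⊢
      rcases hz with rfl | rfl | rfl | rfl
      · exact Or.inr (Or.inl rfl)
      · exact Or.inl a5
      · exact Or.inr (Or.inr (Or.inr hp))
      · exact Or.inr (Or.inr (Or.inl (hp ▸ a3)))) card_le_four (by
      simp only [mem_insert, mem_singleton, not_or]
      exact ⟨p4.symm, fun d => p3 (by rw [← d]; exact s1),
        fun d => par_ne_fl pl m (Prod.mk.inj d).1, fun d => par_ne_fl pl m' (Prod.mk.inj d).1⟩)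
    (by
      simp only [mem_insert, mem_singleton, not_or]
      exact ⟨fun d => s2 (by rw [← p2, ← d]), p5.symm, fun d => nb m (Prod.mk.inj d).1,
        fun d => nb m' (Prod.mk.inj d).1⟩) (by omega)
  have g := card_erase_of_mem jD
  have f1 : (fl v m, false) ∈ Po (D.erase j) v H' T :=
    (mem_side hv jD).mpr ⟨R.2.2.2.1 (by simp), fl_apply_ne v j1⟩
  have f2 : P' (fl v m, false) = (fl v m', false) := (R.eq _ (by simp)).trans hp
  refine R.2.2.2.2 (splitW jD hx hv jv R.1 R.2.1 ((O.even_iff (by omega)).mpr (by rw [x1, x2]; simp))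
    ⟨p, R.2.2.2.1 (by simp), by rw [R.eq p (by simp), p2]; exact p3⟩
    (hTM n 6 0 _ _ _ _ c 0 O (par_emp x1 x2) (by rw [x1, x2]) (by rw [x2]; simp) (by omega)
      (by omega)) fun P2 k1 _ k2 => ?_)
  refine ih (D.erase j) (erase_ssubset jD) v (fl (fl x l) j) H' P2
    ((mem_Sub_erase hv jD).mpr ⟨u2, z2_two jv s2⟩) (self_mem_Sub _ _) ?_ (fun z hz => ?_)
    (fun z hz => hT z ((mem_Sub_erase hv jD).mp hz).1) (mem_erase.mpr ⟨j1.symm, hm⟩)
    (mem_erase.mpr ⟨j2.symm, hm'⟩) k1 f1 ?_ ?_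
  · rw [par_fl, pl]; exact z2_ne _
  · obtain ⟨c1, c2⟩ := (mem_Sub_erase hv jD).mp hz
    rw [k5 z (by rw [c2]; exact jv.symm), hH z c1]
    exact or_congr_right ⟨fun d => d.resolve_left fun d => jv (by rw [← c2, d]), Or.inr⟩
  · rw [k2 _ f1 (by
      rw [f2]; exact (mem_side hv jD).mpr ⟨R.2.2.2.1 (by simp), fl_apply_ne v j2⟩), f2]
  · have := df_mono (erase_subset j D) (fl (fl x l) j) v
    omega

end Pool.Agent.Lib.MP_88ff4d_co.NP
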