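import Pool.Agent.Lib.MP_88ff4d_co.NP.L5
import Pool.Agent.Lib.MP_88ff4d_co.NP.One

/-! At most three uncovered vertices: from the robust port system to the Hamilton path. -/

set_option autoImplicit false

namespace Pool.Agent.Lib.MP_88ff4d_co.NP

open Finset

/-- the statement for an involution `μ` that describes a maximal, not perfect matching -/
def Top5St : Prop := ∀ (n k : ℕ), 100 * (k + 3) ^ 4 ≤ n → k ≤ 3 → ∀ (μ : V n → V n),
  (∀ x, μ (μ x) = x) →
  (∀ x, μ x ≠ x → adj x (μ x)) → #(univ.filter fun x => μ x = x) ≤ k → (∃ x, μ x = x) →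
  (∀ x y, μ x = x → μ y = y → ¬ adj x y) → ∀ u v : V n, par u ≠ par v → μ u ≠ v → μ u ≠ u →
  μ v ≠ v → ∀ G : SimpleGraph (V n), (∀ x y, adj x y → G.Adj x y) →
  ∃ w : G.Walk u v, w.IsHamiltonian ∧ ∀ x, μ x ≠ x → s(x, μ x) ∈ w.edges

/-- the final statement -/
def TwoSt : Prop := ∀ (n k : ℕ), 100 * (k + 3) ^ 4 ≤ n →
  ∀ (G : SimpleGraph (Fin n → ZMod 2)), (∀ x y, G.Adj x y ↔ hammingDist x y = 1) →
  ∀ M : G.Subgraph, M.IsMatching → M.vertsᶜ.ncard ≤ k →
  (∀ N : G.Subgraph, N.IsPerfectMatching → ¬ M ≤ N) →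
  ∀ u v : Fin n → ZMod 2, ∑ i, u i ≠ ∑ i, v i → ¬ M.Adj u v → u ∈ M.verts → v ∈ M.verts →
  (k ≤ 3 ∨ (∀ x, G.Adj v x → x ∈ M.verts) ∧ (G.Adj u v → ∀ x, G.Adj u x → x ∈ M.verts)) →
  ∃ p : G.Walk u v, p.IsHamiltonian ∧ ∀ e ∈ M.edgeSet, e ∈ p.edges

open Top2x in
theorem top5_st (hF : FarSt) (hL : LinkSt) (hTM : TMSt) : Top5St := by
  intro n k hn k3 μ hμ hadj hk hex hna u v huv cuv cu cv G hG
  have hk1 : k + 3 ≤ (k + 3) ^ 4 := Nat.le_self_pow (by norm_num) _
  have n0 : 0 < n := by omega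
  have hne : u ≠ v := fun e => huv (by rw [e])
  obtain ⟨S, s1, s2⟩ : ∃ S : Finset (V n × Bool), (∀ x, (x, true) ∈ S ↔ μ x ≠ x) ∧
      ∀ x, (x, false) ∈ S ↔ x = u ∨ x = v :=
    ⟨univ.filter fun p => if p.2 = true then μ p.1 ≠ p.1 else p.1 = u ∨ p.1 = v,
      fun x => by simp, fun x => by simp⟩
  obtain ⟨R, r1, r2, r3⟩ : ∃ R : V n × Bool → V n × Bool, (∀ x, R (x, true) = (μ x, true)) ∧
      R (u, false) = (v, false) ∧ R (v, false) = (u, false) :=
    ⟨fun p => if p.2 = true then (μ p.1, true) else (if p.1 = u then v else u, false),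
      fun x => by simp, by simp, by simp [hne.symm]⟩
  have hR : Inv S R := by
    rintro ⟨x, b⟩ hx
    cases b
    · rcases (s2 x).mp hx with rfl | rfl
      · rw [r2, r3, s2]
        exact ⟨Or.inr rfl, fun e => hne (Prod.mk.inj e).1.symm, rfl⟩
      · rw [r3, r2, s2]
        exact ⟨Or.inl rfl, fun e => hne (Prod.mk.inj e).1, rfl⟩
    · have c := (s1 x).mp hx
      rw [r1, r1, s1, hμ]
      exact ⟨c.symm, fun e => c (Prod.mk.inj e).1, rfl⟩
  set T := univ.filter fun x : V n => μ x = x with hT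
  have mT : ∀ x, x ∈ T ↔ μ x = x := fun x => by simp [hT]
  have mS : ∀ x : V n, x ∈ Sub univ (0 : V n) :=
    fun x => mem_Sub.mpr fun i hi => absurd (mem_univ i) hi
  have ePo : univ \ S = Po univ 0 {u, v} T := by
    ext ⟨x, b⟩
    cases b <;> simp [Po, s1, s2, mT, mS]
  have hrob : Rob (Po univ 0 {u, v} T) :=
    rob3 (U := T) hF hL hTM ⟨fun x _ => mS x, fun x _ => mS x,
      fun z _ => Iff.rfl, fun z _ => Iff.rfl, disjoint_insert_left.mpr ⟨fun e => cu ((mT u).mp e),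
        disjoint_singleton_left.mpr fun e => cv ((mT v).mp e)⟩, fun x hx y hy e => by
          rw [df_ham]; exact three e (hna x y ((mT x).mp hx) ((mT y).mp hy))⟩ huv
      (bal n0 μ hμ hadj huv) (hex.imp fun x hx => (mT x).mpr hx) (hk.trans k3) fun a => by
        rw [card_univ, Fintype.card_fin]
        have : 5 ^ 4 ≤ (k + 3) ^ 4 := Nat.pow_le_pow_left (by omega) 4
        omega
  obtain ⟨P', p1, p2, p3⟩ := contract inv_sw (subset_univ S) hR (by
    intro A hA c1 c2
    rw [eq_empty_iff_forall_notMem]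
    intro p hp
    have a1 := (s2 _).mp (hA (mem_false c1 hp false))
    have a3 := c2 _ (mem_false c1 hp true)
    rw [r1] at a3
    have a4 : μ p.1 = u ∨ μ p.1 = v := (s2 _).mp (hA (mem_false c1 a3 false))
    rcases a1 with e | e <;> rw [e] at a4
    · exact a4.elim cu cuv
    · exact a4.elim (fun e' => cuv (by rw [← e', hμ])) cv)
  obtain ⟨R', q1, q2, q3⟩ := hrob P' (ePo ▸ p1) (by
    intro x hx
    rw [← ePo] at hx
    have a1 := (mem_sdiff.mp hx).2
    have a0 : μ x = x := not_not.mp fun e => a1 ((s1 x).mpr e)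
    have a2 : (x, false) ∉ S := fun e => by
      rcases (s2 x).mp e with rfl | rfl
      · exact cu a0
      · exact cv a0
    have a3 := p2 (univ.filter fun q => q.1 = x) (subset_univ _)
      (fun q hq => mem_filter.mpr ⟨mem_univ _, (mem_filter.mp hq).2⟩)
      (fun q hq hS => by
        obtain ⟨y, b⟩ := q
        obtain rfl : y = x := (mem_filter.mp hq).2
        cases b
        · exact absurd hS a2
        · exact absurd hS a1) (x, true) (mem_filter.mpr ⟨mem_univ _, rfl⟩) a1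
    exact eq_sw (p := (x, true)) (mem_filter.mp a3).2 (p1 _ hx).2.1)
  rw [← ePo] at q1 q2 q3
  obtain ⟨g1, g2⟩ := p3 R' q1 q3
  obtain ⟨W, W1, W2⟩ := path_of_ports G _ g1 g2 u v
    (by simp only [if_pos ((s2 u).mpr (Or.inl rfl)), r2]) (by
    rintro ⟨x, b⟩ h1 h2
    refine hG _ _ ?_
    by_cases e : (x, b) ∈ S
    · simp only [if_pos e]
      cases b
      · rcases (s2 x).mp e with rfl | rfl
        · exact absurd rfl h1
        · exact absurd rfl h2
      · rw [r1]; exact hadj x ((s1 x).mp e)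
    · simp only [if_neg e]
      exact q2 _ (mem_sdiff.mpr ⟨mem_univ _, e⟩))
  refine ⟨W, W1, fun x hx => W2 x (μ x) ?_⟩
  simp only [if_pos ((s1 x).mpr hx), r1]

theorem two_st (h0 : OneSt) (h : Top5St) : TwoSt := by
  intro n k hn G hG M hM hk hnp u v huv hadj hu hv hc
  rcases hc with hk3 | hc
  swap
  · exact h0 n k hn G hG M hM hk hnp u v huv hadj hu hv hc.1 hc.2
  classical
  let μ : V n → V n := fun x => if h : x ∈ M.verts then (hM h).exists.choose else x
  have n1 : ∀ x ∈ M.verts, M.Adj x (μ x) := by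
    intro x h
    simp only [μ, dif_pos h]
    exact (hM h).exists.choose_spec
  have n0 : ∀ x ∉ M.verts, μ x = x := fun x h => dif_neg h
  have n2 : ∀ x y, M.Adj x y → μ x = y := fun x y hxy =>
    (hM (M.edge_vert hxy)).unique (n1 x (M.edge_vert hxy)) hxy
  have n3 : ∀ x, μ (μ x) = x := by
    intro x
    by_cases h : x ∈ M.verts
    · exact n2 _ _ (n1 x h).symm
    · rw [n0 x h, n0 x h]
  have ga : ∀ x y, adj x y ↔ G.Adj x y := fun x y => (adj_iff x y).trans (hG x y).symm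
  obtain ⟨ν, k1, k2, k3, k4⟩ := greedy _ μ n3 (fun x hx =>
    (ga _ _).mpr (n1 x (by_contra fun h' => hx (n0 x h'))).adj_sub) le_rfl
  have k5 : ∀ x y, M.Adj x y → ν x = y := fun x y hxy => by
    rw [k3 x (by rw [n2 x y hxy]; exact hxy.ne.symm), n2 x y hxy]
  have k6 : ∀ x, ν x = x → x ∉ M.verts := fun x hx c => (n1 x c).ne (hx.symm.trans (k5 _ _ (n1 x c)))
  obtain ⟨w, w1, w2⟩ := h n k hn hk3 ν k1 k2 (by
      rw [Set.ncard_eq_toFinset_card'] at hk
      refine le_trans (card_le_card (t := M.vertsᶜ.toFinset) fun x hx => ?_) hk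
      rw [Set.mem_toFinset]
      exact k6 x (mem_filter.mp hx).2)
    (by
      by_contra c
      push Not at c
      refine hnp ⟨Set.univ, fun x y => ν x = y, fun {x y} e => e ▸ (ga _ _).mp (k2 x (c x)),
        fun _ => Set.mem_univ _, ⟨fun x y e => by rw [← e, k1]⟩⟩
        ⟨fun x _ => ⟨ν x, rfl, fun y e => Eq.symm e⟩, fun _ => Set.mem_univ _⟩
        ⟨Set.subset_univ _, fun x y e => k5 x y e⟩) k4 u v huv
    (fun c => hadj (c ▸ (k5 _ _ (n1 u hu)).symm ▸ n1 u hu)) (fun c => k6 u c hu)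
    (fun c => k6 v c hv) G
    fun x y c => (ga x y).mp c
  refine ⟨w, w1, fun e he => ?_⟩
  induction e using Sym2.ind with
  | _ y z =>
    have k := k5 y z he
    exact k ▸ w2 y (k ▸ (SimpleGraph.Subgraph.Adj.ne he).symm)

theorem two_of (h5 : SQ5St) : TwoSt :=
  have sq := sq_st (sq5g_st h5)
  have sqm := sqm_st sq far_st link_st
  two_st (one_of h5) (top5_st far_st link_st
    (tm_st sqm (t1_st sqm (cl_st sq) far_st link_st) far_st cnt_st link_st))

end Pool.Agent.Lib.MP_88ff4d_co.NP
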